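import Pool.Agent.H506.D5.Stm

/-!
# Class groups of quadratic function fields in characteristic 5: the fifth power of the derivation (A1b)
-/

open Polynomial
open scoped Classical

noncomputable section

namespace D5

namespace XA1b

variable {F : Type} [Field F] [CharP F 5]

/-- `5 = 0` in `F[X]` -/
lemma five : (5 : F[X]) = 0 := by
  have h : ((5 : ℕ) : F[X]) = 0 := CharP.cast_eq_zero F[X] 5
  simpa using h

/-- the fifth derivative vanishes -/
lemma d5 (G : F[X]) : derivative (d4 G) = 0 := by
  have h := congrFun (Polynomial.factorial_smul_hasseDeriv (R := F) 5) G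
  have h2 : derivative (d4 G) = derivative^[5] G := rfl
  rw [h2, ← h]
  have h3 : ((Nat.factorial 5 : ℕ) : F[X]) = 0 := by
    have h4 : (Nat.factorial 5) = 5 * 24 := by decide
    have h6 : ((5 : ℕ) : F[X]) = 0 := CharP.cast_eq_zero F[X] 5
    rw [h4, Nat.cast_mul, h6, zero_mul]
  change (Nat.factorial 5) • (hasseDeriv 5 G) = 0
  rw [nsmul_eq_mul, h3, zero_mul]

/-- the operator `v ↦ v'' f + 3 v' f'` -/
def EE (f v : F[X]) : F[X] := derivative (derivative v) * f + 3 * (derivative v * derivative f)

omit [CharP F 5] in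
lemma dl_re (f a : F[X]) : dl f (⟨a, 0⟩ : OO f) = ⟨0, derivative a⟩ := by
  simp [dl]

omit [CharP F 5] in
lemma dl_im (f b : F[X]) : dl f (⟨0, b⟩ : OO f) =
    ⟨derivative b * f + 3 * (b * derivative f), 0⟩ := by
  simp [dl]

/-- the fourth power on polynomials -/
lemma EE_EE (f v : F[X]) : EE f (EE f v) = d4 (f ^ 2 * v) - d4 (f ^ 2) * v := by
  have h5 := five (F := F)
  have h3 : derivative (3 : F[X]) = 0 := by
    have := Polynomial.derivative_ofNat (R := F) 3
    exact this
  have h2 : derivative (2 : F[X]) = 0 := by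
    have := Polynomial.derivative_ofNat (R := F) 2
    exact this
  simp only [EE, d4, pow_two, derivative_add, derivative_mul, h3, zero_mul, zero_add]
  linear_combination (-(f * derivative (derivative f) * derivative (derivative v) +
    f * derivative (derivative (derivative f)) * derivative v +
    3 * derivative f * derivative (derivative f) * derivative v)) * h5

omit [CharP F 5] in
lemma cc_mul (f K a b : F[X]) : -cc f K * (⟨a, b⟩ : OO f) = ⟨-(K * a), -(K * b)⟩ := by
  apply QuadraticAlgebra.ext
  · simp [cc]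
  · simp [cc]

end XA1b

open XA1b in
theorem p_A1b (F : Type) [Field F] [Fintype F] [CharP F 5] (_hA1 : S_A1 F) : S_A1b F := by
  intro f
  refine ⟨fun x => ?_, fun v => ?_⟩
  · obtain ⟨a, b⟩ := x
    set c : F[X] := derivative b * f + 3 * (b * derivative f) with hc
    have e1 : dl f (⟨a, b⟩ : OO f) = ⟨c, derivative a⟩ := rfl
    rw [e1, cc_mul]
    have e5 : dl f (dl f (dl f (dl f (⟨c, derivative a⟩ : OO f)))) =
        ⟨EE f (EE f c), derivative (EE f (EE f a))⟩ := rfl
    rw [e5, EE_EE, EE_EE]
    have h1 : f ^ 2 * c = derivative (b * f ^ 3) := by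
      rw [hc, derivative_mul, derivative_pow]
      simp only [Nat.cast_ofNat, map_ofNat]
      ring
    have h2 : d4 (f ^ 2 * c) = 0 := by
      rw [h1]
      exact d5 (b * f ^ 3)
    rw [h2, derivative_sub, derivative_mul, d5, d5]
    apply QuadraticAlgebra.ext
    · simp
    · simp
  · have e4 : dl f (dl f (dl f (dl f (cc f v)))) = cc f (EE f (EE f v)) := by
      rw [cc, dl_re, dl_im, dl_re, dl_im]
      rfl
    rw [e4, EE_EE]

end D5
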