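import Pool.Agent.H506.D5.Stm

open Polynomial
open scoped Classical

noncomputable section

namespace D5

namespace XA4

variable {F : Type} [Field F] [Fintype F] [CharP F 5]

omit [Fintype F] in
theorem five : (5 : F[X]) = 0 := by
  have h : ((5 : ℕ) : F[X]) = 0 := CharP.cast_eq_zero F[X] 5
  exact_mod_cast h

omit [Fintype F] in
theorem fiveO (f : F[X]) : (5 : OO f) = 0 :=
  QuadraticAlgebra.ext (show (5 : F[X]) = 0 from five) rfl

omit [Fintype F] in
theorem fifth (f a c : F[X]) : (⟨a, c⟩ : OO f) ^ 5 = ⟨a ^ 5, c ^ 5 * f ^ 2⟩ := by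
  have h5 : (5 : F[X]) = 0 := five
  rw [show (5 : ℕ) = 2 + 2 + 1 from rfl, pow_add, pow_add, pow_one, pow_two]
  apply QuadraticAlgebra.ext
  · simp only [QuadraticAlgebra.re_mul, QuadraticAlgebra.im_mul]
    linear_combination (2 * a ^ 3 * c ^ 2 * f + a * c ^ 4 * f ^ 2) * h5
  · simp only [QuadraticAlgebra.re_mul, QuadraticAlgebra.im_mul]
    linear_combination (a ^ 4 * c + 2 * a ^ 2 * c ^ 3 * f) * h5

omit [Fintype F] [CharP F 5] in
theorem der3 (b f : F[X]) :
    derivative (b * f ^ 3) = f ^ 2 * (derivative b * f + 3 * (b * derivative f)) := by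
  rw [derivative_mul, pow_succ, derivative_mul, pow_two, derivative_mul]
  ring

omit [Fintype F] in
theorem first (hB : ∀ G : F[X], derivative G = 0 ↔ ∃ A : F[X], G = A ^ 5) (f : F[X])
    (hf : f.Monic) (hs : Squarefree f) (x : OO f) (hx : dl f x = 0) : ∃ y : OO f, x = y ^ 5 := by
  have hf0 : f ≠ 0 := hf.ne_zero
  have h1 : derivative x.im * f + 3 * (x.im * derivative f) = 0 :=
    congrArg QuadraticAlgebra.re hx
  have h2 : derivative x.re = 0 := congrArg QuadraticAlgebra.im hx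
  obtain ⟨a, ha⟩ := (hB _).1 h2
  have h4 : derivative (x.im * f ^ 3) = 0 := by
    rw [der3, h1, mul_zero]
  obtain ⟨c, hc⟩ := (hB _).1 h4
  have h5 : f ∣ c := by
    apply hs.isRadical 5 c
    rw [← hc]
    exact ⟨x.im * f ^ 2, by ring⟩
  obtain ⟨d, rfl⟩ := h5
  have h6 : x.im = d ^ 5 * f ^ 2 := by
    have : f ^ 3 * x.im = f ^ 3 * (d ^ 5 * f ^ 2) := by
      linear_combination hc
    exact mul_left_cancel₀ (pow_ne_zero 3 hf0) this
  refine ⟨⟨a, d⟩, ?_⟩
  rw [fifth]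
  exact QuadraticAlgebra.ext ha h6

end XA4

theorem p_A4 (F : Type) [Field F] [Fintype F] [CharP F 5] (hA1 : S_A1 F) (hA2 : S_A2 F)
    (hB1 : S_B1 F) : S_A4 F := by
  intro f hf
  have h1 := fun x hx => XA4.first hB1.1 f hf.1 hf.2.1 x hx
  refine ⟨h1, ?_⟩
  intro p q hp hq hpq
  obtain ⟨-, hmul, -, -, -⟩ := hA1 f
  have : IsDomain (OO f) := (hA2 f hf).1
  have h5 : (5 : OO f) = 0 := XA4.fiveO f
  have h2 : dl f (p * (p * (p * (p * q)))) = 0 := by
    rw [hmul, hmul, hmul, hmul]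
    linear_combination p ^ 3 * hpq + (p ^ 3 * q * dl f p) * h5
  obtain ⟨y, hy⟩ := h1 _ h2
  refine ⟨p, y, hp, ?_, ?_⟩
  · intro h0
    rw [h0] at hy
    have : p * (p * (p * (p * q))) = 0 := by
      rw [hy]
      ring
    exact mul_ne_zero hp (mul_ne_zero hp (mul_ne_zero hp (mul_ne_zero hp hq))) this
  · rw [← hy]
    ring

end D5
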