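import Pool.Agent.H506.D5.Stm

/-!
# A5: every maximal ideal `Q` of `OO f` contains `π` with `δ π ∉ Q` (helper706, after `Pool.Agent.H463.DH.A5`)
-/

open Polynomial
open scoped Classical

noncomputable section

namespace D5

namespace XA5

variable {F : Type} [Field F]

/-- `cc f` as a ring homomorphism -/
def ccH (f : F[X]) : F[X] →+* OO f where
  toFun := cc f
  map_one' := rfl
  map_mul' a b := by ext <;> simp [cc]
  map_zero' := by ext <;> simp [cc]
  map_add' a b := by ext <;> simp [cc]

theorem ccH_apply (f a : F[X]) : ccH f a = cc f a := rfl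

theorem ccH_inj (f : F[X]) : Function.Injective (ccH f) := by
  intro a b h
  have := congrArg QuadraticAlgebra.re h
  simpa [ccH_apply, cc] using this

/-- the generator `s` -/
def ss (f : F[X]) : OO f := ⟨0, 1⟩

theorem ss_mul (f : F[X]) : ss f * ss f = cc f f := by
  ext <;> simp [ss, cc]

theorem dl_cc (f a : F[X]) : dl f (cc f a) = cc f (derivative a) * ss f := by
  ext <;> simp [dl, cc, ss]

theorem dl_ss (f : F[X]) : dl f (ss f) = cc f (3 * derivative f) := by
  ext <;> simp [dl, cc, ss]

theorem six (F : Type) [Field F] [CharP F 5] : (6 : F[X]) = 1 := by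
  have h : (5 : F[X]) = 0 := by
    have := CharP.cast_eq_zero F[X] 5
    exact_mod_cast this
  linear_combination h

/-- norm -/
theorem nrm_mul (f : F[X]) (x : OO f) :
    x * (⟨x.re, - x.im⟩ : OO f) = cc f (x.re ^ 2 - f * x.im ^ 2) := by
  refine QuadraticAlgebra.ext ?_ ?_
  · rw [QuadraticAlgebra.re_mul]
    show x.re * x.re + f * x.im * (-x.im) = x.re ^ 2 - f * x.im ^ 2
    ring
  · rw [QuadraticAlgebra.im_mul]
    show x.re * (-x.im) + x.im * x.re + 0 * x.im * (-x.im) = 0
    ring

end XA5

open XA5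

theorem p_A5 (F : Type) [Field F] [Fintype F] [CharP F 5] (hA2 : S_A2 F) : S_A5 F := by
  intro f hf Q hQ
  obtain ⟨hdom, hu⟩ := hA2 f hf
  have hQp : Q.IsPrime := hQ.isPrime
  -- `Q ≠ ⊥`
  have hQ0 : Q ≠ ⊥ := by
    intro h0
    have hX : ¬ IsUnit (cc f X) := by
      intro h
      obtain ⟨a, _, ha⟩ := hu _ h
      have := ccH_inj f (a₁ := X) (a₂ := C a) ha
      exact X_ne_C a this
    have hne : Ideal.span {cc f X} ≠ ⊤ := by
      rw [Ne, Ideal.span_singleton_eq_top]
      exact hX
    have := hQ.eq_of_le hne (by rw [h0]; exact bot_le)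
    rw [h0] at this
    have h1 : cc f X = 0 := by
      rw [← Ideal.span_singleton_eq_bot]
      exact this.symm
    have h2 : ccH f X = ccH f 0 := by rw [map_zero]; exact h1
    exact X_ne_zero (ccH_inj f h2)
  -- the prime ideal of `F[X]` below `Q`
  have hp : (Ideal.comap (ccH f) Q).IsPrime := Ideal.comap_isPrime _ _
  have hp0 : Ideal.comap (ccH f) Q ≠ ⊥ := by
    obtain ⟨x, hxQ, hx0⟩ := Submodule.exists_mem_ne_zero_of_ne_bot hQ0
    intro h
    have hmem : x.re ^ 2 - f * x.im ^ 2 ∈ Ideal.comap (ccH f) Q := by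
      rw [Ideal.mem_comap, ccH_apply, ← nrm_mul]
      exact Q.mul_mem_right _ hxQ
    rw [h, Ideal.mem_bot] at hmem
    have h1 := nrm_mul f x
    rw [hmem] at h1
    have h2 : x * (⟨x.re, - x.im⟩ : OO f) = 0 := by
      rw [h1]; exact map_zero (ccH f)
    rcases mul_eq_zero.1 h2 with h3 | h3
    · exact hx0 h3
    · apply hx0
      have e1 := congrArg QuadraticAlgebra.re h3
      have e2 := congrArg QuadraticAlgebra.im h3
      simp at e1 e2
      ext
      · rw [e1]; rfl
      · rw [e2]; rfl
  set P : F[X] := Submodule.IsPrincipal.generator (Ideal.comap (ccH f) Q) with hP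
  have hPp : Prime P := Submodule.IsPrincipal.prime_generator_of_isPrime _ hp0
  have hPm : P ∈ Ideal.comap (ccH f) Q := Submodule.IsPrincipal.generator_mem _
  rw [Ideal.mem_comap, ccH_apply] at hPm
  have hsepP : P.Separable := PerfectField.separable_of_irreducible hPp.irreducible
  have hsepf : f.Separable := PerfectField.separable_iff_squarefree.2 hf.2.1
  have key : ∀ g : F[X], g.Separable → cc f g ∈ Q → cc f (derivative g) ∉ Q := by
    intro g hg h1 h2
    obtain ⟨a, b, hab⟩ := hg
    apply hQp.ne_top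
    rw [Ideal.eq_top_iff_one]
    have : (1 : OO f) = ccH f a * cc f g + ccH f b * cc f (derivative g) := by
      rw [← ccH_apply, ← ccH_apply, ← map_mul, ← map_mul, ← map_add, hab, map_one]
    rw [this]
    exact Q.add_mem (Q.mul_mem_left _ h1) (Q.mul_mem_left _ h2)
  by_cases hs : ss f ∈ Q
  · refine ⟨ss f, hs, ?_⟩
    rw [dl_ss]
    intro h
    have hff : cc f f ∈ Q := by rw [← ss_mul]; exact Q.mul_mem_left _ hs
    refine key f hsepf hff ?_
    have h6 : cc f (derivative f) = ccH f 2 * cc f (3 * derivative f) := by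
      rw [← ccH_apply, ← ccH_apply, ← map_mul]
      congr 1
      linear_combination -(derivative f) * six F
    rw [h6]
    exact Q.mul_mem_left _ h
  · refine ⟨cc f P, hPm, ?_⟩
    rw [dl_cc]
    intro h
    rcases hQp.mem_or_mem h with h1 | h1
    · exact key P hsepP hPm h1
    · exact hs h1

end D5
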