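import Pool.Agent.H506.D5.Stm

/-!
# A6: the solutions of `δ h = v h` generate the unit ideal (helper176)
-/

open Polynomial
open scoped Classical

noncomputable section

namespace D5

namespace XA6

theorem fiveX (F : Type) [Field F] [CharP F 5] : (5 : F[X]) = 0 := by
  have h2 : ((5 : ℕ) : F[X]) = 0 := CharP.cast_eq_zero F[X] 5
  exact_mod_cast h2

theorem five (F : Type) [Field F] [CharP F 5] (f : F[X]) : (5 : OO f) = 0 := by
  have h1 := fiveX F
  have h4 : (algebraMap F[X] (OO f)) 5 = 0 := by rw [h1, map_zero]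
  rw [← h4]
  exact (map_ofNat (algebraMap F[X] (OO f)) 5).symm

theorem fifth (F : Type) [Field F] [CharP F 5] (G : F[X]) : derivative (d4 G) = 0 := by
  have h : ((derivative : F[X] →ₗ[F] F[X]) ^[5]) G = (Nat.factorial 5 • hasseDeriv 5) G :=
    (congrFun (Polynomial.factorial_smul_hasseDeriv (R := F) (k := 5)) G).symm
  have h2 : derivative (d4 G) = ((derivative : F[X] →ₗ[F] F[X]) ^[5]) G := rfl
  have h3 : (Nat.factorial 5 • hasseDeriv 5) G = 24 * (5 * hasseDeriv 5 G) := by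
    rw [LinearMap.smul_apply, nsmul_eq_mul]
    norm_num [Nat.factorial]
    ring
  rw [h2, h, h3, fiveX F]
  ring

section

variable {R : Type} [CommRing R] (D : R → R) (g : R)

/-- the twisted derivation -/
def T (x : R) : R := D x - g * x

variable (a1 : ∀ x y, D (x + y) = D x + D y) (a2 : ∀ x y, D (x * y) = x * D y + y * D x)

include a1 in
theorem asub (x y : R) : D (x - y) = D x - D y := (AddMonoidHom.mk' D a1).map_sub x y

include a1 a2 in
theorem jac (h5 : (5 : R) = 0) (x : R) :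
    T D g (T D g (T D g (T D g (T D g x)))) =
      D (D (D (D (D x)))) - D (D (D (D g))) * x - g ^ 5 * x := by
  have as := asub D a1
  simp only [T, as, a1, a2]
  linear_combination (-D (D (D g)) * D x - 2 * D (D g) * D (D x) - 2 * D g * D (D (D x)) +
    2 * D g * D (D g) * x + 3 * D g ^ 2 * D x - g * D (D (D (D x))) + g * D (D (D g)) * x +
    4 * g * D (D g) * D x + 6 * g * D g * D (D x) - 3 * g * D g ^ 2 * x +
    2 * g ^ 2 * D (D (D x)) - 2 * g ^ 2 * D (D g) * x - 6 * g ^ 2 * D g * D x -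
    2 * g ^ 3 * D (D x) + 2 * g ^ 3 * D g * x + g ^ 4 * D x) * h5

include a2 in
theorem T_mul (y z : R) : T D g (y * z) = y * T D g z + D y * z := by
  unfold T
  rw [a2]
  ring

include a2 in
theorem four (p : R) : ∃ w : R, T D g (T D g (T D g (T D g (p ^ 4)))) = 24 * D p ^ 4 + p * w := by
  have d2 : D (p ^ 2) = 2 * p * D p := by
    rw [pow_two, a2]
    ring
  have d3 : D (p ^ 3) = 3 * p ^ 2 * D p := by
    rw [pow_succ, a2, d2]
    ring
  have d4 : D (p ^ 4) = 4 * p ^ 3 * D p := by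
    rw [pow_succ, a2, d3]
    ring
  set y1 : R := -(p * g) + 4 * D p with hy1
  set y2 : R := p * T D g y1 + 3 * D p * y1 with hy2
  set y3 : R := p * T D g y2 + 2 * D p * y2 with hy3
  have t1 : T D g (p ^ 4) = p ^ 3 * y1 := by
    unfold T
    rw [d4, hy1]
    ring
  have t2 : T D g (p ^ 3 * y1) = p ^ 2 * y2 := by
    rw [T_mul D g a2, d3, hy2]
    ring
  have t3 : T D g (p ^ 2 * y2) = p * y3 := by
    rw [T_mul D g a2, d2, hy3]
    ring
  have t4 : T D g (p * y3) = p * T D g y3 + D p * y3 := T_mul D g a2 p y3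
  refine ⟨T D g y3 + D p * T D g y2 + 2 * D p ^ 2 * T D g y1 - 6 * D p ^ 3 * g, ?_⟩
  rw [t1, t2, t3, t4]
  rw [show D p * y3 = D p * (p * T D g y2 + 2 * D p * (p * T D g y1 + 3 * D p *
    (-(p * g) + 4 * D p))) by rw [hy3, hy2]]
  ring

end

end XA6

theorem p_A6 (F : Type) [Field F] [Fintype F] [CharP F 5] (hA1 : S_A1 F) (hA1b : S_A1b F)
    (hA5 : S_A5 F) : S_A6 F := by
  intro f hf v hv
  obtain ⟨a1, a2, -, -, a5⟩ := hA1 f
  obtain ⟨b1, b2⟩ := hA1b f
  have h5 := XA6.five F f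
  set g : OO f := cc f v with hg
  set c : OO f := cc f (d4 (f ^ 2)) with hc
  have hdc : dl f c = 0 := by
    rw [hc, a5, XA6.fifth]
    rfl
  have hsol : dl f (dl f (dl f (dl f g))) = - g ^ 5 - c * g := by
    have e0 : d4 (f ^ 2 * v) = - v ^ 5 := hv
    rw [hg, b2, e0, hc]
    have e2 : (cc f v) ^ 5 = cc f (v ^ 5) := by
      unfold cc
      ext <;> simp [pow_succ]
    rw [e2]
    unfold cc
    ext <;> simp
  have asub := XA6.asub (dl f) a1
  have hmem : ∀ x z : OO f,
      XA6.T (dl f) g (XA6.T (dl f) g (XA6.T (dl f) g (XA6.T (dl f) g x))) = z →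
      z + c * x ∈ {h : OO f | dl f h = g * h} := by
    intro x z hz
    have e1 : XA6.T (dl f) g (XA6.T (dl f) g (XA6.T (dl f) g (XA6.T (dl f) g
      (XA6.T (dl f) g x)))) = dl f (dl f (dl f (dl f (dl f x)))) -
      dl f (dl f (dl f (dl f g))) * x - g ^ 5 * x := XA6.jac (dl f) g a1 a2 h5 x
    rw [hz] at e1
    have e2 : dl f z = XA6.T (dl f) g z + g * z := (sub_add_cancel _ _).symm
    show dl f (z + c * x) = g * (z + c * x)
    have e3 : dl f (z + c * x) = dl f z + (c * dl f x + x * dl f c) :=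
      (a1 z (c * x)).trans (congrArg (fun t => dl f z + t) (a2 c x))
    have e4 : dl f z = - c * dl f x - (- g ^ 5 - c * g) * x - g ^ 5 * x + g * z :=
      e2.trans (congrArg (fun t => t + g * z) (e1.trans (by rw [b1 x, hsol])))
    rw [e3, e4, hdc]
    ring
  by_contra hne
  obtain ⟨Q, hQ, hle⟩ := Ideal.exists_le_maximal _ hne
  obtain ⟨p, hp, hdp⟩ := hA5 f hf Q hQ
  obtain ⟨w, hw⟩ := XA6.four (dl f) g a2 p
  have h4 := hle (Ideal.subset_span (hmem (p ^ 4) _ hw))
  have h6 : dl f p ^ 4 ∈ Q := by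
    have h7 : p * (w + c * p ^ 3) ∈ Q := Q.mul_mem_right _ hp
    have h8 := Q.sub_mem h7 h4
    have e3 : dl f p ^ 4 = p * (w + c * p ^ 3) - (24 * dl f p ^ 4 + p * w + c * p ^ 4) := by
      linear_combination (5 * dl f p ^ 4) * h5
    rw [e3]
    exact h8
  exact hdp (hQ.isPrime.mem_of_pow_mem 4 h6)

end D5
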