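import Pool.Agent.H506.D5.Stm

/-!
# Task A8 (helper84): an ideal `I` with `I ^ 5 = (h)` gives a solution `v`

Adapted from `Pool/Agent/H463/DH/A8.lean` (characteristic 3).
-/

open Polynomial
open scoped Classical

noncomputable section

namespace D5

namespace XA8

set_option linter.unusedSectionVars false

/-- Jacobson's formula in degree five -/
theorem jac {R : Type} [CommRing R] (δ : R → R) (hadd : ∀ x y, δ (x + y) = δ x + δ y)
    (hmul : ∀ x y, δ (x * y) = x * δ y + y * δ x) (h5 : (5 : R) = 0) (v h : R)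
    (hv : δ h = v * h) : δ (δ (δ (δ (δ h)))) = (δ (δ (δ (δ v))) + v ^ 5) * h := by
  have n3 : ∀ x, δ (3 * x) = 3 * δ x := fun x => by
    rw [show 3 * x = x + x + x by ring, hadd, hadd]
    ring
  have n4 : ∀ x, δ (4 * x) = 4 * δ x := fun x => by
    rw [show 4 * x = x + x + x + x by ring, hadd, hadd, hadd]
    ring
  have n6 : ∀ x, δ (6 * x) = 6 * δ x := fun x => by
    rw [show 6 * x = 3 * x + 3 * x by ring, hadd, n3]
    ring
  have e2 : δ (δ h) = (δ v + v * v) * h := by
    rw [hv, hmul, hv]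
    ring
  have e3 : δ (δ (δ h)) = (δ (δ v) + 3 * (v * δ v) + v * (v * v)) * h := by
    rw [e2, hmul, hadd, hmul v v, hv]
    ring
  have e4 : δ (δ (δ (δ h))) = (δ (δ (δ v)) + 4 * (v * δ (δ v)) + 3 * (δ v * δ v) +
      6 * (v * (v * δ v)) + v * (v * (v * v))) * h := by
    rw [e3, hmul, hadd, hadd, n3, hmul v (δ v), hmul v (v * v), hmul v v, hv]
    ring
  rw [e4, hmul, hadd, hadd, hadd, hadd, n4, n3, n6, hmul v (δ (δ v)), hmul (δ v) (δ v),
    hmul v (v * δ v), hmul v (δ v), hmul v (v * (v * v)), hmul v (v * v), hmul v v, hv]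
  linear_combination (v * δ (δ (δ v)) + 2 * (δ v * δ (δ v)) + 2 * (v * v * δ (δ v)) +
    3 * (v * δ v * δ v) + 2 * (v * v * v * δ v)) * h * h5

variable {F : Type} [Field F] [Fintype F] [CharP F 5]

theorem five_zero : (5 : F[X]) = 0 := by
  have h : ((5 : ℕ) : F[X]) = 0 := by
    have h1 : ((5 : ℕ) : F) = 0 := CharP.cast_eq_zero F 5
    rw [← map_natCast (C : F →+* F[X]) 5, h1, map_zero]
  exact_mod_cast h

theorem five_zero' (f : F[X]) : (5 : OO f) = 0 := by
  have h : ((5 : ℕ) : OO f) = algebraMap F[X] (OO f) ((5 : ℕ) : F[X]) := (map_natCast _ 5).symm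
  have h2 : ((5 : ℕ) : F[X]) = 0 := by
    have := five_zero (F := F)
    exact_mod_cast this
  rw [h2, map_zero] at h
  exact_mod_cast h

theorem cc_mul (f v w : F[X]) : cc f v * cc f w = cc f (v * w) := by
  ext <;> simp [cc]

theorem cc_add (f v w : F[X]) : cc f v + cc f w = cc f (v + w) := by
  ext <;> simp [cc]

theorem cc_pow (f v : F[X]) : cc f v ^ 5 = cc f (v ^ 5) := by
  rw [show v ^ 5 = v * v * v * v * v by ring, ← cc_mul, ← cc_mul, ← cc_mul, ← cc_mul]
  ring

theorem cc_inj {f v : F[X]} (h : cc f v = 0) : v = 0 := congrArg QuadraticAlgebra.re h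

/-- `h` divides `δ h` -/
theorem dvd_dl (hA1 : S_A1 F) {f : F[X]} [IsDomain (OO f)] {h : OO f} (hh : h ≠ 0)
    {I : Ideal (OO f)} (hI : I ^ 5 = Ideal.span {h}) : h ∣ dl f h := by
  obtain ⟨hadd, hmul, hfifth, -, -⟩ := hA1 f
  have h3 := five_zero' f
  have key : ∀ t ∈ I * I ^ 4, ∃ c, t ^ 5 = h ^ 5 * c ∧ h ∣ c * dl f h := by
    intro t ht
    refine Submodule.mul_induction_on ht ?_ ?_
    · intro x hx y hy
      have hx3 : x ^ 5 ∈ Ideal.span {h} := by
        rw [← hI]
        exact Ideal.pow_mem_pow hx 5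
      have hy3 : y ^ 5 ∈ Ideal.span {h ^ 4} := by
        rw [← Ideal.span_singleton_pow, ← hI, ← pow_mul, mul_comm 5 4, pow_mul]
        exact Ideal.pow_mem_pow hy 5
      obtain ⟨b, hb⟩ := Ideal.mem_span_singleton.1 hx3
      obtain ⟨a, ha⟩ := Ideal.mem_span_singleton.1 hy3
      refine ⟨a * b, ?_, ?_⟩
      · rw [mul_pow, hb, ha]
        ring
      · have h1 : dl f (h ^ 4 * a) = 0 := by rw [← ha, hfifth]
        have h4 : dl f (h ^ 4) = 4 * h ^ 3 * dl f h := by
          rw [show h ^ 4 = h * (h * (h * h)) by ring, hmul, hmul h (h * h), hmul h h]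
          ring
        rw [hmul, h4] at h1
        have h2 : h ^ 3 * (h * dl f a - a * dl f h) = 0 := by
          linear_combination h1 - h ^ 3 * a * dl f h * h3
        have h6 := (mul_eq_zero.1 h2).resolve_left (pow_ne_zero 3 hh)
        exact ⟨dl f a * b, by linear_combination -b * h6⟩
    · rintro x y ⟨c, hc, hc'⟩ ⟨c', hd, hd'⟩
      refine ⟨c + c', ?_, ?_⟩
      · linear_combination hc + hd +
          (x ^ 4 * y + 2 * x ^ 3 * y ^ 2 + 2 * x ^ 2 * y ^ 3 + x * y ^ 4) * h3
      · rw [add_mul]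
        exact dvd_add hc' hd'
  have hm : h ∈ I * I ^ 4 := by
    have e : I * I ^ 4 = I ^ 5 := by ring
    rw [e, hI]
    exact Ideal.mem_span_singleton_self h
  obtain ⟨c, hc, hc'⟩ := key h hm
  have h5 : h ^ 5 * (c - 1) = 0 := by linear_combination -hc
  have h6 := (mul_eq_zero.1 h5).resolve_left (pow_ne_zero 5 hh)
  have h7 : c = 1 := sub_eq_zero.1 h6
  rwa [h7, one_mul] at hc'

/-- the factor is a polynomial -/
theorem im_zero {f : F[X]} [IsDomain (OO f)] {h w : OO f} (hh : h ≠ 0)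
    (hw : dl f h = h * w) : w.im = 0 := by
  have h3 := five_zero (F := F)
  have e1 : derivative h.im * f + 3 * (h.im * derivative f) = h.re * w.re + f * h.im * w.im := by
    have := congrArg QuadraticAlgebra.re hw
    simpa [dl] using this
  have e2 : derivative h.re = h.re * w.im + h.im * w.re := by
    have := congrArg QuadraticAlgebra.im hw
    simpa [dl] using this
  obtain ⟨N, hN⟩ : ∃ N : F[X], N = h.re ^ 2 - f * h.im ^ 2 := ⟨_, rfl⟩
  have hN0 : N ≠ 0 := by
    intro h0
    have h4 : h * (⟨h.re, -h.im⟩ : OO f) = 0 := by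
      refine QuadraticAlgebra.ext ?_ ?_
      · rw [QuadraticAlgebra.re_mul]
        show h.re * h.re + f * h.im * -h.im = 0
        linear_combination h0 - hN
      · rw [QuadraticAlgebra.im_mul]
        show h.re * -h.im + h.im * h.re + 0 * h.im * -h.im = 0
        ring
    rcases mul_eq_zero.1 h4 with h5 | h5
    · exact hh h5
    · apply hh
      have h6 : h.re = 0 := congrArg QuadraticAlgebra.re h5
      have h7 : -h.im = 0 := congrArg QuadraticAlgebra.im h5
      exact QuadraticAlgebra.ext h6 (neg_eq_zero.1 h7)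
  have hN' : derivative N = 2 * w.im * N := by
    rw [hN, derivative_sub, derivative_pow, derivative_mul, derivative_pow]
    simp only [Nat.cast_ofNat, map_ofNat]
    linear_combination 2 * h.re * e2 - 2 * h.im * e1 + derivative f * h.im ^ 2 * h3
  by_contra hb
  have h2 : (2 : F[X]) ≠ 0 := by
    intro h2
    have : (1 : F[X]) = 0 := by linear_combination h3 - 2 * h2
    exact one_ne_zero this
  have h4 : (2 * w.im * N).degree ≥ N.degree := by
    rw [degree_mul]
    have h5 : 0 ≤ (2 * w.im).degree := zero_le_degree_iff.2 (mul_ne_zero h2 hb)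
    exact le_add_of_nonneg_left h5
  rw [← hN'] at h4
  exact absurd (degree_derivative_lt hN0) (not_lt.2 h4)

/-- the equation -/
theorem sol_of (hA1 : S_A1 F) (hA1b : S_A1b F) {f : F[X]} [IsDomain (OO f)] {h : OO f}
    (hh : h ≠ 0) {v : F[X]} (hv : dl f h = cc f v * h) : IsSol f v := by
  obtain ⟨hadd, hmul, -, -, -⟩ := hA1 f
  obtain ⟨hfive, hfour⟩ := hA1b f
  have h3 := five_zero' f
  have e1 := jac (dl f) hadd hmul h3 (cc f v) h hv
  rw [hfive h, hv, hfour v, cc_pow] at e1
  have e4 : h * (cc f (d4 (f ^ 2 * v) - d4 (f ^ 2) * v) + cc f (v ^ 5) +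
      cc f (d4 (f ^ 2)) * cc f v) = 0 := by
    linear_combination -e1
  have e6 := (mul_eq_zero.1 e4).resolve_left hh
  rw [cc_mul, cc_add, cc_add] at e6
  have e7 := cc_inj e6
  unfold IsSol
  linear_combination e7

end XA8

theorem p_A8 (F : Type) [Field F] [Fintype F] [CharP F 5] (hA1 : S_A1 F) (hA1b : S_A1b F)
    (hA2 : S_A2 F) : S_A8 F := by
  intro f hf h hh I hI
  have := (hA2 f hf).1
  obtain ⟨w, hw⟩ := XA8.dvd_dl hA1 hh hI
  have h0 := XA8.im_zero hh hw
  have hv : dl f h = cc f w.re * h := by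
    rw [hw, mul_comm]
    congr 1
    exact QuadraticAlgebra.ext rfl h0
  exact ⟨w.re, XA8.sol_of hA1 hA1b hh hv, hv⟩

end D5
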