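import Pool.Agent.H506.D5.Stm

/-!
# Fifth powers and solutions
-/

set_option autoImplicit false

open Polynomial
open scoped Classical

noncomputable section

namespace D5

namespace XB1

variable {F : Type} [Field F]

theorem fif [Fintype F] [CharP F 5] (G : F[X]) : derivative G = 0 ↔ ∃ A : F[X], G = A ^ 5 := by
  have : Fact (Nat.Prime 5) := ⟨Nat.prime_five⟩
  have : ExpChar F 5 := ExpChar.prime Nat.prime_five
  constructor
  · intro h
    have h1 : expand F 5 (contract 5 G) = G := expand_contract 5 h (by norm_num)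
    refine ⟨map ((frobeniusEquiv F 5).symm : F →+* F) (contract 5 G), ?_⟩
    rw [← map_frobenius_expand 5, map_expand, map_map]
    have h2 : (frobenius F 5).comp ((frobeniusEquiv F 5).symm : F →+* F) = RingHom.id F := by
      ext x
      show frobenius F 5 ((frobeniusEquiv F 5).symm x) = x
      exact frobenius_apply_frobeniusEquiv_symm F 5 x
    rw [h2, map_id, h1]
  · rintro ⟨A, rfl⟩
    rw [derivative_pow]
    have h3 : ((5 : ℕ) : F) = 0 := CharP.cast_eq_zero F 5
    rw [h3, C_0, zero_mul, zero_mul]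

theorem cast_zero_iff [CharP F 5] (n : ℕ) : ((n : ℕ) : F) = 0 ↔ 5 ∣ n := CharP.cast_eq_zero_iff F 5 n

theorem coeff4 (G : F[X]) (n : ℕ) : (d4 G).coeff n =
    G.coeff (n + 4) * ((((n + 4) * (n + 3)) * ((n + 2) * (n + 1)) : ℕ) : F) := by
  unfold d4
  rw [coeff_derivative, coeff_derivative, coeff_derivative, coeff_derivative]
  push_cast
  ring

theorem d5_zero [CharP F 5] (G : F[X]) : derivative (d4 G) = 0 := by
  ext n
  rw [coeff_derivative, coeff4, coeff_zero]
  have : ((((n + 1 + 4) * (n + 1 + 3)) * ((n + 1 + 2) * (n + 1 + 1)) : ℕ) : F) * ((n : F) + 1) = 0 := by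
    have h1 : ((((n + 1 + 4) * (n + 1 + 3)) * ((n + 1 + 2) * (n + 1 + 1)) : ℕ) : F) * ((n : F) + 1) =
        ((((n + 1 + 4) * (n + 1 + 3)) * ((n + 1 + 2) * (n + 1 + 1)) * (n + 1) : ℕ) : F) := by
      push_cast
      ring
    rw [h1, cast_zero_iff]
    have h3 : 5 ∣ n + 1 + 4 ∨ 5 ∣ n + 1 + 3 ∨ 5 ∣ n + 1 + 2 ∨ 5 ∣ n + 1 + 1 ∨ 5 ∣ n + 1 := by omega
    rcases h3 with h3 | h3 | h3 | h3 | h3
    · exact Dvd.dvd.mul_right (Dvd.dvd.mul_right (Dvd.dvd.mul_right h3 _) _) _
    · exact Dvd.dvd.mul_right (Dvd.dvd.mul_right (Dvd.dvd.mul_left h3 _) _) _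
    · exact Dvd.dvd.mul_right (Dvd.dvd.mul_left (Dvd.dvd.mul_right h3 _) _) _
    · exact Dvd.dvd.mul_right (Dvd.dvd.mul_left (Dvd.dvd.mul_left h3 _) _) _
    · exact Dvd.dvd.mul_left h3 _
  rw [mul_assoc, this, mul_zero]

theorem coeff_pow5 [Fintype F] [CharP F 5] (v : F[X]) (n : ℕ) :
    (v ^ 5).coeff n = if 5 ∣ n then (v.coeff (n / 5)) ^ 5 else 0 := by
  have : Fact (Nat.Prime 5) := ⟨Nat.prime_five⟩
  have : ExpChar F 5 := ExpChar.prime Nat.prime_five
  rw [← map_frobenius_expand 5, coeff_map, coeff_expand (by norm_num)]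
  split_ifs with h
  · rw [frobenius_def]
  · rw [map_zero]

theorem prod_neg_one [CharP F 5] (j : ℕ) :
    ((((5 * j + 4) * (5 * j + 3)) * ((5 * j + 2) * (5 * j + 1)) : ℕ) : F) = -1 := by
  have h5 : (5 : F) = 0 := by
    have := CharP.cast_eq_zero F 5
    exact_mod_cast this
  push_cast
  have : (5 * (j : F) + 4) * (5 * j + 3) * ((5 * j + 2) * (5 * j + 1)) =
      -1 + 5 * (j * ((5 * j + 3) * ((5 * j + 2) * (5 * j + 1))) + 4 * (j * ((5 * j + 2) * (5 * j + 1))) +
        12 * (j * (5 * j + 1)) + 24 * j + 5) := by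
    ring
  rw [this, h5, zero_mul, add_zero]

theorem prod_zero [CharP F 5] {n : ℕ} (h : ¬ 5 ∣ n) :
    ((((n + 4) * (n + 3)) * ((n + 2) * (n + 1)) : ℕ) : F) = 0 := by
  rw [cast_zero_iff]
  have h3 : 5 ∣ n + 4 ∨ 5 ∣ n + 3 ∨ 5 ∣ n + 2 ∨ 5 ∣ n + 1 := by omega
  rcases h3 with h3 | h3 | h3 | h3
  · exact Dvd.dvd.mul_right (Dvd.dvd.mul_right h3 _) _
  · exact Dvd.dvd.mul_right (Dvd.dvd.mul_left h3 _) _
  · exact Dvd.dvd.mul_left (Dvd.dvd.mul_right h3 _) _
  · exact Dvd.dvd.mul_left (Dvd.dvd.mul_left h3 _) _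

theorem isSol_iff [Fintype F] [CharP F 5] (f v : F[X]) : IsSol f v ↔
    ∀ j : ℕ, (f ^ 2 * v).coeff (5 * j + 4) = (v.coeff j) ^ 5 := by
  unfold IsSol
  constructor
  · intro h j
    have h1 : (d4 (f ^ 2 * v)).coeff (5 * j) = (-v ^ 5).coeff (5 * j) := by rw [h]
    rw [coeff4, prod_neg_one, coeff_neg, coeff_pow5, if_pos (Nat.dvd_mul_right 5 j),
      Nat.mul_div_cancel_left j (by norm_num : 0 < 5), mul_neg, mul_one, neg_inj] at h1
    exact h1
  · intro h
    ext n
    rw [coeff4, coeff_neg, coeff_pow5]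
    by_cases hn : 5 ∣ n
    · obtain ⟨j, rfl⟩ := hn
      rw [prod_neg_one, if_pos (Nat.dvd_mul_right 5 j), Nat.mul_div_cancel_left j (by norm_num : 0 < 5),
        h j, mul_neg, mul_one]
    · rw [prod_zero hn, if_neg hn, mul_zero, neg_zero]

theorem sol_ne {f v : F[X]} (hv : v ≠ 0) (h : IsSol f v) : d4 (f ^ 2 * v) ≠ 0 := by
  unfold IsSol at h
  rw [h]
  exact neg_ne_zero.2 (pow_ne_zero 5 hv)

theorem sol_deg {f v : F[X]} (h : IsSol f v) :
    (d4 (f ^ 2 * v)).natDegree = 5 * v.natDegree := by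
  unfold IsSol at h
  rw [h, natDegree_neg, natDegree_pow]

theorem der_step {G : F[X]} (h : derivative G ≠ 0) :
    (derivative G).natDegree + 1 ≤ G.natDegree := by
  have h5 : G.natDegree ≠ 0 := by
    intro h6
    exact h (derivative_of_natDegree_zero h6)
  exact natDegree_derivative_lt h5

theorem der_ne {G : F[X]} (h : derivative G ≠ 0) : G ≠ 0 := by
  intro h1
  rw [h1, derivative_zero] at h
  exact h rfl

theorem bound {f v : F[X]} (hv : v ≠ 0) (h : IsSol f v) :
    2 * v.natDegree + 2 ≤ f.natDegree := by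
  have h1 := sol_ne hv h
  have h2 := sol_deg h
  have hf : f ≠ 0 := by
    intro h3
    rw [h3] at h1
    apply h1
    unfold d4
    simp
  have h3 : (f ^ 2 * v).natDegree = 2 * f.natDegree + v.natDegree := by
    rw [natDegree_mul (pow_ne_zero 2 hf) hv, natDegree_pow]
  unfold d4 at h1 h2
  have a1 := der_step h1
  have b1 := der_ne h1
  have a2 := der_step b1
  have b2 := der_ne b1
  have a3 := der_step b2
  have b3 := der_ne b2
  have a4 := der_step b3
  omega

end XB1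

open XB1 in
theorem p_B1 (F : Type) [Field F] [Fintype F] [CharP F 5] (hB0 : S_B0 F) : S_B1 F := by
  refine ⟨fif, d5_zero, isSol_iff, fun f v => bound, ?_⟩
  intro f v
  unfold sol
  rw [Finset.mem_filter, hB0.1]
  constructor
  · exact fun h => h.2
  · intro h
    refine ⟨?_, h⟩
    by_cases hv : v = 0
    · rw [hv, degree_zero]
      exact WithBot.bot_lt_coe _
    · have hb := bound hv h
      rw [degree_eq_natDegree hv]
      exact_mod_cast (by omega : v.natDegree < f.natDegree)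

end D5
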