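import Pool.Agent.H506.D5.Stm

/-!
# D5, E1: Weyl differencing of a quadratic exponential sum over `F[X]` (helper127 for helper506)
-/

open Polynomial
open scoped Classical

noncomputable section

namespace D5

namespace XE1

variable {F : Type} [Field F]

lemma Lam_add (g : ℕ) (l : Fin g → F) (w w' : F[X]) :
    Lam g l (w + w') = Lam g l w + Lam g l w' := by
  unfold Lam
  rw [← Finset.sum_add_distrib]
  exact Finset.sum_congr rfl fun j _ => by rw [coeff_add, mul_add]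

lemma Lam_C_mul (g : ℕ) (l : Fin g → F) (c : F) (w : F[X]) :
    Lam g l (C c * w) = c * Lam g l w := by
  unfold Lam
  rw [Finset.mul_sum]
  exact Finset.sum_congr rfl fun j _ => by rw [coeff_C_mul, mul_left_comm]

variable [Fintype F]

lemma mem_add (hB0 : S_B0 F) {n : ℕ} {u w : F[X]} (hu : u ∈ POL F n) (hw : w ∈ POL F n) :
    u + w ∈ POL F n := by
  rw [hB0.1] at hu hw ⊢
  exact (degree_add_le _ _).trans_lt (max_lt hu hw)

lemma mem_sub (hB0 : S_B0 F) {n : ℕ} {u w : F[X]} (hu : u ∈ POL F n) (hw : w ∈ POL F n) :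
    u - w ∈ POL F n := by
  rw [hB0.1] at hu hw ⊢
  exact (degree_sub_le _ _).trans_lt (max_lt hu hw)

lemma mem_C_mul (hB0 : S_B0 F) {n : ℕ} (c : F) {u : F[X]} (hu : u ∈ POL F n) :
    C c * u ∈ POL F n := by
  rw [hB0.1] at hu ⊢
  refine lt_of_le_of_lt ?_ hu
  refine (degree_mul_le _ _).trans ?_
  calc (C c).degree + u.degree ≤ 0 + u.degree := by gcongr; exact degree_C_le
    _ = u.degree := zero_add _

lemma sum_shift (hB0 : S_B0 F) {n : ℕ} {u : F[X]} (hu : u ∈ POL F n) (G : F[X] → ℂ) :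
    ∑ w ∈ POL F n, G (u + w) = ∑ w ∈ POL F n, G w :=
  Finset.sum_nbij' (fun w => u + w) (fun w => w - u) (fun _ hw => mem_add hB0 hu hw)
    (fun _ hw => mem_sub hB0 hw hu) (fun w _ => add_sub_cancel_left u w)
    (fun w _ => add_sub_cancel u w) (fun _ _ => rfl)

omit [Fintype F] in
lemma two_ne [CharP F 5] : (2 : F) ≠ 0 := by
  intro h
  have h1 : ((2 : ℕ) : F) = 0 := by exact_mod_cast h
  rw [CharP.cast_eq_zero_iff F 5] at h1
  omega

/-- The inner sum is `q ^ n` or `0`. -/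
lemma inner (hB0 : S_B0 F) (h2 : (2 : F) ≠ 0) (ψ : AddChar F ℂ) (hψ : ψ ≠ 1) (g : ℕ)
    (l : Fin g → F) (w : F[X]) (n : ℕ) :
    ‖∑ u ∈ POL F n, ψ (Lam g l (w * u + w * u))‖ ≤
      if ∀ y ∈ POL F n, Lam g l (w * y) = 0 then qq F ^ n else 0 := by
  split_ifs with h
  · refine (norm_sum_le _ _).trans ?_
    have h3 : ∀ u ∈ POL F n, ‖ψ (Lam g l (w * u + w * u))‖ = 1 := fun u hu => by
      rw [Lam_add, h u hu, add_zero, AddChar.map_zero_eq_one, norm_one]
    rw [Finset.sum_congr rfl h3, Finset.sum_const, nsmul_eq_mul, mul_one, hB0.2.2.2.1]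
    unfold qq
    rw [Nat.cast_pow]
  · push Not at h
    obtain ⟨u₀, hu₀, hc⟩ := h
    obtain ⟨a, ha⟩ := AddChar.ne_one_iff.1 hψ
    have hu₁ : C (a / (2 * Lam g l (w * u₀))) * u₀ ∈ POL F n := mem_C_mul hB0 _ hu₀
    have h3 := sum_shift hB0 hu₁ (fun u => ψ (Lam g l (w * u + w * u)))
    have h4 : ∀ u, ψ (Lam g l (w * (C (a / (2 * Lam g l (w * u₀))) * u₀ + u) +
        w * (C (a / (2 * Lam g l (w * u₀))) * u₀ + u))) =
        ψ a * ψ (Lam g l (w * u + w * u)) := by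
      intro u
      rw [← AddChar.map_add_eq_mul]
      congr 1
      have h5 : w * (C (a / (2 * Lam g l (w * u₀))) * u₀ + u) +
          w * (C (a / (2 * Lam g l (w * u₀))) * u₀ + u) =
          (C (a / (2 * Lam g l (w * u₀))) * (w * u₀) +
            C (a / (2 * Lam g l (w * u₀))) * (w * u₀)) + (w * u + w * u) := by ring
      rw [h5, Lam_add, Lam_add, Lam_C_mul]
      congr 1
      field_simp
      ring
    simp only [h4] at h3
    rw [← Finset.mul_sum] at h3
    have h6 : (ψ a - 1) * ∑ u ∈ POL F n, ψ (Lam g l (w * u + w * u)) = 0 := by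
      rw [sub_mul, one_mul, h3, sub_self]
    have h7 : ∑ u ∈ POL F n, ψ (Lam g l (w * u + w * u)) = 0 := by
      rcases mul_eq_zero.1 h6 with h8 | h8
      · exact absurd (sub_eq_zero.1 h8) ha
      · exact h8
    rw [h7, norm_zero]

end XE1

open XE1 in
/-- **E1** -/
theorem p_E1 (F : Type) [Field F] [Fintype F] [CharP F 5] (hB0 : S_B0 F) : S_E1 F := by
  intro ψ hψ g l v
  set n : ℕ := 2 * g + 1 with hn
  set E : F[X] → ℂ := fun u => ψ (Lam g l ((X ^ n + u) ^ 2 * v)) with hE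
  have hS : ∑ f ∈ MON F n, ψ (Lam g l (f ^ 2 * v)) = ∑ u ∈ POL F n, E u := by
    unfold MON
    rw [Finset.sum_image fun u _ w _ h => add_left_cancel h]
  rw [hS]
  have h1 : ∀ u z : F[X], E (u + z) * (starRingEnd ℂ) (E u) =
      ψ (Lam g l (z ^ 2 * v + (v * z * X ^ n + v * z * X ^ n))) *
        ψ (Lam g l (v * z * u + v * z * u)) := by
    intro u z
    rw [hE]
    dsimp only
    rw [← AddChar.map_neg_eq_conj, ← AddChar.map_add_eq_mul, ← AddChar.map_add_eq_mul]
    congr 1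
    have h2 : (X ^ n + (u + z)) ^ 2 * v = (X ^ n + u) ^ 2 * v +
        (z ^ 2 * v + (v * z * X ^ n + v * z * X ^ n)) + (v * z * u + v * z * u) := by ring
    rw [h2, Lam_add, Lam_add]
    ring
  have h2 : (∑ u ∈ POL F n, E u) * (starRingEnd ℂ) (∑ u ∈ POL F n, E u) =
      ∑ z ∈ POL F n, ψ (Lam g l (z ^ 2 * v + (v * z * X ^ n + v * z * X ^ n))) *
        ∑ u ∈ POL F n, ψ (Lam g l (v * z * u + v * z * u)) := by
    rw [map_sum, Finset.sum_mul_sum, Finset.sum_comm]
    have h3 : ∀ u ∈ POL F n, ∑ w ∈ POL F n, E w * (starRingEnd ℂ) (E u) =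
        ∑ z ∈ POL F n, ψ (Lam g l (z ^ 2 * v + (v * z * X ^ n + v * z * X ^ n))) *
          ψ (Lam g l (v * z * u + v * z * u)) := by
      intro u hu
      rw [← sum_shift hB0 hu (fun w => E w * (starRingEnd ℂ) (E u))]
      exact Finset.sum_congr rfl fun z _ => h1 u z
    rw [Finset.sum_congr rfl h3, Finset.sum_comm]
    exact Finset.sum_congr rfl fun z _ => (Finset.mul_sum _ _ _).symm
  have h4 : ‖∑ u ∈ POL F n, E u‖ ^ 2 =
      ‖(∑ u ∈ POL F n, E u) * (starRingEnd ℂ) (∑ u ∈ POL F n, E u)‖ := by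
    rw [norm_mul, RCLike.norm_conj, sq]
  rw [h4, h2]
  refine (norm_sum_le _ _).trans ?_
  have h5 : ∀ z ∈ POL F n, ‖ψ (Lam g l (z ^ 2 * v + (v * z * X ^ n + v * z * X ^ n))) *
      ∑ u ∈ POL F n, ψ (Lam g l (v * z * u + v * z * u))‖ ≤
      if ∀ y ∈ POL F n, Lam g l (v * z * y) = 0 then qq F ^ n else 0 := by
    intro z _
    rw [norm_mul, AddChar.norm_apply, one_mul]
    exact inner hB0 two_ne ψ hψ g l (v * z) n
  refine (Finset.sum_le_sum h5).trans (le_of_eq ?_)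
  rw [← Finset.sum_filter, Finset.sum_const, nsmul_eq_mul, mul_comm]
  refine congrArg (fun k : ℕ => qq F ^ n * (k : ℝ)) ?_
  unfold KK
  refine congrArg Finset.card (Finset.ext fun z => ?_)
  simp only [Finset.mem_filter, hn]

end D5
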