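import Pool.Agent.H506.D5.Stm

open Polynomial
open scoped Classical

noncomputable section

namespace D5

namespace XE4

variable {F : Type} [Field F]

theorem ann_g (g : ℕ) (l : Fin g → F) : Ann g l g := by
  refine ⟨1, one_ne_zero, ?_, ?_⟩
  · rw [natDegree_one]
    exact Nat.zero_le g
  · intro i hi
    omega

theorem ann_rr (g : ℕ) (l : Fin g → F) : Ann g l (rr g l) :=
  Nat.sInf_mem (s := {r : ℕ | Ann g l r}) ⟨g, ann_g g l⟩

theorem rr_le {g : ℕ} {l : Fin g → F} {r : ℕ} (h : Ann g l r) : rr g l ≤ r :=
  Nat.sInf_le (s := {r : ℕ | Ann g l r}) h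

/-- the linear form `mu` -/
def muL (g : ℕ) (l : Fin g → F) : F[X] →ₗ[F] F := ∑ j : Fin g, l j • Polynomial.lcoeff F (j : ℕ)

theorem muL_apply (g : ℕ) (l : Fin g → F) (P : F[X]) : muL g l P = mu g l P := by
  unfold muL mu
  rw [LinearMap.sum_apply]
  apply Finset.sum_congr rfl
  intro j _
  rw [LinearMap.smul_apply, Polynomial.lcoeff_apply, smul_eq_mul]

/-- the polynomial with given coefficients -/
def PL (n : ℕ) : (Fin n → F) →ₗ[F] F[X] :=
  ∑ k : Fin n, (LinearMap.proj k : (Fin n → F) →ₗ[F] F).smulRight (X ^ (k : ℕ) : F[X])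

theorem PL_apply (n : ℕ) (c : Fin n → F) : PL n c = ∑ k : Fin n, C (c k) * X ^ (k : ℕ) := by
  unfold PL
  rw [LinearMap.sum_apply]
  apply Finset.sum_congr rfl
  intro k _
  rw [LinearMap.smulRight_apply, LinearMap.proj_apply, Polynomial.smul_eq_C_mul]

theorem PL_coeff (n : ℕ) (c : Fin n → F) (k : Fin n) : (PL n c).coeff (k : ℕ) = c k := by
  rw [PL_apply, Polynomial.finsetSum_coeff, Finset.sum_eq_single k]
  · rw [Polynomial.coeff_C_mul_X_pow, if_pos rfl]
  · intro j _ hj
    rw [Polynomial.coeff_C_mul_X_pow, if_neg]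
    intro h
    exact hj (Fin.ext h.symm)
  · intro h
    exact absurd (Finset.mem_univ k) h

theorem PL_natDegree (n : ℕ) (c : Fin (n + 1) → F) : (PL (n + 1) c).natDegree ≤ n := by
  rw [PL_apply]
  apply Polynomial.natDegree_sum_le_of_forall_le
  intro k _
  refine (Polynomial.natDegree_C_mul_X_pow_le _ _).trans ?_
  have := k.2
  omega

theorem ann_half (g : ℕ) (l : Fin g → F) : Ann g l ((g + 1) / 2) := by
  set r := (g + 1) / 2 with hr
  let Φ : (Fin (r + 1) → F) →ₗ[F] (Fin (g - r) → F) :=
    LinearMap.pi fun i => (muL g l).comp ((LinearMap.mulLeft F (X ^ (i : ℕ) : F[X])).comp (PL (r + 1)))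
  have hΦ : ∀ c i, Φ c i = mu g l (X ^ (i : ℕ) * PL (r + 1) c) := by
    intro c i
    change (muL g l) (X ^ (i : ℕ) * PL (r + 1) c) = _
    rw [muL_apply]
  have hker : LinearMap.ker Φ ≠ ⊥ := by
    apply LinearMap.ker_ne_bot_of_finrank_lt
    rw [Module.finrank_fin_fun, Module.finrank_fin_fun]
    omega
  obtain ⟨c, hc, hc0⟩ := Submodule.exists_mem_ne_zero_of_ne_bot hker
  rw [LinearMap.mem_ker] at hc
  refine ⟨PL (r + 1) c, ?_, PL_natDegree r c, ?_⟩
  · intro h
    apply hc0
    funext k
    rw [← PL_coeff (r + 1) c k, h, Polynomial.coeff_zero]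
    rfl
  · intro i hi
    have h1 : i < g - r := by omega
    have h2 := hΦ c ⟨i, h1⟩
    rw [hc] at h2
    exact h2.symm

theorem zero_of (g : ℕ) (B : F[X]) (hB : B ≠ 0) (d : Fin g → F) (r : ℕ) (_hb : B.natDegree ≤ r)
    (hr : r ≤ g) (h : ∀ i, i + r < g → mu g d (X ^ i * B) = 0)
    (h1 : ∀ j : Fin g, (j : ℕ) < B.natDegree → d j = 0)
    (h2 : ∀ j : Fin g, B.natDegree + (g - r) ≤ (j : ℕ) → d j = 0) : ∀ j, d j = 0 := by
  have key : ∀ n (hn : n < g), d ⟨n, hn⟩ = 0 := by
    intro n
    induction n using Nat.strong_induction_on with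
    | _ n ih =>
      intro hn
      by_cases hc1 : n < B.natDegree
      · exact h1 ⟨n, hn⟩ hc1
      by_cases hc2 : B.natDegree + (g - r) ≤ n
      · exact h2 ⟨n, hn⟩ hc2
      have h3 := h (n - B.natDegree) (by omega)
      unfold mu at h3
      rw [Finset.sum_eq_single (⟨n, hn⟩ : Fin g)] at h3
      · have h4 : (X ^ (n - B.natDegree) * B).coeff n = B.leadingCoeff := by
          rw [Polynomial.coeff_X_pow_mul', if_pos (by omega)]
          have : n - (n - B.natDegree) = B.natDegree := by omega
          rw [this]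
          rfl
        change d ⟨n, hn⟩ * (X ^ (n - B.natDegree) * B).coeff n = 0 at h3
        rw [h4] at h3
        exact (mul_eq_zero.1 h3).resolve_right (Polynomial.leadingCoeff_ne_zero.2 hB)
      · intro j _ hj
        have hjn : (j : ℕ) ≠ n := fun h => hj (Fin.ext h)
        rcases lt_or_gt_of_ne hjn with h5 | h5
        · have := ih j h5 j.2
          have h6 : d j = 0 := this
          rw [h6, zero_mul]
        · have h6 : (X ^ (n - B.natDegree) * B).coeff (j : ℕ) = 0 := by
            rw [Polynomial.coeff_X_pow_mul', if_pos (by omega)]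
            apply Polynomial.coeff_eq_zero_of_natDegree_lt
            omega
          rw [h6, mul_zero]
      · intro h7
        exact absurd (Finset.mem_univ _) h7
  intro j
  exact key j j.2

variable [Fintype F]

theorem card_B (g r : ℕ) (hr : r ≤ g) (B : F[X]) (hB : B ≠ 0) (hb : B.natDegree ≤ r) :
    ((Finset.univ : Finset (Fin g → F)).filter
      (fun l => ∀ i, i + r < g → mu g l (X ^ i * B) = 0)).card ≤ Fintype.card F ^ r := by
  have h0 : Fintype.card F ^ r = (Finset.univ : Finset (Fin r → F)).card := by
    rw [Finset.card_univ, Fintype.card_fun, Fintype.card_fin]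
  rw [h0]
  apply Finset.card_le_card_of_injOn
    (fun (l : Fin g → F) (k : Fin r) =>
      if h : (k : ℕ) < B.natDegree then l ⟨k, by omega⟩ else l ⟨(k : ℕ) + (g - r), by omega⟩)
  · intro l _
    exact Finset.mem_coe.2 (Finset.mem_univ _)
  · intro l hl l' hl' he
    rw [Finset.mem_coe, Finset.mem_filter] at hl hl'
    have hz : ∀ j, (fun j => l j - l' j) j = 0 := by
      apply zero_of g B hB _ r hb hr
      · intro i hi
        have e1 := hl.2 i hi
        have e2 := hl'.2 i hi
        unfold mu at e1 e2 ⊢
        simp only [sub_mul, Finset.sum_sub_distrib]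
        rw [e1, e2, sub_zero]
      · intro j hj
        have h3 := congrFun he ⟨j, by omega⟩
        simp only at h3
        rw [dif_pos hj, dif_pos hj] at h3
        change l j - l' j = 0
        have h4 : l j = l' j := h3
        rw [h4, sub_self]
      · intro j hj
        have hj2 := j.2
        have h3 := congrFun he ⟨(j : ℕ) - (g - r), by omega⟩
        simp only at h3
        rw [dif_neg (by omega), dif_neg (by omega)] at h3
        have h5 : (⟨(j : ℕ) - (g - r) + (g - r), by omega⟩ : Fin g) = j :=
          Fin.ext (by change (j : ℕ) - (g - r) + (g - r) = (j : ℕ); omega)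
        rw [h5] at h3
        change l j - l' j = 0
        rw [h3, sub_self]
    funext j
    exact sub_eq_zero.1 (hz j)

end XE4

open XE4

theorem p_E4 (F : Type) [Field F] [Fintype F] [CharP F 5] (hB0 : S_B0 F) : S_E4 F := by
  refine ⟨?_, fun g l => ann_rr g l, ?_, ?_⟩
  · intro g r
    have hq : 1 ≤ Fintype.card F := Fintype.card_pos
    by_cases hr : g < r
    · calc ((Finset.univ : Finset (Fin g → F)).filter (fun l => rr g l = r)).card
          ≤ (Finset.univ : Finset (Fin g → F)).card := Finset.card_filter_le _ _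
        _ = Fintype.card F ^ g := by rw [Finset.card_univ, Fintype.card_fun, Fintype.card_fin]
        _ ≤ Fintype.card F ^ (2 * r + 1) := Nat.pow_le_pow_right hq (by omega)
    have hrg : r ≤ g := by omega
    have hsub : (Finset.univ : Finset (Fin g → F)).filter (fun l => rr g l = r) ⊆
        ((POL F (r + 1)).filter (fun B => B ≠ 0)).biUnion (fun B =>
          (Finset.univ : Finset (Fin g → F)).filter
            (fun l => ∀ i, i + r < g → mu g l (X ^ i * B) = 0)) := by
      intro l hl
      rw [Finset.mem_filter] at hl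
      have h1 := ann_rr g l
      rw [hl.2] at h1
      obtain ⟨B, hB, hb, h2⟩ := h1
      rw [Finset.mem_biUnion]
      refine ⟨B, ?_, ?_⟩
      · rw [Finset.mem_filter]
        refine ⟨?_, hB⟩
        rw [hB0.1]
        rw [Polynomial.degree_eq_natDegree hB]
        exact_mod_cast Nat.lt_succ_of_le hb
      · rw [Finset.mem_filter]
        exact ⟨Finset.mem_univ _, h2⟩
    calc ((Finset.univ : Finset (Fin g → F)).filter (fun l => rr g l = r)).card
        ≤ _ := Finset.card_le_card hsub
      _ ≤ ((POL F (r + 1)).filter (fun B => B ≠ 0)).card * Fintype.card F ^ r := by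
          apply Finset.card_biUnion_le_card_mul
          intro B hB
          rw [Finset.mem_filter] at hB
          apply card_B g r hrg B hB.2
          have h1 := (hB0.1 (r + 1) B).1 hB.1
          rw [Polynomial.degree_eq_natDegree hB.2] at h1
          have h2 : B.natDegree < r + 1 := by exact_mod_cast h1
          omega
      _ ≤ Fintype.card F ^ (r + 1) * Fintype.card F ^ r := by
          apply Nat.mul_le_mul_right
          rw [← hB0.2.2.2.1 (r + 1)]
          exact Finset.card_filter_le _ _
      _ = Fintype.card F ^ (2 * r + 1) := by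
          rw [← pow_add]
          congr 1
          omega
  · intro g l
    have h1 := rr_le (ann_half g l)
    omega
  · intro g l h0
    have h1 := ann_rr g l
    rw [h0] at h1
    obtain ⟨B, hB, hb, h2⟩ := h1
    have hb0 : B.natDegree = 0 := by omega
    funext j
    have := zero_of g B hB l 0 hb (Nat.zero_le g) h2 (fun j hj => by omega) (fun j hj => by
      have := j.2
      omega) j
    exact this

end D5
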