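import Pool.Agent.H506.D5.MU

/-! # Task DH F5 (helper79): the squarefree sieve -/

open Polynomial
open scoped Classical

noncomputable section

namespace D5

namespace XF5

variable (F : Type) [Field F] [Fintype F] [CharP F 5]

theorem sieve (hB0 : S_B0 F) (hMU : S_MU F) (n m : ℕ) (Y : F[X] → ℝ) (hnm : n ≤ 2 * m + 1) :
    ∑ f ∈ SQF F n, Y f = ∑ w ∈ Finset.range (m + 1), ∑ W ∈ MON F w,
      moeb W * ∑ f ∈ (MON F n).filter (fun f => W ^ 2 ∣ f), Y f := by
  obtain ⟨_, hmon, _⟩ := hB0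
  obtain ⟨_, _, _, h3, _⟩ := hMU
  have h1 : ∑ f ∈ SQF F n, Y f = ∑ f ∈ MON F n, (if Squarefree f then (1 : ℝ) else 0) * Y f := by
    unfold SQF
    rw [Finset.sum_filter]
    refine Finset.sum_congr rfl fun f _ => ?_
    split_ifs <;> simp
  have h2 : ∀ f ∈ MON F n, (if Squarefree f then (1 : ℝ) else 0) * Y f =
      ∑ w ∈ Finset.range (m + 1), ∑ W ∈ MON F w, (if W ^ 2 ∣ f then moeb W * Y f else 0) := by
    intro f hf
    have hf' := (hmon n f).1 hf
    rw [← h3 n m f hf'.1 hf'.2 hnm, Finset.sum_mul]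
    refine Finset.sum_congr rfl fun w _ => ?_
    rw [Finset.sum_mul, Finset.sum_filter]
  rw [h1, Finset.sum_congr rfl h2, Finset.sum_comm]
  refine Finset.sum_congr rfl fun w _ => ?_
  rw [Finset.sum_comm]
  refine Finset.sum_congr rfl fun W _ => ?_
  rw [← Finset.sum_filter, Finset.mul_sum]

theorem card_mult (hB0 : S_B0 F) {n w : ℕ} (h : 2 * w ≤ n) {W : F[X]} (hW : W ∈ MON F w) :
    ((MON F n).filter (fun f => W ^ 2 ∣ f)).card = Fintype.card F ^ (n - 2 * w) := by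
  obtain ⟨_, hmon, _, _, hcard, _⟩ := hB0
  rw [← hcard (n - 2 * w)]
  have hW' := (hmon w W).1 hW
  have hW2 : (W ^ 2).Monic := hW'.1.pow 2
  have hd2 : (W ^ 2).natDegree = 2 * w := by rw [hW'.1.natDegree_pow, hW'.2]
  symm
  refine Finset.card_bij (fun h _ => W ^ 2 * h) ?_ ?_ ?_
  · intro g hg
    have hg' := (hmon _ g).1 hg
    rw [Finset.mem_filter, hmon]
    refine ⟨⟨hW2.mul hg'.1, ?_⟩, dvd_mul_right _ _⟩
    rw [hW2.natDegree_mul hg'.1, hd2, hg'.2]
    omega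
  · intro a _ b _ hab
    exact mul_left_cancel₀ hW2.ne_zero hab
  · intro f hf
    rw [Finset.mem_filter, hmon] at hf
    obtain ⟨⟨hf1, hf2⟩, g, rfl⟩ := hf
    have hg : g.Monic := hW2.of_mul_monic_left hf1
    refine ⟨g, (hmon _ g).2 ⟨hg, ?_⟩, rfl⟩
    rw [hW2.natDegree_mul hg, hd2] at hf2
    omega

end XF5

open XF5

theorem p_F5 (F : Type) [Field F] [Fintype F] [CharP F 5] (hB0 : S_B0 F) (hMU : S_MU F) :
    S_F5 F := by
  intro g hg
  have h1 := sieve F hB0 hMU (2 * g + 1) g (fun _ => 1) le_rfl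
  rw [Finset.sum_const, nsmul_eq_mul, mul_one] at h1
  rw [h1]
  have h2 : ∀ w ∈ Finset.range (g + 1), ∑ W ∈ MON F w,
      moeb W * ∑ f ∈ (MON F (2 * g + 1)).filter (fun f => W ^ 2 ∣ f), (1 : ℝ) =
      (if w = 0 then 1 else if w = 1 then - qq F else 0) * qq F ^ (2 * g + 1 - 2 * w) := by
    intro w hw
    rw [Finset.mem_range] at hw
    have h3 : ∀ W ∈ MON F w, moeb W * ∑ f ∈ (MON F (2 * g + 1)).filter (fun f => W ^ 2 ∣ f), (1 : ℝ) =
        moeb W * qq F ^ (2 * g + 1 - 2 * w) := by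
      intro W hW
      rw [Finset.sum_const, nsmul_eq_mul, mul_one, card_mult F hB0 (by omega) hW, Nat.cast_pow]
      rfl
    rw [Finset.sum_congr rfl h3, ← Finset.sum_mul, hMU.2.2.2.2.2 w]
  rw [Finset.sum_congr rfl h2]
  obtain ⟨k, rfl⟩ : ∃ k, g = k + 1 := ⟨g - 1, by omega⟩
  rw [Finset.sum_range_succ', Finset.sum_range_succ']
  have h4 : ∑ x ∈ Finset.range k, (if x + 1 + 1 = 0 then (1 : ℝ) else if x + 1 + 1 = 1 then - qq F
      else 0) * qq F ^ (2 * (k + 1) + 1 - 2 * (x + 1 + 1)) = 0 := by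
    refine Finset.sum_eq_zero fun x _ => ?_
    rw [if_neg (by omega), if_neg (by omega), zero_mul]
  rw [h4]
  have h5 : 2 * (k + 1) + 1 - 2 * (0 + 1) = 2 * k + 1 := by omega
  have h6 : 2 * (k + 1) + 1 - 2 * 0 = 2 * k + 3 := by omega
  have h7 : 2 * (k + 1) + 1 = 2 * k + 3 := by omega
  have h8 : 2 * (k + 1) = 2 * k + 2 := by omega
  rw [h5, h6, h7, h8]
  simp only [zero_add, one_ne_zero, if_false, if_true, one_mul]
  ring

end D5
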