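import Pool.Agent.H506.D5.Stm

/-!
Project D5, task H1: Hankel kernels.
-/

open Polynomial
open scoped Classical

noncomputable section

namespace D5

namespace XH1

variable {F : Type} [Field F]

/-- the polynomial with given coefficients -/
def ph (J : ℕ) (c : Fin J → F) : F[X] := ∑ i : Fin J, C (c i) * X ^ (i : ℕ)

theorem ph_coeff (J : ℕ) (c : Fin J → F) (i : Fin J) : (ph J c).coeff (i : ℕ) = c i := by
  unfold ph
  rw [finsetSum_coeff, Finset.sum_eq_single i]
  · simp
  · intro b _ hb
    rw [coeff_C_mul, coeff_X_pow, if_neg, mul_zero]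
    intro h
    exact hb (Fin.ext h.symm)
  · intro h
    exact absurd (Finset.mem_univ _) h

theorem ph_inj (J : ℕ) : Function.Injective (ph (F := F) J) := by
  intro c c' h
  funext i
  rw [← ph_coeff J c i, h, ph_coeff]

theorem ph_zero (J : ℕ) : ph (F := F) J 0 = 0 := by
  simp [ph]

/-- the Hankel matrix -/
def hm (g : ℕ) (l : Fin g → F) (K J : ℕ) : Matrix (Fin K) (Fin J) F :=
  Matrix.of fun i j => mu g l (X ^ ((i : ℕ) + (j : ℕ)))

theorem hm_tr (g : ℕ) (l : Fin g → F) (K J : ℕ) : (hm g l K J).transpose = hm g l J K := by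
  ext i j
  simp only [Matrix.transpose_apply, hm, Matrix.of_apply]
  rw [add_comm]

theorem mu_ph (g : ℕ) (l : Fin g → F) (K J : ℕ) (c : Fin J → F) (i : Fin K) :
    mu g l (X ^ (i : ℕ) * ph J c) = (hm g l K J).mulVec c i := by
  have e1 : X ^ (i : ℕ) * ph J c = ∑ j : Fin J, C (c j) * X ^ ((i : ℕ) + (j : ℕ)) := by
    unfold ph
    rw [Finset.mul_sum]
    refine Finset.sum_congr rfl fun j _ => ?_
    rw [pow_add]
    ring
  rw [e1]
  simp only [Matrix.mulVec, dotProduct, hm, Matrix.of_apply]
  unfold mu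
  simp only [finsetSum_coeff, coeff_C_mul, Finset.mul_sum, Finset.sum_mul]
  rw [Finset.sum_comm]
  refine Finset.sum_congr rfl fun j _ => Finset.sum_congr rfl fun k _ => ?_
  ring

variable [Fintype F]

theorem hk_eq (g : ℕ) (l : Fin g → F) (J K : ℕ) :
    HK g l J K = ((Finset.univ : Finset (Fin J → F)).filter
      (fun c => (hm g l K J).mulVec c = 0)).image (ph J) := by
  ext P
  unfold HK POL
  rw [Finset.mem_filter, Finset.mem_image, Finset.mem_image]
  constructor
  · rintro ⟨⟨c, -, hc⟩, h⟩
    refine ⟨c, ?_, hc⟩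
    rw [Finset.mem_filter]
    refine ⟨Finset.mem_univ _, ?_⟩
    funext i
    rw [← mu_ph]
    have hc' : ph J c = P := hc
    rw [hc']
    exact h i i.2
  · rintro ⟨c, hc, rfl⟩
    rw [Finset.mem_filter] at hc
    refine ⟨⟨c, Finset.mem_univ _, rfl⟩, fun i hi => ?_⟩
    have h := mu_ph g l K J c ⟨i, hi⟩
    rw [hc.2] at h
    exact h

theorem hk_card (g : ℕ) (l : Fin g → F) (J K : ℕ) :
    (HK g l J K).card = Fintype.card F ^ (J - (hm g l K J).rank) := by
  rw [hk_eq, Finset.card_image_of_injective _ (ph_inj J)]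
  have h1 := LinearMap.finrank_range_add_finrank_ker (hm g l K J).mulVecLin
  rw [Module.finrank_fin_fun] at h1
  have h2 : Module.finrank F (LinearMap.ker (hm g l K J).mulVecLin) = J - (hm g l K J).rank := by
    unfold Matrix.rank
    omega
  rw [← h2, ← Module.card_eq_pow_finrank (K := F) (V := LinearMap.ker (hm g l K J).mulVecLin),
    Fintype.card_subtype]
  congr 1
  ext c
  simp [LinearMap.mem_ker]

theorem hk_triv (g : ℕ) (l : Fin g → F) (J K : ℕ) (h : HK g l J K = {0}) :
    (hm g l K J).rank = J := by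
  have h1 : LinearMap.ker (hm g l K J).mulVecLin = ⊥ := by
    rw [LinearMap.ker_eq_bot']
    intro c hc
    have h2 : ph J c ∈ HK g l J K := by
      rw [hk_eq, Finset.mem_image]
      exact ⟨c, Finset.mem_filter.2 ⟨Finset.mem_univ _, hc⟩, rfl⟩
    rw [h, Finset.mem_singleton, ← ph_zero J] at h2
    exact ph_inj J h2
  have h2 := LinearMap.finrank_range_add_finrank_ker (hm g l K J).mulVecLin
  rw [h1, finrank_bot, add_zero, Module.finrank_fin_fun] at h2
  exact h2

end XH1

set_option linter.unusedSectionVars false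

variable (F : Type) [Field F] [Fintype F] [CharP F 5]

theorem p_H1 (hB0 : S_B0 F) : S_H1 F := by
  have h1 : ∀ (g : ℕ) (l : Fin g → F) (J : ℕ), J ≤ rr g l → J ≤ g + 1 →
      HK g l J (g + 1 - J) = {0} := by
    intro g l J hJ hJg
    ext P
    rw [Finset.mem_singleton]
    constructor
    · intro hP
      unfold HK at hP
      rw [Finset.mem_filter, hB0.1] at hP
      obtain ⟨hd, hmu⟩ := hP
      by_contra hne
      have hnd : P.natDegree < J := (natDegree_lt_iff_degree_lt hne).2 hd
      have hA : Ann g l (J - 1) := by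
        refine ⟨P, hne, by omega, fun i hi => hmu i (by omega)⟩
      have h2 : rr g l ≤ J - 1 := Nat.sInf_le hA
      omega
    · rintro rfl
      unfold HK
      rw [Finset.mem_filter, hB0.1]
      refine ⟨by simp, fun i _ => ?_⟩
      unfold mu
      simp
  refine ⟨h1, ?_⟩
  intro g l J K hJK hK
  have h2 := h1 g l K hK (by omega)
  have h3 : g + 1 - K = J := by omega
  rw [h3] at h2
  have h4 := XH1.hk_triv g l K J h2
  have h5 : (XH1.hm g l K J).rank = K := by
    rw [← Matrix.rank_transpose, XH1.hm_tr]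
    exact h4
  have h6 : (XH1.hm g l J K).rank ≤ J := by
    have := (XH1.hm g l J K).rank_le_card_height
    rwa [Fintype.card_fin] at this
  refine ⟨by omega, ?_⟩
  rw [XH1.hk_card, h5]

end D5
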