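import Pool.Agent.H506.D5.Stm

/-!
# H2 : growth of the Hankel kernels
-/

open Polynomial
open scoped Classical

noncomputable section

namespace D5

namespace XH2

variable {F : Type} [Field F]

theorem mu_add (g : ℕ) (l : Fin g → F) (P Q : F[X]) : mu g l (P + Q) = mu g l P + mu g l Q := by
  unfold mu
  rw [← Finset.sum_add_distrib]
  refine Finset.sum_congr rfl (fun j _ => ?_)
  rw [coeff_add, mul_add]

theorem mu_sub (g : ℕ) (l : Fin g → F) (P Q : F[X]) : mu g l (P - Q) = mu g l P - mu g l Q := by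
  unfold mu
  rw [← Finset.sum_sub_distrib]
  refine Finset.sum_congr rfl (fun j _ => ?_)
  rw [coeff_sub, mul_sub]

theorem mu_C (g : ℕ) (l : Fin g → F) (c : F) (P : F[X]) : mu g l (C c * P) = c * mu g l P := by
  unfold mu
  rw [Finset.mul_sum]
  refine Finset.sum_congr rfl (fun j _ => ?_)
  rw [coeff_C_mul]
  ring

end XH2

open XH2 in
theorem p_H2 (F : Type) [Field F] [Fintype F] [CharP F 5] (hB0 : S_B0 F) : S_H2 F := by
  have hPOL := hB0.1
  have hHK : ∀ (g : ℕ) (l : Fin g → F) (J K : ℕ) (P : F[X]),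
      P ∈ HK g l J K ↔ P.degree < J ∧ ∀ i, i < K → mu g l (X ^ i * P) = 0 := by
    intro g l J K P
    rw [HK, Finset.mem_filter, hPOL]
  intro g l J K hex
  obtain ⟨P₀, hP₀, hP₀n⟩ := hex
  obtain ⟨P, hPm, hmax⟩ := Finset.exists_max_image ((HK g l J (K + 1)).filter (fun P => P ≠ 0))
    (fun P => P.natDegree) ⟨P₀, Finset.mem_filter.2 ⟨hP₀, hP₀n⟩⟩
  obtain ⟨hPA, hPn⟩ := Finset.mem_filter.1 hPm
  have hP := (hHK g l J (K + 1) P).1 hPA
  have hcard : Fintype.card F * (HK g l J (K + 1)).card =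
      ((Finset.univ : Finset F) ×ˢ (HK g l J (K + 1))).card := by
    rw [Finset.card_product, Finset.card_univ]
  rw [hcard]
  refine Finset.card_le_card_of_injOn (fun p => C p.1 * (X * P) + p.2) ?_ ?_
  · rintro ⟨c, a⟩ hca
    have ha : a ∈ HK g l J (K + 1) := (Finset.mem_product.1 (Finset.mem_coe.1 hca)).2
    have ha' := (hHK g l J (K + 1) a).1 ha
    rw [Finset.mem_coe, hHK]
    refine ⟨?_, fun i hi => ?_⟩
    · have h1 : (X * P).degree < ((J + 1 : ℕ) : WithBot ℕ) := by
        have h2 : P.natDegree < J := by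
          rw [natDegree_lt_iff_degree_lt hPn]; exact hP.1
        have h3 : X * P ≠ 0 := mul_ne_zero X_ne_zero hPn
        rw [← natDegree_lt_iff_degree_lt h3, natDegree_X_mul hPn]
        omega
      have h4 : (C c * (X * P)).degree < ((J + 1 : ℕ) : WithBot ℕ) := by
        rw [← smul_eq_C_mul]
        exact lt_of_le_of_lt (degree_smul_le c (X * P)) h1
      have h5 : a.degree < ((J + 1 : ℕ) : WithBot ℕ) := by
        refine lt_of_lt_of_le ha'.1 ?_
        exact_mod_cast Nat.le_succ J
      exact lt_of_le_of_lt (degree_add_le _ _) (max_lt h4 h5)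
    · have h1 : X ^ i * (C c * (X * P) + a) = C c * (X ^ (i + 1) * P) + X ^ i * a := by ring
      show mu g l (X ^ i * (C c * (X * P) + a)) = 0
      rw [h1, mu_add, mu_C, hP.2 (i + 1) (by omega), ha'.2 i (by omega), mul_zero, zero_add]
  · rintro ⟨c, a⟩ hca ⟨c', a'⟩ hca' heq
    have ha : a ∈ HK g l J (K + 1) := (Finset.mem_product.1 (Finset.mem_coe.1 hca)).2
    have hb : a' ∈ HK g l J (K + 1) := (Finset.mem_product.1 (Finset.mem_coe.1 hca')).2
    have ha' := (hHK g l J (K + 1) a).1 ha
    have hb' := (hHK g l J (K + 1) a').1 hb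
    have heq' : C c * (X * P) + a = C c' * (X * P) + a' := heq
    have h1 : C (c - c') * (X * P) = a' - a := by
      rw [C_sub]
      linear_combination heq'
    have hcc : c = c' := by
      by_contra hne
      have h2 : c - c' ≠ 0 := sub_ne_zero.2 hne
      have h3 : X * P ≠ 0 := mul_ne_zero X_ne_zero hPn
      have h4 : a' - a ≠ 0 := by
        rw [← h1]
        exact mul_ne_zero (C_ne_zero.2 h2) h3
      have h5 : (a' - a).natDegree = P.natDegree + 1 := by
        rw [← h1, natDegree_C_mul h2, natDegree_X_mul hPn]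
      have h6 : a' - a ∈ HK g l J (K + 1) := by
        rw [hHK]
        refine ⟨lt_of_le_of_lt (degree_sub_le _ _) (max_lt hb'.1 ha'.1), fun i hi => ?_⟩
        rw [mul_sub, mu_sub, hb'.2 i hi, ha'.2 i hi, sub_zero]
      have h7 := hmax (a' - a) (Finset.mem_filter.2 ⟨h6, h4⟩)
      have h8 : (a' - a).natDegree ≤ P.natDegree := h7
      omega
    subst hcc
    have h9 : a = a' := add_left_cancel heq'
    rw [h9]

end D5
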