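import Pool.Agent.H506.D5.Stm

/-!
# H3: upper bound for the Hankel kernels
-/

open Polynomial
open scoped Classical

noncomputable section

namespace D5

namespace XH3

variable {F : Type} [Field F] [Fintype F]

theorem mu_sub (g : ℕ) (l : Fin g → F) (P Q : F[X]) : mu g l (P - Q) = mu g l P - mu g l Q := by
  unfold mu
  rw [← Finset.sum_sub_distrib]
  apply Finset.sum_congr rfl
  intro j _
  rw [coeff_sub, mul_sub]

theorem one_le_card : 1 ≤ Fintype.card F := Fintype.card_pos

theorem sub_mem (h0 : ∀ n (g : F[X]), g ∈ POL F n ↔ g.degree < n) {g : ℕ} {l : Fin g → F} {J K : ℕ}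
    {P Q : F[X]} (hP : P ∈ HK g l J K) (hQ : Q ∈ HK g l J K) : P - Q ∈ HK g l J K := by
  unfold HK at hP hQ ⊢
  rw [Finset.mem_filter] at hP hQ ⊢
  refine ⟨?_, fun i hi => ?_⟩
  · rw [h0] at *
    exact (degree_sub_le P Q).trans_lt (max_lt hP.1 hQ.1)
  · rw [mul_sub, mu_sub, hP.2 i hi, hQ.2 i hi, sub_zero]

/-- one more condition divides the number of elements at most by `q` -/
theorem card_le (h0 : ∀ n (g : F[X]), g ∈ POL F n ↔ g.degree < n) (g : ℕ) (l : Fin g → F) (J K : ℕ) :
    (HK g l J K).card ≤ (HK g l J (K + 1)).card * Fintype.card F := by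
  refine (Finset.card_le_mul_card_image (f := fun P => mu g l (X ^ K * P)) (HK g l J K)
    (HK g l J (K + 1)).card ?_).trans (Nat.mul_le_mul_left _ (Finset.card_le_univ _))
  intro a ha
  rw [Finset.mem_image] at ha
  obtain ⟨P₀, hP₀, rfl⟩ := ha
  apply Finset.card_le_card_of_injOn (fun P => P - P₀)
  · intro P hP
    rw [Finset.mem_coe, Finset.mem_filter] at hP
    have h1 := sub_mem h0 hP.1 hP₀
    rw [Finset.mem_coe]
    unfold HK at h1 ⊢
    rw [Finset.mem_filter] at h1 ⊢
    refine ⟨h1.1, fun i hi => ?_⟩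
    rcases Nat.lt_succ_iff_lt_or_eq.1 hi with h | h
    · exact h1.2 i h
    · rw [h, mul_sub, mu_sub, hP.2, sub_self]
  · intro P _ Q _ h
    exact sub_left_injective h

/-- the first part -/
theorem part1 (hH1 : (∀ (g : ℕ) (l : Fin g → F) (J : ℕ), J ≤ rr g l → J ≤ g + 1 → HK g l J (g + 1 - J) = {0}) ∧
    (∀ (g : ℕ) (l : Fin g → F) (J K : ℕ), J + K = g + 1 → K ≤ rr g l → K ≤ J ∧
      (HK g l J K).card = Fintype.card F ^ (J - K)))
    (hH2 : ∀ (g : ℕ) (l : Fin g → F) (J K : ℕ), (∃ P ∈ HK g l J (K + 1), P ≠ 0) →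
      Fintype.card F * (HK g l J (K + 1)).card ≤ (HK g l (J + 1) K).card)
    (g : ℕ) (l : Fin g → F) : ∀ n J K : ℕ, J + K = g + 1 → K ≤ rr g l + n →
      (HK g l J K).card ≤ Fintype.card F ^ (max (J - rr g l) (2 * J - (g + 1))) := by
  intro n
  induction n with
  | zero =>
    intro J K h1 h2
    obtain ⟨h3, h4⟩ := hH1.2 g l J K h1 (by omega)
    rw [h4]
    apply Nat.pow_le_pow_right one_le_card
    apply le_max_of_le_right
    omega
  | succ n ih =>
    intro J K h1 h2
    rcases Nat.lt_or_ge K (rr g l + n + 1) with h | h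
    · exact ih J K h1 (by omega)
    have hK : K = rr g l + n + 1 := by omega
    rcases Nat.lt_or_ge (rr g l) J with hJ | hJ
    · by_cases hne : ∃ P ∈ HK g l J K, P ≠ 0
      · rw [hK] at hne
        have h3 := hH2 g l J (rr g l + n) hne
        have h4 := ih (J + 1) (rr g l + n) (by omega) le_rfl
        have h5 : max (J + 1 - rr g l) (2 * (J + 1) - (g + 1)) = (J - rr g l) + 1 := by
          rw [max_eq_left (by omega)]
          omega
        rw [h5, pow_succ, mul_comm] at h4
        have h6 := Nat.le_of_mul_le_mul_left (h3.trans h4) (one_le_card (F := F))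
        rw [hK]
        exact h6.trans (Nat.pow_le_pow_right one_le_card (le_max_left _ _))
      · push Not at hne
        have h3 : HK g l J K ⊆ {0} := fun P hP => Finset.mem_singleton.2 (hne P hP)
        exact (Finset.card_le_card h3).trans ((Finset.card_singleton _).le.trans
          (Nat.one_le_pow _ _ one_le_card))
    · have h3 := hH1.1 g l J hJ (by omega)
      have h4 : K = g + 1 - J := by omega
      rw [h4, h3, Finset.card_singleton]
      exact Nat.one_le_pow _ _ one_le_card

end XH3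

theorem p_H3 (F : Type) [Field F] [Fintype F] [CharP F 5] (hB0 : S_B0 F) (hH1 : S_H1 F)
    (hH2 : S_H2 F) : S_H3 F := by
  have h1 : ∀ (g : ℕ) (l : Fin g → F) (J K : ℕ), J + K = g + 1 →
      (HK g l J K).card ≤ Fintype.card F ^ (max (J - rr g l) (2 * J - (g + 1))) :=
    fun g l J K h => XH3.part1 hH1 hH2 g l K J K h (by omega)
  refine ⟨h1, fun g l J K h => ?_⟩
  refine (XH3.card_le hB0.1 g l J K).trans ?_
  rw [pow_succ]
  exact Nat.mul_le_mul_right _ (h1 g l J (K + 1) (by omega))

end D5
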