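import Pool.Agent.H506.D5.Stm

/-!
# Project D5, second part: the average of the 5-torsion is bounded

`F` is a finite field of characteristic 5.  The first part (all finished) bounds the average by `C_ε q^(ε g)`; the loss comes
from the divisor bound E6.  Here the pairs `(l, v)` with a large radical `KK g l v` are counted directly, with the structure of the
Hankel kernels (two generators `B₁, B₂`) and the fact that in characteristic 5 the conditions are additive in `(b₁, b₂)`.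
Notation: `d = rr g l`, `d₁ = d`, `d₂ = g + 1 - d`.
-/

open Polynomial
open scoped Classical

noncomputable section

namespace D5

/-- The polynomial whose coefficients are the fifth powers of those of `b`: `b ^ 5 = (fr b)(X ^ 5)` in characteristic 5. -/
def fr {F : Type} [Field F] (b : F[X]) : F[X] :=
  ∑ i ∈ Finset.range (b.natDegree + 1), monomial i (b.coeff i ^ 5)

/-- Coprime polynomials, also at infinity with respect to the formal degrees `d₁, d₂`. -/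
def Cop {F : Type} [Field F] (d₁ d₂ : ℕ) (B₁ B₂ : F[X]) : Prop :=
  IsCoprime B₁ B₂ ∧ B₁.natDegree ≤ d₁ ∧ B₂.natDegree ≤ d₂ ∧ (B₁.natDegree = d₁ ∨ B₂.natDegree = d₂)

/-- `(B₁, B₂)` are generators (of formal degrees `d`, `g + 1 - d`) of the annihilator of `l`. -/
def Val {F : Type} [Field F] (g : ℕ) (l : Fin g → F) (d : ℕ) (B₁ B₂ : F[X]) : Prop :=
  Cop d (g + 1 - d) B₁ B₂ ∧ (∀ i, i + d < g → mu g l (X ^ i * B₁) = 0) ∧ (∀ i, i + 1 < d → mu g l (X ^ i * B₂) = 0)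

/-- A chosen pair `(b₁, b₂)` such that `(fr b₁, fr b₂)` are generators for `l`. -/
def bb {F : Type} [Field F] (g : ℕ) (l : Fin g → F) : F[X] × F[X] :=
  if h : ∃ p : F[X] × F[X], Val g l (rr g l) (fr p.1) (fr p.2) then h.choose else (0, 0)

/-- The radical has `q ^ k` elements and (for `k ≥ 1`) contains `z X ^ i`, `i < k`, in the strong sense. -/
def GP {F : Type} [Field F] [Fintype F] (g : ℕ) (l : Fin g → F) (v : F[X]) (k : ℕ) (z : F[X]) : Prop :=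
  KK g l v = Fintype.card F ^ k ∧ k ≤ 2 * g + 1 ∧ z ≠ 0 ∧
    (1 ≤ k → z ∈ POL F (2 * g + 2 - k) ∧ ∀ i, i < 2 * g + k → Lam g l (v * z * X ^ i) = 0)

/-- The radical is large (`k ≥ 1`) and its generator involves `b₂`. -/
def NL {F : Type} [Field F] [Fintype F] (g : ℕ) (l : Fin g → F) (v : F[X]) (k : ℕ) : Prop :=
  1 ≤ k ∧ ∃ z α β : F[X], GP g l v k z ∧ v * z = (bb g l).1 ^ 5 * α + (bb g l).2 ^ 5 * β ∧
    α ∈ POL F (3 * g + 5 - k - 5 * rr g l) ∧ β ∈ POL F (3 * g + 5 - k - 5 * (g + 1 - rr g l)) ∧ β ≠ 0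

/-- The radical is large (`k ≥ 1`) and comes from `b₁`. -/
def LO {F : Type} [Field F] [Fintype F] (g : ℕ) (l : Fin g → F) (v : F[X]) (k : ℕ) : Prop :=
  1 ≤ k ∧ ∃ z α : F[X], GP g l v k z ∧ v * z = (bb g l).1 ^ 5 * α ∧ α ∈ POL F (3 * g + 5 - k - 5 * rr g l)

/-- The number of monic divisors of `P` (of degree `≤ deg P`). -/
def tau {F : Type} [Field F] [Fintype F] (P : F[X]) : ℕ :=
  ∑ i ∈ Finset.range (P.natDegree + 1), ((MON F i).filter (fun m => m ∣ P)).card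

/-- The pairs `(b₁, b₂)`, coprime with formal degrees `d₁, d₂`, with `b ∣ b₁⁵ α + b₂⁵ β`. -/
def PR {F : Type} [Field F] [Fintype F] (d₁ d₂ : ℕ) (b α β : F[X]) : Finset (F[X] × F[X]) :=
  (POL F (d₁ + 1) ×ˢ POL F (d₂ + 1)).filter (fun p => Cop d₁ d₂ p.1 p.2 ∧ b ∣ p.1 ^ 5 * α + p.2 ^ 5 * β)

variable (F : Type) [Field F] [Fintype F] [CharP F 5]

/-- **FR** (uses B0) properties of `fr`: coefficients, additivity, `b ^ 5 = expand 5 (fr b)`, bijectivity, degrees, coprimality.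
Proof: `(fr b)_i = b_i ^ 5` for all `i` (beyond the degree both are 0); Frobenius `x ↦ x ^ 5` is an automorphism of `F`
(`F` finite of characteristic 5), so `fr` is the ring automorphism `Polynomial.mapEquiv` of `F[X]` given by it; `b ^ 5 = expand 5 (fr b)`
(`Polynomial.map_frobenius_expand`, or `expand_char`, or coefficients).  Ring automorphisms preserving degrees preserve `IsCoprime`. -/
def S_FR : Prop :=
  (∀ (b : F[X]) i, (fr b).coeff i = (b.coeff i) ^ 5) ∧ (∀ b c : F[X], fr (b + c) = fr b + fr c) ∧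
  (∀ b c : F[X], fr (b * c) = fr b * fr c) ∧ (∀ b : F[X], b ^ 5 = expand F 5 (fr b)) ∧
  (∀ B : F[X], ∃ b : F[X], fr b = B) ∧ (∀ b c : F[X], fr b = fr c → b = c) ∧
  (∀ b : F[X], (fr b).natDegree = b.natDegree) ∧
  (∀ d₁ d₂ (b c : F[X]), Cop d₁ d₂ (fr b) (fr c) ↔ Cop d₁ d₂ b c)

/-- **P0** (uses B0, E4, H1) every `l ≠ 0` has generators: `Val g l (rr g l) B₁ B₂` for some `B₁, B₂`.
Proof: `d = rr g l`, `1 ≤ d`, `2 d ≤ g + 1` (E4), `d₂ = g + 1 - d`.  `B₁ ≠ 0` from `Ann g l d`.  `HK g l (g+2-d) (d-1)` has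
`q ^ (g + 3 - 2 d)` elements (H1 (2)), more than the `q ^ (g+2-2d)` multiples `B₁ c`, `c ∈ POL (g + 2 - 2 d)`; let `B₂` be an element of it
which is not such a multiple.  `deg B₂ ≤ d₂` and `mu (X ^ i B₂) = 0` for `i < d - 1`.  It remains to show `Cop d d₂ B₁ B₂`.
Let `G = gcd(B₁, B₂)`, `γ₀ = deg G`, `γ₁ = min (d - deg B₁) (d₂ - deg B₂)`, `γ = γ₀ + γ₁`; suppose `γ ≥ 1`.  Write `B_i = G B_i'`.
`l` kills (i.e. `mu` vanishes on) the space `S = B₁ POL(g-d) + B₂ POL(d-1)`.  `S ⊆ G POL(g-γ)` by degrees (the degrees of elements of `S` are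
`≤ g - 1 - γ₁`).  The relations `B₁ α + B₂ β = 0`, `α ∈ POL(g-d)`, `β ∈ POL(d-1)` are `α = B₂' m`, `β = - B₁' m`, with
`deg m < γ - 1`(indeed `g - d - deg B₂' = (d₂ - deg B₂) - 1 + γ₀`, `d - 1 - deg B₁' = (d - deg B₁) - 1 + γ₀`), so
`#S = q ^ (g - 1 - (γ - 1)) = q ^ (g-γ)` and `S = G POL(g-γ)`.  So `mu (X ^ i G) = 0` for `i < g - γ`, i.e. `Ann g l γ`, so `d ≤ γ`.
But `γ₀ ≤ deg B₁` and `γ₁ ≤ d - deg B₁`, so `γ = d`, `γ₀ = deg B₁`, `γ₁ = d - deg B₁ ≤ d₂ - deg B₂`: then `B₁ ∣ B₂`, `B₂ = B₁ c` with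
`deg c = deg B₂ - deg B₁ ≤ d₂ - d = g + 1 - 2d` (if `B₂ ≠ 0`), against the choice of `B₂`.  So `γ = 0`, which is `Cop`. -/
def S_P0 : Prop :=
  ∀ (g : ℕ) (l : Fin g → F), l ≠ 0 → ∃ B₁ B₂ : F[X], Val g l (rr g l) B₁ B₂

/-- **P0b** (uses B0) (1) at most `q` forms `l` have the given generators; (2) `B₂` may be changed by multiples of `B₁`.
Proof: (1) such `l` kill `S = B₁ POL(g-d) + B₂ POL(d-1)`, a direct sum (`B₁ α = - B₂ β`: if `deg B₁ = d` then `B₁ ∣ β`,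
`deg β < d - 1`, so `β = 0`; if `deg B₂ = g+1-d` then `B₂ ∣ α`, `deg α < g - d`, `α = 0`), so `S` has dimension `g - 1` in the
`g`-dimensional space `POL g`, and the linear forms `P ↦ mu g l P` on `POL g` (which determine `l`) vanishing on `S` form a space of dimension 1.
(2) `Cop` is kept: `deg (B₁ c) ≤ deg B₁ + g + 1 - 2d`, which is `< g+1-d` if `deg B₁ < d`; for the vanishing,
`mu (X ^ i B₁ c)` is a combination of `mu (X ^ (i+m) B₁)`, `m ≤ g + 1 - 2d`, and `i + m + d < g` if `i + 1 < d`. -/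
def S_P0b : Prop :=
  (∀ (g d : ℕ) (B₁ B₂ : F[X]), 1 ≤ d → 2 * d ≤ g + 1 →
    ((Finset.univ : Finset (Fin g → F)).filter (fun l => Val g l d B₁ B₂)).card ≤ Fintype.card F) ∧
  (∀ (g d : ℕ) (l : Fin g → F) (B₁ B₂ c : F[X]), 1 ≤ d → 2 * d ≤ g + 1 → Val g l d B₁ B₂ → c ∈ POL F (g + 2 - 2 * d) →
    Val g l d B₁ (B₂ + B₁ * c))

/-- **P1** (uses B0, E4, H3) `Val g l d B₁ B₂` with `d = rr g l ≥ 1`, `J + K = g + 1`: the elements of `HK g l J K` are the `B₁ α + B₂ β`,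
`α ∈ POL (J - d)`, `β ∈ POL (J - (g+1-d))` (natural subtraction).
Proof: all these are in `HK g l J K` (`mu (X ^ i B₁ α)` combines `mu (X ^ (i+m) B₁)` with `i + m ≤ (K-1) + (J-d-1) < g - d`; `B₂` similarly,
`i + m ≤ (K-1) + (J - (g+1-d) - 1) = d - 2`), and they are pairwise different (`B₁ α + B₂ β = 0`: if `deg B₁ = d`, `B₁ ∣ β`,
`deg β < J - (g+1-d) ≤ d`, so `β = 0`; if `deg B₂ = g+1-d`, `B₂ ∣ α`, `deg α < J - d ≤ g+1-d`), so there are `q ^ ((J-d) + (J-(g+1-d)))` of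
them, and H3 (1) gives at most that many elements of `HK g l J K` (`max (J-d) (2J-(g+1)) ≤ (J-d)+(J-(g+1-d))`, as `2 d ≤ g + 1`). -/
def S_P1 : Prop :=
  ∀ (g : ℕ) (l : Fin g → F) (B₁ B₂ : F[X]), 1 ≤ rr g l → Val g l (rr g l) B₁ B₂ →
    ∀ J K : ℕ, J + K = g + 1 → ∀ P ∈ HK g l J K, ∃ α β : F[X], P = B₁ * α + B₂ * β ∧
      α ∈ POL F (J - rr g l) ∧ β ∈ POL F (J - (g + 1 - rr g l))

/-- **P2** (uses B0, FR, P1, E4) let `(fr b₁, fr b₂)` be generators for `l`, `d = rr g l ≥ 1`.  If `deg w ≤ 3g - k` (`k ≤ 2g+1`, `k ≤ 3g`) and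
`Lam l (w X ^ i) = 0` for all `i < 2g + k` then `w = b₁⁵ α + b₂⁵ β` with `deg α < 3g+5-k-5d`, `deg β < 3g+5-k-5(g+1-d)`.
Proof: as in E5, for `s = 0, …, 4` let `w_s = ∑_j w_{5j+s} X ^ j` and `K_s = (2g+k+s)/5`, `J_s = g + 1 - K_s` (`K_s ≤ g + 1`).  `w_s` has degree `< (3g-k-s+5)/5 ≤ J_s`
(the numerators `3g-k-s+5` and `2g+k+s` add up to `5g+5`), and for `i < K_s` (so `5i+4-s < 2g+k`)
`mu l (X ^ i w_s) = Lam l (w X ^ (5i+4-s)) = 0`.  So `w_s ∈ HK g l J_s K_s`, and P1 gives `w_s = B₁ α_s + B₂ β_s`.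
With `w = ∑ X ^ s w_s(X⁵)`, `B_i(X⁵) = b_i⁵` (FR): `w = b₁⁵ α + b₂⁵ β`, `α = ∑ X ^ s α_s(X⁵)`, `β = ∑ X ^ s β_s(X⁵)`; as
`5 K_s ≥ 2g+k+s-4`, the degree of `X ^ s α_s(X⁵)` is `≤ 5 (J_s - d - 1) + s ≤ 3g+4-k-5d`, and similarly for `β`. -/
def S_P2 : Prop :=
  ∀ (g : ℕ) (l : Fin g → F) (b₁ b₂ : F[X]), 1 ≤ rr g l → Val g l (rr g l) (fr b₁) (fr b₂) →
    ∀ (k : ℕ) (w : F[X]), k ≤ 2 * g + 1 → k ≤ 3 * g → w ∈ POL F (3 * g + 1 - k) → (∀ i, i < 2 * g + k → Lam g l (w * X ^ i) = 0) →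
      ∃ α β : F[X], w = b₁ ^ 5 * α + b₂ ^ 5 * β ∧ α ∈ POL F (3 * g + 5 - k - 5 * rr g l) ∧
        β ∈ POL F (3 * g + 5 - k - 5 * (g + 1 - rr g l))

/-- **G** (uses B0, E4, H3) the structure of the radical: for `v` of degree `< g`, `v ≠ 0`, there are `k, z` with `GP g l v k z`.
Proof: the radical `Z = {z ∈ POL (2g+1) : Lam l (v z y) = 0 ∀ y ∈ POL (2g+1)}` is an `F`-space, so `KK = q ^ k`, `k ≤ 2g+1`.  If `k = 0` take
`z = 1`.  Let `k ≥ 1`, `n = 2g+1`, `g' = 4g + 1 = 2n - 1` and `l'_m = Lam l (v X ^ m)`, `m < g'`.  For `P` of degree `< g'`,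
`mu g' l' P = Lam l (v P)`.  So `Z = HK g' l' n n` (test only `y = X ^ i`, `i < n`, by linearity).  H3 (1) for `g'` gives, with `r' = rr g' l'`,
`2 r' ≤ g' + 1 = 2n` (E4), `k ≤ max (n - r') (2n - (g'+1)) = n - r'`.  By E4 (2) there is `B ≠ 0` of degree `≤ r' ≤ n - k` with
`mu g' l' (X ^ i B) = 0` for `i + r' < g'`.  Take `z = B`: it is in `POL (n - k + 1) = POL (2g+2-k)`, and for `i < 2g + k = n - 1 + k`
one has `i + r' < 2n - 1 = g'` so `Lam l (v B X ^ i) = mu g' l' (X ^ i B) = 0`. -/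
def S_G : Prop :=
  ∀ (g : ℕ) (l : Fin g → F) (v : F[X]), v ∈ POL F g → v ≠ 0 → ∃ (k : ℕ) (z : F[X]), GP g l v k z

/-- **Q** (uses B0) the main count: for `d₁ + d₂ = g + 1`, `d₁, d₂ ≥ 1`, `b ≠ 0` squarefree of degree `≤ g + 2` and any `(α, β) ≠ (0, 0)`
there is a monic common divisor `m` of `b, α, β` with `#(PR d₁ d₂ b α β) q ^ (deg b) ≤ q ^ (g + 3 + deg m)`.
Proof: `m` = the monic gcd of `b, α, β`, `b = m b'`; no prime `P ∣ b'` divides both `α` and `β` (otherwise `P ∣ m` and `P² ∣ b`).  If `PR` is empty we are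
done; fix `(b₁, b₂)` in it.  For every `(x, y)` in `PR` put `Δ = b₁ y - b₂ x`, of degree `≤ g + 1`.  For a prime `P ∣ b'`:
`b₁⁵ α + b₂⁵ β ≡ 0 ≡ x⁵ α + y⁵ β` with `(α, β) ≢ 0` mod `P`, so the determinant `b₁⁵ y⁵ - b₂⁵ x⁵ = Δ⁵` (characteristic 5) is `0` mod `P`, `P ∣ Δ`;
`b'` is squarefree, so `b' ∣ Δ`.  The number of the possible `Δ` (degree `≤ g+1`, multiples of `b'`) is `q ^ (g + 2 - deg b')`.
For a given `Δ` the difference of two `(x, y)` is `(x₀, y₀)` with `b₁ y₀ = b₂ x₀`; as `(b₁, b₂)` are coprime, `(x₀, y₀) = t (b₁, b₂)`, and `t` is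
constant by the degrees (`deg x₀ ≤ d₁`, `deg y₀ ≤ d₂`, and `deg b₁ = d₁` or `deg b₂ = d₂`, both nonzero as `d₁, d₂ ≥ 1`): `≤ q` possibilities.
So `#PR ≤ q · q ^ (g + 2 - deg b + deg m)`. -/
def S_Q : Prop :=
  ∀ (g d₁ d₂ : ℕ) (b α β : F[X]), d₁ + d₂ = g + 1 → 1 ≤ d₁ → 1 ≤ d₂ → b ≠ 0 → Squarefree b → b.natDegree ≤ g + 2 →
    (α ≠ 0 ∨ β ≠ 0) → ∃ m : F[X], m.Monic ∧ m ∣ b ∧ m ∣ α ∧ m ∣ β ∧
      (PR d₁ d₂ b α β).card * Fintype.card F ^ b.natDegree ≤ Fintype.card F ^ (g + 3 + m.natDegree)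

/-- **R1** (uses B0, Q) summed over `b` squarefree of degree `j ≤ g + 2`, `α ∈ POL A`, `0 ≠ β ∈ POL A'`, `A' ≤ A`:
`∑ #(PR d₁ d₂ b α β) ≤ 2 q ^ (g + 4 + A + A')`.
Proof: by Q, `#PR ≤ ∑_{m monic, m ∣ b, α, β} q ^ (g+3-j+deg m)`.  For `deg m = i` (`i ≤ j`, and `i < A'` as `m ∣ β ≠ 0`) the number of `b` of degree `j` divisible by
`m` is `≤ q ^ (j+1-i)`, of `α ∈ POL A` it is `q ^ (A-i)`, of `β ∈ POL A'` it is `q ^ (A'-i)`, and there are `q ^ i` monic `m`: the sum is at most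
`∑_i q ^ i q ^ (g+3-j+i) q ^ (j+1-i) q ^ (A-i) q ^ (A'-i) = q ^ (g+4+A+A') ∑_i q ^ (-i)`. -/
def S_R1 : Prop :=
  ∀ (g d₁ d₂ j A A' : ℕ), d₁ + d₂ = g + 1 → 1 ≤ d₁ → 1 ≤ d₂ → j ≤ g + 2 → A' ≤ A →
    ∑ b ∈ (DEG F j).filter (fun b => Squarefree b), ∑ α ∈ POL F A, ∑ β ∈ (POL F A').filter (fun β => β ≠ 0),
      ((PR d₁ d₂ b α β).card : ℝ) ≤ 2 * qq F ^ (g + 4 + A + A')

/-- **R2** (uses B0, FR, E4, P0, P0b, R1) for fixed monic `a` of degree `n`, `1 ≤ k`, `1 ≤ d`, `2 n + j < g`: the number of the pairs `(l, b)`, `rr g l = d`, `b`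
squarefree of degree `j`, with `NL g l (a² b) k`, times `q ^ (2k)`, is at most `2 q ^ (g + 8 + 2 d)`.
Proof: (if `2 d > g + 1` there are none, E4.)  For such `(l, b)`: `l ≠ 0` (as `rr g 0 = 0`), so by P0 and FR `(b₁, b₂) = bb g l` satisfies
`Val g l d (fr b₁) (fr b₂)`, and `b₁ ≠ 0` (`Cop` with `1 ≤ d`, `1 ≤ g + 1 - d`).  Let `z, α, β` be from `NL`,
`A = 3g+5-k-5d`, `A' = 3g+5-k-5(g+1-d)`; `A' ≥ 1` since `β ≠ 0`, and then `A + A' = g + 5 - 2k` and `A' ≤ A` (as `2d ≤ g+1`).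
Let `c ∈ POL (g+2-2d)`, `b₂' = b₂ + b₁ c`: then `Val g l d (fr b₁) (fr b₂')` (P0b (2); `fr c` has the degree of `c`), and
`a² b z = b₁⁵ α' + b₂'⁵ β` with `α' = α - c⁵ β` (characteristic 5: `b₂'⁵ = b₂⁵ + b₁⁵ c⁵`), `deg (c⁵ β) ≤ 5(g+1-2d) + A' - 1 = A - 1`, so `α' ∈ POL A`.  As `b` divides it,
`(b₁, b₂') ∈ PR d (g+1-d) b α' β` (`Cop` by FR).  So `(l, b, c) ↦ (l, b, b₁, b₂')` is injective, and for each `(b₁, b₂')` there are at most `q` forms `l` (P0b (1)):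
`#(l,b) q ^ (g+2-2d) ≤ q ∑_b ∑_{α ∈ POL A} ∑_{β ≠ 0, POL A'} #PR ≤ q · 2 q ^ (g+4+g+5-2k)` by R1. -/
def S_R2 : Prop :=
  ∀ (g d n j k : ℕ) (a : F[X]), a ∈ MON F n → 2 * n + j < g → 1 ≤ k → 1 ≤ d →
    ((((Finset.univ : Finset (Fin g → F)) ×ˢ DEG F j).filter (fun p => rr g p.1 = d ∧ Squarefree p.2 ∧
      NL g p.1 (a ^ 2 * p.2) k)).card : ℝ) * qq F ^ (2 * k) ≤ 2 * qq F ^ (g + 8 + 2 * d)

/-- **SQ** every nonzero polynomial is `a² b` with `a` monic and `b` squarefree. (Unique factorization; `b` nonzero.) -/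
def S_SQ : Prop :=
  ∀ v : F[X], v ≠ 0 → ∃ a b : F[X], a.Monic ∧ b ≠ 0 ∧ Squarefree b ∧ v = a ^ 2 * b

/-- **DB** (uses B0) divisor bound: for `ε > 0` there is `C` with `tau P ≤ C q ^ (ε deg P)` for all `P ≠ 0`.
Proof: `tau P = ∏ (e_i + 1)` for `P = c ∏ P_i ^ (e_i)`; see E6 (or adapt the file E6, helper122). -/
def S_DB : Prop :=
  ∀ ε : ℝ, 0 < ε → ∃ C : ℝ, 0 < C ∧ ∀ P : F[X], P ≠ 0 → (tau P : ℝ) ≤ C * qq F ^ (ε * (P.natDegree : ℝ))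

/-- **L1** (uses B0, FR, E4, P0) if `l ≠ 0`, `v ≠ 0`, `deg v < g` and `LO g l v k` then `b₁ = (bb g l).1` is not `0`, has degree `≤ d = rr g l`, and there is a monic `δ` with
`δ ∣ b₁ ^ 5`, `δ ∣ v` and `k + 5 d + deg v ≤ 3 g + 4 + deg δ`.
Proof: by P0 and FR `Val g l d (fr b₁) (fr b₂)`, `1 ≤ d`, `2 d ≤ g+1` (E4), so `Cop d (g+1-d) b₁ b₂`; `b₁ = 0` would make `b₂` a unit, of degree `0`, against
`Cop` (`d ≥ 1`, `g + 1 - d ≥ 1`).  `v z = b₁⁵ α`, `z, v ≠ 0` so `α ≠ 0`.  Let `δ` be the monic gcd of `b₁⁵` and `v`: `v / δ` divides `(b₁⁵ / δ) α` and is coprime to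
`b₁⁵ / δ`, so `v / δ ∣ α` and `deg v - deg δ ≤ deg α ≤ 3g + 4 - k - 5 d`. -/
def S_L1 : Prop :=
  ∀ (g : ℕ) (l : Fin g → F) (v : F[X]) (k : ℕ), l ≠ 0 → v ≠ 0 → v ∈ POL F g → LO g l v k →
    (bb g l).1 ≠ 0 ∧ (bb g l).1.natDegree ≤ rr g l ∧ ∃ δ : F[X], δ.Monic ∧ δ ∣ (bb g l).1 ^ 5 ∧ δ ∣ v ∧
      k + 5 * rr g l + v.natDegree ≤ 3 * g + 4 + δ.natDegree

/-- **L2** (uses B0, DB, L1) the low part: there is `C` with, for all `l ≠ 0`,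
`∑_{v ≠ 0, deg v < g, LO} √(KK g l v) ≤ C q ^ (2 g + 3) q ^ (- 9 d / 4)`, `d = rr g l`.
Proof: `√KK = q ^ (k/2) ≤ q ^ ((3g+4-5d-e)/2) q ^ (deg δ / 2)` with `e = deg v` (L1), which is at most
`q ^ ((3g+4-5d-e)/2) ∑_{δ monic, δ ∣ b₁⁵, δ ∣ v} q ^ (deg δ / 2)`.  The number of `v` of degree `e` divisible by `δ` is `≤ q ^ (e+1-deg δ)`, so
the sum over the `v` of degree `e` is at most `q ^ ((3g+4-5d-e)/2) q ^ (e+1) tau (b₁⁵)`, and the sum over `e < g` is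
`≤ q ^ ((3g+6-5d)/2) tau(b₁⁵) ∑_{e<g} q ^ (e/2) ≤ q ^ (2g+3-5d/2) tau(b₁⁵)` (as `√5 - 1 > 1`).  By DB with `ε = 1/20`,
`tau (b₁⁵) ≤ C q ^ (5 d / 20) = C q ^ (d/4)`.  (If no `v` satisfies `LO` the sum is `0`; `b₁ ≠ 0`, `deg b₁ ≤ d` from L1 otherwise.) -/
def S_L2 : Prop :=
  ∃ C : ℝ, 0 < C ∧ ∀ (g : ℕ) (l : Fin g → F), l ≠ 0 →
    ∑ v ∈ (POL F g).filter (fun v => v ≠ 0 ∧ ∃ k, LO g l v k), Real.sqrt (KK g l v : ℝ) ≤
      C * qq F ^ (2 * g + 3) * qq F ^ (-(9 / 4 : ℝ) * (rr g l : ℝ))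

/-- **T0** (uses B0, E4, R2) for `a` monic of degree `n`, `2 n + j < g`, `1 ≤ d`: the sum of `√KK` over the pairs `(l, b)`, `rr g l = d`, `b` squarefree of degree `j`,
with `NL g l (a² b) k` for some `k`, is at most `5 q ^ (2 d + (2 j + g)/3 + 4)`.
Proof: for a given `k ≥ 1` the number of pairs is `≤ q ^ (2d+1) q ^ (j+1)` (E4) and `≤ 2 q ^ (g+8+2d-2k)` (R2), so (`min x y ≤ x^(2/3) y^(1/3)`)
`≤ 2 q ^ (2 d + (2j+g)/3 + 4 - 2k/3)`... precisely `2^(1/3) q ^ ((2/3)(2d+j+2) + (g+8+2d-2k)/3)`; `√KK = q ^ (k/2)`, and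
`2^(1/3) ∑_{k ≥ 1} q ^ (-k/6) ≤ 2^(1/3) / (5^(1/6) - 1) ≤ 5`. -/
def S_T0 : Prop :=
  ∀ (g d n j : ℕ) (a : F[X]), a ∈ MON F n → 2 * n + j < g → 1 ≤ d →
    ∑ p ∈ ((Finset.univ : Finset (Fin g → F)) ×ˢ DEG F j).filter (fun p => rr g p.1 = d ∧ Squarefree p.2 ∧
      ∃ k, NL g p.1 (a ^ 2 * p.2) k), Real.sqrt (KK g p.1 (a ^ 2 * p.2) : ℝ) ≤
      5 * qq F ^ (2 * (d : ℝ) + (2 * (j : ℝ) + (g : ℝ)) / 3 + 4)

/-- **T1** (uses B0, SQ, E4, T0) `∑_{l ≠ 0} ∑_{v ≠ 0, deg v < g, NL} √KK ≤ C q ^ (2 g + 5)`.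
Proof: every `v` is `a² b` (SQ) with `a` monic of degree `n`, `b` squarefree of degree `j`, `2n + j = deg v < g`; so the sum is at most the sum over `n, j` with `2n + j < g`,
`a ∈ MON n`, `1 ≤ d`, `2 d ≤ g+1` (E4) of T0.  `∑_d q ^ (2d) ≤ 2 q ^ (g+1)`; `∑_{a ∈ MON n} 1 = q ^ n`;
`∑_{j < g - 2n} q ^ (2j/3) ≤ q ^ (2(g-2n)/3)` (as `5^(2/3) - 1 > 1`); total `≤ 10 q ^ (g+5) ∑_n q ^ (n + g/3 + 2(g-2n)/3) = 10 q ^ (2g+5) ∑_n q ^ (-n/3) ≤ 30 q ^ (2g+5)`. -/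
def S_T1 : Prop :=
  ∃ C : ℝ, 0 < C ∧ ∀ g : ℕ, ∑ l ∈ (Finset.univ : Finset (Fin g → F)).filter (fun l => l ≠ 0),
    ∑ v ∈ (POL F g).filter (fun v => v ≠ 0 ∧ ∃ k, NL g l v k), Real.sqrt (KK g l v : ℝ) ≤ C * qq F ^ (2 * g + 5)

/-- **T2** (uses B0, FR, E4, P0, P2, G, L2, T1) `∑_{v ≠ 0} ∑_{l ≠ 0} √KK ≤ C q ^ (2 g + 5)`.
Proof: for `l ≠ 0`, `v ≠ 0` let `k, z` be from G.  If `k = 0` then `KK = 1`; these pairs contribute at most `q ^ (2g)`.  If `k ≥ 1` then `w = v z ≠ 0` has degree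
`≤ (g-1) + (2g+1-k) = 3g-k`, and by P0, FR, P2 (for `(b₁, b₂) = bb g l`; `rr g l ≥ 1` by E4) `w = b₁⁵ α + b₂⁵ β`: so `NL g l v k` (if `β ≠ 0`) or `LO g l v k`.  Sum: T1 and L2, with
`∑_{l ≠ 0} q ^ (-9 rr/4) ≤ ∑_{d ≥ 1} q ^ (2d+1-9d/4) ≤ q / (5^(1/4) - 1) ≤ 3 q` (E4 (1)). -/
def S_T2 : Prop :=
  ∃ C : ℝ, 0 < C ∧ ∀ g : ℕ, ∑ v ∈ (POL F g).filter (fun v => v ≠ 0),
    ∑ l ∈ (Finset.univ : Finset (Fin g → F)).filter (fun l => l ≠ 0), Real.sqrt (KK g l v : ℝ) ≤ C * qq F ^ (2 * g + 5)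

/-- **E9** (uses B0, B1, E2, T2) there is `C` with `∑_{f monic of degree 2g+1} #sol f ≤ C q ^ (2g+1)` for all `g`: the average of the number of solutions is bounded.
Proof: as in E8 (file of helper294): the solution `v = 0` contributes `q ^ (2g+1)`; a solution `v ≠ 0` has `deg v < g` (B1 (4)), and by E2 the number of pairs `(f, v)`,
`v ≠ 0`, is at most `∑_v (q ^ (g+1) + q ^ (-g) ∑_{l ≠ 0} (q ^ (2g+1) KK)^(1/2)) ≤ q ^ (2g+1) + q ^ (1/2) ∑_v ∑_l √KK`; then T2. -/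
def S_E9 : Prop :=
  ∃ C : ℝ, 0 < C ∧ ∀ g : ℕ, ∑ f ∈ MON F (2 * g + 1), ((sol f).card : ℝ) ≤ C * qq F ^ (2 * g + 1)

end D5
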