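import Pool.Agent.H506.D5.A1
import Pool.Agent.H506.D5.A1b
import Pool.Agent.H506.D5.A2
import Pool.Agent.H506.D5.A3
import Pool.Agent.H506.D5.A4
import Pool.Agent.H506.D5.A5
import Pool.Agent.H506.D5.A6
import Pool.Agent.H506.D5.A7
import Pool.Agent.H506.D5.A8
import Pool.Agent.H506.D5.A9
import Pool.Agent.H506.D5.B0
import Pool.Agent.H506.D5.B1
import Pool.Agent.H506.D5.C2
import Pool.Agent.H506.D5.F5
import Pool.Agent.H506.D5.E1
import Pool.Agent.H506.D5.E2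
import Pool.Agent.H506.D5.E4
import Pool.Agent.H506.D5.H1
import Pool.Agent.H506.D5.H2
import Pool.Agent.H506.D5.H3
import Pool.Agent.H506.D5.Stm2

/-!
# The average of the 5-torsion: assembly
-/

open Polynomial
open scoped Classical

noncomputable section

namespace D5

/-- The class group part: `#Cl[5]` is the number of the solutions `v` of `(f² v)'''' = - v⁵`. -/
theorem cl5_eq (F : Type) [Field F] [Fintype F] [CharP F 5] : S_A9 F := by
  have hB0 := p_B0 F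
  have hB1 := p_B1 F hB0
  have hA1 := p_A1 F
  have hA1b := p_A1b F hA1
  have hA2 := p_A2 F
  have hA3 := p_A3 F
  have hA4 := p_A4 F hA1 hA2 hB1
  have hA5 := p_A5 F hA2
  have hA6 := p_A6 F hA1 hA1b hA5
  have hA7 := p_A7 F hA1 hA2 hA3 hA4 hA6
  have hA8 := p_A8 F hA1 hA1b hA2
  exact p_A9 F hA1 hA2 hA3 hA4 hA7 hA8 hB1

/-- The average of `#Cl[5]` over the monic squarefree polynomials of degree `2 g + 1` is bounded. -/
theorem avg (F : Type) [Field F] [Fintype F] [CharP F 5] (hE9 : S_E9 F) :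
    ∃ C : ℝ, 0 < C ∧ ∀ g : ℕ, 1 ≤ g →
      ∑ f ∈ SQF F (2 * g + 1), (cl5 f : ℝ) ≤ C * ((SQF F (2 * g + 1)).card : ℝ) := by
  have hB0 := p_B0 F
  have hA9 := cl5_eq F
  have hF5 := p_F5 F hB0 (p_MU F hB0)
  obtain ⟨C, hC, h⟩ := hE9
  refine ⟨2 * C, by linarith, fun g hg => ?_⟩
  have h1 : ∑ f ∈ SQF F (2 * g + 1), (cl5 f : ℝ) = ∑ f ∈ SQF F (2 * g + 1), ((sol f).card : ℝ) := by
    refine Finset.sum_congr rfl fun f hf => ?_
    rw [SQF, Finset.mem_filter, hB0.2.1] at hf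
    rw [hA9 f ⟨hf.1.1, hf.2, hf.1.2 ▸ ⟨g, rfl⟩⟩]
  have h2 : ∑ f ∈ SQF F (2 * g + 1), ((sol f).card : ℝ) ≤ ∑ f ∈ MON F (2 * g + 1), ((sol f).card : ℝ) := by
    refine Finset.sum_le_sum_of_subset_of_nonneg (Finset.filter_subset _ _) fun _ _ _ => ?_
    positivity
  have h3 := h g
  have h4 := hF5 g hg
  have hq : (2 : ℝ) ≤ qq F := by
    have := Fintype.one_lt_card (α := F)
    unfold qq
    exact_mod_cast this
  have h5 : qq F ^ (2 * g + 1) ≤ 2 * ((SQF F (2 * g + 1)).card : ℝ) := by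
    rw [h4, pow_succ]
    have h6 : (0 : ℝ) ≤ qq F ^ (2 * g) := by positivity
    nlinarith
  rw [h1]
  calc _ ≤ C * qq F ^ (2 * g + 1) := h2.trans h3
    _ ≤ C * (2 * ((SQF F (2 * g + 1)).card : ℝ)) := mul_le_mul_of_nonneg_left h5 hC.le
    _ = _ := by ring

end D5
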