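import Pool.Agent.H506.D5.Stm

/-!
# E6: the divisor bound (adapted from DH.DB of helper463's project)
-/

set_option linter.unusedSectionVars false

open Polynomial
open scoped Classical

noncomputable section

namespace D5

namespace XE6

variable {F : Type} [Field F] [Fintype F] [CharP F 5]

/-- the number of monic divisors -/
def tau (W : F[X]) : ℕ := ∑ k ∈ Finset.range (W.natDegree + 1), ((MON F k).filter (fun a => a ∣ W)).card

/-- the set of the monic divisors -/
def Dv (W : F[X]) : Finset F[X] :=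
  (Finset.range (W.natDegree + 1)).biUnion (fun k => (MON F k).filter (fun a => a ∣ W))

theorem mem_Dv (hM : ∀ n (f : F[X]), f ∈ MON F n ↔ f.Monic ∧ f.natDegree = n) {W a : F[X]}
    (hW : W ≠ 0) : a ∈ Dv W ↔ a.Monic ∧ a ∣ W := by
  unfold Dv
  rw [Finset.mem_biUnion]
  constructor
  · rintro ⟨k, _, ha⟩
    obtain ⟨h1, h2⟩ := Finset.mem_filter.mp ha
    exact ⟨((hM k a).1 h1).1, h2⟩
  · rintro ⟨h1, h2⟩
    refine ⟨a.natDegree, Finset.mem_range.mpr (Nat.lt_succ_of_le (natDegree_le_of_dvd h2 hW)), ?_⟩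
    exact Finset.mem_filter.mpr ⟨(hM _ a).2 ⟨h1, rfl⟩, h2⟩

theorem tau_eq (hM : ∀ n (f : F[X]), f ∈ MON F n ↔ f.Monic ∧ f.natDegree = n) (W : F[X]) :
    tau W = (Dv W).card := by
  unfold tau Dv
  rw [Finset.card_biUnion]
  intro i _ j _ hij
  change Disjoint ((MON F i).filter (fun a => a ∣ W)) ((MON F j).filter (fun a => a ∣ W))
  rw [Finset.disjoint_left]
  intro a ha ha'
  exact hij (((hM i a).1 (Finset.mem_filter.mp ha).1).2.symm.trans
    ((hM j a).1 (Finset.mem_filter.mp ha').1).2)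

/-- the divisors of `P ^ k * W` -/
theorem div_pow {P W : F[X]} (hP : Irreducible P) (hPm : P.Monic) (k : ℕ) :
    ∀ a : F[X], a.Monic → a ∣ P ^ k * W → ∃ i < k + 1, ∃ a' : F[X], a'.Monic ∧ a' ∣ W ∧
      P ^ i * a' = a := by
  induction k with
  | zero =>
    intro a ha hd
    rw [pow_zero, one_mul] at hd
    exact ⟨0, Nat.zero_lt_one, a, ha, hd, by rw [pow_zero, one_mul]⟩
  | succ k ih =>
    intro a ha hd
    by_cases hPa : P ∣ a
    · obtain ⟨b, rfl⟩ := hPa
      have hb : b.Monic := hPm.of_mul_monic_left ha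
      rw [pow_succ', mul_assoc] at hd
      obtain ⟨i, hi, a', ha', had, hia⟩ := ih b hb ((mul_dvd_mul_iff_left hPm.ne_zero).1 hd)
      exact ⟨i + 1, by omega, a', ha', had, by rw [pow_succ', mul_assoc, hia]⟩
    · have h1 : IsCoprime a P := ((Irreducible.coprime_iff_not_dvd hP).2 hPa).symm
      rw [pow_succ', mul_assoc] at hd
      obtain ⟨i, hi, a', ha', had, hia⟩ := ih a ha (h1.dvd_of_dvd_mul_left hd)
      exact ⟨i, by omega, a', ha', had, hia⟩

theorem tau_pow_le (hM : ∀ n (f : F[X]), f ∈ MON F n ↔ f.Monic ∧ f.natDegree = n)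
    {P W : F[X]} (hP : Irreducible P) (hPm : P.Monic) (hW : W ≠ 0) (k : ℕ) :
    tau (P ^ k * W) ≤ (k + 1) * tau W := by
  rw [tau_eq hM, tau_eq hM]
  have hPW : P ^ k * W ≠ 0 := mul_ne_zero (pow_ne_zero _ hPm.ne_zero) hW
  have hsub : Dv (P ^ k * W) ⊆ ((Finset.range (k + 1)) ×ˢ (Dv W)).image (fun z => P ^ z.1 * z.2) := by
    intro a ha
    obtain ⟨h1, h2⟩ := (mem_Dv hM hPW).1 ha
    obtain ⟨i, hi, a', ha', had, hia⟩ := div_pow hP hPm k a h1 h2
    rw [Finset.mem_image]
    exact ⟨(i, a'), Finset.mem_product.mpr ⟨Finset.mem_range.mpr hi, (mem_Dv hM hW).2 ⟨ha', had⟩⟩,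
      hia⟩
  refine (Finset.card_le_card hsub).trans (Finset.card_image_le.trans ?_)
  rw [Finset.card_product, Finset.card_range]

theorem tau_unit (hM : ∀ n (f : F[X]), f ∈ MON F n ↔ f.Monic ∧ f.natDegree = n) {W : F[X]}
    (hW : IsUnit W) : tau W ≤ 1 := by
  rw [tau_eq hM, Finset.card_le_one]
  intro a ha b hb
  have h1 := (mem_Dv hM hW.ne_zero).1 ha
  have h2 := (mem_Dv hM hW.ne_zero).1 hb
  have h3 : a = 1 := h1.1.eq_one_of_isUnit (isUnit_of_dvd_unit h1.2 hW)
  have h4 : b = 1 := h2.1.eq_one_of_isUnit (isUnit_of_dvd_unit h2.2 hW)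
  rw [h3, h4]

/-- the main induction -/
theorem main (hM : ∀ n (f : F[X]), f ∈ MON F n ↔ f.Monic ∧ f.natDegree = n) {t C₁ : ℝ}
    (ht : 1 < t) (hC₁ : 1 ≤ C₁) (hk : ∀ k : ℕ, (k : ℝ) + 1 ≤ C₁ * t ^ k) {D₀ : ℕ}
    (hD₀ : 2 < t ^ D₀) (n : ℕ) : ∀ (𝒮 : Finset F[X]) (W : F[X]), W ≠ 0 → W.natDegree = n →
      (∀ P : F[X], P.Monic → Irreducible P → P ∣ W → P.natDegree < D₀ → P ∈ 𝒮) →
      (tau W : ℝ) ≤ C₁ ^ 𝒮.card * t ^ W.natDegree := by
  induction n using Nat.strong_induction_on with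
  | _ n ih =>
    intro 𝒮 W hW hn hS
    have ht0 : 0 < t := by linarith
    by_cases hu : IsUnit W
    · have h1 : (tau W : ℝ) ≤ 1 := by exact_mod_cast tau_unit hM hu
      refine h1.trans ?_
      have h2 : 1 ≤ C₁ ^ 𝒮.card := one_le_pow₀ hC₁
      have h3 : 1 ≤ t ^ W.natDegree := one_le_pow₀ ht.le
      nlinarith
    · obtain ⟨P, hPm, hPi, hPW⟩ := exists_monic_irreducible_factor W hu
      have hfin : FiniteMultiplicity P W :=
        FiniteMultiplicity.of_not_isUnit hPi.not_isUnit hW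
      obtain ⟨W', hW', hPW'⟩ := hfin.exists_eq_pow_mul_and_not_dvd
      obtain ⟨k, hkk⟩ : ∃ k, k = multiplicity P W := ⟨_, rfl⟩
      rw [← hkk] at hW'
      have hk0 : k ≠ 0 := by
        rintro rfl
        rw [pow_zero, one_mul] at hW'
        rw [hW'] at hPW
        exact hPW' hPW
      have hW'0 : W' ≠ 0 := by
        rintro rfl
        exact hPW' (dvd_zero _)
      have hPd : 0 < P.natDegree := hPi.natDegree_pos
      have hdeg : W.natDegree = k * P.natDegree + W'.natDegree := by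
        rw [hW', natDegree_mul (pow_ne_zero _ hPm.ne_zero) hW'0, natDegree_pow]
      have hlt : W'.natDegree < n := by
        have : 0 < k * P.natDegree := Nat.mul_pos (Nat.pos_of_ne_zero hk0) hPd
        omega
      have htau : (tau W : ℝ) ≤ ((k : ℝ) + 1) * tau W' := by
        have h1 := tau_pow_le hM hPi hPm hW'0 k
        rw [← hW'] at h1
        exact_mod_cast h1
      have htk : (t ^ P.natDegree) ^ k * t ^ W'.natDegree = t ^ W.natDegree := by
        rw [hdeg, pow_add, ← pow_mul, mul_comm P.natDegree k]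
      have htau0 : (0 : ℝ) ≤ tau W' := Nat.cast_nonneg _
      by_cases hsm : P.natDegree < D₀
      · have hPS : P ∈ 𝒮 := hS P hPm hPi hPW hsm
        have h1 := ih _ hlt (𝒮.erase P) W' hW'0 rfl (by
          intro Q hQm hQi hQW hQd
          refine Finset.mem_erase.mpr ⟨?_, hS Q hQm hQi ?_ hQd⟩
          · rintro rfl
            exact hPW' hQW
          · rw [hW']
            exact hQW.mul_left _)
        have hcard : 𝒮.card = (𝒮.erase P).card + 1 := (Finset.card_erase_add_one hPS).symm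
        have h2 : (k : ℝ) + 1 ≤ C₁ * (t ^ P.natDegree) ^ k := by
          refine (hk k).trans (mul_le_mul_of_nonneg_left ?_ (by linarith))
          exact pow_le_pow_left₀ ht0.le (le_self_pow₀ ht.le hPd.ne') k
        calc (tau W : ℝ) ≤ ((k : ℝ) + 1) * tau W' := htau
          _ ≤ (C₁ * (t ^ P.natDegree) ^ k) * (C₁ ^ (𝒮.erase P).card * t ^ W'.natDegree) :=
              mul_le_mul h2 h1 htau0 (by positivity)
          _ = C₁ ^ 𝒮.card * ((t ^ P.natDegree) ^ k * t ^ W'.natDegree) := by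
              rw [hcard, pow_succ]
              ring
          _ = C₁ ^ 𝒮.card * t ^ W.natDegree := by rw [htk]
      · have h1 := ih _ hlt 𝒮 W' hW'0 rfl (by
          intro Q hQm hQi hQW hQd
          refine hS Q hQm hQi ?_ hQd
          rw [hW']
          exact hQW.mul_left _)
        have h2 : (k : ℝ) + 1 ≤ (t ^ P.natDegree) ^ k := by
          have h3 : (2 : ℝ) ≤ t ^ P.natDegree :=
            hD₀.le.trans (pow_le_pow_right₀ ht.le (not_lt.mp hsm))
          have h4 : (k : ℝ) + 1 ≤ 2 ^ k := by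
            have h5 : k + 1 ≤ 2 ^ k := Nat.lt_two_pow_self
            exact_mod_cast h5
          exact h4.trans (pow_le_pow_left₀ (by norm_num) h3 k)
        calc (tau W : ℝ) ≤ ((k : ℝ) + 1) * tau W' := htau
          _ ≤ (t ^ P.natDegree) ^ k * (C₁ ^ 𝒮.card * t ^ W'.natDegree) :=
              mul_le_mul h2 h1 htau0 (by positivity)
          _ = C₁ ^ 𝒮.card * ((t ^ P.natDegree) ^ k * t ^ W'.natDegree) := by ring
          _ = C₁ ^ 𝒮.card * t ^ W.natDegree := by rw [htk]

end XE6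

theorem XE6.db (F : Type) [Field F] [Fintype F] [CharP F 5] (hB0 : S_B0 F) :
    ∀ δ : ℝ, 0 < δ → ∃ Cst : ℝ, 0 < Cst ∧ ∀ W : F[X], W ≠ 0 →
      (XE6.tau W : ℝ) ≤ Cst * qq F ^ (δ * (W.natDegree : ℝ)) := by
  intro δ hδ
  have hM : ∀ n (f : F[X]), f ∈ MON F n ↔ f.Monic ∧ f.natDegree = n := hB0.2.1
  have hq : 1 < qq F := by
    unfold qq
    exact_mod_cast Fintype.one_lt_card
  have hq0 : 0 < qq F := by linarith
  have ht : 1 < qq F ^ δ := Real.one_lt_rpow hq hδ
  obtain ⟨t, htt⟩ : ∃ t, t = qq F ^ δ := ⟨_, rfl⟩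
  rw [← htt] at ht
  obtain ⟨D₀, hD₀⟩ := pow_unbounded_of_one_lt (2 : ℝ) ht
  have hε : 0 < t - 1 := by linarith
  have hC : 1 ≤ 1 + 1 / (t - 1) := by
    have : 0 < 1 / (t - 1) := by positivity
    linarith
  have hk : ∀ k : ℕ, (k : ℝ) + 1 ≤ (1 + 1 / (t - 1)) * t ^ k := by
    intro k
    have h1 : 1 + (k : ℝ) * (t - 1) ≤ t ^ k := by
      have h2 := one_add_mul_le_pow (a := t - 1) (by linarith) k
      rw [add_sub_cancel] at h2
      exact h2
    have h3 : (1 + 1 / (t - 1)) * (1 + (k : ℝ) * (t - 1)) = 1 + k + (k * (t - 1) + 1 / (t - 1)) := by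
      field_simp
      ring
    have h4 : 0 ≤ (k : ℝ) * (t - 1) + 1 / (t - 1) := by positivity
    have h5 := mul_le_mul_of_nonneg_left h1 (by linarith : 0 ≤ 1 + 1 / (t - 1))
    linarith
  refine ⟨(1 + 1 / (t - 1)) ^ ((Finset.range D₀).biUnion (fun k => MON F k)).card, by positivity, ?_⟩
  intro W hW
  have h1 := XE6.main hM ht hC hk hD₀ W.natDegree ((Finset.range D₀).biUnion (fun k => MON F k)) W hW rfl
    (by
      intro P hPm _ _ hPd
      exact Finset.mem_biUnion.mpr ⟨P.natDegree, Finset.mem_range.mpr hPd, (hM _ P).2 ⟨hPm, rfl⟩⟩)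
  have h2 : qq F ^ (δ * (W.natDegree : ℝ)) = t ^ W.natDegree := by
    rw [Real.rpow_mul hq0.le, Real.rpow_natCast, htt]
  rw [h2]
  exact h1


open XE6 in
theorem p_E6 (F : Type) [Field F] [Fintype F] [CharP F 5] (hB0 : S_B0 F) : S_E6 F := by
  intro ε hε
  have hM : ∀ n (f : F[X]), f ∈ MON F n ↔ f.Monic ∧ f.natDegree = n := hB0.2.1
  have hP := hB0.1
  have hq : 1 < qq F := by
    unfold qq
    exact_mod_cast Fintype.one_lt_card
  have hq0 : 0 < qq F := by linarith
  obtain ⟨C₀, hC₀, hdb⟩ := XE6.db F hB0 (ε / 3) (by positivity)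
  refine ⟨qq F * C₀, by positivity, fun g w hw hwd => ?_⟩
  have h1 : fac g w ≤ Fintype.card F * tau w := by
    rw [tau_eq hM, ← Finset.card_univ, ← Finset.card_product]
    unfold fac
    refine Finset.card_le_card_of_injOn
      (fun p => (p.1.leadingCoeff, C p.1.leadingCoeff⁻¹ * p.1)) ?_ ?_
    · rintro ⟨v, z⟩ hvz
      have hvz' := (Finset.mem_filter.1 (Finset.mem_coe.1 hvz)).2
      have hvz2 : v * z = w := hvz'
      have hv : v ≠ 0 := by
        rintro rfl
        rw [zero_mul] at hvz2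
        exact hw hvz2.symm
      rw [Finset.mem_coe, Finset.mem_product]
      refine ⟨Finset.mem_univ _, (mem_Dv hM hw).2 ⟨?_, ?_⟩⟩
      · show (C v.leadingCoeff⁻¹ * v).Monic
        rw [mul_comm]
        exact monic_mul_leadingCoeff_inv hv
      · show C v.leadingCoeff⁻¹ * v ∣ w
        have hl : v.leadingCoeff ≠ 0 := leadingCoeff_ne_zero.2 hv
        refine ⟨C v.leadingCoeff * z, ?_⟩
        have h2 : C v.leadingCoeff⁻¹ * C v.leadingCoeff = (1 : F[X]) := by
          rw [← C_mul, inv_mul_cancel₀ hl, C_1]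
        rw [← hvz2]
        calc v * z = (C v.leadingCoeff⁻¹ * C v.leadingCoeff) * (v * z) := by rw [h2, one_mul]
          _ = _ := by ring
    · rintro ⟨v, z⟩ hvz ⟨v', z'⟩ hvz' heq
      have h2 : v * z = w := (Finset.mem_filter.1 (Finset.mem_coe.1 hvz)).2
      have h2' : v' * z' = w := (Finset.mem_filter.1 (Finset.mem_coe.1 hvz')).2
      have hv : v ≠ 0 := by
        rintro rfl
        rw [zero_mul] at h2
        exact hw h2.symm
      have hl : v.leadingCoeff ≠ 0 := leadingCoeff_ne_zero.2 hv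
      have h3 : (v.leadingCoeff, C v.leadingCoeff⁻¹ * v) =
          (v'.leadingCoeff, C v'.leadingCoeff⁻¹ * v') := heq
      have h4 : v.leadingCoeff = v'.leadingCoeff := congrArg Prod.fst h3
      have h5 : C v.leadingCoeff⁻¹ * v = C v'.leadingCoeff⁻¹ * v' := congrArg Prod.snd h3
      rw [← h4] at h5
      have h6 : v = v' := mul_left_cancel₀ (C_ne_zero.2 (inv_ne_zero hl)) h5
      subst h6
      have h7 : z = z' := mul_left_cancel₀ hv (h2.trans h2'.symm)
      rw [h7]
  have h2 : (fac g w : ℝ) ≤ qq F * (tau w : ℝ) := by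
    unfold qq
    exact_mod_cast h1
  refine h2.trans ?_
  rw [mul_assoc]
  refine mul_le_mul_of_nonneg_left ?_ hq0.le
  refine (hdb w hw).trans (mul_le_mul_of_nonneg_left ?_ hC₀.le)
  apply Real.rpow_le_rpow_of_exponent_le hq.le
  have h3 : w.natDegree < 3 * g := by
    have h4 := (hP (3 * g) w).1 hwd
    rwa [← natDegree_lt_iff_degree_lt hw] at h4
  have h5 : (w.natDegree : ℝ) ≤ 3 * g := by exact_mod_cast h3.le
  have h6 : ε / 3 * (w.natDegree : ℝ) ≤ ε / 3 * (3 * g) :=
    mul_le_mul_of_nonneg_left h5 (by positivity)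
  linarith

end D5
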