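import Pool.Agent.H506.D5.Stm2
import Pool.Agent.H506.D5.E6

open Polynomial
open scoped Classical

noncomputable section

namespace D5

/-- The divisor bound (helper114's lemma `XE6.db`). -/
theorem p_DB (F : Type) [Field F] [Fintype F] [CharP F 5] (hB0 : S_B0 F) : S_DB F := by
  intro ε hε
  obtain ⟨C, hC, h⟩ := XE6.db F hB0 ε hε
  exact ⟨C, hC, fun P hP => h P hP⟩

end D5
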