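import Pool.Agent.H506.D5.Stm2

/-!
# Project D5 (helper506), E9 (helper778, after the file E8 of helper294): the first moment is bounded
-/

open Polynomial
open scoped Classical

noncomputable section

namespace D5

namespace XE9

variable {F : Type} [Field F] [Fintype F]

theorem comm_count {α β : Type} (s : Finset α) (t : Finset β) (r : α → β → Prop) :
    ∑ a ∈ s, ((t.filter (fun b => r a b)).card : ℝ) =
      ∑ b ∈ t, ((s.filter (fun a => r a b)).card : ℝ) := by
  simp only [Finset.card_filter, Nat.cast_sum]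
  exact Finset.sum_comm

theorem one_lt_qq : 1 < qq F := by
  unfold qq
  exact_mod_cast Fintype.one_lt_card

theorem card_sol_le (hB0 : ∀ n (g : F[X]), g ∈ POL F n ↔ g.degree < n)
    (hB4 : ∀ f v : F[X], v ≠ 0 → IsSol f v → 2 * v.natDegree + 2 ≤ f.natDegree) {g : ℕ} {f : F[X]}
    (hf : f.natDegree = 2 * g + 1) :
    (sol f).card ≤ 1 + (((POL F g).filter (fun v => v ≠ 0)).filter (fun v => IsSol f v)).card := by
  have h1 : sol f ⊆ {0} ∪ ((POL F g).filter (fun v => v ≠ 0)).filter (fun v => IsSol f v) := by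
    intro v hv
    rw [sol, Finset.mem_filter] at hv
    rw [Finset.mem_union, Finset.mem_singleton]
    by_cases h0 : v = 0
    · exact Or.inl h0
    · right
      have h2 := hB4 f v h0 hv.2
      have h3 : v.natDegree < g := by omega
      refine Finset.mem_filter.2 ⟨Finset.mem_filter.2 ⟨(hB0 g v).2 ?_, h0⟩, hv.2⟩
      exact (Polynomial.natDegree_lt_iff_degree_lt h0).1 h3
  refine (Finset.card_le_card h1).trans ((Finset.card_union_le _ _).trans ?_)
  rw [Finset.card_singleton]

end XE9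

open XE9 in
theorem p_E9 (F : Type) [Field F] [Fintype F] [CharP F 5] (hB0 : S_B0 F) (hB1 : S_B1 F)
    (hE2 : S_E2 F) (hT2 : S_T2 F) : S_E9 F := by
  obtain ⟨hP, hM, -, hcP, hcM, -⟩ := hB0
  obtain ⟨-, -, -, hB4, -⟩ := hB1
  obtain ⟨C₂, hC₂, hT⟩ := hT2
  have hq1 : 1 < qq F := one_lt_qq
  have hq0 : 0 < qq F := by linarith
  have hcard : ((Fintype.card F : ℕ) : ℝ) = qq F := rfl
  refine ⟨2 + C₂ * qq F ^ 5, by positivity, fun g => ?_⟩
  have hMc : ((MON F (2 * g + 1)).card : ℝ) = qq F ^ (2 * g + 1) := by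
    rw [hcM]
    push_cast
    rfl
  have hdeg : ∀ f ∈ MON F (2 * g + 1), f.natDegree = 2 * g + 1 := fun f hf => ((hM _ f).1 hf).2
  have h7 := hT g
  -- the double count
  have h8 : ∑ f ∈ MON F (2 * g + 1), ((sol f).card : ℝ) ≤ qq F ^ (2 * g + 1) +
      ∑ v ∈ (POL F g).filter (fun v => v ≠ 0),
        (((MON F (2 * g + 1)).filter (fun f => IsSol f v)).card : ℝ) := by
    have h9 : ∑ f ∈ MON F (2 * g + 1), ((sol f).card : ℝ) ≤ ∑ f ∈ MON F (2 * g + 1),
        ((1 : ℝ) + ((((POL F g).filter (fun v => v ≠ 0)).filter (fun v => IsSol f v)).card : ℝ)) := by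
      refine Finset.sum_le_sum fun f hf => ?_
      have := card_sol_le hP hB4 (hdeg f hf)
      exact_mod_cast this
    have hcc := comm_count (MON F (2 * g + 1)) ((POL F g).filter (fun v => v ≠ 0))
      (fun f v => IsSol f v)
    rw [Finset.sum_add_distrib, Finset.sum_const, nsmul_eq_mul, mul_one, hMc, hcc] at h9
    exact h9
  -- the bound of E2
  have hPc : (((POL F g).filter (fun v => v ≠ 0)).card : ℝ) ≤ qq F ^ g := by
    have h2 := Finset.card_filter_le (POL F g) (fun v => v ≠ 0)
    rw [hcP] at h2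
    rw [← hcard]
    exact_mod_cast h2
  have hsq : Real.sqrt (qq F ^ (2 * g + 1)) ≤ qq F ^ (g + 1) := by
    rw [Real.sqrt_le_left (by positivity), ← pow_mul]
    exact pow_le_pow_right₀ hq1.le (by omega)
  have h10 : qq F ^ g * ∑ v ∈ (POL F g).filter (fun v => v ≠ 0),
        (((MON F (2 * g + 1)).filter (fun f => IsSol f v)).card : ℝ) ≤
      qq F ^ g * (qq F ^ (2 * g + 1) * (1 + C₂ * qq F ^ 5)) := by
    rw [Finset.mul_sum]
    have h11 : ∑ v ∈ (POL F g).filter (fun v => v ≠ 0), qq F ^ g *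
        (((MON F (2 * g + 1)).filter (fun f => IsSol f v)).card : ℝ) ≤
        ∑ v ∈ (POL F g).filter (fun v => v ≠ 0), (qq F ^ (2 * g + 1) + qq F ^ (g + 1) *
          ∑ l ∈ (Finset.univ : Finset (Fin g → F)).filter (fun l => l ≠ 0),
            Real.sqrt (KK g l v : ℝ)) := by
      refine Finset.sum_le_sum fun v hv => ?_
      refine (hE2 g v (Finset.mem_filter.1 hv).1).trans ?_
      refine add_le_add le_rfl ?_
      rw [Finset.mul_sum]
      refine Finset.sum_le_sum fun l _ => ?_
      rw [Real.sqrt_mul (by positivity)]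
      exact mul_le_mul_of_nonneg_right hsq (Real.sqrt_nonneg _)
    refine h11.trans ?_
    rw [Finset.sum_add_distrib, Finset.sum_const, nsmul_eq_mul, ← Finset.mul_sum]
    have h12 : (((POL F g).filter (fun v => v ≠ 0)).card : ℝ) * qq F ^ (2 * g + 1) ≤
        qq F ^ g * qq F ^ (2 * g + 1) := mul_le_mul_of_nonneg_right hPc (by positivity)
    have h13 : qq F ^ (g + 1) * ∑ v ∈ (POL F g).filter (fun v => v ≠ 0),
        ∑ l ∈ (Finset.univ : Finset (Fin g → F)).filter (fun l => l ≠ 0),
          Real.sqrt (KK g l v : ℝ) ≤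
        qq F ^ (g + 1) * (C₂ * qq F ^ (2 * g + 5)) :=
      mul_le_mul_of_nonneg_left h7 (by positivity)
    refine (add_le_add h12 h13).trans (le_of_eq ?_)
    ring
  have h14 := le_of_mul_le_mul_left h10 (by positivity)
  refine h8.trans ?_
  refine (add_le_add le_rfl h14).trans (le_of_eq ?_)
  ring

end D5
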