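import Pool.Agent.H506.D5.Stm2

/-!
# Project D5, second part: FR (helper735)
-/

set_option autoImplicit false

open Polynomial
open scoped Classical

noncomputable section

namespace D5

namespace XFR

variable {F : Type} [Field F]

theorem coeff_fr (b : F[X]) (i : ℕ) : (fr b).coeff i = (b.coeff i) ^ 5 := by
  unfold fr
  rw [finsetSum_coeff]
  simp only [coeff_monomial]
  rw [Finset.sum_ite_eq' (Finset.range (b.natDegree + 1)) i (fun j => b.coeff j ^ 5)]
  split_ifs with h
  · rfl
  · rw [Finset.mem_range, not_lt] at h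
    rw [coeff_eq_zero_of_natDegree_lt (by omega)]
    norm_num

theorem fr_eq [ExpChar F 5] (b : F[X]) : fr b = b.map (frobenius F 5) := by
  ext i
  rw [coeff_fr, coeff_map, frobenius_def]

end XFR

open XFR in
theorem p_FR (F : Type) [Field F] [Fintype F] [CharP F 5] : S_FR F := by
  have h5 : Fact (Nat.Prime 5) := ⟨by norm_num⟩
  have hE : ExpChar F 5 := expChar_prime F 5
  have hinj : Function.Injective (frobenius F 5) := (frobenius F 5).injective
  have hsurj : Function.Surjective (frobenius F 5) := Finite.injective_iff_surjective.1 hinj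
  have hadd : ∀ b c : F[X], fr (b + c) = fr b + fr c := fun b c => by
    rw [fr_eq, fr_eq, fr_eq, Polynomial.map_add]
  have hmul : ∀ b c : F[X], fr (b * c) = fr b * fr c := fun b c => by
    rw [fr_eq, fr_eq, fr_eq, Polynomial.map_mul]
  have hone : fr (1 : F[X]) = 1 := by rw [fr_eq, Polynomial.map_one]
  have hex : ∀ B : F[X], ∃ b : F[X], fr b = B := fun B => by
    obtain ⟨b, hb⟩ := Polynomial.map_surjective (frobenius F 5) hsurj B
    exact ⟨b, by rw [fr_eq, hb]⟩
  have hfi : ∀ b c : F[X], fr b = fr c → b = c := fun b c h => by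
    rw [fr_eq, fr_eq] at h
    exact Polynomial.map_injective (frobenius F 5) hinj h
  have hdeg : ∀ b : F[X], (fr b).natDegree = b.natDegree := fun b => by
    rw [fr_eq]
    exact natDegree_map_eq_of_injective hinj b
  refine ⟨coeff_fr, hadd, hmul, fun b => ?_, hex, hfi, hdeg, fun d₁ d₂ b c => ?_⟩
  · rw [fr_eq, ← map_expand, map_frobenius_expand]
  · unfold Cop
    rw [hdeg, hdeg]
    refine and_congr_left fun _ => ⟨fun h => ?_, fun h => ?_⟩
    · obtain ⟨u, v, huv⟩ := h
      obtain ⟨u', rfl⟩ := hex u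
      obtain ⟨v', rfl⟩ := hex v
      refine ⟨u', v', hfi _ _ ?_⟩
      rw [hadd, hmul, hmul, huv, hone]
    · obtain ⟨u, v, huv⟩ := h
      exact ⟨fr u, fr v, by rw [← hmul, ← hmul, ← hadd, huv, hone]⟩

end D5
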