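import Pool.Agent.H506.D5.Stm2

/-!
# G : the structure of the radical
-/

open Polynomial
open scoped Classical

noncomputable section

namespace D5

namespace XG

variable {F : Type} [Field F]

theorem mu_add (g : ℕ) (l : Fin g → F) (P Q : F[X]) : mu g l (P + Q) = mu g l P + mu g l Q := by
  unfold mu
  rw [← Finset.sum_add_distrib]
  refine Finset.sum_congr rfl (fun j _ => ?_)
  rw [coeff_add, mul_add]

theorem mu_smul (g : ℕ) (l : Fin g → F) (c : F) (P : F[X]) : mu g l (c • P) = c * mu g l P := by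
  unfold mu
  rw [Finset.mul_sum]
  refine Finset.sum_congr rfl (fun j _ => ?_)
  rw [coeff_smul, smul_eq_mul]
  ring

/-- `Lam` as a linear map. -/
def LamL (g : ℕ) (l : Fin g → F) : F[X] →ₗ[F] F where
  toFun := Lam g l
  map_add' P Q := by
    unfold Lam
    rw [← Finset.sum_add_distrib]
    refine Finset.sum_congr rfl (fun j _ => ?_)
    rw [coeff_add, mul_add]
  map_smul' c P := by
    unfold Lam
    rw [RingHom.id_apply, smul_eq_mul, Finset.mul_sum]
    refine Finset.sum_congr rfl (fun j _ => ?_)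
    rw [coeff_smul, smul_eq_mul]
    ring

theorem LamL_apply (g : ℕ) (l : Fin g → F) (P : F[X]) : LamL g l P = Lam g l P := rfl

/-- the form `l'` on `g'` coefficients given by `P ↦ Lam l (v P)` -/
def lpf (g : ℕ) (l : Fin g → F) (v : F[X]) (g' : ℕ) : Fin g' → F := fun m => Lam g l (v * X ^ (m : ℕ))

theorem mu_lpf (g : ℕ) (l : Fin g → F) (v : F[X]) (g' : ℕ) (P : F[X]) (hP : P.degree < g') :
    mu g' (lpf g l v g') P = Lam g l (v * P) := by
  have h1 : P = ∑ i : Fin g', C (P.coeff (i : ℕ)) * X ^ (i : ℕ) := by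
    rw [Fin.sum_univ_eq_sum_range (fun i => C (P.coeff i) * X ^ i) g']
    by_cases h0 : P = 0
    · simp [h0]
    · exact P.as_sum_range_C_mul_X_pow' ((natDegree_lt_iff_degree_lt h0).2 hP)
  have h2 : v * P = ∑ i : Fin g', P.coeff (i : ℕ) • (v * X ^ (i : ℕ)) := by
    conv_lhs => rw [h1]
    rw [Finset.mul_sum]
    refine Finset.sum_congr rfl (fun j _ => ?_)
    rw [smul_eq_C_mul]
    ring
  rw [← LamL_apply, h2, map_sum]
  unfold mu lpf
  refine Finset.sum_congr rfl (fun j _ => ?_)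
  rw [map_smul, smul_eq_mul, LamL_apply, mul_comm]

variable [Fintype F]

/-- the kernel `HK` as a subspace -/
def HKs (g : ℕ) (l : Fin g → F) (J K : ℕ) : Submodule F F[X] where
  carrier := {P | P.degree < J ∧ ∀ i, i < K → mu g l (X ^ i * P) = 0}
  add_mem' := by
    rintro a b ⟨ha, ha'⟩ ⟨hb, hb'⟩
    refine ⟨(degree_add_le a b).trans_lt (max_lt ha hb), fun i hi => ?_⟩
    rw [mul_add, mu_add, ha' i hi, hb' i hi, add_zero]
  zero_mem' := by
    refine ⟨?_, fun i _ => ?_⟩
    · rw [degree_zero]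
      exact WithBot.bot_lt_coe J
    · rw [mul_zero]
      unfold mu
      simp
  smul_mem' := by
    rintro c a ⟨ha, ha'⟩
    refine ⟨(degree_smul_le c a).trans_lt ha, fun i hi => ?_⟩
    rw [mul_smul_comm, mu_smul, ha' i hi, mul_zero]

theorem card_HK (h0 : ∀ n (g : F[X]), g ∈ POL F n ↔ g.degree < n) (g : ℕ) (l : Fin g → F) (J K : ℕ) :
    ∃ k : ℕ, (HK g l J K).card = Fintype.card F ^ k := by
  have h1 : ((HK g l J K : Finset F[X]) : Set F[X]) = (HKs g l J K : Set F[X]) := by
    ext P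
    rw [Finset.mem_coe, HK, Finset.mem_filter, h0]
    rfl
  have h2 : Finite (HKs g l J K) := by
    have h3 : ((HKs g l J K : Set F[X])).Finite := by
      rw [← h1]
      exact Finset.finite_toSet _
    exact h3
  refine ⟨Module.finrank F (HKs g l J K), ?_⟩
  have h4 := Module.natCard_eq_pow_finrank (K := F) (V := HKs g l J K)
  rw [Nat.card_eq_fintype_card (α := F)] at h4
  rw [← h4]
  have h5 : (HK g l J K).card = Nat.card (HK g l J K) := by
    simp
  rw [h5]
  refine Nat.card_congr (Equiv.setCongr ?_)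
  exact h1

end XG

open XG in
theorem p_G (F : Type) [Field F] [Fintype F] [CharP F 5] (hB0 : S_B0 F) (hE4 : S_E4 F)
    (hH3 : S_H3 F) : S_G F := by
  have h0 := hB0.1
  have hq : 1 < Fintype.card F := Fintype.one_lt_card
  intro g l v _ _
  -- the radical is a Hankel kernel
  have hZ : (POL F (2 * g + 1)).filter (fun z => ∀ y ∈ POL F (2 * g + 1), Lam g l (v * z * y) = 0) =
      HK (4 * g + 1) (lpf g l v (4 * g + 1)) (2 * g + 1) (2 * g + 1) := by
    ext z
    simp only [HK, Finset.mem_filter]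
    refine and_congr_right fun hz => ?_
    rw [h0] at hz
    have hdeg : ∀ y : F[X], y.degree < ((2 * g + 1 : ℕ) : WithBot ℕ) →
        (y * z).degree < ((4 * g + 1 : ℕ) : WithBot ℕ) := by
      intro y hy
      by_cases hz0 : z = 0
      · rw [hz0, mul_zero, degree_zero]
        exact WithBot.bot_lt_coe _
      by_cases hy0 : y = 0
      · rw [hy0, zero_mul, degree_zero]
        exact WithBot.bot_lt_coe _
      rw [← natDegree_lt_iff_degree_lt hz0] at hz
      rw [← natDegree_lt_iff_degree_lt hy0] at hy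
      rw [← natDegree_lt_iff_degree_lt (mul_ne_zero hy0 hz0), natDegree_mul hy0 hz0]
      omega
    constructor
    · intro h i hi
      have hi' : (X ^ i : F[X]).degree < ((2 * g + 1 : ℕ) : WithBot ℕ) := by
        rw [degree_X_pow]
        exact_mod_cast hi
      rw [mu_lpf _ _ _ _ _ (hdeg _ hi'), mul_comm (X ^ i) z, ← mul_assoc]
      exact h _ ((h0 _ _).2 hi')
    · intro h y hy
      rw [h0] at hy
      have h1 : ∀ i : Fin (2 * g + 1), Lam g l (v * z * X ^ (i : ℕ)) = 0 := by
        intro i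
        have hi' : (X ^ (i : ℕ) : F[X]).degree < ((2 * g + 1 : ℕ) : WithBot ℕ) := by
          rw [degree_X_pow]
          exact_mod_cast i.2
        have h2 := h i i.2
        rw [mu_lpf _ _ _ _ _ (hdeg _ hi'), mul_comm (X ^ (i : ℕ)) z, ← mul_assoc] at h2
        exact h2
      rw [← mu_lpf g l (v * z) (2 * g + 1) y hy]
      unfold mu lpf
      refine Finset.sum_eq_zero fun j _ => ?_
      rw [h1 j, zero_mul]
  obtain ⟨k, hk⟩ := card_HK h0 (4 * g + 1) (lpf g l v (4 * g + 1)) (2 * g + 1) (2 * g + 1)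
  obtain ⟨B, hB, hBd, hBi⟩ := hE4.2.1 (4 * g + 1) (lpf g l v (4 * g + 1))
  have hr := hE4.2.2.1 (4 * g + 1) (lpf g l v (4 * g + 1))
  have h3 := hH3.1 (4 * g + 1) (lpf g l v (4 * g + 1)) (2 * g + 1) (2 * g + 1) (by omega)
  rw [hk] at h3
  have h4 := (Nat.pow_le_pow_iff_right hq).1 h3
  generalize rr (4 * g + 1) (lpf g l v (4 * g + 1)) = r at *
  have h5 : k + r ≤ 2 * g + 1 ∨ k = 0 := by
    rcases le_max_iff.1 h4 with h | h <;> omega
  refine ⟨k, B, ?_, by omega, hB, fun hk1 => ⟨?_, fun i hi => ?_⟩⟩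
  · rw [KK, hZ, hk]
  · rw [h0, ← natDegree_lt_iff_degree_lt hB]
    omega
  · have h6 : (X ^ i * B).degree < ((4 * g + 1 : ℕ) : WithBot ℕ) := by
      have h7 : X ^ i * B ≠ 0 := mul_ne_zero (pow_ne_zero _ X_ne_zero) hB
      rw [← natDegree_lt_iff_degree_lt h7, natDegree_mul (pow_ne_zero _ X_ne_zero) hB,
        natDegree_X_pow]
      omega
    have h8 := hBi i (by omega)
    rw [mu_lpf _ _ _ _ _ h6, mul_comm (X ^ i) B, ← mul_assoc] at h8
    exact h8

end D5
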