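import Pool.Agent.H506.D5.Stm2

/-!
# D5: the statement L2, summation of the low part (helper234)
-/

open Polynomial
open scoped Classical

noncomputable section

namespace D5

namespace XL2

theorem five_le (F : Type) [Field F] [Fintype F] [CharP F 5] : (5 : ℝ) ≤ qq F := by
  have h1 : (5 : ℕ) ∣ Fintype.card F :=
    (CharP.cast_eq_zero_iff F 5 (Fintype.card F)).1 (Nat.cast_card_eq_zero F)
  have h2 : 5 ≤ Fintype.card F := Nat.le_of_dvd Fintype.card_pos h1
  unfold qq
  exact_mod_cast h2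

/-- `2 q ^ x ≤ q ^ (x + 1/2)` -/
theorem two_mul_le {q : ℝ} (hq : 5 ≤ q) (x : ℝ) : q ^ x + q ^ x ≤ q ^ (x + 1 / 2) := by
  have hq0 : 0 < q := by linarith
  rw [Real.rpow_add hq0, ← Real.sqrt_eq_rpow]
  have h1 : (2 : ℝ) ≤ Real.sqrt q := by
    rw [show (2 : ℝ) = Real.sqrt 4 by
      rw [show (4 : ℝ) = 2 ^ 2 by norm_num, Real.sqrt_sq (by norm_num)]]
    exact Real.sqrt_le_sqrt (by linarith)
  have h2 := Real.rpow_pos_of_pos hq0 x
  nlinarith

section

variable {F : Type} [Field F] [Fintype F]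

/-- the sum of `q ^ (- deg w / 2)` over the nonzero polynomials of degree `< n` -/
theorem sumw (hq : 5 ≤ qq F) (b1 : ∀ n (g : F[X]), g ∈ POL F n ↔ g.degree < n)
    (b4 : ∀ n, (POL F n).card = Fintype.card F ^ n) (n : ℕ) :
    ∑ w ∈ (POL F n).filter (fun w => w ≠ 0), qq F ^ (-(w.natDegree : ℝ) / 2) ≤
      qq F ^ (1 + (n : ℝ) / 2) := by
  have hq0 : 0 < qq F := by linarith
  induction n with
  | zero =>
    have h0 : (POL F 0).filter (fun w => w ≠ 0) = ∅ := by
      rw [Finset.filter_eq_empty_iff]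
      intro w hw h
      rw [b1] at hw
      apply h
      rw [← degree_eq_bot]
      by_contra hb
      rw [degree_eq_natDegree (by
        rintro rfl
        exact hb degree_zero)] at hw
      exact absurd hw (by
        rw [not_lt]
        exact_mod_cast Nat.zero_le _)
    rw [h0, Finset.sum_empty]
    exact (Real.rpow_pos_of_pos hq0 _).le
  | succ n ih =>
    rw [← Finset.sum_filter_add_sum_filter_not ((POL F (n + 1)).filter (fun w => w ≠ 0))
      (fun w => w ∈ POL F n)]
    have h1 : ∑ w ∈ ((POL F (n + 1)).filter (fun w => w ≠ 0)).filter (fun w => w ∈ POL F n),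
        qq F ^ (-(w.natDegree : ℝ) / 2) ≤ qq F ^ (1 + (n : ℝ) / 2) := by
      refine le_trans (Finset.sum_le_sum_of_subset_of_nonneg ?_ fun w _ _ =>
        (Real.rpow_pos_of_pos hq0 _).le) ih
      intro w hw
      rw [Finset.mem_filter, Finset.mem_filter] at hw
      rw [Finset.mem_filter]
      exact ⟨hw.2, hw.1.2⟩
    have h2 : ∑ w ∈ ((POL F (n + 1)).filter (fun w => w ≠ 0)).filter (fun w => ¬ w ∈ POL F n),
        qq F ^ (-(w.natDegree : ℝ) / 2) ≤ qq F ^ (1 + (n : ℝ) / 2) := by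
      have h3 : ∀ w ∈ ((POL F (n + 1)).filter (fun w => w ≠ 0)).filter (fun w => ¬ w ∈ POL F n),
          qq F ^ (-(w.natDegree : ℝ) / 2) ≤ qq F ^ (-(n : ℝ) / 2) := by
        intro w hw
        rw [Finset.mem_filter, Finset.mem_filter, b1, b1] at hw
        obtain ⟨⟨hw1, hw0⟩, hw2⟩ := hw
        rw [degree_eq_natDegree hw0] at hw1 hw2
        have h4 : w.natDegree = n := by
          have h5 : w.natDegree < n + 1 := by exact_mod_cast hw1
          have h6 : ¬ w.natDegree < n := fun h => hw2 (by exact_mod_cast h)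
          omega
        rw [h4]
      refine (Finset.sum_le_card_nsmul _ _ _ h3).trans ?_
      rw [nsmul_eq_mul]
      have h7 : ((((POL F (n + 1)).filter (fun w => w ≠ 0)).filter
          (fun w => ¬ w ∈ POL F n)).card : ℝ) ≤ qq F ^ ((n : ℝ) + 1) := by
        have h8 : (((POL F (n + 1)).filter (fun w => w ≠ 0)).filter
            (fun w => ¬ w ∈ POL F n)).card ≤ Fintype.card F ^ (n + 1) := by
          rw [← b4]
          exact Finset.card_le_card ((Finset.filter_subset _ _).trans (Finset.filter_subset _ _))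
        have h9 : qq F ^ ((n : ℝ) + 1) = ((Fintype.card F ^ (n + 1) : ℕ) : ℝ) := by
          rw [show ((n : ℝ) + 1) = ((n + 1 : ℕ) : ℝ) by push_cast; ring, Real.rpow_natCast]
          unfold qq
          push_cast
          ring
        rw [h9]
        exact_mod_cast h8
      calc _ ≤ qq F ^ ((n : ℝ) + 1) * qq F ^ (-(n : ℝ) / 2) :=
            mul_le_mul_of_nonneg_right h7 (Real.rpow_pos_of_pos hq0 _).le
        _ = qq F ^ (1 + (n : ℝ) / 2) := by
            rw [← Real.rpow_add hq0]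
            congr 1
            ring
    refine (add_le_add h1 h2).trans ((two_mul_le hq _).trans (le_of_eq ?_))
    congr 1
    push_cast
    ring

/-- the sum over the multiples of `δ` -/
theorem sumdiv (hq : 5 ≤ qq F) (b1 : ∀ n (g : F[X]), g ∈ POL F n ↔ g.degree < n)
    (b4 : ∀ n, (POL F n).card = Fintype.card F ^ n) (g : ℕ) {δ : F[X]} (hδ : δ ≠ 0) :
    ∑ v ∈ (POL F g).filter (fun v => v ≠ 0),
      (if δ ∣ v then qq F ^ (((δ.natDegree : ℝ) - (v.natDegree : ℝ)) / 2) else 0) ≤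
      qq F ^ (1 + (g : ℝ) / 2) := by
  have hq0 : 0 < qq F := by linarith
  rw [← Finset.sum_filter]
  have hinj : Function.Injective (fun w : F[X] => δ * w) := mul_right_injective₀ hδ
  refine le_trans (Finset.sum_le_sum_of_subset_of_nonneg
    (t := ((POL F g).filter (fun w => w ≠ 0)).image (fun w => δ * w)) ?_ fun w _ _ =>
      (Real.rpow_pos_of_pos hq0 _).le) ?_
  · intro v hv
    rw [Finset.mem_filter, Finset.mem_filter] at hv
    obtain ⟨⟨hv1, hv0⟩, w, rfl⟩ := hv
    have hw0 : w ≠ 0 := right_ne_zero_of_mul hv0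
    rw [Finset.mem_image]
    refine ⟨w, ?_, rfl⟩
    rw [Finset.mem_filter, b1]
    rw [b1] at hv1
    refine ⟨lt_of_le_of_lt ?_ hv1, hw0⟩
    rw [degree_eq_natDegree hw0, degree_eq_natDegree hv0, natDegree_mul hδ hw0]
    exact_mod_cast Nat.le_add_left _ _
  · rw [Finset.sum_image fun a _ b _ h => hinj h]
    refine le_trans (le_of_eq ?_) (sumw hq b1 b4 g)
    refine Finset.sum_congr rfl fun w hw => ?_
    rw [Finset.mem_filter] at hw
    rw [natDegree_mul hδ hw.2]
    congr 1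
    push_cast
    ring

end

end XL2

open XL2

theorem p_L2 (F : Type) [Field F] [Fintype F] [CharP F 5] (hB0 : S_B0 F) (hDB : S_DB F)
    (hL1 : S_L1 F) : S_L2 F := by
  obtain ⟨b1, b2, -, b4, -, -⟩ := hB0
  have hq := five_le F
  have hq0 : 0 < qq F := by linarith
  have hq1 : 1 ≤ qq F := by linarith
  obtain ⟨C, hC, hD⟩ := hDB (1 / 20) (by norm_num)
  refine ⟨C, hC, fun g l hl => ?_⟩
  obtain ⟨S, hS⟩ : ∃ S, S = (POL F g).filter (fun v => v ≠ 0 ∧ ∃ k, LO g l v k) := ⟨_, rfl⟩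
  rw [← hS]
  have hR0 : 0 ≤ C * qq F ^ (2 * g + 3) * qq F ^ (-(9 / 4 : ℝ) * (rr g l : ℝ)) := by
    have h1 := pow_pos hq0 (2 * g + 3)
    have h2 := Real.rpow_pos_of_pos hq0 (-(9 / 4 : ℝ) * (rr g l : ℝ))
    positivity
  rcases S.eq_empty_or_nonempty with h0 | ⟨v0, hv0⟩
  · rw [h0, Finset.sum_empty]
    exact hR0
  rw [hS, Finset.mem_filter] at hv0
  obtain ⟨hv0g, hv00, k0, hk0⟩ := hv0
  obtain ⟨hb0, hbd, -⟩ := hL1 g l v0 k0 hl hv00 hv0g hk0
  obtain ⟨B, hB⟩ : ∃ B, B = (bb g l).1 ^ 5 := ⟨_, rfl⟩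
  have hB0' : B ≠ 0 := by
    rw [hB]
    exact pow_ne_zero 5 hb0
  have hBd : B.natDegree ≤ 5 * rr g l := by
    rw [hB, natDegree_pow]
    exact Nat.mul_le_mul_left 5 hbd
  obtain ⟨c, hc⟩ : ∃ c : ℝ, c = qq F ^ ((3 * (g : ℝ) + 4 - 5 * (rr g l : ℝ)) / 2) := ⟨_, rfl⟩
  have hc0 : 0 < c := by
    rw [hc]
    exact Real.rpow_pos_of_pos hq0 _
  have key : ∀ v ∈ S, Real.sqrt (KK g l v : ℝ) ≤ ∑ i ∈ Finset.range (B.natDegree + 1),
      ∑ δ ∈ (MON F i).filter (fun m => m ∣ B), c *
        (if δ ∣ v then qq F ^ (((δ.natDegree : ℝ) - (v.natDegree : ℝ)) / 2) else 0) := by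
    intro v hv
    rw [hS, Finset.mem_filter] at hv
    obtain ⟨hvg, hvn, k, hk⟩ := hv
    obtain ⟨-, -, δ, hm, hδB, hδv, hle⟩ := hL1 g l v k hl hvn hvg hk
    have hKK : KK g l v = Fintype.card F ^ k := by
      obtain ⟨-, z, α, hGP, -⟩ := hk
      exact hGP.1
    have hnn : ∀ i ∈ Finset.range (B.natDegree + 1), ∀ δ ∈ (MON F i).filter (fun m => m ∣ B),
        0 ≤ c * (if δ ∣ v then qq F ^ (((δ.natDegree : ℝ) - (v.natDegree : ℝ)) / 2) else 0) := by
      intro i _ δ _
      apply mul_nonneg hc0.le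
      split_ifs
      · exact (Real.rpow_pos_of_pos hq0 _).le
      · exact le_rfl
    rw [← hB] at hδB
    have h1 : δ.natDegree ∈ Finset.range (B.natDegree + 1) := by
      rw [Finset.mem_range]
      exact Nat.lt_succ_of_le (natDegree_le_of_dvd hδB hB0')
    have h2 : δ ∈ (MON F δ.natDegree).filter (fun m => m ∣ B) := by
      rw [Finset.mem_filter, b2]
      exact ⟨⟨hm, rfl⟩, hδB⟩
    have h3 : Real.sqrt (KK g l v : ℝ) ≤ c *
        (if δ ∣ v then qq F ^ (((δ.natDegree : ℝ) - (v.natDegree : ℝ)) / 2) else 0) := by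
      rw [if_pos hδv, hc, ← Real.rpow_add hq0, hKK, Real.sqrt_eq_rpow]
      have h4 : ((Fintype.card F ^ k : ℕ) : ℝ) = qq F ^ (k : ℝ) := by
        rw [Real.rpow_natCast]
        unfold qq
        push_cast
        ring
      rw [h4, ← Real.rpow_mul hq0.le]
      apply Real.rpow_le_rpow_of_exponent_le hq1
      have h5 : (k : ℝ) + 5 * (rr g l : ℝ) + (v.natDegree : ℝ) ≤
          3 * (g : ℝ) + 4 + (δ.natDegree : ℝ) := by exact_mod_cast hle
      linarith
    refine h3.trans ?_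
    have h6 := Finset.single_le_sum (hnn _ h1) h2
    have h7 := Finset.single_le_sum (f := fun i => ∑ δ ∈ (MON F i).filter (fun m => m ∣ B), c *
        (if δ ∣ v then qq F ^ (((δ.natDegree : ℝ) - (v.natDegree : ℝ)) / 2) else 0))
      (fun i hi => Finset.sum_nonneg (hnn i hi)) h1
    exact h6.trans h7
  have htau : (tau B : ℝ) ≤ C * qq F ^ ((1 / 4 : ℝ) * (rr g l : ℝ)) := by
    refine (hD B hB0').trans (mul_le_mul_of_nonneg_left ?_ hC.le)
    apply Real.rpow_le_rpow_of_exponent_le hq1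
    have h1 : (B.natDegree : ℝ) ≤ 5 * (rr g l : ℝ) := by exact_mod_cast hBd
    linarith
  calc ∑ v ∈ S, Real.sqrt (KK g l v : ℝ)
      ≤ ∑ v ∈ S, ∑ i ∈ Finset.range (B.natDegree + 1), ∑ δ ∈ (MON F i).filter (fun m => m ∣ B),
          c * (if δ ∣ v then qq F ^ (((δ.natDegree : ℝ) - (v.natDegree : ℝ)) / 2) else 0) :=
        Finset.sum_le_sum key
    _ ≤ ∑ v ∈ (POL F g).filter (fun v => v ≠ 0), ∑ i ∈ Finset.range (B.natDegree + 1),
          ∑ δ ∈ (MON F i).filter (fun m => m ∣ B),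
          c * (if δ ∣ v then qq F ^ (((δ.natDegree : ℝ) - (v.natDegree : ℝ)) / 2) else 0) := by
        apply Finset.sum_le_sum_of_subset_of_nonneg
        · intro v hv
          rw [hS, Finset.mem_filter] at hv
          rw [Finset.mem_filter]
          exact ⟨hv.1, hv.2.1⟩
        · intro v _ _
          refine Finset.sum_nonneg fun i _ => Finset.sum_nonneg fun δ _ => ?_
          apply mul_nonneg hc0.le
          split_ifs
          · exact (Real.rpow_pos_of_pos hq0 _).le
          · exact le_rfl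
    _ = ∑ i ∈ Finset.range (B.natDegree + 1), ∑ δ ∈ (MON F i).filter (fun m => m ∣ B),
          c * ∑ v ∈ (POL F g).filter (fun v => v ≠ 0),
            (if δ ∣ v then qq F ^ (((δ.natDegree : ℝ) - (v.natDegree : ℝ)) / 2) else 0) := by
        rw [Finset.sum_comm]
        refine Finset.sum_congr rfl fun i _ => ?_
        rw [Finset.sum_comm]
        refine Finset.sum_congr rfl fun δ _ => ?_
        rw [Finset.mul_sum]
    _ ≤ ∑ i ∈ Finset.range (B.natDegree + 1), ∑ δ ∈ (MON F i).filter (fun m => m ∣ B),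
          c * qq F ^ (1 + (g : ℝ) / 2) := by
        refine Finset.sum_le_sum fun i _ => Finset.sum_le_sum fun δ hδ => ?_
        rw [Finset.mem_filter, b2] at hδ
        exact mul_le_mul_of_nonneg_left (sumdiv hq b1 b4 g hδ.1.1.ne_zero) hc0.le
    _ = (tau B : ℝ) * (c * qq F ^ (1 + (g : ℝ) / 2)) := by
        unfold tau
        rw [Nat.cast_sum, Finset.sum_mul]
        refine Finset.sum_congr rfl fun i _ => ?_
        rw [Finset.sum_const, nsmul_eq_mul]
    _ ≤ (C * qq F ^ ((1 / 4 : ℝ) * (rr g l : ℝ))) * (c * qq F ^ (1 + (g : ℝ) / 2)) := by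
        apply mul_le_mul_of_nonneg_right htau
        have := Real.rpow_pos_of_pos hq0 (1 + (g : ℝ) / 2)
        positivity
    _ = C * qq F ^ (2 * g + 3) * qq F ^ (-(9 / 4 : ℝ) * (rr g l : ℝ)) := by
        rw [hc, ← Real.rpow_add hq0, mul_assoc, ← Real.rpow_add hq0, mul_assoc]
        congr 1
        rw [← Real.rpow_natCast (qq F) (2 * g + 3), ← Real.rpow_add hq0]
        congr 1
        push_cast
        ring

end D5
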