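import Pool.Agent.H506.D5.Stm2

/-!
# Project D5, task P0: two coprime generators of the annihilator of a linear form
-/

open Polynomial
open scoped Classical

noncomputable section

namespace D5

namespace XP0

variable {F : Type} [Field F]

theorem mu_add (g : ℕ) (l : Fin g → F) (P Q : F[X]) : mu g l (P + Q) = mu g l P + mu g l Q := by
  unfold mu
  rw [← Finset.sum_add_distrib]
  refine Finset.sum_congr rfl fun j _ => ?_
  rw [coeff_add]
  ring

theorem mu_zero (g : ℕ) (l : Fin g → F) : mu g l 0 = 0 := by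
  unfold mu
  simp

theorem mu_C (g : ℕ) (l : Fin g → F) (a : F) (P : F[X]) : mu g l (C a * P) = a * mu g l P := by
  unfold mu
  rw [Finset.mul_sum]
  refine Finset.sum_congr rfl fun j _ => ?_
  rw [coeff_C_mul]
  ring

theorem mu_sum {ι : Type} (g : ℕ) (l : Fin g → F) (s : Finset ι) (f : ι → F[X]) :
    mu g l (∑ i ∈ s, f i) = ∑ i ∈ s, mu g l (f i) := by
  induction s using Finset.induction_on with
  | empty => rw [Finset.sum_empty, Finset.sum_empty, mu_zero]
  | insert a s ha ih => rw [Finset.sum_insert ha, Finset.sum_insert ha, mu_add, ih]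

theorem mu_mul_zero (g : ℕ) (l : Fin g → F) (B α : F[X]) (K : ℕ)
    (hB : ∀ i, i < K → mu g l (X ^ i * B) = 0) (hα : α.degree < (K : WithBot ℕ)) :
    mu g l (B * α) = 0 := by
  by_cases h : α = 0
  · rw [h, mul_zero, mu_zero]
  have e0 := as_sum_range' α K ((natDegree_lt_iff_degree_lt h).2 hα)
  have e : B * α = ∑ i ∈ Finset.range K, C (α.coeff i) * (X ^ i * B) := by
    conv_lhs => rw [e0]
    rw [Finset.mul_sum]
    refine Finset.sum_congr rfl fun i _ => ?_
    rw [← C_mul_X_pow_eq_monomial]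
    ring
  rw [e, mu_sum]
  refine Finset.sum_eq_zero fun i hi => ?_
  rw [mu_C, hB i (Finset.mem_range.1 hi), mul_zero]

/-- Bezout with degrees -/
theorem bez (A B P : F[X]) (hA : A ≠ 0) (hco : IsCoprime A B) (M : ℕ)
    (hP : P.degree < ((A.natDegree + M : ℕ) : WithBot ℕ)) (hB : B.natDegree ≤ M) :
    ∃ α β : F[X], P = A * α + B * β ∧ α.degree < (M : WithBot ℕ) ∧
      β.degree < (A.natDegree : WithBot ℕ) := by
  obtain ⟨u, v, huv⟩ := hco
  have hdm : A * (P * v / A) + P * v % A = P * v := EuclideanDomain.div_add_mod _ _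
  have hβ : (P * v % A).degree < (A.natDegree : WithBot ℕ) := by
    rw [← degree_eq_natDegree hA]
    exact EuclideanDomain.mod_lt _ hA
  have heq : P = A * (P * u + B * (P * v / A)) + B * (P * v % A) := by
    linear_combination (-P) * huv - B * hdm
  refine ⟨P * u + B * (P * v / A), P * v % A, heq, ?_, hβ⟩
  by_cases hα : P * u + B * (P * v / A) = 0
  · rw [hα, degree_zero]
    exact WithBot.bot_lt_coe M
  have h1 : (B * (P * v % A)).degree < ((A.natDegree + M : ℕ) : WithBot ℕ) := by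
    by_cases h0 : B * (P * v % A) = 0
    · rw [h0, degree_zero]
      exact WithBot.bot_lt_coe _
    · rw [← natDegree_lt_iff_degree_lt h0, natDegree_mul (left_ne_zero_of_mul h0)
        (right_ne_zero_of_mul h0)]
      have h2 := (natDegree_lt_iff_degree_lt (right_ne_zero_of_mul h0)).2 hβ
      omega
  have h3 : A * (P * u + B * (P * v / A)) = P - B * (P * v % A) := by
    linear_combination -heq
  have h4 : (A * (P * u + B * (P * v / A))).degree < ((A.natDegree + M : ℕ) : WithBot ℕ) := by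
    rw [h3]
    exact lt_of_le_of_lt (degree_sub_le _ _) (max_lt hP h1)
  rw [← natDegree_lt_iff_degree_lt (mul_ne_zero hA hα), natDegree_mul hA hα] at h4
  rw [← natDegree_lt_iff_degree_lt hα]
  omega

/-- the common factor -/
theorem split (B₁ B₂ : F[X]) (h : B₁ ≠ 0) : ∃ G A₁ A₂ : F[X], G ≠ 0 ∧ IsCoprime A₁ A₂ ∧
    B₁ = G * A₁ ∧ B₂ = G * A₂ := by
  obtain ⟨A₁, h1⟩ := EuclideanDomain.gcd_dvd_left B₁ B₂
  obtain ⟨A₂, h2⟩ := EuclideanDomain.gcd_dvd_right B₁ B₂
  have hG : EuclideanDomain.gcd B₁ B₂ ≠ 0 := by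
    intro h0
    rw [h0, zero_mul] at h1
    exact h h1
  refine ⟨EuclideanDomain.gcd B₁ B₂, A₁, A₂, hG, ?_, h1, h2⟩
  have h3 := EuclideanDomain.gcd_eq_gcd_ab B₁ B₂
  refine ⟨EuclideanDomain.gcdA B₁ B₂, EuclideanDomain.gcdB B₁ B₂, ?_⟩
  apply mul_left_cancel₀ hG
  linear_combination (-EuclideanDomain.gcdA B₁ B₂) * h1 - EuclideanDomain.gcdB B₁ B₂ * h2 - h3

end XP0

set_option linter.unusedSectionVars false

variable (F : Type) [Field F] [Fintype F] [CharP F 5]

theorem p_P0 (hB0 : S_B0 F) (hE4 : S_E4 F) (hH1 : S_H1 F) : S_P0 F := by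
  intro g l hl
  obtain ⟨d, hd⟩ : ∃ d, d = rr g l := ⟨_, rfl⟩
  obtain ⟨-, hAnn, hrr, hr0⟩ := hE4
  have hd1 : 1 ≤ d := by
    rcases Nat.eq_zero_or_pos d with h | h
    · exact absurd (hr0 g l (by rw [← hd, h])) hl
    · exact h
  have hd2 : 2 * d ≤ g + 1 := by
    have := hrr g l
    rw [← hd] at this
    exact this
  obtain ⟨B₁, hB10, hB1d, hB1⟩ := hAnn g l
  rw [← hd] at hB1d hB1
  rw [← hd]
  obtain ⟨-, hcard⟩ := (hH1.2 g l (g + 2 - d) (d - 1) (by omega) (by rw [← hd]; omega))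
  have hlt : ((POL F (g + 2 - 2 * d)).image (fun c => B₁ * c)).card <
      (HK g l (g + 2 - d) (d - 1)).card := by
    refine lt_of_le_of_lt Finset.card_image_le ?_
    rw [hB0.2.2.2.1, hcard]
    exact Nat.pow_lt_pow_right Fintype.one_lt_card (by omega)
  obtain ⟨B₂, hB2m, hB2n⟩ := Finset.exists_mem_notMem_of_card_lt_card hlt
  unfold HK at hB2m
  rw [Finset.mem_filter, hB0.1] at hB2m
  obtain ⟨hB2d, hB2⟩ := hB2m
  have hnm : ∀ c : F[X], c.degree < ((g + 2 - 2 * d : ℕ) : WithBot ℕ) → B₂ ≠ B₁ * c := by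
    intro c hc h
    exact hB2n (Finset.mem_image.2 ⟨c, (hB0.1 _ _).2 hc, h.symm⟩)
  have hB20 : B₂ ≠ 0 := by
    have := hnm 0 (by rw [degree_zero]; exact WithBot.bot_lt_coe _)
    rwa [mul_zero] at this
  have hB2d' : B₂.natDegree ≤ g + 1 - d := by
    have := (natDegree_lt_iff_degree_lt hB20).2 hB2d
    omega
  obtain ⟨G, A₁, A₂, hG, hco, e1, e2⟩ := XP0.split B₁ B₂ hB10
  have hA1 : A₁ ≠ 0 := by
    rintro rfl
    rw [mul_zero] at e1
    exact hB10 e1
  have hA2 : A₂ ≠ 0 := by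
    rintro rfl
    rw [mul_zero] at e2
    exact hB20 e2
  have n1 : B₁.natDegree = G.natDegree + A₁.natDegree := by rw [e1, natDegree_mul hG hA1]
  have n2 : B₂.natDegree = G.natDegree + A₂.natDegree := by rw [e2, natDegree_mul hG hA2]
  -- the key step
  have key : ∀ γ₁, γ₁ ≤ d - B₁.natDegree → γ₁ ≤ g + 1 - d - B₂.natDegree →
      (γ₁ = d - B₁.natDegree ∨ γ₁ = g + 1 - d - B₂.natDegree) → 1 ≤ G.natDegree + γ₁ →
      ∀ P : F[X], P.degree < ((g - (G.natDegree + γ₁) : ℕ) : WithBot ℕ) → mu g l (G * P) = 0 := by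
    intro γ₁ hγ1 hγ2 hγ hpos P hP
    have hB1' : ∀ i, i < g - d → mu g l (X ^ i * B₁) = 0 := fun i hi => hB1 i (by omega)
    have hsum : ∀ α β : F[X], P = A₁ * α + A₂ * β → α.degree < ((g - d : ℕ) : WithBot ℕ) →
        β.degree < ((d - 1 : ℕ) : WithBot ℕ) → mu g l (G * P) = 0 := by
      intro α β hαβ hα hβ
      have e3 : G * P = B₁ * α + B₂ * β := by
        rw [hαβ, e1, e2]
        ring
      rw [e3, XP0.mu_add, XP0.mu_mul_zero g l B₁ α _ hB1' hα, XP0.mu_mul_zero g l B₂ β _ hB2 hβ,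
        add_zero]
    rcases hγ with hγ | hγ
    · obtain ⟨α, β, h1, h2, h3⟩ := XP0.bez A₁ A₂ P hA1 hco (g - d)
        (lt_of_lt_of_le hP (by
          have : g - (G.natDegree + γ₁) ≤ A₁.natDegree + (g - d) := by omega
          exact_mod_cast this)) (by omega)
      refine hsum α β h1 h2 (lt_of_lt_of_le h3 ?_)
      have : A₁.natDegree ≤ d - 1 := by omega
      exact_mod_cast this
    · obtain ⟨α, β, h1, h2, h3⟩ := XP0.bez A₂ A₁ P hA2 hco.symm (d - 1)
        (lt_of_lt_of_le hP (by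
          have : g - (G.natDegree + γ₁) ≤ A₂.natDegree + (d - 1) := by omega
          exact_mod_cast this)) (by
          omega)
      refine hsum β α (by rw [h1]; ring) (lt_of_lt_of_le h3 ?_) h2
      have : A₂.natDegree ≤ g - d := by omega
      exact_mod_cast this
  have hle : ∀ γ₁, γ₁ ≤ d - B₁.natDegree → γ₁ ≤ g + 1 - d - B₂.natDegree →
      (γ₁ = d - B₁.natDegree ∨ γ₁ = g + 1 - d - B₂.natDegree) → 1 ≤ G.natDegree + γ₁ → False := by
    intro γ₁ hγ1 hγ2 hγ hpos
    have hA : Ann g l (G.natDegree + γ₁) := by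
      refine ⟨G, hG, by omega, fun i hi => ?_⟩
      rw [mul_comm]
      refine key γ₁ hγ1 hγ2 hγ hpos _ ?_
      rw [degree_X_pow]
      have : i < g - (G.natDegree + γ₁) := by omega
      exact_mod_cast this
    have h1 : d ≤ G.natDegree + γ₁ := by
      rw [hd]
      exact Nat.sInf_le hA
    have hA1n : A₁.natDegree = 0 := by omega
    obtain ⟨a, ha⟩ := natDegree_eq_zero.1 hA1n
    have ha0 : a ≠ 0 := by
      rintro rfl
      rw [C_0] at ha
      exact hA1 ha.symm
    refine hnm (C a⁻¹ * A₂) ?_ ?_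
    · rw [← natDegree_lt_iff_degree_lt (mul_ne_zero (C_ne_zero.2 (inv_ne_zero ha0)) hA2),
        natDegree_C_mul (inv_ne_zero ha0)]
      omega
    · rw [e1, e2, ← ha]
      have : C a * C a⁻¹ = (1 : F[X]) := by rw [← C_mul, mul_inv_cancel₀ ha0, C_1]
      linear_combination (-G * A₂) * this
  have hG0 : G.natDegree = 0 := by
    by_contra h0
    rcases le_total (d - B₁.natDegree) (g + 1 - d - B₂.natDegree) with h | h
    · exact hle _ le_rfl h (Or.inl rfl) (by omega)
    · exact hle _ h le_rfl (Or.inr rfl) (by omega)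
  refine ⟨B₁, B₂, ⟨?_, hB1d, hB2d', ?_⟩, hB1, fun i hi => hB2 i (by omega)⟩
  · obtain ⟨a, ha⟩ := natDegree_eq_zero.1 hG0
    have ha0 : a ≠ 0 := by
      rintro rfl
      rw [C_0] at ha
      exact hG ha.symm
    have hu : IsUnit G := by
      rw [← ha]
      exact isUnit_C.2 (isUnit_iff_ne_zero.2 ha0)
    rw [e1, e2]
    exact (isCoprime_mul_unit_left hu A₁ A₂).2 hco
  · by_contra h0
    rw [not_or] at h0
    rcases le_total (d - B₁.natDegree) (g + 1 - d - B₂.natDegree) with h | h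
    · exact hle _ le_rfl h (Or.inl rfl) (by omega)
    · exact hle _ h le_rfl (Or.inr rfl) (by omega)

end D5
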