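import Pool.Agent.H506.D5.Stm2

/-! # Project D5, P0b (helper78): the form is determined by its generators up to a scalar -/

open Polynomial
open scoped Classical

noncomputable section

namespace D5

namespace XP0b

variable {F : Type} [Field F]

theorem mu_add (g : ℕ) (l : Fin g → F) (P R : F[X]) : mu g l (P + R) = mu g l P + mu g l R := by
  unfold mu
  simp only [coeff_add, mul_add, Finset.sum_add_distrib]

theorem mu_C_mul (g : ℕ) (l : Fin g → F) (a : F) (P : F[X]) :
    mu g l (C a * P) = a * mu g l P := by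
  unfold mu
  rw [Finset.mul_sum]
  refine Finset.sum_congr rfl fun j _ => ?_
  rw [coeff_C_mul]
  ring

theorem mu_sum {ι : Type} (s : Finset ι) (g : ℕ) (l : Fin g → F) (P : ι → F[X]) :
    mu g l (∑ i ∈ s, P i) = ∑ i ∈ s, mu g l (P i) := by
  unfold mu
  simp only [finsetSum_coeff, Finset.mul_sum]
  exact Finset.sum_comm

theorem natDegree_lt_of {c : F[X]} {n : ℕ} (h : c.degree < n) (hn : 0 < n) : c.natDegree < n := by
  by_cases h0 : c = 0
  · rw [h0, natDegree_zero]
    exact hn
  · exact (natDegree_lt_iff_degree_lt h0).2 h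

theorem mu_mul_zero {g n i : ℕ} {l : Fin g → F} {B c : F[X]} (hn : 0 < n) (hc : c.degree < n)
    (h : ∀ m, m < n → mu g l (X ^ (i + m) * B) = 0) : mu g l (X ^ i * (B * c)) = 0 := by
  have hc1 : c = ∑ m ∈ Finset.range n, C (c.coeff m) * X ^ m :=
    as_sum_range_C_mul_X_pow' c (natDegree_lt_of hc hn)
  have h1 : X ^ i * (B * c) = ∑ m ∈ Finset.range n, C (c.coeff m) * (X ^ (i + m) * B) := by
    conv_lhs => rw [hc1]
    rw [Finset.mul_sum, Finset.mul_sum]
    refine Finset.sum_congr rfl fun m _ => ?_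
    rw [pow_add]
    ring
  rw [h1, mu_sum]
  refine Finset.sum_eq_zero fun m hm => ?_
  rw [mu_C_mul, h m (Finset.mem_range.1 hm), mul_zero]

theorem coeff_sum (n : ℕ) (c : Fin n → F) (k : ℕ) :
    (∑ i : Fin n, C (c i) * X ^ (i : ℕ) : F[X]).coeff k = if h : k < n then c ⟨k, h⟩ else 0 := by
  rw [finsetSum_coeff]
  simp only [coeff_C_mul_X_pow]
  split_ifs with h
  · rw [Finset.sum_eq_single (⟨k, h⟩ : Fin n)]
    · simp
    · intro b _ hb
      rw [if_neg]
      intro h'
      exact hb (Fin.ext h'.symm)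
    · intro h'
      exact absurd (Finset.mem_univ _) h'
  · refine Finset.sum_eq_zero fun i _ => ?_
    rw [if_neg]
    intro h'
    exact h (h' ▸ i.2)

theorem coeff_mul_zero {B a : F[X]} {s t j : ℕ} (hB : B.natDegree ≤ s) (ha : a.degree < t)
    (hj : s + t ≤ j) : (B * a).coeff j = 0 := by
  by_cases h0 : a = 0
  · rw [h0, mul_zero, coeff_zero]
  · have h1 : a.natDegree < t := (natDegree_lt_iff_degree_lt h0).2 ha
    refine coeff_eq_zero_of_natDegree_lt (lt_of_le_of_lt natDegree_mul_le ?_)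
    omega

/-- The rows are the coefficients of the `X ^ i B₁`, `i < g - d`, and the `X ^ i B₂`, `i < d - 1`. -/
def Amat (g d : ℕ) (B₁ B₂ : F[X]) : Matrix (Fin (g - d) ⊕ Fin (d - 1)) (Fin g) F :=
  Sum.elim (fun i j => (X ^ (i : ℕ) * B₁).coeff (j : ℕ)) (fun i j => (X ^ (i : ℕ) * B₂).coeff (j : ℕ))

theorem two_zero {g d : ℕ} {B₁ B₂ a b : F[X]} (hd : 1 ≤ d) (hg : 2 * d ≤ g + 1)
    (hC : Cop d (g + 1 - d) B₁ B₂) (ha : a.degree < (g - d : ℕ)) (hb : b.degree < (d - 1 : ℕ))
    (h : B₁ * a + B₂ * b = 0) : a = 0 ∧ b = 0 := by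
  obtain ⟨hcop, -, -, hdeg⟩ := hC
  have h1 : B₁ * a = -(B₂ * b) := eq_neg_of_add_eq_zero_left h
  rcases hdeg with h2 | h2
  · have hB : B₁ ≠ 0 := by
      rintro rfl
      rw [natDegree_zero] at h2
      omega
    have h3 : B₁ ∣ B₂ * b := by
      rw [← dvd_neg, ← h1]
      exact dvd_mul_right _ _
    have h4 : B₁ ∣ b := hcop.dvd_of_dvd_mul_left h3
    have h5 : b = 0 := by
      refine eq_zero_of_dvd_of_degree_lt h4 (hb.trans_le ?_)
      rw [degree_eq_natDegree hB, h2]
      exact_mod_cast Nat.sub_le d 1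
    refine ⟨?_, h5⟩
    rw [h5, mul_zero, add_zero] at h
    exact (mul_eq_zero.1 h).resolve_left hB
  · have hB : B₂ ≠ 0 := by
      rintro rfl
      rw [natDegree_zero] at h2
      omega
    have h3 : B₂ ∣ B₁ * a := by
      rw [h1, dvd_neg]
      exact dvd_mul_right _ _
    have h4 : B₂ ∣ a := hcop.symm.dvd_of_dvd_mul_left h3
    have h5 : a = 0 := by
      refine eq_zero_of_dvd_of_degree_lt h4 (ha.trans_le ?_)
      rw [degree_eq_natDegree hB, h2]
      exact_mod_cast (by omega : g - d ≤ g + 1 - d)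
    refine ⟨h5, ?_⟩
    rw [h5, mul_zero, zero_add] at h
    exact (mul_eq_zero.1 h).resolve_left hB

theorem row_indep {g d : ℕ} {B₁ B₂ : F[X]} (hd : 1 ≤ d) (hg : 2 * d ≤ g + 1)
    (hC : Cop d (g + 1 - d) B₁ B₂) : LinearIndependent F (Amat g d B₁ B₂).row := by
  rw [Fintype.linearIndependent_iff]
  intro c hc
  set a : F[X] := ∑ i : Fin (g - d), C (c (Sum.inl i)) * X ^ (i : ℕ) with ha
  set b : F[X] := ∑ i : Fin (d - 1), C (c (Sum.inr i)) * X ^ (i : ℕ) with hb
  have ha1 : a.degree < (g - d : ℕ) := degree_sum_fin_lt _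
  have hb1 : b.degree < (d - 1 : ℕ) := degree_sum_fin_lt _
  have hP : B₁ * a + B₂ * b = 0 := by
    ext j
    rw [coeff_zero]
    by_cases hj : j < g
    · have h1 := congrFun hc ⟨j, hj⟩
      rw [Finset.sum_apply, Fintype.sum_sum_type] at h1
      simp only [Pi.smul_apply, Matrix.row, Amat, Sum.elim_inl, Sum.elim_inr, smul_eq_mul,
        Pi.zero_apply] at h1
      have h2 : B₁ * a = ∑ i : Fin (g - d), C (c (Sum.inl i)) * (X ^ (i : ℕ) * B₁) := by
        rw [ha, Finset.mul_sum]
        exact Finset.sum_congr rfl fun i _ => by ring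
      have h3 : B₂ * b = ∑ i : Fin (d - 1), C (c (Sum.inr i)) * (X ^ (i : ℕ) * B₂) := by
        rw [hb, Finset.mul_sum]
        exact Finset.sum_congr rfl fun i _ => by ring
      rw [coeff_add, h2, h3, finsetSum_coeff, finsetSum_coeff]
      simp only [coeff_C_mul]
      exact h1
    · rw [coeff_add, coeff_mul_zero hC.2.1 ha1 (by omega), coeff_mul_zero hC.2.2.1 hb1 (by omega),
        add_zero]
  obtain ⟨h1, h2⟩ := two_zero hd hg hC ha1 hb1 hP
  rintro (i | i)
  · have h3 := congrArg (fun P : F[X] => P.coeff (i : ℕ)) h1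
    simp only [ha, coeff_sum, dif_pos i.2, coeff_zero] at h3
    exact h3
  · have h3 := congrArg (fun P : F[X] => P.coeff (i : ℕ)) h2
    simp only [hb, coeff_sum, dif_pos i.2, coeff_zero] at h3
    exact h3

theorem finrank_ker {g d : ℕ} {B₁ B₂ : F[X]} (hd : 1 ≤ d) (hg : 2 * d ≤ g + 1)
    (hC : Cop d (g + 1 - d) B₁ B₂) :
    Module.finrank F (LinearMap.ker (Amat g d B₁ B₂).mulVecLin) = 1 := by
  have h1 := (row_indep hd hg hC).rank_matrix
  have h2 := LinearMap.finrank_range_add_finrank_ker (Amat g d B₁ B₂).mulVecLin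
  rw [Module.finrank_fin_fun] at h2
  rw [Fintype.card_sum, Fintype.card_fin, Fintype.card_fin] at h1
  unfold Matrix.rank at h1
  omega

end XP0b

open XP0b in
theorem p_P0b (F : Type) [Field F] [Fintype F] [CharP F 5] (hB0 : S_B0 F) : S_P0b F := by
  constructor
  · intro g d B₁ B₂ hd hg
    by_cases hC : Cop d (g + 1 - d) B₁ B₂
    · have hk : Nat.card (LinearMap.ker (Amat g d B₁ B₂).mulVecLin) = Fintype.card F := by
        rw [Module.natCard_eq_pow_finrank (K := F), finrank_ker hd hg hC, pow_one,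
          Nat.card_eq_fintype_card]
      rw [← hk, ← Fintype.card_subtype, ← Nat.card_eq_fintype_card]
      have hm : ∀ l : Fin g → F, Val g l d B₁ B₂ →
          l ∈ LinearMap.ker (Amat g d B₁ B₂).mulVecLin := by
        rintro l ⟨-, h1, h2⟩
        rw [LinearMap.mem_ker, Matrix.mulVecLin_apply]
        funext i
        rcases i with i | i
        · have h3 := h1 (i : ℕ) (by have := i.2; omega)
          rw [Pi.zero_apply, ← h3]
          unfold mu Matrix.mulVec dotProduct Amat
          exact Finset.sum_congr rfl fun j _ => mul_comm _ _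
        · have h3 := h2 (i : ℕ) (by have := i.2; omega)
          rw [Pi.zero_apply, ← h3]
          unfold mu Matrix.mulVec dotProduct Amat
          exact Finset.sum_congr rfl fun j _ => mul_comm _ _
      exact Nat.card_le_card_of_injective
        (fun l : {l : Fin g → F // Val g l d B₁ B₂} =>
          (⟨l.1, hm l.1 l.2⟩ : LinearMap.ker (Amat g d B₁ B₂).mulVecLin))
        (fun l l' h => Subtype.ext (congrArg
          (fun z : LinearMap.ker (Amat g d B₁ B₂).mulVecLin => (z : Fin g → F)) h))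
    · rw [Finset.filter_false_of_mem (fun l _ h => hC h.1), Finset.card_empty]
      exact Nat.zero_le _
  · rintro g d l B₁ B₂ c hd hg ⟨⟨h1, h2, h3, h4⟩, h5, h6⟩ hc
    have hc1 : c.degree < (g + 2 - 2 * d : ℕ) := (hB0.1 _ _).1 hc
    have hc2 : c.natDegree < g + 2 - 2 * d := natDegree_lt_of hc1 (by omega)
    have h7 : (B₁ * c).natDegree ≤ B₁.natDegree + c.natDegree := natDegree_mul_le
    refine ⟨⟨?_, h2, ?_, ?_⟩, h5, ?_⟩
    · exact IsCoprime.add_mul_left_right h1 c
    · refine natDegree_add_le_of_degree_le h3 ?_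
      omega
    · by_cases h8 : B₁.natDegree = d
      · exact Or.inl h8
      · right
        have h9 := h4.resolve_left h8
        rw [natDegree_add_eq_left_of_natDegree_lt (by omega)]
        exact h9
    · intro i hi
      rw [mul_add, mu_add, h6 i hi, zero_add]
      refine mu_mul_zero (n := g + 2 - 2 * d) (by omega) hc1 fun m hm => h5 (i + m) (by omega)

end D5
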