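import Pool.Agent.H506.D5.Stm2

/-!
# P1: the Hankel kernels are spanned by the two generators
-/

open Polynomial
open scoped Classical

noncomputable section

namespace D5

namespace XP1

variable {F : Type} [Field F]

theorem mu_add (g : ℕ) (l : Fin g → F) (P Q : F[X]) : mu g l (P + Q) = mu g l P + mu g l Q := by
  unfold mu
  rw [← Finset.sum_add_distrib]
  apply Finset.sum_congr rfl
  intro j _
  rw [coeff_add, mul_add]

theorem mu_C_mul (g : ℕ) (l : Fin g → F) (c : F) (P : F[X]) : mu g l (C c * P) = c * mu g l P := by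
  unfold mu
  rw [Finset.mul_sum]
  apply Finset.sum_congr rfl
  intro j _
  rw [coeff_C_mul]
  ring

theorem mu_zero (g : ℕ) (l : Fin g → F) : mu g l (0 : F[X]) = 0 := by
  unfold mu
  apply Finset.sum_eq_zero
  intro j _
  rw [coeff_zero, mul_zero]

theorem mu_sum (g : ℕ) (l : Fin g → F) (s : Finset ℕ) (f : ℕ → F[X]) (h : ∀ m ∈ s, mu g l (f m) = 0) :
    mu g l (∑ m ∈ s, f m) = 0 := by
  induction s using Finset.induction_on with
  | empty => rw [Finset.sum_empty, mu_zero]
  | insert a s ha ih =>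
    rw [Finset.sum_insert ha, mu_add, h a (Finset.mem_insert_self a s),
      ih fun m hm => h m (Finset.mem_insert_of_mem hm), add_zero]

/-- combinations of shifts -/
theorem mu_comb (g : ℕ) (l : Fin g → F) (Q α : F[X]) (N : ℕ) (hα : α.degree < N)
    (h : ∀ m, m < N → mu g l (X ^ m * Q) = 0) : mu g l (Q * α) = 0 := by
  by_cases h0 : α = 0
  · rw [h0, mul_zero, mu_zero]
  have hN : α.natDegree < N := (natDegree_lt_iff_degree_lt h0).2 hα
  have h1 : Q * α = ∑ m ∈ Finset.range N, C (α.coeff m) * (X ^ m * Q) := by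
    conv_lhs => rw [as_sum_range_C_mul_X_pow' α hN]
    rw [Finset.mul_sum]
    apply Finset.sum_congr rfl
    intro m _
    ring
  rw [h1]
  apply mu_sum
  intro m hm
  rw [mu_C_mul, h m (Finset.mem_range.1 hm), mul_zero]

theorem degree_mul_lt {B α : F[X]} {d J : ℕ} (hB : B.natDegree ≤ d) (hα : α.degree < ((J - d : ℕ) : WithBot ℕ)) :
    (B * α).degree < (J : WithBot ℕ) := by
  by_cases h0 : α = 0
  · rw [h0, mul_zero, degree_zero]
    exact WithBot.bot_lt_coe J
  by_cases h1 : B = 0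
  · rw [h1, zero_mul, degree_zero]
    exact WithBot.bot_lt_coe J
  have h2 : α.natDegree < J - d := (natDegree_lt_iff_degree_lt h0).2 hα
  rw [← natDegree_lt_iff_degree_lt (mul_ne_zero h1 h0), natDegree_mul h1 h0]
  omega

/-- the relations are trivial -/
theorem rel {g d J : ℕ} {B₁ B₂ a b : F[X]} (hd : 1 ≤ d) (h2d : 2 * d ≤ g + 1) (hJ : J ≤ g + 1)
    (hC : Cop d (g + 1 - d) B₁ B₂) (ha : a.degree < ((J - d : ℕ) : WithBot ℕ))
    (hb : b.degree < ((J - (g + 1 - d) : ℕ) : WithBot ℕ)) (h : B₁ * a + B₂ * b = 0) : a = 0 ∧ b = 0 := by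
  obtain ⟨hc, _, _, h4⟩ := hC
  rcases h4 with h4 | h4
  · have hB : B₁ ≠ 0 := by
      rintro rfl
      rw [natDegree_zero] at h4
      omega
    have h5 : B₁ ∣ B₂ * b := ⟨-a, by rw [mul_neg]; exact eq_neg_of_add_eq_zero_right h⟩
    have h6 : B₁ ∣ b := hc.dvd_of_dvd_mul_left h5
    have h7 : b = 0 := by
      by_contra hb0
      have h8 := natDegree_le_of_dvd h6 hb0
      have h9 : b.natDegree < J - (g + 1 - d) := (natDegree_lt_iff_degree_lt hb0).2 hb
      omega
    rw [h7, mul_zero, add_zero] at h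
    exact ⟨(mul_eq_zero.1 h).resolve_left hB, h7⟩
  · have hB : B₂ ≠ 0 := by
      rintro rfl
      rw [natDegree_zero] at h4
      omega
    have h5 : B₂ ∣ B₁ * a := ⟨-b, by rw [mul_neg]; exact eq_neg_of_add_eq_zero_left h⟩
    have h6 : B₂ ∣ a := hc.symm.dvd_of_dvd_mul_left h5
    have h7 : a = 0 := by
      by_contra ha0
      have h8 := natDegree_le_of_dvd h6 ha0
      have h9 : a.natDegree < J - d := (natDegree_lt_iff_degree_lt ha0).2 ha
      omega
    rw [h7, mul_zero, zero_add] at h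
    exact ⟨h7, (mul_eq_zero.1 h).resolve_left hB⟩

end XP1

theorem p_P1 (F : Type) [Field F] [Fintype F] [CharP F 5] (hB0 : S_B0 F) (hE4 : S_E4 F)
    (hH3 : S_H3 F) : S_P1 F := by
  intro g l B₁ B₂ hd hV J K hJK P hP
  have h2d := hE4.2.2.1 g l
  have hcard := hH3.1 g l J K hJK
  obtain ⟨hC, hV1, hV2⟩ := hV
  generalize hdd : rr g l = d at *
  have hmem := hB0.1
  let Φ : F[X] × F[X] → F[X] := fun p => B₁ * p.1 + B₂ * p.2
  have hsub : ((POL F (J - d) ×ˢ POL F (J - (g + 1 - d))).image Φ) ⊆ HK g l J K := by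
    intro Q hQ
    rw [Finset.mem_image] at hQ
    obtain ⟨⟨α, β⟩, hαβ, rfl⟩ := hQ
    rw [Finset.mem_product] at hαβ
    obtain ⟨hα, hβ⟩ := hαβ
    simp only at hα hβ
    rw [hmem] at hα hβ
    unfold HK
    rw [Finset.mem_filter, hmem]
    refine ⟨?_, fun i hi => ?_⟩
    · exact (degree_add_le _ _).trans_lt (max_lt (XP1.degree_mul_lt hC.2.1 hα)
        (XP1.degree_mul_lt hC.2.2.1 hβ))
    · have e1 : X ^ i * Φ (α, β) = (X ^ i * B₁) * α + (X ^ i * B₂) * β := by
        simp only [Φ]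
        ring
      rw [e1, XP1.mu_add]
      have e2 : mu g l ((X ^ i * B₁) * α) = 0 := by
        apply XP1.mu_comb g l _ α (J - d) hα
        intro m hm
        have e3 : (X ^ m * (X ^ i * B₁) : F[X]) = X ^ (m + i) * B₁ := by ring
        rw [e3]
        apply hV1
        omega
      have e4 : mu g l ((X ^ i * B₂) * β) = 0 := by
        apply XP1.mu_comb g l _ β (J - (g + 1 - d)) hβ
        intro m hm
        have e3 : (X ^ m * (X ^ i * B₂) : F[X]) = X ^ (m + i) * B₂ := by ring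
        rw [e3]
        apply hV2
        omega
      rw [e2, e4, add_zero]
  have hinj : Set.InjOn Φ ((POL F (J - d) ×ˢ POL F (J - (g + 1 - d)) : Finset (F[X] × F[X])) :
      Set (F[X] × F[X])) := by
    rintro ⟨α, β⟩ h1 ⟨α', β'⟩ h2 h3
    rw [Finset.mem_coe, Finset.mem_product] at h1 h2
    obtain ⟨h1a, h1b⟩ := h1
    obtain ⟨h2a, h2b⟩ := h2
    simp only at h1a h1b h2a h2b
    rw [hmem] at h1a h1b h2a h2b
    have h4 : B₁ * (α - α') + B₂ * (β - β') = 0 := by
      simp only [Φ] at h3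
      have h5 : B₁ * (α - α') + B₂ * (β - β') = (B₁ * α + B₂ * β) - (B₁ * α' + B₂ * β') := by ring
      rw [h5, h3, sub_self]
    have h6 := XP1.rel hd h2d (by omega) hC ((degree_sub_le _ _).trans_lt (max_lt h1a h2a))
      ((degree_sub_le _ _).trans_lt (max_lt h1b h2b)) h4
    rw [sub_eq_zero, sub_eq_zero] at h6
    rw [h6.1, h6.2]
  have hc2 : (HK g l J K).card ≤ ((POL F (J - d) ×ˢ POL F (J - (g + 1 - d))).image Φ).card := by
    rw [Finset.card_image_of_injOn hinj, Finset.card_product, hB0.2.2.2.1, hB0.2.2.2.1, ← pow_add]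
    refine hcard.trans (Nat.pow_le_pow_right Fintype.card_pos ?_)
    rw [max_le_iff]
    constructor <;> omega
  have heq := Finset.eq_of_subset_of_card_le hsub hc2
  rw [← heq, Finset.mem_image] at hP
  obtain ⟨⟨α, β⟩, hαβ, rfl⟩ := hP
  rw [Finset.mem_product] at hαβ
  exact ⟨α, β, rfl, hαβ.1, hαβ.2⟩

end D5
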