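import Pool.Agent.H506.D5.Stm2

/-! P2: the representation through the five components modulo 5. -/

open Polynomial
open scoped Classical

noncomputable section

namespace D5

namespace XP2

variable {F : Type} [Field F]

/-- The component of `w` with the exponents congruent to `s` modulo 5. -/
def cm (s : ℕ) (w : F[X]) : F[X] :=
  ∑ k ∈ Finset.range (w.natDegree + 1), monomial k (w.coeff (5 * k + s))

lemma cm_coeff (s : ℕ) (w : F[X]) (m : ℕ) : (cm s w).coeff m = w.coeff (5 * m + s) := by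
  unfold cm
  rw [finsetSum_coeff]
  simp only [coeff_monomial]
  rw [Finset.sum_ite_eq']
  split_ifs with h
  · rfl
  · rw [Finset.mem_range, not_lt] at h
    exact (coeff_eq_zero_of_natDegree_lt (by omega)).symm

lemma mu_cm {g : ℕ} (l : Fin g → F) (w : F[X]) {s i : ℕ} (hs : s < 5) :
    mu g l (X ^ i * cm s w) = Lam g l (w * X ^ (5 * i + 4 - s)) := by
  unfold mu Lam
  refine Finset.sum_congr rfl fun j _ => ?_
  congr 1
  rw [coeff_X_pow_mul', coeff_mul_X_pow', cm_coeff]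
  by_cases hij : i ≤ (j : ℕ)
  · rw [if_pos hij, if_pos (by omega)]
    congr 1
    omega
  · rw [if_neg hij, if_neg (by omega)]

lemma coeff_term (s n : ℕ) (P : F[X]) : (X ^ s * expand F 5 P).coeff n =
    if s ≤ n ∧ 5 ∣ n - s then P.coeff ((n - s) / 5) else 0 := by
  rw [coeff_X_pow_mul']
  by_cases h : s ≤ n
  · rw [if_pos h, coeff_expand (by norm_num)]
    by_cases h' : 5 ∣ n - s
    · rw [if_pos h', if_pos ⟨h, h'⟩]
    · rw [if_neg h', if_neg fun h2 => h' h2.2]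
  · rw [if_neg h, if_neg fun h2 => h h2.1]

lemma sum_cm (w : F[X]) : w = ∑ s : Fin 5, X ^ (s : ℕ) * expand F 5 (cm s w) := by
  ext n
  rw [finsetSum_coeff,
    Finset.sum_eq_single (⟨n % 5, Nat.mod_lt _ (by norm_num)⟩ : Fin 5)]
  · rw [coeff_term, if_pos (by constructor <;> (simp only; omega)), cm_coeff]
    congr 1
    simp only
    omega
  · intro s _ hs
    rw [coeff_term, if_neg]
    rintro ⟨h1, h2⟩
    apply hs
    ext
    simp only
    have := s.2
    omega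
  · intro h
    exact absurd (Finset.mem_univ _) h

variable [Fintype F]

lemma mem_of (hB0 : S_B0 F) {g k e : ℕ} (γ : Fin 5 → F[X])
    (h : ∀ s : Fin 5, γ s ∈ POL F (g + 1 - (2 * g + k + (s : ℕ)) / 5 - e)) :
    ∑ s : Fin 5, X ^ (s : ℕ) * expand F 5 (γ s) ∈ POL F (3 * g + 5 - k - 5 * e) := by
  rw [hB0.1, degree_lt_iff_coeff_zero]
  intro n hn
  rw [finsetSum_coeff]
  refine Finset.sum_eq_zero fun s _ => ?_
  rw [coeff_term]
  split_ifs with h1
  · have h2 := (hB0.1 _ _).1 (h s)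
    rw [degree_lt_iff_coeff_zero] at h2
    apply h2
    have := s.2
    omega
  · rfl

lemma cm_mem (hB0 : S_B0 F) {g k : ℕ} {l : Fin g → F} {w : F[X]}
    (hw : w ∈ POL F (3 * g + 1 - k)) (hw2 : ∀ i, i < 2 * g + k → Lam g l (w * X ^ i) = 0) {s : ℕ}
    (hs : s < 5) : cm s w ∈ HK g l (g + 1 - (2 * g + k + s) / 5) ((2 * g + k + s) / 5) := by
  suffices h : cm s w ∈ POL F (g + 1 - (2 * g + k + s) / 5) ∧
      ∀ i, i < (2 * g + k + s) / 5 → mu g l (X ^ i * cm s w) = 0 by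
    simpa only [HK, Finset.mem_filter] using h
  refine ⟨?_, fun i hi => ?_⟩
  · have h1 := (hB0.1 _ _).1 hw
    rw [hB0.1, degree_lt_iff_coeff_zero]
    rw [degree_lt_iff_coeff_zero] at h1
    intro m hm
    rw [cm_coeff]
    exact h1 _ (by omega)
  · rw [mu_cm l w hs]
    exact hw2 _ (by omega)

end XP2

open XP2 in
theorem p_P2 (F : Type) [Field F] [Fintype F] [CharP F 5] (hB0 : S_B0 F) (hFR : S_FR F)
    (hP1 : S_P1 F) : S_P2 F := by
  intro g l b₁ b₂ hr hV k w hk _ hw hw2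
  have h1 : ∀ s : Fin 5, ∃ α β : F[X], cm s w = fr b₁ * α + fr b₂ * β ∧
      α ∈ POL F (g + 1 - (2 * g + k + (s : ℕ)) / 5 - rr g l) ∧
      β ∈ POL F (g + 1 - (2 * g + k + (s : ℕ)) / 5 - (g + 1 - rr g l)) := fun s =>
    hP1 g l (fr b₁) (fr b₂) hr hV (g + 1 - (2 * g + k + (s : ℕ)) / 5)
      ((2 * g + k + (s : ℕ)) / 5) (by have := s.2; omega) (cm s w) (cm_mem hB0 hw hw2 s.2)
  choose α β h2 h3 h4 using h1
  refine ⟨∑ s : Fin 5, X ^ (s : ℕ) * expand F 5 (α s), ∑ s : Fin 5, X ^ (s : ℕ) * expand F 5 (β s),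
    ?_, mem_of hB0 α h3, mem_of hB0 β h4⟩
  rw [hFR.2.2.2.1 b₁, hFR.2.2.2.1 b₂, Finset.mul_sum, Finset.mul_sum, ← Finset.sum_add_distrib]
  refine (sum_cm w).trans (Finset.sum_congr rfl fun s _ => ?_)
  rw [h2 s, map_add, map_mul, map_mul]
  ring

end D5
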