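import Pool.Agent.H506.D5.Stm2

/-!
# D5, R1: summation of Q over `b, α, β`
-/

open Polynomial
open scoped Classical

noncomputable section

namespace D5

namespace XR1

variable {F : Type} [Field F] [Fintype F]

/-- indicator of divisibility -/
def ind (m x : F[X]) : ℝ := if m ∣ x then 1 else 0

omit [Fintype F] in
theorem ind_nonneg (m x : F[X]) : 0 ≤ ind m x := by
  unfold ind
  split_ifs <;> norm_num

omit [Fintype F] in
theorem sum_ind (m : F[X]) (S : Finset F[X]) :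
    ∑ x ∈ S, ind m x = ((S.filter (fun x => m ∣ x)).card : ℝ) := by
  unfold ind
  rw [Finset.sum_boole]

theorem card_mult (hP : ∀ n (g : F[X]), g ∈ POL F n ↔ g.degree < n)
    (hc : ∀ n, (POL F n).card = Fintype.card F ^ n) (m : F[X]) (hm : m.Monic) (n : ℕ) :
    ((POL F n).filter (fun x => m ∣ x)).card ≤ Fintype.card F ^ (n - m.natDegree) := by
  have hsub : (POL F n).filter (fun x => m ∣ x) ⊆
      (POL F (n - m.natDegree)).image (fun y => m * y) := by
    intro x hx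
    rw [Finset.mem_filter, hP] at hx
    obtain ⟨h1, y, rfl⟩ := hx
    rw [Finset.mem_image]
    refine ⟨y, ?_, rfl⟩
    rw [hP]
    by_cases hy : y = 0
    · rw [hy, degree_zero]
      exact WithBot.bot_lt_coe _
    · have hmy : m * y ≠ 0 := mul_ne_zero hm.ne_zero hy
      have h2 : (m * y).natDegree < n := (natDegree_lt_iff_degree_lt hmy).2 h1
      rw [natDegree_mul hm.ne_zero hy] at h2
      exact (natDegree_lt_iff_degree_lt hy).1 (by omega)
  calc ((POL F n).filter (fun x => m ∣ x)).card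
      ≤ ((POL F (n - m.natDegree)).image (fun y => m * y)).card := Finset.card_le_card hsub
    _ ≤ (POL F (n - m.natDegree)).card := Finset.card_image_le
    _ = Fintype.card F ^ (n - m.natDegree) := hc _

theorem sum_ind_le (hP : ∀ n (g : F[X]), g ∈ POL F n ↔ g.degree < n)
    (hc : ∀ n, (POL F n).card = Fintype.card F ^ n) (m : F[X]) (hm : m.Monic) (n : ℕ)
    (S : Finset F[X]) (hS : S ⊆ POL F n) :
    ∑ x ∈ S, ind m x ≤ qq F ^ (n - m.natDegree) := by
  rw [sum_ind]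
  have h1 : (S.filter (fun x => m ∣ x)).card ≤ Fintype.card F ^ (n - m.natDegree) :=
    (Finset.card_le_card (Finset.filter_subset_filter _ hS)).trans (card_mult hP hc m hm n)
  unfold qq
  exact_mod_cast h1

theorem swap {ι κ : Type} (S₁ S₂ S₃ : Finset κ) (I : Finset ι) (c : ι → ℝ) (f : ι → κ → ℝ) :
    ∑ b ∈ S₁, ∑ α ∈ S₂, ∑ β ∈ S₃, ∑ x ∈ I, c x * (f x b * (f x α * f x β)) =
      ∑ x ∈ I, c x * ((∑ b ∈ S₁, f x b) * ((∑ α ∈ S₂, f x α) * ∑ β ∈ S₃, f x β)) := by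
  have e1 : ∀ b α, ∑ β ∈ S₃, ∑ x ∈ I, c x * (f x b * (f x α * f x β)) =
      ∑ x ∈ I, c x * (f x b * (f x α * ∑ β ∈ S₃, f x β)) := by
    intro b α
    rw [Finset.sum_comm]
    refine Finset.sum_congr rfl fun x _ => ?_
    rw [Finset.mul_sum, Finset.mul_sum, Finset.mul_sum]
  have e2 : ∀ b, ∑ α ∈ S₂, ∑ x ∈ I, c x * (f x b * (f x α * ∑ β ∈ S₃, f x β)) =
      ∑ x ∈ I, c x * (f x b * ((∑ α ∈ S₂, f x α) * ∑ β ∈ S₃, f x β)) := by
    intro b
    rw [Finset.sum_comm]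
    refine Finset.sum_congr rfl fun x _ => ?_
    rw [Finset.sum_mul, Finset.mul_sum, Finset.mul_sum]
  have e3 : ∑ b ∈ S₁, ∑ x ∈ I, c x * (f x b * ((∑ α ∈ S₂, f x α) * ∑ β ∈ S₃, f x β)) =
      ∑ x ∈ I, c x * ((∑ b ∈ S₁, f x b) * ((∑ α ∈ S₂, f x α) * ∑ β ∈ S₃, f x β)) := by
    rw [Finset.sum_comm]
    refine Finset.sum_congr rfl fun x _ => ?_
    rw [← Finset.mul_sum, ← Finset.sum_mul]
  simp only [e1, e2]
  exact e3

theorem geom {q : ℝ} (hq : 2 ≤ q) (M : ℕ) : ∑ i ∈ Finset.range M, (1 / q) ^ i ≤ 2 := by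
  have h0 : 0 ≤ 1 / q := by positivity
  have h1 : 1 / q ≤ 1 / 2 := one_div_le_one_div_of_le (by norm_num) hq
  calc ∑ i ∈ Finset.range M, (1 / q) ^ i ≤ ∑ i ∈ Finset.range M, (1 / 2 : ℝ) ^ i :=
        Finset.sum_le_sum fun i _ => pow_le_pow_left₀ h0 h1 i
    _ ≤ 2 := by
      have h2 := geom_sum_eq (x := (1 / 2 : ℝ)) (by norm_num) M
      rw [h2]
      have h3 : (0 : ℝ) ≤ (1 / 2) ^ M := by positivity
      have h4 : ((1 / 2 : ℝ) ^ M - 1) / (1 / 2 - 1) = 2 - 2 * (1 / 2) ^ M := by ring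
      rw [h4]
      linarith

end XR1

open XR1 in
theorem p_R1 (F : Type) [Field F] [Fintype F] [CharP F 5] (hB0 : S_B0 F) (hQ : S_Q F) : S_R1 F := by
  obtain ⟨hP, hM, hD, hPc, hMc, -⟩ := hB0
  intro g d₁ d₂ j A A' hd h1 h2 hj hAA
  have hq2 : (2 : ℝ) ≤ qq F := by
    unfold qq
    exact_mod_cast Fintype.one_lt_card (α := F)
  have hq0 : 0 < qq F := by linarith
  set q := qq F with hqdef
  set M := min A' (j + 1) with hMdef
  set I : Finset (Σ _ : ℕ, F[X]) := (Finset.range M).sigma (fun i => MON F i) with hI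
  have hImem : ∀ x ∈ I, x.1 < A' ∧ x.1 ≤ j ∧ x.2.Monic ∧ x.2.natDegree = x.1 := by
    intro x hx
    rw [hI, Finset.mem_sigma, Finset.mem_range, hM] at hx
    have := lt_min_iff.1 hx.1
    exact ⟨this.1, by omega, hx.2.1, hx.2.2⟩
  -- pointwise
  have hpt : ∀ b ∈ (DEG F j).filter (fun b => Squarefree b), ∀ α ∈ POL F A,
      ∀ β ∈ (POL F A').filter (fun β => β ≠ 0), ((PR d₁ d₂ b α β).card : ℝ) ≤
        ∑ x ∈ I, (q ^ (g + 3 + x.1) / q ^ j) * (ind x.2 b * (ind x.2 α * ind x.2 β)) := by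
    intro b hb α _ β hβ
    rw [Finset.mem_filter, hD] at hb
    rw [Finset.mem_filter, hP] at hβ
    obtain ⟨⟨hb0, hbj⟩, hbs⟩ := hb
    obtain ⟨hβA, hβ0⟩ := hβ
    obtain ⟨m, hm, hmb, hmα, hmβ, hcard⟩ :=
      hQ g d₁ d₂ b α β hd h1 h2 hb0 hbs (by rw [hbj]; exact hj) (Or.inr hβ0)
    rw [hbj] at hcard
    have hmj : m.natDegree ≤ j := hbj ▸ natDegree_le_of_dvd hmb hb0
    have hmA : m.natDegree < A' := by
      have h3 : β.natDegree < A' := (natDegree_lt_iff_degree_lt hβ0).2 hβA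
      exact (natDegree_le_of_dvd hmβ hβ0).trans_lt h3
    have hmI : (⟨m.natDegree, m⟩ : Σ _ : ℕ, F[X]) ∈ I := by
      rw [hI, Finset.mem_sigma, Finset.mem_range, hM]
      exact ⟨lt_min hmA (by show m.natDegree < j + 1; omega), hm, rfl⟩
    have hterm : ((PR d₁ d₂ b α β).card : ℝ) ≤
        (q ^ (g + 3 + m.natDegree) / q ^ j) * (ind m b * (ind m α * ind m β)) := by
      have e1 : ind m b = 1 := by unfold ind; rw [if_pos hmb]
      have e2 : ind m α = 1 := by unfold ind; rw [if_pos hmα]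
      have e3 : ind m β = 1 := by unfold ind; rw [if_pos hmβ]
      rw [e1, e2, e3, mul_one, mul_one, mul_one, le_div_iff₀ (by positivity)]
      rw [hqdef]
      unfold qq
      exact_mod_cast hcard
    refine hterm.trans ?_
    exact Finset.single_le_sum (f := fun x : (Σ _ : ℕ, F[X]) =>
      (q ^ (g + 3 + x.1) / q ^ j) * (ind x.2 b * (ind x.2 α * ind x.2 β)))
      (fun x _ => mul_nonneg (by positivity) (mul_nonneg (ind_nonneg _ _)
        (mul_nonneg (ind_nonneg _ _) (ind_nonneg _ _)))) hmI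
  have hsum : ∑ b ∈ (DEG F j).filter (fun b => Squarefree b), ∑ α ∈ POL F A,
      ∑ β ∈ (POL F A').filter (fun β => β ≠ 0), ((PR d₁ d₂ b α β).card : ℝ) ≤
      ∑ b ∈ (DEG F j).filter (fun b => Squarefree b), ∑ α ∈ POL F A,
      ∑ β ∈ (POL F A').filter (fun β => β ≠ 0), ∑ x ∈ I,
        (q ^ (g + 3 + x.1) / q ^ j) * (ind x.2 b * (ind x.2 α * ind x.2 β)) :=
    Finset.sum_le_sum fun b hb => Finset.sum_le_sum fun α hα => Finset.sum_le_sum fun β hβ =>
      hpt b hb α hα β hβ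
  refine hsum.trans ?_
  rw [swap _ _ _ I (fun x => q ^ (g + 3 + x.1) / q ^ j) (fun x y => ind x.2 y)]
  have hterm2 : ∀ x ∈ I, (q ^ (g + 3 + x.1) / q ^ j) *
      ((∑ b ∈ (DEG F j).filter (fun b => Squarefree b), ind x.2 b) *
        ((∑ α ∈ POL F A, ind x.2 α) * ∑ β ∈ (POL F A').filter (fun β => β ≠ 0), ind x.2 β)) ≤
      q ^ (g + 4 + A + A') * ((1 / q) ^ x.1 * (1 / q) ^ x.1) := by
    intro x hx
    obtain ⟨hxA', hxj, hxm, hxd⟩ := hImem x hx
    have k1 : ∑ b ∈ (DEG F j).filter (fun b => Squarefree b), ind x.2 b ≤ q ^ (j + 1 - x.1) := by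
      rw [← hxd]
      refine sum_ind_le hP hPc x.2 hxm (j + 1) _ ?_
      intro b hb
      rw [Finset.mem_filter, hD] at hb
      rw [hP]
      exact (natDegree_lt_iff_degree_lt hb.1.1).1 (by rw [hb.1.2]; omega)
    have k2 : ∑ α ∈ POL F A, ind x.2 α ≤ q ^ (A - x.1) := by
      rw [← hxd]
      exact sum_ind_le hP hPc x.2 hxm A _ (Finset.Subset.refl _)
    have k3 : ∑ β ∈ (POL F A').filter (fun β => β ≠ 0), ind x.2 β ≤ q ^ (A' - x.1) := by
      rw [← hxd]
      exact sum_ind_le hP hPc x.2 hxm A' _ (Finset.filter_subset _ _)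
    have n2 : 0 ≤ ∑ α ∈ POL F A, ind x.2 α := Finset.sum_nonneg fun _ _ => ind_nonneg _ _
    have n3 : 0 ≤ ∑ β ∈ (POL F A').filter (fun β => β ≠ 0), ind x.2 β :=
      Finset.sum_nonneg fun _ _ => ind_nonneg _ _
    have k4 : (∑ b ∈ (DEG F j).filter (fun b => Squarefree b), ind x.2 b) *
        ((∑ α ∈ POL F A, ind x.2 α) * ∑ β ∈ (POL F A').filter (fun β => β ≠ 0), ind x.2 β) ≤
        q ^ (j + 1 - x.1) * (q ^ (A - x.1) * q ^ (A' - x.1)) :=
      mul_le_mul k1 (mul_le_mul k2 k3 n3 (by positivity)) (mul_nonneg n2 n3) (by positivity)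
    refine (mul_le_mul_of_nonneg_left k4 (by positivity)).trans (le_of_eq ?_)
    obtain ⟨j', hj'⟩ := Nat.exists_eq_add_of_le hxj
    obtain ⟨a', ha'⟩ := Nat.exists_eq_add_of_le hxA'.le
    obtain ⟨a, ha⟩ := Nat.exists_eq_add_of_le (hxA'.le.trans hAA)
    have s1 : j + 1 - x.1 = j' + 1 := by omega
    have s2 : A - x.1 = a := by omega
    have s3 : A' - x.1 = a' := by omega
    rw [s1, s2, s3, hj', ha, ha', one_div, inv_pow]
    field_simp
    ring
  refine (Finset.sum_le_sum hterm2).trans ?_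
  rw [← Finset.mul_sum, hI, Finset.sum_sigma]
  have e4 : ∀ i ∈ Finset.range M, ∑ _s ∈ MON F i, ((1 / q) ^ i * (1 / q) ^ i) = (1 / q) ^ i := by
    intro i _
    rw [Finset.sum_const, hMc, nsmul_eq_mul]
    have e5 : ((Fintype.card F ^ i : ℕ) : ℝ) = q ^ i := by
      rw [hqdef]
      unfold qq
      push_cast
      rfl
    rw [e5, ← mul_assoc, ← mul_pow, mul_one_div_cancel hq0.ne', one_pow, one_mul]
  rw [Finset.sum_congr rfl e4]
  have h5 := geom hq2 M
  have h6 : 0 ≤ q ^ (g + 4 + A + A') := by positivity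
  nlinarith

end D5
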