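import Pool.Agent.H506.D5.Stm2

/-!
# R2: counting the pairs with a large radical by an injection
-/

open Polynomial
open scoped Classical

noncomputable section

namespace D5

namespace XR2

lemma rr_zero {F : Type} [Field F] (g : ℕ) : rr g (0 : Fin g → F) = 0 := by
  have h : Ann g (0 : Fin g → F) 0 := by
    refine ⟨1, one_ne_zero, by rw [natDegree_one], fun i _ => ?_⟩
    unfold mu
    exact Finset.sum_eq_zero fun j _ => by rw [Pi.zero_apply, zero_mul]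
  exact Nat.le_zero.1 (Nat.sInf_le h)

variable {F : Type} [Field F] [Fintype F] [CharP F 5]

/-- the chosen generators -/
lemma bb_val (hFR : S_FR F) (hP0 : S_P0 F) (g : ℕ) (l : Fin g → F) (hl : l ≠ 0) :
    Val g l (rr g l) (fr (bb g l).1) (fr (bb g l).2) := by
  have h : ∃ p : F[X] × F[X], Val g l (rr g l) (fr p.1) (fr p.2) := by
    obtain ⟨B₁, B₂, h⟩ := hP0 g l hl
    obtain ⟨b₁, rfl⟩ := hFR.2.2.2.2.1 B₁
    obtain ⟨b₂, rfl⟩ := hFR.2.2.2.2.1 B₂
    exact ⟨(b₁, b₂), h⟩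
  have h1 : bb g l = h.choose := by
    unfold bb
    rw [dif_pos h]
  rw [h1]
  exact h.choose_spec

lemma cop_ne_zero {d₁ d₂ : ℕ} (h1 : 1 ≤ d₁) (h2 : 1 ≤ d₂) {b₁ b₂ : F[X]} (h : Cop d₁ d₂ b₁ b₂) :
    b₁ ≠ 0 := by
  rintro rfl
  obtain ⟨hc, _, _, h3⟩ := h
  have hu : IsUnit b₂ := isCoprime_zero_left.1 hc
  rcases h3 with h3 | h3
  · rw [natDegree_zero] at h3
    omega
  · rw [natDegree_eq_zero_of_isUnit hu] at h3
    omega

lemma mem_POL (hB0 : S_B0 F) {n : ℕ} {p : F[X]} : p ∈ POL F n ↔ ∀ i, n ≤ i → p.coeff i = 0 := by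
  rw [hB0.1, degree_lt_iff_coeff_zero]

lemma fr_mem (hB0 : S_B0 F) (hFR : S_FR F) {n : ℕ} {p : F[X]} (h : p ∈ POL F n) : fr p ∈ POL F n := by
  rw [mem_POL hB0] at h ⊢
  intro i hi
  rw [hFR.1, h i hi, zero_pow (by norm_num)]

lemma pow_char (x y : F[X]) : (x + y) ^ 5 = x ^ 5 + y ^ 5 := by
  haveI : Fact (Nat.Prime 5) := ⟨by norm_num⟩
  exact add_pow_char x y 5

lemma mul_mem (hB0 : S_B0 F) {m n t : ℕ} {c b : F[X]} (hc : c ∈ POL F (m + 1)) (hb : b ∈ POL F n)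
    (hb0 : b ≠ 0) (h : 5 * m + n = t) : c ^ 5 * b ∈ POL F t := by
  rw [hB0.1] at hc hb ⊢
  have h1 : b.natDegree < n := (natDegree_lt_iff_degree_lt hb0).2 hb
  have h2 : c.natDegree ≤ m := by
    by_cases h0 : c = 0
    · rw [h0, natDegree_zero]
      exact Nat.zero_le _
    · have := (natDegree_lt_iff_degree_lt h0).2 hc
      omega
  have h3 : (c ^ 5 * b).natDegree < t := by
    have h4 : (c ^ 5 * b).natDegree ≤ (c ^ 5).natDegree + b.natDegree := natDegree_mul_le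
    have h5 : (c ^ 5).natDegree ≤ 5 * c.natDegree := natDegree_pow_le
    omega
  by_cases h0 : c ^ 5 * b = 0
  · rw [h0, degree_zero]
    exact WithBot.bot_lt_coe _
  · exact (natDegree_lt_iff_degree_lt h0).1 h3

lemma sub_mem (hB0 : S_B0 F) {n : ℕ} {a b : F[X]} (ha : a ∈ POL F n) (hb : b ∈ POL F n) :
    a - b ∈ POL F n := by
  rw [mem_POL hB0] at ha hb ⊢
  intro i hi
  rw [coeff_sub, ha i hi, hb i hi, sub_zero]

lemma natDegree_mem (hB0 : S_B0 F) {n : ℕ} {a : F[X]} (h : a.natDegree ≤ n) : a ∈ POL F (n + 1) := by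
  rw [mem_POL hB0]
  intro i hi
  exact coeff_eq_zero_of_natDegree_lt (by omega)

end XR2

open XR2 in
theorem p_R2 (F : Type) [Field F] [Fintype F] [CharP F 5] (hB0 : S_B0 F) (hFR : S_FR F)
    (hE4 : S_E4 F) (hP0 : S_P0 F) (hP0b : S_P0b F) (hR1 : S_R1 F) : S_R2 F := by
  intro g d n j k a ha hn hk hd
  set S : Finset ((Fin g → F) × F[X]) :=
    ((Finset.univ : Finset (Fin g → F)) ×ˢ DEG F j).filter (fun p => rr g p.1 = d ∧
      Squarefree p.2 ∧ NL g p.1 (a ^ 2 * p.2) k) with hS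
  have hq : 0 < qq F := by
    unfold qq
    exact_mod_cast Fintype.card_pos
  rcases S.eq_empty_or_nonempty with hSe | ⟨t₀, ht₀⟩
  · rw [hSe]
    simp only [Finset.card_empty, Nat.cast_zero, zero_mul]
    positivity
  have hmem : ∀ t ∈ S, t.2 ∈ DEG F j ∧ rr g t.1 = d ∧ Squarefree t.2 ∧
      NL g t.1 (a ^ 2 * t.2) k := by
    intro t ht
    rw [hS, Finset.mem_filter, Finset.mem_product] at ht
    exact ⟨ht.1.2, ht.2⟩
  have hd2 : 2 * d ≤ g + 1 := by
    have h := hE4.2.2.1 g t₀.1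
    rw [(hmem t₀ ht₀).2.1] at h
    exact h
  have hl0 : ∀ t ∈ S, t.1 ≠ 0 := by
    intro t ht h0
    have h := (hmem t ht).2.1
    rw [h0, rr_zero] at h
    omega
  have hval : ∀ t ∈ S, Val g t.1 d (fr (bb g t.1).1) (fr (bb g t.1).2) := by
    intro t ht
    have h := bb_val hFR hP0 g t.1 (hl0 t ht)
    rw [(hmem t ht).2.1] at h
    exact h
  set A : ℕ := 3 * g + 5 - k - 5 * d with hA
  set A' : ℕ := 3 * g + 5 - k - 5 * (g + 1 - d) with hA'
  have key : ∀ t : (Fin g → F) × F[X], ∃ ab : F[X] × F[X], t ∈ S → ab.1 ∈ POL F A ∧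
      ab.2 ∈ POL F A' ∧ ab.2 ≠ 0 ∧ t.2 ∣ (bb g t.1).1 ^ 5 * ab.1 + (bb g t.1).2 ^ 5 * ab.2 := by
    intro t
    by_cases ht : t ∈ S
    · obtain ⟨_, h2, _, _, z, α, β, _, h4, h5, h6, h7⟩ := hmem t ht
      rw [h2] at h5 h6
      refine ⟨(α, β), fun _ => ⟨h5, h6, h7, ?_⟩⟩
      rw [← h4]
      exact ⟨a ^ 2 * z, by ring⟩
    · exact ⟨(0, 0), fun h => absurd h ht⟩
  choose ab hab using key
  -- the numbers
  have hA1 : 1 ≤ A' := by
    obtain ⟨_, h1, h2, _⟩ := hab t₀ ht₀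
    by_contra h0
    have h3 : A' = 0 := by omega
    rw [h3, mem_POL hB0] at h1
    exact h2 (Polynomial.ext fun i => by rw [h1 i (Nat.zero_le _), coeff_zero])
  have hAA : A + A' + 2 * k = g + 5 := by omega
  have hAl : A' ≤ A := by omega
  have hAd : 5 * (g + 1 - 2 * d) + A' = A := by omega
  -- the injection
  let T : Finset (Σ _ : F[X], Σ _ : F[X], Σ _ : F[X], Σ _ : F[X] × F[X], (Fin g → F)) :=
    ((DEG F j).filter (fun b => Squarefree b)).sigma fun b => (POL F A).sigma fun α =>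
      ((POL F A').filter (fun β => β ≠ 0)).sigma fun β => (PR d (g + 1 - d) b α β).sigma fun p =>
        (Finset.univ : Finset (Fin g → F)).filter (fun l => Val g l d (fr p.1) (fr p.2))
  let φ : ((Fin g → F) × F[X]) × F[X] →
      (Σ _ : F[X], Σ _ : F[X], Σ _ : F[X], Σ _ : F[X] × F[X], (Fin g → F)) := fun u =>
    ⟨u.1.2, (ab u.1).1 - u.2 ^ 5 * (ab u.1).2, (ab u.1).2,
      ((bb g u.1.1).1, (bb g u.1.1).2 + (bb g u.1.1).1 * u.2), u.1.1⟩
  have hφT : ∀ u ∈ S ×ˢ POL F (g + 2 - 2 * d), φ u ∈ T := by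
    rintro ⟨t, c⟩ hu
    obtain ⟨ht, hc⟩ := Finset.mem_product.1 hu
    replace ht : t ∈ S := ht
    replace hc : c ∈ POL F (g + 2 - 2 * d) := hc
    obtain ⟨h1, h2, h3, h4⟩ := hmem t ht
    obtain ⟨h5, h6, h7, h8⟩ := hab t ht
    have h9 : Val g t.1 d (fr (bb g t.1).1) (fr ((bb g t.1).2 + (bb g t.1).1 * c)) := by
      rw [hFR.2.1, hFR.2.2.1]
      exact hP0b.2 g d t.1 _ _ _ hd hd2 (hval t ht) (fr_mem hB0 hFR hc)
    have h10 : Cop d (g + 1 - d) (bb g t.1).1 ((bb g t.1).2 + (bb g t.1).1 * c) :=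
      (hFR.2.2.2.2.2.2.2 _ _ _ _).1 h9.1
    have hc' : c ∈ POL F ((g + 1 - 2 * d) + 1) := by
      have : (g + 1 - 2 * d) + 1 = g + 2 - 2 * d := by omega
      rw [this]
      exact hc
    refine Finset.mem_sigma.2 ⟨Finset.mem_filter.2 ⟨h1, h3⟩, Finset.mem_sigma.2 ⟨?_,
      Finset.mem_sigma.2 ⟨Finset.mem_filter.2 ⟨h6, h7⟩, Finset.mem_sigma.2 ⟨?_,
        Finset.mem_filter.2 ⟨Finset.mem_univ _, h9⟩⟩⟩⟩⟩
    · exact sub_mem hB0 h5 (mul_mem hB0 hc' h6 h7 hAd)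
    · refine Finset.mem_filter.2 ⟨Finset.mem_product.2 ⟨natDegree_mem hB0 h10.2.1,
        natDegree_mem hB0 h10.2.2.1⟩, h10, ?_⟩
      show t.2 ∣ (bb g t.1).1 ^ 5 * ((ab t).1 - c ^ 5 * (ab t).2) +
        ((bb g t.1).2 + (bb g t.1).1 * c) ^ 5 * (ab t).2
      have h11 : (bb g t.1).1 ^ 5 * ((ab t).1 - c ^ 5 * (ab t).2) +
        ((bb g t.1).2 + (bb g t.1).1 * c) ^ 5 * (ab t).2 =
        (bb g t.1).1 ^ 5 * (ab t).1 + (bb g t.1).2 ^ 5 * (ab t).2 := by
        rw [pow_char]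
        ring
      rw [h11]
      exact h8
  have hinj : Set.InjOn φ (S ×ˢ POL F (g + 2 - 2 * d) : Finset (((Fin g → F) × F[X]) × F[X])) := by
    rintro ⟨⟨l, b⟩, c⟩ hu ⟨⟨l', b'⟩, c'⟩ hu' h
    have ht : (l, b) ∈ S := (Finset.mem_product.1 (Finset.mem_coe.1 hu)).1
    have h1 : b = b' := congrArg (fun u => u.1) h
    have h2 : l = l' := congrArg (fun u => u.2.2.2.2) h
    have h3 : (bb g l).2 + (bb g l).1 * c = (bb g l').2 + (bb g l').1 * c' :=
      congrArg (fun u => u.2.2.2.1.2) h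
    subst h1
    subst h2
    have h4 : (bb g l).1 * c = (bb g l).1 * c' := add_left_cancel h3
    have h5 : (bb g l).1 ≠ 0 := by
      have h6 : Cop d (g + 1 - d) (bb g l).1 (bb g l).2 :=
        (hFR.2.2.2.2.2.2.2 _ _ _ _).1 (hval _ ht).1
      exact cop_ne_zero hd (by omega) h6
    rw [mul_left_cancel₀ h5 h4]
  have hcard := Finset.card_le_card_of_injOn φ hφT hinj
  rw [Finset.card_product, hB0.2.2.2.1] at hcard
  have hT : (T.card : ℝ) ≤ (Fintype.card F : ℝ) * (2 * qq F ^ (g + 4 + A + A')) := by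
    have h1 : T.card = ∑ b ∈ (DEG F j).filter (fun b => Squarefree b), ∑ α ∈ POL F A,
        ∑ β ∈ (POL F A').filter (fun β => β ≠ 0), ∑ p ∈ PR d (g + 1 - d) b α β,
          ((Finset.univ : Finset (Fin g → F)).filter
            (fun l => Val g l d (fr p.1) (fr p.2))).card := by
      simp only [T, Finset.card_sigma]
    have h2 : T.card ≤ ∑ b ∈ (DEG F j).filter (fun b => Squarefree b), ∑ α ∈ POL F A,
        ∑ β ∈ (POL F A').filter (fun β => β ≠ 0),
          (PR d (g + 1 - d) b α β).card * Fintype.card F := by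
      rw [h1]
      refine Finset.sum_le_sum fun b _ => Finset.sum_le_sum fun α _ => Finset.sum_le_sum fun β _ => ?_
      rw [← smul_eq_mul]
      refine Finset.sum_le_card_nsmul _ _ _ fun p _ => ?_
      exact hP0b.1 g d _ _ hd hd2
    have h3 : (T.card : ℝ) ≤ ∑ b ∈ (DEG F j).filter (fun b => Squarefree b), ∑ α ∈ POL F A,
        ∑ β ∈ (POL F A').filter (fun β => β ≠ 0),
          ((PR d (g + 1 - d) b α β).card : ℝ) * (Fintype.card F : ℝ) := by
      have h4 : (T.card : ℝ) ≤ ((∑ b ∈ (DEG F j).filter (fun b => Squarefree b), ∑ α ∈ POL F A,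
        ∑ β ∈ (POL F A').filter (fun β => β ≠ 0),
          (PR d (g + 1 - d) b α β).card * Fintype.card F : ℕ) : ℝ) := by exact_mod_cast h2
      push_cast at h4
      exact h4
    refine h3.trans ?_
    simp only [← Finset.sum_mul]
    rw [mul_comm]
    refine mul_le_mul_of_nonneg_left ?_ (Nat.cast_nonneg _)
    exact hR1 g d (g + 1 - d) j A A' (by omega) hd (by omega) (by omega) hAl
  have hfin : (S.card : ℝ) * qq F ^ (g + 2 - 2 * d) ≤ qq F * (2 * qq F ^ (g + 4 + A + A')) := by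
    refine le_trans ?_ hT
    have : ((S.card * Fintype.card F ^ (g + 2 - 2 * d) : ℕ) : ℝ) ≤ (T.card : ℝ) := by
      exact_mod_cast hcard
    push_cast at this
    exact this
  have hpos : 0 < qq F ^ (g + 2 - 2 * d) := pow_pos hq _
  refine le_of_mul_le_mul_right ?_ hpos
  have e1 : 2 * qq F ^ (g + 8 + 2 * d) * qq F ^ (g + 2 - 2 * d) =
      (qq F * (2 * qq F ^ (g + 4 + A + A'))) * qq F ^ (2 * k) := by
    have e2 : qq F ^ (g + 8 + 2 * d) * qq F ^ (g + 2 - 2 * d) = qq F ^ (2 * g + 10) := by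
      rw [← pow_add]
      congr 1
      omega
    have e3 : qq F * qq F ^ (g + 4 + A + A') * qq F ^ (2 * k) = qq F ^ (2 * g + 10) := by
      rw [← pow_succ', ← pow_add]
      congr 1
      omega
    rw [mul_assoc, e2, ← e3]
    ring
  rw [e1]
  calc (S.card : ℝ) * qq F ^ (2 * k) * qq F ^ (g + 2 - 2 * d)
      = (S.card : ℝ) * qq F ^ (g + 2 - 2 * d) * qq F ^ (2 * k) := by ring
    _ ≤ _ := mul_le_mul_of_nonneg_right hfin (pow_pos hq _).le

end D5
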