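import Pool.Agent.H506.D5.Stm2

/-!
# SQ: every nonzero polynomial is `a² b`, `a` monic, `b` squarefree (helper93 for helper506)
-/

open Polynomial
open scoped Classical

noncomputable section

namespace D5

namespace XSQ

theorem sq_aux (F : Type) [Field F] (n : ℕ) : ∀ v : F[X], v ≠ 0 → v.natDegree ≤ n →
    ∃ a b : F[X], a.Monic ∧ b ≠ 0 ∧ Squarefree b ∧ v = a ^ 2 * b := by
  induction n with
  | zero =>
    intro v hv hn
    refine ⟨1, v, monic_one, hv, ?_, by rw [one_pow, one_mul]⟩
    have h1 : v.natDegree = 0 := Nat.le_zero.mp hn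
    have h2 : IsUnit v := by
      rw [eq_C_of_natDegree_eq_zero h1] at hv ⊢
      rw [isUnit_C]
      exact isUnit_iff_ne_zero.mpr (fun h => hv (by rw [h, C_0]))
    exact h2.squarefree
  | succ n ih =>
    intro v hv hn
    by_cases hs : Squarefree v
    · exact ⟨1, v, monic_one, hv, hs, by rw [one_pow, one_mul]⟩
    · unfold Squarefree at hs
      rw [not_forall] at hs
      obtain ⟨x, hx⟩ := hs
      rw [Classical.not_imp] at hx
      obtain ⟨⟨c, hc⟩, hxu⟩ := hx
      have hx0 : x ≠ 0 := by
        rintro rfl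
        apply hv
        rw [hc, zero_mul, zero_mul]
      have hc0 : c ≠ 0 := by
        rintro rfl
        apply hv
        rw [hc, mul_zero]
      have hxd : 1 ≤ x.natDegree := by
        rw [Nat.one_le_iff_ne_zero]
        intro h
        apply hxu
        rw [eq_C_of_natDegree_eq_zero h] at hx0 ⊢
        rw [isUnit_C]
        exact isUnit_iff_ne_zero.mpr (fun h => hx0 (by rw [h, C_0]))
      have hd : v.natDegree = x.natDegree + x.natDegree + c.natDegree := by
        rw [hc, natDegree_mul (mul_ne_zero hx0 hx0) hc0, natDegree_mul hx0 hx0]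
      obtain ⟨a, b, ha, hb0, hb, hab⟩ := ih c hc0 (by omega)
      have hl : x.leadingCoeff ≠ 0 := leadingCoeff_ne_zero.mpr hx0
      have hxm : (x * C x.leadingCoeff⁻¹).Monic := monic_mul_leadingCoeff_inv hx0
      have hxx : x = C x.leadingCoeff * (x * C x.leadingCoeff⁻¹) := by
        have h1 : C x.leadingCoeff * (x * C x.leadingCoeff⁻¹) =
            x * (C x.leadingCoeff * C x.leadingCoeff⁻¹) := by ring
        rw [h1, ← C_mul, mul_inv_cancel₀ hl, C_1, mul_one]
      obtain ⟨y, hy⟩ : ∃ y, y = x * C x.leadingCoeff⁻¹ := ⟨_, rfl⟩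
      rw [← hy] at hxm hxx
      have hu : IsUnit (C x.leadingCoeff ^ 2) :=
        (isUnit_C.mpr (isUnit_iff_ne_zero.mpr hl)).pow 2
      refine ⟨y * a, C x.leadingCoeff ^ 2 * b, hxm.mul ha, ?_, ?_, ?_⟩
      · exact mul_ne_zero hu.ne_zero hb0
      · exact hb.squarefree_of_dvd (hu.dvd_mul_left.mp dvd_rfl)
      · rw [hc, hab]
        nth_rewrite 1 [hxx]
        nth_rewrite 2 [hxx]
        ring

end XSQ

theorem p_SQ (F : Type) [Field F] [Fintype F] [CharP F 5] : S_SQ F :=
  fun v hv => XSQ.sq_aux F v.natDegree v hv le_rfl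

end D5
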