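import Pool.Agent.H506.D5.Stm2

/-!
# Project D5, T0 (helper264 for helper506)
-/

set_option autoImplicit false

open Polynomial
open scoped Classical

noncomputable section

namespace D5

namespace XT0

theorem qq_ge (F : Type) [Field F] [Fintype F] [CharP F 5] : (5 : ℝ) ≤ qq F := by
  obtain ⟨n, _, hn⟩ := FiniteField.card F 5
  unfold qq
  rw [hn]
  have h1 : 5 ^ 1 ≤ 5 ^ (n : ℕ) := Nat.pow_le_pow_right (by norm_num) n.pos
  have h2 : 5 ≤ 5 ^ (n : ℕ) := by simpa using h1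
  exact_mod_cast h2

theorem geo (m : ℕ) : ∑ k ∈ Finset.Icc 1 m, (10 / 13 : ℝ) ^ k ≤ 10 / 3 := by
  have h : ∑ k ∈ Finset.Icc 1 m, (10 / 13 : ℝ) ^ k = 10 / 3 * (1 - (10 / 13) ^ m) := by
    induction m with
    | zero => simp
    | succ m ih =>
      rw [Finset.sum_Icc_succ_top (by omega), ih, pow_succ]
      ring
  rw [h]
  have : (0 : ℝ) ≤ (10 / 13) ^ m := by positivity
  linarith

theorem term {q B s N : ℝ} (k : ℕ) (hs : 0 < s) (hq : s ^ 6 = q) (hN : 0 ≤ N) (hB : 0 ≤ B)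
    (h : N ^ 3 * q ^ (2 * k) ≤ 2 * B ^ 3) : N * Real.sqrt (q ^ k) ≤ 3 / 2 * B * (1 / s) ^ k := by
  obtain ⟨t, htd⟩ : ∃ t : ℝ, t = s ^ k := ⟨_, rfl⟩
  have ht : 0 < t := by rw [htd]; exact pow_pos hs k
  have h1 : q ^ k = t ^ 6 := by rw [← hq, htd, ← pow_mul, ← pow_mul, mul_comm]
  have h2 : q ^ (2 * k) = (t ^ 4) ^ 3 := by
    rw [show q ^ (2 * k) = (q ^ k) ^ 2 by rw [← pow_mul, mul_comm], h1]
    ring
  have h3 : Real.sqrt (q ^ k) = t ^ 3 := by
    rw [h1, show t ^ 6 = (t ^ 3) ^ 2 by ring, Real.sqrt_sq (by positivity)]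
  have h4 : (N * t ^ 4) ^ 3 ≤ (3 / 2 * B) ^ 3 := by
    rw [mul_pow, ← h2, mul_pow]
    have : 0 ≤ B ^ 3 := by positivity
    nlinarith
  have h5 : N * t ^ 4 ≤ 3 / 2 * B :=
    (pow_le_pow_iff_left₀ (by positivity) (by positivity) (by norm_num)).1 h4
  rw [h3, one_div, inv_pow, ← htd, ← div_eq_mul_inv, le_div_iff₀ ht]
  calc N * t ^ 3 * t = N * t ^ 4 := by ring
    _ ≤ _ := h5

end XT0

theorem p_T0 (F : Type) [Field F] [Fintype F] [CharP F 5] (hB0 : S_B0 F) (hE4 : S_E4 F)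
    (hR2 : S_R2 F) : S_T0 F := by
  intro g d n j a ha hnj hd
  obtain ⟨_, _, _, _, _, hDEG⟩ := hB0
  have hq5 := XT0.qq_ge F
  obtain ⟨q, hq⟩ : ∃ q : ℝ, q = qq F := ⟨_, rfl⟩
  rw [← hq] at hq5 ⊢
  have hq0 : 0 < q := by linarith
  obtain ⟨s, hs⟩ : ∃ s : ℝ, s = q ^ ((1 : ℝ) / 6) := ⟨_, rfl⟩
  have hs0 : 0 < s := by rw [hs]; positivity
  have hs6 : s ^ 6 = q := by
    rw [hs, ← Real.rpow_natCast, ← Real.rpow_mul hq0.le]
    norm_num
  have hs1 : 13 / 10 ≤ s := by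
    by_contra hc
    push Not at hc
    have h1 : s ^ 6 < (13 / 10 : ℝ) ^ 6 := pow_lt_pow_left₀ hc hs0.le (by norm_num)
    rw [hs6] at h1
    norm_num at h1
    linarith
  obtain ⟨B, hB⟩ : ∃ B : ℝ, B = q ^ (2 * (d : ℝ) + (2 * (j : ℝ) + (g : ℝ)) / 3 + 4) := ⟨_, rfl⟩
  have hB0 : 0 < B := by rw [hB]; positivity
  have hB3 : B ^ 3 = q ^ (6 * d + 2 * j + g + 12) := by
    rw [hB, ← Real.rpow_natCast, ← Real.rpow_mul hq0.le, ← Real.rpow_natCast]
    have h1 : (2 * (d : ℝ) + (2 * (j : ℝ) + (g : ℝ)) / 3 + 4) * ((3 : ℕ) : ℝ) =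
        ((6 * d + 2 * j + g + 12 : ℕ) : ℝ) := by
      push_cast
      ring
    rw [h1]
  rw [← hB]
  obtain ⟨U, hU⟩ : ∃ U : Finset ((Fin g → F) × F[X]), U = (Finset.univ : Finset (Fin g → F)) ×ˢ DEG F j :=
    ⟨_, rfl⟩
  -- the bound for fixed `k`
  have hk : ∀ k, 1 ≤ k → ((U.filter (fun p => rr g p.1 = d ∧ Squarefree p.2 ∧
      NL g p.1 (a ^ 2 * p.2) k)).card : ℝ) * Real.sqrt (q ^ k) ≤ 3 / 2 * B * (1 / s) ^ k := by
    intro k hk1
    refine XT0.term k hs0 hs6 (Nat.cast_nonneg _) hB0.le ?_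
    have hR := hR2 g d n j k a ha hnj hk1 hd
    rw [← hU, ← hq] at hR
    obtain ⟨N, hN⟩ : ∃ N : ℕ, N = (U.filter (fun p => rr g p.1 = d ∧ Squarefree p.2 ∧
      NL g p.1 (a ^ 2 * p.2) k)).card := ⟨_, rfl⟩
    rw [← hN] at hR ⊢
    have hX : (N : ℝ) ≤ q ^ (2 * d + j + 2) := by
      have h1 : N ≤ Fintype.card F ^ (2 * d + 1) * (Fintype.card F * Fintype.card F ^ j) := by
        rw [hN]
        calc (U.filter (fun p => rr g p.1 = d ∧ Squarefree p.2 ∧ NL g p.1 (a ^ 2 * p.2) k)).card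
            ≤ (((Finset.univ : Finset (Fin g → F)).filter (fun l => rr g l = d)) ×ˢ DEG F j).card := by
              refine Finset.card_le_card ?_
              intro p hp
              rw [Finset.mem_filter, hU, Finset.mem_product] at hp
              rw [Finset.mem_product, Finset.mem_filter]
              exact ⟨⟨Finset.mem_univ _, hp.2.1⟩, hp.1.2⟩
          _ = ((Finset.univ : Finset (Fin g → F)).filter (fun l => rr g l = d)).card * (DEG F j).card :=
              Finset.card_product _ _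
          _ ≤ _ := by
              refine Nat.mul_le_mul (hE4.1 g d) ?_
              rw [hDEG j]
              exact Nat.mul_le_mul_right _ (Nat.sub_le _ _)
      have h2 : ((Fintype.card F : ℕ) : ℝ) = q := by rw [hq]; rfl
      have h3 : (N : ℝ) ≤ q ^ (2 * d + 1) * (q * q ^ j) := by
        rw [← h2]
        exact_mod_cast h1
      refine h3.trans (le_of_eq ?_)
      rw [← pow_succ', ← pow_add]
      ring_nf
    have hN0 : (0 : ℝ) ≤ N := Nat.cast_nonneg N
    calc (N : ℝ) ^ 3 * q ^ (2 * k) = N ^ 2 * (N * q ^ (2 * k)) := by ring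
      _ ≤ (q ^ (2 * d + j + 2)) ^ 2 * (2 * q ^ (g + 8 + 2 * d)) :=
          mul_le_mul (pow_le_pow_left₀ hN0 hX 2) hR (by positivity) (by positivity)
      _ = 2 * B ^ 3 := by
          rw [hB3, ← pow_mul]
          rw [show 6 * d + 2 * j + g + 12 = (2 * d + j + 2) * 2 + (g + 8 + 2 * d) by ring, pow_add]
          ring
  -- the sum over `k`
  rw [← hU]
  have hsum : ∑ p ∈ U.filter (fun p => rr g p.1 = d ∧ Squarefree p.2 ∧
      ∃ k, NL g p.1 (a ^ 2 * p.2) k), Real.sqrt (KK g p.1 (a ^ 2 * p.2) : ℝ) ≤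
      ∑ k ∈ Finset.Icc 1 (2 * g + 1), ((U.filter (fun p => rr g p.1 = d ∧ Squarefree p.2 ∧
      NL g p.1 (a ^ 2 * p.2) k)).card : ℝ) * Real.sqrt (q ^ k) := by
    calc ∑ p ∈ U.filter (fun p => rr g p.1 = d ∧ Squarefree p.2 ∧
          ∃ k, NL g p.1 (a ^ 2 * p.2) k), Real.sqrt (KK g p.1 (a ^ 2 * p.2) : ℝ)
        ≤ ∑ p ∈ U.filter (fun p => rr g p.1 = d ∧ Squarefree p.2 ∧
          ∃ k, NL g p.1 (a ^ 2 * p.2) k), ∑ k ∈ Finset.Icc 1 (2 * g + 1),
            (if NL g p.1 (a ^ 2 * p.2) k then Real.sqrt (q ^ k) else 0) := by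
          refine Finset.sum_le_sum fun p hp => ?_
          rw [Finset.mem_filter] at hp
          obtain ⟨_, _, _, k, hNL⟩ := hp
          have hNL' := hNL
          obtain ⟨hk1, z, α, β, hGP, _⟩ := hNL'
          have hmem : k ∈ Finset.Icc 1 (2 * g + 1) := Finset.mem_Icc.2 ⟨hk1, hGP.2.1⟩
          have hKK : (KK g p.1 (a ^ 2 * p.2) : ℝ) = q ^ k := by
            rw [hGP.1, hq]
            unfold qq
            push_cast
            rfl
          have h1 := Finset.single_le_sum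
            (f := fun k => (if NL g p.1 (a ^ 2 * p.2) k then Real.sqrt (q ^ k) else 0))
            (fun i _ => by
              split_ifs
              · exact Real.sqrt_nonneg _
              · exact le_rfl) hmem
          refine le_trans (le_of_eq ?_) h1
          show _ = (if NL g p.1 (a ^ 2 * p.2) k then Real.sqrt (q ^ k) else 0)
          rw [if_pos hNL, hKK]
      _ = ∑ k ∈ Finset.Icc 1 (2 * g + 1), ∑ p ∈ U.filter (fun p => rr g p.1 = d ∧ Squarefree p.2 ∧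
          ∃ k, NL g p.1 (a ^ 2 * p.2) k),
            (if NL g p.1 (a ^ 2 * p.2) k then Real.sqrt (q ^ k) else 0) := Finset.sum_comm
      _ ≤ _ := by
          refine Finset.sum_le_sum fun k _ => ?_
          rw [← Finset.sum_filter, Finset.sum_const, nsmul_eq_mul]
          refine mul_le_mul_of_nonneg_right ?_ (Real.sqrt_nonneg _)
          refine Nat.cast_le.2 (Finset.card_le_card ?_)
          intro p hp
          rw [Finset.mem_filter, Finset.mem_filter] at hp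
          rw [Finset.mem_filter]
          exact ⟨hp.1.1, hp.1.2.1, hp.1.2.2.1, hp.2⟩
  refine hsum.trans ?_
  calc ∑ k ∈ Finset.Icc 1 (2 * g + 1), ((U.filter (fun p => rr g p.1 = d ∧ Squarefree p.2 ∧
          NL g p.1 (a ^ 2 * p.2) k)).card : ℝ) * Real.sqrt (q ^ k)
      ≤ ∑ k ∈ Finset.Icc 1 (2 * g + 1), 3 / 2 * B * (10 / 13 : ℝ) ^ k := by
        refine Finset.sum_le_sum fun k hk' => ?_
        refine (hk k (Finset.mem_Icc.1 hk').1).trans ?_
        refine mul_le_mul_of_nonneg_left ?_ (by positivity)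
        refine pow_le_pow_left₀ (by positivity) ?_ k
        rw [div_le_div_iff₀ hs0 (by norm_num)]
        linarith
    _ = 3 / 2 * B * ∑ k ∈ Finset.Icc 1 (2 * g + 1), (10 / 13 : ℝ) ^ k := by rw [Finset.mul_sum]
    _ ≤ 3 / 2 * B * (10 / 3) := mul_le_mul_of_nonneg_left (XT0.geo _) (by positivity)
    _ = 5 * B := by ring

end D5
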