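import Pool.Agent.H506.D5.Stm2

/-!
# T2: assembly of the two parts (helper102)
-/

open Polynomial
open scoped Classical

noncomputable section

namespace D5

namespace XT2

variable {F : Type} [Field F] [Fintype F] [CharP F 5]

theorem one_lt_qq : 1 < qq F := by
  unfold qq
  exact_mod_cast Fintype.one_lt_card

/-- the bound for one form `l` and one `v` -/
theorem point (hB0 : S_B0 F) (hFR : S_FR F) (hE4 : S_E4 F) (hP0 : S_P0 F) (hP2 : S_P2 F) (hG : S_G F)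
    (g : ℕ) (l : Fin g → F) (hl : l ≠ 0) (v : F[X]) (hv : v ∈ POL F g) (hv0 : v ≠ 0) :
    Real.sqrt (KK g l v : ℝ) = 1 ∨ (∃ k, NL g l v k) ∨ ∃ k, LO g l v k := by
  obtain ⟨k, z, hKK, hk, hz0, hz⟩ := hG g l v hv hv0
  rcases Nat.eq_zero_or_pos k with h0 | h1
  · left
    rw [hKK, h0, pow_zero, Nat.cast_one, Real.sqrt_one]
  · right
    obtain ⟨hz1, hz2⟩ := hz h1
    have hd1 : 1 ≤ rr g l := by
      rcases Nat.eq_zero_or_pos (rr g l) with h | h
      · exact absurd (hE4.2.2.2 g l h) hl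
      · exact h
    have hbb : Val g l (rr g l) (fr (bb g l).1) (fr (bb g l).2) := by
      have hex : ∃ p : F[X] × F[X], Val g l (rr g l) (fr p.1) (fr p.2) := by
        obtain ⟨B₁, B₂, hV⟩ := hP0 g l hl
        obtain ⟨b₁, rfl⟩ := hFR.2.2.2.2.1 B₁
        obtain ⟨b₂, rfl⟩ := hFR.2.2.2.2.1 B₂
        exact ⟨(b₁, b₂), hV⟩
      unfold bb
      rw [dif_pos hex]
      exact hex.choose_spec
    have hg1 : 1 ≤ g := by
      have h2 := (hB0.1 g v).1 hv
      rcases Nat.eq_zero_or_pos g with h | h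
      · rw [h, Nat.cast_zero] at h2
        exact absurd (Polynomial.degree_eq_bot.1 (Nat.WithBot.lt_zero_iff.1 h2)) hv0
      · exact h
    have hvd : v.natDegree < g := (Polynomial.natDegree_lt_iff_degree_lt hv0).2 ((hB0.1 g v).1 hv)
    have hzd : z.natDegree < 2 * g + 2 - k :=
      (Polynomial.natDegree_lt_iff_degree_lt hz0).2 ((hB0.1 _ z).1 hz1)
    have hvz : v * z ≠ 0 := mul_ne_zero hv0 hz0
    have hw : v * z ∈ POL F (3 * g + 1 - k) := by
      rw [hB0.1, ← Polynomial.natDegree_lt_iff_degree_lt hvz, Polynomial.natDegree_mul hv0 hz0]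
      omega
    obtain ⟨α, β, he, hα, hβ⟩ := hP2 g l (bb g l).1 (bb g l).2 hd1 hbb k (v * z) hk (by omega) hw hz2
    by_cases hβ0 : β = 0
    · right
      refine ⟨k, h1, z, α, ⟨hKK, hk, hz0, hz⟩, ?_, hα⟩
      rw [he, hβ0, mul_zero, add_zero]
    · left
      exact ⟨k, h1, z, α, β, ⟨hKK, hk, hz0, hz⟩, he, hα, hβ, hβ0⟩

/-- the sum over `v` for one form `l` -/
theorem inner (hB0 : S_B0 F) (hFR : S_FR F) (hE4 : S_E4 F) (hP0 : S_P0 F) (hP2 : S_P2 F) (hG : S_G F)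
    (g : ℕ) (l : Fin g → F) (hl : l ≠ 0) :
    ∑ v ∈ (POL F g).filter (fun v => v ≠ 0), Real.sqrt (KK g l v : ℝ) ≤ qq F ^ g +
      ∑ v ∈ (POL F g).filter (fun v => v ≠ 0 ∧ ∃ k, NL g l v k), Real.sqrt (KK g l v : ℝ) +
      ∑ v ∈ (POL F g).filter (fun v => v ≠ 0 ∧ ∃ k, LO g l v k), Real.sqrt (KK g l v : ℝ) := by
  obtain ⟨N, hN⟩ : ∃ N, N = (POL F g).filter (fun v => v ≠ 0 ∧ ∃ k, NL g l v k) := ⟨_, rfl⟩
  obtain ⟨O, hO⟩ : ∃ O, O = (POL F g).filter (fun v => v ≠ 0 ∧ ∃ k, LO g l v k) := ⟨_, rfl⟩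
  rw [← hN, ← hO]
  have h1 : ∀ v ∈ (POL F g).filter (fun v => v ≠ 0), Real.sqrt (KK g l v : ℝ) ≤
      1 + (if v ∈ N then Real.sqrt (KK g l v : ℝ) else 0) +
        (if v ∈ O then Real.sqrt (KK g l v : ℝ) else 0) := by
    intro v hv
    obtain ⟨hv1, hv0⟩ := Finset.mem_filter.1 hv
    have hs : 0 ≤ Real.sqrt (KK g l v : ℝ) := Real.sqrt_nonneg _
    have hi1 : 0 ≤ (if v ∈ N then Real.sqrt (KK g l v : ℝ) else 0) := by
      split_ifs
      · exact hs
      · exact le_refl _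
    have hi2 : 0 ≤ (if v ∈ O then Real.sqrt (KK g l v : ℝ) else 0) := by
      split_ifs
      · exact hs
      · exact le_refl _
    rcases point hB0 hFR hE4 hP0 hP2 hG g l hl v hv1 hv0 with h | h | h
    · linarith
    · have : v ∈ N := by rw [hN]; exact Finset.mem_filter.2 ⟨hv1, hv0, h⟩
      rw [if_pos this]
      linarith
    · have : v ∈ O := by rw [hO]; exact Finset.mem_filter.2 ⟨hv1, hv0, h⟩
      rw [if_pos this]
      linarith
  refine (Finset.sum_le_sum h1).trans ?_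
  rw [Finset.sum_add_distrib, Finset.sum_add_distrib, Finset.sum_ite_mem, Finset.sum_ite_mem]
  have h2 : ∑ v ∈ (POL F g).filter (fun v => v ≠ 0), (1 : ℝ) ≤ qq F ^ g := by
    rw [Finset.sum_const, nsmul_eq_mul, mul_one]
    have h3 : ((POL F g).filter (fun v => v ≠ 0)).card ≤ Fintype.card F ^ g := by
      rw [← hB0.2.2.2.1 g]
      exact Finset.card_le_card (Finset.filter_subset _ _)
    unfold qq
    exact_mod_cast h3
  refine add_le_add (add_le_add h2 ?_) ?_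
  · exact Finset.sum_le_sum_of_subset_of_nonneg Finset.inter_subset_right fun v _ _ => Real.sqrt_nonneg _
  · exact Finset.sum_le_sum_of_subset_of_nonneg Finset.inter_subset_right fun v _ _ => Real.sqrt_nonneg _

/-- the sum over the forms -/
theorem ranks (hE4 : S_E4 F) (g : ℕ) :
    ∑ l ∈ (Finset.univ : Finset (Fin g → F)).filter (fun l => l ≠ 0), qq F ^ (-(9 / 4 : ℝ) * (rr g l : ℝ)) ≤
      qq F * (1 - qq F ^ (-(1 / 4) : ℝ))⁻¹ := by
  have hq := one_lt_qq (F := F)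
  obtain ⟨q, hqe⟩ : ∃ q, q = qq F := ⟨_, rfl⟩
  rw [← hqe] at hq ⊢
  have hq0 : 0 < q := by linarith
  obtain ⟨r, hr⟩ : ∃ r : ℝ, r = q ^ (-(1 / 4) : ℝ) := ⟨_, rfl⟩
  have hr0 : 0 < r := by rw [hr]; exact Real.rpow_pos_of_pos hq0 _
  have hr1 : r < 1 := by rw [hr]; exact Real.rpow_lt_one_of_one_lt_of_neg hq (by norm_num)
  rw [← hr]
  have h1 : ∑ l ∈ (Finset.univ : Finset (Fin g → F)).filter (fun l => l ≠ 0), q ^ (-(9 / 4 : ℝ) * (rr g l : ℝ)) ≤
      ∑ l ∈ (Finset.univ : Finset (Fin g → F)), q ^ (-(9 / 4 : ℝ) * (rr g l : ℝ)) :=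
    Finset.sum_le_sum_of_subset_of_nonneg (Finset.filter_subset _ _)
      fun l _ _ => (Real.rpow_pos_of_pos hq0 _).le
  refine h1.trans ?_
  rw [← Finset.sum_fiberwise_of_maps_to (s := (Finset.univ : Finset (Fin g → F))) (t := Finset.range (g + 2))
    (g := fun l => rr g l) (fun l _ => Finset.mem_range.2 (by have := hE4.2.2.1 g l; omega))]
  have h2 : ∀ d ∈ Finset.range (g + 2),
      ∑ l ∈ (Finset.univ : Finset (Fin g → F)).filter (fun l => rr g l = d), q ^ (-(9 / 4 : ℝ) * (rr g l : ℝ)) ≤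
        q * r ^ d := by
    intro d _
    have e1 : ∑ l ∈ (Finset.univ : Finset (Fin g → F)).filter (fun l => rr g l = d),
        q ^ (-(9 / 4 : ℝ) * (rr g l : ℝ)) =
        ∑ l ∈ (Finset.univ : Finset (Fin g → F)).filter (fun l => rr g l = d), q ^ (-(9 / 4 : ℝ) * (d : ℝ)) := by
      apply Finset.sum_congr rfl
      intro l hl
      rw [(Finset.mem_filter.1 hl).2]
    rw [e1, Finset.sum_const, nsmul_eq_mul]
    have e2 : ((((Finset.univ : Finset (Fin g → F)).filter (fun l => rr g l = d)).card : ℕ) : ℝ) ≤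
        q ^ (2 * d + 1) := by
      rw [hqe]
      unfold qq
      exact_mod_cast hE4.1 g d
    have e3 : q ^ (2 * d + 1) * q ^ (-(9 / 4 : ℝ) * (d : ℝ)) = q * r ^ d := by
      rw [hr, ← Real.rpow_natCast (q ^ (-(1 / 4) : ℝ)) d, ← Real.rpow_mul hq0.le, ← Real.rpow_natCast q (2 * d + 1),
        ← Real.rpow_add hq0]
      have e4 : q * q ^ (-(1 / 4) * (d : ℝ)) = q ^ (1 + -(1 / 4) * (d : ℝ)) := by
        rw [Real.rpow_add hq0, Real.rpow_one]
      rw [e4]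
      congr 1
      push_cast
      ring
    rw [← e3]
    exact mul_le_mul_of_nonneg_right e2 (Real.rpow_pos_of_pos hq0 _).le
  refine (Finset.sum_le_sum h2).trans ?_
  rw [← Finset.mul_sum]
  refine mul_le_mul_of_nonneg_left ?_ hq0.le
  have h3 := mul_neg_geom_sum r (g + 2)
  have h4 : 0 < 1 - r := by linarith
  rw [← one_div, le_div_iff₀ h4, mul_comm, h3]
  have : 0 < r ^ (g + 2) := pow_pos hr0 _
  linarith

end XT2

open XT2 in
theorem p_T2 (F : Type) [Field F] [Fintype F] [CharP F 5] (hB0 : S_B0 F) (hFR : S_FR F) (hE4 : S_E4 F)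
    (hP0 : S_P0 F) (hP2 : S_P2 F) (hG : S_G F) (hL2 : S_L2 F) (hT1 : S_T1 F) : S_T2 F := by
  obtain ⟨C₁, hC₁, h1⟩ := hT1
  obtain ⟨C₂, hC₂, h2⟩ := hL2
  have hq := one_lt_qq (F := F)
  have hq0 : 0 < qq F := by linarith
  have hr1 : qq F ^ (-(1 / 4) : ℝ) < 1 := Real.rpow_lt_one_of_one_lt_of_neg hq (by norm_num)
  obtain ⟨D, hD⟩ : ∃ D : ℝ, D = (1 - qq F ^ (-(1 / 4) : ℝ))⁻¹ := ⟨_, rfl⟩
  have hD0 : 0 < D := by rw [hD]; exact inv_pos.2 (by linarith)
  refine ⟨1 + C₁ + C₂ * D, by positivity, fun g => ?_⟩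
  rw [Finset.sum_comm]
  have e1 : ∀ l ∈ (Finset.univ : Finset (Fin g → F)).filter (fun l => l ≠ 0),
      ∑ v ∈ (POL F g).filter (fun v => v ≠ 0), Real.sqrt (KK g l v : ℝ) ≤ qq F ^ g +
      ∑ v ∈ (POL F g).filter (fun v => v ≠ 0 ∧ ∃ k, NL g l v k), Real.sqrt (KK g l v : ℝ) +
      C₂ * qq F ^ (2 * g + 3) * qq F ^ (-(9 / 4 : ℝ) * (rr g l : ℝ)) := by
    intro l hl
    have hl0 := (Finset.mem_filter.1 hl).2
    have e2 := inner hB0 hFR hE4 hP0 hP2 hG g l hl0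
    have e3 := h2 g l hl0
    linarith
  refine (Finset.sum_le_sum e1).trans ?_
  rw [Finset.sum_add_distrib, Finset.sum_add_distrib, ← Finset.mul_sum]
  have e4 : ∑ l ∈ (Finset.univ : Finset (Fin g → F)).filter (fun l => l ≠ 0), qq F ^ g ≤ qq F ^ (2 * g + 5) := by
    rw [Finset.sum_const, nsmul_eq_mul]
    have e5 : ((((Finset.univ : Finset (Fin g → F)).filter (fun l => l ≠ 0)).card : ℕ) : ℝ) ≤ qq F ^ g := by
      have e6 : ((Finset.univ : Finset (Fin g → F)).filter (fun l => l ≠ 0)).card ≤ Fintype.card F ^ g := by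
        refine (Finset.card_le_card (Finset.filter_subset _ _)).trans (le_of_eq ?_)
        rw [Finset.card_univ, Fintype.card_fun, Fintype.card_fin]
      unfold qq
      exact_mod_cast e6
    calc _ ≤ qq F ^ g * qq F ^ g := mul_le_mul_of_nonneg_right e5 (pow_pos hq0 _).le
      _ = qq F ^ (2 * g) := by rw [← pow_add]; congr 1; ring
      _ ≤ qq F ^ (2 * g + 5) := pow_le_pow_right₀ hq.le (by omega)
  have e7 := h1 g
  have e8 : C₂ * qq F ^ (2 * g + 3) * ∑ l ∈ (Finset.univ : Finset (Fin g → F)).filter (fun l => l ≠ 0),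
      qq F ^ (-(9 / 4 : ℝ) * (rr g l : ℝ)) ≤ C₂ * D * qq F ^ (2 * g + 5) := by
    have e9 := ranks hE4 g
    rw [← hD] at e9
    calc C₂ * qq F ^ (2 * g + 3) * ∑ l ∈ (Finset.univ : Finset (Fin g → F)).filter (fun l => l ≠ 0),
          qq F ^ (-(9 / 4 : ℝ) * (rr g l : ℝ)) ≤ C₂ * qq F ^ (2 * g + 3) * (qq F * D) :=
          mul_le_mul_of_nonneg_left e9 (by positivity)
      _ = C₂ * D * qq F ^ (2 * g + 4) := by ring
      _ ≤ C₂ * D * qq F ^ (2 * g + 5) :=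
          mul_le_mul_of_nonneg_left (pow_le_pow_right₀ hq.le (by omega)) (by positivity)
  calc _ ≤ qq F ^ (2 * g + 5) + C₁ * qq F ^ (2 * g + 5) + C₂ * D * qq F ^ (2 * g + 5) :=
        add_le_add (add_le_add e4 e7) e8
    _ = (1 + C₁ + C₂ * D) * qq F ^ (2 * g + 5) := by ring

end D5
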