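import Pool.Agent.H506.D5.All
import Pool.Agent.H506.D5.FR
import Pool.Agent.H506.D5.P0
import Pool.Agent.H506.D5.P0b
import Pool.Agent.H506.D5.P1
import Pool.Agent.H506.D5.P2
import Pool.Agent.H506.D5.G
import Pool.Agent.H506.D5.Q
import Pool.Agent.H506.D5.R1
import Pool.Agent.H506.D5.R2
import Pool.Agent.H506.D5.SQ
import Pool.Agent.H506.D5.DB
import Pool.Agent.H506.D5.L1
import Pool.Agent.H506.D5.L2
import Pool.Agent.H506.D5.T0
import Pool.Agent.H506.D5.T1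
import Pool.Agent.H506.D5.T2
import Pool.Agent.H506.D5.E9

/-!
# The average of the 5-torsion is bounded
-/

open Polynomial
open scoped Classical

noncomputable section

namespace D5

theorem avgF (F : Type) [Field F] [Fintype F] [CharP F 5] :
    ∃ C : ℝ, 0 < C ∧ ∀ g : ℕ, 1 ≤ g →
      ∑ f ∈ SQF F (2 * g + 1), (cl5 f : ℝ) ≤ C * ((SQF F (2 * g + 1)).card : ℝ) := by
  have hB0 := p_B0 F
  have hB1 := p_B1 F hB0
  have hE1 := p_E1 F hB0
  have hE2 := p_E2 F hB0 hB1 hE1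
  have hE4 := p_E4 F hB0
  have hH1 := p_H1 F hB0
  have hH2 := p_H2 F hB0
  have hH3 := p_H3 F hB0 hH1 hH2
  have hFR := p_FR F
  have hP0 := p_P0 F hB0 hE4 hH1
  have hP0b := p_P0b F hB0
  have hP1 := p_P1 F hB0 hE4 hH3
  have hP2 := p_P2 F hB0 hFR hP1
  have hG := p_G F hB0 hE4 hH3
  have hQ := p_Q F hB0
  have hR1 := p_R1 F hB0 hQ
  have hR2 := p_R2 F hB0 hFR hE4 hP0 hP0b hR1
  have hSQ := p_SQ F
  have hDB := p_DB F hB0
  have hL1 := p_L1 F hB0 hFR hE4 hP0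
  have hL2 := p_L2 F hB0 hDB hL1
  have hT0 := p_T0 F hB0 hE4 hR2
  have hT1 := p_T1 F hB0 hSQ hE4 hT0
  have hT2 := p_T2 F hB0 hFR hE4 hP0 hP2 hG hL2 hT1
  exact avg F (p_E9 F hB0 hB1 hE2 hT2)

end D5
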