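import Pool.Agent.H506.D5.Stm3

/-!
# Project D5, fourth part: the lower bound for the average (so the average is `2 + O(q^(-1/2))`, uniformly in the genus)
-/

open Polynomial
open scoped Classical

noncomputable section

namespace D5

variable (F : Type) [Field F] [Fintype F] [CharP F 5]

/-- **W1** (uses B0, B1, X1; as X2, the other inequality) -/
def S_W1 : Prop :=
  ∀ (g : ℕ) (v : F[X]), v ∈ POL F g →
    qq F ^ (2 * g + 1) ≤ qq F ^ g * (((MON F (2 * g + 1)).filter (fun f => IsSol f v)).card : ℝ) +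
      ∑ l ∈ (Finset.univ : Finset (Fin g → F)).filter (fun l => l ≠ 0 ∧ Ex g l v),
        Real.sqrt (qq F ^ (2 * g + 1) * (KK g l v : ℝ))

/-- **W2** (uses B0, B1, W1, Z1; as Z2, the other inequality)
Proof: `∑_f #sol f = ∑_{v ∈ POL g} N(v)` (B1 (4), (5): every solution of a monic `f` of degree `2g+1` is in `POL g`), `N(0) = q ^ (2g+1)`, and W1 for the `q ^ g - 1` others:
`≥ q ^ (2g+1) + (q ^ g - 1) q ^ (g+1) - q ^ (-g) q ^ ((2g+1)/2) · 200000 q ^ (2g) = q ^ (2g+1) (2 - q ^ (-g) - 200000 q ^ (-1/2))`. -/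
def S_W2 : Prop :=
  ∀ g : ℕ, 40 ≤ g → qq F ^ (2 * g + 1) * (2 - 200001 / Real.sqrt (qq F)) ≤ ∑ f ∈ MON F (2 * g + 1), ((sol f).card : ℝ)

/-- **W3** (uses B1) `#sol (a² h) ≤ 5 ^ (deg a) #sol h`.
Proof: induction on `deg a`: it is enough that `#sol (P² f) ≤ 5 #sol f` for `P` (monic) irreducible and `f ≠ 0` (`5 ≤ 5 ^ (deg P)`).
If `v ∈ sol (P² f)`, then `(P⁴ f² v)'''' = - v⁵`, and with `u = f² v`: `(P⁴ u)' = P³ A₁`, `A₁ = 4 P' u + P u'`; `(P³ A₁)' = P² A₂`, `A₂ = 3 P' A₁ + P A₁'`;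
`(P² A₂)' = P A₃`, `A₃ = 2 P' A₂ + P A₂'`; `(P A₃)' = P' A₃ + P A₃'`; so modulo `P`: `v⁵ = - 24 P'⁴ f² v = P'⁴ f² v`, i.e. the residue class of `v` is a root of `X⁵ - c X` in the
field `F[X]/P`: at most `5` residue classes (`card_roots'`).  Two elements `v, v₁` of `sol (P² f)` with the same class: `v - v₁ = P w` is in `sol (P² f)` (additive, characteristic 5),
`(P⁵ f² w)'''' = P⁵ (f² w)''''` (`(P⁵)' = 0`) `= - P⁵ w⁵`, so `w ∈ sol f` (cancel `P⁵`): each class has at most `#sol f` elements. -/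
def S_W3 : Prop :=
  ∀ (a h : F[X]), a.Monic → h.Monic → (sol (a ^ 2 * h)).card ≤ 5 ^ a.natDegree * (sol h).card

/-- **W4** (uses B0, B1, SQ, W3, Z2) for `g ≥ 120`, `q ≥ 25`: the monic `f` of degree `2g+1` which are not squarefree contribute at most `60000 q ^ (2g+1) / √q`.
Proof: `f = a² h` with `a, h` monic (SQ, `h` monic because `f` and `a` are), `1 ≤ m = deg a ≤ g` (`f` is not squarefree), `h ∈ MON (2(g-m)+1)`; so by W3 the sum is at most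
`∑_{m=1}^{g} 5 ^ m ∑_{a ∈ MON m} ∑_{h ∈ MON (2(g-m)+1)} #sol h`.
If `g - m ≥ 40`, the inner sum is at most `q ^ (2(g-m)+1) (2 + 200000/√q) ≤ 40002 q ^ (2(g-m)+1)` (Z2, `√q ≥ 5`), so these `m` contribute at most
`40002 q ^ (2g+1) ∑_{m ≥ 1} (5/q) ^ m = 40002 q ^ (2g+1) 5/(q-5)`, and `5/(q-5) ≤ (25/4)/q ≤ (5/4)/√q`.
If `g' = g - m < 40`: `#sol h ≤ q ^ g'` (`sol h ⊆ POL g'`, B1 (4), (5)), so `m` contributes at most `5 ^ m q ^ m q ^ (3g'+1) = q ^ (2g+1) 5 ^ (g-g') q ^ (2g'-g)` and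
`q ^ (2g'-g) ≤ q ^ (-1/2) 25 ^ (-(g-2g'-1/2)) = q ^ (-1/2) 5 ^ (1+4g'-2g)`: at most `q ^ (2g+1) q ^ (-1/2) 5 ^ (1+3g'-g) ≤ q ^ (2g+1) q ^ (-1/2)` for each of the `40` values of `g'`
(`1 + 117 ≤ 120`). -/
def S_W4 : Prop :=
  25 ≤ Fintype.card F → ∀ g : ℕ, 120 ≤ g →
    ∑ f ∈ (MON F (2 * g + 1)).filter (fun f => ¬ Squarefree f), ((sol f).card : ℝ) ≤ 60000 * qq F ^ (2 * g + 1) / Real.sqrt (qq F)

end D5
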