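import Pool.Agent.H506.D5.All
import Pool.Agent.H506.D5.Stm4

/-!
# The average of the 5-torsion is `2 + O(q^(-1/2))`: numerics
-/

open Polynomial
open scoped Classical

noncomputable section

namespace D5

namespace XFin4

variable {F : Type} [Field F] [Fintype F] [CharP F 5]

theorem five_le_card : 5 ≤ Fintype.card F := by
  have h : (5 : ℕ) ∣ Fintype.card F := by
    have := FiniteField.cast_card_eq_zero F
    exact (CharP.cast_eq_zero_iff F 5 _).1 this
  exact Nat.le_of_dvd Fintype.card_pos h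

/-- `s = √q`, `s² = q`, `s > 0`. -/
theorem sq_sqrt : 0 < Real.sqrt (qq F) ∧ Real.sqrt (qq F) ^ 2 = qq F ∧ 5 ≤ Real.sqrt (qq F) ^ 2 := by
  have h5 : (5 : ℝ) ≤ qq F := by
    unfold qq
    exact_mod_cast five_le_card (F := F)
  have h0 : (0 : ℝ) < qq F := by linarith
  refine ⟨Real.sqrt_pos.2 h0, Real.sq_sqrt h0.le, ?_⟩
  rw [Real.sq_sqrt h0.le]
  exact h5

theorem one_le_sol (hB1 : S_B1 F) (f : F[X]) : 1 ≤ (sol f).card := by
  obtain ⟨-, -, -, -, hB5⟩ := hB1
  rw [Nat.one_le_iff_ne_zero, Ne, Finset.card_eq_zero]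
  intro h
  have : (0 : F[X]) ∈ sol f := by
    rw [hB5]
    simp [IsSol, d4]
  rw [h] at this
  simp at this

/-- Sum over the squarefree `f` of `#Cl[5]` is the sum of `#sol f`. -/
theorem sum_cl5 (hB0 : S_B0 F) (g : ℕ) :
    ∑ f ∈ SQF F (2 * g + 1), (cl5 f : ℝ) = ∑ f ∈ SQF F (2 * g + 1), ((sol f).card : ℝ) := by
  have hA9 := cl5_eq F
  refine Finset.sum_congr rfl fun f hf => ?_
  rw [SQF, Finset.mem_filter, hB0.2.1] at hf
  rw [hA9 f ⟨hf.1.1, hf.2, hf.1.2 ▸ ⟨g, rfl⟩⟩]

/-- The sum over all monic polynomials is the sum over the squarefree ones plus the rest. -/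
theorem sum_split (g : ℕ) :
    ∑ f ∈ MON F (2 * g + 1), ((sol f).card : ℝ) = ∑ f ∈ SQF F (2 * g + 1), ((sol f).card : ℝ) +
      ∑ f ∈ (MON F (2 * g + 1)).filter (fun f => ¬ Squarefree f), ((sol f).card : ℝ) := by
  unfold SQF
  rw [Finset.sum_filter_add_sum_filter_not]

end XFin4

open XFin4

/-- The upper bound. -/
theorem upper4 (F : Type) [Field F] [Fintype F] [CharP F 5] (hZ2 : S_Z2 F) : ∀ g : ℕ, 40 ≤ g →
    ∑ f ∈ SQF F (2 * g + 1), (cl5 f : ℝ) ≤ (2 + 300000 / Real.sqrt (qq F)) * ((SQF F (2 * g + 1)).card : ℝ) := by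
  intro g hg
  have hB0 := p_B0 F
  have hB1 := p_B1 F hB0
  have hF5 := p_F5 F hB0 (p_MU F hB0) g (by omega)
  obtain ⟨hs0, hs2, hs5⟩ := sq_sqrt (F := F)
  have hZ := hZ2 g hg
  rw [sum_cl5 hB0]
  -- the non-squarefree ones contribute at least their number
  have h1 : (((MON F (2 * g + 1)).filter (fun f => ¬ Squarefree f)).card : ℝ) ≤
      ∑ f ∈ (MON F (2 * g + 1)).filter (fun f => ¬ Squarefree f), ((sol f).card : ℝ) := by
    calc (((MON F (2 * g + 1)).filter (fun f => ¬ Squarefree f)).card : ℝ)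
        = ∑ f ∈ (MON F (2 * g + 1)).filter (fun f => ¬ Squarefree f), (1 : ℝ) := by
          rw [Finset.sum_const, nsmul_eq_mul, mul_one]
      _ ≤ _ := Finset.sum_le_sum fun f _ => by exact_mod_cast one_le_sol hB1 f
  have h2 : ((SQF F (2 * g + 1)).card : ℝ) + (((MON F (2 * g + 1)).filter (fun f => ¬ Squarefree f)).card : ℝ) =
      qq F ^ (2 * g + 1) := by
    have h3 : (SQF F (2 * g + 1)).card + ((MON F (2 * g + 1)).filter (fun f => ¬ Squarefree f)).card =
        Fintype.card F ^ (2 * g + 1) := by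
      unfold SQF
      rw [Finset.card_filter_add_card_filter_not, hB0.2.2.2.2.1]
    unfold qq
    exact_mod_cast h3
  have h4 := sum_split (F := F) g
  rw [hF5] at h2 ⊢
  rw [h4] at hZ
  set s := Real.sqrt (qq F) with hs
  set Q := qq F ^ (2 * g) with hQ
  have hq : qq F ^ (2 * g + 1) = Q * s ^ 2 := by rw [pow_succ, hs2]
  have hQ0 : 0 < Q := by
    have : (0 : ℝ) < qq F := by rw [← hs2]; positivity
    positivity
  rw [hq] at hZ h2 ⊢
  have h5 : ∑ f ∈ SQF F (2 * g + 1), ((sol f).card : ℝ) ≤ Q * s ^ 2 * (2 + 200000 / s) - Q := by linarith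
  refine h5.trans ?_
  have h6 : Q * s ^ 2 * (2 + 200000 / s) - Q = Q * (2 * s ^ 2 + 200000 * s - 1) := by
    field_simp
  have h7 : (2 + 300000 / s) * (Q * s ^ 2 - Q) = Q * (2 * s ^ 2 - 2 + 300000 * s - 300000 / s) := by
    field_simp
    ring
  rw [h6, h7]
  refine mul_le_mul_of_nonneg_left ?_ hQ0.le
  have h8 : 300000 / s ≤ 60000 * s := by
    rw [div_le_iff₀ hs0]
    nlinarith
  have h9 : 1 ≤ s := by nlinarith
  linarith

/-- The lower bound. -/
theorem lower4 (F : Type) [Field F] [Fintype F] [CharP F 5] (hW2 : S_W2 F) (hW4 : S_W4 F) : ∀ g : ℕ, 120 ≤ g →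
    (2 - 300000 / Real.sqrt (qq F)) * ((SQF F (2 * g + 1)).card : ℝ) ≤ ∑ f ∈ SQF F (2 * g + 1), (cl5 f : ℝ) := by
  intro g hg
  have hB0 := p_B0 F
  have hB1 := p_B1 F hB0
  have hF5 := p_F5 F hB0 (p_MU F hB0) g (by omega)
  obtain ⟨hs0, hs2, hs5⟩ := sq_sqrt (F := F)
  rw [sum_cl5 hB0]
  have hS0 : (0 : ℝ) ≤ ((SQF F (2 * g + 1)).card : ℝ) := by positivity
  have hone : ((SQF F (2 * g + 1)).card : ℝ) ≤ ∑ f ∈ SQF F (2 * g + 1), ((sol f).card : ℝ) := by
    calc ((SQF F (2 * g + 1)).card : ℝ) = ∑ f ∈ SQF F (2 * g + 1), (1 : ℝ) := by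
          rw [Finset.sum_const, nsmul_eq_mul, mul_one]
      _ ≤ _ := Finset.sum_le_sum fun f _ => by exact_mod_cast one_le_sol hB1 f
  by_cases hc : 25 ≤ Fintype.card F
  · have hW := hW2 g (by omega)
    have hn := hW4 hc g hg
    rw [sum_split (F := F) g] at hW
    set s := Real.sqrt (qq F) with hs
    set P := qq F ^ (2 * g + 1) with hP
    have hP0 : 0 < P := by
      have : (0 : ℝ) < qq F := by rw [← hs2]; positivity
      positivity
    have hSP : ((SQF F (2 * g + 1)).card : ℝ) ≤ P := by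
      rw [hF5]
      have : (0 : ℝ) ≤ qq F ^ (2 * g) := by
        have : (0 : ℝ) < qq F := by rw [← hs2]; positivity
        positivity
      linarith
    have h1 : P * (2 - 300000 / s) ≤ ∑ f ∈ SQF F (2 * g + 1), ((sol f).card : ℝ) := by
      have h2 : 60000 * P / s = P * (60000 / s) := by ring
      rw [h2] at hn
      have h3 : P * (2 - 300000 / s) ≤ P * (2 - 200001 / s) - P * (60000 / s) := by
        rw [← mul_sub]
        refine mul_le_mul_of_nonneg_left ?_ hP0.le
        have h4 : 2 - 200001 / s - 60000 / s - (2 - 300000 / s) = 39999 / s := by ring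
        have h5 : (0 : ℝ) ≤ 39999 / s := by positivity
        linarith
      linarith
    rcases le_total (2 - 300000 / s) 0 with h | h
    · calc _ ≤ (0 : ℝ) := mul_nonpos_of_nonpos_of_nonneg h hS0
        _ ≤ _ := hS0.trans hone
    · calc _ ≤ (2 - 300000 / s) * P := mul_le_mul_of_nonneg_left hSP h
        _ = P * (2 - 300000 / s) := mul_comm _ _
        _ ≤ _ := h1
  · have hq25 : qq F < 25 := by
      unfold qq
      exact_mod_cast not_le.1 hc
    have hs25 : Real.sqrt (qq F) < 5 := by nlinarith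
    have h1 : (2 : ℝ) - 300000 / Real.sqrt (qq F) ≤ 1 := by
      have : (1 : ℝ) ≤ 300000 / Real.sqrt (qq F) := by
        rw [le_div_iff₀ hs0]
        linarith
      linarith
    calc _ ≤ 1 * ((SQF F (2 * g + 1)).card : ℝ) := mul_le_mul_of_nonneg_right h1 hS0
      _ = ((SQF F (2 * g + 1)).card : ℝ) := one_mul _
      _ ≤ _ := hone

end D5
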