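import Pool.Agent.H506.D5.Stm4

open Polynomial
open scoped Classical

noncomputable section

namespace D5

namespace XW1

variable {F : Type} [Field F] [Fintype F]

omit [Fintype F] in
theorem map_sum' {ι : Type} (ψ : AddChar F ℂ) (s : Finset ι) (f : ι → F) :
    ψ (∑ i ∈ s, f i) = ∏ i ∈ s, ψ (f i) := by
  induction s using Finset.induction_on with
  | empty => rw [Finset.sum_empty, Finset.prod_empty, AddChar.map_zero_eq_one]
  | insert a s ha ih => rw [Finset.sum_insert ha, Finset.prod_insert ha, AddChar.map_add_eq_mul, ih]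

/-- orthogonality of the additive characters of `F ^ g` -/
theorem orth {ψ : AddChar F ℂ} (hψ : ψ ≠ 1) (g : ℕ) (A : Fin g → F) :
    ∑ l : Fin g → F, ψ (∑ j, l j * A j) =
      if ∀ j, A j = 0 then (Fintype.card F : ℂ) ^ g else 0 := by
  have h1 : ∀ l : Fin g → F, ψ (∑ j, l j * A j) = ∏ j, ψ (l j * A j) := fun l =>
    map_sum' ψ Finset.univ fun j => l j * A j
  have h2 : ∑ l : Fin g → F, ψ (∑ j, l j * A j) = ∏ j, ∑ t : F, ψ (t * A j) := by
    rw [Finset.prod_univ_sum (fun _ => Finset.univ) (fun j t => ψ (t * A j)),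
      Fintype.piFinset_univ]
    exact Finset.sum_congr rfl fun l _ => h1 l
  have hprim : ψ.IsPrimitive := AddChar.IsPrimitive.of_ne_one hψ
  have h3 : ∀ j, ∑ t : F, ψ (t * A j) = if A j = 0 then (Fintype.card F : ℂ) else 0 := by
    intro j
    rw [AddChar.sum_mulShift (A j) hprim]
    split_ifs
    · rfl
    · exact Nat.cast_zero
  rw [h2]
  simp_rw [h3]
  split_ifs with h
  · rw [Finset.prod_congr rfl (fun j _ => if_pos (h j)), Finset.prod_const, Finset.card_univ,
      Fintype.card_fin]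
  · push Not at h
    obtain ⟨j, hj⟩ := h
    exact Finset.prod_eq_zero (Finset.mem_univ j) (if_neg hj)

end XW1

open XW1 in
theorem p_W1 (F : Type) [Field F] [Fintype F] [CharP F 5] (hB0 : S_B0 F) (hB1 : S_B1 F)
    (hX1 : S_X1 F) : S_W1 F := by
  intro g v hv
  obtain ⟨hP, hMm, -, -, hM, -⟩ := hB0
  obtain ⟨-, -, hS, -, -⟩ := hB1
  obtain ⟨ψ, hψ⟩ : ∃ ψ : AddChar F ℂ, ψ ≠ 1 := by
    obtain ⟨ψ, hψ⟩ := (AddChar.exists_apply_ne_zero (α := F) (a := 1)).2 one_ne_zero
    exact ⟨ψ, fun h => hψ (by rw [h]; rfl)⟩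
  set A : F[X] → Fin g → F := fun f j =>
    (f ^ 2 * v).coeff (5 * (j : ℕ) + 4) - (v.coeff (j : ℕ)) ^ 5 with hA
  set T : Finset F[X] := (MON F (2 * g + 1)).filter (fun f => ∀ j, A f j = 0) with hT
  have hvd : ∀ m, g ≤ m → v.coeff m = 0 := (degree_lt_iff_coeff_zero v g).1 ((hP g v).1 hv)
  have hsub : T ⊆ (MON F (2 * g + 1)).filter (fun f => IsSol f v) := by
    intro f hf
    rw [hT, Finset.mem_filter] at hf
    rw [Finset.mem_filter]
    refine ⟨hf.1, (hS f v).2 fun j => ?_⟩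
    by_cases hj : j < g
    · exact sub_eq_zero.1 (hf.2 ⟨j, hj⟩)
    · rw [hvd j (not_lt.1 hj), zero_pow (by norm_num)]
      rcases eq_or_ne v 0 with h0 | h0
      · rw [h0, mul_zero, coeff_zero]
      · have h1 : v.natDegree < g := (natDegree_lt_iff_degree_lt h0).2 ((hP g v).1 hv)
        have h2 : f.natDegree = 2 * g + 1 := ((hMm _ f).1 hf.1).2
        have h3 : (f ^ 2 * v).natDegree ≤ 2 * f.natDegree + v.natDegree :=
          natDegree_mul_le.trans (Nat.add_le_add_right natDegree_pow_le _)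
        exact coeff_eq_zero_of_natDegree_lt (by omega)
  have hcount : (Fintype.card F : ℂ) ^ g * (T.card : ℂ) =
      ∑ l : Fin g → F, ∑ f ∈ MON F (2 * g + 1), ψ (∑ j, l j * A f j) := by
    rw [Finset.sum_comm, Finset.sum_congr rfl (fun f _ => orth hψ g (A f)), ← Finset.sum_filter,
      Finset.sum_const, nsmul_eq_mul, mul_comm]
  have hterm : ∀ l : Fin g → F, ‖∑ f ∈ MON F (2 * g + 1), ψ (∑ j, l j * A f j)‖ =
      ‖∑ f ∈ MON F (2 * g + 1), ψ (Lam g l (f ^ 2 * v))‖ := by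
    intro l
    have h1 : ∀ f : F[X], ψ (∑ j, l j * A f j) =
        ψ (Lam g l (f ^ 2 * v)) * ψ (-(∑ j : Fin g, l j * v.coeff (j : ℕ) ^ 5)) := by
      intro f
      rw [← AddChar.map_add_eq_mul]
      congr 1
      unfold Lam
      rw [← sub_eq_add_neg, ← Finset.sum_sub_distrib]
      refine Finset.sum_congr rfl fun j _ => ?_
      simp only [hA]
      ring
    rw [Finset.sum_congr rfl (fun f _ => h1 f), ← Finset.sum_mul, norm_mul, AddChar.norm_apply,
      mul_one]
  have hnonneg : (0 : ℝ) ≤ qq F ^ (2 * g + 1) := pow_nonneg (Nat.cast_nonneg _) _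
  have hle : ∀ l : Fin g → F, ‖∑ f ∈ MON F (2 * g + 1), ψ (∑ j, l j * A f j)‖ ≤
      if Ex g l v then Real.sqrt (qq F ^ (2 * g + 1) * (KK g l v : ℝ)) else 0 := by
    intro l
    rw [hterm l]
    have h1 := hX1 ψ hψ g l v
    split_ifs at h1 ⊢ with hE
    · exact (le_abs_self _).trans (Real.abs_le_sqrt h1)
    · have h2 := pow_eq_zero_iff (two_ne_zero) |>.1 (le_antisymm h1 (sq_nonneg _))
      exact h2.le
  have hsplit := Finset.sum_filter_add_sum_filter_not (Finset.univ : Finset (Fin g → F))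
    (fun l => l ≠ 0) (fun l => ∑ f ∈ MON F (2 * g + 1), ψ (∑ j, l j * A f j))
  have hzero : ∑ l ∈ (Finset.univ : Finset (Fin g → F)).filter (fun l => ¬ l ≠ 0),
      ∑ f ∈ MON F (2 * g + 1), ψ (∑ j, l j * A f j) = (Fintype.card F : ℂ) ^ (2 * g + 1) := by
    have h1 : (Finset.univ : Finset (Fin g → F)).filter (fun l => ¬ l ≠ 0) = {0} := by
      ext l
      simp only [Finset.mem_filter, Finset.mem_univ, true_and, not_not, Finset.mem_singleton]
    rw [h1, Finset.sum_singleton]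
    have h2 : ∀ f ∈ MON F (2 * g + 1), ψ (∑ j, (0 : Fin g → F) j * A f j) = 1 := by
      intro f _
      have h3 : ∑ j, (0 : Fin g → F) j * A f j = 0 :=
        Finset.sum_eq_zero fun j _ => by rw [Pi.zero_apply, zero_mul]
      rw [h3, AddChar.map_zero_eq_one]
    rw [Finset.sum_congr rfl h2, Finset.sum_const, nsmul_eq_mul, mul_one, hM]
    push_cast
    rfl
  rw [← hcount, hzero] at hsplit
  have hne : ‖∑ l ∈ (Finset.univ : Finset (Fin g → F)).filter (fun l => l ≠ 0),
      ∑ f ∈ MON F (2 * g + 1), ψ (∑ j, l j * A f j)‖ ≤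
      ∑ l ∈ (Finset.univ : Finset (Fin g → F)).filter (fun l => l ≠ 0 ∧ Ex g l v),
        Real.sqrt (qq F ^ (2 * g + 1) * (KK g l v : ℝ)) := by
    refine (norm_sum_le _ _).trans ((Finset.sum_le_sum fun l _ => hle l).trans (le_of_eq ?_))
    rw [← Finset.sum_filter, Finset.filter_filter]
  have hmain : qq F ^ (2 * g + 1) ≤ qq F ^ g * (T.card : ℝ) +
      ‖∑ l ∈ (Finset.univ : Finset (Fin g → F)).filter (fun l => l ≠ 0),
        ∑ f ∈ MON F (2 * g + 1), ψ (∑ j, l j * A f j)‖ := by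
    have h1 : (Fintype.card F : ℂ) ^ (2 * g + 1) = (Fintype.card F : ℂ) ^ g * (T.card : ℂ) -
        ∑ l ∈ (Finset.univ : Finset (Fin g → F)).filter (fun l => l ≠ 0),
          ∑ f ∈ MON F (2 * g + 1), ψ (∑ j, l j * A f j) := by
      rw [← hsplit]
      ring
    have h2 : ‖(Fintype.card F : ℂ) ^ (2 * g + 1)‖ = qq F ^ (2 * g + 1) := by
      rw [norm_pow, Complex.norm_natCast]
      rfl
    have h3 : ‖(Fintype.card F : ℂ) ^ g * (T.card : ℂ)‖ = qq F ^ g * (T.card : ℝ) := by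
      rw [norm_mul, norm_pow, Complex.norm_natCast, Complex.norm_natCast]
      rfl
    rw [← h2, ← h3, h1]
    exact norm_sub_le _ _
  have hcard : (T.card : ℝ) ≤
      ((((MON F (2 * g + 1)).filter (fun f => IsSol f v)).card : ℕ) : ℝ) := by
    exact_mod_cast Finset.card_le_card hsub
  have hq0 : 0 ≤ qq F := Nat.cast_nonneg _
  have h5 := mul_le_mul_of_nonneg_left hcard (pow_nonneg hq0 g)
  linarith

end D5
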