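import Pool.Agent.H506.D5.Stm4

/-!
# Project D5 (helper506), W2 (helper372, after the file E9 of helper778): the first moment, lower bound
-/

open Polynomial
open scoped Classical

noncomputable section

namespace D5

namespace XW2

variable {F : Type} [Field F] [Fintype F]

theorem comm_count {α β : Type} (s : Finset α) (t : Finset β) (r : α → β → Prop) :
    ∑ a ∈ s, ((t.filter (fun b => r a b)).card : ℝ) =
      ∑ b ∈ t, ((s.filter (fun a => r a b)).card : ℝ) := by
  simp only [Finset.card_filter, Nat.cast_sum]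
  exact Finset.sum_comm

theorem one_lt_qq : 1 < qq F := by
  unfold qq
  exact_mod_cast Fintype.one_lt_card

theorem isSol_zero (f : F[X]) : IsSol f 0 := by
  unfold IsSol d4
  simp

end XW2

open XW2 in
theorem p_W2 (F : Type) [Field F] [Fintype F] [CharP F 5] (hB0 : S_B0 F) (hB1 : S_B1 F)
    (hW1 : S_W1 F) (hZ1 : S_Z1 F) : S_W2 F := by
  obtain ⟨hP, hM, -, hcP, hcM, -⟩ := hB0
  obtain ⟨-, -, -, -, hB5⟩ := hB1
  intro g hg
  have hq1 : 1 < qq F := one_lt_qq
  have hq0 : 0 < qq F := by linarith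
  have hcard : ((Fintype.card F : ℕ) : ℝ) = qq F := rfl
  have hMc : ((MON F (2 * g + 1)).card : ℝ) = qq F ^ (2 * g + 1) := by
    rw [hcM]
    push_cast
    rfl
  have hz : (0 : F[X]) ∈ POL F g := by
    rw [hP g 0, degree_zero]
    exact WithBot.bot_lt_coe _
  -- the double count
  have h8 : qq F ^ (2 * g + 1) + ∑ v ∈ (POL F g).filter (fun v => v ≠ 0),
        (((MON F (2 * g + 1)).filter (fun f => IsSol f v)).card : ℝ) ≤
      ∑ f ∈ MON F (2 * g + 1), ((sol f).card : ℝ) := by
    have h9 : ∑ f ∈ MON F (2 * g + 1), (((POL F g).filter (fun v => IsSol f v)).card : ℝ) ≤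
        ∑ f ∈ MON F (2 * g + 1), ((sol f).card : ℝ) := by
      refine Finset.sum_le_sum fun f _ => ?_
      have h1 : (POL F g).filter (fun v => IsSol f v) ⊆ sol f := fun v hv =>
        (hB5 f v).2 (Finset.mem_filter.1 hv).2
      exact_mod_cast Finset.card_le_card h1
    refine le_trans (le_of_eq ?_) h9
    rw [comm_count (MON F (2 * g + 1)) (POL F g) (fun f v => IsSol f v)]
    have h2 : POL F g = insert 0 ((POL F g).filter (fun v => v ≠ 0)) := by
      rw [Finset.filter_ne', Finset.insert_erase hz]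
    conv_rhs => rw [h2]
    rw [Finset.sum_insert (by simp)]
    congr 1
    rw [← hMc]
    congr 2
    exact (Finset.filter_true_of_mem fun f _ => isSol_zero f).symm
  -- the number of `v ≠ 0`
  have hPc : (((POL F g).filter (fun v => v ≠ 0)).card : ℝ) = qq F ^ g - 1 := by
    have h2 : ((POL F g).filter (fun v => v ≠ 0)).card + 1 = (POL F g).card := by
      rw [Finset.filter_ne']
      exact Finset.card_erase_add_one hz
    rw [hcP] at h2
    have h3 : (((POL F g).filter (fun v => v ≠ 0)).card : ℝ) + 1 = ((Fintype.card F : ℕ) : ℝ) ^ g := by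
      exact_mod_cast h2
    rw [hcard] at h3
    linarith
  have hsq : Real.sqrt (qq F ^ (2 * g + 1)) = qq F ^ g * Real.sqrt (qq F) := by
    rw [pow_succ, Real.sqrt_mul (by positivity), mul_comm 2 g, pow_mul, Real.sqrt_sq (by positivity)]
  have h7 := hZ1 g hg
  have h10 : qq F ^ g * ∑ v ∈ (POL F g).filter (fun v => v ≠ 0),
        (((MON F (2 * g + 1)).filter (fun f => IsSol f v)).card : ℝ) ≥
      (qq F ^ g - 1) * qq F ^ (2 * g + 1) -
        qq F ^ g * Real.sqrt (qq F) * (200000 * qq F ^ (2 * g)) := by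
    rw [Finset.mul_sum]
    have h11 : ∑ v ∈ (POL F g).filter (fun v => v ≠ 0), (qq F ^ (2 * g + 1) -
        qq F ^ g * Real.sqrt (qq F) *
          ∑ l ∈ (Finset.univ : Finset (Fin g → F)).filter (fun l => l ≠ 0 ∧ Ex g l v),
            Real.sqrt (KK g l v : ℝ)) ≤
        ∑ v ∈ (POL F g).filter (fun v => v ≠ 0), qq F ^ g *
          (((MON F (2 * g + 1)).filter (fun f => IsSol f v)).card : ℝ) := by
      refine Finset.sum_le_sum fun v hv => ?_
      have h12 := hW1 g v (Finset.mem_filter.1 hv).1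
      have h13 : ∑ l ∈ (Finset.univ : Finset (Fin g → F)).filter (fun l => l ≠ 0 ∧ Ex g l v),
          Real.sqrt (qq F ^ (2 * g + 1) * (KK g l v : ℝ)) = qq F ^ g * Real.sqrt (qq F) *
          ∑ l ∈ (Finset.univ : Finset (Fin g → F)).filter (fun l => l ≠ 0 ∧ Ex g l v),
            Real.sqrt (KK g l v : ℝ) := by
        rw [Finset.mul_sum]
        refine Finset.sum_congr rfl fun l _ => ?_
        rw [Real.sqrt_mul (by positivity), hsq]
      rw [h13] at h12
      linarith
    rw [Finset.sum_sub_distrib, Finset.sum_const, nsmul_eq_mul, hPc, ← Finset.mul_sum] at h11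
    have h14 : qq F ^ g * Real.sqrt (qq F) * ∑ v ∈ (POL F g).filter (fun v => v ≠ 0),
        ∑ l ∈ (Finset.univ : Finset (Fin g → F)).filter (fun l => l ≠ 0 ∧ Ex g l v),
          Real.sqrt (KK g l v : ℝ) ≤ qq F ^ g * Real.sqrt (qq F) * (200000 * qq F ^ (2 * g)) :=
      mul_le_mul_of_nonneg_left h7 (by positivity)
    linarith
  set A := ∑ v ∈ (POL F g).filter (fun v => v ≠ 0),
        (((MON F (2 * g + 1)).filter (fun f => IsSol f v)).card : ℝ) with hA
  refine le_trans ?_ h8
  -- the computation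
  set s := Real.sqrt (qq F) with hs
  have hs1 : 1 ≤ s := by
    rw [hs, Real.one_le_sqrt]; exact hq1.le
  have hs0 : 0 < s := by linarith
  have hss : s * s = qq F := Real.mul_self_sqrt hq0.le
  have hX : 0 < qq F ^ g := by positivity
  have hY : 0 < qq F ^ (2 * g) := by positivity
  have hge : s ≤ qq F ^ g := by
    have h1 : qq F ^ 1 ≤ qq F ^ g := pow_le_pow_right₀ hq1.le (by omega)
    rw [pow_one] at h1
    nlinarith
  have e1 : qq F ^ (2 * g + 1) = qq F ^ (2 * g) * (s * s) := by rw [pow_succ, hss]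
  rw [e1] at h10 ⊢
  have e2 : qq F ^ (2 * g) * (s * s) * (2 - 200001 / s) =
      2 * (qq F ^ (2 * g) * (s * s)) - 200001 * (qq F ^ (2 * g) * s) := by
    field_simp
  rw [e2]
  -- `A ≥ Y s² - Y s² / X - 200000 Y s`
  have h15 : qq F ^ g * (qq F ^ (2 * g) * (s * s) - qq F ^ (2 * g) * s - 200000 * (qq F ^ (2 * g) * s)) ≤
      qq F ^ g * A := by
    refine le_trans ?_ h10
    have h16 : qq F ^ (2 * g) * (s * s) ≤ qq F ^ g * (qq F ^ (2 * g) * s) := by
      have h17 : s * (qq F ^ (2 * g) * s) ≤ qq F ^ g * (qq F ^ (2 * g) * s) :=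
        mul_le_mul_of_nonneg_right hge (by positivity)
      linarith
    nlinarith
  have h18 := le_of_mul_le_mul_left h15 hX
  linarith

end D5
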