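import Pool.Agent.H506.D5.Stm4

/-! # W3: the number of solutions for `a ^ 2 h` -/

set_option autoImplicit false

open Polynomial
open scoped Classical

noncomputable section

namespace D5

namespace XW3

variable {F : Type} [Field F]

theorem der_step (k : ℕ) (P A : F[X]) :
    derivative (P ^ (k + 1) * A) =
      P ^ k * (((k : F[X]) + 1) * derivative P * A + P * derivative A) := by
  have hC : (C ((k : F) + 1) : F[X]) = (k : F[X]) + 1 := by rw [C_add, C_eq_natCast, C_1]
  rw [derivative_mul, derivative_pow_succ, hC]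
  ring

theorem d4_mod (P u : F[X]) : ∃ w : F[X], d4 (P ^ 4 * u) = 24 * derivative P ^ 4 * u + P * w := by
  set A1 : F[X] := 4 * derivative P * u + P * derivative u with hA1
  set A2 : F[X] := 3 * derivative P * A1 + P * derivative A1 with hA2
  set A3 : F[X] := 2 * derivative P * A2 + P * derivative A2 with hA3
  have h1 : derivative (P ^ 4 * u) = P ^ 3 * A1 := by
    rw [der_step 3 P u, hA1]
    push_cast
    ring
  have h2 : derivative (P ^ 3 * A1) = P ^ 2 * A2 := by
    rw [der_step 2 P A1, hA2]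
    push_cast
    ring
  have h3 : derivative (P ^ 2 * A2) = P * A3 := by
    rw [der_step 1 P A2, hA3]
    push_cast
    ring
  have h4 : derivative (P * A3) = derivative P * A3 + P * derivative A3 := derivative_mul
  refine ⟨derivative A3 + derivative P * derivative A2 + 2 * derivative P ^ 2 * derivative A1 +
    6 * derivative P ^ 3 * derivative u, ?_⟩
  unfold d4
  rw [h1, h2, h3, h4]
  have e3 : derivative P * A3 =
      2 * derivative P ^ 2 * A2 + P * (derivative P * derivative A2) := by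
    rw [hA3]; ring
  have e2 : 2 * derivative P ^ 2 * A2 =
      6 * derivative P ^ 3 * A1 + P * (2 * derivative P ^ 2 * derivative A1) := by
    rw [hA2]; ring
  have e1 : 6 * derivative P ^ 3 * A1 =
      24 * derivative P ^ 4 * u + P * (6 * derivative P ^ 3 * derivative u) := by
    rw [hA1]; ring
  rw [e3, e2, e1]
  ring

variable [CharP F 5]

theorem five_eq : (5 : F[X]) = 0 := by
  have h : ((5 : ℕ) : F) = 0 := CharP.cast_eq_zero F 5
  have h2 : (C ((5 : ℕ) : F) : F[X]) = 0 := by rw [h, C_0]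
  rw [C_eq_natCast] at h2
  exact_mod_cast h2

theorem der_five (P G : F[X]) : derivative (P ^ 5 * G) = P ^ 5 * derivative G := by
  rw [der_step 4 P G]
  push_cast
  linear_combination P ^ 4 * derivative P * G * five_eq (F := F)

theorem d4_five (P G : F[X]) : d4 (P ^ 5 * G) = P ^ 5 * d4 G := by
  unfold d4
  rw [der_five, der_five, der_five, der_five]

theorem pow_sub (v w : F[X]) : (v - w) ^ 5 = v ^ 5 - w ^ 5 := by
  linear_combination (-(v ^ 4 * w) + 2 * v ^ 3 * w ^ 2 - 2 * v ^ 2 * w ^ 3 + v * w ^ 4) * five_eq (F := F)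

omit [CharP F 5] in
theorem d4_sub (v w : F[X]) : d4 (v - w) = d4 v - d4 w := by
  unfold d4
  simp only [derivative_sub]

theorem cong {P f v : F[X]} (h : IsSol (P ^ 2 * f) v) :
    P ∣ v ^ 5 - derivative P ^ 4 * f ^ 2 * v := by
  obtain ⟨w, hw⟩ := d4_mod P (f ^ 2 * v)
  have h1 : d4 ((P ^ 2 * f) ^ 2 * v) = - v ^ 5 := h
  have h2 : (P ^ 2 * f) ^ 2 * v = P ^ 4 * (f ^ 2 * v) := by ring
  rw [h2, hw] at h1
  refine ⟨-w, ?_⟩
  linear_combination h1 - 5 * derivative P ^ 4 * f ^ 2 * v * five_eq (F := F)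

theorem quot {P f v v₁ w : F[X]} (hP : P ≠ 0) (h : IsSol (P ^ 2 * f) v) (h₁ : IsSol (P ^ 2 * f) v₁)
    (hw : v - v₁ = P * w) : IsSol f w := by
  have h1 : d4 ((P ^ 2 * f) ^ 2 * v) = - v ^ 5 := h
  have h2 : d4 ((P ^ 2 * f) ^ 2 * v₁) = - v₁ ^ 5 := h₁
  have h3 : (P ^ 2 * f) ^ 2 * v - (P ^ 2 * f) ^ 2 * v₁ = P ^ 5 * (f ^ 2 * w) := by
    rw [← mul_sub, hw]
    ring
  have h4 : P ^ 5 * d4 (f ^ 2 * w) = P ^ 5 * (- w ^ 5) := by
    rw [← d4_five, ← h3, d4_sub, h1, h2]
    have h5 : (v - v₁) ^ 5 = v ^ 5 - v₁ ^ 5 := pow_sub v v₁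
    rw [hw] at h5
    linear_combination h5
  exact mul_left_cancel₀ (pow_ne_zero 5 hP) h4

end XW3

open XW3 in
theorem XW3.step {F : Type} [Field F] [Fintype F] [CharP F 5] (hB1 : S_B1 F) {P : F[X]}
    (hP : Irreducible P) (f : F[X]) : (sol (P ^ 2 * f)).card ≤ 5 * (sol f).card := by
  have hsol : ∀ f v : F[X], v ∈ sol f ↔ IsSol f v := hB1.2.2.2.2
  have : Fact (Irreducible P) := ⟨hP⟩
  set c : AdjoinRoot P := AdjoinRoot.mk P (derivative P ^ 4 * f ^ 2) with hc
  have himg : ((sol (P ^ 2 * f)).image (AdjoinRoot.mk P)).card ≤ 5 := by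
    have hne : (X ^ 5 - C c * X : (AdjoinRoot P)[X]) ≠ 0 := by
      intro h0
      have h1 := congrArg (fun g => Polynomial.coeff g 5) h0
      simp only [coeff_sub, coeff_X_pow, coeff_C_mul, coeff_X, coeff_zero] at h1
      norm_num at h1
    have hdeg : (X ^ 5 - C c * X : (AdjoinRoot P)[X]).natDegree ≤ 5 := by
      refine (natDegree_sub_le _ _).trans (max_le ?_ ?_)
      · rw [natDegree_X_pow]
      · exact (natDegree_C_mul_le c X).trans (natDegree_X_le.trans (by norm_num))
    have hsub : (sol (P ^ 2 * f)).image (AdjoinRoot.mk P) ⊆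
        (X ^ 5 - C c * X : (AdjoinRoot P)[X]).roots.toFinset := by
      intro y hy
      obtain ⟨v, hv, rfl⟩ := Finset.mem_image.1 hy
      rw [Multiset.mem_toFinset, mem_roots hne, IsRoot.def]
      have h1 := cong ((hsol _ _).1 hv)
      have h2 : AdjoinRoot.mk P (v ^ 5 - derivative P ^ 4 * f ^ 2 * v) = 0 :=
        AdjoinRoot.mk_eq_zero.2 h1
      rw [map_sub, map_pow, map_mul] at h2
      rw [eval_sub, eval_pow, eval_X, eval_mul, eval_C, eval_X]
      exact h2
    calc ((sol (P ^ 2 * f)).image (AdjoinRoot.mk P)).card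
        ≤ (X ^ 5 - C c * X : (AdjoinRoot P)[X]).roots.toFinset.card := Finset.card_le_card hsub
      _ ≤ Multiset.card (X ^ 5 - C c * X : (AdjoinRoot P)[X]).roots := Multiset.toFinset_card_le _
      _ ≤ (X ^ 5 - C c * X : (AdjoinRoot P)[X]).natDegree := card_roots' _
      _ ≤ 5 := hdeg
  have hfib : ∀ y ∈ (sol (P ^ 2 * f)).image (AdjoinRoot.mk P),
      ((sol (P ^ 2 * f)).filter (fun v => AdjoinRoot.mk P v = y)).card ≤ (sol f).card := by
    intro y hy
    obtain ⟨v₁, hv₁, rfl⟩ := Finset.mem_image.1 hy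
    have hch : ∀ v : F[X], ∃ w : F[X],
        v ∈ (sol (P ^ 2 * f)).filter (fun v => AdjoinRoot.mk P v = AdjoinRoot.mk P v₁) →
          v - v₁ = P * w := by
      intro v
      by_cases hv : v ∈ (sol (P ^ 2 * f)).filter (fun v => AdjoinRoot.mk P v = AdjoinRoot.mk P v₁)
      · obtain ⟨w, hw⟩ := AdjoinRoot.mk_eq_mk.1 (Finset.mem_filter.1 hv).2
        exact ⟨w, fun _ => hw⟩
      · exact ⟨0, fun h => absurd h hv⟩
    choose φ hφ using hch
    refine Finset.card_le_card_of_injOn φ ?_ ?_
    · intro v hv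
      rw [Finset.mem_coe] at hv ⊢
      rw [hsol]
      exact quot hP.ne_zero ((hsol _ _).1 (Finset.mem_filter.1 hv).1) ((hsol _ _).1 hv₁) (hφ v hv)
    · intro v hv w hw he
      rw [Finset.mem_coe] at hv hw
      have h1 := hφ v hv
      have h2 := hφ w hw
      have he' : φ v = φ w := he
      rw [he', ← h2] at h1
      exact sub_left_injective h1
  calc (sol (P ^ 2 * f)).card
      ≤ (sol f).card * ((sol (P ^ 2 * f)).image (AdjoinRoot.mk P)).card :=
        Finset.card_le_mul_card_image _ _ hfib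
    _ ≤ (sol f).card * 5 := Nat.mul_le_mul_left _ himg
    _ = 5 * (sol f).card := Nat.mul_comm _ _

theorem p_W3 (F : Type) [Field F] [Fintype F] [CharP F 5] (hB1 : S_B1 F) : S_W3 F := by
  have key : ∀ (n : ℕ) (a h : F[X]), a.Monic → a.natDegree = n →
      (sol (a ^ 2 * h)).card ≤ 5 ^ n * (sol h).card := by
    intro n
    induction n using Nat.strong_induction_on with
    | _ n ih =>
      intro a h ha hn
      rcases Nat.eq_zero_or_pos n with h0 | h0
      · have h1 : a = 1 := ha.natDegree_eq_zero.1 (by omega)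
        rw [h0, h1, one_pow, one_mul, pow_zero, one_mul]
      · have hu : ¬ IsUnit a := by
          intro hu
          have h2 := ha.natDegree_eq_zero.2 (ha.eq_one_of_isUnit hu)
          omega
        obtain ⟨P, hPm, hPi, b, hb⟩ := exists_monic_irreducible_factor a hu
        have hbm : b.Monic := hPm.of_mul_monic_left (hb ▸ ha)
        have hdeg : a.natDegree = P.natDegree + b.natDegree := by
          rw [hb]
          exact hPm.natDegree_mul hbm
        have hP1 : 1 ≤ P.natDegree := hPi.natDegree_pos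
        have h3 : a ^ 2 * h = P ^ 2 * (b ^ 2 * h) := by
          rw [hb]
          ring
        have h4 := XW3.step hB1 hPi (b ^ 2 * h)
        have h5 := ih b.natDegree (by omega) b h hbm rfl
        rw [h3]
        calc (sol (P ^ 2 * (b ^ 2 * h))).card ≤ 5 * (sol (b ^ 2 * h)).card := h4
          _ ≤ 5 * (5 ^ b.natDegree * (sol h).card) := Nat.mul_le_mul_left _ h5
          _ = 5 ^ (b.natDegree + 1) * (sol h).card := by rw [pow_succ]; ring
          _ ≤ 5 ^ n * (sol h).card := by
            refine Nat.mul_le_mul_right _ (Nat.pow_le_pow_right (by norm_num) ?_)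
            omega
  intro a h ha _
  exact key a.natDegree a h ha rfl

end D5
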