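import Pool.Agent.H506.D5.Stm4

/-!
# W4: the sum over the monic polynomials which are not squarefree (helper977 for helper506)
-/

open Polynomial
open scoped Classical

noncomputable section

namespace D5

namespace XW4

theorem sum_le_of_cover {α β : Type*} (S : Finset α) (P : Finset β) (π : β → α) (w : α → ℝ)
    (hw : ∀ x, 0 ≤ w x) (h : ∀ x ∈ S, ∃ p ∈ P, π p = x) : ∑ x ∈ S, w x ≤ ∑ p ∈ P, w (π p) := by
  have hS : S ⊆ P.image π := fun x hx => by
    obtain ⟨p, hp, hpx⟩ := h x hx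
    exact Finset.mem_image.mpr ⟨p, hp, hpx⟩
  refine (Finset.sum_le_sum_of_subset_of_nonneg hS (fun x _ _ => hw x)).trans ?_
  rw [← Finset.sum_fiberwise_of_maps_to (s := P) (t := P.image π) (g := π)
    (fun p hp => Finset.mem_image_of_mem π hp) (fun p => w (π p))]
  refine Finset.sum_le_sum fun x hx => ?_
  obtain ⟨p, hp, hpx⟩ := Finset.mem_image.mp hx
  have h1 : w (π p) ≤ ∑ p' ∈ P.filter (fun p' => π p' = x), w (π p') :=
    Finset.single_le_sum (f := fun p' => w (π p')) (fun _ _ => hw _) (Finset.mem_filter.mpr ⟨hp, hpx⟩)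
  rwa [hpx] at h1

theorem geo (x : ℝ) (hx0 : 0 ≤ x) (hx : x ≤ 1 / 5) (g : ℕ) :
    ∑ m ∈ Finset.Icc 1 g, x ^ m ≤ 5 / 4 * x * (1 - (1 / 5) ^ g) := by
  induction g with
  | zero => simp
  | succ g ih =>
    rw [Finset.sum_Icc_succ_top (by omega)]
    have h1 : x ^ g ≤ (1 / 5) ^ g := pow_le_pow_left₀ hx0 hx g
    have h2 : x ^ (g + 1) ≤ x * (1 / 5) ^ g := by
      rw [pow_succ, mul_comm]
      exact mul_le_mul_of_nonneg_left h1 hx0
    have h3 : (1 / 5 : ℝ) ^ (g + 1) = (1 / 5) ^ g * (1 / 5) := pow_succ _ _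
    rw [h3]
    nlinarith

variable {F : Type} [Field F] [Fintype F] [CharP F 5]

theorem sol_card (hB0 : S_B0 F) (hB1 : S_B1 F) (g : ℕ) (h : F[X]) (hh : h ∈ MON F (2 * g + 1)) :
    ((sol h).card : ℝ) ≤ qq F ^ g := by
  obtain ⟨hpol, hmon, -, hcp, hcm, -⟩ := hB0
  obtain ⟨-, -, -, h4, h5⟩ := hB1
  have h1 : sol h ⊆ POL F g := by
    intro v hv
    rw [h5] at hv
    rw [hpol]
    by_cases hv0 : v = 0
    · rw [hv0, degree_zero]
      exact WithBot.bot_lt_coe g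
    · have h2 := h4 h v hv0 hv
      rw [((hmon _ _).mp hh).2] at h2
      rw [← natDegree_lt_iff_degree_lt hv0]
      omega
  have h2 := Finset.card_le_card h1
  rw [hcp] at h2
  unfold qq
  exact_mod_cast h2

theorem cov (hB0 : S_B0 F) (hSQ : S_SQ F) (g : ℕ) :
    ∀ f ∈ (MON F (2 * g + 1)).filter (fun f => ¬ Squarefree f),
      ∃ p ∈ (Finset.Icc 1 g).sigma (fun m => MON F m ×ˢ MON F (2 * (g - m) + 1)),
        p.2.1 ^ 2 * p.2.2 = f := by
  obtain ⟨hpol, hmon, -, hcp, hcm, -⟩ := hB0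
  intro f hf
  rw [Finset.mem_filter, hmon] at hf
  obtain ⟨⟨hfm, hfd⟩, hns⟩ := hf
  obtain ⟨a, b, ha, hb0, hbs, hab⟩ := hSQ f hfm.ne_zero
  have hbm : b.Monic := Monic.of_mul_monic_left (ha.pow 2) (by rw [← hab]; exact hfm)
  have hdeg : 2 * a.natDegree + b.natDegree = 2 * g + 1 := by
    rw [← hfd, hab, (ha.pow 2).natDegree_mul hbm, natDegree_pow]
  have ha1 : 1 ≤ a.natDegree := by
    rw [Nat.one_le_iff_ne_zero]
    intro h0
    have h1 : a = 1 := ha.natDegree_eq_zero.mp h0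
    apply hns
    rw [hab, h1, one_pow, one_mul]
    exact hbs
  refine ⟨⟨a.natDegree, (a, b)⟩, ?_, hab.symm⟩
  rw [Finset.mem_sigma, Finset.mem_Icc, Finset.mem_product, hmon, hmon]
  have e1 : a.natDegree ≤ g := by omega
  have e2 : b.natDegree = 2 * (g - a.natDegree) + 1 := by omega
  exact ⟨⟨ha1, e1⟩, ⟨ha, rfl⟩, hbm, e2⟩

theorem term (hB0 : S_B0 F) (hB1 : S_B1 F) (hW3 : S_W3 F) (hZ2 : S_Z2 F) (r : ℝ) (hr5 : 5 ≤ r)
    (hrq : r ^ 2 = qq F) (hrs : Real.sqrt (qq F) = r) (g m : ℕ) (hmg : m ≤ g) (hg : 120 ≤ g) :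
    ∑ p ∈ MON F m ×ˢ MON F (2 * (g - m) + 1), ((sol (p.1 ^ 2 * p.2)).card : ℝ) ≤
      40002 * qq F ^ (2 * g + 1) * (5 / qq F) ^ m + (if g - m < 40 then r ^ (4 * g + 1) else 0) := by
  obtain ⟨hpol, hmon, -, hcp, hcm, -⟩ := id hB0
  have hq0 : 0 < qq F := by rw [← hrq]; positivity
  obtain ⟨T, hT⟩ : ∃ T : ℝ, T = ∑ h ∈ MON F (2 * (g - m) + 1), ((sol h).card : ℝ) := ⟨_, rfl⟩
  have hT0 : 0 ≤ T := by
    rw [hT]
    exact Finset.sum_nonneg fun _ _ => Nat.cast_nonneg _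
  have h1 : ∑ p ∈ MON F m ×ˢ MON F (2 * (g - m) + 1), ((sol (p.1 ^ 2 * p.2)).card : ℝ) ≤
      5 ^ m * qq F ^ m * T := by
    calc ∑ p ∈ MON F m ×ˢ MON F (2 * (g - m) + 1), ((sol (p.1 ^ 2 * p.2)).card : ℝ)
        ≤ ∑ p ∈ MON F m ×ˢ MON F (2 * (g - m) + 1), 5 ^ m * ((sol p.2).card : ℝ) := by
          refine Finset.sum_le_sum fun p hp => ?_
          rw [Finset.mem_product, hmon, hmon] at hp
          have h2 := hW3 p.1 p.2 hp.1.1 hp.2.1
          rw [hp.1.2] at h2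
          exact_mod_cast h2
      _ = ∑ a ∈ MON F m, ∑ h ∈ MON F (2 * (g - m) + 1), 5 ^ m * ((sol h).card : ℝ) := by
          rw [Finset.sum_product]
      _ = 5 ^ m * qq F ^ m * T := by
          rw [Finset.sum_const, nsmul_eq_mul, hcm, ← Finset.mul_sum, ← hT]
          unfold qq
          push_cast
          ring
  refine h1.trans ?_
  by_cases hk : g - m < 40
  · rw [if_pos hk]
    have h2 : T ≤ qq F ^ (2 * (g - m) + 1) * qq F ^ (g - m) := by
      rw [hT]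
      calc ∑ h ∈ MON F (2 * (g - m) + 1), ((sol h).card : ℝ)
          ≤ ∑ h ∈ MON F (2 * (g - m) + 1), qq F ^ (g - m) :=
            Finset.sum_le_sum fun h hh => sol_card hB0 hB1 (g - m) h hh
        _ = qq F ^ (2 * (g - m) + 1) * qq F ^ (g - m) := by
            rw [Finset.sum_const, nsmul_eq_mul, hcm]
            unfold qq
            push_cast
            ring
    have h3 : (5 : ℝ) ^ m ≤ r ^ m := pow_le_pow_left₀ (by norm_num) hr5 m
    have h4 : 5 ^ m * qq F ^ m * T ≤ r ^ (4 * g + 1) := by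
      calc 5 ^ m * qq F ^ m * T ≤ r ^ m * qq F ^ m * (qq F ^ (2 * (g - m) + 1) * qq F ^ (g - m)) :=
            mul_le_mul (mul_le_mul_of_nonneg_right h3 (by positivity)) h2 hT0 (by positivity)
        _ = r ^ (3 * m + 6 * (g - m) + 2) := by
            rw [← hrq, ← pow_mul, ← pow_mul, ← pow_mul, ← pow_add, ← pow_add, ← pow_add]
            congr 1
            ring
        _ ≤ r ^ (4 * g + 1) := pow_le_pow_right₀ (by linarith) (by omega)
    have h5 : 0 ≤ 40002 * qq F ^ (2 * g + 1) * (5 / qq F) ^ m := by positivity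
    linarith
  · rw [if_neg hk, add_zero]
    have h2 := hZ2 (g - m) (by omega)
    rw [← hT, hrs] at h2
    have h3 : 200000 / r ≤ 40000 := by
      rw [div_le_iff₀ (by linarith)]
      linarith
    have h4 : T ≤ qq F ^ (2 * (g - m) + 1) * 40002 :=
      h2.trans (mul_le_mul_of_nonneg_left (by linarith) (by positivity))
    have h5 : qq F ^ (2 * g + 1) = qq F ^ (2 * (g - m) + 1) * qq F ^ m * qq F ^ m := by
      rw [← pow_add, ← pow_add]
      congr 1
      omega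
    calc 5 ^ m * qq F ^ m * T ≤ 5 ^ m * qq F ^ m * (qq F ^ (2 * (g - m) + 1) * 40002) :=
          mul_le_mul_of_nonneg_left h4 (by positivity)
      _ = 40002 * qq F ^ (2 * g + 1) * (5 / qq F) ^ m := by
          rw [h5, div_pow]
          field_simp

end XW4

open XW4 in
theorem p_W4 (F : Type) [Field F] [Fintype F] [CharP F 5] (hB0 : S_B0 F) (hB1 : S_B1 F)
    (hSQ : S_SQ F) (hW3 : S_W3 F) (hZ2 : S_Z2 F) : S_W4 F := by
  intro hq g hg
  have hq25 : (25 : ℝ) ≤ qq F := by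
    unfold qq
    exact_mod_cast hq
  obtain ⟨r, hr⟩ : ∃ r : ℝ, r = Real.sqrt (qq F) := ⟨_, rfl⟩
  have hrq : r ^ 2 = qq F := by
    rw [hr]
    exact Real.sq_sqrt (by linarith)
  have hr5 : 5 ≤ r := by
    rw [hr]
    apply Real.le_sqrt_of_sq_le
    linarith
  have hr0 : 0 < r := by linarith
  have hq0 : 0 < qq F := by linarith
  rw [← hr]
  have h1 : ∑ f ∈ (MON F (2 * g + 1)).filter (fun f => ¬ Squarefree f), ((sol f).card : ℝ) ≤
      ∑ m ∈ Finset.Icc 1 g, ∑ p ∈ MON F m ×ˢ MON F (2 * (g - m) + 1),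
        ((sol (p.1 ^ 2 * p.2)).card : ℝ) := by
    have h2 := sum_le_of_cover ((MON F (2 * g + 1)).filter (fun f => ¬ Squarefree f))
      ((Finset.Icc 1 g).sigma (fun m => MON F m ×ˢ MON F (2 * (g - m) + 1)))
      (fun p => p.2.1 ^ 2 * p.2.2) (fun f => ((sol f).card : ℝ)) (fun _ => Nat.cast_nonneg _)
      (cov hB0 hSQ g)
    rw [Finset.sum_sigma] at h2
    exact h2
  have h2 : ∑ m ∈ Finset.Icc 1 g, ∑ p ∈ MON F m ×ˢ MON F (2 * (g - m) + 1),
        ((sol (p.1 ^ 2 * p.2)).card : ℝ) ≤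
      ∑ m ∈ Finset.Icc 1 g, (40002 * qq F ^ (2 * g + 1) * (5 / qq F) ^ m +
        (if g - m < 40 then r ^ (4 * g + 1) else 0)) :=
    Finset.sum_le_sum fun m hm => term hB0 hB1 hW3 hZ2 r hr5 hrq hr.symm g m (Finset.mem_Icc.mp hm).2 hg
  have h3 : ∑ m ∈ Finset.Icc 1 g, (5 / qq F) ^ m ≤ 5 / 4 * (1 / r) := by
    have h4 : 5 / qq F ≤ 1 / r := by
      rw [← hrq, div_le_div_iff₀ (by positivity) hr0]
      nlinarith
    have h5 : 5 / qq F ≤ 1 / 5 := by
      rw [div_le_div_iff₀ hq0 (by norm_num)]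
      linarith
    have h6 := geo (5 / qq F) (by positivity) h5 g
    have h7 : (0 : ℝ) ≤ (1 / 5) ^ g := by positivity
    have h8 : 0 ≤ 5 / qq F := by positivity
    have h9 : 5 / 4 * (5 / qq F) * (1 - (1 / 5) ^ g) ≤ 5 / 4 * (5 / qq F) * 1 :=
      mul_le_mul_of_nonneg_left (by linarith) (by positivity)
    linarith
  have h4 : ∑ m ∈ Finset.Icc 1 g, (if g - m < 40 then r ^ (4 * g + 1) else 0) ≤
      40 * r ^ (4 * g + 1) := by
    rw [← Finset.sum_filter, Finset.sum_const, nsmul_eq_mul]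
    refine mul_le_mul_of_nonneg_right ?_ (by positivity)
    have h5 : (Finset.Icc 1 g).filter (fun m => g - m < 40) ⊆ Finset.Ioc (g - 40) g := by
      intro m hm
      rw [Finset.mem_filter, Finset.mem_Icc] at hm
      rw [Finset.mem_Ioc]
      omega
    have h6 := Finset.card_le_card h5
    rw [Nat.card_Ioc] at h6
    have h7 : ((Finset.Icc 1 g).filter (fun m => g - m < 40)).card ≤ 40 := by omega
    exact_mod_cast h7
  have h5 : qq F ^ (2 * g + 1) / r = r ^ (4 * g + 1) := by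
    rw [← hrq, ← pow_mul, div_eq_iff hr0.ne', ← pow_succ]
    congr 1
    ring
  have hQ0 : 0 ≤ r ^ (4 * g + 1) := by positivity
  have h6 : qq F ^ (2 * g + 1) * (1 / r) = r ^ (4 * g + 1) := by
    rw [← h5]
    ring
  refine (h1.trans h2).trans ?_
  rw [Finset.sum_add_distrib, ← Finset.mul_sum, mul_div_assoc, h5]
  have h7 : 40002 * qq F ^ (2 * g + 1) * ∑ m ∈ Finset.Icc 1 g, (5 / qq F) ^ m ≤
      40002 * qq F ^ (2 * g + 1) * (5 / 4 * (1 / r)) :=
    mul_le_mul_of_nonneg_left h3 (by positivity)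
  have h8 : 40002 * qq F ^ (2 * g + 1) * (5 / 4 * (1 / r)) = 50002.5 * r ^ (4 * g + 1) := by
    rw [← h6]
    ring
  linarith

end D5
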