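import Pool.Agent.H506.D5.Stm3

/-!
# D5, X1: the exponential sum vanishes unless `Ex` (helper898 for helper506; edit of E1 of helper127)
-/

open Polynomial
open scoped Classical

noncomputable section

namespace D5

namespace XX1

variable {F : Type} [Field F]

lemma Lam_add (g : ℕ) (l : Fin g → F) (w w' : F[X]) :
    Lam g l (w + w') = Lam g l w + Lam g l w' := by
  unfold Lam
  rw [← Finset.sum_add_distrib]
  exact Finset.sum_congr rfl fun j _ => by rw [coeff_add, mul_add]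

lemma Lam_C_mul (g : ℕ) (l : Fin g → F) (c : F) (w : F[X]) :
    Lam g l (C c * w) = c * Lam g l w := by
  unfold Lam
  rw [Finset.mul_sum]
  exact Finset.sum_congr rfl fun j _ => by rw [coeff_C_mul, mul_left_comm]

variable [Fintype F]

lemma mem_add (hB0 : S_B0 F) {n : ℕ} {u w : F[X]} (hu : u ∈ POL F n) (hw : w ∈ POL F n) :
    u + w ∈ POL F n := by
  rw [hB0.1] at hu hw ⊢
  exact (degree_add_le _ _).trans_lt (max_lt hu hw)

lemma mem_sub (hB0 : S_B0 F) {n : ℕ} {u w : F[X]} (hu : u ∈ POL F n) (hw : w ∈ POL F n) :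
    u - w ∈ POL F n := by
  rw [hB0.1] at hu hw ⊢
  exact (degree_sub_le _ _).trans_lt (max_lt hu hw)

lemma mem_C_mul (hB0 : S_B0 F) {n : ℕ} (c : F) {u : F[X]} (hu : u ∈ POL F n) :
    C c * u ∈ POL F n := by
  rw [hB0.1] at hu ⊢
  refine lt_of_le_of_lt ?_ hu
  refine (degree_mul_le _ _).trans ?_
  calc (C c).degree + u.degree ≤ 0 + u.degree := by gcongr; exact degree_C_le
    _ = u.degree := zero_add _

lemma sum_shift (hB0 : S_B0 F) {n : ℕ} {u : F[X]} (hu : u ∈ POL F n) (G : F[X] → ℂ) :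
    ∑ w ∈ POL F n, G (u + w) = ∑ w ∈ POL F n, G w :=
  Finset.sum_nbij' (fun w => u + w) (fun w => w - u) (fun _ hw => mem_add hB0 hu hw)
    (fun _ hw => mem_sub hB0 hw hu) (fun w _ => add_sub_cancel_left u w)
    (fun w _ => add_sub_cancel u w) (fun _ _ => rfl)

omit [Fintype F] in
lemma two_ne [CharP F 5] : (2 : F) ≠ 0 := by
  intro h
  have h1 : ((2 : ℕ) : F) = 0 := by exact_mod_cast h
  rw [CharP.cast_eq_zero_iff F 5] at h1
  omega

/-- The inner sum is `0` outside of the radical. -/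
lemma inner0 (hB0 : S_B0 F) (h2 : (2 : F) ≠ 0) (ψ : AddChar F ℂ) (hψ : ψ ≠ 1) (g : ℕ)
    (l : Fin g → F) (w : F[X]) (n : ℕ) (h : ¬ ∀ y ∈ POL F n, Lam g l (w * y) = 0) :
    ∑ u ∈ POL F n, ψ (Lam g l (w * u + w * u)) = 0 := by
  push Not at h
  obtain ⟨u₀, hu₀, hc⟩ := h
  obtain ⟨a, ha⟩ := AddChar.ne_one_iff.1 hψ
  have hu₁ : C (a / (2 * Lam g l (w * u₀))) * u₀ ∈ POL F n := mem_C_mul hB0 _ hu₀
  have h3 := sum_shift hB0 hu₁ (fun u => ψ (Lam g l (w * u + w * u)))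
  have h4 : ∀ u, ψ (Lam g l (w * (C (a / (2 * Lam g l (w * u₀))) * u₀ + u) +
      w * (C (a / (2 * Lam g l (w * u₀))) * u₀ + u))) =
      ψ a * ψ (Lam g l (w * u + w * u)) := by
    intro u
    rw [← AddChar.map_add_eq_mul]
    congr 1
    have h5 : w * (C (a / (2 * Lam g l (w * u₀))) * u₀ + u) +
        w * (C (a / (2 * Lam g l (w * u₀))) * u₀ + u) =
        (C (a / (2 * Lam g l (w * u₀))) * (w * u₀) +
          C (a / (2 * Lam g l (w * u₀))) * (w * u₀)) + (w * u + w * u) := by ring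
    rw [h5, Lam_add, Lam_add, Lam_C_mul]
    congr 1
    field_simp
    ring
  simp only [h4] at h3
  rw [← Finset.mul_sum] at h3
  have h6 : (ψ a - 1) * ∑ u ∈ POL F n, ψ (Lam g l (w * u + w * u)) = 0 := by
    rw [sub_mul, one_mul, h3, sub_self]
  rcases mul_eq_zero.1 h6 with h8 | h8
  · exact absurd (sub_eq_zero.1 h8) ha
  · exact h8

/-- The inner sum is `q ^ n` in the radical. -/
lemma inner1 (hB0 : S_B0 F) (ψ : AddChar F ℂ) (g : ℕ)
    (l : Fin g → F) (w : F[X]) (n : ℕ) (h : ∀ y ∈ POL F n, Lam g l (w * y) = 0) :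
    ∑ u ∈ POL F n, ψ (Lam g l (w * u + w * u)) = ((Fintype.card F ^ n : ℕ) : ℂ) := by
  have h3 : ∀ u ∈ POL F n, ψ (Lam g l (w * u + w * u)) = 1 := fun u hu => by
    rw [Lam_add, h u hu, add_zero, AddChar.map_zero_eq_one]
  rw [Finset.sum_congr rfl h3, Finset.sum_const, nsmul_eq_mul, mul_one, hB0.2.2.2.1]

/-- the radical -/
def Rad (g : ℕ) (l : Fin g → F) (v : F[X]) (n : ℕ) : Finset F[X] :=
  (POL F n).filter (fun z => ∀ y ∈ POL F n, Lam g l (v * z * y) = 0)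

lemma rad_add (hB0 : S_B0 F) {g : ℕ} {l : Fin g → F} {v : F[X]} {n : ℕ} {z w : F[X]}
    (hz : z ∈ Rad g l v n) (hw : w ∈ Rad g l v n) : z + w ∈ Rad g l v n := by
  unfold Rad at hz hw ⊢
  rw [Finset.mem_filter] at hz hw ⊢
  refine ⟨mem_add hB0 hz.1 hw.1, fun y hy => ?_⟩
  rw [show v * (z + w) * y = v * z * y + v * w * y by ring, Lam_add, hz.2 y hy, hw.2 y hy,
    add_zero]

lemma rad_C_mul (hB0 : S_B0 F) {g : ℕ} {l : Fin g → F} {v : F[X]} {n : ℕ} (c : F) {z : F[X]}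
    (hz : z ∈ Rad g l v n) : C c * z ∈ Rad g l v n := by
  unfold Rad at hz ⊢
  rw [Finset.mem_filter] at hz ⊢
  refine ⟨mem_C_mul hB0 c hz.1, fun y hy => ?_⟩
  rw [show v * (C c * z) * y = C c * (v * z * y) by ring, Lam_C_mul, hz.2 y hy, mul_zero]

lemma rad_sub (hB0 : S_B0 F) {g : ℕ} {l : Fin g → F} {v : F[X]} {n : ℕ} {z w : F[X]}
    (hz : z ∈ Rad g l v n) (hw : w ∈ Rad g l v n) : z - w ∈ Rad g l v n := by
  have h := rad_add hB0 hz (rad_C_mul hB0 (-1) hw)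
  rwa [C_neg, C_1, neg_one_mul, ← sub_eq_add_neg] at h

lemma rad_shift (hB0 : S_B0 F) {g : ℕ} {l : Fin g → F} {v : F[X]} {n : ℕ} {u : F[X]}
    (hu : u ∈ Rad g l v n) (G : F[X] → ℂ) :
    ∑ w ∈ Rad g l v n, G (u + w) = ∑ w ∈ Rad g l v n, G w :=
  Finset.sum_nbij' (fun w => u + w) (fun w => w - u) (fun _ hw => rad_add hB0 hu hw)
    (fun _ hw => rad_sub hB0 hw hu) (fun w _ => add_sub_cancel_left u w)
    (fun w _ => add_sub_cancel u w) (fun _ _ => rfl)

/-- the sum over the radical vanishes if the linear term is nontrivial -/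
lemma rad_sum (hB0 : S_B0 F) (h2 : (2 : F) ≠ 0) (ψ : AddChar F ℂ) (hψ : ψ ≠ 1) (g : ℕ)
    (l : Fin g → F) (v : F[X]) (n : ℕ)
    (h : ¬ ∀ z ∈ Rad g l v n, Lam g l (v * z * X ^ n) = 0) :
    ∑ z ∈ Rad g l v n, ψ (Lam g l (v * z * X ^ n + v * z * X ^ n)) = 0 := by
  push Not at h
  obtain ⟨z₀, hz₀, hc⟩ := h
  obtain ⟨a, ha⟩ := AddChar.ne_one_iff.1 hψ
  have hz₁ : C (a / (2 * Lam g l (v * z₀ * X ^ n))) * z₀ ∈ Rad g l v n := rad_C_mul hB0 _ hz₀
  have h3 := rad_shift hB0 hz₁ (fun z => ψ (Lam g l (v * z * X ^ n + v * z * X ^ n)))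
  have h4 : ∀ z, ψ (Lam g l (v * (C (a / (2 * Lam g l (v * z₀ * X ^ n))) * z₀ + z) * X ^ n +
      v * (C (a / (2 * Lam g l (v * z₀ * X ^ n))) * z₀ + z) * X ^ n)) =
      ψ a * ψ (Lam g l (v * z * X ^ n + v * z * X ^ n)) := by
    intro z
    rw [← AddChar.map_add_eq_mul]
    congr 1
    have h5 : v * (C (a / (2 * Lam g l (v * z₀ * X ^ n))) * z₀ + z) * X ^ n +
        v * (C (a / (2 * Lam g l (v * z₀ * X ^ n))) * z₀ + z) * X ^ n =
        (C (a / (2 * Lam g l (v * z₀ * X ^ n))) * (v * z₀ * X ^ n) +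
          C (a / (2 * Lam g l (v * z₀ * X ^ n))) * (v * z₀ * X ^ n)) +
          (v * z * X ^ n + v * z * X ^ n) := by ring
    rw [h5, Lam_add, Lam_add, Lam_C_mul]
    congr 1
    field_simp
    ring
  simp only [h4] at h3
  rw [← Finset.mul_sum] at h3
  have h6 : (ψ a - 1) * ∑ z ∈ Rad g l v n, ψ (Lam g l (v * z * X ^ n + v * z * X ^ n)) = 0 := by
    rw [sub_mul, one_mul, h3, sub_self]
  rcases mul_eq_zero.1 h6 with h8 | h8
  · exact absurd (sub_eq_zero.1 h8) ha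
  · exact h8

end XX1

open XX1 in
/-- **X1** -/
theorem p_X1 (F : Type) [Field F] [Fintype F] [CharP F 5] (hB0 : S_B0 F) : S_X1 F := by
  intro ψ hψ g l v
  set n : ℕ := 2 * g + 1 with hn
  set E : F[X] → ℂ := fun u => ψ (Lam g l ((X ^ n + u) ^ 2 * v)) with hE
  have hS : ∑ f ∈ MON F n, ψ (Lam g l (f ^ 2 * v)) = ∑ u ∈ POL F n, E u := by
    unfold MON
    rw [Finset.sum_image fun u _ w _ h => add_left_cancel h]
  rw [hS]
  have h1 : ∀ u z : F[X], E (u + z) * (starRingEnd ℂ) (E u) =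
      ψ (Lam g l (z ^ 2 * v + (v * z * X ^ n + v * z * X ^ n))) *
        ψ (Lam g l (v * z * u + v * z * u)) := by
    intro u z
    rw [hE]
    dsimp only
    rw [← AddChar.map_neg_eq_conj, ← AddChar.map_add_eq_mul, ← AddChar.map_add_eq_mul]
    congr 1
    have h2 : (X ^ n + (u + z)) ^ 2 * v = (X ^ n + u) ^ 2 * v +
        (z ^ 2 * v + (v * z * X ^ n + v * z * X ^ n)) + (v * z * u + v * z * u) := by ring
    rw [h2, Lam_add, Lam_add]
    ring
  have h2 : (∑ u ∈ POL F n, E u) * (starRingEnd ℂ) (∑ u ∈ POL F n, E u) =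
      ∑ z ∈ POL F n, ψ (Lam g l (z ^ 2 * v + (v * z * X ^ n + v * z * X ^ n))) *
        ∑ u ∈ POL F n, ψ (Lam g l (v * z * u + v * z * u)) := by
    rw [map_sum, Finset.sum_mul_sum, Finset.sum_comm]
    have h3 : ∀ u ∈ POL F n, ∑ w ∈ POL F n, E w * (starRingEnd ℂ) (E u) =
        ∑ z ∈ POL F n, ψ (Lam g l (z ^ 2 * v + (v * z * X ^ n + v * z * X ^ n))) *
          ψ (Lam g l (v * z * u + v * z * u)) := by
      intro u hu
      rw [← sum_shift hB0 hu (fun w => E w * (starRingEnd ℂ) (E u))]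
      exact Finset.sum_congr rfl fun z _ => h1 u z
    rw [Finset.sum_congr rfl h3, Finset.sum_comm]
    exact Finset.sum_congr rfl fun z _ => (Finset.mul_sum _ _ _).symm
  have h3 : (∑ u ∈ POL F n, E u) * (starRingEnd ℂ) (∑ u ∈ POL F n, E u) =
      (∑ z ∈ Rad g l v n, ψ (Lam g l (v * z * X ^ n + v * z * X ^ n))) *
        ((Fintype.card F ^ n : ℕ) : ℂ) := by
    rw [h2, Finset.sum_mul]
    unfold Rad
    rw [Finset.sum_filter]
    refine Finset.sum_congr rfl fun z hz => ?_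
    split_ifs with h
    · rw [inner1 hB0 ψ g l (v * z) n h, Lam_add,
        show z ^ 2 * v = v * z * z by ring, h z hz, zero_add]
    · rw [inner0 hB0 two_ne ψ hψ g l (v * z) n h, mul_zero]
  have h4 : ‖∑ u ∈ POL F n, E u‖ ^ 2 =
      ‖(∑ u ∈ POL F n, E u) * (starRingEnd ℂ) (∑ u ∈ POL F n, E u)‖ := by
    rw [norm_mul, RCLike.norm_conj, sq]
  rw [h4, h3]
  have hEx : Ex g l v ↔ ∀ z ∈ Rad g l v n, Lam g l (v * z * X ^ n) = 0 := by
    unfold Ex Rad
    constructor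
    · intro h z hz
      rw [Finset.mem_filter] at hz
      exact h z hz.1 hz.2
    · intro h z hz hz'
      exact h z (Finset.mem_filter.2 ⟨hz, hz'⟩)
  split_ifs with hx
  · rw [norm_mul]
    have h5 : ‖∑ z ∈ Rad g l v n, ψ (Lam g l (v * z * X ^ n + v * z * X ^ n))‖ ≤
        ((Rad g l v n).card : ℝ) := by
      refine (norm_sum_le _ _).trans (le_of_eq ?_)
      rw [Finset.sum_congr rfl fun z _ => AddChar.norm_apply ψ _, Finset.sum_const,
        nsmul_eq_mul, mul_one]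
    have h6 : ‖((Fintype.card F ^ n : ℕ) : ℂ)‖ = qq F ^ n := by
      rw [Complex.norm_natCast]
      unfold qq
      rw [Nat.cast_pow]
    have h7 : (KK g l v : ℝ) = ((Rad g l v n).card : ℝ) := by
      unfold KK Rad
      refine congrArg (fun k : ℕ => (k : ℝ)) (congrArg Finset.card (Finset.ext fun z => ?_))
      simp only [Finset.mem_filter, hn]
    rw [h6, h7, mul_comm]
    exact mul_le_mul_of_nonneg_left h5 (pow_nonneg (Nat.cast_nonneg _) _)
  · rw [rad_sum hB0 two_ne ψ hψ g l v n (fun h => hx (hEx.2 h)), zero_mul, norm_zero]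

end D5
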