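import Pool.Agent.H506.D5.Stm3

/-!
# X10 (helper675 for helper506): summation over `k`
-/

open Polynomial
open scoped Classical

noncomputable section

namespace D5

variable (F : Type) [Field F] [Fintype F] [CharP F 5]

namespace XX10

theorem r58 : (5 : ℝ) ^ (5 / 8 : ℝ) ≤ 3 := by
  calc (5 : ℝ) ^ (5 / 8 : ℝ) = ((5 : ℝ) ^ (5 : ℝ)) ^ (1 / 8 : ℝ) := by
        rw [← Real.rpow_mul (by norm_num)]
        norm_num
    _ ≤ ((3 : ℝ) ^ (8 : ℝ)) ^ (1 / 8 : ℝ) := by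
        refine Real.rpow_le_rpow (by positivity) ?_ (by norm_num)
        have h1 : (5 : ℝ) ^ (5 : ℝ) = 3125 := by norm_num
        have h2 : (3 : ℝ) ^ (8 : ℝ) = 6561 := by norm_num
        rw [h1, h2]
        norm_num
    _ = 3 := by
        rw [← Real.rpow_mul (by norm_num)]
        norm_num

theorem r16 : (5 : ℝ) ^ (-(1 / 16) : ℝ) ≤ 24 / 25 := by
  calc (5 : ℝ) ^ (-(1 / 16) : ℝ) = ((5 : ℝ) ^ (-1 : ℝ)) ^ (1 / 16 : ℝ) := by
        rw [← Real.rpow_mul (by norm_num)]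
        norm_num
    _ ≤ ((24 / 25 : ℝ) ^ (16 : ℝ)) ^ (1 / 16 : ℝ) := by
        refine Real.rpow_le_rpow (by positivity) ?_ (by norm_num)
        have h1 : (5 : ℝ) ^ (-1 : ℝ) = 1 / 5 := by
          rw [Real.rpow_neg_one]
          norm_num
        have h2 : (24 / 25 : ℝ) ^ (16 : ℝ) = (24 / 25 : ℝ) ^ (16 : ℕ) := by
          rw [show (16 : ℝ) = ((16 : ℕ) : ℝ) by norm_num, Real.rpow_natCast]
        rw [h1, h2]
        norm_num
    _ = 24 / 25 := by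
        rw [← Real.rpow_mul (by norm_num)]
        norm_num

theorem geo (n : ℕ) : ∑ k ∈ Finset.range n, (5 : ℝ) ^ (-((k : ℝ) / 16)) ≤ 25 := by
  have h0 : (0 : ℝ) < (5 : ℝ) ^ (-(1 / 16) : ℝ) := by positivity
  have h1 : ∀ k : ℕ, (5 : ℝ) ^ (-((k : ℝ) / 16)) = ((5 : ℝ) ^ (-(1 / 16) : ℝ)) ^ k := by
    intro k
    rw [← Real.rpow_natCast, ← Real.rpow_mul (by norm_num)]
    congr 1
    ring
  rw [Finset.sum_congr rfl fun k _ => h1 k]
  have h2 := geom_sum_mul_neg ((5 : ℝ) ^ (-(1 / 16) : ℝ)) n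
  have h3 := r16
  have h4 : (0 : ℝ) ≤ ((5 : ℝ) ^ (-(1 / 16) : ℝ)) ^ n := pow_nonneg h0.le n
  have h5 : (0 : ℝ) ≤ ∑ k ∈ Finset.range n, ((5 : ℝ) ^ (-(1 / 16) : ℝ)) ^ k :=
    Finset.sum_nonneg fun k _ => pow_nonneg h0.le k
  nlinarith

theorem divq {q N c : ℝ} (hq : 5 ≤ q) {A B C : ℕ} (h : N * q ^ A * q ^ B ≤ c * q ^ C) :
    N ≤ c * q ^ ((C : ℝ) - A - B) := by
  have hq0 : 0 < q := by linarith
  rw [Real.rpow_sub hq0, Real.rpow_sub hq0, Real.rpow_natCast, Real.rpow_natCast,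
    Real.rpow_natCast, ← mul_div_assoc, ← mul_div_assoc, le_div_iff₀ (by positivity),
    le_div_iff₀ (by positivity)]
  calc N * q ^ B * q ^ A = N * q ^ A * q ^ B := by ring
    _ ≤ c * q ^ C := h

/-- the final step for one `k` -/
theorem last {q N c e G x δ k : ℝ} (hq : 5 ≤ q) (hN : N ≤ c * q ^ e) (hc0 : 0 ≤ c) (hc : c ≤ 13)
    (h1 : e + k / 2 ≤ G - x / 2) (h2 : e + k / 2 ≤ G - x / 2 - (x / 8 + δ / 4 + k / 16 - 5 / 8)) :
    N * q ^ (k / 2) ≤ 40 * (q ^ G * q ^ (-(x / 2)) * 5 ^ (-(x / 8)) * 5 ^ (-(δ / 4))) *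
      5 ^ (-(k / 16)) := by
  have hq0 : 0 < q := by linarith
  obtain ⟨T, hT⟩ : ∃ T, T = G - x / 2 - (e + k / 2) := ⟨_, rfl⟩
  have hT0 : 0 ≤ T := by linarith
  have h3 : q ^ (-T) ≤ 5 ^ (-T) := Real.rpow_le_rpow_of_nonpos (by norm_num) hq (by linarith)
  have h4 : (5 : ℝ) ^ (-T) ≤ 5 ^ (5 / 8 + (-(x / 8)) + (-(δ / 4)) + (-(k / 16))) :=
    Real.rpow_le_rpow_of_exponent_le (by norm_num) (by linarith)
  have h5 : (5 : ℝ) ^ (5 / 8 + (-(x / 8)) + (-(δ / 4)) + (-(k / 16))) =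
      5 ^ (5 / 8 : ℝ) * 5 ^ (-(x / 8)) * 5 ^ (-(δ / 4)) * 5 ^ (-(k / 16)) := by
    rw [Real.rpow_add (by norm_num), Real.rpow_add (by norm_num), Real.rpow_add (by norm_num)]
  have h6 := r58
  have p1 : (0 : ℝ) < 5 ^ (-(x / 8)) := by positivity
  have p2 : (0 : ℝ) < 5 ^ (-(δ / 4)) := by positivity
  have p3 : (0 : ℝ) < 5 ^ (-(k / 16)) := by positivity
  have p4 : 0 < q ^ G := Real.rpow_pos_of_pos hq0 _
  have p5 : 0 < q ^ (-(x / 2)) := Real.rpow_pos_of_pos hq0 _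
  have p6 : 0 < q ^ (k / 2) := Real.rpow_pos_of_pos hq0 _
  have h7 : q ^ (-T) ≤ 3 * (5 ^ (-(x / 8)) * 5 ^ (-(δ / 4)) * 5 ^ (-(k / 16))) := by
    refine (h3.trans h4).trans ?_
    rw [h5]
    calc (5 : ℝ) ^ (5 / 8 : ℝ) * 5 ^ (-(x / 8)) * 5 ^ (-(δ / 4)) * 5 ^ (-(k / 16))
        = (5 : ℝ) ^ (5 / 8 : ℝ) * (5 ^ (-(x / 8)) * 5 ^ (-(δ / 4)) * 5 ^ (-(k / 16))) := by ring
      _ ≤ _ := mul_le_mul_of_nonneg_right h6 (by positivity)
  calc N * q ^ (k / 2) ≤ c * q ^ e * q ^ (k / 2) := mul_le_mul_of_nonneg_right hN p6.le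
    _ = c * (q ^ G * q ^ (-(x / 2)) * q ^ (-T)) := by
        rw [mul_assoc, ← Real.rpow_add hq0, ← Real.rpow_add hq0, ← Real.rpow_add hq0]
        congr 2
        rw [hT]
        ring
    _ ≤ 13 * (q ^ G * q ^ (-(x / 2)) * (3 * (5 ^ (-(x / 8)) * 5 ^ (-(δ / 4)) *
          5 ^ (-(k / 16))))) := by
        refine mul_le_mul hc (mul_le_mul_of_nonneg_left h7 (by positivity)) ?_ (by norm_num)
        have : 0 < q ^ (-T) := Real.rpow_pos_of_pos hq0 _
        positivity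
    _ = 39 * (q ^ G * q ^ (-(x / 2)) * 5 ^ (-(x / 8)) * 5 ^ (-(δ / 4)) * 5 ^ (-(k / 16))) := by
        ring
    _ ≤ 40 * (q ^ G * q ^ (-(x / 2)) * 5 ^ (-(x / 8)) * 5 ^ (-(δ / 4)) * 5 ^ (-(k / 16))) :=
        mul_le_mul_of_nonneg_right (by norm_num) (by positivity)
    _ = _ := by ring

/-- the bound for one `k` -/
theorem bnd {q N : ℝ} (hq : 5 ≤ q) {g d j k : ℕ} (hg : 40 ≤ g) (hj : j < g) (hk : 1 ≤ k)
    (ha : N ≤ q ^ (g + j + 1)) (hb : N ≤ 2 * q ^ (2 * d + j + 1))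
    (hc : 2 * g + 5 + k ≤ 5 * d → N * q ^ (2 * k) * q ^ (g + 1 - 2 * d) ≤ 13 * q ^ (2 * g + 1))
    (hd : N * q ^ (2 * k) * q ^ (g + 1 - 2 * d) ≤ 4 * q ^ (2 * g + 4))
    (h1 : 2 * g + 2 + k ≤ 5 * d) (h2 : 2 * d ≤ g + 1) :
    N * q ^ ((k : ℝ) / 2) ≤ 40 * (q ^ (2 * g) * q ^ (-(((g : ℝ) - 1 - j) / 2)) *
      (5 : ℝ) ^ (-(((g : ℝ) - 1 - j) / 8)) * (5 : ℝ) ^ (-(((g : ℝ) + 1 - 2 * d) / 4))) *
      (5 : ℝ) ^ (-((k : ℝ) / 16)) := by
  have hq0 : 0 < q := by linarith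
  have ha' : N ≤ 1 * q ^ ((g : ℝ) + j + 1) := by
    rw [one_mul]
    have e : ((g : ℝ) + j + 1) = ((g + j + 1 : ℕ) : ℝ) := by push_cast; ring
    rw [e, Real.rpow_natCast]
    exact ha
  have hb' : N ≤ 2 * q ^ (2 * (d : ℝ) + j + 1) := by
    have e : (2 * (d : ℝ) + j + 1) = ((2 * d + j + 1 : ℕ) : ℝ) := by push_cast; ring
    rw [e, Real.rpow_natCast]
    exact hb
  have eG : q ^ (2 * g) = q ^ (2 * (g : ℝ)) := by
    have e : (2 * (g : ℝ)) = ((2 * g : ℕ) : ℝ) := by push_cast; ring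
    rw [e, Real.rpow_natCast]
  have eB : ((g + 1 - 2 * d : ℕ) : ℝ) = (g : ℝ) + 1 - 2 * d := by
    rw [Nat.cast_sub h2]
    push_cast
    ring
  rw [eG]
  have hgR : (40 : ℝ) ≤ g := by exact_mod_cast hg
  have hkR : (1 : ℝ) ≤ k := by exact_mod_cast hk
  have hjR : (j : ℝ) + 1 ≤ g := by exact_mod_cast hj
  have h1R : 2 * (g : ℝ) + 2 + k ≤ 5 * d := by exact_mod_cast h1
  have h2R : 2 * (d : ℝ) ≤ g + 1 := by exact_mod_cast h2
  by_cases hA : 2 * g + 5 + k ≤ 5 * d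
  · by_cases hx : j + 2 * k ≤ g
    · have hxR : (j : ℝ) + 2 * k ≤ g := by exact_mod_cast hx
      by_cases hδ : 2 * d = g + 1
      · have hδR : 2 * (d : ℝ) = g + 1 := by exact_mod_cast hδ
        exact last hq ha' (by norm_num) (by norm_num) (by linarith) (by linarith)
      · have hδ' : 2 * d ≤ g := by omega
        have hδR : 2 * (d : ℝ) ≤ g := by exact_mod_cast hδ'
        exact last hq hb' (by norm_num) (by norm_num) (by linarith) (by linarith)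
    · have hx' : g + 1 ≤ j + 2 * k := by omega
      have hxR : (g : ℝ) + 1 ≤ j + 2 * k := by exact_mod_cast hx'
      have hc' := divq hq (hc hA)
      rw [eB] at hc'
      push_cast at hc'
      exact last hq hc' (by norm_num) (by norm_num) (by linarith) (by linarith)
  · have hA' : 5 * d ≤ 2 * g + 4 + k := by omega
    have hAR : 5 * (d : ℝ) ≤ 2 * g + 4 + k := by exact_mod_cast hA'
    by_cases hx : j + 2 * k ≤ g + 3
    · have hxR : (j : ℝ) + 2 * k ≤ g + 3 := by exact_mod_cast hx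
      by_cases hδ : 2 * d = g + 1
      · have hδR : 2 * (d : ℝ) = g + 1 := by exact_mod_cast hδ
        exact last hq ha' (by norm_num) (by norm_num) (by linarith) (by linarith)
      · have hδ' : 2 * d ≤ g := by omega
        have hδR : 2 * (d : ℝ) ≤ g := by exact_mod_cast hδ'
        exact last hq hb' (by norm_num) (by norm_num) (by linarith) (by linarith)
    · have hx' : g + 4 ≤ j + 2 * k := by omega
      have hxR : (g : ℝ) + 4 ≤ j + 2 * k := by exact_mod_cast hx'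
      have hd' := divq hq hd
      rw [eB] at hd'
      push_cast at hd'
      exact last hq hd' (by norm_num) (by norm_num) (by linarith) (by linarith)

theorem five_le : 5 ≤ qq F := by
  have h : 5 ≤ Fintype.card F := by
    have h1 : 5 ∣ Fintype.card F := by
      rw [← CharP.cast_eq_zero_iff F 5]
      exact Nat.cast_card_eq_zero F
    exact Nat.le_of_dvd Fintype.card_pos h1
  unfold qq
  exact_mod_cast h

/-- the pairs for one `k` -/
def SS (g d j k : ℕ) (a : F[X]) : Finset ((Fin g → F) × F[X]) :=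
  ((Finset.univ : Finset (Fin g → F)) ×ˢ DEG F j).filter (fun p => rr g p.1 = d ∧
    Squarefree p.2 ∧ NLs g p.1 (a ^ 2 * p.2) k)

theorem card_deg (hB0 : S_B0 F) (j : ℕ) : ((DEG F j).card : ℝ) ≤ qq F ^ (j + 1) := by
  rw [hB0.2.2.2.2.2 j]
  unfold qq
  have h : (Fintype.card F - 1) * Fintype.card F ^ j ≤ Fintype.card F ^ (j + 1) := by
    rw [pow_succ, mul_comm]
    exact Nat.mul_le_mul_left _ (Nat.sub_le _ _)
  exact_mod_cast h

theorem card_a (hB0 : S_B0 F) (g d j k : ℕ) (a : F[X]) :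
    ((SS F g d j k a).card : ℝ) ≤ qq F ^ (g + j + 1) := by
  have h1 : (SS F g d j k a).card ≤ ((Finset.univ : Finset (Fin g → F)) ×ˢ DEG F j).card :=
    Finset.card_filter_le _ _
  rw [Finset.card_product, Finset.card_univ, Fintype.card_fun, Fintype.card_fin] at h1
  have h2 : ((SS F g d j k a).card : ℝ) ≤ qq F ^ g * ((DEG F j).card : ℝ) := by
    unfold qq
    exact_mod_cast h1
  refine h2.trans ?_
  have hq := five_le F
  calc qq F ^ g * ((DEG F j).card : ℝ) ≤ qq F ^ g * qq F ^ (j + 1) :=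
        mul_le_mul_of_nonneg_left (card_deg F hB0 j) (by positivity)
    _ = qq F ^ (g + j + 1) := by rw [← pow_add, add_assoc]

theorem card_b (hB0 : S_B0 F) (hX3 : S_X3 F) (g d j k : ℕ) (a : F[X]) :
    ((SS F g d j k a).card : ℝ) ≤ 2 * qq F ^ (2 * d + j + 1) := by
  have h1 : (SS F g d j k a).card ≤
      (((Finset.univ : Finset (Fin g → F)).filter (fun l => rr g l = d)) ×ˢ DEG F j).card := by
    refine Finset.card_le_card fun p hp => ?_
    unfold SS at hp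
    rw [Finset.mem_filter, Finset.mem_product] at hp
    rw [Finset.mem_product, Finset.mem_filter]
    exact ⟨⟨hp.1.1, hp.2.1⟩, hp.1.2⟩
  rw [Finset.card_product] at h1
  have h2 := hX3.1 g d
  have h3 : (SS F g d j k a).card ≤ 2 * Fintype.card F ^ (2 * d) * (DEG F j).card :=
    h1.trans (Nat.mul_le_mul_right _ h2)
  have h4 : ((SS F g d j k a).card : ℝ) ≤ 2 * qq F ^ (2 * d) * ((DEG F j).card : ℝ) := by
    unfold qq
    exact_mod_cast h3
  refine h4.trans ?_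
  have hq := five_le F
  calc 2 * qq F ^ (2 * d) * ((DEG F j).card : ℝ) ≤ 2 * qq F ^ (2 * d) * qq F ^ (j + 1) :=
        mul_le_mul_of_nonneg_left (card_deg F hB0 j) (by positivity)
    _ = 2 * qq F ^ (2 * d + j + 1) := by rw [mul_assoc, ← pow_add, add_assoc]

end XX10

open XX10 in
theorem p_X10 (hB0 : S_B0 F) (hX3 : S_X3 F) (hX9 : S_X9 F) : S_X10 F := by
  intro g d n j a hg ha hnj hd
  have hq := five_le F
  have hq0 : 0 < qq F := by linarith
  obtain ⟨Q, hQ⟩ : ∃ Q : ℝ, Q = qq F ^ (2 * g) * qq F ^ (-(((g : ℝ) - 1 - j) / 2)) *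
      (5 : ℝ) ^ (-(((g : ℝ) - 1 - j) / 8)) * (5 : ℝ) ^ (-(((g : ℝ) + 1 - 2 * d) / 4)) := ⟨_, rfl⟩
  have hQ0 : 0 < Q := by
    rw [hQ]
    have : 0 < qq F ^ (-(((g : ℝ) - 1 - j) / 2)) := Real.rpow_pos_of_pos hq0 _
    positivity
  have hκ : ∀ p : (Fin g → F) × F[X], ∃ k : ℕ, (∃ k, NLs g p.1 (a ^ 2 * p.2) k) →
      NLs g p.1 (a ^ 2 * p.2) k := by
    intro p
    by_cases h : ∃ k, NLs g p.1 (a ^ 2 * p.2) k
    · obtain ⟨k, hk⟩ := h
      exact ⟨k, fun _ => hk⟩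
    · exact ⟨0, fun h' => absurd h' h⟩
  choose κ hκ using hκ
  have h1 : ∑ p ∈ ((Finset.univ : Finset (Fin g → F)) ×ˢ DEG F j).filter (fun p => rr g p.1 = d ∧
      Squarefree p.2 ∧ ∃ k, NLs g p.1 (a ^ 2 * p.2) k),
        Real.sqrt (KK g p.1 (a ^ 2 * p.2) : ℝ) ≤
      ∑ k ∈ Finset.range (2 * g + 2), ∑ p ∈ SS F g d j k a,
        Real.sqrt (KK g p.1 (a ^ 2 * p.2) : ℝ) := by
    rw [← Finset.sum_fiberwise_of_maps_to (g := κ) (t := Finset.range (2 * g + 2))]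
    · refine Finset.sum_le_sum fun k _ => ?_
      refine Finset.sum_le_sum_of_subset_of_nonneg ?_ fun _ _ _ => Real.sqrt_nonneg _
      intro p hp
      rw [Finset.mem_filter, Finset.mem_filter] at hp
      unfold SS
      rw [Finset.mem_filter]
      obtain ⟨⟨g1, g2, g3, g4⟩, g5⟩ := hp
      refine ⟨g1, g2, g3, ?_⟩
      rw [← g5]
      exact hκ p g4
    · intro p hp
      rw [Finset.mem_filter] at hp
      obtain ⟨g1, g2, g3, g4⟩ := hp
      obtain ⟨z, α, β, hz, -⟩ := hκ p g4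
      obtain ⟨-, -, h3, -⟩ := hz
      rw [Finset.mem_range]
      omega
  have h2 : ∀ k, ∑ p ∈ SS F g d j k a, Real.sqrt (KK g p.1 (a ^ 2 * p.2) : ℝ) =
      ((SS F g d j k a).card : ℝ) * qq F ^ ((k : ℝ) / 2) := by
    intro k
    rw [← nsmul_eq_mul, ← Finset.sum_const]
    refine Finset.sum_congr rfl fun p hp => ?_
    unfold SS at hp
    rw [Finset.mem_filter] at hp
    obtain ⟨g1, g2, g3, z, α, β, hz, -⟩ := hp
    have h3 : (KK g p.1 (a ^ 2 * p.2) : ℝ) = qq F ^ (k : ℝ) := by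
      rw [hz.1, Real.rpow_natCast]
      unfold qq
      push_cast
      rfl
    rw [h3, Real.sqrt_eq_rpow, ← Real.rpow_mul hq0.le]
    congr 1
    ring
  have h3 : ∀ k, ((SS F g d j k a).card : ℝ) * qq F ^ ((k : ℝ) / 2) ≤
      40 * Q * (5 : ℝ) ^ (-((k : ℝ) / 16)) := by
    intro k
    have hzero : (SS F g d j k a).card = 0 → ((SS F g d j k a).card : ℝ) * qq F ^ ((k : ℝ) / 2) ≤
      40 * Q * (5 : ℝ) ^ (-((k : ℝ) / 16)) := by
      intro h0
      rw [h0, Nat.cast_zero, zero_mul]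
      positivity
    by_cases hk : 1 ≤ k
    · obtain ⟨x1, x2, x3⟩ := hX9 g d n j k a ha hnj hk hd
      by_cases hc : 2 * g + 2 + k ≤ 5 * d ∧ 2 * d ≤ g + 1
      · rw [hQ]
        exact bnd hq hg (by omega) hk (card_a F hB0 g d j k a) (card_b F hB0 hX3 g d j k a) x1 x2
          hc.1 hc.2
      · exact hzero (x3 hc)
    · refine hzero (Finset.card_eq_zero.2 (Finset.eq_empty_of_forall_notMem fun p hp => ?_))
      unfold SS at hp
      rw [Finset.mem_filter] at hp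
      obtain ⟨g1, g2, g3, z, α, β, hz, -⟩ := hp
      exact hk hz.2.1
  refine h1.trans ?_
  rw [Finset.sum_congr rfl fun k _ => h2 k]
  refine (Finset.sum_le_sum fun k _ => h3 k).trans ?_
  rw [← Finset.mul_sum]
  have h4 := geo (2 * g + 2)
  calc 40 * Q * ∑ k ∈ Finset.range (2 * g + 2), (5 : ℝ) ^ (-((k : ℝ) / 16))
      ≤ 40 * Q * 25 := mul_le_mul_of_nonneg_left h4 (by positivity)
    _ = _ := by
        rw [hQ]
        ring

end D5
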