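import Pool.Agent.H506.D5.Stm3

/-!
# Project D5 (helper506), part 3, X11 (helper494): summation over `a`, `j`, `d`
-/

open Polynomial
open scoped Classical

noncomputable section

namespace D5

namespace XX11

theorem ub {α ι : Type} (s : Finset α) (I : Finset ι) (P : ι → α → Prop) (f : α → ℝ)
    (hf : ∀ x, 0 ≤ f x) (h : ∀ x ∈ s, ∃ i ∈ I, P i x) :
    ∑ x ∈ s, f x ≤ ∑ i ∈ I, ∑ x ∈ s.filter (fun x => P i x), f x := by
  simp_rw [Finset.sum_filter]
  rw [Finset.sum_comm]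
  refine Finset.sum_le_sum fun x hx => ?_
  obtain ⟨i, hi, hP⟩ := h x hx
  have h1 : (if P i x then f x else 0) ≤ ∑ i ∈ I, (if P i x then f x else 0) :=
    Finset.single_le_sum (f := fun i => if P i x then f x else 0)
      (fun i _ => by
        show 0 ≤ (if P i x then f x else 0)
        split_ifs
        · exact hf x
        · exact le_rfl) hi
  rwa [if_pos hP] at h1

theorem cov {α β : Type} (s : Finset α) (u : Finset β) (φ : β → α) (f : α → ℝ)
    (hf : ∀ x, 0 ≤ f x) (h : ∀ x ∈ s, ∃ y ∈ u, φ y = x) :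
    ∑ x ∈ s, f x ≤ ∑ y ∈ u, f (φ y) := by
  refine (ub s u (fun y x => φ y = x) f hf h).trans (Finset.sum_le_sum fun y _ => ?_)
  have h1 : s.filter (fun x => φ y = x) ⊆ {φ y} := by
    intro x hx
    rw [Finset.mem_filter] at hx
    rw [Finset.mem_singleton]
    exact hx.2.symm
  refine (Finset.sum_le_sum_of_subset_of_nonneg h1 (fun x _ _ => hf x)).trans ?_
  rw [Finset.sum_singleton]

theorem geo {y : ℝ} (hy0 : 0 ≤ y) (hy : y < 1) {B : ℝ} (hB : 1 ≤ B * (1 - y)) (m : ℕ) :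
    ∑ i ∈ Finset.range m, y ^ i ≤ B := by
  have h1 : (∑ i ∈ Finset.range m, y ^ i) * (1 - y) = 1 - y ^ m := geom_sum_mul_neg y m
  have h3 : 0 ≤ y ^ m := by positivity
  have h4 : (∑ i ∈ Finset.range m, y ^ i) * (1 - y) ≤ B * (1 - y) := by linarith
  exact le_of_mul_le_mul_right h4 (by linarith)

/-- The sum over `d`. -/
theorem sumd {r : ℝ} (hr0 : 0 < r) (hr : r ≤ 5 / 6) (g : ℕ) :
    ∑ d ∈ Finset.Icc 1 ((g + 1) / 2), r ^ (2 * (g + 1 - 2 * d)) ≤ 4 := by
  have hr2 : r ^ 2 ≤ 3 / 4 := by nlinarith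
  have h1 : ∑ d ∈ Finset.Icc 1 ((g + 1) / 2), r ^ (2 * (g + 1 - 2 * d)) ≤
      ∑ i ∈ Finset.range (g + 1), (r ^ 2) ^ i := by
    have h2 : ∀ d, r ^ (2 * (g + 1 - 2 * d)) = (r ^ 2) ^ (g + 1 - 2 * d) := fun d => pow_mul _ _ _
    simp_rw [h2]
    have hinj : Set.InjOn (fun d => g + 1 - 2 * d) (Finset.Icc 1 ((g + 1) / 2) : Finset ℕ) := by
      intro a ha b hb hab
      rw [Finset.coe_Icc, Set.mem_Icc] at ha hb
      simp only at hab
      omega
    rw [← Finset.sum_image (f := fun i => (r ^ 2) ^ i) hinj]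
    refine Finset.sum_le_sum_of_subset_of_nonneg ?_ fun _ _ _ => by positivity
    intro i hi
    rw [Finset.mem_image] at hi
    obtain ⟨d, hd, rfl⟩ := hi
    rw [Finset.mem_Icc] at hd
    rw [Finset.mem_range]
    omega
  refine h1.trans (geo (by positivity) (by linarith) (by linarith) _)

/-- The sum over `n, j`. -/
theorem sumnj {r : ℝ} (hr0 : 0 < r) (hr : r ≤ 5 / 6) (g : ℕ) :
    ∑ p ∈ (Finset.range g ×ˢ Finset.range g).filter (fun p => 2 * p.1 + p.2 < g),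
      r ^ (g - 1 - p.2) ≤ 24 := by
  have hr2 : r ^ 2 ≤ 3 / 4 := by nlinarith
  rw [Finset.sum_filter, Finset.sum_product]
  have key : ∀ n ∈ Finset.range g, ∑ j ∈ Finset.range g,
      (if 2 * n + j < g then r ^ (g - 1 - j) else 0) ≤ 6 * (r ^ 2) ^ n := by
    intro n _
    rw [← Finset.sum_filter]
    have e1 : (Finset.range g).filter (fun j => 2 * n + j < g) = Finset.range (g - 2 * n) := by
      ext j
      rw [Finset.mem_filter, Finset.mem_range, Finset.mem_range]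
      omega
    rw [e1]
    have e2 : ∑ j ∈ Finset.range (g - 2 * n), r ^ (g - 1 - j) =
        ∑ j ∈ Finset.range (g - 2 * n), r ^ (2 * n) * r ^ (g - 2 * n - 1 - j) := by
      refine Finset.sum_congr rfl fun j hj => ?_
      rw [Finset.mem_range] at hj
      rw [← pow_add]
      congr 1
      omega
    rw [e2, ← Finset.mul_sum, Finset.sum_range_reflect (fun i => r ^ i) (g - 2 * n), pow_mul, mul_comm]
    exact mul_le_mul_of_nonneg_right (geo hr0.le (by linarith) (by linarith) _) (by positivity)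
  refine (Finset.sum_le_sum key).trans ?_
  rw [← Finset.mul_sum]
  have h3 := geo (y := r ^ 2) (B := 4) (by positivity) (by linarith) (by linarith) g
  linarith

end XX11

open XX11 in
theorem p_X11 (F : Type) [Field F] [Fintype F] [CharP F 5] (hB0 : S_B0 F) (hSQ : S_SQ F)
    (hE4 : S_E4 F) (_hX9 : S_X9 F) (hX10 : S_X10 F) : S_X11 F := by
  obtain ⟨hP, hM, hD, -, hcM, -⟩ := hB0
  obtain ⟨-, -, hr1, hr2⟩ := hE4
  intro g hg
  have hq5 : (5 : ℝ) ≤ qq F := by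
    have h1 : 5 ≤ Fintype.card F := by
      have h2 : (5 : ℕ) ∣ Fintype.card F := by
        have h3 := (CharP.cast_eq_zero_iff F 5 (Fintype.card F)).1 (FiniteField.cast_card_eq_zero F)
        exact h3
      exact Nat.le_of_dvd Fintype.card_pos h2
    unfold qq
    exact_mod_cast h1
  have hq0 : (0 : ℝ) < qq F := by linarith
  set r : ℝ := (5 : ℝ) ^ (-(1 / 8) : ℝ) with hrdef
  have hr0 : 0 < r := by positivity
  have hr8 : r ^ 8 = 1 / 5 := by
    rw [hrdef, ← Real.rpow_natCast, ← Real.rpow_mul (by norm_num)]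
    norm_num
  have hr1' : r ≤ 5 / 6 := by
    by_contra hlt
    push Not at hlt
    have h1 : (5 / 6 : ℝ) ^ 8 ≤ r ^ 8 := pow_le_pow_left₀ (by norm_num) hlt.le 8
    rw [hr8] at h1
    norm_num at h1
  have hpj : ∀ j : ℕ, j < g → (5 : ℝ) ^ (-(((g : ℝ) - 1 - j) / 8)) = r ^ (g - 1 - j) := by
    intro j hj
    rw [hrdef, ← Real.rpow_natCast, ← Real.rpow_mul (by norm_num)]
    congr 1
    rw [Nat.cast_sub (by omega), Nat.cast_sub (by omega)]
    push_cast
    ring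
  have hpd : ∀ d : ℕ, 2 * d ≤ g + 1 → (5 : ℝ) ^ (-(((g : ℝ) + 1 - 2 * d) / 4)) =
      r ^ (2 * (g + 1 - 2 * d)) := by
    intro d hd
    rw [hrdef, ← Real.rpow_natCast, ← Real.rpow_mul (by norm_num)]
    congr 1
    rw [Nat.cast_mul, Nat.cast_sub hd]
    push_cast
    ring
  -- the set of the pairs
  set A : Finset (Fin g → F) := (Finset.univ : Finset (Fin g → F)).filter (fun l => l ≠ 0) with hA
  set f : (Fin g → F) × F[X] → ℝ := fun p => Real.sqrt (KK g p.1 p.2 : ℝ) with hf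
  have hf0 : ∀ p, 0 ≤ f p := fun p => Real.sqrt_nonneg _
  set S : Finset ((Fin g → F) × F[X]) :=
    (A ×ˢ POL F g).filter (fun p => p.2 ≠ 0 ∧ ∃ k, NLs g p.1 p.2 k) with hS
  have hsum : ∑ p ∈ S, f p = ∑ l ∈ A, ∑ v ∈ (POL F g).filter (fun v => v ≠ 0 ∧ ∃ k, NLs g l v k),
      Real.sqrt (KK g l v : ℝ) := by
    rw [hS, Finset.sum_filter, Finset.sum_product]
    refine Finset.sum_congr rfl fun l _ => ?_
    rw [Finset.sum_filter]
  rw [← hsum]
  set I : Finset (ℕ × ℕ) := (Finset.range g ×ˢ Finset.range g).filter (fun p => 2 * p.1 + p.2 < g) with hI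
  obtain ⟨P2, hP2⟩ : ∃ P2 : ℕ → F[X] → (Fin g → F) × F[X] → Prop, ∀ j a x, P2 j a x ↔
      ∃ b ∈ DEG F j, Squarefree b ∧ x.2 = a ^ 2 * b := ⟨fun j a x => _, fun _ _ _ => Iff.rfl⟩
  obtain ⟨P1, hP1⟩ : ∃ P1 : ℕ × ℕ × ℕ → (Fin g → F) × F[X] → Prop, ∀ i x, P1 i x ↔
      (rr g x.1 = i.1 ∧ ∃ a ∈ MON F i.2.1, P2 i.2.2 a x) := ⟨fun i x => _, fun _ _ => Iff.rfl⟩
  -- splitting
  have hsplit : ∀ x ∈ S, ∃ i ∈ Finset.Icc 1 ((g + 1) / 2) ×ˢ I, P1 i x := by
    rintro ⟨l, v⟩ hx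
    rw [hS, Finset.mem_filter, Finset.mem_product, hA, Finset.mem_filter] at hx
    obtain ⟨⟨⟨-, hl⟩, hv⟩, hv0, -⟩ := hx
    simp only at hl hv hv0
    obtain ⟨a, b, ha, hb0, hb, hab⟩ := hSQ v hv0
    have hdeg : v.natDegree = 2 * a.natDegree + b.natDegree := by
      rw [hab, natDegree_mul (pow_ne_zero 2 ha.ne_zero) hb0, natDegree_pow]
    have hvg : v.natDegree < g := (natDegree_lt_iff_degree_lt hv0).2 ((hP g v).1 hv)
    refine ⟨(rr g l, (a.natDegree, b.natDegree)), ?_, (hP1 _ _).2 ⟨rfl, a, (hM _ a).2 ⟨ha, rfl⟩,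
      (hP2 _ _ _).2 ⟨b, (hD _ b).2 ⟨hb0, rfl⟩, hb, hab⟩⟩⟩
    have h1 := hr1 g l
    have h2 : 1 ≤ rr g l := by
      by_contra h3
      exact hl (hr2 g l (by omega))
    rw [Finset.mem_product, Finset.mem_Icc, hI, Finset.mem_filter, Finset.mem_product,
      Finset.mem_range, Finset.mem_range]
    simp only
    omega
  have h1 := ub S (Finset.Icc 1 ((g + 1) / 2) ×ˢ I) P1 f hf0 hsplit
  have h2 : ∀ i ∈ Finset.Icc 1 ((g + 1) / 2) ×ˢ I, ∑ x ∈ S.filter (fun x => P1 i x), f x ≤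
      1000 * qq F ^ (2 * g) * (r ^ (2 * (g + 1 - 2 * i.1)) * r ^ (g - 1 - i.2.2)) := by
    rintro ⟨d, n, j⟩ hi
    rw [Finset.mem_product, Finset.mem_Icc, hI, Finset.mem_filter] at hi
    simp only at hi ⊢
    obtain ⟨⟨hd1, hd2⟩, -, hnj⟩ := hi
    have h3 := ub (S.filter (fun x => P1 (d, n, j) x)) (MON F n) (P2 j) f hf0 (fun x hx => by
          rw [Finset.mem_filter] at hx
          obtain ⟨-, a, ha, hb⟩ := (hP1 _ _).1 hx.2
          exact ⟨a, ha, hb⟩)
    refine h3.trans ?_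
    have h4 : ∀ a ∈ MON F n, ∑ x ∈ (S.filter (fun x => P1 (d, n, j) x)).filter (fun x => P2 j a x), f x ≤
        1000 * qq F ^ (2 * g) * qq F ^ (-(((g : ℝ) - 1 - j) / 2)) * r ^ (g - 1 - j) *
          r ^ (2 * (g + 1 - 2 * d)) := by
      intro a ha
      have h5 := hX10 g d n j a hg ha hnj hd1
      rw [hpj j (by omega), hpd d (by omega)] at h5
      refine le_trans ?_ h5
      refine cov _ _ (fun p : (Fin g → F) × F[X] => (p.1, a ^ 2 * p.2)) f hf0 ?_
      rintro ⟨l, v⟩ hx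
      rw [Finset.mem_filter, Finset.mem_filter, hS, Finset.mem_filter] at hx
      obtain ⟨⟨⟨-, -, k, hk⟩, hp1⟩, hp2⟩ := hx
      obtain ⟨hrk, -⟩ := (hP1 _ _).1 hp1
      obtain ⟨b, hb, hbs, hv⟩ := (hP2 _ _ _).1 hp2
      simp only at hk hrk hv
      refine ⟨(l, b), ?_, ?_⟩
      · rw [Finset.mem_filter, Finset.mem_product]
        refine ⟨⟨Finset.mem_univ _, hb⟩, hrk, hbs, k, ?_⟩
        simp only
        rw [← hv]
        exact hk
      · simp only
        rw [← hv]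
    refine (Finset.sum_le_sum h4).trans ?_
    rw [Finset.sum_const, hcM, nsmul_eq_mul]
    have h6 : ((Fintype.card F ^ n : ℕ) : ℝ) * qq F ^ (-(((g : ℝ) - 1 - j) / 2)) ≤ 1 := by
      have h7 : ((Fintype.card F ^ n : ℕ) : ℝ) = qq F ^ (n : ℝ) := by
        rw [Real.rpow_natCast]
        unfold qq
        push_cast
        rfl
      rw [h7, ← Real.rpow_add hq0]
      refine Real.rpow_le_one_of_one_le_of_nonpos (by linarith) ?_
      have h8 : 2 * (n : ℝ) + j + 1 ≤ g := by exact_mod_cast hnj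
      linarith
    have h9 : 0 ≤ 1000 * qq F ^ (2 * g) * (r ^ (2 * (g + 1 - 2 * d)) * r ^ (g - 1 - j)) := by positivity
    calc ((Fintype.card F ^ n : ℕ) : ℝ) * (1000 * qq F ^ (2 * g) * qq F ^ (-(((g : ℝ) - 1 - j) / 2)) *
          r ^ (g - 1 - j) * r ^ (2 * (g + 1 - 2 * d)))
        = (1000 * qq F ^ (2 * g) * (r ^ (2 * (g + 1 - 2 * d)) * r ^ (g - 1 - j))) *
          (((Fintype.card F ^ n : ℕ) : ℝ) * qq F ^ (-(((g : ℝ) - 1 - j) / 2))) := by ring
      _ ≤ (1000 * qq F ^ (2 * g) * (r ^ (2 * (g + 1 - 2 * d)) * r ^ (g - 1 - j))) * 1 :=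
          mul_le_mul_of_nonneg_left h6 h9
      _ = _ := mul_one _
  refine h1.trans ((Finset.sum_le_sum h2).trans ?_)
  rw [← Finset.mul_sum, Finset.sum_product]
  simp only
  simp_rw [← Finset.mul_sum]
  rw [← Finset.sum_mul]
  have h6 := sumd hr0 hr1' g
  have h7 := sumnj hr0 hr1' g
  rw [← hI] at h7
  have h8 : 0 ≤ ∑ p ∈ I, r ^ (g - 1 - p.2) := Finset.sum_nonneg fun _ _ => by positivity
  have h10 := mul_le_mul h6 h7 h8 (by norm_num : (0 : ℝ) ≤ 4)
  have h12 : 0 ≤ 1000 * qq F ^ (2 * g) := by positivity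
  refine (mul_le_mul_of_nonneg_left h10 h12).trans ?_
  have h13 : 0 ≤ qq F ^ (2 * g) := by positivity
  nlinarith

end D5
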