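import Pool.Agent.H506.D5.Stm3

/-!
Task X3 (helper807), edit of the file E4.
-/

open Polynomial
open scoped Classical

noncomputable section

namespace D5

namespace XX3

variable {F : Type} [Field F]

theorem ann_g (g : ℕ) (l : Fin g → F) : Ann g l g := by
  refine ⟨1, one_ne_zero, ?_, ?_⟩
  · rw [natDegree_one]
    exact Nat.zero_le g
  · intro i hi
    omega

theorem ann_rr (g : ℕ) (l : Fin g → F) : Ann g l (rr g l) :=
  Nat.sInf_mem (s := {r : ℕ | Ann g l r}) ⟨g, ann_g g l⟩

theorem zero_of (g : ℕ) (B : F[X]) (hB : B ≠ 0) (d : Fin g → F) (r : ℕ) (_hb : B.natDegree ≤ r)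
    (hr : r ≤ g) (h : ∀ i, i + r < g → mu g d (X ^ i * B) = 0)
    (h1 : ∀ j : Fin g, (j : ℕ) < B.natDegree → d j = 0)
    (h2 : ∀ j : Fin g, B.natDegree + (g - r) ≤ (j : ℕ) → d j = 0) : ∀ j, d j = 0 := by
  have key : ∀ n (hn : n < g), d ⟨n, hn⟩ = 0 := by
    intro n
    induction n using Nat.strong_induction_on with
    | _ n ih =>
      intro hn
      by_cases hc1 : n < B.natDegree
      · exact h1 ⟨n, hn⟩ hc1
      by_cases hc2 : B.natDegree + (g - r) ≤ n
      · exact h2 ⟨n, hn⟩ hc2
      have h3 := h (n - B.natDegree) (by omega)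
      unfold mu at h3
      rw [Finset.sum_eq_single (⟨n, hn⟩ : Fin g)] at h3
      · have h4 : (X ^ (n - B.natDegree) * B).coeff n = B.leadingCoeff := by
          rw [Polynomial.coeff_X_pow_mul', if_pos (by omega)]
          have : n - (n - B.natDegree) = B.natDegree := by omega
          rw [this]
          rfl
        change d ⟨n, hn⟩ * (X ^ (n - B.natDegree) * B).coeff n = 0 at h3
        rw [h4] at h3
        exact (mul_eq_zero.1 h3).resolve_right (Polynomial.leadingCoeff_ne_zero.2 hB)
      · intro j _ hj
        have hjn : (j : ℕ) ≠ n := fun h => hj (Fin.ext h)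
        rcases lt_or_gt_of_ne hjn with h5 | h5
        · have := ih j h5 j.2
          have h6 : d j = 0 := this
          rw [h6, zero_mul]
        · have h6 : (X ^ (n - B.natDegree) * B).coeff (j : ℕ) = 0 := by
            rw [Polynomial.coeff_X_pow_mul', if_pos (by omega)]
            apply Polynomial.coeff_eq_zero_of_natDegree_lt
            omega
          rw [h6, mul_zero]
      · intro h7
        exact absurd (Finset.mem_univ _) h7
  intro j
  exact key j j.2

variable [Fintype F]

theorem card_B (g r : ℕ) (hr : r ≤ g) (B : F[X]) (hB : B ≠ 0) (hb : B.natDegree ≤ r) :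
    ((Finset.univ : Finset (Fin g → F)).filter
      (fun l => ∀ i, i + r < g → mu g l (X ^ i * B) = 0)).card ≤ Fintype.card F ^ r := by
  have h0 : Fintype.card F ^ r = (Finset.univ : Finset (Fin r → F)).card := by
    rw [Finset.card_univ, Fintype.card_fun, Fintype.card_fin]
  rw [h0]
  apply Finset.card_le_card_of_injOn
    (fun (l : Fin g → F) (k : Fin r) =>
      if h : (k : ℕ) < B.natDegree then l ⟨k, by omega⟩ else l ⟨(k : ℕ) + (g - r), by omega⟩)
  · intro l _
    exact Finset.mem_coe.2 (Finset.mem_univ _)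
  · intro l hl l' hl' he
    rw [Finset.mem_coe, Finset.mem_filter] at hl hl'
    have hz : ∀ j, (fun j => l j - l' j) j = 0 := by
      apply zero_of g B hB _ r hb hr
      · intro i hi
        have e1 := hl.2 i hi
        have e2 := hl'.2 i hi
        unfold mu at e1 e2 ⊢
        simp only [sub_mul, Finset.sum_sub_distrib]
        rw [e1, e2, sub_zero]
      · intro j hj
        have h3 := congrFun he ⟨j, by omega⟩
        simp only at h3
        rw [dif_pos hj, dif_pos hj] at h3
        change l j - l' j = 0
        have h4 : l j = l' j := h3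
        rw [h4, sub_self]
      · intro j hj
        have hj2 := j.2
        have h3 := congrFun he ⟨(j : ℕ) - (g - r), by omega⟩
        simp only at h3
        rw [dif_neg (by omega), dif_neg (by omega)] at h3
        have h5 : (⟨(j : ℕ) - (g - r) + (g - r), by omega⟩ : Fin g) = j :=
          Fin.ext (by change (j : ℕ) - (g - r) + (g - r) = (j : ℕ); omega)
        rw [h5] at h3
        change l j - l' j = 0
        rw [h3, sub_self]
    funext j
    exact sub_eq_zero.1 (hz j)

theorem geom {q : ℕ} (hq : 2 ≤ q) (d : ℕ) : ∑ e ∈ Finset.range (d + 1), q ^ e ≤ 2 * q ^ d := by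
  induction d with
  | zero => simp
  | succ d ih =>
    rw [Finset.sum_range_succ]
    have h1 : 2 * q ^ d ≤ q ^ (d + 1) := by
      rw [pow_succ, mul_comm (q ^ d)]
      exact Nat.mul_le_mul_right _ hq
    omega

omit [Fintype F] in
theorem mu_mul_C (g : ℕ) (l : Fin g → F) (P : F[X]) (c : F) : mu g l (P * C c) = mu g l P * c := by
  unfold mu
  rw [Finset.sum_mul]
  apply Finset.sum_congr rfl
  intro j _
  rw [Polynomial.coeff_mul_C, mul_assoc]

end XX3

open XX3

theorem p_X3 (F : Type) [Field F] [Fintype F] [CharP F 5] (hB0 : S_B0 F) : S_X3 F := by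
  refine ⟨?_, fun g d B hd hB hb => card_B g d hd B hB hb⟩
  intro g d
  have hq2 : 2 ≤ Fintype.card F := Fintype.one_lt_card
  have hq : 1 ≤ Fintype.card F := Fintype.card_pos
  by_cases hr : g < d
  · calc ((Finset.univ : Finset (Fin g → F)).filter (fun l => rr g l = d)).card
        ≤ (Finset.univ : Finset (Fin g → F)).card := Finset.card_filter_le _ _
      _ = Fintype.card F ^ g := by rw [Finset.card_univ, Fintype.card_fun, Fintype.card_fin]
      _ ≤ Fintype.card F ^ (2 * d) := Nat.pow_le_pow_right hq (by omega)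
      _ ≤ 2 * Fintype.card F ^ (2 * d) := Nat.le_mul_of_pos_left _ (by norm_num)
  have hrg : d ≤ g := by omega
  have hsub : (Finset.univ : Finset (Fin g → F)).filter (fun l => rr g l = d) ⊆
      (Finset.range (d + 1)).biUnion (fun e => (MON F e).biUnion (fun B =>
        (Finset.univ : Finset (Fin g → F)).filter
          (fun l => ∀ i, i + d < g → mu g l (X ^ i * B) = 0))) := by
    intro l hl
    rw [Finset.mem_filter] at hl
    have h1 := ann_rr g l
    rw [hl.2] at h1
    obtain ⟨B, hB, hb, h2⟩ := h1
    rw [Finset.mem_biUnion]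
    refine ⟨B.natDegree, Finset.mem_range.2 (by omega), ?_⟩
    rw [Finset.mem_biUnion]
    refine ⟨B * C B.leadingCoeff⁻¹, ?_, ?_⟩
    · rw [hB0.2.1]
      exact ⟨Polynomial.monic_mul_leadingCoeff_inv hB, Polynomial.natDegree_mul_leadingCoeff_inv B hB⟩
    · rw [Finset.mem_filter]
      refine ⟨Finset.mem_univ _, fun i hi => ?_⟩
      rw [← mul_assoc, mu_mul_C, h2 i hi, zero_mul]
  calc ((Finset.univ : Finset (Fin g → F)).filter (fun l => rr g l = d)).card
      ≤ _ := Finset.card_le_card hsub
    _ ≤ ∑ e ∈ Finset.range (d + 1), ((MON F e).biUnion (fun B =>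
        (Finset.univ : Finset (Fin g → F)).filter
          (fun l => ∀ i, i + d < g → mu g l (X ^ i * B) = 0))).card := Finset.card_biUnion_le
    _ ≤ ∑ e ∈ Finset.range (d + 1), Fintype.card F ^ e * Fintype.card F ^ d := by
        apply Finset.sum_le_sum
        intro e he
        rw [Finset.mem_range] at he
        rw [← hB0.2.2.2.2.1 e]
        apply Finset.card_biUnion_le_card_mul
        intro B hB
        obtain ⟨h1, h2⟩ := (hB0.2.1 e B).1 hB
        exact card_B g d hrg B h1.ne_zero (by omega)
    _ = (∑ e ∈ Finset.range (d + 1), Fintype.card F ^ e) * Fintype.card F ^ d := by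
        rw [Finset.sum_mul]
    _ ≤ 2 * Fintype.card F ^ d * Fintype.card F ^ d := Nat.mul_le_mul_right _ (geom hq2 d)
    _ = 2 * Fintype.card F ^ (2 * d) := by
        rw [mul_assoc, ← pow_add, ← two_mul d]

end D5

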