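import Pool.Agent.H506.D5.Stm3

/-!
# X4 : one more condition for the generator of the radical
-/

open Polynomial
open scoped Classical

noncomputable section

namespace D5

namespace XX4

variable {F : Type} [Field F]

/-- `Lam` as a linear map. -/
def LamL (g : ℕ) (l : Fin g → F) : F[X] →ₗ[F] F where
  toFun := Lam g l
  map_add' P Q := by
    unfold Lam
    rw [← Finset.sum_add_distrib]
    refine Finset.sum_congr rfl (fun j _ => ?_)
    rw [coeff_add, mul_add]
  map_smul' c P := by
    unfold Lam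
    rw [RingHom.id_apply, smul_eq_mul, Finset.mul_sum]
    refine Finset.sum_congr rfl (fun j _ => ?_)
    rw [coeff_smul, smul_eq_mul]
    ring

theorem LamL_apply (g : ℕ) (l : Fin g → F) (P : F[X]) : LamL g l P = Lam g l P := rfl

/-- linearity in `y` -/
theorem lam_mul_zero (g : ℕ) (l : Fin g → F) (w y : F[X]) (N : ℕ) (hy : y.degree < N)
    (h : ∀ i, i < N → Lam g l (w * X ^ i) = 0) : Lam g l (w * y) = 0 := by
  have h1 : y = ∑ i ∈ Finset.range N, C (y.coeff i) * X ^ i := by
    by_cases h0 : y = 0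
    · simp [h0]
    · exact y.as_sum_range_C_mul_X_pow' ((natDegree_lt_iff_degree_lt h0).2 hy)
  have h2 : w * y = ∑ i ∈ Finset.range N, y.coeff i • (w * X ^ i) := by
    conv_lhs => rw [h1]
    rw [Finset.mul_sum]
    refine Finset.sum_congr rfl (fun i _ => ?_)
    rw [smul_eq_C_mul]
    ring
  rw [← LamL_apply, h2, map_sum]
  refine Finset.sum_eq_zero (fun i hi => ?_)
  rw [map_smul, LamL_apply, h i (Finset.mem_range.1 hi), smul_zero]

end XX4

theorem p_X4 (F : Type) [Field F] [Fintype F] [CharP F 5] (hB0 : S_B0 F) (hG : S_G F) : S_X4 F := by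
  intro g l v hv hv0 hE
  obtain ⟨k, z, hK, hk, hz0, h⟩ := hG g l v hv hv0
  rcases Nat.eq_zero_or_pos k with hk0 | hk1
  · left
    rw [hK, hk0, pow_zero]
  · right
    obtain ⟨hz, hL⟩ := h hk1
    refine ⟨k, z, hK, hk1, hk, hz0, hz, ?_⟩
    have hzd : z.natDegree < 2 * g + 2 - k :=
      (natDegree_lt_iff_degree_lt hz0).2 ((hB0.1 _ _).1 hz)
    have hne : z * X ^ (k - 1) ≠ 0 := mul_ne_zero hz0 (pow_ne_zero _ X_ne_zero)
    have hmem : z * X ^ (k - 1) ∈ POL F (2 * g + 1) := by
      refine (hB0.1 _ _).2 ((natDegree_lt_iff_degree_lt hne).1 ?_)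
      rw [natDegree_mul hz0 (pow_ne_zero _ X_ne_zero), natDegree_X_pow]
      omega
    have hex := hE (z * X ^ (k - 1)) hmem (fun y hy => by
      refine XX4.lam_mul_zero g l (v * (z * X ^ (k - 1))) y (2 * g + 1) ((hB0.1 _ _).1 hy) ?_
      intro i hi
      have e : v * (z * X ^ (k - 1)) * X ^ i = v * z * X ^ (k - 1 + i) := by
        rw [pow_add]
        ring
      rw [e]
      exact hL _ (by omega))
    intro i hi
    rcases Nat.lt_or_ge i (2 * g + k) with h1 | h1
    · exact hL i h1
    · have hi2 : i = (k - 1) + (2 * g + 1) := by omega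
      have e : v * z * X ^ i = v * (z * X ^ (k - 1)) * X ^ (2 * g + 1) := by
        rw [hi2, pow_add]
        ring
      rw [e]
      exact hex

end D5
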