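import Pool.Agent.H506.D5.Stm3

/-!
# The determinant count at infinity (proof of `S_X6`), helper299 for helper506, after the file Q of helper134
-/

open Polynomial
open scoped Classical

noncomputable section

namespace D5

namespace XX6

variable {F : Type} [Field F]

/-- the monic greatest common divisor of three polynomials, with Bezout coefficients -/
theorem exists_gcd (b α β : F[X]) (hb : b ≠ 0) : ∃ m : F[X], m.Monic ∧ m ∣ b ∧ m ∣ α ∧ m ∣ β ∧
    ∃ p q r : F[X], m = b * p + α * q + β * r := by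
  set g1 := EuclideanDomain.gcd α β with hg1
  set g0 := EuclideanDomain.gcd b g1 with hg0
  have h0b : g0 ∣ b := EuclideanDomain.gcd_dvd_left _ _
  have h01 : g0 ∣ g1 := EuclideanDomain.gcd_dvd_right _ _
  have hα : g0 ∣ α := h01.trans (EuclideanDomain.gcd_dvd_left _ _)
  have hβ : g0 ∣ β := h01.trans (EuclideanDomain.gcd_dvd_right _ _)
  have hg0ne : g0 ≠ 0 := by
    intro h
    rw [h] at h0b
    exact hb (zero_dvd_iff.1 h0b)
  have e0 : g0 = b * EuclideanDomain.gcdA b g1 + g1 * EuclideanDomain.gcdB b g1 :=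
    EuclideanDomain.gcd_eq_gcd_ab b g1
  have e1 : g1 = α * EuclideanDomain.gcdA α β + β * EuclideanDomain.gcdB α β :=
    EuclideanDomain.gcd_eq_gcd_ab α β
  have hu : IsUnit (C (g0.leadingCoeff⁻¹) : F[X]) :=
    Polynomial.isUnit_C.2 (isUnit_iff_ne_zero.2 (inv_ne_zero (leadingCoeff_ne_zero.2 hg0ne)))
  refine ⟨g0 * C g0.leadingCoeff⁻¹, monic_mul_leadingCoeff_inv hg0ne, hu.mul_right_dvd.2 h0b,
    hu.mul_right_dvd.2 hα, hu.mul_right_dvd.2 hβ,
    EuclideanDomain.gcdA b g1 * C g0.leadingCoeff⁻¹,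
    EuclideanDomain.gcdA α β * (EuclideanDomain.gcdB b g1 * C g0.leadingCoeff⁻¹),
    EuclideanDomain.gcdB α β * (EuclideanDomain.gcdB b g1 * C g0.leadingCoeff⁻¹), ?_⟩
  calc g0 * C g0.leadingCoeff⁻¹
      = (b * EuclideanDomain.gcdA b g1 + g1 * EuclideanDomain.gcdB b g1) * C g0.leadingCoeff⁻¹ := by
        rw [← e0]
    _ = b * (EuclideanDomain.gcdA b g1 * C g0.leadingCoeff⁻¹) +
        g1 * (EuclideanDomain.gcdB b g1 * C g0.leadingCoeff⁻¹) := by ring
    _ = b * (EuclideanDomain.gcdA b g1 * C g0.leadingCoeff⁻¹) +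
        (α * EuclideanDomain.gcdA α β + β * EuclideanDomain.gcdB α β) *
          (EuclideanDomain.gcdB b g1 * C g0.leadingCoeff⁻¹) := by rw [← e1]
    _ = _ := by ring

/-- a generator pair has nonzero entries -/
theorem cop_ne {d₁ d₂ : ℕ} {b₁ b₂ : F[X]} (h : Cop d₁ d₂ b₁ b₂) (h1 : 1 ≤ d₁) (h2 : 1 ≤ d₂) :
    b₁ ≠ 0 ∧ b₂ ≠ 0 := by
  obtain ⟨hc, -, -, hd⟩ := h
  constructor
  · rintro rfl
    have hu : IsUnit b₂ := isCoprime_zero_left.1 hc
    have h3 := natDegree_eq_zero_of_isUnit hu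
    rw [natDegree_zero] at hd
    omega
  · rintro rfl
    have hu : IsUnit b₁ := isCoprime_zero_right.1 hc
    have h3 := natDegree_eq_zero_of_isUnit hu
    rw [natDegree_zero] at hd
    omega

/-- two pairs with the same determinant -/
theorem same_det {d₁ d₂ : ℕ} {b₁ b₂ x y x' y' : F[X]} (h : Cop d₁ d₂ b₁ b₂) (h1 : 1 ≤ d₁)
    (h2 : 1 ≤ d₂) (hx : x.natDegree ≤ d₁) (hy : y.natDegree ≤ d₂) (hx' : x'.natDegree ≤ d₁)
    (hy' : y'.natDegree ≤ d₂) (hD : b₁ * y - b₂ * x = b₁ * y' - b₂ * x') :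
    ∃ c : F, x = x' + C c * b₁ ∧ y = y' + C c * b₂ := by
  obtain ⟨hb1, hb2⟩ := cop_ne h h1 h2
  obtain ⟨hc, -, -, hd⟩ := h
  have e1 : b₁ * (y - y') = b₂ * (x - x') := by linear_combination hD
  have hdvd : b₁ ∣ x - x' := hc.dvd_of_dvd_mul_left ⟨y - y', e1.symm⟩
  obtain ⟨t, ht⟩ := hdvd
  have ht2 : y - y' = b₂ * t := by
    rw [ht] at e1
    have e2 : b₁ * (y - y') = b₁ * (b₂ * t) := by rw [e1]; ring
    exact mul_left_cancel₀ hb1 e2
  have hdx : (x - x').natDegree ≤ d₁ := (natDegree_sub_le _ _).trans (max_le hx hx')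
  have hdy : (y - y').natDegree ≤ d₂ := (natDegree_sub_le _ _).trans (max_le hy hy')
  have ht0 : t.natDegree = 0 := by
    by_cases h0 : t = 0
    · rw [h0, natDegree_zero]
    · rw [ht, natDegree_mul hb1 h0] at hdx
      rw [ht2, natDegree_mul hb2 h0] at hdy
      omega
  obtain ⟨c, hc'⟩ := natDegree_eq_zero.1 ht0
  refine ⟨c, ?_, ?_⟩
  · rw [hc']
    linear_combination ht
  · rw [hc']
    linear_combination ht2

variable [Fintype F]

theorem natDegree_of_mem (hB0 : ∀ n (g : F[X]), g ∈ POL F n ↔ g.degree < n) {n : ℕ} {g : F[X]}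
    (h : g ∈ POL F (n + 1)) : g.natDegree ≤ n := by
  have h1 := (hB0 (n + 1) g).1 h
  by_cases h0 : g = 0
  · rw [h0, natDegree_zero]
    exact Nat.zero_le _
  · exact Nat.lt_succ_iff.1 ((natDegree_lt_iff_degree_lt h0).2 h1)

theorem mem_of_natDegree (hB0 : ∀ n (g : F[X]), g ∈ POL F n ↔ g.degree < n) {n : ℕ} {g : F[X]}
    (h : g.natDegree < n) : g ∈ POL F n := by
  rw [hB0]
  exact degree_le_natDegree.trans_lt (by exact_mod_cast h)

omit [Fintype F] in
/-- the coefficient of `b ^ 5 * α` at the formal degree -/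
theorem top_coeff [CharP F 5] {b α : F[X]} {d A s : ℕ} (hb : b.natDegree ≤ d) (hα : α.degree < A)
    (hs : A ≤ s + 5) : (b ^ 5 * α).coeff (5 * d + s) = b.coeff d ^ 5 * α.coeff s := by
  have : Fact (Nat.Prime 5) := ⟨by norm_num⟩
  obtain ⟨b', hb'⟩ : ∃ b' : F[X], b' = b - C (b.coeff d) * X ^ d := ⟨_, rfl⟩
  have hdec : b = C (b.coeff d) * X ^ d + b' := by rw [hb']; ring
  have hdeg : b'.degree < d := by
    rw [degree_lt_iff_coeff_zero]
    intro m hm
    rw [hb', coeff_sub, coeff_C_mul, coeff_X_pow]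
    rcases eq_or_lt_of_le hm with h | h
    · rw [if_pos h.symm, ← h, mul_one, sub_self]
    · rw [if_neg (by omega), mul_zero, sub_zero]
      exact coeff_eq_zero_of_natDegree_lt (by omega)
  have h5 : b ^ 5 = C (b.coeff d ^ 5) * X ^ (5 * d) + b' ^ 5 := by
    nth_rewrite 1 [hdec]
    rw [add_pow_char, mul_pow, ← C_pow, ← pow_mul, mul_comm d 5]
  have hz : (b' ^ 5 * α).coeff (5 * d + s) = 0 := by
    by_cases h0 : b' = 0
    · rw [h0, zero_pow (by norm_num), zero_mul, coeff_zero]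
    · by_cases hα0 : α = 0
      · rw [hα0, mul_zero, coeff_zero]
      · have h1 := (natDegree_lt_iff_degree_lt h0).2 hdeg
        have h2 := (natDegree_lt_iff_degree_lt hα0).2 hα
        apply coeff_eq_zero_of_natDegree_lt
        have h3 : (b' ^ 5 * α).natDegree ≤ 5 * b'.natDegree + α.natDegree :=
          natDegree_mul_le.trans (Nat.add_le_add_right natDegree_pow_le _)
        omega
  rw [h5, add_mul, coeff_add, hz, add_zero, mul_assoc, coeff_C_mul, add_comm (5 * d) s,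
    coeff_X_pow_mul]

omit [Fintype F] in
/-- three vectors of the plane -/
theorem line {a c a' c' u w : F} (h : u ≠ 0 ∨ w ≠ 0) (h1 : u * a + w * c = 0)
    (h2 : u * a' + w * c' = 0) : a * c' = a' * c := by
  rcases h with h | h
  · apply mul_left_cancel₀ h
    linear_combination c' * h1 - c * h2
  · apply mul_left_cancel₀ h
    linear_combination a * h2 - a' * h1

end XX6

open XX6 in
theorem p_X6 (F : Type) [Field F] [Fintype F] [CharP F 5] (hB0 : S_B0 F) : S_X6 F := by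
  obtain ⟨hPOL, -, -, hcard, -, -⟩ := hB0
  have hfact : Fact (Nat.Prime 5) := ⟨by norm_num⟩
  intro g k d₁ d₂ b α β hd h1 h2 hb hsq hdeg hk1 hk2 hα hβ htop
  rw [hPOL] at hα hβ
  have mem : ∀ z : F[X] × F[X], z ∈ PRs g k d₁ d₂ b α β → z.1.natDegree ≤ d₁ ∧
      z.2.natDegree ≤ d₂ ∧ Cop d₁ d₂ z.1 z.2 ∧ b ∣ z.1 ^ 5 * α + z.2 ^ 5 * β ∧
      (z.1 ^ 5 * α + z.2 ^ 5 * β).degree < (3 * g + 1 - k : ℕ) := by
    intro z hz
    unfold PRs at hz
    rw [Finset.mem_filter] at hz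
    obtain ⟨hz, hz'⟩ := hz
    unfold PR at hz
    rw [Finset.mem_filter, Finset.mem_product] at hz
    exact ⟨natDegree_of_mem hPOL hz.1.1, natDegree_of_mem hPOL hz.1.2, hz.2.1, hz.2.2,
      (hPOL _ _).1 hz'⟩
  -- the three conditions at infinity
  have cond : ∀ z ∈ PRs g k d₁ d₂ b α β, ∀ t, 1 ≤ t → t ≤ 3 →
      z.1.coeff d₁ ^ 5 * α.coeff (3 * g + 4 - k - 5 * d₁ - t) +
        z.2.coeff d₂ ^ 5 * β.coeff (3 * g + 4 - k - 5 * d₂ - t) = 0 := by
    intro z hz t ht1 ht3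
    obtain ⟨hz1, hz2, -, -, hz5⟩ := mem z hz
    have e1 := top_coeff (s := 3 * g + 4 - k - 5 * d₁ - t) hz1 hα (by omega)
    have e2 := top_coeff (s := 3 * g + 4 - k - 5 * d₂ - t) hz2 hβ (by omega)
    have e3 : 5 * d₁ + (3 * g + 4 - k - 5 * d₁ - t) = 3 * g + 4 - k - t := by omega
    have e4 : 5 * d₂ + (3 * g + 4 - k - 5 * d₂ - t) = 3 * g + 4 - k - t := by omega
    rw [e3] at e1
    rw [e4] at e2
    rw [← e1, ← e2, ← coeff_add]
    exact (degree_lt_iff_coeff_zero _ _).1 hz5 _ (by omega)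
  have tops : ∀ z ∈ PRs g k d₁ d₂ b α β, z.1.coeff d₁ ^ 5 ≠ 0 ∨ z.2.coeff d₂ ^ 5 ≠ 0 := by
    intro z hz
    obtain ⟨-, -, ⟨-, -, -, hz4⟩, -, -⟩ := mem z hz
    rcases hz4 with h | h
    · left
      apply pow_ne_zero
      rw [← h]
      intro h0
      have h3 := leadingCoeff_eq_zero.1 h0
      rw [h3, natDegree_zero] at h
      omega
    · right
      apply pow_ne_zero
      rw [← h]
      intro h0
      have h3 := leadingCoeff_eq_zero.1 h0
      rw [h3, natDegree_zero] at h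
      omega
  refine ⟨?_, fun hne t u ht1 ht3 hu1 hu3 => ?_⟩
  swap
  · obtain ⟨z, hz⟩ := hne
    exact line (tops z hz) (cond z hz t ht1 ht3) (cond z hz u hu1 hu3)
  obtain ⟨m, hm, hmb, hmα, hmβ, p, q, r, hbez⟩ := exists_gcd b α β hb
  refine ⟨m, hm, hmb, hmα, hmβ, ?_⟩
  rcases (PRs g k d₁ d₂ b α β).eq_empty_or_nonempty with he | ⟨⟨b₁, b₂⟩, hbb⟩
  · rw [he, Finset.card_empty, zero_mul]
    exact Nat.zero_le _
  obtain ⟨b', hb'⟩ := hmb
  have hm0 : m ≠ 0 := hm.ne_zero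
  have hb'0 : b' ≠ 0 := by
    rintro rfl
    rw [mul_zero] at hb'
    exact hb hb'
  have hdegb : b.natDegree = m.natDegree + b'.natDegree := by
    rw [hb', natDegree_mul hm0 hb'0]
  have hb'sq : Squarefree b' := hsq.squarefree_of_dvd ⟨m, by rw [hb']; ring⟩
  obtain ⟨hb1d, hb2d, hcop, hbdvd, -⟩ := mem _ hbb
  simp only at hb1d hb2d hcop hbdvd
  have hq : 0 < Fintype.card F := Fintype.card_pos
  -- the determinant is divisible by `b'`
  have hdet : ∀ z ∈ PRs g k d₁ d₂ b α β, b' ∣ b₁ * z.2 - b₂ * z.1 := by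
    intro z hz
    obtain ⟨-, -, -, hz4, -⟩ := mem z hz
    have hΔ : (b₁ * z.2 - b₂ * z.1) ^ 5 = b₁ ^ 5 * z.2 ^ 5 - b₂ ^ 5 * z.1 ^ 5 := by
      rw [sub_pow_char, mul_pow, mul_pow]
    have h3 : b ∣ α * (b₁ * z.2 - b₂ * z.1) ^ 5 := by
      have e : α * (b₁ * z.2 - b₂ * z.1) ^ 5 =
          z.2 ^ 5 * (b₁ ^ 5 * α + b₂ ^ 5 * β) - b₂ ^ 5 * (z.1 ^ 5 * α + z.2 ^ 5 * β) := by
        rw [hΔ]; ring
      rw [e]
      exact dvd_sub (hbdvd.mul_left _) (hz4.mul_left _)
    have h4 : b ∣ β * (b₁ * z.2 - b₂ * z.1) ^ 5 := by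
      have e : β * (b₁ * z.2 - b₂ * z.1) ^ 5 =
          b₁ ^ 5 * (z.1 ^ 5 * α + z.2 ^ 5 * β) - z.1 ^ 5 * (b₁ ^ 5 * α + b₂ ^ 5 * β) := by
        rw [hΔ]; ring
      rw [e]
      exact dvd_sub (hz4.mul_left _) (hbdvd.mul_left _)
    have h5 : b ∣ m * (b₁ * z.2 - b₂ * z.1) ^ 5 := by
      have e : m * (b₁ * z.2 - b₂ * z.1) ^ 5 = b * (p * (b₁ * z.2 - b₂ * z.1) ^ 5) +
          α * (b₁ * z.2 - b₂ * z.1) ^ 5 * q + β * (b₁ * z.2 - b₂ * z.1) ^ 5 * r := by
        nth_rewrite 1 [hbez]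
        ring
      rw [e]
      exact dvd_add (dvd_add (dvd_mul_right _ _) (h3.mul_right _)) (h4.mul_right _)
    rw [hb'] at h5
    have h6 : b' ∣ (b₁ * z.2 - b₂ * z.1) ^ 5 := (mul_dvd_mul_iff_left hm0).1 h5
    exact (hb'sq.dvd_pow_iff_dvd (by norm_num)).1 h6
  -- the degree of the determinant
  have hinf : ∀ z ∈ PRs g k d₁ d₂ b α β, (b₁ * z.2 - b₂ * z.1).natDegree ≤ g := by
    intro z hz
    obtain ⟨hz1, hz2, -, -, -⟩ := mem z hz
    have h7 : (b₁ * z.2 - b₂ * z.1).natDegree ≤ g + 1 := by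
      refine (natDegree_sub_le _ _).trans (max_le ?_ ?_)
      · exact natDegree_mul_le.trans (by omega)
      · exact natDegree_mul_le.trans (by omega)
    have h8 : (b₁ * z.2 - b₂ * z.1).coeff (g + 1) = 0 := by
      rw [coeff_sub, ← hd, coeff_mul_add_eq_of_natDegree_le hb1d hz2, add_comm d₁ d₂,
        coeff_mul_add_eq_of_natDegree_le hb2d hz1]
      obtain ⟨t, ht1, ht3, ht⟩ := htop
      have e1 := cond _ hbb t ht1 ht3
      have e2 := cond z hz t ht1 ht3
      simp only at e1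
      have e3 : (b₁.coeff d₁ * z.2.coeff d₂ - b₂.coeff d₂ * z.1.coeff d₁) ^ 5 = 0 := by
        rw [sub_pow_char, mul_pow, mul_pow]
        have e4 := line (F := F) (a := b₁.coeff d₁ ^ 5) (c := b₂.coeff d₂ ^ 5)
          (a' := z.1.coeff d₁ ^ 5) (c' := z.2.coeff d₂ ^ 5) ht
          (by rw [mul_comm, mul_comm (β.coeff _)]; exact e1)
          (by rw [mul_comm, mul_comm (β.coeff _)]; exact e2)
        rw [e4]
        ring
      exact pow_eq_zero_iff (by norm_num) |>.1 e3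
    by_contra hcon
    have h9 : (b₁ * z.2 - b₂ * z.1).natDegree = g + 1 := by omega
    rw [← h9] at h8
    have h10 := leadingCoeff_eq_zero.1 h8
    rw [h10, natDegree_zero] at h9
    omega
  -- the image
  have himg : ((PRs g k d₁ d₂ b α β).image (fun z => b₁ * z.2 - b₂ * z.1)).card ≤
      Fintype.card F ^ (g + 1 - b'.natDegree) := by
    rw [← hcard]
    have hsub : (PRs g k d₁ d₂ b α β).image (fun z => b₁ * z.2 - b₂ * z.1) ⊆
        (POL F (g + 1 - b'.natDegree)).image (fun t => b' * t) := by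
      intro D hD
      rw [Finset.mem_image] at hD
      obtain ⟨z, hz, rfl⟩ := hD
      obtain ⟨t, ht⟩ := hdet z hz
      rw [Finset.mem_image]
      refine ⟨t, ?_, ht.symm⟩
      by_cases h0 : t = 0
      · rw [h0, hPOL, degree_zero]
        exact WithBot.bot_lt_coe _
      · apply mem_of_natDegree hPOL
        have h7 := hinf z hz
        rw [ht, natDegree_mul hb'0 h0] at h7
        omega
    exact (Finset.card_le_card hsub).trans Finset.card_image_le
  -- the fibres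
  have hfib : ∀ D ∈ (PRs g k d₁ d₂ b α β).image (fun z => b₁ * z.2 - b₂ * z.1),
      ((PRs g k d₁ d₂ b α β).filter (fun z => b₁ * z.2 - b₂ * z.1 = D)).card ≤
        Fintype.card F := by
    intro D hD
    rw [Finset.mem_image] at hD
    obtain ⟨z, hz, hzD⟩ := hD
    obtain ⟨hz1, hz2, -, -, -⟩ := mem z hz
    have hsub : (PRs g k d₁ d₂ b α β).filter (fun z => b₁ * z.2 - b₂ * z.1 = D) ⊆
        (Finset.univ : Finset F).image (fun c => (z.1 + C c * b₁, z.2 + C c * b₂)) := by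
      intro w hw
      rw [Finset.mem_filter] at hw
      obtain ⟨hw1, hw2, -, -, -⟩ := mem w hw.1
      obtain ⟨c, hc1, hc2⟩ := same_det hcop h1 h2 hw1 hw2 hz1 hz2 (hw.2.trans hzD.symm)
      rw [Finset.mem_image]
      exact ⟨c, Finset.mem_univ _, Prod.ext hc1.symm hc2.symm⟩
    refine (Finset.card_le_card hsub).trans (Finset.card_image_le.trans ?_)
    rw [Finset.card_univ]
  have htot := Finset.card_le_mul_card_image (PRs g k d₁ d₂ b α β) (Fintype.card F) hfib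
  calc (PRs g k d₁ d₂ b α β).card * Fintype.card F ^ b.natDegree
      ≤ (Fintype.card F * Fintype.card F ^ (g + 1 - b'.natDegree)) *
          Fintype.card F ^ b.natDegree :=
        Nat.mul_le_mul_right _ (htot.trans (Nat.mul_le_mul_left _ himg))
    _ = Fintype.card F ^ (g + 2 + m.natDegree) := by
        rw [← pow_succ', ← pow_add]
        congr 1
        omega

end D5
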