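import Pool.Agent.H506.D5.Stm3

/-!
# D5, X7: the sharp version of R1
-/

open Polynomial
open scoped Classical

noncomputable section

namespace D5

namespace XX7

variable {F : Type} [Field F] [Fintype F]

/-- indicator of divisibility -/
def ind (m x : F[X]) : ℝ := if m ∣ x then 1 else 0

/-- indicator of the pairs of multiples with top vectors on a line -/
def gg (A A' : ℕ) (m α β : F[X]) : ℝ :=
  if m ∣ α ∧ m ∣ β ∧ ∀ t u, 1 ≤ t → t ≤ 3 → 1 ≤ u → u ≤ 3 →
      α.coeff (A - t) * β.coeff (A' - u) = α.coeff (A - u) * β.coeff (A' - t) then 1 else 0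

/-- indicator of the pairs of multiples with top vectors zero -/
def zz (A A' : ℕ) (m α β : F[X]) : ℝ :=
  if m ∣ α ∧ m ∣ β ∧ ∀ t, 1 ≤ t → t ≤ 3 → α.coeff (A - t) = 0 ∧ β.coeff (A' - t) = 0 then 1 else 0

omit [Fintype F] in
theorem ind_nonneg (m x : F[X]) : 0 ≤ ind m x := by
  unfold ind
  split_ifs <;> norm_num

omit [Fintype F] in
theorem gg_nonneg (A A' : ℕ) (m α β : F[X]) : 0 ≤ gg A A' m α β := by
  unfold gg
  split_ifs <;> norm_num

omit [Fintype F] in
theorem zz_nonneg (A A' : ℕ) (m α β : F[X]) : 0 ≤ zz A A' m α β := by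
  unfold zz
  split_ifs <;> norm_num

omit [Fintype F] in
theorem sum_ind (m : F[X]) (S : Finset F[X]) :
    ∑ x ∈ S, ind m x = ((S.filter (fun x => m ∣ x)).card : ℝ) := by
  unfold ind
  rw [Finset.sum_boole]

theorem sum_eq_card {ι : Type} (s : Finset ι) (P : ι → Prop) (f : ι → ℝ)
    (h1 : ∀ x, P x → f x = 1) (h0 : ∀ x, ¬ P x → f x = 0) :
    ∑ x ∈ s, f x = ((s.filter (fun x => P x)).card : ℝ) := by
  rw [← Finset.sum_boole]
  refine Finset.sum_congr rfl fun x _ => ?_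
  by_cases h : P x
  · rw [h1 x h, if_pos h]
  · rw [h0 x h, if_neg h]

theorem card_any {ι : Type} (s : Finset ι) (P : ι → Prop) (i1 i2 : DecidablePred P) :
    (@Finset.filter ι P i1 s).card = (@Finset.filter ι P i2 s).card := by
  rw [Subsingleton.elim i1 i2]

theorem card_mult (hP : ∀ n (g : F[X]), g ∈ POL F n ↔ g.degree < n)
    (hc : ∀ n, (POL F n).card = Fintype.card F ^ n) (m : F[X]) (hm : m.Monic) (n : ℕ) :
    ((POL F n).filter (fun x => m ∣ x)).card ≤ Fintype.card F ^ (n - m.natDegree) := by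
  have hsub : (POL F n).filter (fun x => m ∣ x) ⊆
      (POL F (n - m.natDegree)).image (fun y => m * y) := by
    intro x hx
    rw [Finset.mem_filter, hP] at hx
    obtain ⟨h1, y, rfl⟩ := hx
    rw [Finset.mem_image]
    refine ⟨y, ?_, rfl⟩
    rw [hP]
    by_cases hy : y = 0
    · rw [hy, degree_zero]
      exact WithBot.bot_lt_coe _
    · have hmy : m * y ≠ 0 := mul_ne_zero hm.ne_zero hy
      have h2 : (m * y).natDegree < n := (natDegree_lt_iff_degree_lt hmy).2 h1
      rw [natDegree_mul hm.ne_zero hy] at h2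
      exact (natDegree_lt_iff_degree_lt hy).1 (by omega)
  calc ((POL F n).filter (fun x => m ∣ x)).card
      ≤ ((POL F (n - m.natDegree)).image (fun y => m * y)).card := Finset.card_le_card hsub
    _ ≤ (POL F (n - m.natDegree)).card := Finset.card_image_le
    _ = Fintype.card F ^ (n - m.natDegree) := hc _

theorem sum_ind_le (hP : ∀ n (g : F[X]), g ∈ POL F n ↔ g.degree < n)
    (hc : ∀ n, (POL F n).card = Fintype.card F ^ n) (m : F[X]) (hm : m.Monic) (n : ℕ)
    (S : Finset F[X]) (hS : S ⊆ POL F n) :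
    ∑ x ∈ S, ind m x ≤ qq F ^ (n - m.natDegree) := by
  rw [sum_ind]
  have h1 : (S.filter (fun x => m ∣ x)).card ≤ Fintype.card F ^ (n - m.natDegree) :=
    (Finset.card_le_card (Finset.filter_subset_filter _ hS)).trans (card_mult hP hc m hm n)
  unfold qq
  exact_mod_cast h1

theorem swap {ι κ : Type} (S₁ S₂ S₃ : Finset κ) (I : Finset ι) (f : ι → κ → ℝ)
    (h : ι → κ → κ → ℝ) :
    ∑ b ∈ S₁, ∑ α ∈ S₂, ∑ β ∈ S₃, ∑ x ∈ I, f x b * h x α β =
      ∑ x ∈ I, (∑ b ∈ S₁, f x b) * ∑ α ∈ S₂, ∑ β ∈ S₃, h x α β := by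
  have e1 : ∀ b α, ∑ β ∈ S₃, ∑ x ∈ I, f x b * h x α β =
      ∑ x ∈ I, f x b * ∑ β ∈ S₃, h x α β := by
    intro b α
    rw [Finset.sum_comm]
    refine Finset.sum_congr rfl fun x _ => ?_
    rw [Finset.mul_sum]
  have e2 : ∀ b, ∑ α ∈ S₂, ∑ x ∈ I, f x b * ∑ β ∈ S₃, h x α β =
      ∑ x ∈ I, f x b * ∑ α ∈ S₂, ∑ β ∈ S₃, h x α β := by
    intro b
    rw [Finset.sum_comm]
    refine Finset.sum_congr rfl fun x _ => ?_
    rw [Finset.mul_sum]
  simp only [e1, e2]
  rw [Finset.sum_comm]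
  refine Finset.sum_congr rfl fun x _ => ?_
  rw [Finset.sum_mul]

theorem geom {q : ℝ} (hq : 2 ≤ q) (M : ℕ) : ∑ i ∈ Finset.range M, (1 / q) ^ i ≤ 2 := by
  have h0 : 0 ≤ 1 / q := by positivity
  have h1 : 1 / q ≤ 1 / 2 := one_div_le_one_div_of_le (by norm_num) hq
  calc ∑ i ∈ Finset.range M, (1 / q) ^ i ≤ ∑ i ∈ Finset.range M, (1 / 2 : ℝ) ^ i :=
        Finset.sum_le_sum fun i _ => pow_le_pow_left₀ h0 h1 i
    _ ≤ 2 := by
      have h2 := geom_sum_eq (x := (1 / 2 : ℝ)) (by norm_num) M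
      rw [h2]
      have h3 : (0 : ℝ) ≤ (1 / 2) ^ M := by positivity
      have h4 : ((1 / 2 : ℝ) ^ M - 1) / (1 / 2 - 1) = 2 - 2 * (1 / 2) ^ M := by ring
      rw [h4]
      linarith

/-- the weight of the degree `i` -/
def ww (q : ℝ) (A' i : ℕ) : ℝ := if i + 3 ≤ A' then 3 * (1 / q) ^ i else q ^ 2 * (1 / q) ^ i

theorem ww_nonneg {q : ℝ} (hq : 0 < q) (A' i : ℕ) : 0 ≤ ww q A' i := by
  unfold ww
  split_ifs <;> positivity

theorem ww_sum {q : ℝ} (hq : 2 ≤ q) (A' M : ℕ) (h4 : 4 ≤ A') (hM : M ≤ A') :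
    ∑ i ∈ Finset.range M, ww q A' i ≤ 8 := by
  have hq0 : 0 < q := by linarith
  have hq1 : 1 ≤ q := by linarith
  have hi1 : 1 / q ≤ 1 := by
    rw [div_le_one hq0]
    exact hq1
  have hi0 : 0 ≤ 1 / q := by positivity
  obtain ⟨B, rfl⟩ : ∃ B, A' = B + 2 := ⟨A' - 2, by omega⟩
  have hB : 2 ≤ B := by omega
  have hsmall : ∀ i, 2 ≤ i → q ^ 2 * (1 / q) ^ i ≤ 1 := by
    intro i hi
    obtain ⟨n, rfl⟩ : ∃ n, i = 2 + n := ⟨i - 2, by omega⟩
    have e : q ^ 2 * (1 / q) ^ (2 + n) = (1 / q) ^ n := by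
      rw [pow_add, ← mul_assoc, ← mul_pow, mul_one_div_cancel hq0.ne', one_pow, one_mul]
    rw [e]
    exact pow_le_one₀ hi0 hi1
  have h1 : ∑ i ∈ Finset.range M, ww q (B + 2) i ≤ ∑ i ∈ Finset.range (B + 2), ww q (B + 2) i :=
    Finset.sum_le_sum_of_subset_of_nonneg (Finset.range_subset_range.2 hM)
      fun i _ _ => ww_nonneg hq0 _ _
  refine h1.trans ?_
  rw [Finset.sum_range_succ, Finset.sum_range_succ]
  have h2 : ∑ i ∈ Finset.range B, ww q (B + 2) i = 3 * ∑ i ∈ Finset.range B, (1 / q) ^ i := by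
    rw [Finset.mul_sum]
    refine Finset.sum_congr rfl fun i hi => ?_
    rw [Finset.mem_range] at hi
    unfold ww
    rw [if_pos (by omega)]
  have h3 : ww q (B + 2) B ≤ 1 := by
    unfold ww
    rw [if_neg (by omega)]
    exact hsmall B hB
  have h5 : ww q (B + 2) (B + 1) ≤ 1 := by
    unfold ww
    rw [if_neg (by omega)]
    exact hsmall (B + 1) (by omega)
  have h6 := geom hq B
  rw [h2]
  linarith

end XX7

open XX7 in
theorem p_X7 (F : Type) [Field F] [Fintype F] [CharP F 5] (hB0 : S_B0 F) (hQ : S_Q F)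
    (hX6 : S_X6 F) (hX7a : S_X7a F) : S_X7 F := by
  obtain ⟨hP, hM, hD, hPc, hMc, -⟩ := hB0
  intro g k d₁ d₂ j hd h1 h12 hj hk
  obtain ⟨A, hA⟩ : ∃ A, A = 3 * g + 4 - k - 5 * d₁ := ⟨_, rfl⟩
  obtain ⟨A', hA'⟩ : ∃ A', A' = 3 * g + 4 - k - 5 * d₂ := ⟨_, rfl⟩
  have hA4 : 4 ≤ A' := by omega
  have hAA : A' ≤ A := by omega
  rw [← hA, ← hA']
  have hq2 : (2 : ℝ) ≤ qq F := by
    unfold qq
    exact_mod_cast Fintype.one_lt_card (α := F)
  have hq0 : 0 < qq F := by linarith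
  obtain ⟨q, hqdef⟩ : ∃ q, q = qq F := ⟨_, rfl⟩
  rw [← hqdef] at hq2 hq0 ⊢
  have hcast : ∀ n : ℕ, ((Fintype.card F ^ n : ℕ) : ℝ) = q ^ n := by
    intro n
    rw [hqdef]
    unfold qq
    push_cast
    rfl
  obtain ⟨M, hMdef⟩ : ∃ M, M = min A' (j + 1) := ⟨_, rfl⟩
  obtain ⟨I, hI⟩ : ∃ I : Finset (Σ _ : ℕ, F[X]), I = (Finset.range M).sigma (fun i => MON F i) :=
    ⟨_, rfl⟩
  have hImem : ∀ x ∈ I, x.1 < A' ∧ x.1 ≤ j ∧ x.2.Monic ∧ x.2.natDegree = x.1 := by
    intro x hx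
    rw [hI, Finset.mem_sigma, Finset.mem_range, hM, hMdef] at hx
    have := lt_min_iff.1 hx.1
    exact ⟨this.1, by omega, hx.2.1, hx.2.2⟩
  -- the weights
  obtain ⟨H, hH⟩ : ∃ H : (Σ _ : ℕ, F[X]) → F[X] → F[X] → ℝ, H = fun x α β =>
      q ^ (g + 2 + x.1) / q ^ j * gg A A' x.2 α β + q ^ (g + 3 + x.1) / q ^ j * zz A A' x.2 α β :=
    ⟨_, rfl⟩
  have hHnn : ∀ x α β, 0 ≤ H x α β := by
    intro x α β
    rw [hH]
    exact add_nonneg (mul_nonneg (by positivity) (gg_nonneg _ _ _ _ _))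
      (mul_nonneg (by positivity) (zz_nonneg _ _ _ _ _))
  -- pointwise
  have hpt : ∀ b ∈ (DEG F j).filter (fun b => Squarefree b), ∀ α ∈ POL F A,
      ∀ β ∈ (POL F A').filter (fun β => β ≠ 0), ((PRs g k d₁ d₂ b α β).card : ℝ) ≤
        ∑ x ∈ I, ind x.2 b * H x α β := by
    intro b hb α hα β hβ
    rw [Finset.mem_filter, hD] at hb
    rw [Finset.mem_filter] at hβ
    obtain ⟨⟨hb0, hbj⟩, hbs⟩ := hb
    obtain ⟨hβA, hβ0⟩ := hβ
    have hsnn : 0 ≤ ∑ x ∈ I, ind x.2 b * H x α β :=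
      Finset.sum_nonneg fun x _ => mul_nonneg (ind_nonneg _ _) (hHnn _ _ _)
    have hmem : ∀ m : F[X], m.Monic → m ∣ b → m ∣ β →
        (⟨m.natDegree, m⟩ : Σ _ : ℕ, F[X]) ∈ I := by
      intro m hm hmb hmβ
      have hmj : m.natDegree ≤ j := hbj ▸ natDegree_le_of_dvd hmb hb0
      have hmA : m.natDegree < A' := by
        have h3 : β.natDegree < A' := (natDegree_lt_iff_degree_lt hβ0).2 ((hP _ _).1 hβA)
        exact (natDegree_le_of_dvd hmβ hβ0).trans_lt h3
      rw [hI, Finset.mem_sigma, Finset.mem_range, hM, hMdef]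
      exact ⟨lt_min hmA (by show m.natDegree < j + 1; omega), hm, rfl⟩
    have hsingle : ∀ m : F[X], m.Monic → m ∣ b → m ∣ β →
        H ⟨m.natDegree, m⟩ α β ≤ ∑ x ∈ I, ind x.2 b * H x α β := by
      intro m hm hmb hmβ
      have e1 : ind m b = 1 := by unfold ind; rw [if_pos hmb]
      have h3 := Finset.single_le_sum (f := fun x : (Σ _ : ℕ, F[X]) => ind x.2 b * H x α β)
        (fun x _ => mul_nonneg (ind_nonneg _ _) (hHnn _ _ _)) (hmem m hm hmb hmβ)
      refine le_trans (le_of_eq ?_) h3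
      show H ⟨m.natDegree, m⟩ α β = ind m b * H ⟨m.natDegree, m⟩ α β
      rw [e1, one_mul]
    by_cases htop : ∃ t, 1 ≤ t ∧ t ≤ 3 ∧ (α.coeff (A - t) ≠ 0 ∨ β.coeff (A' - t) ≠ 0)
    · have h6 := hX6 g k d₁ d₂ b α β hd h1 (by omega) hb0 hbs (by rw [hbj]; exact hj) (by omega)
        hk (by rw [← hA]; exact hα) (by rw [← hA']; exact hβA) (by rw [← hA, ← hA']; exact htop)
      rw [← hA, ← hA'] at h6
      obtain ⟨⟨m, hm, hmb, hmα, hmβ, hcard⟩, hline⟩ := h6
      rcases (PRs g k d₁ d₂ b α β).eq_empty_or_nonempty with he | hne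
      · rw [he, Finset.card_empty, Nat.cast_zero]
        exact hsnn
      · refine le_trans ?_ (hsingle m hm hmb hmβ)
        have e2 : gg A A' m α β = 1 := by
          unfold gg
          rw [if_pos ⟨hmα, hmβ, hline hne⟩]
        rw [hbj] at hcard
        have e3 : ((PRs g k d₁ d₂ b α β).card : ℝ) ≤ q ^ (g + 2 + m.natDegree) / q ^ j := by
          rw [le_div_iff₀ (by positivity), ← hcast, ← hcast]
          exact_mod_cast hcard
        rw [hH]
        show _ ≤ q ^ (g + 2 + m.natDegree) / q ^ j * gg A A' m α β +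
          q ^ (g + 3 + m.natDegree) / q ^ j * zz A A' m α β
        rw [e2, mul_one]
        have e4 : 0 ≤ q ^ (g + 3 + m.natDegree) / q ^ j * zz A A' m α β :=
          mul_nonneg (by positivity) (zz_nonneg _ _ _ _ _)
        linarith
    · obtain ⟨m, hm, hmb, hmα, hmβ, hcard⟩ :=
        hQ g d₁ d₂ b α β hd h1 (by omega) hb0 hbs (by rw [hbj]; omega) (Or.inr hβ0)
      refine le_trans ?_ (hsingle m hm hmb hmβ)
      have e2 : zz A A' m α β = 1 := by
        unfold zz
        refine if_pos ⟨hmα, hmβ, fun t ht1 ht3 => ?_⟩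
        constructor
        · by_contra hc
          exact htop ⟨t, ht1, ht3, Or.inl hc⟩
        · by_contra hc
          exact htop ⟨t, ht1, ht3, Or.inr hc⟩
      rw [hbj] at hcard
      have hle : (PRs g k d₁ d₂ b α β).card ≤ (PR d₁ d₂ b α β).card := by
        unfold PRs
        exact Finset.card_le_card (Finset.filter_subset _ _)
      have e3 : ((PRs g k d₁ d₂ b α β).card : ℝ) ≤ q ^ (g + 3 + m.natDegree) / q ^ j := by
        rw [le_div_iff₀ (by positivity), ← hcast, ← hcast]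
        exact_mod_cast (Nat.mul_le_mul_right _ hle).trans hcard
      rw [hH]
      show _ ≤ q ^ (g + 2 + m.natDegree) / q ^ j * gg A A' m α β +
        q ^ (g + 3 + m.natDegree) / q ^ j * zz A A' m α β
      rw [e2, mul_one]
      have e4 : 0 ≤ q ^ (g + 2 + m.natDegree) / q ^ j * gg A A' m α β :=
        mul_nonneg (by positivity) (gg_nonneg _ _ _ _ _)
      linarith
  have hsum : ∑ b ∈ (DEG F j).filter (fun b => Squarefree b), ∑ α ∈ POL F A,
      ∑ β ∈ (POL F A').filter (fun β => β ≠ 0), ((PRs g k d₁ d₂ b α β).card : ℝ) ≤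
      ∑ b ∈ (DEG F j).filter (fun b => Squarefree b), ∑ α ∈ POL F A,
      ∑ β ∈ (POL F A').filter (fun β => β ≠ 0), ∑ x ∈ I, ind x.2 b * H x α β :=
    Finset.sum_le_sum fun b hb => Finset.sum_le_sum fun α hα => Finset.sum_le_sum fun β hβ =>
      hpt b hb α hα β hβ
  refine hsum.trans ?_
  rw [swap _ _ _ I (fun x y => ind x.2 y) H]
  have hterm2 : ∀ x ∈ I, (∑ b ∈ (DEG F j).filter (fun b => Squarefree b), ind x.2 b) *
      (∑ α ∈ POL F A, ∑ β ∈ (POL F A').filter (fun β => β ≠ 0), H x α β) ≤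
      q ^ (g + 1 + A + A') * ((1 / q) ^ x.1 * ww q A' x.1) := by
    intro x hx
    obtain ⟨hxA', hxj, hxm, hxd⟩ := hImem x hx
    have k1 : ∑ b ∈ (DEG F j).filter (fun b => Squarefree b), ind x.2 b ≤ q ^ (j + 1 - x.1) := by
      rw [← hxd, hqdef]
      refine sum_ind_le hP hPc x.2 hxm (j + 1) _ ?_
      intro b hb
      rw [Finset.mem_filter, hD] at hb
      rw [hP]
      exact (natDegree_lt_iff_degree_lt hb.1.1).1 (by rw [hb.1.2]; omega)
    have n2 : 0 ≤ ∑ α ∈ POL F A, ∑ β ∈ (POL F A').filter (fun β => β ≠ 0), H x α β :=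
      Finset.sum_nonneg fun _ _ => Finset.sum_nonneg fun _ _ => hHnn _ _ _
    have hHsum : ∑ α ∈ POL F A, ∑ β ∈ (POL F A').filter (fun β => β ≠ 0), H x α β =
        q ^ (g + 2 + x.1) / q ^ j *
          (∑ α ∈ POL F A, ∑ β ∈ (POL F A').filter (fun β => β ≠ 0), gg A A' x.2 α β) +
        q ^ (g + 3 + x.1) / q ^ j *
          (∑ α ∈ POL F A, ∑ β ∈ (POL F A').filter (fun β => β ≠ 0), zz A A' x.2 α β) := by
      rw [hH]
      simp only [Finset.sum_add_distrib, Finset.mul_sum]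
    obtain ⟨j', hj'⟩ := Nat.exists_eq_add_of_le hxj
    obtain ⟨a', ha'⟩ := Nat.exists_eq_add_of_le hxA'.le
    obtain ⟨a, ha⟩ := Nat.exists_eq_add_of_le (hxA'.le.trans hAA)
    have s1 : j + 1 - x.1 = j' + 1 := by omega
    have hq1 : 1 ≤ q := by linarith
    by_cases h3 : x.1 + 3 ≤ A'
    · -- generic degrees
      obtain ⟨c1, c2⟩ := hX7a x.1 A A' x.2 hxm hxd h3 hAA
      have g1 : ∑ α ∈ POL F A, ∑ β ∈ (POL F A').filter (fun β => β ≠ 0), gg A A' x.2 α β ≤
          2 * q ^ (A + A') / q ^ (2 * x.1 + 2) := by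
        have g2 : ∑ α ∈ POL F A, ∑ β ∈ (POL F A').filter (fun β => β ≠ 0), gg A A' x.2 α β ≤
            ∑ p ∈ POL F A ×ˢ POL F A', gg A A' x.2 p.1 p.2 := by
          rw [Finset.sum_product]
          refine Finset.sum_le_sum fun α _ => ?_
          exact Finset.sum_le_sum_of_subset_of_nonneg (Finset.filter_subset _ _)
            fun _ _ _ => gg_nonneg _ _ _ _ _
        refine g2.trans ?_
        rw [sum_eq_card (POL F A ×ˢ POL F A') (fun p => x.2 ∣ p.1 ∧ x.2 ∣ p.2 ∧ ∀ t u, 1 ≤ t →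
          t ≤ 3 → 1 ≤ u → u ≤ 3 → p.1.coeff (A - t) * p.2.coeff (A' - u) =
            p.1.coeff (A - u) * p.2.coeff (A' - t)) (fun p => gg A A' x.2 p.1 p.2)
          (fun p hp => if_pos hp) (fun p hp => if_neg hp),
          le_div_iff₀ (by positivity), ← hcast, ← hcast]
        rw [card_any _ _ _ (Classical.decPred _)]
        rw [card_any _ _ _ (Classical.decPred _)] at c1
        exact_mod_cast c1
      have g3 : ∑ α ∈ POL F A, ∑ β ∈ (POL F A').filter (fun β => β ≠ 0), zz A A' x.2 α β ≤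
          q ^ (A + A') / q ^ (2 * x.1 + 6) := by
        have g2 : ∑ α ∈ POL F A, ∑ β ∈ (POL F A').filter (fun β => β ≠ 0), zz A A' x.2 α β ≤
            ∑ p ∈ POL F A ×ˢ POL F A', zz A A' x.2 p.1 p.2 := by
          rw [Finset.sum_product]
          refine Finset.sum_le_sum fun α _ => ?_
          exact Finset.sum_le_sum_of_subset_of_nonneg (Finset.filter_subset _ _)
            fun _ _ _ => zz_nonneg _ _ _ _ _
        refine g2.trans ?_
        rw [sum_eq_card (POL F A ×ˢ POL F A') (fun p => x.2 ∣ p.1 ∧ x.2 ∣ p.2 ∧ ∀ t, 1 ≤ t →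
          t ≤ 3 → p.1.coeff (A - t) = 0 ∧ p.2.coeff (A' - t) = 0)
          (fun p => zz A A' x.2 p.1 p.2) (fun p hp => if_pos hp) (fun p hp => if_neg hp),
          le_div_iff₀ (by positivity), ← hcast, ← hcast]
        rw [card_any _ _ _ (Classical.decPred _)]
        rw [card_any _ _ _ (Classical.decPred _)] at c2
        exact_mod_cast c2
      have k2 : ∑ α ∈ POL F A, ∑ β ∈ (POL F A').filter (fun β => β ≠ 0), H x α β ≤
          q ^ (g + 2 + x.1) / q ^ j * (2 * q ^ (A + A') / q ^ (2 * x.1 + 2)) +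
          q ^ (g + 3 + x.1) / q ^ j * (q ^ (A + A') / q ^ (2 * x.1 + 6)) := by
        rw [hHsum]
        exact add_le_add (mul_le_mul_of_nonneg_left g1 (by positivity))
          (mul_le_mul_of_nonneg_left g3 (by positivity))
      refine (mul_le_mul k1 k2 n2 (by positivity)).trans ?_
      have e1 : q ^ (j + 1 - x.1) *
          (q ^ (g + 2 + x.1) / q ^ j * (2 * q ^ (A + A') / q ^ (2 * x.1 + 2)) +
          q ^ (g + 3 + x.1) / q ^ j * (q ^ (A + A') / q ^ (2 * x.1 + 6))) =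
          q ^ (g + 1 + A + A') * ((1 / q) ^ x.1 * ((2 + (1 / q) ^ 3) * (1 / q) ^ x.1)) := by
        rw [s1, hj', one_div, inv_pow, inv_pow]
        field_simp
        ring
      rw [e1]
      unfold ww
      rw [if_pos h3]
      have hi : (1 / q) ^ 3 ≤ 1 := by
        refine pow_le_one₀ (by positivity) ?_
        rw [div_le_one hq0]
        exact hq1
      refine mul_le_mul_of_nonneg_left (mul_le_mul_of_nonneg_left
        (mul_le_mul_of_nonneg_right (by linarith) (by positivity)) (by positivity))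
        (by positivity)
    · -- the two largest degrees
      have g1 : ∑ α ∈ POL F A, ∑ β ∈ (POL F A').filter (fun β => β ≠ 0), gg A A' x.2 α β ≤
          q ^ (A - x.1) * q ^ (A' - x.1) := by
        have g2 : ∑ α ∈ POL F A, ∑ β ∈ (POL F A').filter (fun β => β ≠ 0), gg A A' x.2 α β ≤
            (∑ α ∈ POL F A, ind x.2 α) * ∑ β ∈ (POL F A').filter (fun β => β ≠ 0), ind x.2 β := by
          rw [Finset.sum_mul]
          refine Finset.sum_le_sum fun α _ => ?_
          rw [Finset.mul_sum]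
          refine Finset.sum_le_sum fun β _ => ?_
          unfold gg ind
          by_cases u2 : x.2 ∣ α
          · by_cases u3 : x.2 ∣ β
            · rw [if_pos u2, if_pos u3, mul_one]
              split_ifs <;> norm_num
            · rw [if_neg u3, mul_zero, if_neg (fun h => u3 h.2.1)]
          · rw [if_neg u2, zero_mul, if_neg (fun h => u2 h.1)]
        refine g2.trans ?_
        have k2 : ∑ α ∈ POL F A, ind x.2 α ≤ q ^ (A - x.1) := by
          rw [← hxd, hqdef]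
          exact sum_ind_le hP hPc x.2 hxm A _ (Finset.Subset.refl _)
        have k3 : ∑ β ∈ (POL F A').filter (fun β => β ≠ 0), ind x.2 β ≤ q ^ (A' - x.1) := by
          rw [← hxd, hqdef]
          exact sum_ind_le hP hPc x.2 hxm A' _ (Finset.filter_subset _ _)
        exact mul_le_mul k2 k3 (Finset.sum_nonneg fun _ _ => ind_nonneg _ _) (by positivity)
      have g3 : ∑ α ∈ POL F A, ∑ β ∈ (POL F A').filter (fun β => β ≠ 0), zz A A' x.2 α β = 0 := by
        refine Finset.sum_eq_zero fun α _ => Finset.sum_eq_zero fun β hβ => ?_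
        rw [Finset.mem_filter, hP] at hβ
        unfold zz
        refine if_neg ?_
        rintro ⟨-, hmβ, htop⟩
        have r1 : x.2.natDegree ≤ β.natDegree := natDegree_le_of_dvd hmβ hβ.2
        have r2 : β.natDegree < A' := (natDegree_lt_iff_degree_lt hβ.2).2 hβ.1
        have r3 : β.coeff β.natDegree ≠ 0 := by
          rw [coeff_natDegree]
          exact leadingCoeff_ne_zero.2 hβ.2
        apply r3
        have r4 := (htop (A' - β.natDegree) (by omega) (by omega)).2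
        have r5 : A' - (A' - β.natDegree) = β.natDegree := by omega
        rw [r5] at r4
        exact r4
      have k2 : ∑ α ∈ POL F A, ∑ β ∈ (POL F A').filter (fun β => β ≠ 0), H x α β ≤
          q ^ (g + 2 + x.1) / q ^ j * (q ^ (A - x.1) * q ^ (A' - x.1)) := by
        rw [hHsum, g3, mul_zero, add_zero]
        exact mul_le_mul_of_nonneg_left g1 (by positivity)
      refine (mul_le_mul k1 k2 n2 (by positivity)).trans (le_of_eq ?_)
      unfold ww
      rw [if_neg h3]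
      have s2 : A - x.1 = a := by omega
      have s3 : A' - x.1 = a' := by omega
      rw [s1, s2, s3, hj', ha, ha', one_div, inv_pow]
      field_simp
      ring
  refine (Finset.sum_le_sum hterm2).trans ?_
  rw [← Finset.mul_sum, hI, Finset.sum_sigma]
  have e4 : ∀ i ∈ Finset.range M, ∑ _s ∈ MON F i, ((1 / q) ^ i * ww q A' i) = ww q A' i := by
    intro i _
    rw [Finset.sum_const, hMc, nsmul_eq_mul, hcast, ← mul_assoc, ← mul_pow,
      mul_one_div_cancel hq0.ne', one_pow, one_mul]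
  rw [Finset.sum_congr rfl e4]
  have h5 := ww_sum hq2 A' M hA4 (by rw [hMdef]; exact min_le_left _ _)
  have h6 : 0 ≤ q ^ (g + 1 + A + A') := by positivity
  nlinarith

end D5
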