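import Pool.Agent.H506.D5.Stm3

/-!
# Project D5, part 3: X7a
-/

open Polynomial
open scoped Classical

noncomputable section

namespace D5

namespace XX7a

variable {F : Type} [Field F] [Fintype F]

/-- the multiples of `m` in `POL A` with given three top coefficients -/
def fib (A : ℕ) (m : F[X]) (a : Fin 3 → F) : Finset F[X] :=
  (POL F A).filter (fun α => m ∣ α ∧ ∀ t : Fin 3, α.coeff (A - ((t : ℕ) + 1)) = a t)

theorem fib_card [CharP F 5] (hB0 : S_B0 F) {A i : ℕ} {m : F[X]} (hm : m.Monic)
    (hi : m.natDegree = i) (hA : i + 3 ≤ A) (a : Fin 3 → F) :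
    (fib A m a).card ≤ Fintype.card F ^ (A - 3 - i) := by
  obtain ⟨hP, _, _, hC, _, _⟩ := hB0
  rcases (fib A m a).eq_empty_or_nonempty with h0 | ⟨α', hα'⟩
  · rw [h0, Finset.card_empty]
    exact Nat.zero_le _
  · have hsub : fib A m a ⊆ (POL F (A - 3 - i)).image (fun γ => α' + m * γ) := by
      intro α hα
      unfold fib at hα hα'
      rw [Finset.mem_filter, hP] at hα hα'
      obtain ⟨h1, h2, h3⟩ := hα
      obtain ⟨h1', h2', h3'⟩ := hα'
      obtain ⟨γ, hγ⟩ := dvd_sub h2 h2'
      rw [Finset.mem_image]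
      refine ⟨γ, ?_, ?_⟩
      · rw [hP]
        by_cases hγ0 : γ = 0
        · rw [hγ0, degree_zero]
          exact WithBot.bot_lt_coe _
        · have hdeg : (α - α').degree < ((A - 3 : ℕ) : WithBot ℕ) := by
            rw [degree_lt_iff_coeff_zero]
            intro k hk
            rw [coeff_sub]
            by_cases hkA : A ≤ k
            · rw [(degree_lt_iff_coeff_zero _ _).mp h1 k hkA,
                (degree_lt_iff_coeff_zero _ _).mp h1' k hkA, sub_zero]
            · have h4 : A - 1 - k < 3 := by omega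
              have h5 := h3 ⟨A - 1 - k, h4⟩
              have h6 := h3' ⟨A - 1 - k, h4⟩
              have h7 : A - ((A - 1 - k) + 1) = k := by omega
              simp only [h7] at h5 h6
              rw [h5, h6, sub_self]
          have hne : m * γ ≠ 0 := mul_ne_zero hm.ne_zero hγ0
          rw [hγ] at hdeg
          have h8 : (m * γ).natDegree < A - 3 := (natDegree_lt_iff_degree_lt hne).mpr hdeg
          rw [natDegree_mul hm.ne_zero hγ0, hi] at h8
          refine (natDegree_lt_iff_degree_lt hγ0).mp ?_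
          omega
      · show α' + m * γ = α
        rw [← hγ]
        ring
    refine (Finset.card_le_card hsub).trans (Finset.card_image_le.trans ?_)
    rw [hC]

/-- the pairs of dependent vectors -/
def dep (F : Type) [Field F] [Fintype F] : Finset ((Fin 3 → F) × (Fin 3 → F)) :=
  Finset.univ.filter (fun p => ∀ t u, p.1 t * p.2 u = p.1 u * p.2 t)

theorem dep_card : (dep F).card ≤ 2 * Fintype.card F ^ 4 := by
  have hsub : dep F ⊆ ((Finset.univ : Finset (Fin 3 → F)).image
      (fun b => ((0 : Fin 3 → F), b))) ∪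
      ((Finset.univ : Finset (F × (Fin 3 → F))).image
        (fun x => (x.2, fun t => x.1 * x.2 t))) := by
    rintro ⟨a, b⟩ hp
    unfold dep at hp
    rw [Finset.mem_filter] at hp
    have h1 : ∀ t u, a t * b u = a u * b t := hp.2
    rw [Finset.mem_union, Finset.mem_image, Finset.mem_image]
    by_cases ha : a = 0
    · left
      exact ⟨b, Finset.mem_univ _, by rw [ha]⟩
    · right
      obtain ⟨t0, ht0⟩ : ∃ t0, a t0 ≠ 0 := by
        by_contra hno
        apply ha
        funext t
        by_contra h2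
        exact hno ⟨t, h2⟩
      refine ⟨(b t0 / a t0, a), Finset.mem_univ _, ?_⟩
      have h3 : (fun t => b t0 / a t0 * a t) = b := by
        funext u
        have h4 := h1 t0 u
        rw [div_mul_eq_mul_div, div_eq_iff ht0, mul_comm (b t0), ← h4, mul_comm]
      show (a, fun t => b t0 / a t0 * a t) = (a, b)
      rw [h3]
  refine (Finset.card_le_card hsub).trans ((Finset.card_union_le _ _).trans ?_)
  have h5 : ((Finset.univ : Finset (Fin 3 → F)).image
      (fun b => ((0 : Fin 3 → F), b))).card ≤ Fintype.card F ^ 3 := by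
    refine Finset.card_image_le.trans (le_of_eq ?_)
    rw [Finset.card_univ, Fintype.card_fun, Fintype.card_fin]
  have h6 : ((Finset.univ : Finset (F × (Fin 3 → F))).image
        (fun x => (x.2, fun t => x.1 * x.2 t))).card ≤ Fintype.card F * Fintype.card F ^ 3 := by
    refine Finset.card_image_le.trans (le_of_eq ?_)
    rw [Finset.card_univ, Fintype.card_prod, Fintype.card_fun, Fintype.card_fin]
  have h7 : 1 ≤ Fintype.card F := Fintype.card_pos
  have h8 : Fintype.card F ^ 3 ≤ Fintype.card F ^ 4 := Nat.pow_le_pow_right h7 (by norm_num)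
  have h9 : Fintype.card F * Fintype.card F ^ 3 = Fintype.card F ^ 4 := by ring
  omega

end XX7a

open XX7a

theorem p_X7a (F : Type) [Field F] [Fintype F] [CharP F 5] (hB0 : S_B0 F) : S_X7a F := by
  intro i A A' m hm hi hA' hAA
  have hA : i + 3 ≤ A := hA'.trans hAA
  have hprod : ∀ a b : Fin 3 → F, (fib A m a ×ˢ fib A' m b).card ≤
      Fintype.card F ^ (A - 3 - i) * Fintype.card F ^ (A' - 3 - i) := by
    intro a b
    rw [Finset.card_product]
    exact Nat.mul_le_mul (fib_card hB0 hm hi hA a) (fib_card hB0 hm hi hA' b)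
  constructor
  · have h1 : ((POL F A ×ˢ POL F A').filter (fun p => m ∣ p.1 ∧ m ∣ p.2 ∧
        ∀ t u, 1 ≤ t → t ≤ 3 → 1 ≤ u → u ≤ 3 →
        p.1.coeff (A - t) * p.2.coeff (A' - u) = p.1.coeff (A - u) * p.2.coeff (A' - t))).card ≤
        (Fintype.card F ^ (A - 3 - i) * Fintype.card F ^ (A' - 3 - i)) * (dep F).card := by
      refine Finset.card_le_mul_card_image_of_maps_to
        (f := fun p : F[X] × F[X] => ((fun t : Fin 3 => p.1.coeff (A - ((t : ℕ) + 1))),
          (fun t : Fin 3 => p.2.coeff (A' - ((t : ℕ) + 1))))) ?_ _ ?_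
      · intro p hp
        rw [Finset.mem_filter] at hp
        unfold dep
        rw [Finset.mem_filter]
        refine ⟨Finset.mem_univ _, ?_⟩
        intro t u
        have ht := t.2
        have hu := u.2
        exact hp.2.2.2 ((t : ℕ) + 1) ((u : ℕ) + 1) (by omega) (by omega) (by omega) (by omega)
      · rintro ⟨a, b⟩ _
        refine (Finset.card_le_card ?_).trans (hprod a b)
        intro p hp
        rw [Finset.mem_filter, Finset.mem_filter, Finset.mem_product] at hp
        obtain ⟨⟨⟨h2, h3⟩, h4, h5, _⟩, h6⟩ := hp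
        have h7 := congrArg Prod.fst h6
        have h8 := congrArg Prod.snd h6
        unfold fib
        rw [Finset.mem_product, Finset.mem_filter, Finset.mem_filter]
        exact ⟨⟨h2, h4, fun t => congrFun h7 t⟩, ⟨h3, h5, fun t => congrFun h8 t⟩⟩
    have h9 : Fintype.card F ^ (A + A') = Fintype.card F ^ (A - 3 - i) *
        Fintype.card F ^ (A' - 3 - i) * Fintype.card F ^ 4 * Fintype.card F ^ (2 * i + 2) := by
      rw [← pow_add, ← pow_add, ← pow_add]
      congr 1
      omega
    calc _ ≤ ((Fintype.card F ^ (A - 3 - i) * Fintype.card F ^ (A' - 3 - i)) * (dep F).card) *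
          Fintype.card F ^ (2 * i + 2) := Nat.mul_le_mul_right _ h1
      _ ≤ ((Fintype.card F ^ (A - 3 - i) * Fintype.card F ^ (A' - 3 - i)) *
          (2 * Fintype.card F ^ 4)) * Fintype.card F ^ (2 * i + 2) :=
        Nat.mul_le_mul_right _ (Nat.mul_le_mul_left _ dep_card)
      _ = 2 * Fintype.card F ^ (A + A') := by rw [h9]; ring
  · have h1 : ((POL F A ×ˢ POL F A').filter (fun p => m ∣ p.1 ∧ m ∣ p.2 ∧
        ∀ t, 1 ≤ t → t ≤ 3 → p.1.coeff (A - t) = 0 ∧ p.2.coeff (A' - t) = 0)).card ≤
        Fintype.card F ^ (A - 3 - i) * Fintype.card F ^ (A' - 3 - i) := by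
      refine (Finset.card_le_card ?_).trans (hprod 0 0)
      intro p hp
      rw [Finset.mem_filter, Finset.mem_product] at hp
      obtain ⟨⟨h2, h3⟩, h4, h5, h6⟩ := hp
      unfold fib
      rw [Finset.mem_product, Finset.mem_filter, Finset.mem_filter]
      refine ⟨⟨h2, h4, fun t => ?_⟩, ⟨h3, h5, fun t => ?_⟩⟩
      · have ht := t.2
        exact (h6 ((t : ℕ) + 1) (by omega) (by omega)).1
      · have ht := t.2
        exact (h6 ((t : ℕ) + 1) (by omega) (by omega)).2
    have h9 : Fintype.card F ^ (A + A') = Fintype.card F ^ (A - 3 - i) *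
        Fintype.card F ^ (A' - 3 - i) * Fintype.card F ^ (2 * i + 6) := by
      rw [← pow_add, ← pow_add]
      congr 1
      omega
    rw [h9]
    exact Nat.mul_le_mul_right _ h1

end D5
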