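import Pool.Agent.H506.D5.Stm3

/-!
# X8: counting the pairs `(l, b)` with all symmetries (helper10 for helper506; edit of the file R2)
-/

open Polynomial
open scoped Classical

noncomputable section

namespace D5

namespace XX8

lemma rr_zero {F : Type} [Field F] (g : ℕ) : rr g (0 : Fin g → F) = 0 := by
  have h : Ann g (0 : Fin g → F) 0 := by
    refine ⟨1, one_ne_zero, by rw [natDegree_one], fun i _ => ?_⟩
    unfold mu
    exact Finset.sum_eq_zero fun j _ => by rw [Pi.zero_apply, zero_mul]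
  exact Nat.le_zero.1 (Nat.sInf_le h)

set_option linter.unusedSectionVars false

variable {F : Type} [Field F] [Fintype F] [CharP F 5]

/-- the chosen generators -/
lemma bb_val (hFR : S_FR F) (hP0 : S_P0 F) (g : ℕ) (l : Fin g → F) (hl : l ≠ 0) :
    Val g l (rr g l) (fr (bb g l).1) (fr (bb g l).2) := by
  have h : ∃ p : F[X] × F[X], Val g l (rr g l) (fr p.1) (fr p.2) := by
    obtain ⟨B₁, B₂, h⟩ := hP0 g l hl
    obtain ⟨b₁, rfl⟩ := hFR.2.2.2.2.1 B₁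
    obtain ⟨b₂, rfl⟩ := hFR.2.2.2.2.1 B₂
    exact ⟨(b₁, b₂), h⟩
  have h1 : bb g l = h.choose := by
    unfold bb
    rw [dif_pos h]
  rw [h1]
  exact h.choose_spec

lemma cop_ne_zero {d₁ d₂ : ℕ} (h1 : 1 ≤ d₁) (h2 : 1 ≤ d₂) {b₁ b₂ : F[X]} (h : Cop d₁ d₂ b₁ b₂) :
    b₁ ≠ 0 := by
  rintro rfl
  obtain ⟨hc, _, _, h3⟩ := h
  have hu : IsUnit b₂ := isCoprime_zero_left.1 hc
  rcases h3 with h3 | h3
  · rw [natDegree_zero] at h3
    omega
  · rw [natDegree_eq_zero_of_isUnit hu] at h3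
    omega

lemma mem_POL (hB0 : S_B0 F) {n : ℕ} {p : F[X]} : p ∈ POL F n ↔ ∀ i, n ≤ i → p.coeff i = 0 := by
  rw [hB0.1, degree_lt_iff_coeff_zero]

lemma fr_mem (hB0 : S_B0 F) (hFR : S_FR F) {n : ℕ} {p : F[X]} (h : p ∈ POL F n) : fr p ∈ POL F n := by
  rw [mem_POL hB0] at h ⊢
  intro i hi
  rw [hFR.1, h i hi, zero_pow (by norm_num)]

lemma pow_char (x y : F[X]) : (x + y) ^ 5 = x ^ 5 + y ^ 5 := by
  have : Fact (Nat.Prime 5) := ⟨by norm_num⟩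
  exact add_pow_char x y 5

lemma mul_mem (hB0 : S_B0 F) {m n t : ℕ} {c b : F[X]} (hc : c ∈ POL F (m + 1)) (hb : b ∈ POL F n)
    (hb0 : b ≠ 0) (h : 5 * m + n = t) : c ^ 5 * b ∈ POL F t := by
  rw [hB0.1] at hc hb ⊢
  have h1 : b.natDegree < n := (natDegree_lt_iff_degree_lt hb0).2 hb
  have h2 : c.natDegree ≤ m := by
    by_cases h0 : c = 0
    · rw [h0, natDegree_zero]
      exact Nat.zero_le _
    · have := (natDegree_lt_iff_degree_lt h0).2 hc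
      omega
  have h3 : (c ^ 5 * b).natDegree < t := by
    have h4 : (c ^ 5 * b).natDegree ≤ (c ^ 5).natDegree + b.natDegree := natDegree_mul_le
    have h5 : (c ^ 5).natDegree ≤ 5 * c.natDegree := natDegree_pow_le
    omega
  by_cases h0 : c ^ 5 * b = 0
  · rw [h0, degree_zero]
    exact WithBot.bot_lt_coe _
  · exact (natDegree_lt_iff_degree_lt h0).1 h3

lemma sub_mem (hB0 : S_B0 F) {n : ℕ} {a b : F[X]} (ha : a ∈ POL F n) (hb : b ∈ POL F n) :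
    a - b ∈ POL F n := by
  rw [mem_POL hB0] at ha hb ⊢
  intro i hi
  rw [coeff_sub, ha i hi, hb i hi, sub_zero]

lemma natDegree_mem (hB0 : S_B0 F) {n : ℕ} {a : F[X]} (h : a.natDegree ≤ n) : a ∈ POL F (n + 1) := by
  rw [mem_POL hB0]
  intro i hi
  exact coeff_eq_zero_of_natDegree_lt (by omega)


lemma C_mul_mem (hB0 : S_B0 F) {n : ℕ} {a : F[X]} (s : F) (ha : a ∈ POL F n) :
    C s * a ∈ POL F n := by
  rw [mem_POL hB0] at ha ⊢
  intro i hi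
  rw [coeff_C_mul, ha i hi, mul_zero]

lemma fr_C_mul (hFR : S_FR F) (s : F) (b : F[X]) : fr (C s * b) = C (s ^ 5) * fr b := by
  ext i
  rw [hFR.1, coeff_C_mul, coeff_C_mul, hFR.1, mul_pow]

lemma mu_C_mul (g : ℕ) (l : Fin g → F) (a : F) (P : F[X]) :
    mu g l (C a * P) = a * mu g l P := by
  unfold mu
  rw [Finset.mul_sum]
  refine Finset.sum_congr rfl fun j _ => ?_
  rw [coeff_C_mul]
  ring

lemma cop_scale {d₁ d₂ : ℕ} {B₁ B₂ : F[X]} {u₁ u₂ : F} (h₁ : u₁ ≠ 0) (h₂ : u₂ ≠ 0)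
    (h : Cop d₁ d₂ B₁ B₂) : Cop d₁ d₂ (C u₁ * B₁) (C u₂ * B₂) := by
  obtain ⟨h3, h4, h5, h6⟩ := h
  have hu₁ : IsUnit (C u₁ : F[X]) := isUnit_C.2 (isUnit_iff_ne_zero.2 h₁)
  have hu₂ : IsUnit (C u₂ : F[X]) := isUnit_C.2 (isUnit_iff_ne_zero.2 h₂)
  refine ⟨?_, ?_, ?_, ?_⟩
  · exact (isCoprime_mul_unit_left_left hu₁ _ _).2 ((isCoprime_mul_unit_left_right hu₂ _ _).2 h3)
  · rw [natDegree_C_mul h₁]
    exact h4
  · rw [natDegree_C_mul h₂]
    exact h5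
  · rw [natDegree_C_mul h₁, natDegree_C_mul h₂]
    exact h6

lemma val_scale {g d : ℕ} {l : Fin g → F} {B₁ B₂ : F[X]} {u₁ u₂ : F} (h₁ : u₁ ≠ 0) (h₂ : u₂ ≠ 0)
    (h : Val g l d B₁ B₂) : Val g l d (C u₁ * B₁) (C u₂ * B₂) := by
  refine ⟨cop_scale h₁ h₂ h.1, fun i hi => ?_, fun i hi => ?_⟩
  · rw [mul_left_comm, mu_C_mul, h.2.1 i hi, mul_zero]
  · rw [mul_left_comm, mu_C_mul, h.2.2 i hi, mul_zero]

lemma mu_zero (g : ℕ) (P : F[X]) : mu g (0 : Fin g → F) P = 0 := by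
  unfold mu
  exact Finset.sum_eq_zero fun j _ => by rw [Pi.zero_apply, zero_mul]

lemma count_l (hP0b : S_P0b F) (g d : ℕ) (B₁ B₂ : F[X]) (hd : 1 ≤ d) (hd2 : 2 * d ≤ g + 1) :
    ((Finset.univ : Finset (Fin g → F)).filter (fun l => Val g l d B₁ B₂ ∧ l ≠ 0)).card ≤
      Fintype.card F - 1 := by
  by_cases hc : Cop d (g + 1 - d) B₁ B₂
  · have h0 : (0 : Fin g → F) ∈ (Finset.univ : Finset (Fin g → F)).filter
        (fun l => Val g l d B₁ B₂) :=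
      Finset.mem_filter.2 ⟨Finset.mem_univ _, hc, fun i _ => mu_zero g _, fun i _ => mu_zero g _⟩
    have h1 : (Finset.univ : Finset (Fin g → F)).filter (fun l => Val g l d B₁ B₂ ∧ l ≠ 0) =
        ((Finset.univ : Finset (Fin g → F)).filter (fun l => Val g l d B₁ B₂)).erase 0 := by
      ext l
      rw [Finset.mem_erase, Finset.mem_filter, Finset.mem_filter]
      tauto
    rw [h1, Finset.card_erase_of_mem h0]
    exact Nat.sub_le_sub_right (hP0b.1 g d B₁ B₂ hd hd2) 1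
  · have h1 : (Finset.univ : Finset (Fin g → F)).filter (fun l => Val g l d B₁ B₂ ∧ l ≠ 0) = ∅ :=
      Finset.filter_eq_empty_iff.2 fun l _ h => hc h.1.1
    rw [h1, Finset.card_empty]
    exact Nat.zero_le _

/-- two choices of `(s₂, c)` with the same `b₂'` agree -/
lemma uniq (hB0 : S_B0 F) {g d : ℕ} (hd : 1 ≤ d) (hd2 : 2 * d ≤ g + 1) {b₁ b₂ c c' : F[X]}
    {s s' : F} (hcop : Cop d (g + 1 - d) b₁ b₂) (hc : c ∈ POL F (g + 2 - 2 * d))
    (hc' : c' ∈ POL F (g + 2 - 2 * d)) (h : C s * b₂ + b₁ * c = C s' * b₂ + b₁ * c') :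
    s = s' ∧ c = c' := by
  have hb1 : b₁ ≠ 0 := cop_ne_zero hd (by omega) hcop
  have hs : s = s' := by
    by_contra hne
    have hne' : s - s' ≠ 0 := sub_ne_zero.2 hne
    have h1 : C (s - s') * b₂ = b₁ * (c' - c) := by
      rw [C_sub]
      linear_combination h
    have hu : IsUnit (C (s - s') : F[X]) := isUnit_C.2 (isUnit_iff_ne_zero.2 hne')
    have h2 : b₁ ∣ b₂ := by
      have h3 : b₁ ∣ C (s - s') * b₂ := ⟨c' - c, h1⟩
      exact (hu.dvd_mul_left).1 h3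
    have h3 : IsUnit b₁ := hcop.1.isUnit_of_dvd' dvd_rfl h2
    have h4 : b₁.natDegree = 0 := natDegree_eq_zero_of_isUnit h3
    have h5 : b₂.natDegree = g + 1 - d := by
      rcases hcop.2.2.2 with h5 | h5
      · omega
      · exact h5
    have h6 : (C (s - s') * b₂).natDegree = g + 1 - d := by rw [natDegree_C_mul hne', h5]
    have h7 : (b₁ * (c' - c)).natDegree ≤ b₁.natDegree + (c' - c).natDegree := natDegree_mul_le
    have h8 : (c' - c) ∈ POL F (g + 2 - 2 * d) := sub_mem hB0 hc' hc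
    have h9 : (c' - c).natDegree ≤ g + 1 - 2 * d := by
      by_cases h0 : c' - c = 0
      · rw [h0, natDegree_zero]
        exact Nat.zero_le _
      · rw [hB0.1] at h8
        have := (natDegree_lt_iff_degree_lt h0).2 h8
        omega
    rw [← h1, h6] at h7
    omega
  subst hs
  refine ⟨rfl, ?_⟩
  have h1 : b₁ * c = b₁ * c' := add_left_cancel h
  exact mul_left_cancel₀ hb1 h1

lemma vz_mem (hB0 : S_B0 F) {g n j k : ℕ} {a b z : F[X]} (ha : a ∈ MON F n) (hn : 2 * n + j < g)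
    (hk : k ≤ 2 * g + 1) (hb : b ∈ DEG F j) (hz : z ∈ POL F (2 * g + 2 - k)) (hz0 : z ≠ 0) :
    a ^ 2 * b * z ∈ POL F (3 * g + 1 - k) := by
  rw [hB0.2.1] at ha
  rw [hB0.2.2.1] at hb
  rw [hB0.1] at hz
  have h1 : z.natDegree < 2 * g + 2 - k := (natDegree_lt_iff_degree_lt hz0).2 hz
  have h2 : (a ^ 2 * b * z).natDegree ≤ 3 * g - k := by
    have h3 : (a ^ 2 * b * z).natDegree ≤ (a ^ 2 * b).natDegree + z.natDegree := natDegree_mul_le
    have h4 : (a ^ 2 * b).natDegree ≤ (a ^ 2).natDegree + b.natDegree := natDegree_mul_le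
    have h5 : (a ^ 2).natDegree ≤ 2 * a.natDegree := natDegree_pow_le
    omega
  have h3 : 3 * g - k + 1 = 3 * g + 1 - k := by omega
  rw [← h3]
  exact natDegree_mem hB0 h2

end XX8

open XX8 in
theorem p_X8 (F : Type) [Field F] [Fintype F] [CharP F 5] (hB0 : S_B0 F) (hFR : S_FR F)
    (hP0 : S_P0 F) (hP0b : S_P0b F) : S_X8 F := by
  intro g d n j k a ha hn hk hd hd2
  set S : Finset ((Fin g → F) × F[X]) :=
    ((Finset.univ : Finset (Fin g → F)) ×ˢ DEG F j).filter (fun p => rr g p.1 = d ∧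
      Squarefree p.2 ∧ NLs g p.1 (a ^ 2 * p.2) k) with hS
  have hq1 : 1 < Fintype.card F := Fintype.one_lt_card
  have hqr : ((Fintype.card F - 1 : ℕ) : ℝ) = qq F - 1 := by
    unfold qq
    rw [Nat.cast_sub hq1.le, Nat.cast_one]
  have hq : 0 < qq F - 1 := by
    rw [← hqr]
    exact_mod_cast Nat.sub_pos_of_lt hq1
  have hmem : ∀ t ∈ S, t.2 ∈ DEG F j ∧ rr g t.1 = d ∧ Squarefree t.2 ∧
      NLs g t.1 (a ^ 2 * t.2) k := by
    intro t ht
    rw [hS, Finset.mem_filter, Finset.mem_product] at ht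
    exact ⟨ht.1.2, ht.2⟩
  have hl0 : ∀ t ∈ S, t.1 ≠ 0 := by
    intro t ht h0
    have h := (hmem t ht).2.1
    rw [h0, rr_zero] at h
    omega
  have hval : ∀ t ∈ S, Val g t.1 d (fr (bb g t.1).1) (fr (bb g t.1).2) := by
    intro t ht
    have h := bb_val hFR hP0 g t.1 (hl0 t ht)
    rw [(hmem t ht).2.1] at h
    exact h
  have hcop : ∀ t ∈ S, Cop d (g + 1 - d) (bb g t.1).1 (bb g t.1).2 := fun t ht =>
    (hFR.2.2.2.2.2.2.2 _ _ _ _).1 (hval t ht).1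
  set A : ℕ := 3 * g + 4 - k - 5 * d with hA
  set A' : ℕ := 3 * g + 4 - k - 5 * (g + 1 - d) with hA'
  have key : ∀ t : (Fin g → F) × F[X], ∃ ab : F[X] × F[X], t ∈ S → ab.1 ∈ POL F A ∧
      ab.2 ∈ POL F A' ∧ ab.2 ≠ 0 ∧ t.2 ∣ (bb g t.1).1 ^ 5 * ab.1 + (bb g t.1).2 ^ 5 * ab.2 ∧
      (bb g t.1).1 ^ 5 * ab.1 + (bb g t.1).2 ^ 5 * ab.2 ∈ POL F (3 * g + 1 - k) := by
    intro t
    by_cases ht : t ∈ S
    · obtain ⟨h1, h2, _, z, α, β, hG, h4, h5, h6, h7⟩ := hmem t ht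
      rw [h2] at h5 h6
      refine ⟨(α, β), fun _ => ⟨h5, h6, h7, ?_, ?_⟩⟩
      · rw [← h4]
        exact ⟨a ^ 2 * z, by ring⟩
      · rw [← h4]
        exact vz_mem hB0 ha hn hG.2.2.1 h1 hG.2.2.2.2.1 hG.2.2.2.1
    · exact ⟨(0, 0), fun h => absurd h ht⟩
  choose ab hab using key
  -- the injection
  let T : Finset (Σ _ : F[X], Σ _ : F[X], Σ _ : F[X], Σ _ : F[X] × F[X], (Fin g → F)) :=
    ((DEG F j).filter (fun b => Squarefree b)).sigma fun b => (POL F A).sigma fun α =>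
      ((POL F A').filter (fun β => β ≠ 0)).sigma fun β =>
        (PRs g k d (g + 1 - d) b α β).sigma fun p =>
          (Finset.univ : Finset (Fin g → F)).filter (fun l => Val g l d (fr p.1) (fr p.2) ∧ l ≠ 0)
  let φ : ((Fin g → F) × F[X]) × ((Fˣ × Fˣ × Fˣ) × F[X]) →
      (Σ _ : F[X], Σ _ : F[X], Σ _ : F[X], Σ _ : F[X] × F[X], (Fin g → F)) := fun u =>
    ⟨u.1.2, C ((u.2.1.2.2 : F) * ((u.2.1.1⁻¹ : Fˣ) : F) ^ 5) * (ab u.1).1 -
        u.2.2 ^ 5 * (C ((u.2.1.2.2 : F) * ((u.2.1.2.1⁻¹ : Fˣ) : F) ^ 5) * (ab u.1).2),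
      C ((u.2.1.2.2 : F) * ((u.2.1.2.1⁻¹ : Fˣ) : F) ^ 5) * (ab u.1).2,
      (C (u.2.1.1 : F) * (bb g u.1.1).1,
        C (u.2.1.2.1 : F) * (bb g u.1.1).2 + (C (u.2.1.1 : F) * (bb g u.1.1).1) * u.2.2), u.1.1⟩
  have hφT : ∀ u ∈ S ×ˢ ((Finset.univ : Finset (Fˣ × Fˣ × Fˣ)) ×ˢ POL F (g + 2 - 2 * d)),
      φ u ∈ T := by
    rintro ⟨t, ⟨⟨s₁, s₂, s₃⟩, c⟩⟩ hu
    obtain ⟨ht, hsc⟩ := Finset.mem_product.1 hu
    replace ht : t ∈ S := ht
    have hc : c ∈ POL F (g + 2 - 2 * d) := (Finset.mem_product.1 hsc).2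
    obtain ⟨h1, h2, h3, h4⟩ := hmem t ht
    obtain ⟨h5, h6, h7, h8, h8'⟩ := hab t ht
    -- the sizes
    have hA1 : 1 ≤ A' := by
      by_contra h0
      have h3 : A' = 0 := by omega
      rw [h3, mem_POL hB0] at h6
      exact h7 (Polynomial.ext fun i => by rw [h6 i (Nat.zero_le _), coeff_zero])
    have hAd : 5 * (g + 1 - 2 * d) + A' = A := by omega
    have hs1 : (s₁ : F) ^ 5 ≠ 0 := pow_ne_zero _ s₁.ne_zero
    have hs2 : (s₂ : F) ^ 5 ≠ 0 := pow_ne_zero _ s₂.ne_zero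
    have h9 : Val g t.1 d (fr (C (s₁ : F) * (bb g t.1).1))
        (fr (C (s₂ : F) * (bb g t.1).2 + (C (s₁ : F) * (bb g t.1).1) * c)) := by
      rw [hFR.2.1, hFR.2.2.1 (C (s₁ : F) * (bb g t.1).1) c, fr_C_mul hFR (s₁ : F), fr_C_mul hFR (s₂ : F)]
      exact hP0b.2 g d t.1 _ _ _ hd hd2 (val_scale hs1 hs2 (hval t ht)) (fr_mem hB0 hFR hc)
    have h10 : Cop d (g + 1 - d) (C (s₁ : F) * (bb g t.1).1)
        (C (s₂ : F) * (bb g t.1).2 + (C (s₁ : F) * (bb g t.1).1) * c) :=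
      (hFR.2.2.2.2.2.2.2 _ _ _ _).1 h9.1
    have hc' : c ∈ POL F ((g + 1 - 2 * d) + 1) := by
      have : (g + 1 - 2 * d) + 1 = g + 2 - 2 * d := by omega
      rw [this]
      exact hc
    have hβ' : C ((s₃ : F) * ((s₂⁻¹ : Fˣ) : F) ^ 5) * (ab t).2 ∈ POL F A' :=
      C_mul_mem hB0 _ h6
    have hβ0 : C ((s₃ : F) * ((s₂⁻¹ : Fˣ) : F) ^ 5) * (ab t).2 ≠ 0 := by
      refine mul_ne_zero ?_ h7
      rw [Ne, C_eq_zero]
      exact mul_ne_zero s₃.ne_zero (pow_ne_zero _ (s₂⁻¹).ne_zero)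
    have h11 : (C (s₁ : F) * (bb g t.1).1) ^ 5 *
          (C ((s₃ : F) * ((s₁⁻¹ : Fˣ) : F) ^ 5) * (ab t).1 -
            c ^ 5 * (C ((s₃ : F) * ((s₂⁻¹ : Fˣ) : F) ^ 5) * (ab t).2)) +
        (C (s₂ : F) * (bb g t.1).2 + (C (s₁ : F) * (bb g t.1).1) * c) ^ 5 *
          (C ((s₃ : F) * ((s₂⁻¹ : Fˣ) : F) ^ 5) * (ab t).2) =
        C (s₃ : F) * ((bb g t.1).1 ^ 5 * (ab t).1 + (bb g t.1).2 ^ 5 * (ab t).2) := by
      have e1 : (C (s₁ : F) : F[X]) * C ((s₁⁻¹ : Fˣ) : F) = 1 := by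
        rw [← C_mul, ← Units.val_mul, mul_inv_cancel, Units.val_one, C_1]
      have e2 : (C (s₂ : F) : F[X]) * C ((s₂⁻¹ : Fˣ) : F) = 1 := by
        rw [← C_mul, ← Units.val_mul, mul_inv_cancel, Units.val_one, C_1]
      rw [pow_char, C_mul, C_mul, C_pow, C_pow]
      have e3 : (C (s₁ : F) : F[X]) ^ 5 * C ((s₁⁻¹ : Fˣ) : F) ^ 5 = 1 := by
        rw [← mul_pow, e1, one_pow]
      have e4 : (C (s₂ : F) : F[X]) ^ 5 * C ((s₂⁻¹ : Fˣ) : F) ^ 5 = 1 := by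
        rw [← mul_pow, e2, one_pow]
      linear_combination (C (s₃ : F) * (bb g t.1).1 ^ 5 * (ab t).1) * e3 +
        (C (s₃ : F) * (bb g t.1).2 ^ 5 * (ab t).2) * e4
    refine Finset.mem_sigma.2 ⟨Finset.mem_filter.2 ⟨h1, h3⟩, Finset.mem_sigma.2 ⟨?_,
      Finset.mem_sigma.2 ⟨Finset.mem_filter.2 ⟨hβ', hβ0⟩, Finset.mem_sigma.2 ⟨?_,
        Finset.mem_filter.2 ⟨Finset.mem_univ _, h9, hl0 t ht⟩⟩⟩⟩⟩
    · exact sub_mem hB0 (C_mul_mem hB0 _ h5) (mul_mem hB0 hc' hβ' hβ0 hAd)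
    · refine Finset.mem_filter.2 ⟨Finset.mem_filter.2 ⟨Finset.mem_product.2
        ⟨natDegree_mem hB0 h10.2.1, natDegree_mem hB0 h10.2.2.1⟩, h10, ?_⟩, ?_⟩
      · show t.2 ∣ (C (s₁ : F) * (bb g t.1).1) ^ 5 *
          (C ((s₃ : F) * ((s₁⁻¹ : Fˣ) : F) ^ 5) * (ab t).1 -
            c ^ 5 * (C ((s₃ : F) * ((s₂⁻¹ : Fˣ) : F) ^ 5) * (ab t).2)) +
        (C (s₂ : F) * (bb g t.1).2 + (C (s₁ : F) * (bb g t.1).1) * c) ^ 5 *
          (C ((s₃ : F) * ((s₂⁻¹ : Fˣ) : F) ^ 5) * (ab t).2)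
        rw [h11]
        exact Dvd.dvd.mul_left h8 _
      · show (C (s₁ : F) * (bb g t.1).1) ^ 5 *
          (C ((s₃ : F) * ((s₁⁻¹ : Fˣ) : F) ^ 5) * (ab t).1 -
            c ^ 5 * (C ((s₃ : F) * ((s₂⁻¹ : Fˣ) : F) ^ 5) * (ab t).2)) +
        (C (s₂ : F) * (bb g t.1).2 + (C (s₁ : F) * (bb g t.1).1) * c) ^ 5 *
          (C ((s₃ : F) * ((s₂⁻¹ : Fˣ) : F) ^ 5) * (ab t).2) ∈ POL F (3 * g + 1 - k)
        rw [h11]
        exact C_mul_mem hB0 _ h8'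
  have hinj : Set.InjOn φ (S ×ˢ ((Finset.univ : Finset (Fˣ × Fˣ × Fˣ)) ×ˢ
      POL F (g + 2 - 2 * d)) : Finset (((Fin g → F) × F[X]) × ((Fˣ × Fˣ × Fˣ) × F[X]))) := by
    rintro ⟨⟨l, b⟩, ⟨⟨s₁, s₂, s₃⟩, c⟩⟩ hu ⟨⟨l', b'⟩, ⟨⟨s₁', s₂', s₃'⟩, c'⟩⟩ hu' h
    have hu1 := Finset.mem_product.1 (Finset.mem_coe.1 hu)
    have hu2 := Finset.mem_product.1 (Finset.mem_coe.1 hu')
    have ht : (l, b) ∈ S := hu1.1
    have hc : c ∈ POL F (g + 2 - 2 * d) := (Finset.mem_product.1 hu1.2).2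
    have hc' : c' ∈ POL F (g + 2 - 2 * d) := (Finset.mem_product.1 hu2.2).2
    have h1 : b = b' := congrArg (fun u => u.1) h
    have h2 : l = l' := congrArg (fun u => u.2.2.2.2) h
    have h3 : C (s₁ : F) * (bb g l).1 = C (s₁' : F) * (bb g l').1 :=
      congrArg (fun u => u.2.2.2.1.1) h
    have h4 : C (s₂ : F) * (bb g l).2 + (C (s₁ : F) * (bb g l).1) * c =
        C (s₂' : F) * (bb g l').2 + (C (s₁' : F) * (bb g l').1) * c' :=
      congrArg (fun u => u.2.2.2.1.2) h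
    have h5 : C ((s₃ : F) * ((s₂⁻¹ : Fˣ) : F) ^ 5) * (ab (l, b)).2 =
        C ((s₃' : F) * ((s₂'⁻¹ : Fˣ) : F) ^ 5) * (ab (l', b')).2 :=
      congrArg (fun u => u.2.2.1) h
    subst h1
    subst h2
    have hcl : Cop d (g + 1 - d) (bb g l).1 (bb g l).2 := hcop (l, b) ht
    have hb1 : (bb g l).1 ≠ 0 := cop_ne_zero hd (by omega) hcl
    have e1 : s₁ = s₁' := by
      have h6 := mul_right_cancel₀ hb1 h3
      exact Units.ext (C_injective h6)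
    subst e1
    have hcop' : Cop d (g + 1 - d) (C (s₁ : F) * (bb g l).1) (bb g l).2 := by
      have h6 := cop_scale (u₂ := (1 : F)) s₁.ne_zero one_ne_zero hcl
      rw [C_1, one_mul] at h6
      exact h6
    obtain ⟨e2, e3⟩ := uniq hB0 hd hd2 hcop' hc hc' h4
    have e2' : s₂ = s₂' := Units.ext e2
    subst e2'
    subst e3
    have hβ : (ab (l, b)).2 ≠ 0 := (hab (l, b) ht).2.2.1
    have h6 := C_injective (mul_right_cancel₀ hβ h5)
    have h7 : ((s₂⁻¹ : Fˣ) : F) ^ 5 ≠ 0 := pow_ne_zero _ (s₂⁻¹).ne_zero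
    have e4 : s₃ = s₃' := Units.ext (mul_right_cancel₀ h7 h6)
    subst e4
    rfl
  have hcard := Finset.card_le_card_of_injOn φ hφT hinj
  rw [Finset.card_product, Finset.card_product, hB0.2.2.2.1, Finset.card_univ, Fintype.card_prod,
    Fintype.card_prod, Fintype.card_units] at hcard
  have hT : (T.card : ℝ) ≤ (∑ b ∈ (DEG F j).filter (fun b => Squarefree b), ∑ α ∈ POL F A,
        ∑ β ∈ (POL F A').filter (fun β => β ≠ 0),
          ((PRs g k d (g + 1 - d) b α β).card : ℝ)) * (qq F - 1) := by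
    have h1 : T.card = ∑ b ∈ (DEG F j).filter (fun b => Squarefree b), ∑ α ∈ POL F A,
        ∑ β ∈ (POL F A').filter (fun β => β ≠ 0), ∑ p ∈ PRs g k d (g + 1 - d) b α β,
          ((Finset.univ : Finset (Fin g → F)).filter
            (fun l => Val g l d (fr p.1) (fr p.2) ∧ l ≠ 0)).card := by
      simp only [T, Finset.card_sigma]
    have h2 : T.card ≤ ∑ b ∈ (DEG F j).filter (fun b => Squarefree b), ∑ α ∈ POL F A,
        ∑ β ∈ (POL F A').filter (fun β => β ≠ 0),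
          (PRs g k d (g + 1 - d) b α β).card * (Fintype.card F - 1) := by
      rw [h1]
      refine Finset.sum_le_sum fun b _ => Finset.sum_le_sum fun α _ => Finset.sum_le_sum fun β _ => ?_
      rw [← smul_eq_mul]
      refine Finset.sum_le_card_nsmul _ _ _ fun p _ => ?_
      exact count_l hP0b g d _ _ hd hd2
    have h3 : (T.card : ℝ) ≤ ∑ b ∈ (DEG F j).filter (fun b => Squarefree b), ∑ α ∈ POL F A,
        ∑ β ∈ (POL F A').filter (fun β => β ≠ 0),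
          ((PRs g k d (g + 1 - d) b α β).card : ℝ) * (qq F - 1) := by
      have h4 : (T.card : ℝ) ≤ ((∑ b ∈ (DEG F j).filter (fun b => Squarefree b), ∑ α ∈ POL F A,
        ∑ β ∈ (POL F A').filter (fun β => β ≠ 0),
          (PRs g k d (g + 1 - d) b α β).card * (Fintype.card F - 1) : ℕ) : ℝ) := by exact_mod_cast h2
      rw [← hqr]
      simp only [Nat.cast_sum, Nat.cast_mul] at h4
      exact h4
    refine h3.trans (le_of_eq ?_)
    simp only [← Finset.sum_mul]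
  have hfin : (S.card : ℝ) * ((qq F - 1) * ((qq F - 1) * (qq F - 1)) * qq F ^ (g + 2 - 2 * d)) ≤
      (∑ b ∈ (DEG F j).filter (fun b => Squarefree b), ∑ α ∈ POL F A,
        ∑ β ∈ (POL F A').filter (fun β => β ≠ 0),
          ((PRs g k d (g + 1 - d) b α β).card : ℝ)) * (qq F - 1) := by
    refine le_trans ?_ hT
    rw [← hqr]
    unfold qq
    exact_mod_cast hcard
  refine le_of_mul_le_mul_right ?_ hq
  refine le_trans (le_of_eq ?_) hfin
  ring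

end D5
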