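import Pool.Agent.H506.D5.Stm3

/-!
# Project D5 (helper506), X9 (helper297): the two bounds for the number of pairs
-/

open Polynomial
open scoped Classical

noncomputable section

namespace D5

namespace XX9

variable {F : Type} [Field F] [Fintype F]

theorem five_le [CharP F 5] : (5 : ℝ) ≤ qq F := by
  obtain ⟨n, -, hn⟩ := FiniteField.card F 5
  have h1 : 5 ≤ Fintype.card F := by
    rw [hn]
    calc 5 = 5 ^ 1 := (pow_one 5).symm
      _ ≤ 5 ^ (n : ℕ) := Nat.pow_le_pow_right (by norm_num) n.pos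
  unfold qq
  exact_mod_cast h1

/-- The numerical part. -/
theorem num {q N C : ℝ} (hq : 5 ≤ q) (hN : 0 ≤ N) {e k s t : ℕ}
    (h : N * (q - 1) ^ 2 * q ^ (e + 1) ≤ C * q ^ s) (hst : s + 2 * k = t + 3) :
    16 * (N * q ^ (2 * k) * q ^ e) ≤ 25 * C * q ^ t := by
  have hq0 : 0 < q := by linarith
  have h1 : 16 * q ^ 2 ≤ 25 * (q - 1) ^ 2 := by nlinarith
  have h2 : 0 ≤ N * q ^ (2 * k) * q ^ e := by positivity
  have h3 : (N * (q - 1) ^ 2 * q ^ (e + 1)) * q ^ (2 * k) ≤ (C * q ^ s) * q ^ (2 * k) :=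
    mul_le_mul_of_nonneg_right h (by positivity)
  have e1 : (C * q ^ s) * q ^ (2 * k) = C * q ^ t * q ^ 3 := by
    rw [mul_assoc, ← pow_add, hst, pow_add]
    ring
  have e2 : (N * (q - 1) ^ 2 * q ^ (e + 1)) * q ^ (2 * k) =
      (N * q ^ (2 * k) * q ^ e) * ((q - 1) ^ 2 * q) := by
    rw [pow_succ]
    ring
  rw [e1, e2] at h3
  have h4 : (N * q ^ (2 * k) * q ^ e) * (16 * q ^ 2 * q) ≤
      (N * q ^ (2 * k) * q ^ e) * (25 * (q - 1) ^ 2 * q) :=
    mul_le_mul_of_nonneg_left (mul_le_mul_of_nonneg_right h1 hq0.le) h2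
  have h5 : (16 * (N * q ^ (2 * k) * q ^ e)) * q ^ 3 ≤ (25 * C * q ^ t) * q ^ 3 := by
    calc (16 * (N * q ^ (2 * k) * q ^ e)) * q ^ 3 =
          (N * q ^ (2 * k) * q ^ e) * (16 * q ^ 2 * q) := by ring
      _ ≤ (N * q ^ (2 * k) * q ^ e) * (25 * (q - 1) ^ 2 * q) := h4
      _ = 25 * ((N * q ^ (2 * k) * q ^ e) * ((q - 1) ^ 2 * q)) := by ring
      _ ≤ 25 * (C * q ^ t * q ^ 3) := by linarith
      _ = (25 * C * q ^ t) * q ^ 3 := by ring
  exact le_of_mul_le_mul_right h5 (by positivity)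

end XX9

open XX9 in
theorem p_X9 (F : Type) [Field F] [Fintype F] [CharP F 5] (hB0 : S_B0 F) (hE4 : S_E4 F)
    (hR1 : S_R1 F) (hX7 : S_X7 F) (hX8 : S_X8 F) : S_X9 F := by
  intro g d n j k a ha hnj hk hd
  have hq5 : (5 : ℝ) ≤ qq F := five_le
  have hq0 : 0 < qq F := by linarith
  have h3 : ¬ (2 * g + 2 + k ≤ 5 * d ∧ 2 * d ≤ g + 1) →
      (((Finset.univ : Finset (Fin g → F)) ×ˢ DEG F j).filter (fun p => rr g p.1 = d ∧
      Squarefree p.2 ∧ NLs g p.1 (a ^ 2 * p.2) k)).card = 0 := by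
    intro hno
    rw [Finset.card_eq_zero, Finset.filter_eq_empty_iff]
    rintro ⟨l, b⟩ - ⟨hr, -, z, α, β, -, -, -, hβ, hβ0⟩
    simp only at hr hβ
    apply hno
    have h1 := hE4.2.2.1 g l
    rw [hr] at h1 hβ
    refine ⟨?_, h1⟩
    rw [hB0.1] at hβ
    have h2 : β.natDegree < 3 * g + 4 - k - 5 * (g + 1 - d) :=
      (natDegree_lt_iff_degree_lt hβ0).2 hβ
    omega
  set N : ℝ := ((((Finset.univ : Finset (Fin g → F)) ×ˢ DEG F j).filter (fun p => rr g p.1 = d ∧
      Squarefree p.2 ∧ NLs g p.1 (a ^ 2 * p.2) k)).card : ℝ) with hN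
  have hN0 : 0 ≤ N := Nat.cast_nonneg _
  refine ⟨?_, ?_, h3⟩
  · intro h5
    by_cases h2 : 2 * d ≤ g + 1
    · have h8 := hX8 g d n j k a ha hnj hk hd h2
      have h7 := hX7 g k d (g + 1 - d) j (by omega) hd (by omega) (by omega) (by omega)
      have h9 := h8.trans h7
      have e1 : g + 2 - 2 * d = (g + 1 - 2 * d) + 1 := by omega
      rw [e1] at h9
      have h10 := num hq5 hN0 (k := k) (t := 2 * g + 1) h9 (by omega)
      have h11 : 0 < qq F ^ (2 * g + 1) := by positivity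
      linarith
    · have h6 := h3 (fun h => h2 h.2)
      have h7 : N = 0 := by
        rw [hN, h6, Nat.cast_zero]
      rw [h7, zero_mul, zero_mul]
      positivity
  · by_cases h2 : 2 * g + 2 + k ≤ 5 * d ∧ 2 * d ≤ g + 1
    · have h8 := hX8 g d n j k a ha hnj hk hd h2.2
      have h7 := hR1 g d (g + 1 - d) j (3 * g + 4 - k - 5 * d) (3 * g + 4 - k - 5 * (g + 1 - d))
        (by omega) hd (by omega) (by omega) (by omega)
      have h9 : ∑ b ∈ (DEG F j).filter (fun b => Squarefree b), ∑ α ∈ POL F (3 * g + 4 - k - 5 * d),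
          ∑ β ∈ (POL F (3 * g + 4 - k - 5 * (g + 1 - d))).filter (fun β => β ≠ 0),
            ((PRs g k d (g + 1 - d) b α β).card : ℝ) ≤
          ∑ b ∈ (DEG F j).filter (fun b => Squarefree b), ∑ α ∈ POL F (3 * g + 4 - k - 5 * d),
          ∑ β ∈ (POL F (3 * g + 4 - k - 5 * (g + 1 - d))).filter (fun β => β ≠ 0),
            ((PR d (g + 1 - d) b α β).card : ℝ) := by
        refine Finset.sum_le_sum fun b _ => Finset.sum_le_sum fun α _ =>
          Finset.sum_le_sum fun β _ => ?_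
        exact_mod_cast Finset.card_le_card (Finset.filter_subset _ _)
      have h10 := (h8.trans h9).trans h7
      have e1 : g + 2 - 2 * d = (g + 1 - 2 * d) + 1 := by omega
      rw [e1] at h10
      have h11 := num hq5 hN0 (k := k) (t := 2 * g + 4) h10 (by omega)
      have h12 : 0 < qq F ^ (2 * g + 4) := by positivity
      linarith
    · have h6 := h3 h2
      have h7 : N = 0 := by
        rw [hN, h6, Nat.cast_zero]
      rw [h7, zero_mul, zero_mul]
      positivity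

end D5
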