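import Pool.Agent.H506.D5.Stm3

/-!
# Y3 : the exceptional form
-/

open Polynomial
open scoped Classical

noncomputable section

namespace D5

theorem p_Y3 (F : Type) [Field F] [Fintype F] [CharP F 5] (hB0 : S_B0 F) : S_Y3 F := by
  intro g l v hl hz hv hvP hEx
  obtain ⟨j, hj⟩ : ∃ j, l j ≠ 0 := Function.ne_iff.1 hl
  have hjg : (j : ℕ) + 1 = g := by
    by_contra hne
    exact hj (hz j (by have := j.2; omega))
  have hLam : ∀ w : F[X], Lam g l w = l j * w.coeff (5 * (j : ℕ) + 4) := by
    intro w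
    unfold Lam
    refine Finset.sum_eq_single j (fun i _ hij => ?_) (fun h => absurd (Finset.mem_univ j) h)
    have h1 : (i : ℕ) ≠ (j : ℕ) := fun h => hij (Fin.ext h)
    rw [hz i (by have := i.2; omega), zero_mul]
  by_contra hcon
  have he : v.natDegree < g := by
    rw [natDegree_lt_iff_degree_lt hv]
    exact (hB0.1 g v).1 hvP
  obtain ⟨s, hs⟩ : ∃ s, s = 3 * g - 2 - v.natDegree := ⟨_, rfl⟩
  have h1 := hEx (X ^ s) ((hB0.1 _ _).2 (by
    rw [degree_X_pow]
    exact_mod_cast (by omega : s < 2 * g + 1))) (fun y hy => by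
    rw [hLam]
    have hy1 : y.natDegree ≤ 2 * g := by
      by_cases hy0 : y = 0
      · rw [hy0, natDegree_zero]
        exact Nat.zero_le _
      · have h2 := (hB0.1 _ _).1 hy
        rw [← natDegree_lt_iff_degree_lt hy0] at h2
        omega
    have h3 : (v * X ^ s * y).natDegree ≤ v.natDegree + s + y.natDegree := by
      refine natDegree_mul_le.trans (Nat.add_le_add_right ?_ _)
      refine natDegree_mul_le.trans ?_
      rw [natDegree_X_pow]
    rw [coeff_eq_zero_of_natDegree_lt (by omega), mul_zero])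
  rw [hLam, mul_assoc, ← pow_add] at h1
  have h4 : 5 * (j : ℕ) + 4 = v.natDegree + (s + (2 * g + 1)) := by omega
  rw [h4, coeff_mul_X_pow] at h1
  rcases mul_eq_zero.1 h1 with h5 | h5
  · exact hj h5
  · exact hv (leadingCoeff_eq_zero.1 h5)

end D5
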