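import Pool.Agent.H506.D5.Stm3

/-!
# D5: the statement Y4, summation of the low part (helper664; the sums over the divisors follow the file L2 by helper234)
-/

open Polynomial
open scoped Classical

noncomputable section

namespace D5

namespace XY4

theorem five_le (F : Type) [Field F] [Fintype F] [CharP F 5] : (5 : ℝ) ≤ qq F := by
  have h1 : (5 : ℕ) ∣ Fintype.card F :=
    (CharP.cast_eq_zero_iff F 5 (Fintype.card F)).1 (Nat.cast_card_eq_zero F)
  have h2 : 5 ≤ Fintype.card F := Nat.le_of_dvd Fintype.card_pos h1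
  unfold qq
  exact_mod_cast h2

theorem two_le {q : ℝ} (hq : 5 ≤ q) : (2 : ℝ) ≤ q ^ ((1 : ℝ) / 2) := by
  rw [← Real.sqrt_eq_rpow, show (2 : ℝ) = Real.sqrt 4 by
    rw [show (4 : ℝ) = 2 ^ 2 by norm_num, Real.sqrt_sq (by norm_num)]]
  exact Real.sqrt_le_sqrt (by linarith)

/-- `2 q ^ x ≤ q ^ (x + 1/2)` -/
theorem two_mul_le {q : ℝ} (hq : 5 ≤ q) (x : ℝ) : 2 * q ^ x ≤ q ^ (x + 1 / 2) := by
  have hq0 : 0 < q := by linarith
  rw [Real.rpow_add hq0]
  have h1 := two_le hq
  have h2 := Real.rpow_pos_of_pos hq0 x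
  nlinarith

/-- `q ^ (- m / 2) ≤ 2 ^ (- m)` -/
theorem half_pow {q : ℝ} (hq : 5 ≤ q) (m : ℕ) : q ^ (-(m : ℝ) / 2) ≤ (1 / 2 : ℝ) ^ m := by
  have hq0 : 0 < q := by linarith
  have h1 : q ^ (-(m : ℝ) / 2) = (q ^ (-(1 : ℝ) / 2)) ^ m := by
    rw [← Real.rpow_natCast (q ^ (-(1 : ℝ) / 2)) m, ← Real.rpow_mul hq0.le]
    congr 1
    ring
  rw [h1]
  apply pow_le_pow_left₀ (Real.rpow_pos_of_pos hq0 _).le
  have h2 := two_le hq
  have h3 := inv_anti₀ (by norm_num : (0 : ℝ) < 2) h2
  rw [show (-(1 : ℝ) / 2) = -((1 : ℝ) / 2) by ring, Real.rpow_neg hq0.le]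
  exact h3.trans (le_of_eq (by norm_num))

theorem geo (n : ℕ) : ∑ i ∈ Finset.range n, (1 / 2 : ℝ) ^ i = 2 - 2 * (1 / 2 : ℝ) ^ n := by
  induction n with
  | zero => norm_num
  | succ n ih =>
    rw [Finset.sum_range_succ, ih, pow_succ]
    ring

theorem geo_le (n : ℕ) : ∑ i ∈ Finset.range n, (1 / 2 : ℝ) ^ i ≤ 2 := by
  rw [geo]
  have : (0 : ℝ) ≤ (1 / 2 : ℝ) ^ n := by positivity
  linarith

section

variable {F : Type} [Field F] [Fintype F]

/-- the sum of `q ^ (- deg w / 2)` over the nonzero polynomials of degree `< n` -/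
theorem sumw (hq : 5 ≤ qq F) (b1 : ∀ n (g : F[X]), g ∈ POL F n ↔ g.degree < n)
    (b4 : ∀ n, (POL F n).card = Fintype.card F ^ n) (n : ℕ) :
    ∑ w ∈ (POL F n).filter (fun w => w ≠ 0), qq F ^ (-(w.natDegree : ℝ) / 2) ≤
      2 * qq F ^ (((n : ℝ) + 1) / 2) := by
  have hq0 : 0 < qq F := by linarith
  induction n with
  | zero =>
    have h0 : (POL F 0).filter (fun w => w ≠ 0) = ∅ := by
      rw [Finset.filter_eq_empty_iff]
      intro w hw h
      rw [b1] at hw
      apply h
      rw [← degree_eq_bot]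
      by_contra hb
      rw [degree_eq_natDegree (by
        rintro rfl
        exact hb degree_zero)] at hw
      exact absurd hw (by
        rw [not_lt]
        exact_mod_cast Nat.zero_le _)
    rw [h0, Finset.sum_empty]
    have := Real.rpow_pos_of_pos hq0 ((((0 : ℕ) : ℝ) + 1) / 2)
    positivity
  | succ n ih =>
    rw [← Finset.sum_filter_add_sum_filter_not ((POL F (n + 1)).filter (fun w => w ≠ 0))
      (fun w => w ∈ POL F n)]
    have h1 : ∑ w ∈ ((POL F (n + 1)).filter (fun w => w ≠ 0)).filter (fun w => w ∈ POL F n),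
        qq F ^ (-(w.natDegree : ℝ) / 2) ≤ 2 * qq F ^ (((n : ℝ) + 1) / 2) := by
      refine le_trans (Finset.sum_le_sum_of_subset_of_nonneg ?_ fun w _ _ =>
        (Real.rpow_pos_of_pos hq0 _).le) ih
      intro w hw
      rw [Finset.mem_filter, Finset.mem_filter] at hw
      rw [Finset.mem_filter]
      exact ⟨hw.2, hw.1.2⟩
    have h2 : ∑ w ∈ ((POL F (n + 1)).filter (fun w => w ≠ 0)).filter (fun w => ¬ w ∈ POL F n),
        qq F ^ (-(w.natDegree : ℝ) / 2) ≤ qq F ^ (((n : ℝ) + 1) / 2 + 1 / 2) := by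
      have h3 : ∀ w ∈ ((POL F (n + 1)).filter (fun w => w ≠ 0)).filter (fun w => ¬ w ∈ POL F n),
          qq F ^ (-(w.natDegree : ℝ) / 2) ≤ qq F ^ (-(n : ℝ) / 2) := by
        intro w hw
        rw [Finset.mem_filter, Finset.mem_filter, b1, b1] at hw
        obtain ⟨⟨hw1, hw0⟩, hw2⟩ := hw
        rw [degree_eq_natDegree hw0] at hw1 hw2
        have h4 : w.natDegree = n := by
          have h5 : w.natDegree < n + 1 := by exact_mod_cast hw1
          have h6 : ¬ w.natDegree < n := fun h => hw2 (by exact_mod_cast h)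
          omega
        rw [h4]
      refine (Finset.sum_le_card_nsmul _ _ _ h3).trans ?_
      rw [nsmul_eq_mul]
      have h7 : ((((POL F (n + 1)).filter (fun w => w ≠ 0)).filter
          (fun w => ¬ w ∈ POL F n)).card : ℝ) ≤ qq F ^ ((n : ℝ) + 1) := by
        have h8 : (((POL F (n + 1)).filter (fun w => w ≠ 0)).filter
            (fun w => ¬ w ∈ POL F n)).card ≤ Fintype.card F ^ (n + 1) := by
          rw [← b4]
          exact Finset.card_le_card ((Finset.filter_subset _ _).trans (Finset.filter_subset _ _))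
        have h9 : qq F ^ ((n : ℝ) + 1) = ((Fintype.card F ^ (n + 1) : ℕ) : ℝ) := by
          rw [show ((n : ℝ) + 1) = ((n + 1 : ℕ) : ℝ) by push_cast; ring, Real.rpow_natCast]
          unfold qq
          push_cast
          ring
        rw [h9]
        exact_mod_cast h8
      calc _ ≤ qq F ^ ((n : ℝ) + 1) * qq F ^ (-(n : ℝ) / 2) :=
            mul_le_mul_of_nonneg_right h7 (Real.rpow_pos_of_pos hq0 _).le
        _ = qq F ^ (((n : ℝ) + 1) / 2 + 1 / 2) := by
            rw [← Real.rpow_add hq0]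
            congr 1
            ring
    have h10 := two_mul_le hq (((n : ℝ) + 1) / 2)
    have h11 : qq F ^ ((((n + 1 : ℕ) : ℝ) + 1) / 2) = qq F ^ (((n : ℝ) + 1) / 2 + 1 / 2) := by
      congr 1
      push_cast
      ring
    rw [h11]
    linarith

/-- the sum over the multiples of `δ` -/
theorem sumdiv (hq : 5 ≤ qq F) (b1 : ∀ n (g : F[X]), g ∈ POL F n ↔ g.degree < n)
    (b4 : ∀ n, (POL F n).card = Fintype.card F ^ n) (g : ℕ) {δ : F[X]} (hδ : δ ≠ 0) :
    ∑ v ∈ (POL F g).filter (fun v => v ≠ 0),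
      (if δ ∣ v then qq F ^ (((δ.natDegree : ℝ) - (v.natDegree : ℝ)) / 2) else 0) ≤
      2 * qq F ^ (((g : ℝ) + 1 - δ.natDegree) / 2) := by
  have hq0 : 0 < qq F := by linarith
  rw [← Finset.sum_filter]
  rcases Nat.lt_or_ge g δ.natDegree with hlt | hge
  · have h0 : ((POL F g).filter (fun v => v ≠ 0)).filter (fun v => δ ∣ v) = ∅ := by
      rw [Finset.filter_eq_empty_iff]
      intro v hv hd
      rw [Finset.mem_filter, b1] at hv
      have h1 := natDegree_le_of_dvd hd hv.2
      rw [degree_eq_natDegree hv.2] at hv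
      have h2 : v.natDegree < g := by exact_mod_cast hv.1
      omega
    rw [h0, Finset.sum_empty]
    have := Real.rpow_pos_of_pos hq0 (((g : ℝ) + 1 - δ.natDegree) / 2)
    positivity
  have hinj : Function.Injective (fun w : F[X] => δ * w) := mul_right_injective₀ hδ
  refine le_trans (Finset.sum_le_sum_of_subset_of_nonneg
    (t := ((POL F (g - δ.natDegree)).filter (fun w => w ≠ 0)).image (fun w => δ * w)) ?_ fun w _ _ =>
      (Real.rpow_pos_of_pos hq0 _).le) ?_
  · intro v hv
    rw [Finset.mem_filter, Finset.mem_filter] at hv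
    obtain ⟨⟨hv1, hv0⟩, w, rfl⟩ := hv
    have hw0 : w ≠ 0 := right_ne_zero_of_mul hv0
    rw [Finset.mem_image]
    refine ⟨w, ?_, rfl⟩
    rw [Finset.mem_filter, b1]
    rw [b1] at hv1
    refine ⟨?_, hw0⟩
    rw [degree_eq_natDegree hv0, natDegree_mul hδ hw0] at hv1
    rw [degree_eq_natDegree hw0]
    have h1 : δ.natDegree + w.natDegree < g := by exact_mod_cast hv1
    have h2 : w.natDegree < g - δ.natDegree := by omega
    exact_mod_cast h2
  · rw [Finset.sum_image fun a _ b _ h => hinj h]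
    refine le_trans (le_of_eq ?_) ((sumw hq b1 b4 (g - δ.natDegree)).trans (le_of_eq ?_))
    · refine Finset.sum_congr rfl fun w hw => ?_
      rw [Finset.mem_filter] at hw
      rw [natDegree_mul hδ hw.2]
      congr 1
      push_cast
      ring
    · rw [Nat.cast_sub hge]
      congr 2
      ring

/-- the sum over `v` for one form `l` -/
theorem one_l (hq : 5 ≤ qq F) (b1 : ∀ n (g : F[X]), g ∈ POL F n ↔ g.degree < n)
    (b2 : ∀ n (f : F[X]), f ∈ MON F n ↔ f.Monic ∧ f.natDegree = n)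
    (b4 : ∀ n, (POL F n).card = Fintype.card F ^ n) (g d t : ℕ) (b : F[X]) (hb : b ≠ 0)
    (S : Finset F[X]) (K : F[X] → ℕ)
    (hS : ∀ v ∈ S, v ∈ POL F g ∧ v ≠ 0 ∧ ∃ (k : ℕ) (δ : F[X]), K v = Fintype.card F ^ k ∧
      δ.Monic ∧ δ ∣ b ^ 5 ∧ δ ∣ v ∧ k + 5 * d + v.natDegree ≤ 3 * g + δ.natDegree + t) :
    ∑ v ∈ S, Real.sqrt (K v : ℝ) ≤ 2 * qq F ^ ((4 * (g : ℝ) + 1 - 5 * d + t) / 2) *
      ∑ i ∈ Finset.range (5 * b.natDegree + 1),
        (((MON F i).filter (fun δ => δ ∣ b ^ 5)).card : ℝ) * qq F ^ (-((i : ℝ) / 2)) := by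
  have hq0 : 0 < qq F := by linarith
  have hq1 : 1 ≤ qq F := by linarith
  obtain ⟨c, hc⟩ : ∃ c : ℝ, c = qq F ^ ((3 * (g : ℝ) + t - 5 * (d : ℝ)) / 2) := ⟨_, rfl⟩
  have hc0 : 0 < c := by
    rw [hc]
    exact Real.rpow_pos_of_pos hq0 _
  have hB0' : b ^ 5 ≠ 0 := pow_ne_zero 5 hb
  have hnn : ∀ v : F[X], ∀ i ∈ Finset.range (5 * b.natDegree + 1),
      ∀ δ ∈ (MON F i).filter (fun m => m ∣ b ^ 5),
        0 ≤ c * (if δ ∣ v then qq F ^ (((δ.natDegree : ℝ) - (v.natDegree : ℝ)) / 2) else 0) := by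
    intro v i _ δ _
    apply mul_nonneg hc0.le
    split_ifs
    · exact (Real.rpow_pos_of_pos hq0 _).le
    · exact le_rfl
  have key : ∀ v ∈ S, Real.sqrt (K v : ℝ) ≤ ∑ i ∈ Finset.range (5 * b.natDegree + 1),
      ∑ δ ∈ (MON F i).filter (fun m => m ∣ b ^ 5), c *
        (if δ ∣ v then qq F ^ (((δ.natDegree : ℝ) - (v.natDegree : ℝ)) / 2) else 0) := by
    intro v hv
    obtain ⟨hvg, hvn, k, δ, hKK, hm, hδB, hδv, hle⟩ := hS v hv
    have h1 : δ.natDegree ∈ Finset.range (5 * b.natDegree + 1) := by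
      rw [Finset.mem_range, ← natDegree_pow]
      exact Nat.lt_succ_of_le (natDegree_le_of_dvd hδB hB0')
    have h2 : δ ∈ (MON F δ.natDegree).filter (fun m => m ∣ b ^ 5) := by
      rw [Finset.mem_filter, b2]
      exact ⟨⟨hm, rfl⟩, hδB⟩
    have h3 : Real.sqrt (K v : ℝ) ≤ c *
        (if δ ∣ v then qq F ^ (((δ.natDegree : ℝ) - (v.natDegree : ℝ)) / 2) else 0) := by
      rw [if_pos hδv, hc, ← Real.rpow_add hq0, hKK, Real.sqrt_eq_rpow]
      have h4 : ((Fintype.card F ^ k : ℕ) : ℝ) = qq F ^ (k : ℝ) := by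
        rw [Real.rpow_natCast]
        unfold qq
        push_cast
        ring
      rw [h4, ← Real.rpow_mul hq0.le]
      apply Real.rpow_le_rpow_of_exponent_le hq1
      have h5 : (k : ℝ) + 5 * (d : ℝ) + (v.natDegree : ℝ) ≤
          3 * (g : ℝ) + (δ.natDegree : ℝ) + t := by exact_mod_cast hle
      linarith
    refine h3.trans ?_
    have h6 := Finset.single_le_sum (hnn v _ h1) h2
    have h7 := Finset.single_le_sum (f := fun i => ∑ δ ∈ (MON F i).filter (fun m => m ∣ b ^ 5), c *
        (if δ ∣ v then qq F ^ (((δ.natDegree : ℝ) - (v.natDegree : ℝ)) / 2) else 0))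
      (fun i hi => Finset.sum_nonneg (hnn v i hi)) h1
    exact h6.trans h7
  calc ∑ v ∈ S, Real.sqrt (K v : ℝ)
      ≤ ∑ v ∈ S, ∑ i ∈ Finset.range (5 * b.natDegree + 1),
          ∑ δ ∈ (MON F i).filter (fun m => m ∣ b ^ 5),
          c * (if δ ∣ v then qq F ^ (((δ.natDegree : ℝ) - (v.natDegree : ℝ)) / 2) else 0) :=
        Finset.sum_le_sum key
    _ ≤ ∑ v ∈ (POL F g).filter (fun v => v ≠ 0), ∑ i ∈ Finset.range (5 * b.natDegree + 1),
          ∑ δ ∈ (MON F i).filter (fun m => m ∣ b ^ 5),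
          c * (if δ ∣ v then qq F ^ (((δ.natDegree : ℝ) - (v.natDegree : ℝ)) / 2) else 0) := by
        apply Finset.sum_le_sum_of_subset_of_nonneg
        · intro v hv
          rw [Finset.mem_filter]
          exact ⟨(hS v hv).1, (hS v hv).2.1⟩
        · intro v _ _
          exact Finset.sum_nonneg fun i hi => Finset.sum_nonneg fun δ hδ => hnn v i hi δ hδ
    _ = ∑ i ∈ Finset.range (5 * b.natDegree + 1), ∑ δ ∈ (MON F i).filter (fun m => m ∣ b ^ 5),
          c * ∑ v ∈ (POL F g).filter (fun v => v ≠ 0),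
            (if δ ∣ v then qq F ^ (((δ.natDegree : ℝ) - (v.natDegree : ℝ)) / 2) else 0) := by
        rw [Finset.sum_comm]
        refine Finset.sum_congr rfl fun i _ => ?_
        rw [Finset.sum_comm]
        refine Finset.sum_congr rfl fun δ _ => ?_
        rw [Finset.mul_sum]
    _ ≤ ∑ i ∈ Finset.range (5 * b.natDegree + 1), ∑ δ ∈ (MON F i).filter (fun m => m ∣ b ^ 5),
          c * (2 * qq F ^ (((g : ℝ) + 1 - i) / 2)) := by
        refine Finset.sum_le_sum fun i _ => Finset.sum_le_sum fun δ hδ => ?_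
        rw [Finset.mem_filter, b2] at hδ
        have h8 := sumdiv hq b1 b4 g hδ.1.1.ne_zero
        rw [hδ.1.2] at h8
        rw [hδ.1.2]
        exact mul_le_mul_of_nonneg_left h8 hc0.le
    _ = 2 * qq F ^ ((4 * (g : ℝ) + 1 - 5 * d + t) / 2) *
      ∑ i ∈ Finset.range (5 * b.natDegree + 1),
        (((MON F i).filter (fun δ => δ ∣ b ^ 5)).card : ℝ) * qq F ^ (-((i : ℝ) / 2)) := by
        rw [Finset.mul_sum]
        refine Finset.sum_congr rfl fun i _ => ?_
        rw [Finset.sum_const, nsmul_eq_mul]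
        have h9 : c * qq F ^ (((g : ℝ) + 1 - i) / 2) =
            qq F ^ ((4 * (g : ℝ) + 1 - 5 * d + t) / 2) * qq F ^ (-((i : ℝ) / 2)) := by
          rw [hc, ← Real.rpow_add hq0, ← Real.rpow_add hq0]
          congr 1
          ring
        calc _ = 2 * (((MON F i).filter (fun δ => δ ∣ b ^ 5)).card : ℝ) *
              (c * qq F ^ (((g : ℝ) + 1 - i) / 2)) := by ring
          _ = _ := by
            rw [h9]
            ring

omit [Fintype F] in
theorem mu_C_mul (g : ℕ) (l : Fin g → F) (a : F) (P : F[X]) : mu g l (C a * P) = a * mu g l P := by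
  unfold mu
  rw [Finset.mul_sum]
  refine Finset.sum_congr rfl fun j _ => ?_
  rw [coeff_C_mul]
  ring

omit [Fintype F] in
theorem mu_X_pow (g : ℕ) (l : Fin g → F) (i : Fin g) : mu g l (X ^ (i : ℕ)) = l i := by
  unfold mu
  rw [Finset.sum_eq_single i]
  · rw [coeff_X_pow, if_pos rfl, mul_one]
  · intro j _ hj
    rw [coeff_X_pow, if_neg (fun h => hj (Fin.ext h)), mul_zero]
  · intro h
    exact absurd (Finset.mem_univ i) h

end

end XY4

open XY4

theorem p_Y4 (F : Type) [Field F] [Fintype F] [CharP F 5] (hB0 : S_B0 F) (hFR : S_FR F)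
    (hE4 : S_E4 F) (hX3 : S_X3 F) (hY1 : S_Y1 F) (hY2 : S_Y2 F) (hY3 : S_Y3 F) : S_Y4 F := by
  obtain ⟨b1, b2, -, b4, -, -⟩ := hB0
  obtain ⟨fr1, -, -, -, -, -, fr7, -⟩ := hFR
  obtain ⟨-, -, e3, e4⟩ := hE4
  obtain ⟨-, x3⟩ := hX3
  have hq := five_le F
  have hq0 : 0 < qq F := by linarith
  have hq1 : 1 ≤ qq F := by linarith
  intro g
  obtain ⟨S, hS⟩ : ∃ S : (Fin g → F) → Finset F[X], ∀ l, S l =
      (POL F g).filter (fun v => v ≠ 0 ∧ Ex g l v ∧ ∃ k, LOs g l v k) := ⟨_, fun _ => rfl⟩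
  obtain ⟨T, hT⟩ : ∃ T : (Fin g → F) → ℝ, ∀ l, T l = ∑ v ∈ S l, Real.sqrt (KK g l v : ℝ) :=
    ⟨_, fun _ => rfl⟩
  have hgoal : ∑ l ∈ (Finset.univ : Finset (Fin g → F)).filter (fun l => l ≠ 0),
      ∑ v ∈ (POL F g).filter (fun v => v ≠ 0 ∧ Ex g l v ∧ ∃ k, LOs g l v k),
        Real.sqrt (KK g l v : ℝ) =
      ∑ l ∈ (Finset.univ : Finset (Fin g → F)).filter (fun l => l ≠ 0), T l := by
    refine Finset.sum_congr rfl fun l _ => ?_
    rw [hT, hS]
  rw [hgoal]
  obtain ⟨L, hL⟩ : ∃ L : Finset (Fin g → F), L =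
      (Finset.univ : Finset (Fin g → F)).filter (fun l => l ≠ 0 ∧ (S l).Nonempty) := ⟨_, rfl⟩
  have hLsum : ∑ l ∈ (Finset.univ : Finset (Fin g → F)).filter (fun l => l ≠ 0), T l =
      ∑ l ∈ L, T l := by
    symm
    apply Finset.sum_subset
    · intro l hl
      rw [hL, Finset.mem_filter] at hl
      rw [Finset.mem_filter]
      exact ⟨hl.1, hl.2.1⟩
    · intro l hl hl'
      rw [Finset.mem_filter] at hl
      have h1 : ¬ (S l).Nonempty := by
        intro h
        apply hl'
        rw [hL, Finset.mem_filter]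
        exact ⟨Finset.mem_univ _, hl.2, h⟩
      rw [hT, Finset.not_nonempty_iff_eq_empty.1 h1, Finset.sum_empty]
  rw [hLsum]
  -- the properties of the elements of `L`
  have hLp : ∀ l ∈ L, l ≠ 0 ∧ 1 ≤ rr g l ∧ 2 * rr g l ≤ g + 1 ∧ (bb g l).1 ≠ 0 ∧
      (bb g l).1.natDegree ≤ rr g l ∧
      (∀ i, i + rr g l < g → mu g l (X ^ i * fr (bb g l).1) = 0) := by
    intro l hl
    rw [hL, Finset.mem_filter] at hl
    obtain ⟨-, hl0, v, hv⟩ := hl
    rw [hS, Finset.mem_filter] at hv
    obtain ⟨hvg, hv0, -, k, hk⟩ := hv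
    obtain ⟨y1, y2, y3, -⟩ := hY1 g l v k hl0 hv0 hvg hk
    refine ⟨hl0, ?_, e3 g l, y1, y2, y3⟩
    rcases Nat.eq_zero_or_pos (rr g l) with h | h
    · exact absurd (e4 g l h) hl0
    · exact h
  -- the blocks
  have block : ∀ d u : ℕ, ∑ l ∈ L.filter (fun l => (rr g l - 1, rr g l - (bb g l).1.natDegree) = (d, u)),
      T l ≤ 24 * (1 / 2 : ℝ) ^ (d + u) * qq F ^ (2 * g) := by
    intro d u
    obtain ⟨M, hM⟩ : ∃ M : Finset (Fin g → F), M =
      L.filter (fun l => (rr g l - 1, rr g l - (bb g l).1.natDegree) = (d, u)) := ⟨_, rfl⟩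
    rw [← hM]
    have hMp : ∀ l ∈ M, l ∈ L ∧ rr g l = d + 1 ∧ (bb g l).1.natDegree + u = d + 1 := by
      intro l hl
      rw [hM, Finset.mem_filter, Prod.mk.injEq] at hl
      obtain ⟨hl1, hl2, hl3⟩ := hl
      obtain ⟨-, p1, p2, p3, p4, -⟩ := hLp l hl1
      refine ⟨hl1, by omega, by omega⟩
    have hpos : 0 < qq F ^ (2 * g) := pow_pos hq0 _
    rcases M.eq_empty_or_nonempty with h0 | ⟨l0, hl0⟩
    · rw [h0, Finset.sum_empty]
      positivity
    obtain ⟨hl0L, hl0r, hl0d⟩ := hMp l0 hl0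
    obtain ⟨-, -, h2d, -, -, -⟩ := hLp l0 hl0L
    rw [hl0r] at h2d
    by_cases hex : d = 0 ∧ u = 1
    · -- the exceptional case
      obtain ⟨hd0, hu1⟩ := hex
      subst hd0
      subst hu1
      have hall : ∀ l ∈ M, ∀ i, i + 1 < g → mu g l (X ^ i * 1) = 0 := by
        intro l hl i hi
        obtain ⟨hlL, hlr, hld⟩ := hMp l hl
        obtain ⟨-, -, -, p3, -, p5⟩ := hLp l hlL
        have h1 : (fr (bb g l).1).natDegree = 0 := by
          rw [fr7]
          omega
        obtain ⟨a, ha⟩ : ∃ a : F, fr (bb g l).1 = C a := ⟨_, eq_C_of_natDegree_eq_zero h1⟩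
        have ha0 : a ≠ 0 := by
          intro h
          apply p3
          ext n
          have h2 := fr1 (bb g l).1 n
          rw [ha, h, C_0, coeff_zero] at h2
          rw [coeff_zero]
          exact pow_eq_zero_iff (by norm_num) |>.1 h2.symm
        have h3 := p5 i (by rw [hlr]; omega)
        rw [ha, mul_comm, mu_C_mul] at h3
        rw [mul_one]
        exact (mul_eq_zero.1 h3).resolve_left ha0
      have hcardM : M.card ≤ Fintype.card F ^ 1 := by
        refine le_trans (Finset.card_le_card ?_) (x3 g 1 1 (by omega) one_ne_zero (by simp))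
        intro l hl
        rw [Finset.mem_filter]
        exact ⟨Finset.mem_univ _, hall l hl⟩
      have hdeg : ∀ l ∈ M, ∀ v ∈ S l, v.natDegree + 3 ≤ g := by
        intro l hl v hv
        obtain ⟨hlL, -, -⟩ := hMp l hl
        have hl0' := (hLp l hlL).1
        rw [hS, Finset.mem_filter] at hv
        refine hY3 g l v hl0' ?_ hv.2.1 hv.1 hv.2.2.1
        intro i hi
        have h1 := hall l hl i hi
        rw [mul_one, mu_X_pow] at h1
        exact h1
      have hg3 : 3 ≤ g := by
        have h1 := hl0L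
        rw [hL, Finset.mem_filter] at h1
        obtain ⟨-, -, v, hv⟩ := h1
        have h2 := hdeg l0 hl0 v hv
        omega
      have hTl : ∀ l ∈ M, T l ≤ qq F ^ ((g : ℝ) - 2) * qq F ^ ((2 * (g : ℝ) + 1) / 2) := by
        intro l hl
        rw [hT]
        have h1 : ∀ v ∈ S l, Real.sqrt (KK g l v : ℝ) ≤ qq F ^ ((2 * (g : ℝ) + 1) / 2) := by
          intro v _
          have h2 : KK g l v ≤ Fintype.card F ^ (2 * g + 1) := by
            rw [← b4]
            unfold KK
            apply Finset.card_le_card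
            intro z hz
            exact ((@Finset.mem_filter _ _ (_) _ _).1 hz).1
          have h3 : (KK g l v : ℝ) ≤ qq F ^ (2 * (g : ℝ) + 1) := by
            rw [show (2 * (g : ℝ) + 1) = ((2 * g + 1 : ℕ) : ℝ) by push_cast; ring, Real.rpow_natCast]
            unfold qq
            exact_mod_cast h2
          rw [Real.sqrt_eq_rpow]
          refine (Real.rpow_le_rpow (Nat.cast_nonneg _) h3 (by norm_num)).trans (le_of_eq ?_)
          rw [← Real.rpow_mul hq0.le]
          congr 1
          ring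
        refine (Finset.sum_le_card_nsmul _ _ _ h1).trans ?_
        rw [nsmul_eq_mul]
        refine mul_le_mul_of_nonneg_right ?_ (Real.rpow_pos_of_pos hq0 _).le
        have h4 : (S l).card ≤ Fintype.card F ^ (g - 2) := by
          rw [← b4]
          apply Finset.card_le_card
          intro v hv
          have h5 := hdeg l hl v hv
          rw [hS, Finset.mem_filter] at hv
          rw [b1, degree_eq_natDegree hv.2.1]
          have h6 : v.natDegree < g - 2 := by omega
          exact_mod_cast h6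
        have h7 : qq F ^ ((g : ℝ) - 2) = ((Fintype.card F ^ (g - 2) : ℕ) : ℝ) := by
          rw [show ((g : ℝ) - 2) = ((g - 2 : ℕ) : ℝ) by
            rw [Nat.cast_sub (by omega)]
            norm_num, Real.rpow_natCast]
          unfold qq
          push_cast
          ring
        rw [h7]
        exact_mod_cast h4
      refine (Finset.sum_le_card_nsmul _ _ _ hTl).trans ?_
      rw [nsmul_eq_mul]
      have h8 : (M.card : ℝ) ≤ qq F ^ (1 : ℝ) := by
        rw [Real.rpow_one]
        unfold qq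
        rw [pow_one] at hcardM
        exact_mod_cast hcardM
      calc (M.card : ℝ) * (qq F ^ ((g : ℝ) - 2) * qq F ^ ((2 * (g : ℝ) + 1) / 2))
          ≤ qq F ^ (1 : ℝ) * (qq F ^ ((g : ℝ) - 2) * qq F ^ ((2 * (g : ℝ) + 1) / 2)) := by
            refine mul_le_mul_of_nonneg_right h8 ?_
            have := Real.rpow_pos_of_pos hq0 ((g : ℝ) - 2)
            have := Real.rpow_pos_of_pos hq0 ((2 * (g : ℝ) + 1) / 2)
            positivity
        _ = qq F ^ (2 * (g : ℝ) - 1 / 2) := by
            rw [← Real.rpow_add hq0, ← Real.rpow_add hq0]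
            congr 1
            ring
        _ ≤ qq F ^ (((2 * g : ℕ) : ℝ)) := by
            apply Real.rpow_le_rpow_of_exponent_le hq1
            push_cast
            linarith
        _ = qq F ^ (2 * g) := Real.rpow_natCast _ _
        _ ≤ 24 * (1 / 2 : ℝ) ^ (0 + 1) * qq F ^ (2 * g) := by
            norm_num
            linarith
    · -- the general case
      obtain ⟨e, he⟩ : ∃ e : ℕ, e + u = d + 1 := ⟨_, hl0d⟩
      obtain ⟨t, ht⟩ : ∃ t : ℕ, t = if u = 0 then 0 else 3 := ⟨_, rfl⟩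
      obtain ⟨nb, hnb⟩ : ∃ nb : (Fin g → F) → F[X], ∀ l,
          nb l = C ((bb g l).1.leadingCoeff)⁻¹ * (bb g l).1 := ⟨_, fun _ => rfl⟩
      have hnbM : ∀ l ∈ M, nb l ∈ MON F e := by
        intro l hl
        obtain ⟨hlL, hlr, hld⟩ := hMp l hl
        obtain ⟨-, -, -, p3, -, -⟩ := hLp l hlL
        have h1 : (bb g l).1.leadingCoeff ≠ 0 := leadingCoeff_ne_zero.2 p3
        rw [b2, hnb]
        constructor
        · unfold Monic
          rw [leadingCoeff_mul, leadingCoeff_C, inv_mul_cancel₀ h1]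
        · rw [natDegree_C_mul (inv_ne_zero h1)]
          omega
      obtain ⟨Sg, hSg⟩ : ∃ Sg : F[X] → ℝ, ∀ b, Sg b = ∑ i ∈ Finset.range (5 * e + 1),
          (((MON F i).filter (fun δ => δ ∣ b ^ 5)).card : ℝ) * qq F ^ (-((i : ℝ) / 2)) :=
        ⟨_, fun _ => rfl⟩
      obtain ⟨c, hc⟩ : ∃ c : ℝ, c = 2 * qq F ^ ((4 * (g : ℝ) + 1 - 5 * ((d : ℝ) + 1) + t) / 2) :=
        ⟨_, rfl⟩
      have hc0 : 0 < c := by
        rw [hc]
        have := Real.rpow_pos_of_pos hq0 ((4 * (g : ℝ) + 1 - 5 * ((d : ℝ) + 1) + t) / 2)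
        positivity
      have hSg0 : ∀ b, 0 ≤ Sg b := by
        intro b
        rw [hSg]
        refine Finset.sum_nonneg fun i _ => ?_
        have := Real.rpow_pos_of_pos hq0 (-((i : ℝ) / 2))
        positivity
      have hTl : ∀ l ∈ M, T l ≤ c * Sg (nb l) := by
        intro l hl
        obtain ⟨hlL, hlr, hld⟩ := hMp l hl
        obtain ⟨hlne, -, -, p3, -, -⟩ := hLp l hlL
        have h1 := hnbM l hl
        rw [b2] at h1
        have h2 := one_l hq b1 b2 b4 g (d + 1) t (nb l) h1.1.ne_zero (S l) (fun v => KK g l v) (by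
          intro v hv
          rw [hS, Finset.mem_filter] at hv
          obtain ⟨hvg, hv0, -, k, hk⟩ := hv
          obtain ⟨-, -, -, δ, hm, hδ1, hδ2, hle⟩ := hY1 g l v k hlne hv0 hvg hk
          have hKK : KK g l v = Fintype.card F ^ k := by
            obtain ⟨z, α, hGP, -⟩ := hk
            exact hGP.1
          refine ⟨hvg, hv0, k, δ, hKK, hm, ?_, hδ2, ?_⟩
          · rw [hnb, mul_pow]
            exact Dvd.dvd.mul_left hδ1 _
          · rw [hlr] at hle
            have h3 : (if (bb g l).1.natDegree = d + 1 then 0 else 3) ≤ t := by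
              rw [ht]
              by_cases hu : u = 0
              · rw [if_pos hu, if_pos (by omega)]
              · rw [if_neg hu]
                split_ifs <;> omega
            omega)
        rw [hT, hc, hSg]
        rw [h1.2] at h2
        push_cast at h2
        exact h2
      have hcnt : ∀ b ∈ MON F e, ((M.filter (fun l => nb l = b)).card : ℝ) ≤ qq F ^ ((d : ℝ) + 1) := by
        intro b hb
        rw [b2] at hb
        have hfb0 : fr b ≠ 0 := by
          intro h
          have h1 := fr1 b b.natDegree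
          rw [h, coeff_zero, coeff_natDegree, hb.1.leadingCoeff, one_pow] at h1
          exact zero_ne_one h1
        have h1 : (M.filter (fun l => nb l = b)).card ≤ Fintype.card F ^ (d + 1) := by
          refine le_trans (Finset.card_le_card ?_) (x3 g (d + 1) (fr b) (by omega) hfb0 (by
            rw [fr7, hb.2]
            omega))
          intro l hl
          rw [Finset.mem_filter] at hl
          obtain ⟨hlM, rfl⟩ := hl
          obtain ⟨hlL, hlr, hld⟩ := hMp l hlM
          obtain ⟨-, -, -, -, -, p5⟩ := hLp l hlL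
          rw [Finset.mem_filter]
          refine ⟨Finset.mem_univ _, fun i hi => ?_⟩
          have h2 : fr (nb l) = C (((bb g l).1.leadingCoeff)⁻¹ ^ 5) * fr (bb g l).1 := by
            ext n
            rw [fr1, hnb, coeff_C_mul, coeff_C_mul, fr1, mul_pow]
          rw [h2, mul_left_comm, mu_C_mul, p5 i (by rw [hlr]; exact hi), mul_zero]
        have h3 : qq F ^ ((d : ℝ) + 1) = ((Fintype.card F ^ (d + 1) : ℕ) : ℝ) := by
          rw [show ((d : ℝ) + 1) = ((d + 1 : ℕ) : ℝ) by push_cast; ring, Real.rpow_natCast]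
          unfold qq
          push_cast
          ring
        rw [h3]
        exact_mod_cast h1
      have hY2e : ∑ b ∈ MON F e, Sg b ≤ 3 * qq F ^ (e : ℝ) := by
        rw [Real.rpow_natCast]
        refine le_trans (le_of_eq ?_) (hY2 e)
        refine Finset.sum_congr rfl fun b _ => ?_
        rw [hSg]
      have hexp : qq F ^ ((d : ℝ) + 1) * (c * (3 * qq F ^ (e : ℝ))) ≤
          24 * (1 / 2 : ℝ) ^ (d + u) * qq F ^ (2 * g) := by
        have hee : (e : ℝ) = (d : ℝ) + 1 - u := by
          have h1 : (e : ℝ) + (u : ℝ) = (d : ℝ) + 1 := by exact_mod_cast he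
          linarith
        have h2 : qq F ^ ((d : ℝ) + 1) * (c * (3 * qq F ^ (e : ℝ))) =
            6 * (qq F ^ ((-(d : ℝ) - 2 * u + t) / 2) * qq F ^ (2 * g)) := by
          rw [hc, ← Real.rpow_natCast (qq F) (2 * g), ← Real.rpow_add hq0]
          have h3 : qq F ^ ((d : ℝ) + 1) * qq F ^ ((4 * (g : ℝ) + 1 - 5 * ((d : ℝ) + 1) + t) / 2) *
              qq F ^ (e : ℝ) = qq F ^ ((-(d : ℝ) - 2 * u + t) / 2 + ((2 * g : ℕ) : ℝ)) := by
            rw [← Real.rpow_add hq0, ← Real.rpow_add hq0]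
            congr 1
            rw [hee]
            push_cast
            ring
          rw [← h3]
          ring
        rw [h2]
        have h4 : qq F ^ ((-(d : ℝ) - 2 * u + t) / 2) ≤ 4 * (1 / 2 : ℝ) ^ (d + u) := by
          by_cases hu : u = 0
          · rw [if_pos hu] at ht
            rw [ht, hu]
            have h5 := half_pow hq d
            have h6 : (0 : ℝ) ≤ (1 / 2 : ℝ) ^ d := by positivity
            rw [show (-(d : ℝ) - 2 * ((0 : ℕ) : ℝ) + ((0 : ℕ) : ℝ)) / 2 = -(d : ℝ) / 2 by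
              push_cast
              ring, add_zero]
            linarith
          · rw [if_neg hu] at ht
            rw [ht]
            obtain ⟨m, hm⟩ : ∃ m : ℕ, d + u = m + 2 := ⟨d + u - 2, by omega⟩
            have h5 := half_pow hq m
            have h6 : (4 : ℝ) * (1 / 2 : ℝ) ^ (d + u) = (1 / 2 : ℝ) ^ m := by
              rw [hm, pow_add]
              norm_num
              ring
            rw [h6]
            refine le_trans (Real.rpow_le_rpow_of_exponent_le hq1 ?_) h5
            have h7 : (d : ℝ) + (u : ℝ) = (m : ℝ) + 2 := by exact_mod_cast hm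
            have h8 : (1 : ℝ) ≤ (u : ℝ) := by exact_mod_cast Nat.one_le_iff_ne_zero.2 hu
            push_cast
            linarith
        nlinarith
      calc ∑ l ∈ M, T l ≤ ∑ l ∈ M, c * Sg (nb l) := Finset.sum_le_sum hTl
        _ = ∑ b ∈ MON F e, ∑ l ∈ M.filter (fun l => nb l = b), c * Sg (nb l) :=
            (Finset.sum_fiberwise_of_maps_to hnbM _).symm
        _ ≤ ∑ b ∈ MON F e, qq F ^ ((d : ℝ) + 1) * (c * Sg b) := by
            refine Finset.sum_le_sum fun b hb => ?_
            have h1 : ∑ l ∈ M.filter (fun l => nb l = b), c * Sg (nb l) =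
                ((M.filter (fun l => nb l = b)).card : ℝ) * (c * Sg b) := by
              rw [← nsmul_eq_mul, ← Finset.sum_const]
              refine Finset.sum_congr rfl fun l hl => ?_
              rw [(Finset.mem_filter.1 hl).2]
            rw [h1]
            exact mul_le_mul_of_nonneg_right (hcnt b hb) (mul_nonneg hc0.le (hSg0 b))
        _ = qq F ^ ((d : ℝ) + 1) * (c * ∑ b ∈ MON F e, Sg b) := by
            rw [← Finset.mul_sum, ← Finset.mul_sum]
        _ ≤ qq F ^ ((d : ℝ) + 1) * (c * (3 * qq F ^ (e : ℝ))) := by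
            refine mul_le_mul_of_nonneg_left ?_ (Real.rpow_pos_of_pos hq0 _).le
            exact mul_le_mul_of_nonneg_left hY2e hc0.le
        _ ≤ _ := hexp
  have hmaps : ∀ l ∈ L, (rr g l - 1, rr g l - (bb g l).1.natDegree) ∈
      Finset.range (g + 1) ×ˢ Finset.range (g + 1) := by
    intro l hl
    obtain ⟨-, p1, p2, -, -, -⟩ := hLp l hl
    rw [Finset.mem_product, Finset.mem_range, Finset.mem_range]
    constructor
    · show rr g l - 1 < g + 1
      omega
    · show rr g l - (bb g l).1.natDegree < g + 1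
      omega
  rw [← Finset.sum_fiberwise_of_maps_to hmaps, Finset.sum_product]
  calc ∑ d ∈ Finset.range (g + 1), ∑ u ∈ Finset.range (g + 1),
        ∑ l ∈ L.filter (fun l => (rr g l - 1, rr g l - (bb g l).1.natDegree) = (d, u)), T l
      ≤ ∑ d ∈ Finset.range (g + 1), ∑ u ∈ Finset.range (g + 1),
        24 * (1 / 2 : ℝ) ^ (d + u) * qq F ^ (2 * g) :=
        Finset.sum_le_sum fun d _ => Finset.sum_le_sum fun u _ => block d u
    _ = 24 * qq F ^ (2 * g) * ((∑ d ∈ Finset.range (g + 1), (1 / 2 : ℝ) ^ d) *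
        (∑ u ∈ Finset.range (g + 1), (1 / 2 : ℝ) ^ u)) := by
        rw [Finset.sum_mul_sum, Finset.mul_sum]
        refine Finset.sum_congr rfl fun d _ => ?_
        rw [Finset.mul_sum]
        refine Finset.sum_congr rfl fun u _ => ?_
        rw [pow_add]
        ring
    _ ≤ 24 * qq F ^ (2 * g) * (2 * 2) := by
        have hpos : 0 < qq F ^ (2 * g) := pow_pos hq0 _
        refine mul_le_mul_of_nonneg_left ?_ (by positivity)
        refine mul_le_mul (geo_le _) (geo_le _) ?_ (by norm_num)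
        exact Finset.sum_nonneg fun i _ => by positivity
    _ ≤ 100 * qq F ^ (2 * g) := by
        have hpos : 0 < qq F ^ (2 * g) := pow_pos hq0 _
        linarith

end D5
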