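import Pool.Agent.H506.D5.Stm3

/-!
# Z1: assembly of the two parts (helper331; edit of T2)
-/

open Polynomial
open scoped Classical

noncomputable section

namespace D5

namespace XZ1

variable {F : Type} [Field F] [Fintype F] [CharP F 5]

theorem one_lt_qq : 1 < qq F := by
  unfold qq
  exact_mod_cast Fintype.one_lt_card

/-- the bound for one form `l` and one `v` -/
theorem point (hX4 : S_X4 F) (hX5 : S_X5 F)
    (g : ℕ) (l : Fin g → F) (hl : l ≠ 0) (v : F[X]) (hv : v ∈ POL F g) (hv0 : v ≠ 0)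
    (hE : Ex g l v) :
    Real.sqrt (KK g l v : ℝ) = 1 ∨ (∃ k, NLs g l v k) ∨ ∃ k, LOs g l v k := by
  rcases hX4 g l v hv hv0 hE with h | ⟨k, z, hz⟩
  · left
    rw [h, Nat.cast_one, Real.sqrt_one]
  · right
    rcases hX5 g l v k z hl hv0 hv hz with h | h
    · exact Or.inl ⟨k, h⟩
    · exact Or.inr ⟨k, h⟩

/-- the sum over `v` for one form `l` -/
theorem inner (hB0 : S_B0 F) (hX4 : S_X4 F) (hX5 : S_X5 F)
    (g : ℕ) (l : Fin g → F) (hl : l ≠ 0) :
    ∑ v ∈ (POL F g).filter (fun v => v ≠ 0), (if Ex g l v then Real.sqrt (KK g l v : ℝ) else 0) ≤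
      qq F ^ g +
      ∑ v ∈ (POL F g).filter (fun v => v ≠ 0 ∧ ∃ k, NLs g l v k), Real.sqrt (KK g l v : ℝ) +
      ∑ v ∈ (POL F g).filter (fun v => v ≠ 0 ∧ Ex g l v ∧ ∃ k, LOs g l v k),
        Real.sqrt (KK g l v : ℝ) := by
  obtain ⟨N, hN⟩ : ∃ N, N = (POL F g).filter (fun v => v ≠ 0 ∧ ∃ k, NLs g l v k) := ⟨_, rfl⟩
  obtain ⟨O, hO⟩ : ∃ O, O = (POL F g).filter (fun v => v ≠ 0 ∧ Ex g l v ∧ ∃ k, LOs g l v k) :=
    ⟨_, rfl⟩
  rw [← hN, ← hO]
  have h1 : ∀ v ∈ (POL F g).filter (fun v => v ≠ 0),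
      (if Ex g l v then Real.sqrt (KK g l v : ℝ) else 0) ≤
      1 + (if v ∈ N then Real.sqrt (KK g l v : ℝ) else 0) +
        (if v ∈ O then Real.sqrt (KK g l v : ℝ) else 0) := by
    intro v hv
    obtain ⟨hv1, hv0⟩ := Finset.mem_filter.1 hv
    have hs : 0 ≤ Real.sqrt (KK g l v : ℝ) := Real.sqrt_nonneg _
    have hi1 : 0 ≤ (if v ∈ N then Real.sqrt (KK g l v : ℝ) else 0) := by
      split_ifs
      · exact hs
      · exact le_refl _
    have hi2 : 0 ≤ (if v ∈ O then Real.sqrt (KK g l v : ℝ) else 0) := by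
      split_ifs
      · exact hs
      · exact le_refl _
    by_cases hE : Ex g l v
    · rw [if_pos hE]
      rcases point hX4 hX5 g l hl v hv1 hv0 hE with h | h | h
      · linarith
      · have : v ∈ N := by rw [hN]; exact Finset.mem_filter.2 ⟨hv1, hv0, h⟩
        rw [if_pos this]
        linarith
      · have : v ∈ O := by rw [hO]; exact Finset.mem_filter.2 ⟨hv1, hv0, hE, h⟩
        rw [if_pos this]
        linarith
    · rw [if_neg hE]
      linarith
  refine (Finset.sum_le_sum h1).trans ?_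
  rw [Finset.sum_add_distrib, Finset.sum_add_distrib, Finset.sum_ite_mem, Finset.sum_ite_mem]
  have h2 : ∑ v ∈ (POL F g).filter (fun v => v ≠ 0), (1 : ℝ) ≤ qq F ^ g := by
    rw [Finset.sum_const, nsmul_eq_mul, mul_one]
    have h3 : ((POL F g).filter (fun v => v ≠ 0)).card ≤ Fintype.card F ^ g := by
      rw [← hB0.2.2.2.1 g]
      exact Finset.card_le_card (Finset.filter_subset _ _)
    unfold qq
    exact_mod_cast h3
  refine add_le_add (add_le_add h2 ?_) ?_
  · exact Finset.sum_le_sum_of_subset_of_nonneg Finset.inter_subset_right fun v _ _ => Real.sqrt_nonneg _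
  · exact Finset.sum_le_sum_of_subset_of_nonneg Finset.inter_subset_right fun v _ _ => Real.sqrt_nonneg _

end XZ1

open XZ1 in
theorem p_Z1 (F : Type) [Field F] [Fintype F] [CharP F 5] (hB0 : S_B0 F) (hX4 : S_X4 F)
    (hX5 : S_X5 F) (hX11 : S_X11 F) (hY4 : S_Y4 F) : S_Z1 F := by
  intro g hg
  have hq := one_lt_qq (F := F)
  have hq0 : 0 < qq F := by linarith
  have e0 : ∀ v ∈ (POL F g).filter (fun v => v ≠ 0),
      ∑ l ∈ (Finset.univ : Finset (Fin g → F)).filter (fun l => l ≠ 0 ∧ Ex g l v),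
        Real.sqrt (KK g l v : ℝ) =
      ∑ l ∈ (Finset.univ : Finset (Fin g → F)).filter (fun l => l ≠ 0),
        (if Ex g l v then Real.sqrt (KK g l v : ℝ) else 0) := by
    intro v _
    rw [← Finset.sum_filter, Finset.filter_filter]
  rw [Finset.sum_congr rfl e0, Finset.sum_comm]
  have e1 : ∀ l ∈ (Finset.univ : Finset (Fin g → F)).filter (fun l => l ≠ 0),
      ∑ v ∈ (POL F g).filter (fun v => v ≠ 0), (if Ex g l v then Real.sqrt (KK g l v : ℝ) else 0) ≤
      qq F ^ g +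
      ∑ v ∈ (POL F g).filter (fun v => v ≠ 0 ∧ ∃ k, NLs g l v k), Real.sqrt (KK g l v : ℝ) +
      ∑ v ∈ (POL F g).filter (fun v => v ≠ 0 ∧ Ex g l v ∧ ∃ k, LOs g l v k),
        Real.sqrt (KK g l v : ℝ) := by
    intro l hl
    exact inner hB0 hX4 hX5 g l (Finset.mem_filter.1 hl).2
  refine (Finset.sum_le_sum e1).trans ?_
  rw [Finset.sum_add_distrib, Finset.sum_add_distrib]
  have e4 : ∑ l ∈ (Finset.univ : Finset (Fin g → F)).filter (fun l => l ≠ 0), qq F ^ g ≤
      qq F ^ (2 * g) := by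
    rw [Finset.sum_const, nsmul_eq_mul]
    have e5 : ((((Finset.univ : Finset (Fin g → F)).filter (fun l => l ≠ 0)).card : ℕ) : ℝ) ≤ qq F ^ g := by
      have e6 : ((Finset.univ : Finset (Fin g → F)).filter (fun l => l ≠ 0)).card ≤ Fintype.card F ^ g := by
        refine (Finset.card_le_card (Finset.filter_subset _ _)).trans (le_of_eq ?_)
        rw [Finset.card_univ, Fintype.card_fun, Fintype.card_fin]
      unfold qq
      exact_mod_cast e6
    calc _ ≤ qq F ^ g * qq F ^ g := mul_le_mul_of_nonneg_right e5 (pow_pos hq0 _).le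
      _ = qq F ^ (2 * g) := by rw [← pow_add]; congr 1; ring
  have e7 := hX11 g hg
  have e8 := hY4 g
  have e9 : 0 < qq F ^ (2 * g) := pow_pos hq0 _
  linarith

end D5
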