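import Pool.Agent.H506.D5.All3
import Pool.Agent.H506.D5.Fin4
import Pool.Agent.H506.D5.X1
import Pool.Agent.H506.D5.X2
import Pool.Agent.H506.D5.X3
import Pool.Agent.H506.D5.X4
import Pool.Agent.H506.D5.X5
import Pool.Agent.H506.D5.X6
import Pool.Agent.H506.D5.X7a
import Pool.Agent.H506.D5.X7
import Pool.Agent.H506.D5.X8
import Pool.Agent.H506.D5.X9
import Pool.Agent.H506.D5.X10
import Pool.Agent.H506.D5.X11
import Pool.Agent.H506.D5.Y1
import Pool.Agent.H506.D5.Y2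
import Pool.Agent.H506.D5.Y3
import Pool.Agent.H506.D5.Y4
import Pool.Agent.H506.D5.Z1
import Pool.Agent.H506.D5.Z2
import Pool.Agent.H506.D5.W1
import Pool.Agent.H506.D5.W2
import Pool.Agent.H506.D5.W3
import Pool.Agent.H506.D5.W4

/-!
# The average of the 5-torsion is `2 + O(q^(-1/2))`: assembly
-/

open Polynomial
open scoped Classical

noncomputable section

namespace D5

theorem Z1F (F : Type) [Field F] [Fintype F] [CharP F 5] : S_Z1 F := by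
  have hB0 := p_B0 F
  have hE4 := p_E4 F hB0
  have hH1 := p_H1 F hB0
  have hH2 := p_H2 F hB0
  have hH3 := p_H3 F hB0 hH1 hH2
  have hFR := p_FR F
  have hP0 := p_P0 F hB0 hE4 hH1
  have hP0b := p_P0b F hB0
  have hP1 := p_P1 F hB0 hE4 hH3
  have hG := p_G F hB0 hE4 hH3
  have hQ := p_Q F hB0
  have hR1 := p_R1 F hB0 hQ
  have hSQ := p_SQ F
  have hX3 := p_X3 F hB0
  have hX4 := p_X4 F hB0 hG
  have hX5 := p_X5 F hB0 hFR hE4 hP0 hP1
  have hX6 := p_X6 F hB0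
  have hX7a := p_X7a F hB0
  have hX7 := p_X7 F hB0 hQ hX6 hX7a
  have hX8 := p_X8 F hB0 hFR hP0 hP0b
  have hX9 := p_X9 F hB0 hE4 hR1 hX7 hX8
  have hX10 := p_X10 F hB0 hX3 hX9
  have hX11 := p_X11 F hB0 hSQ hE4 hX9 hX10
  have hY1 := p_Y1 F hB0 hFR hE4 hP0
  have hY2 := p_Y2 F hB0
  have hY3 := p_Y3 F hB0
  have hY4 := p_Y4 F hB0 hFR hE4 hX3 hY1 hY2 hY3
  exact p_Z1 F hB0 hX4 hX5 hX11 hY4

theorem Z2F (F : Type) [Field F] [Fintype F] [CharP F 5] : S_Z2 F := by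
  have hB0 := p_B0 F
  have hB1 := p_B1 F hB0
  have hX1 := p_X1 F hB0
  have hX2 := p_X2 F hB0 hB1 hX1
  exact p_Z2 F hB0 hB1 hX2 (Z1F F)

theorem W2F (F : Type) [Field F] [Fintype F] [CharP F 5] : S_W2 F := by
  have hB0 := p_B0 F
  have hB1 := p_B1 F hB0
  have hX1 := p_X1 F hB0
  have hW1 := p_W1 F hB0 hB1 hX1
  exact p_W2 F hB0 hB1 hW1 (Z1F F)

theorem W4F (F : Type) [Field F] [Fintype F] [CharP F 5] : S_W4 F := by
  have hB0 := p_B0 F
  have hB1 := p_B1 F hB0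
  exact p_W4 F hB0 hB1 (p_SQ F) (p_W3 F hB1) (Z2F F)

end D5
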