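import Pool.Agent.H506.D5.Stm4

/-!
# Project D5, fifth part: the imaginary extensions in which the infinite place is inert

`f = c m`, `m` monic squarefree of degree `2 g + 2`, `c ∈ F` not a square.  Then `F(t)(√f)` is imaginary too, the units of `F[t] + F[t] √f` are constants, and all solutions
`v` have degree `< g`.  The sum bound Z1 (for the same `g`) is enough.
-/

open Polynomial
open scoped Classical

noncomputable section

namespace D5

variable (F : Type) [Field F] [Fintype F] [CharP F 5]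

/-- **I0** (adaptation of the files A1 - A9) `#Cl[5] = #sol f` for squarefree `f` of even degree `≥ 2` whose leading coefficient is not a square.
Proof: the proof of A1 - A9 (files A1, A1b, A2, …, A9 and All.lean: `cl5_eq`) uses the hypothesis `Good f` (monic, squarefree, odd degree) only for: `OO f` is a domain
(`f` is not a square: its leading coefficient is not), units of `OO f` are constants (`a² - f b² = e ∈ Fˣ` forces `b = 0`: otherwise the leading coefficients of `a²` and `f b²` would have to be equal,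
but one is a square and the other is not), Dedekind (helper731's `P5.p_A3` in Pool/Agent/H731/P5/A3.lean on main is for all squarefree `f` of degree `≥ 1`), `f` and `f'` coprime.
helper731's files P5/A3, A4, A8, A9 (only `#Cl[5] ≤ #sol`) are for all squarefree `f` of degree `≥ 1` and are good models. -/
def S_I0 : Prop :=
  ∀ f : F[X], Squarefree f → 1 ≤ f.natDegree → Even f.natDegree → ¬ IsSquare f.leadingCoeff → cl5 f = (sol f).card

/-- **I1** (uses B0, G; see the file X1) for `c ≠ 0` the exponential sum over `f = c m`, `m` monic of degree `2 g + 2`.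
Proof: `m = X ^ (2g+2) + b X ^ (2g+1) + u`, `b ∈ F`, `u ∈ POL (2g+1)`.  For fixed `b` put `R = c X ^ (2g+2) + c b X ^ (2g+1)` and `T_b = ∑_u ψ(Lam ((R + c u)² v))`; as in X1
`‖T_b‖² = q ^ (2g+1) ∑_{z ∈ Z} ψ(2 Lam (v z R))`, `Z` the radical (`KK` elements), which is `q ^ (2g+1) KK` if `z ↦ Lam (v z R)` vanishes on `Z` and `0` otherwise.
If `Ex`: `‖T_b‖ ≤ √(q ^ (2g+1) KK)` for each of the `q` values of `b`.  If not `Ex`: take `k, z₀` from G (`KK = q ^ k`, `L_i := Lam (v z₀ X ^ i) = 0` for `i < 2g + k`), so `Z = z₀ POL k`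
(inclusion and cardinality), `k ≥ 1`, and `L_{2g+k} ≠ 0` (otherwise `Ex`: `Lam (v z₀ p X ^ (2g+1)) = p_{k-1} L_{2g+k}` for `p ∈ POL k`).  If `k ≥ 2`, `z = z₀ X ^ (k-2)` gives
`Lam (v z R) = c L_{2g+k} + c b L_{2g+k-1} = c L_{2g+k} ≠ 0`: all `T_b = 0`.  If `k = 1`, `z = z₀`: `Lam (v z R) = c (L_{2g+2} + b L_{2g+1})` is `0` for exactly one `b`, and then
`‖T_b‖ ≤ √(q ^ (2g+1) q) = q ^ (g+1)`. -/
def S_I1 : Prop :=
  ∀ (ψ : AddChar F ℂ), ψ ≠ 1 → ∀ (c : F), c ≠ 0 → ∀ (g : ℕ) (l : Fin g → F) (v : F[X]), v ∈ POL F g → v ≠ 0 →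
    ‖∑ m ∈ MON F (2 * g + 2), ψ (Lam g l ((C c * m) ^ 2 * v))‖ ≤
      if Ex g l v then qq F * Real.sqrt (qq F ^ (2 * g + 1) * (KK g l v : ℝ)) else qq F ^ (g + 1)

/-- **I2** (uses B0, B1, I1; see the files E2, X2, W1) counting by characters, two-sided.
Proof: for `v ∈ POL g` the condition `IsSol (c m) v` is `(f² v)_{5j+4} = v_j ^ 5` for `j < g` (B1 (3); for `j ≥ g` both sides are `0`: `deg (f² v) ≤ 5g + 3`); detect it by `l ∈ F ^ g`; `l = 0` is the main
term, and I1 for the others: those without `Ex` contribute at most `q ^ g q ^ (g+1)`. -/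
def S_I2 : Prop :=
  ∀ (c : F), c ≠ 0 → ∀ (g : ℕ) (v : F[X]), v ∈ POL F g → v ≠ 0 →
    |qq F ^ g * (((MON F (2 * g + 2)).filter (fun m => IsSol (C c * m) v)).card : ℝ) - qq F ^ (2 * g + 2)| ≤
      qq F ^ (2 * g + 1) + qq F * ∑ l ∈ (Finset.univ : Finset (Fin g → F)).filter (fun l => l ≠ 0 ∧ Ex g l v),
        Real.sqrt (qq F ^ (2 * g + 1) * (KK g l v : ℝ))

/-- **I3** (uses B0, B1, I2, Z1; see the files Z2, W2) the first moment.
Proof: for `c` not a square all solutions `v ≠ 0` for `f = c m` are in `POL g`: `deg v ≤ g` by B1 (4), and if `deg v = g` then B1 (3) for `j = g` gives `c² v_g = v_g ^ 5`, `v_g ^ 4 = c²`,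
`v_g² = ± c`, but `c` is not a square and `- 1 = 2²` is one.  So `∑_m #sol (c m) = ∑_{v ∈ POL g} N(v)`, `N(0) = q ^ (2g+2)`, and by I2, Z1 the sum over `v ≠ 0` differs from `(q ^ g - 1) q ^ (g+2)` by at most
`q ^ (2g+1) + q ^ (1-g) q ^ (g + 1/2) · 200000 q ^ (2g) = q ^ (2g+1) + 200000 q ^ (2g+3/2)`; and `q ^ (g+2) ≤ q ^ (2g+3/2)`. -/
def S_I3 : Prop :=
  ∀ c : F, ¬ IsSquare c → ∀ g : ℕ, 40 ≤ g →
    |∑ m ∈ MON F (2 * g + 2), ((sol (C c * m)).card : ℝ) - 2 * qq F ^ (2 * g + 2)| ≤ 200002 * qq F ^ (2 * g + 2) / Real.sqrt (qq F)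

/-- **I4** (uses B0, B1, SQ, I3; see the files W3, W4) the contribution of the `m` which are not squarefree, for `g ≥ 120`, `q ≥ 25`.
Proof: `#sol (a² h) ≤ 5 ^ (deg a) #sol h` for `a` monic and every `h` (the lemma `key` inside the proof of p_W3 in the file W3.lean, which does not use that `h` is monic).  As W4:
`m = a² h`, `a, h` monic, `1 ≤ j = deg a ≤ g + 1`, `h ∈ MON (2(g-j)+2)` (`h = 1` if `j = g + 1`), `C c * m = a² (C c * h)`.  If `g - j ≥ 40` the sum over `h` is at most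
`q ^ (2(g-j)+2) (2 + 200002/√q) ≤ 40003 q ^ (2(g-j)+2)` (I3, `√q ≥ 5`); these `j` contribute at most `40003 q ^ (2g+2) 5/(q-5) ≤ 50004 q ^ (2g+2) / √q`.  If `g' = g - j < 40`, `j ≤ g`: `#sol (c h) ≤ q ^ g'` (as in I3), so `j` contributes at most
`5 ^ j q ^ j q ^ (3g'+2) = q ^ (2g+2) 5 ^ (g-g') q ^ (2g'-g) ≤ q ^ (2g+2) q ^ (-1/2) 5 ^ (1+3g'-g) ≤ q ^ (2g+2) / √q`.  `j = g+1`: `#sol (C c) = 1` (only `v = 0`, B1 (4)), contribution `≤ (5 q) ^ (g+1) ≤ q ^ (2g+2) / √q`. -/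
def S_I4 : Prop :=
  ∀ c : F, ¬ IsSquare c → 25 ≤ Fintype.card F → ∀ g : ℕ, 120 ≤ g →
    ∑ m ∈ (MON F (2 * g + 2)).filter (fun m => ¬ Squarefree m), ((sol (C c * m)).card : ℝ) ≤ 60000 * qq F ^ (2 * g + 2) / Real.sqrt (qq F)

/-- **I5** (uses B0, MU; adaptation of F5) the number of monic squarefree polynomials of degree `2 g + 2`. -/
def S_I5 : Prop :=
  ∀ g : ℕ, ((SQF F (2 * g + 2)).card : ℝ) = qq F ^ (2 * g + 2) - qq F ^ (2 * g + 1)

end D5
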