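import Pool.Agent.H506.D5.Fin4
import Pool.Agent.H506.D5.Stm5

/-!
# The inert case: numerics
-/

open Polynomial
open scoped Classical

noncomputable section

namespace D5

namespace XFin5

variable {F : Type} [Field F] [Fintype F] [CharP F 5]

theorem ne_zero_of_not_square {c : F} (hc : ¬ IsSquare c) : c ≠ 0 := by
  rintro rfl
  exact hc ⟨0, by simp⟩

theorem squarefree_C_mul {c : F} (hc : c ≠ 0) (m : F[X]) : Squarefree (C c * m) ↔ Squarefree m := by
  have hu : IsUnit (C c) := isUnit_C.2 (isUnit_iff_ne_zero.2 hc)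
  have ha : Associated m (C c * m) := (associated_unit_mul_right m (C c) hu)
  exact (ha.squarefree_iff).symm

/-- Sum over the squarefree `m` of `#Cl[5]` is the sum of `#sol (c m)`. -/
theorem sum_cl5 (hB0 : S_B0 F) (hI0 : S_I0 F) {c : F} (hc : ¬ IsSquare c) (g : ℕ) :
    ∑ m ∈ SQF F (2 * g + 2), (cl5 (C c * m) : ℝ) = ∑ m ∈ SQF F (2 * g + 2), ((sol (C c * m)).card : ℝ) := by
  have hc0 := ne_zero_of_not_square hc
  refine Finset.sum_congr rfl fun m hm => ?_
  rw [SQF, Finset.mem_filter, hB0.2.1] at hm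
  obtain ⟨⟨hmon, hdeg⟩, hs⟩ := hm
  have hnd : (C c * m).natDegree = 2 * g + 2 := by
    rw [natDegree_C_mul hc0, hdeg]
  have hlc : (C c * m).leadingCoeff = c := by
    rw [leadingCoeff_mul, leadingCoeff_C, hmon.leadingCoeff, mul_one]
  rw [hI0 (C c * m) ((squarefree_C_mul hc0 m).2 hs) (by omega) (by rw [hnd]; exact ⟨g + 1, by ring⟩)
    (by rw [hlc]; exact hc)]

theorem sum_split (c : F) (g : ℕ) :
    ∑ m ∈ MON F (2 * g + 2), ((sol (C c * m)).card : ℝ) = ∑ m ∈ SQF F (2 * g + 2), ((sol (C c * m)).card : ℝ) +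
      ∑ m ∈ (MON F (2 * g + 2)).filter (fun m => ¬ Squarefree m), ((sol (C c * m)).card : ℝ) := by
  unfold SQF
  rw [Finset.sum_filter_add_sum_filter_not]

end XFin5

open XFin4 XFin5

/-- The upper bound. -/
theorem upper5 (F : Type) [Field F] [Fintype F] [CharP F 5] (hI0 : S_I0 F) (hI3 : S_I3 F) (hI5 : S_I5 F)
    (c : F) (hc : ¬ IsSquare c) : ∀ g : ℕ, 40 ≤ g →
    ∑ m ∈ SQF F (2 * g + 2), (cl5 (C c * m) : ℝ) ≤ (2 + 300000 / Real.sqrt (qq F)) * ((SQF F (2 * g + 2)).card : ℝ) := by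
  intro g hg
  have hB0 := p_B0 F
  have hB1 := p_B1 F hB0
  have hF5 := hI5 g
  obtain ⟨hs0, hs2, hs5⟩ := sq_sqrt (F := F)
  have hZ := (abs_le.1 (hI3 c hc g hg)).2
  rw [XFin5.sum_cl5 hB0 hI0 hc]
  have h1 : (((MON F (2 * g + 2)).filter (fun m => ¬ Squarefree m)).card : ℝ) ≤
      ∑ m ∈ (MON F (2 * g + 2)).filter (fun m => ¬ Squarefree m), ((sol (C c * m)).card : ℝ) := by
    calc (((MON F (2 * g + 2)).filter (fun m => ¬ Squarefree m)).card : ℝ)
        = ∑ m ∈ (MON F (2 * g + 2)).filter (fun m => ¬ Squarefree m), (1 : ℝ) := by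
          rw [Finset.sum_const, nsmul_eq_mul, mul_one]
      _ ≤ _ := Finset.sum_le_sum fun m _ => by exact_mod_cast one_le_sol hB1 (C c * m)
  have h2 : ((SQF F (2 * g + 2)).card : ℝ) + (((MON F (2 * g + 2)).filter (fun m => ¬ Squarefree m)).card : ℝ) =
      qq F ^ (2 * g + 2) := by
    have h3 : (SQF F (2 * g + 2)).card + ((MON F (2 * g + 2)).filter (fun m => ¬ Squarefree m)).card =
        Fintype.card F ^ (2 * g + 2) := by
      unfold SQF
      rw [Finset.card_filter_add_card_filter_not, hB0.2.2.2.2.1]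
    unfold qq
    exact_mod_cast h3
  have h4 := XFin5.sum_split (F := F) c g
  rw [hF5] at h2 ⊢
  rw [h4] at hZ
  set s := Real.sqrt (qq F) with hs
  set Q := qq F ^ (2 * g + 1) with hQ
  have hq : qq F ^ (2 * g + 2) = Q * s ^ 2 := by rw [hQ, hs2, ← pow_succ]
  have hQ0 : 0 < Q := by
    have : (0 : ℝ) < qq F := by rw [← hs2]; positivity
    positivity
  rw [hq] at hZ h2 ⊢
  have h6 : 200002 * (Q * s ^ 2) / s = Q * (200002 * s) := by
    field_simp
  rw [h6] at hZ
  have h5 : ∑ m ∈ SQF F (2 * g + 2), ((sol (C c * m)).card : ℝ) ≤ Q * (2 * s ^ 2 + 200002 * s - 1) := by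
    have : Q * (2 * s ^ 2 + 200002 * s - 1) = 2 * (Q * s ^ 2) + Q * (200002 * s) - Q := by ring
    rw [this]
    linarith
  refine h5.trans ?_
  have h7 : (2 + 300000 / s) * (Q * s ^ 2 - Q) = Q * (2 * s ^ 2 - 2 + 300000 * s - 300000 / s) := by
    field_simp
    ring
  rw [h7]
  refine mul_le_mul_of_nonneg_left ?_ hQ0.le
  have h8 : 300000 / s ≤ 60000 * s := by
    rw [div_le_iff₀ hs0]
    nlinarith
  have h9 : 1 ≤ s := by nlinarith
  linarith

/-- The lower bound. -/
theorem lower5 (F : Type) [Field F] [Fintype F] [CharP F 5] (hI0 : S_I0 F) (hI3 : S_I3 F) (hI4 : S_I4 F) (hI5 : S_I5 F)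
    (c : F) (hc : ¬ IsSquare c) : ∀ g : ℕ, 120 ≤ g →
    (2 - 300000 / Real.sqrt (qq F)) * ((SQF F (2 * g + 2)).card : ℝ) ≤ ∑ m ∈ SQF F (2 * g + 2), (cl5 (C c * m) : ℝ) := by
  intro g hg
  have hB0 := p_B0 F
  have hB1 := p_B1 F hB0
  have hF5 := hI5 g
  obtain ⟨hs0, hs2, hs5⟩ := sq_sqrt (F := F)
  rw [XFin5.sum_cl5 hB0 hI0 hc]
  have hS0 : (0 : ℝ) ≤ ((SQF F (2 * g + 2)).card : ℝ) := by positivity
  have hone : ((SQF F (2 * g + 2)).card : ℝ) ≤ ∑ m ∈ SQF F (2 * g + 2), ((sol (C c * m)).card : ℝ) := by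
    calc ((SQF F (2 * g + 2)).card : ℝ) = ∑ m ∈ SQF F (2 * g + 2), (1 : ℝ) := by
          rw [Finset.sum_const, nsmul_eq_mul, mul_one]
      _ ≤ _ := Finset.sum_le_sum fun m _ => by exact_mod_cast one_le_sol hB1 (C c * m)
  by_cases hq : 25 ≤ Fintype.card F
  · have hW := (abs_le.1 (hI3 c hc g (by omega))).1
    have hn := hI4 c hc hq g hg
    rw [XFin5.sum_split (F := F) c g] at hW
    set s := Real.sqrt (qq F) with hs
    set P := qq F ^ (2 * g + 2) with hP
    have hP0 : 0 < P := by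
      have : (0 : ℝ) < qq F := by rw [← hs2]; positivity
      positivity
    have hSP : ((SQF F (2 * g + 2)).card : ℝ) ≤ P := by
      rw [hF5]
      have : (0 : ℝ) ≤ qq F ^ (2 * g + 1) := by
        have : (0 : ℝ) < qq F := by rw [← hs2]; positivity
        positivity
      linarith
    have h1 : P * (2 - 300000 / s) ≤ ∑ m ∈ SQF F (2 * g + 2), ((sol (C c * m)).card : ℝ) := by
      have h2 : 60000 * P / s = P * (60000 / s) := by ring
      have h2' : 200002 * P / s = P * (200002 / s) := by ring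
      rw [h2] at hn
      rw [h2'] at hW
      have h3 : P * (2 - 300000 / s) ≤ P * (2 - 200002 / s) - P * (60000 / s) := by
        rw [← mul_sub]
        refine mul_le_mul_of_nonneg_left ?_ hP0.le
        have h4 : 2 - 200002 / s - 60000 / s - (2 - 300000 / s) = 39998 / s := by ring
        have h5 : (0 : ℝ) ≤ 39998 / s := by positivity
        linarith
      have h6 : P * (2 - 200002 / s) = 2 * P - P * (200002 / s) := by ring
      rw [h6] at h3
      linarith
    rcases le_total (2 - 300000 / s) 0 with h | h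
    · calc _ ≤ (0 : ℝ) := mul_nonpos_of_nonpos_of_nonneg h hS0
        _ ≤ _ := hS0.trans hone
    · calc _ ≤ (2 - 300000 / s) * P := mul_le_mul_of_nonneg_left hSP h
        _ = P * (2 - 300000 / s) := mul_comm _ _
        _ ≤ _ := h1
  · have hq25 : qq F < 25 := by
      unfold qq
      exact_mod_cast not_le.1 hq
    have hs25 : Real.sqrt (qq F) < 5 := by nlinarith
    have h1 : (2 : ℝ) - 300000 / Real.sqrt (qq F) ≤ 1 := by
      have : (1 : ℝ) ≤ 300000 / Real.sqrt (qq F) := by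
        rw [le_div_iff₀ hs0]
        linarith
      linarith
    calc _ ≤ 1 * ((SQF F (2 * g + 2)).card : ℝ) := mul_le_mul_of_nonneg_right h1 hS0
      _ = ((SQF F (2 * g + 2)).card : ℝ) := one_mul _
      _ ≤ _ := hone

end D5
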