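import Pool.Agent.H506.D5.Stm5
import Pool.Agent.H506.D5.X1

/-!
# D5, I1: the exponential sum for even degree (helper977 for helper506; edit of X1)
-/

open Polynomial
open scoped Classical

noncomputable section

namespace D5

namespace XI1

open XX1

variable {F : Type} [Field F]

lemma Lam_zero (g : ℕ) (l : Fin g → F) : Lam g l (0 : F[X]) = 0 := by
  unfold Lam
  exact Finset.sum_eq_zero fun j _ => by rw [coeff_zero, mul_zero]

lemma Lam_sum (g : ℕ) (l : Fin g → F) (s : Finset ℕ) (f : ℕ → F[X]) :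
    Lam g l (∑ i ∈ s, f i) = ∑ i ∈ s, Lam g l (f i) := by
  induction s using Finset.induction_on with
  | empty => rw [Finset.sum_empty, Finset.sum_empty, Lam_zero]
  | insert a s ha ih => rw [Finset.sum_insert ha, Finset.sum_insert ha, Lam_add, ih]

lemma lam_poly (g : ℕ) (l : Fin g → F) (A : F[X]) (N : ℕ)
    (hA : ∀ i, i < N → Lam g l (A * X ^ i) = 0) (w : F[X]) (hw : w.degree < N) :
    Lam g l (A * w) = 0 := by
  by_cases hw0 : w = 0
  · rw [hw0, mul_zero, Lam_zero]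
  have h1 : w.natDegree < N := (natDegree_lt_iff_degree_lt hw0).mpr hw
  rw [w.as_sum_range_C_mul_X_pow' h1, Finset.mul_sum, Lam_sum]
  refine Finset.sum_eq_zero fun i hi => ?_
  rw [show A * (C (w.coeff i) * X ^ i) = C (w.coeff i) * (A * X ^ i) by ring, Lam_C_mul,
    hA i (Finset.mem_range.mp hi), mul_zero]

variable [Fintype F]

lemma kk_eq (g : ℕ) (l : Fin g → F) (v : F[X]) : KK g l v = (Rad g l v (2 * g + 1)).card := by
  unfold KK Rad
  exact congrArg Finset.card (Finset.ext fun z => by simp only [Finset.mem_filter])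

lemma rad_sum (hB0 : S_B0 F) (h2 : (2 : F) ≠ 0) (ψ : AddChar F ℂ) (hψ : ψ ≠ 1) (g : ℕ)
    (l : Fin g → F) (v R : F[X]) (n : ℕ)
    (h : ¬ ∀ z ∈ Rad g l v n, Lam g l (v * z * R) = 0) :
    ∑ z ∈ Rad g l v n, ψ (Lam g l (v * z * R + v * z * R)) = 0 := by
  push Not at h
  obtain ⟨z₀, hz₀, hc⟩ := h
  obtain ⟨a, ha⟩ := AddChar.ne_one_iff.1 hψ
  have hz₁ : C (a / (2 * Lam g l (v * z₀ * R))) * z₀ ∈ Rad g l v n := rad_C_mul hB0 _ hz₀
  have h3 := rad_shift hB0 hz₁ (fun z => ψ (Lam g l (v * z * R + v * z * R)))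
  have h4 : ∀ z, ψ (Lam g l (v * (C (a / (2 * Lam g l (v * z₀ * R))) * z₀ + z) * R +
      v * (C (a / (2 * Lam g l (v * z₀ * R))) * z₀ + z) * R)) =
      ψ a * ψ (Lam g l (v * z * R + v * z * R)) := by
    intro z
    rw [← AddChar.map_add_eq_mul]
    congr 1
    have h5 : v * (C (a / (2 * Lam g l (v * z₀ * R))) * z₀ + z) * R +
        v * (C (a / (2 * Lam g l (v * z₀ * R))) * z₀ + z) * R =
        (C (a / (2 * Lam g l (v * z₀ * R))) * (v * z₀ * R) +
          C (a / (2 * Lam g l (v * z₀ * R))) * (v * z₀ * R)) +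
          (v * z * R + v * z * R) := by ring
    rw [h5, Lam_add, Lam_add, Lam_C_mul]
    congr 1
    field_simp
    ring
  simp only [h4] at h3
  rw [← Finset.mul_sum] at h3
  have h6 : (ψ a - 1) * ∑ z ∈ Rad g l v n, ψ (Lam g l (v * z * R + v * z * R)) = 0 := by
    rw [sub_mul, one_mul, h3, sub_self]
  rcases mul_eq_zero.1 h6 with h8 | h8
  · exact absurd (sub_eq_zero.1 h8) ha
  · exact h8

lemma core (hB0 : S_B0 F) (h2 : (2 : F) ≠ 0) (ψ : AddChar F ℂ) (hψ : ψ ≠ 1) (g : ℕ)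
    (l : Fin g → F) (v R : F[X]) (n : ℕ) :
    ‖∑ u ∈ POL F n, ψ (Lam g l ((R + u) ^ 2 * v))‖ ^ 2 =
      ‖∑ z ∈ Rad g l v n, ψ (Lam g l (v * z * R + v * z * R))‖ * qq F ^ n := by
  set E : F[X] → ℂ := fun u => ψ (Lam g l ((R + u) ^ 2 * v)) with hE
  have h1 : ∀ u z : F[X], E (u + z) * (starRingEnd ℂ) (E u) =
      ψ (Lam g l (z ^ 2 * v + (v * z * R + v * z * R))) *
        ψ (Lam g l (v * z * u + v * z * u)) := by
    intro u z
    rw [hE]
    dsimp only
    rw [← AddChar.map_neg_eq_conj, ← AddChar.map_add_eq_mul, ← AddChar.map_add_eq_mul]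
    congr 1
    have h2 : (R + (u + z)) ^ 2 * v = (R + u) ^ 2 * v +
        (z ^ 2 * v + (v * z * R + v * z * R)) + (v * z * u + v * z * u) := by ring
    rw [h2, Lam_add, Lam_add]
    ring
  have h2' : (∑ u ∈ POL F n, E u) * (starRingEnd ℂ) (∑ u ∈ POL F n, E u) =
      ∑ z ∈ POL F n, ψ (Lam g l (z ^ 2 * v + (v * z * R + v * z * R))) *
        ∑ u ∈ POL F n, ψ (Lam g l (v * z * u + v * z * u)) := by
    rw [map_sum, Finset.sum_mul_sum, Finset.sum_comm]
    have h3 : ∀ u ∈ POL F n, ∑ w ∈ POL F n, E w * (starRingEnd ℂ) (E u) =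
        ∑ z ∈ POL F n, ψ (Lam g l (z ^ 2 * v + (v * z * R + v * z * R))) *
          ψ (Lam g l (v * z * u + v * z * u)) := by
      intro u hu
      rw [← sum_shift hB0 hu (fun w => E w * (starRingEnd ℂ) (E u))]
      exact Finset.sum_congr rfl fun z _ => h1 u z
    rw [Finset.sum_congr rfl h3, Finset.sum_comm]
    exact Finset.sum_congr rfl fun z _ => (Finset.mul_sum _ _ _).symm
  have h3 : (∑ u ∈ POL F n, E u) * (starRingEnd ℂ) (∑ u ∈ POL F n, E u) =
      (∑ z ∈ Rad g l v n, ψ (Lam g l (v * z * R + v * z * R))) *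
        ((Fintype.card F ^ n : ℕ) : ℂ) := by
    rw [h2', Finset.sum_mul]
    unfold Rad
    rw [Finset.sum_filter]
    refine Finset.sum_congr rfl fun z hz => ?_
    split_ifs with h
    · rw [inner1 hB0 ψ g l (v * z) n h, Lam_add,
        show z ^ 2 * v = v * z * z by ring, h z hz, zero_add]
    · rw [inner0 hB0 h2 ψ hψ g l (v * z) n h, mul_zero]
  have h4 : ‖∑ u ∈ POL F n, E u‖ ^ 2 =
      ‖(∑ u ∈ POL F n, E u) * (starRingEnd ℂ) (∑ u ∈ POL F n, E u)‖ := by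
    rw [norm_mul, RCLike.norm_conj, sq]
  have h6 : ‖((Fintype.card F ^ n : ℕ) : ℂ)‖ = qq F ^ n := by
    rw [Complex.norm_natCast]
    unfold qq
    rw [Nat.cast_pow]
  rw [h4, h3, norm_mul, h6]

lemma bound (hB0 : S_B0 F) (h2 : (2 : F) ≠ 0) (ψ : AddChar F ℂ) (hψ : ψ ≠ 1) (g : ℕ)
    (l : Fin g → F) (v R : F[X]) :
    ‖∑ u ∈ POL F (2 * g + 1), ψ (Lam g l ((R + u) ^ 2 * v))‖ ≤
      Real.sqrt (qq F ^ (2 * g + 1) * (KK g l v : ℝ)) := by
  refine Real.le_sqrt_of_sq_le ?_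
  rw [core hB0 h2 ψ hψ, mul_comm, kk_eq]
  refine mul_le_mul_of_nonneg_left ?_ (pow_nonneg (Nat.cast_nonneg _) _)
  refine (norm_sum_le _ _).trans (le_of_eq ?_)
  rw [Finset.sum_congr rfl fun z _ => AddChar.norm_apply ψ _, Finset.sum_const,
    nsmul_eq_mul, mul_one]

lemma vanish (hB0 : S_B0 F) (h2 : (2 : F) ≠ 0) (ψ : AddChar F ℂ) (hψ : ψ ≠ 1) (g : ℕ)
    (l : Fin g → F) (v R z : F[X]) (hz : z ∈ Rad g l v (2 * g + 1))
    (h : Lam g l (v * z * R) ≠ 0) :
    ∑ u ∈ POL F (2 * g + 1), ψ (Lam g l ((R + u) ^ 2 * v)) = 0 := by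
  have h1 := core hB0 h2 ψ hψ g l v R (2 * g + 1)
  rw [rad_sum hB0 h2 ψ hψ g l v R (2 * g + 1) (fun h3 => h (h3 z hz)), norm_zero, zero_mul] at h1
  exact norm_eq_zero.mp (pow_eq_zero_iff (two_ne_zero) |>.mp h1)

lemma split (hB0 : S_B0 F) (n : ℕ) (G : F[X] → ℂ) :
    ∑ m ∈ MON F (n + 1), G m =
      ∑ b : F, ∑ u ∈ POL F n, G ((X ^ (n + 1) + C b * X ^ n) + u) := by
  unfold MON
  rw [Finset.sum_image fun u _ w _ h => add_left_cancel h, ← Finset.sum_product']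
  refine Finset.sum_nbij' (fun w => (w.coeff n, w - C (w.coeff n) * X ^ n))
    (fun p => C p.1 * X ^ n + p.2) ?_ ?_ ?_ ?_ ?_
  · intro w hw
    rw [hB0.1, degree_lt_iff_coeff_zero] at hw
    refine Finset.mem_product.mpr ⟨Finset.mem_univ _, ?_⟩
    rw [hB0.1, degree_lt_iff_coeff_zero]
    intro m hm
    dsimp only
    rw [coeff_sub, coeff_C_mul, coeff_X_pow]
    by_cases hmn : m = n
    · rw [if_pos hmn, mul_one, hmn, sub_self]
    · rw [if_neg hmn, mul_zero, sub_zero]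
      exact hw m (by omega)
  · intro p hp
    have hp2 := (Finset.mem_product.mp hp).2
    rw [hB0.1, degree_lt_iff_coeff_zero] at hp2 ⊢
    intro m hm
    rw [coeff_add, coeff_C_mul, coeff_X_pow, if_neg (by omega), mul_zero, zero_add]
    exact hp2 m (by omega)
  · intro w _
    exact add_sub_cancel _ _
  · intro p hp
    have hp2 := (Finset.mem_product.mp hp).2
    rw [hB0.1, degree_lt_iff_coeff_zero] at hp2
    have h1 : (C p.1 * X ^ n + p.2).coeff n = p.1 := by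
      rw [coeff_add, coeff_C_mul, coeff_X_pow, if_pos rfl, mul_one, hp2 n le_rfl, add_zero]
    refine Prod.ext h1 ?_
    dsimp only
    rw [h1]
    exact add_sub_cancel_left _ _
  · intro w _
    refine congrArg G ?_
    dsimp only
    ring

/-- the case `c = 1` -/
lemma one (hB0 : S_B0 F) (hG : S_G F) (h2 : (2 : F) ≠ 0) (ψ : AddChar F ℂ) (hψ : ψ ≠ 1) (g : ℕ)
    (l : Fin g → F) (v : F[X]) (hv : v ∈ POL F g) (hv0 : v ≠ 0) :
    ‖∑ m ∈ MON F (2 * g + 2), ψ (Lam g l (m ^ 2 * v))‖ ≤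
      if Ex g l v then qq F * Real.sqrt (qq F ^ (2 * g + 1) * (KK g l v : ℝ))
        else qq F ^ (g + 1) := by
  rw [split hB0 (2 * g + 1) (fun m => ψ (Lam g l (m ^ 2 * v)))]
  by_cases hx : Ex g l v
  · rw [if_pos hx]
    refine (norm_sum_le _ _).trans ?_
    refine (Finset.sum_le_sum fun b _ => bound hB0 h2 ψ hψ g l v (X ^ (2 * g + 1 + 1) +
      C b * X ^ (2 * g + 1))).trans (le_of_eq ?_)
    rw [Finset.sum_const, nsmul_eq_mul, Finset.card_univ]
    rfl
  rw [if_neg hx]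
  obtain ⟨k, z₀, hK, hk, hz0, hzk⟩ := hG g l v hv hv0
  have hcard : (Rad g l v (2 * g + 1)).card = Fintype.card F ^ k := by rw [← kk_eq, hK]
  have hk1 : 1 ≤ k := by
    rw [Nat.one_le_iff_ne_zero]
    intro hk0
    apply hx
    rw [hk0, pow_zero, Finset.card_eq_one] at hcard
    obtain ⟨a, ha⟩ := hcard
    have h0 : (0 : F[X]) ∈ Rad g l v (2 * g + 1) := by
      unfold Rad
      rw [Finset.mem_filter]
      refine ⟨?_, fun y _ => by rw [mul_zero, zero_mul, Lam_zero]⟩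
      rw [hB0.1, degree_zero]
      exact WithBot.bot_lt_coe _
    intro z hz hz'
    have h1 : z ∈ Rad g l v (2 * g + 1) := Finset.mem_filter.mpr ⟨hz, hz'⟩
    rw [ha, Finset.mem_singleton] at h0 h1
    rw [h1, ← h0, mul_zero, zero_mul, Lam_zero]
  obtain ⟨hzP, hzL⟩ := hzk hk1
  -- the inclusion
  have hinc : ∀ p ∈ POL F k, z₀ * p ∈ Rad g l v (2 * g + 1) := by
    intro p hp
    by_cases hp0 : p = 0
    · rw [hp0, mul_zero]
      unfold Rad
      rw [Finset.mem_filter]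
      refine ⟨?_, fun y _ => by rw [mul_zero, zero_mul, Lam_zero]⟩
      rw [hB0.1, degree_zero]
      exact WithBot.bot_lt_coe _
    rw [hB0.1, ← natDegree_lt_iff_degree_lt hp0] at hp
    rw [hB0.1, ← natDegree_lt_iff_degree_lt hz0] at hzP
    unfold Rad
    rw [Finset.mem_filter]
    constructor
    · rw [hB0.1, ← natDegree_lt_iff_degree_lt (mul_ne_zero hz0 hp0), natDegree_mul hz0 hp0]
      omega
    · intro y hy
      rw [show v * (z₀ * p) * y = v * z₀ * (p * y) by ring]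
      refine lam_poly g l (v * z₀) (2 * g + k) hzL (p * y) ?_
      by_cases hy0 : y = 0
      · rw [hy0, mul_zero, degree_zero]
        exact WithBot.bot_lt_coe _
      rw [hB0.1, ← natDegree_lt_iff_degree_lt hy0] at hy
      rw [← natDegree_lt_iff_degree_lt (mul_ne_zero hp0 hy0), natDegree_mul hp0 hy0]
      omega
  have hall : ∀ z ∈ Rad g l v (2 * g + 1), ∃ p ∈ POL F k, z₀ * p = z := by
    have h1 : (POL F k).image (fun p => z₀ * p) = Rad g l v (2 * g + 1) := by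
      refine Finset.eq_of_subset_of_card_le ?_ ?_
      · intro z hz
        obtain ⟨p, hp, rfl⟩ := Finset.mem_image.mp hz
        exact hinc p hp
      · rw [hcard, Finset.card_image_of_injective _ (mul_right_injective₀ hz0), hB0.2.2.2.1]
    intro z hz
    rw [← h1] at hz
    obtain ⟨p, hp, hpz⟩ := Finset.mem_image.mp hz
    exact ⟨p, hp, hpz⟩
  have hL : Lam g l (v * z₀ * X ^ (2 * g + k)) ≠ 0 := by
    intro hL0
    apply hx
    intro z hz hz'
    have h1 : z ∈ Rad g l v (2 * g + 1) := Finset.mem_filter.mpr ⟨hz, hz'⟩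
    obtain ⟨p, hp, rfl⟩ := hall z h1
    rw [show v * (z₀ * p) * X ^ (2 * g + 1) = v * z₀ * (p * X ^ (2 * g + 1)) by ring]
    refine lam_poly g l (v * z₀) (2 * g + k + 1) (fun i hi => ?_) _ ?_
    · rcases Nat.lt_succ_iff_lt_or_eq.mp hi with h3 | h3
      · exact hzL i h3
      · rw [h3, hL0]
    · by_cases hp0 : p = 0
      · rw [hp0, zero_mul, degree_zero]
        exact WithBot.bot_lt_coe _
      rw [hB0.1, ← natDegree_lt_iff_degree_lt hp0] at hp
      rw [← natDegree_lt_iff_degree_lt (mul_ne_zero hp0 (pow_ne_zero _ X_ne_zero)),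
        natDegree_mul_X_pow _ hp0]
      omega
  have hq0 : 0 ≤ qq F := Nat.cast_nonneg _
  by_cases hk2 : 2 ≤ k
  · have hz : z₀ * X ^ (k - 2) ∈ Rad g l v (2 * g + 1) := by
      refine hinc _ ?_
      rw [hB0.1, degree_X_pow]
      exact_mod_cast (show k - 2 < k by omega)
    have h1 : ∀ b : F, ∑ u ∈ POL F (2 * g + 1), ψ (Lam g l ((X ^ (2 * g + 1 + 1) +
        C b * X ^ (2 * g + 1) + u) ^ 2 * v)) = 0 := by
      intro b
      refine vanish hB0 h2 ψ hψ g l v _ _ hz ?_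
      have e : v * (z₀ * X ^ (k - 2)) * (X ^ (2 * g + 1 + 1) + C b * X ^ (2 * g + 1)) =
          v * z₀ * X ^ (2 * g + k) + C b * (v * z₀ * X ^ (2 * g + k - 1)) := by
        obtain ⟨j, rfl⟩ : ∃ j, k = j + 2 := ⟨k - 2, by omega⟩
        have e1 : 2 * g + (j + 2) - 1 = 2 * g + 1 + j := by omega
        rw [e1, Nat.add_sub_cancel]
        ring
      rw [e, Lam_add, Lam_C_mul, hzL (2 * g + k - 1) (by omega), mul_zero, add_zero]
      exact hL
    rw [Finset.sum_eq_zero fun b _ => h1 b, norm_zero]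
    exact pow_nonneg hq0 _
  · have hk' : k = 1 := by omega
    subst hk'
    have hz : z₀ ∈ Rad g l v (2 * g + 1) := by
      have h3 := hinc 1 (by
        rw [hB0.1, degree_one]
        exact_mod_cast Nat.one_pos)
      rwa [mul_one] at h3
    obtain ⟨b₀, hb₀⟩ : ∃ b₀ : F, b₀ = - Lam g l (v * z₀ * X ^ (2 * g + 2)) /
      Lam g l (v * z₀ * X ^ (2 * g + 1)) := ⟨_, rfl⟩
    have h1 : ∀ b : F, b ≠ b₀ → ∑ u ∈ POL F (2 * g + 1), ψ (Lam g l ((X ^ (2 * g + 1 + 1) +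
        C b * X ^ (2 * g + 1) + u) ^ 2 * v)) = 0 := by
      intro b hb
      refine vanish hB0 h2 ψ hψ g l v _ _ hz ?_
      have e : v * z₀ * (X ^ (2 * g + 1 + 1) + C b * X ^ (2 * g + 1)) =
          v * z₀ * X ^ (2 * g + 2) + C b * (v * z₀ * X ^ (2 * g + 1)) := by ring
      rw [e, Lam_add, Lam_C_mul]
      intro h3
      apply hb
      rw [hb₀, eq_div_iff hL]
      linear_combination h3
    rw [Finset.sum_eq_single b₀ (fun b _ hb => h1 b hb) (fun h => absurd (Finset.mem_univ _) h)]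
    refine (bound hB0 h2 ψ hψ g l v _).trans ?_
    rw [hK]
    refine Real.sqrt_le_iff.mpr ⟨pow_nonneg hq0 _, le_of_eq ?_⟩
    unfold qq
    push_cast
    ring

end XI1

open XI1 in
/-- **I1** -/
theorem p_I1 (F : Type) [Field F] [Fintype F] [CharP F 5] (hB0 : S_B0 F) (hG : S_G F) :
    S_I1 F := by
  intro ψ hψ c hc g l v hv hv0
  obtain ⟨ψ', hψ'⟩ : ∃ ψ' : AddChar F ℂ, ∀ x, ψ' x = ψ (c ^ 2 * x) :=
    ⟨AddChar.mulShift ψ (c ^ 2), fun x => AddChar.mulShift_apply⟩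
  have h1 : ψ' ≠ 1 := by
    obtain ⟨a, ha⟩ := AddChar.ne_one_iff.1 hψ
    refine AddChar.ne_one_iff.2 ⟨a / c ^ 2, ?_⟩
    rw [hψ', mul_div_cancel₀ _ (pow_ne_zero 2 hc)]
    exact ha
  have h2 := one hB0 hG XX1.two_ne ψ' h1 g l v hv hv0
  have h3 : ∑ m ∈ MON F (2 * g + 2), ψ (Lam g l ((C c * m) ^ 2 * v)) =
      ∑ m ∈ MON F (2 * g + 2), ψ' (Lam g l (m ^ 2 * v)) := by
    refine Finset.sum_congr rfl fun m _ => ?_
    rw [hψ', ← XX1.Lam_C_mul]
    refine congrArg (fun w => ψ (Lam g l w)) ?_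
    rw [C_pow]
    ring
  rw [h3]
  exact h2

end D5
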