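import Pool.Agent.H506.D5.Stm5

open Polynomial
open scoped Classical

noncomputable section

namespace D5

namespace XI2

variable {F : Type} [Field F] [Fintype F]

omit [Fintype F] in
theorem map_sum' {ι : Type} (ψ : AddChar F ℂ) (s : Finset ι) (f : ι → F) :
    ψ (∑ i ∈ s, f i) = ∏ i ∈ s, ψ (f i) := by
  induction s using Finset.induction_on with
  | empty => rw [Finset.sum_empty, Finset.prod_empty, AddChar.map_zero_eq_one]
  | insert a s ha ih => rw [Finset.sum_insert ha, Finset.prod_insert ha, AddChar.map_add_eq_mul, ih]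

/-- orthogonality of the additive characters of `F ^ g` -/
theorem orth {ψ : AddChar F ℂ} (hψ : ψ ≠ 1) (g : ℕ) (A : Fin g → F) :
    ∑ l : Fin g → F, ψ (∑ j, l j * A j) =
      if ∀ j, A j = 0 then (Fintype.card F : ℂ) ^ g else 0 := by
  have h1 : ∀ l : Fin g → F, ψ (∑ j, l j * A j) = ∏ j, ψ (l j * A j) := fun l =>
    map_sum' ψ Finset.univ fun j => l j * A j
  have h2 : ∑ l : Fin g → F, ψ (∑ j, l j * A j) = ∏ j, ∑ t : F, ψ (t * A j) := by
    rw [Finset.prod_univ_sum (fun _ => Finset.univ) (fun j t => ψ (t * A j)),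
      Fintype.piFinset_univ]
    exact Finset.sum_congr rfl fun l _ => h1 l
  have hprim : ψ.IsPrimitive := AddChar.IsPrimitive.of_ne_one hψ
  have h3 : ∀ j, ∑ t : F, ψ (t * A j) = if A j = 0 then (Fintype.card F : ℂ) else 0 := by
    intro j
    rw [AddChar.sum_mulShift (A j) hprim]
    split_ifs
    · rfl
    · exact Nat.cast_zero
  rw [h2]
  simp_rw [h3]
  split_ifs with h
  · rw [Finset.prod_congr rfl (fun j _ => if_pos (h j)), Finset.prod_const, Finset.card_univ,
      Fintype.card_fin]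
  · push Not at h
    obtain ⟨j, hj⟩ := h
    exact Finset.prod_eq_zero (Finset.mem_univ j) (if_neg hj)

end XI2

open XI2 in
theorem p_I2 (F : Type) [Field F] [Fintype F] [CharP F 5] (hB0 : S_B0 F) (hB1 : S_B1 F)
    (hI1 : S_I1 F) : S_I2 F := by
  intro c hc g v hv hv0
  obtain ⟨hP, hMm, -, -, hM, -⟩ := hB0
  obtain ⟨-, -, hS, -, -⟩ := hB1
  obtain ⟨ψ, hψ⟩ : ∃ ψ : AddChar F ℂ, ψ ≠ 1 := by
    obtain ⟨ψ, hψ⟩ := (AddChar.exists_apply_ne_zero (α := F) (a := 1)).2 one_ne_zero
    exact ⟨ψ, fun h => hψ (by rw [h]; rfl)⟩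
  set A : F[X] → Fin g → F := fun f j =>
    ((C c * f) ^ 2 * v).coeff (5 * (j : ℕ) + 4) - (v.coeff (j : ℕ)) ^ 5 with hA
  set T : Finset F[X] := (MON F (2 * g + 2)).filter (fun f => ∀ j, A f j = 0) with hT
  have hvd : ∀ m, g ≤ m → v.coeff m = 0 := (degree_lt_iff_coeff_zero v g).1 ((hP g v).1 hv)
  have hTeq : (MON F (2 * g + 2)).filter (fun f => IsSol (C c * f) v) = T := by
    rw [hT]
    apply Finset.filter_congr
    intro f hf
    rw [hS]
    constructor
    · intro h j
      exact sub_eq_zero.2 (h j)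
    · intro h j
      by_cases hj : j < g
      · exact sub_eq_zero.1 (h ⟨j, hj⟩)
      · rw [hvd j (not_lt.1 hj), zero_pow (by norm_num)]
        have h1 : v.natDegree < g := (natDegree_lt_iff_degree_lt hv0).2 ((hP g v).1 hv)
        have h2 : f.natDegree = 2 * g + 2 := ((hMm _ f).1 hf).2
        have h2' : (C c * f).natDegree ≤ 2 * g + 2 := (natDegree_C_mul_le c f).trans h2.le
        have h3 : ((C c * f) ^ 2 * v).natDegree ≤ 2 * (C c * f).natDegree + v.natDegree :=
          natDegree_mul_le.trans (Nat.add_le_add_right natDegree_pow_le _)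
        exact coeff_eq_zero_of_natDegree_lt (by omega)
  have hcount : (Fintype.card F : ℂ) ^ g * (T.card : ℂ) =
      ∑ l : Fin g → F, ∑ f ∈ MON F (2 * g + 2), ψ (∑ j, l j * A f j) := by
    rw [Finset.sum_comm, Finset.sum_congr rfl (fun f _ => orth hψ g (A f)), ← Finset.sum_filter,
      Finset.sum_const, nsmul_eq_mul, mul_comm]
  have hterm : ∀ l : Fin g → F, ‖∑ f ∈ MON F (2 * g + 2), ψ (∑ j, l j * A f j)‖ =
      ‖∑ f ∈ MON F (2 * g + 2), ψ (Lam g l ((C c * f) ^ 2 * v))‖ := by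
    intro l
    have h1 : ∀ f : F[X], ψ (∑ j, l j * A f j) =
        ψ (Lam g l ((C c * f) ^ 2 * v)) * ψ (-(∑ j : Fin g, l j * v.coeff (j : ℕ) ^ 5)) := by
      intro f
      rw [← AddChar.map_add_eq_mul]
      congr 1
      unfold Lam
      rw [← sub_eq_add_neg, ← Finset.sum_sub_distrib]
      refine Finset.sum_congr rfl fun j _ => ?_
      simp only [hA]
      ring
    rw [Finset.sum_congr rfl (fun f _ => h1 f), ← Finset.sum_mul, norm_mul, AddChar.norm_apply,
      mul_one]
  have hle : ∀ l : Fin g → F, ‖∑ f ∈ MON F (2 * g + 2), ψ (∑ j, l j * A f j)‖ ≤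
      if Ex g l v then qq F * Real.sqrt (qq F ^ (2 * g + 1) * (KK g l v : ℝ)) else
        qq F ^ (g + 1) := by
    intro l
    rw [hterm l]
    exact hI1 ψ hψ c hc g l v hv hv0
  have hq0 : 0 ≤ qq F := Nat.cast_nonneg _
  have hsplit := Finset.sum_filter_add_sum_filter_not (Finset.univ : Finset (Fin g → F))
    (fun l => l ≠ 0) (fun l => ∑ f ∈ MON F (2 * g + 2), ψ (∑ j, l j * A f j))
  have hzero : ∑ l ∈ (Finset.univ : Finset (Fin g → F)).filter (fun l => ¬ l ≠ 0),
      ∑ f ∈ MON F (2 * g + 2), ψ (∑ j, l j * A f j) = (Fintype.card F : ℂ) ^ (2 * g + 2) := by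
    have h1 : (Finset.univ : Finset (Fin g → F)).filter (fun l => ¬ l ≠ 0) = {0} := by
      ext l
      simp only [Finset.mem_filter, Finset.mem_univ, true_and, not_not, Finset.mem_singleton]
    rw [h1, Finset.sum_singleton]
    have h2 : ∀ f ∈ MON F (2 * g + 2), ψ (∑ j, (0 : Fin g → F) j * A f j) = 1 := by
      intro f _
      have h3 : ∑ j, (0 : Fin g → F) j * A f j = 0 :=
        Finset.sum_eq_zero fun j _ => by rw [Pi.zero_apply, zero_mul]
      rw [h3, AddChar.map_zero_eq_one]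
    rw [Finset.sum_congr rfl h2, Finset.sum_const, nsmul_eq_mul, mul_one, hM]
    push_cast
    rfl
  rw [← hcount, hzero] at hsplit
  have hcardle : ∀ s : Finset (Fin g → F), (s.card : ℝ) ≤ qq F ^ g := by
    intro s
    have h1 : s.card ≤ Fintype.card F ^ g := by
      have h2 := Finset.card_le_univ s
      rwa [Fintype.card_fun, Fintype.card_fin] at h2
    unfold qq
    exact_mod_cast h1
  have hne : ‖∑ l ∈ (Finset.univ : Finset (Fin g → F)).filter (fun l => l ≠ 0),
      ∑ f ∈ MON F (2 * g + 2), ψ (∑ j, l j * A f j)‖ ≤ qq F ^ (2 * g + 1) +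
      qq F * ∑ l ∈ (Finset.univ : Finset (Fin g → F)).filter (fun l => l ≠ 0 ∧ Ex g l v),
        Real.sqrt (qq F ^ (2 * g + 1) * (KK g l v : ℝ)) := by
    refine (norm_sum_le _ _).trans ((Finset.sum_le_sum fun l _ => hle l).trans ?_)
    rw [Finset.sum_ite, Finset.filter_filter, ← Finset.mul_sum, Finset.sum_const, nsmul_eq_mul,
      add_comm]
    apply add_le_add _ le_rfl
    have h1 := mul_le_mul_of_nonneg_right (hcardle (((Finset.univ : Finset (Fin g → F)).filter
      (fun l => l ≠ 0)).filter (fun l => ¬ Ex g l v))) (pow_nonneg hq0 (g + 1))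
    refine h1.trans (le_of_eq ?_)
    rw [← pow_add]
    congr 1
    omega
  rw [hTeq]
  have h1 : ((qq F ^ g * (T.card : ℝ) - qq F ^ (2 * g + 2) : ℝ) : ℂ) =
      ∑ l ∈ (Finset.univ : Finset (Fin g → F)).filter (fun l => l ≠ 0),
        ∑ f ∈ MON F (2 * g + 2), ψ (∑ j, l j * A f j) := by
    unfold qq
    push_cast
    rw [← hsplit]
    ring
  rw [← h1, Complex.norm_real, Real.norm_eq_abs] at hne
  exact hne

end D5
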