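import Pool.Agent.H506.D5.Stm5

/-!
# Project D5 (helper506), I3 (helper898, after the files Z2 of helper687 and W2 of helper372): the first moment
-/

open Polynomial
open scoped Classical

set_option linter.unusedSectionVars false

noncomputable section

namespace D5

namespace XI3

variable {F : Type} [Field F] [Fintype F]

theorem comm_count {α β : Type} (s : Finset α) (t : Finset β) (r : α → β → Prop) :
    ∑ a ∈ s, ((t.filter (fun b => r a b)).card : ℝ) =
      ∑ b ∈ t, ((s.filter (fun a => r a b)).card : ℝ) := by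
  simp only [Finset.card_filter, Nat.cast_sum]
  exact Finset.sum_comm

theorem one_lt_qq : 1 < qq F := by
  unfold qq
  exact_mod_cast Fintype.one_lt_card

theorem isSol_zero (f : F[X]) : IsSol f 0 := by
  unfold IsSol d4
  simp

theorem coeff_top {c : F} {g : ℕ} {m v : F[X]} (hm : m.Monic) (hmd : m.natDegree = 2 * g + 2)
    (h0 : v ≠ 0) (hvg : v.natDegree = g) :
    ((C c * m) ^ 2 * v).coeff (5 * g + 4) = c ^ 2 * v.coeff g := by
  have e : (C c * m) ^ 2 * v = C (c ^ 2) * (m ^ 2 * v) := by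
    rw [C_pow]
    ring
  have h5 : (m ^ 2 * v).natDegree = 5 * g + 4 := by
    rw [(hm.pow 2).natDegree_mul' h0, hm.natDegree_pow, hmd, hvg]
    ring
  have h6 : (m ^ 2 * v).leadingCoeff = v.leadingCoeff := by
    rw [leadingCoeff_mul, (hm.pow 2).leadingCoeff, one_mul]
  rw [leadingCoeff, leadingCoeff, h5, hvg] at h6
  rw [e, coeff_C_mul, h6]

theorem mem_POL_of_sol [CharP F 5] (hB0 : ∀ n (g : F[X]), g ∈ POL F n ↔ g.degree < n)
    (hB3 : ∀ f v : F[X], IsSol f v ↔ ∀ j : ℕ, (f ^ 2 * v).coeff (5 * j + 4) = (v.coeff j) ^ 5)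
    (hB4 : ∀ f v : F[X], v ≠ 0 → IsSol f v → 2 * v.natDegree + 2 ≤ f.natDegree)
    {c : F} (hc : ¬ IsSquare c) {g : ℕ} {m : F[X]} (hm : m.Monic) (hmd : m.natDegree = 2 * g + 2)
    {v : F[X]} (hs : IsSol (C c * m) v) : v ∈ POL F g := by
  rw [hB0 g v]
  by_cases h0 : v = 0
  · rw [h0, degree_zero]
    exact WithBot.bot_lt_coe _
  have hc0 : c ≠ 0 := by
    rintro rfl
    exact hc ⟨0, by rw [mul_zero]⟩
  have h1 := hB4 _ v h0 hs
  rw [natDegree_C_mul hc0, hmd] at h1
  have h2 : v.natDegree < g := by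
    by_contra hge
    have hvg : v.natDegree = g := by omega
    have h3 := (hB3 _ v).1 hs g
    rw [coeff_top hm hmd h0 hvg] at h3
    have hx : v.coeff g ≠ 0 := by
      have h7 : v.leadingCoeff ≠ 0 := leadingCoeff_ne_zero.2 h0
      rwa [leadingCoeff, hvg] at h7
    generalize v.coeff g = x at h3 hx
    have h5 : (5 : F) = 0 := by
      have := CharP.cast_eq_zero F 5
      exact_mod_cast this
    have h8 : x * ((c - x ^ 2) * (c + x ^ 2)) = 0 := by linear_combination h3
    rcases mul_eq_zero.1 ((mul_eq_zero.1 h8).resolve_left hx) with h | h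
    · exact hc ⟨x, by linear_combination h⟩
    · exact hc ⟨2 * x, by linear_combination h - x ^ 2 * h5⟩
  exact (Polynomial.natDegree_lt_iff_degree_lt h0).1 h2

end XI3

open XI3 in
theorem p_I3 (F : Type) [Field F] [Fintype F] [CharP F 5] (hB0 : S_B0 F) (hB1 : S_B1 F)
    (hI2 : S_I2 F) (hZ1 : S_Z1 F) : S_I3 F := by
  obtain ⟨hP, hM, -, hcP, hcM, -⟩ := hB0
  obtain ⟨-, -, hB3, hB4, hB5⟩ := hB1
  intro c hc g hg
  have hc0 : c ≠ 0 := by
    rintro rfl
    exact hc ⟨0, by rw [mul_zero]⟩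
  have hq1 : 1 < qq F := one_lt_qq
  have hq0 : 0 < qq F := by linarith
  have hcard : ((Fintype.card F : ℕ) : ℝ) = qq F := rfl
  have hMc : ((MON F (2 * g + 2)).card : ℝ) = qq F ^ (2 * g + 2) := by
    rw [hcM]
    push_cast
    rfl
  have hz : (0 : F[X]) ∈ POL F g := by
    rw [hP g 0, degree_zero]
    exact WithBot.bot_lt_coe _
  -- the double count
  have h8 : ∑ m ∈ MON F (2 * g + 2), ((sol (C c * m)).card : ℝ) =
      qq F ^ (2 * g + 2) + ∑ v ∈ (POL F g).filter (fun v => v ≠ 0),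
        (((MON F (2 * g + 2)).filter (fun m => IsSol (C c * m) v)).card : ℝ) := by
    have h9 : ∑ m ∈ MON F (2 * g + 2), ((sol (C c * m)).card : ℝ) =
        ∑ m ∈ MON F (2 * g + 2), (((POL F g).filter (fun v => IsSol (C c * m) v)).card : ℝ) := by
      refine Finset.sum_congr rfl fun m hm => ?_
      obtain ⟨hm1, hm2⟩ := (hM _ m).1 hm
      have h1 : sol (C c * m) = (POL F g).filter (fun v => IsSol (C c * m) v) := by
        ext v
        rw [hB5, Finset.mem_filter]
        exact ⟨fun h => ⟨mem_POL_of_sol hP hB3 hB4 hc hm1 hm2 h, h⟩, fun h => h.2⟩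
      rw [h1]
    rw [h9, comm_count (MON F (2 * g + 2)) (POL F g) (fun m v => IsSol (C c * m) v)]
    have h2 : POL F g = insert 0 ((POL F g).filter (fun v => v ≠ 0)) := by
      rw [Finset.filter_ne', Finset.insert_erase hz]
    conv_lhs => rw [h2]
    rw [Finset.sum_insert (by simp)]
    congr 1
    rw [← hMc]
    congr 2
    exact Finset.filter_true_of_mem fun f _ => isSol_zero (C c * f)
  -- the number of `v ≠ 0`
  have hPc : (((POL F g).filter (fun v => v ≠ 0)).card : ℝ) = qq F ^ g - 1 := by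
    have h2 : ((POL F g).filter (fun v => v ≠ 0)).card + 1 = (POL F g).card := by
      rw [Finset.filter_ne']
      exact Finset.card_erase_add_one hz
    rw [hcP] at h2
    have h3 : (((POL F g).filter (fun v => v ≠ 0)).card : ℝ) + 1 = ((Fintype.card F : ℕ) : ℝ) ^ g := by
      exact_mod_cast h2
    rw [hcard] at h3
    linarith
  have hsq : Real.sqrt (qq F ^ (2 * g + 1)) = qq F ^ g * Real.sqrt (qq F) := by
    rw [pow_succ, Real.sqrt_mul (by positivity), mul_comm 2 g, pow_mul, Real.sqrt_sq (by positivity)]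
  have h7 := hZ1 g hg
  set A := ∑ v ∈ (POL F g).filter (fun v => v ≠ 0),
        (((MON F (2 * g + 2)).filter (fun m => IsSol (C c * m) v)).card : ℝ) with hA
  -- the bound of I2, summed
  have h10 : |qq F ^ g * A - (qq F ^ g - 1) * qq F ^ (2 * g + 2)| ≤
      (qq F ^ g - 1) * qq F ^ (2 * g + 1) +
        qq F * (qq F ^ g * Real.sqrt (qq F)) * (200000 * qq F ^ (2 * g)) := by
    have e1 : qq F ^ g * A - (qq F ^ g - 1) * qq F ^ (2 * g + 2) =
        ∑ v ∈ (POL F g).filter (fun v => v ≠ 0),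
          (qq F ^ g * (((MON F (2 * g + 2)).filter (fun m => IsSol (C c * m) v)).card : ℝ) -
            qq F ^ (2 * g + 2)) := by
      rw [Finset.sum_sub_distrib, Finset.sum_const, nsmul_eq_mul, hPc, ← Finset.mul_sum]
    rw [e1]
    refine (Finset.abs_sum_le_sum_abs _ _).trans ?_
    have h11 : ∑ v ∈ (POL F g).filter (fun v => v ≠ 0),
        |qq F ^ g * (((MON F (2 * g + 2)).filter (fun m => IsSol (C c * m) v)).card : ℝ) -
            qq F ^ (2 * g + 2)| ≤
        ∑ v ∈ (POL F g).filter (fun v => v ≠ 0), (qq F ^ (2 * g + 1) +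
          qq F * (qq F ^ g * Real.sqrt (qq F)) *
          ∑ l ∈ (Finset.univ : Finset (Fin g → F)).filter (fun l => l ≠ 0 ∧ Ex g l v),
            Real.sqrt (KK g l v : ℝ)) := by
      refine Finset.sum_le_sum fun v hv => ?_
      obtain ⟨hv1, hv2⟩ := Finset.mem_filter.1 hv
      have h12 := hI2 c hc0 g v hv1 hv2
      have h13 : ∑ l ∈ (Finset.univ : Finset (Fin g → F)).filter (fun l => l ≠ 0 ∧ Ex g l v),
          Real.sqrt (qq F ^ (2 * g + 1) * (KK g l v : ℝ)) = qq F ^ g * Real.sqrt (qq F) *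
          ∑ l ∈ (Finset.univ : Finset (Fin g → F)).filter (fun l => l ≠ 0 ∧ Ex g l v),
            Real.sqrt (KK g l v : ℝ) := by
        rw [Finset.mul_sum]
        refine Finset.sum_congr rfl fun l _ => ?_
        rw [Real.sqrt_mul (by positivity), hsq]
      rw [h13] at h12
      refine h12.trans (le_of_eq ?_)
      ring
    refine h11.trans ?_
    rw [Finset.sum_add_distrib, Finset.sum_const, nsmul_eq_mul, hPc, ← Finset.mul_sum]
    exact add_le_add le_rfl (mul_le_mul_of_nonneg_left h7 (by positivity))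
  -- the computation
  rw [h8]
  set s := Real.sqrt (qq F) with hs
  have hs1 : 1 ≤ s := by
    rw [hs, Real.one_le_sqrt]; exact hq1.le
  have hs0 : 0 < s := by linarith
  have hss : s * s = qq F := Real.mul_self_sqrt hq0.le
  have hX : 0 < qq F ^ g := by positivity
  have hY : 0 < qq F ^ (2 * g + 1) := by positivity
  have e0 : qq F ^ (2 * g + 2) = qq F ^ (2 * g + 1) * qq F := pow_succ _ _
  have e2 : 200002 * qq F ^ (2 * g + 2) / s = 200002 * (qq F ^ (2 * g + 1) * s) := by
    rw [div_eq_iff hs0.ne', e0, ← hss]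
    ring
  have e3 : qq F ^ (2 * g) * qq F = qq F ^ (2 * g + 1) := (pow_succ _ _).symm
  rw [e2]
  have h20 : qq F ^ (2 * g + 2) ≤ qq F ^ g * (qq F ^ (2 * g + 1) * s) := by
    have h21 : qq F ^ 1 ≤ qq F ^ g := pow_le_pow_right₀ hq1.le (by omega)
    rw [pow_one] at h21
    rw [e0]
    have h22 : qq F ^ (2 * g + 1) * qq F ≤ qq F ^ (2 * g + 1) * qq F ^ g :=
      mul_le_mul_of_nonneg_left h21 hY.le
    have h23 : qq F ^ (2 * g + 1) * qq F ^ g * 1 ≤ qq F ^ (2 * g + 1) * qq F ^ g * s :=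
      mul_le_mul_of_nonneg_left hs1 (by positivity)
    linarith
  have h24 : qq F ^ g * qq F ^ (2 * g + 1) * 1 ≤ qq F ^ g * qq F ^ (2 * g + 1) * s :=
    mul_le_mul_of_nonneg_left hs1 (by positivity)
  have h25 : qq F * (qq F ^ g * s) * (200000 * qq F ^ (2 * g)) =
      200000 * (qq F ^ g * (qq F ^ (2 * g + 1) * s)) := by
    rw [← e3]
    ring
  rw [h25] at h10
  rw [abs_le] at h10 ⊢
  obtain ⟨h26, h27⟩ := h10
  have hgoal1 : qq F ^ g * (-(200002 * (qq F ^ (2 * g + 1) * s))) ≤
      qq F ^ g * (A - qq F ^ (2 * g + 2)) := by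
    nlinarith
  have hgoal2 : qq F ^ g * (A - qq F ^ (2 * g + 2)) ≤
      qq F ^ g * (200002 * (qq F ^ (2 * g + 1) * s)) := by
    nlinarith
  have h28 := le_of_mul_le_mul_left hgoal1 hX
  have h29 := le_of_mul_le_mul_left hgoal2 hX
  constructor <;> linarith

end D5
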