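import Pool.Agent.H506.D5.Stm5
import Pool.Agent.H506.D5.W3
import Pool.Agent.H506.D5.W4

/-!
# I4: the contribution of the `m` which are not squarefree (helper722 for helper506)

Edit of the files W3 (the lemma `key` inside `p_W3`) and W4 (helper977).
-/

set_option autoImplicit false

open Polynomial
open scoped Classical

noncomputable section

namespace D5

namespace XI4

variable {F : Type} [Field F] [Fintype F] [CharP F 5]

theorem key (hB1 : S_B1 F) : ∀ (n : ℕ) (a h : F[X]), a.Monic → a.natDegree = n →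
    (sol (a ^ 2 * h)).card ≤ 5 ^ n * (sol h).card := by
  intro n
  induction n using Nat.strong_induction_on with
  | _ n ih =>
    intro a h ha hn
    rcases Nat.eq_zero_or_pos n with h0 | h0
    · have h1 : a = 1 := ha.natDegree_eq_zero.1 (by omega)
      rw [h0, h1, one_pow, one_mul, pow_zero, one_mul]
    · have hu : ¬ IsUnit a := by
        intro hu
        have h2 := ha.natDegree_eq_zero.2 (ha.eq_one_of_isUnit hu)
        omega
      obtain ⟨P, hPm, hPi, b, hb⟩ := exists_monic_irreducible_factor a hu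
      have hbm : b.Monic := hPm.of_mul_monic_left (hb ▸ ha)
      have hdeg : a.natDegree = P.natDegree + b.natDegree := by
        rw [hb]
        exact hPm.natDegree_mul hbm
      have hP1 : 1 ≤ P.natDegree := hPi.natDegree_pos
      have h3 : a ^ 2 * h = P ^ 2 * (b ^ 2 * h) := by
        rw [hb]
        ring
      have h4 := XW3.step hB1 hPi (b ^ 2 * h)
      have h5 := ih b.natDegree (by omega) b h hbm rfl
      rw [h3]
      calc (sol (P ^ 2 * (b ^ 2 * h))).card ≤ 5 * (sol (b ^ 2 * h)).card := h4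
        _ ≤ 5 * (5 ^ b.natDegree * (sol h).card) := Nat.mul_le_mul_left _ h5
        _ = 5 ^ (b.natDegree + 1) * (sol h).card := by rw [pow_succ]; ring
        _ ≤ 5 ^ n * (sol h).card := by
          refine Nat.mul_le_mul_right _ (Nat.pow_le_pow_right (by norm_num) ?_)
          omega

theorem sol_card (hB0 : S_B0 F) (hB1 : S_B1 F) (c : F) (hc : c ≠ 0) (k : ℕ) (h : F[X])
    (hh : h ∈ MON F (2 * k)) : ((sol (C c * h)).card : ℝ) ≤ qq F ^ k := by
  obtain ⟨hpol, hmon, -, hcp, hcm, -⟩ := hB0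
  obtain ⟨-, -, -, h4, h5⟩ := hB1
  have h1 : sol (C c * h) ⊆ POL F k := by
    intro v hv
    rw [h5] at hv
    rw [hpol]
    by_cases hv0 : v = 0
    · rw [hv0, degree_zero]
      exact WithBot.bot_lt_coe k
    · have h2 := h4 (C c * h) v hv0 hv
      rw [natDegree_C_mul hc, ((hmon _ _).mp hh).2] at h2
      rw [← natDegree_lt_iff_degree_lt hv0]
      omega
  have h2 := Finset.card_le_card h1
  rw [hcp] at h2
  unfold qq
  exact_mod_cast h2

theorem cov (hB0 : S_B0 F) (hSQ : S_SQ F) (G : ℕ) :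
    ∀ f ∈ (MON F (2 * G)).filter (fun f => ¬ Squarefree f),
      ∃ p ∈ (Finset.Icc 1 G).sigma (fun m => MON F m ×ˢ MON F (2 * (G - m))),
        p.2.1 ^ 2 * p.2.2 = f := by
  obtain ⟨hpol, hmon, -, hcp, hcm, -⟩ := hB0
  intro f hf
  rw [Finset.mem_filter, hmon] at hf
  obtain ⟨⟨hfm, hfd⟩, hns⟩ := hf
  obtain ⟨a, b, ha, hb0, hbs, hab⟩ := hSQ f hfm.ne_zero
  have hbm : b.Monic := Monic.of_mul_monic_left (ha.pow 2) (by rw [← hab]; exact hfm)
  have hdeg : 2 * a.natDegree + b.natDegree = 2 * G := by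
    rw [← hfd, hab, (ha.pow 2).natDegree_mul hbm, natDegree_pow]
  have ha1 : 1 ≤ a.natDegree := by
    rw [Nat.one_le_iff_ne_zero]
    intro h0
    have h1 : a = 1 := ha.natDegree_eq_zero.mp h0
    apply hns
    rw [hab, h1, one_pow, one_mul]
    exact hbs
  refine ⟨⟨a.natDegree, (a, b)⟩, ?_, hab.symm⟩
  rw [Finset.mem_sigma, Finset.mem_Icc, Finset.mem_product, hmon, hmon]
  have e1 : a.natDegree ≤ G := by omega
  have e2 : b.natDegree = 2 * (G - a.natDegree) := by omega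
  exact ⟨⟨ha1, e1⟩, ⟨ha, rfl⟩, hbm, e2⟩

theorem term (hB0 : S_B0 F) (hB1 : S_B1 F) (hI3 : S_I3 F) (c : F) (hc : ¬ IsSquare c) (r : ℝ)
    (hr5 : 5 ≤ r) (hrq : r ^ 2 = qq F) (hrs : Real.sqrt (qq F) = r) (G m : ℕ) (hmG : m ≤ G)
    (hG : 121 ≤ G) :
    ∑ p ∈ MON F m ×ˢ MON F (2 * (G - m)), ((sol (C c * (p.1 ^ 2 * p.2))).card : ℝ) ≤
      40003 * qq F ^ (2 * G) * (5 / qq F) ^ m + (if G - m < 41 then r ^ (4 * G - 1) else 0) := by
  obtain ⟨hpol, hmon, -, hcp, hcm, -⟩ := id hB0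
  have hc0 : c ≠ 0 := fun h => hc (h ▸ IsSquare.zero)
  have hq0 : 0 < qq F := by rw [← hrq]; positivity
  obtain ⟨T, hT⟩ : ∃ T : ℝ, T = ∑ h ∈ MON F (2 * (G - m)), ((sol (C c * h)).card : ℝ) := ⟨_, rfl⟩
  have hT0 : 0 ≤ T := by
    rw [hT]
    exact Finset.sum_nonneg fun _ _ => Nat.cast_nonneg _
  have h1 : ∑ p ∈ MON F m ×ˢ MON F (2 * (G - m)), ((sol (C c * (p.1 ^ 2 * p.2))).card : ℝ) ≤
      5 ^ m * qq F ^ m * T := by
    calc ∑ p ∈ MON F m ×ˢ MON F (2 * (G - m)), ((sol (C c * (p.1 ^ 2 * p.2))).card : ℝ)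
        ≤ ∑ p ∈ MON F m ×ˢ MON F (2 * (G - m)), 5 ^ m * ((sol (C c * p.2)).card : ℝ) := by
          refine Finset.sum_le_sum fun p hp => ?_
          rw [Finset.mem_product, hmon, hmon] at hp
          have h2 := key hB1 m p.1 (C c * p.2) hp.1.1 hp.1.2
          have h3 : p.1 ^ 2 * (C c * p.2) = C c * (p.1 ^ 2 * p.2) := by ring
          rw [h3] at h2
          exact_mod_cast h2
      _ = ∑ a ∈ MON F m, ∑ h ∈ MON F (2 * (G - m)), 5 ^ m * ((sol (C c * h)).card : ℝ) := by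
          rw [Finset.sum_product]
      _ = 5 ^ m * qq F ^ m * T := by
          rw [Finset.sum_const, nsmul_eq_mul, hcm, ← Finset.mul_sum, ← hT]
          unfold qq
          push_cast
          ring
  refine h1.trans ?_
  by_cases hk : G - m < 41
  · rw [if_pos hk]
    have h2 : T ≤ qq F ^ (2 * (G - m)) * qq F ^ (G - m) := by
      rw [hT]
      calc ∑ h ∈ MON F (2 * (G - m)), ((sol (C c * h)).card : ℝ)
          ≤ ∑ h ∈ MON F (2 * (G - m)), qq F ^ (G - m) :=
            Finset.sum_le_sum fun h hh => sol_card hB0 hB1 c hc0 (G - m) h hh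
        _ = qq F ^ (2 * (G - m)) * qq F ^ (G - m) := by
            rw [Finset.sum_const, nsmul_eq_mul, hcm]
            unfold qq
            push_cast
            ring
    have h3 : (5 : ℝ) ^ m ≤ r ^ m := pow_le_pow_left₀ (by norm_num) hr5 m
    have h4 : 5 ^ m * qq F ^ m * T ≤ r ^ (4 * G - 1) := by
      calc 5 ^ m * qq F ^ m * T ≤ r ^ m * qq F ^ m * (qq F ^ (2 * (G - m)) * qq F ^ (G - m)) :=
            mul_le_mul (mul_le_mul_of_nonneg_right h3 (by positivity)) h2 hT0 (by positivity)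
        _ = r ^ (3 * m + 6 * (G - m)) := by
            rw [← hrq, ← pow_mul, ← pow_mul, ← pow_mul, ← pow_add, ← pow_add, ← pow_add]
            congr 1
            ring
        _ ≤ r ^ (4 * G - 1) := pow_le_pow_right₀ (by linarith) (by omega)
    have h5 : 0 ≤ 40003 * qq F ^ (2 * G) * (5 / qq F) ^ m := by positivity
    linarith
  · rw [if_neg hk, add_zero]
    obtain ⟨g', hg'⟩ : ∃ g', G - m = g' + 1 := ⟨G - m - 1, by omega⟩
    have h2 := hI3 c hc g' (by omega)
    have e1 : 2 * g' + 2 = 2 * (G - m) := by omega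
    rw [e1, ← hT, hrs] at h2
    have h2' := (abs_le.mp h2).2
    have hQ : 0 < qq F ^ (2 * (G - m)) := by positivity
    have h3 : 200002 * qq F ^ (2 * (G - m)) / r ≤ 40001 * qq F ^ (2 * (G - m)) := by
      rw [div_le_iff₀ (by linarith)]
      nlinarith
    have h4 : T ≤ qq F ^ (2 * (G - m)) * 40003 := by linarith
    have h5 : qq F ^ (2 * G) = qq F ^ (2 * (G - m)) * qq F ^ m * qq F ^ m := by
      rw [← pow_add, ← pow_add]
      congr 1
      omega
    calc 5 ^ m * qq F ^ m * T ≤ 5 ^ m * qq F ^ m * (qq F ^ (2 * (G - m)) * 40003) :=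
          mul_le_mul_of_nonneg_left h4 (by positivity)
      _ = 40003 * qq F ^ (2 * G) * (5 / qq F) ^ m := by
          rw [h5, div_pow]
          field_simp

end XI4

open XI4 in
theorem p_I4 (F : Type) [Field F] [Fintype F] [CharP F 5] (hB0 : S_B0 F) (hB1 : S_B1 F)
    (hSQ : S_SQ F) (hI3 : S_I3 F) : S_I4 F := by
  intro c hc hq g hg
  have hq25 : (25 : ℝ) ≤ qq F := by
    unfold qq
    exact_mod_cast hq
  obtain ⟨r, hr⟩ : ∃ r : ℝ, r = Real.sqrt (qq F) := ⟨_, rfl⟩
  have hrq : r ^ 2 = qq F := by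
    rw [hr]
    exact Real.sq_sqrt (by linarith)
  have hr5 : 5 ≤ r := by
    rw [hr]
    apply Real.le_sqrt_of_sq_le
    linarith
  have hr0 : 0 < r := by linarith
  have hq0 : 0 < qq F := by linarith
  rw [← hr]
  obtain ⟨G, hG⟩ : ∃ G, G = g + 1 := ⟨_, rfl⟩
  have e1 : 2 * g + 2 = 2 * G := by omega
  rw [e1]
  have h1 : ∑ f ∈ (MON F (2 * G)).filter (fun f => ¬ Squarefree f), ((sol (C c * f)).card : ℝ) ≤
      ∑ m ∈ Finset.Icc 1 G, ∑ p ∈ MON F m ×ˢ MON F (2 * (G - m)),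
        ((sol (C c * (p.1 ^ 2 * p.2))).card : ℝ) := by
    have h2 := XW4.sum_le_of_cover ((MON F (2 * G)).filter (fun f => ¬ Squarefree f))
      ((Finset.Icc 1 G).sigma (fun m => MON F m ×ˢ MON F (2 * (G - m))))
      (fun p => p.2.1 ^ 2 * p.2.2) (fun f => ((sol (C c * f)).card : ℝ)) (fun _ => Nat.cast_nonneg _)
      (cov hB0 hSQ G)
    rw [Finset.sum_sigma] at h2
    exact h2
  have h2 : ∑ m ∈ Finset.Icc 1 G, ∑ p ∈ MON F m ×ˢ MON F (2 * (G - m)),
        ((sol (C c * (p.1 ^ 2 * p.2))).card : ℝ) ≤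
      ∑ m ∈ Finset.Icc 1 G, (40003 * qq F ^ (2 * G) * (5 / qq F) ^ m +
        (if G - m < 41 then r ^ (4 * G - 1) else 0)) :=
    Finset.sum_le_sum fun m hm => term hB0 hB1 hI3 c hc r hr5 hrq hr.symm G m
      (Finset.mem_Icc.mp hm).2 (by omega)
  have h3 : ∑ m ∈ Finset.Icc 1 G, (5 / qq F) ^ m ≤ 5 / 4 * (1 / r) := by
    have h4 : 5 / qq F ≤ 1 / r := by
      rw [← hrq, div_le_div_iff₀ (by positivity) hr0]
      nlinarith
    have h5 : 5 / qq F ≤ 1 / 5 := by
      rw [div_le_div_iff₀ hq0 (by norm_num)]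
      linarith
    have h6 := XW4.geo (5 / qq F) (by positivity) h5 G
    have h7 : (0 : ℝ) ≤ (1 / 5) ^ G := by positivity
    have h8 : 0 ≤ 5 / qq F := by positivity
    have h9 : 5 / 4 * (5 / qq F) * (1 - (1 / 5) ^ G) ≤ 5 / 4 * (5 / qq F) * 1 :=
      mul_le_mul_of_nonneg_left (by linarith) (by positivity)
    linarith
  have h4 : ∑ m ∈ Finset.Icc 1 G, (if G - m < 41 then r ^ (4 * G - 1) else 0) ≤
      41 * r ^ (4 * G - 1) := by
    rw [← Finset.sum_filter, Finset.sum_const, nsmul_eq_mul]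
    refine mul_le_mul_of_nonneg_right ?_ (by positivity)
    have h5 : (Finset.Icc 1 G).filter (fun m => G - m < 41) ⊆ Finset.Ioc (G - 41) G := by
      intro m hm
      rw [Finset.mem_filter, Finset.mem_Icc] at hm
      rw [Finset.mem_Ioc]
      omega
    have h6 := Finset.card_le_card h5
    rw [Nat.card_Ioc] at h6
    have h7 : ((Finset.Icc 1 G).filter (fun m => G - m < 41)).card ≤ 41 := by omega
    exact_mod_cast h7
  have h5 : qq F ^ (2 * G) / r = r ^ (4 * G - 1) := by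
    rw [← hrq, ← pow_mul, div_eq_iff hr0.ne', ← pow_succ]
    congr 1
    omega
  have hQ0 : 0 ≤ r ^ (4 * G - 1) := by positivity
  have h6 : qq F ^ (2 * G) * (1 / r) = r ^ (4 * G - 1) := by
    rw [← h5]
    ring
  refine (h1.trans h2).trans ?_
  rw [Finset.sum_add_distrib, ← Finset.mul_sum, mul_div_assoc, h5]
  have h7 : 40003 * qq F ^ (2 * G) * ∑ m ∈ Finset.Icc 1 G, (5 / qq F) ^ m ≤
      40003 * qq F ^ (2 * G) * (5 / 4 * (1 / r)) :=
    mul_le_mul_of_nonneg_left h3 (by positivity)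
  have h8 : 40003 * qq F ^ (2 * G) * (5 / 4 * (1 / r)) = 50003.75 * r ^ (4 * G - 1) := by
    rw [← h6]
    ring
  linarith

end D5
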