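import Pool.Agent.H506.D5.Stm5
import Pool.Agent.H506.D5.F5

/-! # I5: the number of monic squarefree polynomials of degree `2 g + 2` -/

open Polynomial
open scoped Classical

noncomputable section

namespace D5

open XF5

theorem p_I5 (F : Type) [Field F] [Fintype F] [CharP F 5] (hB0 : S_B0 F) (hMU : S_MU F) :
    S_I5 F := by
  intro k
  have h1 := sieve F hB0 hMU (2 * k + 2) (k + 1) (fun _ => 1) (by omega)
  rw [Finset.sum_const, nsmul_eq_mul, mul_one] at h1
  rw [h1]
  have h2 : ∀ w ∈ Finset.range (k + 1 + 1), ∑ W ∈ MON F w,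
      moeb W * ∑ f ∈ (MON F (2 * k + 2)).filter (fun f => W ^ 2 ∣ f), (1 : ℝ) =
      (if w = 0 then 1 else if w = 1 then - qq F else 0) * qq F ^ (2 * k + 2 - 2 * w) := by
    intro w hw
    rw [Finset.mem_range] at hw
    have h3 : ∀ W ∈ MON F w, moeb W * ∑ f ∈ (MON F (2 * k + 2)).filter (fun f => W ^ 2 ∣ f), (1 : ℝ) =
        moeb W * qq F ^ (2 * k + 2 - 2 * w) := by
      intro W hW
      rw [Finset.sum_const, nsmul_eq_mul, mul_one, card_mult F hB0 (by omega) hW, Nat.cast_pow]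
      rfl
    rw [Finset.sum_congr rfl h3, ← Finset.sum_mul, hMU.2.2.2.2.2 w]
  rw [Finset.sum_congr rfl h2]
  rw [Finset.sum_range_succ', Finset.sum_range_succ']
  have h4 : ∑ x ∈ Finset.range k, (if x + 1 + 1 = 0 then (1 : ℝ) else if x + 1 + 1 = 1 then - qq F
      else 0) * qq F ^ (2 * k + 2 - 2 * (x + 1 + 1)) = 0 := by
    refine Finset.sum_eq_zero fun x _ => ?_
    rw [if_neg (by omega), if_neg (by omega), zero_mul]
  rw [h4]
  have h5 : 2 * k + 2 - 2 * (0 + 1) = 2 * k := by omega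
  have h6 : 2 * k + 2 - 2 * 0 = 2 * k + 2 := by omega
  rw [h5, h6]
  simp only [zero_add, one_ne_zero, if_false, if_true, one_mul]
  ring

end D5
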