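import Pool.Agent.H506.D5.All4
import Pool.Agent.H506.D5.Fin5
import Pool.Agent.H506.D5.I0
import Pool.Agent.H506.D5.I1
import Pool.Agent.H506.D5.I2
import Pool.Agent.H506.D5.I3
import Pool.Agent.H506.D5.I4
import Pool.Agent.H506.D5.I5

/-!
# The inert case: assembly
-/

open Polynomial
open scoped Classical

noncomputable section

namespace D5

theorem I3F (F : Type) [Field F] [Fintype F] [CharP F 5] : S_I3 F := by
  have hB0 := p_B0 F
  have hB1 := p_B1 F hB0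
  have hE4 := p_E4 F hB0
  have hH1 := p_H1 F hB0
  have hH2 := p_H2 F hB0
  have hH3 := p_H3 F hB0 hH1 hH2
  have hG := p_G F hB0 hE4 hH3
  have hI1 := p_I1 F hB0 hG
  have hI2 := p_I2 F hB0 hB1 hI1
  exact p_I3 F hB0 hB1 hI2 (Z1F F)

theorem I4F (F : Type) [Field F] [Fintype F] [CharP F 5] : S_I4 F := by
  have hB0 := p_B0 F
  have hB1 := p_B1 F hB0
  exact p_I4 F hB0 hB1 (p_SQ F) (I3F F)

theorem I5F (F : Type) [Field F] [Fintype F] [CharP F 5] : S_I5 F := by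
  have hB0 := p_B0 F
  exact p_I5 F hB0 (p_MU F hB0)

theorem upperI (F : Type) [Field F] [Fintype F] [CharP F 5] (c : F) (hc : ¬ IsSquare c) : ∀ g : ℕ, 40 ≤ g →
    ∑ m ∈ SQF F (2 * g + 2), (cl5 (C c * m) : ℝ) ≤ (2 + 300000 / Real.sqrt (qq F)) * ((SQF F (2 * g + 2)).card : ℝ) :=
  upper5 F (p_I0 F) (I3F F) (I5F F) c hc

theorem lowerI (F : Type) [Field F] [Fintype F] [CharP F 5] (c : F) (hc : ¬ IsSquare c) : ∀ g : ℕ, 120 ≤ g →
    (2 - 300000 / Real.sqrt (qq F)) * ((SQF F (2 * g + 2)).card : ℝ) ≤ ∑ m ∈ SQF F (2 * g + 2), (cl5 (C c * m) : ℝ) :=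
  lower5 F (p_I0 F) (I3F F) (I4F F) (I5F F) c hc

end D5
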