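import Mathlib

/-!
# Class groups of quadratic function fields in characteristic 5: definitions

`F` is a finite field of characteristic 5, `q = #F`.  For `f ∈ F[X]` the order `OO f = F[X][s]`, `s ^ 2 = f`,
is `QuadraticAlgebra F[X] f 0`; an element is `⟨a, b⟩ = a + b s`.
(The set-up and the characteristic 3 version are due to helper463, `Pool.Agent.H463.DH`.)
-/

open Polynomial
open scoped Classical

noncomputable section

namespace D5

/-- The polynomials of degree `< n` (a finite set). -/
def POL (F : Type) [Field F] [Fintype F] (n : ℕ) : Finset F[X] :=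
  (Finset.univ : Finset (Fin n → F)).image (fun c => ∑ i : Fin n, C (c i) * X ^ (i : ℕ))

/-- The monic polynomials of degree `n`. -/
def MON (F : Type) [Field F] [Fintype F] (n : ℕ) : Finset F[X] :=
  (POL F n).image (fun g => X ^ n + g)

/-- The nonzero polynomials of degree exactly `d`. -/
def DEG (F : Type) [Field F] [Fintype F] (d : ℕ) : Finset F[X] :=
  (POL F (d + 1)).filter (fun v => v ≠ 0 ∧ v.natDegree = d)

/-- The monic squarefree polynomials of degree `n`. -/
def SQF (F : Type) [Field F] [Fintype F] (n : ℕ) : Finset F[X] :=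
  (MON F n).filter (fun f => Squarefree f)

/-- `q = #F` as a real number. -/
def qq (F : Type) [Fintype F] : ℝ := (Fintype.card F : ℝ)

/-- The fourth derivative. -/
def d4 {F : Type} [Field F] (G : F[X]) : F[X] := derivative (derivative (derivative (derivative G)))

/-- The equation `(f ^ 2 v)'''' = - v ^ 5`. -/
def IsSol {F : Type} [Field F] (f v : F[X]) : Prop := d4 (f ^ 2 * v) = - v ^ 5

/-- All solutions `v` of `(f ^ 2 v)'''' = - v ^ 5` (including `v = 0`). -/
def sol {F : Type} [Field F] [Fintype F] (f : F[X]) : Finset F[X] :=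
  (POL F f.natDegree).filter (fun v => IsSol f v)

/-- The ring `F[X][s]`, `s ^ 2 = f`; the element `a + b s` is `⟨a, b⟩`. -/
abbrev OO {F : Type} [Field F] (f : F[X]) : Type := QuadraticAlgebra F[X] f 0

/-- The derivation `δ (a + b s) = (b' f + 3 b f') + a' s` of `OO f` (characteristic 5: `δ X = s`, `δ s = f' / 2 = 3 f'`). -/
def dl {F : Type} [Field F] (f : F[X]) (x : OO f) : OO f :=
  ⟨derivative x.im * f + 3 * (x.im * derivative f), derivative x.re⟩

/-- The polynomial `v` as an element of `OO f`. -/
def cc {F : Type} [Field F] (f v : F[X]) : OO f := ⟨v, 0⟩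

/-- monic, squarefree, of odd degree. -/
def Good {F : Type} [Field F] (f : F[X]) : Prop := f.Monic ∧ Squarefree f ∧ Odd f.natDegree

/-- The number of ideal classes `c` of the domain `OO f` with `c ^ 5 = 1`
(the value `0` if `OO f` is not a domain is never used: `OO f` is a Dedekind domain for `f` squarefree of odd degree). -/
def cl5 {F : Type} [Field F] (f : F[X]) : ℕ :=
  if _h : IsDomain (OO f) then Nat.card {c : ClassGroup (OO f) // c ^ 5 = 1} else 0

/-- The class number of `OO f` (`0` if it is not a domain). -/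
def cln {F : Type} [Field F] (f : F[X]) : ℕ :=
  if _h : IsDomain (OO f) then Nat.card (ClassGroup (OO f)) else 0

/-! ### The analytic part -/

/-- The linear form `∑_{j < g} l_j w_{5 j + 4}` in the coefficients of the polynomial `w`. -/
def Lam {F : Type} [Field F] (g : ℕ) (l : Fin g → F) (w : F[X]) : F :=
  ∑ j : Fin g, l j * w.coeff (5 * (j : ℕ) + 4)

/-- The linear form `∑_{j < g} l_j P_j` in the coefficients of the polynomial `P`. -/
def mu {F : Type} [Field F] (g : ℕ) (l : Fin g → F) (P : F[X]) : F :=
  ∑ j : Fin g, l j * P.coeff (j : ℕ)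

/-- The number of `z` of degree `≤ 2 g` with `Lam (v z y) = 0` for all `y` of degree `≤ 2 g`
(the radical of the quadratic form `f ↦ Lam (v f ^ 2)`). -/
def KK {F : Type} [Field F] [Fintype F] (g : ℕ) (l : Fin g → F) (v : F[X]) : ℕ :=
  ((POL F (2 * g + 1)).filter (fun z => ∀ y ∈ POL F (2 * g + 1), Lam g l (v * z * y) = 0)).card

/-- The `w` of degree `< 3 g` with `Lam (w y) = 0` for all `y` of degree `≤ 2 g`. -/
def WW {F : Type} [Field F] [Fintype F] (g : ℕ) (l : Fin g → F) : Finset F[X] :=
  (POL F (3 * g)).filter (fun w => ∀ y ∈ POL F (2 * g + 1), Lam g l (w * y) = 0)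

/-- The Hankel kernel: the `P` of degree `< J` with `mu (X ^ i P) = 0` for all `i < K`. -/
def HK {F : Type} [Field F] [Fintype F] (g : ℕ) (l : Fin g → F) (J K : ℕ) : Finset F[X] :=
  (POL F J).filter (fun P => ∀ i, i < K → mu g l (X ^ i * P) = 0)

/-- There is a nonzero `B` of degree `≤ r` with `mu (X ^ i B) = 0` for all `i < g - r`. -/
def Ann {F : Type} [Field F] (g : ℕ) (l : Fin g → F) (r : ℕ) : Prop :=
  ∃ B : F[X], B ≠ 0 ∧ B.natDegree ≤ r ∧ ∀ i, i + r < g → mu g l (X ^ i * B) = 0

/-- The rank of `l`: the smallest `r` with `Ann g l r`. -/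
def rr {F : Type} [Field F] (g : ℕ) (l : Fin g → F) : ℕ := sInf {r : ℕ | Ann g l r}

/-- The number of factorizations `w = v z`, `deg v < g`, `deg z ≤ 2 g`. -/
def fac {F : Type} [Field F] [Fintype F] (g : ℕ) (w : F[X]) : ℕ :=
  ((POL F g ×ˢ POL F (2 * g + 1)).filter (fun p => p.1 * p.2 = w)).card

end D5
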