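import Pool.Agent.H506.D5.Stm5

/-!
# Project D5, sixth part: all imaginary extensions, without normalization of the leading coefficient
-/

open Polynomial
open scoped Classical

noncomputable section

namespace D5

variable (F : Type) [Field F] [Fintype F] [CharP F 5]

/-- **J0** (edit of the file I0) `#Cl[5] = #sol f` for squarefree `f` of degree `≥ 1` such that the degree is odd or the leading coefficient is not a square.
Proof: the file I0 (helper264) works with `GI f := Squarefree f ∧ 1 ≤ f.natDegree ∧ ¬ IsSquare f.leadingCoeff`, and uses the third condition only in `unit_im`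
(`a² - f b² = e ∈ F` implies `b = 0`); replace it by `Odd f.natDegree ∨ ¬ IsSquare f.leadingCoeff`: if the degree of `f` is odd and `b ≠ 0` then `a²` and `f b²` have degrees of different
parity, so the degree of the difference is at least the degree of `f b²`, `≥ 1`. -/
def S_J0 : Prop :=
  ∀ f : F[X], Squarefree f → 1 ≤ f.natDegree → (Odd f.natDegree ∨ ¬ IsSquare f.leadingCoeff) → cl5 f = (sol f).card

/-- **J1** (uses B0, B1) the substitution `t ↦ c t`.
Proof: `n = 2 g + 1`, `e = c ^ (g+1)`.  The map `m ↦ m₁ := C (c ^ n)⁻¹ * m.comp (C c * X)` is a bijection of `SQF F n` (inverse: `C (c ^ n) * m.comp (C c⁻¹ * X)`), and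
`(C c * m).comp (C c * X) = C (e ^ 2) * m₁`.  `#sol (C c * m) = #sol m₁`: if `IsSol f v`, then with `f₁ = f.comp (C c * X)`, `w = C c * v.comp (C c * X)` one has `IsSol f₁ w`
(`(P.comp (C c * X))'''' = C (c ^ 4) * P''''.comp (C c * X)`: `(f₁² w)'''' = c c⁴ (- v⁵).comp = - w ^ 5`), and for `f₁ = C (e ^ 2) * m₁`, `w = C e * y`: `IsSol (C (e ^ 2) * m₁) w ↔ IsSol m₁ y`
(no: `(e⁴ m₁² e y)'''' = e ^ 5 (m₁² y)''''` and `- w ^ 5 = - e ^ 5 y ^ 5`).  So `v ↦ C (e⁻¹ * c) * v.comp (C c * X)` is a bijection of `sol (C c * m)` and `sol m₁` (B1 (5): `v ∈ sol f ↔ IsSol f v`). -/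
def S_J1 : Prop :=
  ∀ (c : F), c ≠ 0 → ∀ g : ℕ,
    ∑ m ∈ SQF F (2 * g + 1), ((sol (C c * m)).card : ℝ) = ∑ m ∈ SQF F (2 * g + 1), ((sol m).card : ℝ)

end D5
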