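import Pool.Agent.H506.D5.Fin5
import Pool.Agent.H506.D5.Stm6

/-!
# All leading coefficients
-/

open Polynomial
open scoped Classical

noncomputable section

namespace D5

/-- Odd degree: the sum of `#Cl[5]` does not depend on the leading coefficient. -/
theorem odd_c (F : Type) [Field F] [Fintype F] [CharP F 5] (hJ0 : S_J0 F) (hJ1 : S_J1 F) (c : F) (hc : c ≠ 0)
    (g : ℕ) : ∑ m ∈ SQF F (2 * g + 1), (cl5 (C c * m) : ℝ) = ∑ m ∈ SQF F (2 * g + 1), (cl5 m : ℝ) := by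
  have hB0 := p_B0 F
  have h1 : ∑ m ∈ SQF F (2 * g + 1), (cl5 (C c * m) : ℝ) = ∑ m ∈ SQF F (2 * g + 1), ((sol (C c * m)).card : ℝ) := by
    refine Finset.sum_congr rfl fun m hm => ?_
    rw [SQF, Finset.mem_filter, hB0.2.1] at hm
    obtain ⟨⟨hmon, hdeg⟩, hs⟩ := hm
    have hnd : (C c * m).natDegree = 2 * g + 1 := by
      rw [natDegree_C_mul hc, hdeg]
    rw [hJ0 (C c * m) ((XFin5.squarefree_C_mul hc m).2 hs) (by omega) (Or.inl (by rw [hnd]; exact ⟨g, rfl⟩))]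
  rw [h1, hJ1 c hc g, XFin4.sum_cl5 hB0]

end D5
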