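import Pool.Agent.H506.D5.Stm6
import Pool.Agent.H506.D5.A1
import Pool.Agent.H506.D5.A1b
import Pool.Agent.H506.D5.A2
import Pool.Agent.H506.D5.A4
import Pool.Agent.H506.D5.A5
import Pool.Agent.H506.D5.A6
import Pool.Agent.H506.D5.A7
import Pool.Agent.H506.D5.A8
import Pool.Agent.H506.D5.A9
import Pool.Agent.H506.D5.B0
import Pool.Agent.H506.D5.B1
import Pool.Agent.H731.P5.A3

/-!
# J0: all imaginary extensions (adaptation of the file I0 of helper264)
-/

open Polynomial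
open scoped Classical

noncomputable section

namespace D5

namespace XJ0

/-- squarefree, of degree at least 1, the degree is odd or the leading coefficient is not a square -/
def GI {F : Type} [Field F] (f : F[X]) : Prop :=
  Squarefree f ∧ 1 ≤ f.natDegree ∧ (Odd f.natDegree ∨ ¬ IsSquare f.leadingCoeff)

variable (F : Type) [Field F] [Fintype F] [CharP F 5]

def T_A2 : Prop :=
  ∀ f : F[X], GI f → IsDomain (OO f) ∧ ∀ u : OO f, IsUnit u → ∃ a : F, a ≠ 0 ∧ u = cc f (C a)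

def T_A3 : Prop :=
  ∀ f : F[X], GI f → IsDedekindDomain (OO f)

def T_A4 : Prop :=
  ∀ f : F[X], GI f →
    (∀ x : OO f, dl f x = 0 → ∃ y : OO f, x = y ^ 5) ∧
    (∀ h₁ h₂ : OO f, h₁ ≠ 0 → h₂ ≠ 0 → h₁ * dl f h₂ = h₂ * dl f h₁ →
      ∃ c e : OO f, c ≠ 0 ∧ e ≠ 0 ∧ h₁ * e ^ 5 = h₂ * c ^ 5)

def T_A5 : Prop :=
  ∀ f : F[X], GI f → ∀ Q : Ideal (OO f), Q.IsMaximal → ∃ π : OO f, π ∈ Q ∧ dl f π ∉ Q

def T_A6 : Prop :=
  ∀ f : F[X], GI f → ∀ v : F[X], IsSol f v →
    Ideal.span {h : OO f | dl f h = cc f v * h} = ⊤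

def T_A7 : Prop :=
  ∀ f : F[X], GI f → ∀ v : F[X], IsSol f v →
    ∃ h : OO f, h ≠ 0 ∧ dl f h = cc f v * h ∧ ∃ I : Ideal (OO f), I ^ 5 = Ideal.span {h}

def T_A8 : Prop :=
  ∀ f : F[X], GI f → ∀ h : OO f, h ≠ 0 → ∀ I : Ideal (OO f), I ^ 5 = Ideal.span {h} →
    ∃ v : F[X], IsSol f v ∧ dl f h = cc f v * h

end XJ0

namespace XJ0

theorem unit_im {F : Type} [Field F] {f : F[X]} (hdeg : 1 ≤ f.natDegree)
    (hns : Odd f.natDegree ∨ ¬ IsSquare f.leadingCoeff) (a b : F[X]) (e : F) (h : a * a - f * b * b = C e) : b = 0 := by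
  by_contra hb
  have hf0 : f ≠ 0 := by
    rintro rfl
    simp at hdeg
  have h1 : a * a = C e + f * b * b := by linear_combination h
  have h2 : (C e).degree < (f * b * b).degree := by
    refine lt_of_le_of_lt degree_C_le ?_
    rw [← natDegree_pos_iff_degree_pos, natDegree_mul (mul_ne_zero hf0 hb) hb, natDegree_mul hf0 hb]
    omega
  rcases hns with hodd | hns
  · have h4 := congrArg natDegree h1
    rw [natDegree_add_eq_right_of_degree_lt h2, natDegree_mul (mul_ne_zero hf0 hb) hb, natDegree_mul hf0 hb] at h4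
    by_cases ha : a = 0
    · rw [ha, mul_zero, natDegree_zero] at h4
      omega
    · rw [natDegree_mul ha ha] at h4
      obtain ⟨k, hk⟩ := hodd
      omega
  have h3 := congrArg leadingCoeff h1
  rw [leadingCoeff_add_of_degree_lt h2, leadingCoeff_mul, leadingCoeff_mul, leadingCoeff_mul] at h3
  have hb' : b.leadingCoeff ≠ 0 := leadingCoeff_ne_zero.2 hb
  apply hns
  refine ⟨a.leadingCoeff / b.leadingCoeff, ?_⟩
  rw [div_mul_div_comm, h3]
  field_simp

theorem p_A2 (F : Type) [Field F] [Fintype F] [CharP F 5] : T_A2 F := by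
  intro f hf
  refine ⟨P5.XA3.isDomain f hf.1 hf.2.1, ?_⟩
  intro u hu
  have h1 : IsUnit (QuadraticAlgebra.norm u) := QuadraticAlgebra.isUnit_iff_norm_isUnit.mp hu
  rw [XA2.norm_eq] at h1
  obtain ⟨e, he, heu⟩ := Polynomial.isUnit_iff.mp h1
  have hb : u.im = 0 := unit_im hf.2.1 hf.2.2 u.re u.im e heu.symm
  rw [hb] at h1
  simp only [mul_zero, sub_zero] at h1
  have h3 : IsUnit u.re := isUnit_of_mul_isUnit_left h1
  obtain ⟨c, hc, hcu⟩ := Polynomial.isUnit_iff.mp h3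
  refine ⟨c, hc.ne_zero, ?_⟩
  exact QuadraticAlgebra.ext hcu.symm hb

theorem p_A3 (F : Type) [Field F] [Fintype F] [CharP F 5] : T_A3 F :=
  fun f hf => P5.p_A3 F f hf.1 hf.2.1

section

variable {F : Type} [Field F] [Fintype F] [CharP F 5]

omit [Fintype F] in
theorem first4 (hB : ∀ G : F[X], derivative G = 0 ↔ ∃ A : F[X], G = A ^ 5) (f : F[X])
    (hf0 : f ≠ 0) (hs : Squarefree f) (x : OO f) (hx : dl f x = 0) : ∃ y : OO f, x = y ^ 5 := by
  have h1 : derivative x.im * f + 3 * (x.im * derivative f) = 0 :=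
    congrArg QuadraticAlgebra.re hx
  have h2 : derivative x.re = 0 := congrArg QuadraticAlgebra.im hx
  obtain ⟨a, ha⟩ := (hB _).1 h2
  have h4 : derivative (x.im * f ^ 3) = 0 := by
    rw [XA4.der3, h1, mul_zero]
  obtain ⟨c, hc⟩ := (hB _).1 h4
  have h5 : f ∣ c := by
    apply hs.isRadical 5 c
    rw [← hc]
    exact ⟨x.im * f ^ 2, by ring⟩
  obtain ⟨d, rfl⟩ := h5
  have h6 : x.im = d ^ 5 * f ^ 2 := by
    have : f ^ 3 * x.im = f ^ 3 * (d ^ 5 * f ^ 2) := by
      linear_combination hc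
    exact mul_left_cancel₀ (pow_ne_zero 3 hf0) this
  refine ⟨⟨a, d⟩, ?_⟩
  rw [XA4.fifth]
  exact QuadraticAlgebra.ext ha h6

end

theorem p_A4 (F : Type) [Field F] [Fintype F] [CharP F 5] (hA1 : S_A1 F) (hA2 : T_A2 F)
    (hB1 : S_B1 F) : T_A4 F := by
  intro f hf
  have h1 := fun x hx => first4 hB1.1 f (by rintro rfl; exact absurd hf.2.1 (by simp)) hf.1 x hx
  refine ⟨h1, ?_⟩
  intro p q hp hq hpq
  obtain ⟨-, hmul, -, -, -⟩ := hA1 f
  have : IsDomain (OO f) := (hA2 f hf).1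
  have h5 : (5 : OO f) = 0 := XA4.fiveO f
  have h2 : dl f (p * (p * (p * (p * q)))) = 0 := by
    rw [hmul, hmul, hmul, hmul]
    linear_combination p ^ 3 * hpq + (p ^ 3 * q * dl f p) * h5
  obtain ⟨y, hy⟩ := h1 _ h2
  refine ⟨p, y, hp, ?_, ?_⟩
  · intro h0
    rw [h0] at hy
    have : p * (p * (p * (p * q))) = 0 := by
      rw [hy]
      ring
    exact mul_ne_zero hp (mul_ne_zero hp (mul_ne_zero hp (mul_ne_zero hp hq))) this
  · rw [← hy]
    ring

open XA5 in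
theorem p_A5 (F : Type) [Field F] [Fintype F] [CharP F 5] (hA2 : T_A2 F) : T_A5 F := by
  intro f hf Q hQ
  obtain ⟨hdom, hu⟩ := hA2 f hf
  have hQp : Q.IsPrime := hQ.isPrime
  -- `Q ≠ ⊥`
  have hQ0 : Q ≠ ⊥ := by
    intro h0
    have hX : ¬ IsUnit (cc f X) := by
      intro h
      obtain ⟨a, _, ha⟩ := hu _ h
      have := ccH_inj f (a₁ := X) (a₂ := C a) ha
      exact X_ne_C a this
    have hne : Ideal.span {cc f X} ≠ ⊤ := by
      rw [Ne, Ideal.span_singleton_eq_top]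
      exact hX
    have := hQ.eq_of_le hne (by rw [h0]; exact bot_le)
    rw [h0] at this
    have h1 : cc f X = 0 := by
      rw [← Ideal.span_singleton_eq_bot]
      exact this.symm
    have h2 : ccH f X = ccH f 0 := by rw [map_zero]; exact h1
    exact X_ne_zero (ccH_inj f h2)
  -- the prime ideal of `F[X]` below `Q`
  have hp : (Ideal.comap (ccH f) Q).IsPrime := Ideal.comap_isPrime _ _
  have hp0 : Ideal.comap (ccH f) Q ≠ ⊥ := by
    obtain ⟨x, hxQ, hx0⟩ := Submodule.exists_mem_ne_zero_of_ne_bot hQ0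
    intro h
    have hmem : x.re ^ 2 - f * x.im ^ 2 ∈ Ideal.comap (ccH f) Q := by
      rw [Ideal.mem_comap, ccH_apply, ← nrm_mul]
      exact Q.mul_mem_right _ hxQ
    rw [h, Ideal.mem_bot] at hmem
    have h1 := nrm_mul f x
    rw [hmem] at h1
    have h2 : x * (⟨x.re, - x.im⟩ : OO f) = 0 := by
      rw [h1]; exact map_zero (ccH f)
    rcases mul_eq_zero.1 h2 with h3 | h3
    · exact hx0 h3
    · apply hx0
      have e1 := congrArg QuadraticAlgebra.re h3
      have e2 := congrArg QuadraticAlgebra.im h3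
      simp at e1 e2
      ext
      · rw [e1]; rfl
      · rw [e2]; rfl
  set P : F[X] := Submodule.IsPrincipal.generator (Ideal.comap (ccH f) Q) with hP
  have hPp : Prime P := Submodule.IsPrincipal.prime_generator_of_isPrime _ hp0
  have hPm : P ∈ Ideal.comap (ccH f) Q := Submodule.IsPrincipal.generator_mem _
  rw [Ideal.mem_comap, ccH_apply] at hPm
  have hsepP : P.Separable := PerfectField.separable_of_irreducible hPp.irreducible
  have hsepf : f.Separable := PerfectField.separable_iff_squarefree.2 hf.1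
  have key : ∀ g : F[X], g.Separable → cc f g ∈ Q → cc f (derivative g) ∉ Q := by
    intro g hg h1 h2
    obtain ⟨a, b, hab⟩ := hg
    apply hQp.ne_top
    rw [Ideal.eq_top_iff_one]
    have : (1 : OO f) = ccH f a * cc f g + ccH f b * cc f (derivative g) := by
      rw [← ccH_apply, ← ccH_apply, ← map_mul, ← map_mul, ← map_add, hab, map_one]
    rw [this]
    exact Q.add_mem (Q.mul_mem_left _ h1) (Q.mul_mem_left _ h2)
  by_cases hs : ss f ∈ Q
  · refine ⟨ss f, hs, ?_⟩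
    rw [dl_ss]
    intro h
    have hff : cc f f ∈ Q := by rw [← ss_mul]; exact Q.mul_mem_left _ hs
    refine key f hsepf hff ?_
    have h6 : cc f (derivative f) = ccH f 2 * cc f (3 * derivative f) := by
      rw [← ccH_apply, ← ccH_apply, ← map_mul]
      congr 1
      linear_combination -(derivative f) * six F
    rw [h6]
    exact Q.mul_mem_left _ h
  · refine ⟨cc f P, hPm, ?_⟩
    rw [dl_cc]
    intro h
    rcases hQp.mem_or_mem h with h1 | h1
    · exact key P hsepP hPm h1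
    · exact hs h1

theorem p_A6 (F : Type) [Field F] [Fintype F] [CharP F 5] (hA1 : S_A1 F) (hA1b : S_A1b F)
    (hA5 : T_A5 F) : T_A6 F := by
  intro f hf v hv
  obtain ⟨a1, a2, -, -, a5⟩ := hA1 f
  obtain ⟨b1, b2⟩ := hA1b f
  have h5 := XA6.five F f
  set g : OO f := cc f v with hg
  set c : OO f := cc f (d4 (f ^ 2)) with hc
  have hdc : dl f c = 0 := by
    rw [hc, a5, XA6.fifth]
    rfl
  have hsol : dl f (dl f (dl f (dl f g))) = - g ^ 5 - c * g := by
    have e0 : d4 (f ^ 2 * v) = - v ^ 5 := hv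
    rw [hg, b2, e0, hc]
    have e2 : (cc f v) ^ 5 = cc f (v ^ 5) := by
      unfold cc
      ext <;> simp [pow_succ]
    rw [e2]
    unfold cc
    ext <;> simp
  have asub := XA6.asub (dl f) a1
  have hmem : ∀ x z : OO f,
      XA6.T (dl f) g (XA6.T (dl f) g (XA6.T (dl f) g (XA6.T (dl f) g x))) = z →
      z + c * x ∈ {h : OO f | dl f h = g * h} := by
    intro x z hz
    have e1 : XA6.T (dl f) g (XA6.T (dl f) g (XA6.T (dl f) g (XA6.T (dl f) g
      (XA6.T (dl f) g x)))) = dl f (dl f (dl f (dl f (dl f x)))) -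
      dl f (dl f (dl f (dl f g))) * x - g ^ 5 * x := XA6.jac (dl f) g a1 a2 h5 x
    rw [hz] at e1
    have e2 : dl f z = XA6.T (dl f) g z + g * z := (sub_add_cancel _ _).symm
    show dl f (z + c * x) = g * (z + c * x)
    have e3 : dl f (z + c * x) = dl f z + (c * dl f x + x * dl f c) :=
      (a1 z (c * x)).trans (congrArg (fun t => dl f z + t) (a2 c x))
    have e4 : dl f z = - c * dl f x - (- g ^ 5 - c * g) * x - g ^ 5 * x + g * z :=
      e2.trans (congrArg (fun t => t + g * z) (e1.trans (by rw [b1 x, hsol])))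
    rw [e3, e4, hdc]
    ring
  by_contra hne
  obtain ⟨Q, hQ, hle⟩ := Ideal.exists_le_maximal _ hne
  obtain ⟨p, hp, hdp⟩ := hA5 f hf Q hQ
  obtain ⟨w, hw⟩ := XA6.four (dl f) g a2 p
  have h4 := hle (Ideal.subset_span (hmem (p ^ 4) _ hw))
  have h6 : dl f p ^ 4 ∈ Q := by
    have h7 : p * (w + c * p ^ 3) ∈ Q := Q.mul_mem_right _ hp
    have h8 := Q.sub_mem h7 h4
    have e3 : dl f p ^ 4 = p * (w + c * p ^ 3) - (24 * dl f p ^ 4 + p * w + c * p ^ 4) := by
      linear_combination (5 * dl f p ^ 4) * h5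
    rw [e3]
    exact h8
  exact hdp (hQ.isPrime.mem_of_pow_mem 4 h6)

theorem p_A7 (F : Type) [Field F] [Fintype F] [CharP F 5] (hA1 : S_A1 F) (hA2 : T_A2 F)
    (hA3 : T_A3 F) (hA4 : T_A4 F) (hA6 : T_A6 F) : T_A7 F := by
  intro f hf v hv
  have hD : IsDomain (OO f) := (hA2 f hf).1
  have hDD : IsDedekindDomain (OO f) := hA3 f hf
  have h6 := hA6 f hf v hv
  obtain ⟨t, hts, htop⟩ := (Ideal.span_eq_top_iff_finite _).1 h6
  obtain ⟨h₀, hh₀, hne⟩ : ∃ h₀ ∈ t, h₀ ≠ 0 := by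
    by_contra hcon
    push Not at hcon
    have h1 : Ideal.span (t : Set (OO f)) ≤ ⊥ := by
      rw [Ideal.span_le]
      intro x hx
      rw [SetLike.mem_coe, Ideal.mem_bot]
      exact hcon x (Finset.mem_coe.1 hx)
    rw [htop] at h1
    exact bot_ne_top (le_antisymm bot_le h1)
  have hm0 : ∀ m ∈ t, dl f m = cc f v * m := fun m hm => hts (Finset.mem_coe.2 hm)
  have hc : ∀ m ∈ t, ∃ c e : OO f, e ≠ 0 ∧ m * e ^ 5 = h₀ * c ^ 5 := by
    intro m hm
    by_cases hmz : m = 0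
    · refine ⟨0, 1, one_ne_zero, ?_⟩
      rw [hmz]
      ring
    · obtain ⟨c, e, _, he, h⟩ := (hA4 f hf).2 m h₀ hmz hne (by
        rw [hm0 m hm, hm0 h₀ hh₀]
        ring)
      exact ⟨c, e, he, h⟩
  obtain ⟨b, I, hb, hI⟩ := XA7.core t htop h₀ hc
  refine ⟨b ^ 5 * h₀, mul_ne_zero (pow_ne_zero 5 hb) hne, ?_, I, hI⟩
  have e0 := (hA1 f).2.2.2.1 b h₀
  rw [hm0 h₀ hh₀] at e0
  exact e0.trans (mul_left_comm _ _ _)

theorem p_A8 (F : Type) [Field F] [Fintype F] [CharP F 5] (hA1 : S_A1 F) (hA1b : S_A1b F)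
    (hA2 : T_A2 F) : T_A8 F := by
  intro f hf h hh I hI
  have := (hA2 f hf).1
  obtain ⟨w, hw⟩ := XA8.dvd_dl hA1 hh hI
  have h0 := XA8.im_zero hh hw
  have hv : dl f h = cc f w.re * h := by
    rw [hw, mul_comm]
    congr 1
    exact QuadraticAlgebra.ext rfl h0
  exact ⟨w.re, XA8.sol_of hA1 hA1b hh hv, hv⟩

open nonZeroDivisors

section

variable {F : Type} [Field F] [Fintype F] [CharP F 5]

open XA9 (fifth_inj mk0_fifth R)

theorem exists_c (hA7 : T_A7 F) {f : F[X]} (hf : GI f) [IsDomain (OO f)] [IsDedekindDomain (OO f)]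
    {v : F[X]} (hv : IsSol f v) : ∃ c, R f v c := by
  obtain ⟨h, h0, hd, I, hI⟩ := hA7 f hf v hv
  have hI0 : I ≠ 0 := by
    intro hz
    rw [hz] at hI
    have : Ideal.span {h} = (⊥ : Ideal (OO f)) := by
      rw [← hI]; simp
    exact h0 (Ideal.span_singleton_eq_bot.1 this)
  exact ⟨ClassGroup.mk0 ⟨I, mem_nonZeroDivisors_iff_ne_zero.2 hI0⟩, h, h0, hd,
    ⟨I, mem_nonZeroDivisors_iff_ne_zero.2 hI0⟩, hI, rfl⟩

theorem fifth_eq_one {f : F[X]} [IsDomain (OO f)] [IsDedekindDomain (OO f)]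
    {v : F[X]} {c : ClassGroup (OO f)} (h : R f v c) : c ^ 5 = 1 := by
  obtain ⟨h, h0, hd, I, hI, rfl⟩ := h
  exact (mk0_fifth I).2 ⟨h, hI⟩

theorem exists_v (hA8 : T_A8 F) {f : F[X]} (hf : GI f) [IsDomain (OO f)] [IsDedekindDomain (OO f)]
    {c : ClassGroup (OO f)} (hc : c ^ 5 = 1) : ∃ v, IsSol f v ∧ R f v c := by
  obtain ⟨I, rfl⟩ := ClassGroup.mk0_surjective c
  obtain ⟨h, hh'⟩ := (mk0_fifth I).1 hc
  have h0 : h ≠ 0 := by
    intro hz
    rw [hz] at hh'
    have h1 : (I : Ideal (OO f)) ^ 5 = 0 := by rw [hh']; simp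
    exact nonZeroDivisors.coe_ne_zero I (pow_eq_zero_iff (by norm_num) |>.1 h1)
  obtain ⟨v, hv, hd⟩ := hA8 f hf h h0 I hh'
  exact ⟨v, hv, h, h0, hd, I, hh', rfl⟩

theorem uniq_c (hA4 : T_A4 F) {f : F[X]} (hf : GI f) [IsDomain (OO f)] [IsDedekindDomain (OO f)]
    {v : F[X]} {c c' : ClassGroup (OO f)} (h1 : R f v c) (h2 : R f v c') : c = c' := by
  obtain ⟨h, h0, hd, I, hI, rfl⟩ := h1
  obtain ⟨h', h0', hd', I', hI', rfl⟩ := h2
  obtain ⟨c, e, hc, he, hce⟩ := (hA4 f hf).2 h h' h0 h0' (by rw [hd, hd']; ring)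
  rw [ClassGroup.mk0_eq_mk0_iff]
  refine ⟨e, c, he, hc, ?_⟩
  apply fifth_inj
  rw [mul_pow, mul_pow, hI, hI', Ideal.span_singleton_pow, Ideal.span_singleton_pow,
    Ideal.span_singleton_mul_span_singleton, Ideal.span_singleton_mul_span_singleton,
    mul_comm, hce, mul_comm]

theorem uniq_v (hA1 : S_A1 F) (hA2 : T_A2 F) {f : F[X]} (hf : GI f) [IsDomain (OO f)]
    [IsDedekindDomain (OO f)]
    {v v' : F[X]} {c : ClassGroup (OO f)} (h1 : R f v c) (h2 : R f v' c) : v = v' := by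
  obtain ⟨h, h0, hd, I, hI, hc⟩ := h1
  obtain ⟨h', h0', hd', I', hI', hc'⟩ := h2
  rw [← hc', ClassGroup.mk0_eq_mk0_iff] at hc
  obtain ⟨x, y, hx, hy, hxy⟩ := hc
  have h3 : Ideal.span {x ^ 5 * h} = Ideal.span {y ^ 5 * h'} := by
    have := congrArg (fun J => J ^ 5) hxy
    simp only [mul_pow, hI, hI', Ideal.span_singleton_pow,
      Ideal.span_singleton_mul_span_singleton] at this
    exact this
  rw [Ideal.span_singleton_eq_span_singleton] at h3
  obtain ⟨u, hu⟩ := h3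
  obtain ⟨a, ha, hua⟩ := (hA2 f hf).2 u u.isUnit
  obtain ⟨-, hmul, -, hfifth, hcc⟩ := hA1 f
  have hdu : dl f (u : OO f) = 0 := by
    rw [hua, hcc, derivative_C]
    rfl
  have e1 : dl f (x ^ 5 * (h * u)) = x ^ 5 * (u * (cc f v * h)) := by
    rw [hfifth, hmul, hdu, hd]; ring
  have e2 : dl f (y ^ 5 * h') = y ^ 5 * (cc f v' * h') := by
    rw [hfifth, hd']
  have e3 : x ^ 5 * (h * u) = y ^ 5 * h' := by rw [← hu]; ring
  rw [e3, e2] at e1
  have e4 : (cc f v' - cc f v) * (y ^ 5 * h') = 0 := by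
    have : y ^ 5 * (cc f v' * h') = cc f v * (x ^ 5 * (h * u)) := by rw [e1]; ring
    rw [e3] at this
    linear_combination this
  have hne : y ^ 5 * h' ≠ 0 := mul_ne_zero (pow_ne_zero _ hy) h0'
  have e5 : cc f v' = cc f v := by
    have := (mul_eq_zero.1 e4).resolve_right hne
    exact sub_eq_zero.1 this
  have := congrArg QuadraticAlgebra.re e5
  exact this.symm

end

end XJ0

open XJ0 in
open XA9 (R) in
/-- **J0** -/
theorem p_J0 (F : Type) [Field F] [Fintype F] [CharP F 5] : S_J0 F := by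
  have hB0 := p_B0 F
  have hB1 := p_B1 F hB0
  have hA1 := p_A1 F
  have hA1b := p_A1b F hA1
  have hA2 := XJ0.p_A2 F
  have hA3 := XJ0.p_A3 F
  have hA4 := XJ0.p_A4 F hA1 hA2 hB1
  have hA5 := XJ0.p_A5 F hA2
  have hA6 := XJ0.p_A6 F hA1 hA1b hA5
  have hA7 := XJ0.p_A7 F hA1 hA2 hA3 hA4 hA6
  have hA8 := XJ0.p_A8 F hA1 hA1b hA2
  intro f hsq hdeg hns
  have hf : GI f := ⟨hsq, hdeg, hns⟩
  have hdom : IsDomain (OO f) := (hA2 f hf).1
  have hded : IsDedekindDomain (OO f) := hA3 f hf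
  obtain ⟨-, -, -, -, hsol⟩ := hB1
  unfold cl5
  rw [dif_pos hdom]
  have hex : ∀ v : {v // v ∈ sol f}, ∃ c : ClassGroup (OO f), R f v.1 c := fun v =>
    exists_c hA7 hf ((hsol f v.1).1 v.2)
  choose g hg using hex
  have hbij : Function.Bijective
      (fun v : {v // v ∈ sol f} => (⟨g v, fifth_eq_one (hg v)⟩ :
        {c : ClassGroup (OO f) // c ^ 5 = 1})) := by
    constructor
    · intro v v' hvv
      have h1 : g v = g v' := congrArg Subtype.val hvv
      have h2 := hg v'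
      rw [← h1] at h2
      exact Subtype.ext (uniq_v hA1 hA2 hf (hg v) h2)
    · rintro ⟨c, hc⟩
      obtain ⟨v, hv, hR⟩ := exists_v hA8 hf hc
      refine ⟨⟨v, (hsol f v).2 hv⟩, ?_⟩
      apply Subtype.ext
      exact uniq_c hA4 hf (hg ⟨v, (hsol f v).2 hv⟩) hR
  have := Nat.card_congr (Equiv.ofBijective _ hbij)
  rw [← this]
  simp

end D5
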