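import Pool.Agent.H506.D5.Stm6

/-!
# J1: the substitution `t ↦ c t`
-/

open Polynomial
open scoped Classical

noncomputable section

namespace D5

namespace XJ1

variable {F : Type} [Field F]

/-- the substitution, with a factor -/
def T (n : ℕ) (c d : F) (P : F[X]) : F[X] := C (d ^ n) * P.comp (C c * X)

theorem T_coeff (n : ℕ) (c d : F) (P : F[X]) (k : ℕ) :
    (T n c d P).coeff k = d ^ n * (P.coeff k * c ^ k) := by
  unfold T
  rw [coeff_C_mul, comp_C_mul_X_coeff]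

theorem T_T (n : ℕ) {c d : F} (h : c * d = 1) (P : F[X]) : T n d c (T n c d P) = P := by
  ext k
  rw [T_coeff, T_coeff]
  have h1 : c ^ n * d ^ n = 1 := by rw [← mul_pow, h, one_pow]
  have h2 : c ^ k * d ^ k = 1 := by rw [← mul_pow, h, one_pow]
  linear_combination (P.coeff k * c ^ k * d ^ k) * h1 + P.coeff k * h2

theorem T_mon {n : ℕ} {c d : F} (h : c * d = 1) {P : F[X]} (hP : P.Monic) (hn : P.natDegree = n) :
    (T n c d P).Monic ∧ (T n c d P).natDegree = n := by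
  have h1 : (T n c d P).natDegree ≤ n := by
    rw [natDegree_le_iff_coeff_eq_zero]
    intro k hk
    rw [T_coeff, coeff_eq_zero_of_natDegree_lt (by omega)]
    ring
  have h2 : (T n c d P).coeff n = 1 := by
    have h3 : P.coeff n = 1 := by
      rw [← hn]
      exact hP
    have h4 : c ^ n * d ^ n = 1 := by rw [← mul_pow, h, one_pow]
    rw [T_coeff, h3]
    linear_combination h4
  refine ⟨monic_of_natDegree_le_of_coeff_eq_one n h1 h2, ?_⟩
  refine natDegree_eq_of_le_of_coeff_ne_zero h1 ?_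
  rw [h2]
  exact one_ne_zero

theorem q_comp {c d : F} (h : c * d = 1) : (C c * X : F[X]).comp (C d * X) = X := by
  rw [mul_comp, C_comp, X_comp, ← mul_assoc, ← C_mul, h, C_1, one_mul]

theorem T_sqf {n : ℕ} {c d : F} (h : c * d = 1) {P : F[X]} (hP : Squarefree P) :
    Squarefree (T n c d P) := by
  intro x hx
  obtain ⟨y, hy⟩ := hx
  have h' : d * c = 1 := by rw [mul_comm, h]
  have h1 : (C (d ^ n) * P.comp (C c * X)).comp (C d * X) = (x * x * y).comp (C d * X) := by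
    rw [← hy]
    rfl
  rw [mul_comp, C_comp, comp_assoc, q_comp h, comp_X, mul_comp, mul_comp] at h1
  have h4 : C (c ^ n) * C (d ^ n) = (1 : F[X]) := by
    rw [← C_mul, ← mul_pow, h, one_pow, C_1]
  have h2 : P = x.comp (C d * X) * x.comp (C d * X) * (C (c ^ n) * y.comp (C d * X)) := by
    linear_combination C (c ^ n) * h1 - P * h4
  have h3 := hP (x.comp (C d * X)) ⟨_, h2⟩
  have h5 := h3.map (compRingHom (C c * X))
  rw [coe_compRingHom_apply, comp_assoc, q_comp h', comp_X] at h5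
  exact h5

theorem T_prod (n g : ℕ) (c d : F) (m v : F[X]) :
    T n c d m ^ 2 * T g c d v = C (d ^ (2 * n + g)) * (m ^ 2 * v).comp (C c * X) := by
  unfold T
  have e : C ((d ^ n) ^ 2) = C (d ^ n) ^ 2 := C_pow
  rw [mul_comp, pow_comp, pow_add, pow_mul', C_mul, e]
  ring

end XJ1

open XJ1

variable (F : Type) [Field F] [Fintype F] [CharP F 5]

theorem XJ1.T_sol (hB1 : S_B1 F) {g : ℕ} {c d : F} (h : c * d = 1) (m v : F[X]) :
    IsSol (C c * m) v ↔ IsSol (T (2 * g + 1) c d m) (T g c d v) := by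
  rw [hB1.2.2.1, hB1.2.2.1]
  have hc : c ≠ 0 := left_ne_zero_of_mul_eq_one h
  have hd : d ≠ 0 := right_ne_zero_of_mul_eq_one h
  refine forall_congr' fun j => ?_
  have e1 : ((C c * m) ^ 2 * v).coeff (5 * j + 4) = c ^ 2 * (m ^ 2 * v).coeff (5 * j + 4) := by
    have : (C c * m) ^ 2 * v = C (c ^ 2) * (m ^ 2 * v) := by
      rw [C_pow]
      ring
    rw [this, coeff_C_mul]
  rw [e1, T_prod, coeff_C_mul, comp_C_mul_X_coeff, T_coeff]
  have e2 : d ^ (2 * (2 * g + 1) + g) * ((m ^ 2 * v).coeff (5 * j + 4) * c ^ (5 * j + 4)) =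
      d ^ (5 * g) * c ^ (5 * j) * (c ^ 2 * (m ^ 2 * v).coeff (5 * j + 4)) := by
    have h2 : c ^ 2 * d ^ 2 = 1 := by rw [← mul_pow, h, one_pow]
    have e3 : d ^ (2 * (2 * g + 1) + g) = d ^ (5 * g) * d ^ 2 := by
      rw [← pow_add]
      congr 1
      ring
    rw [e3, pow_add]
    linear_combination (d ^ (5 * g) * c ^ (5 * j) * c ^ 2 * (m ^ 2 * v).coeff (5 * j + 4)) * h2
  have e4 : (d ^ g * (v.coeff j * c ^ j)) ^ 5 = d ^ (5 * g) * c ^ (5 * j) * (v.coeff j) ^ 5 := by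
    rw [mul_pow, mul_pow, ← pow_mul, ← pow_mul, mul_comm g 5, mul_comm j 5]
    ring
  rw [e2, e4]
  constructor
  · intro h3
    rw [h3]
  · intro h3
    exact mul_left_cancel₀ (mul_ne_zero (pow_ne_zero _ hd) (pow_ne_zero _ hc)) h3

theorem XJ1.card_sol (hB1 : S_B1 F) {g : ℕ} {c d : F} (h : c * d = 1) (m : F[X]) :
    (sol (C c * m)).card = (sol (T (2 * g + 1) c d m)).card := by
  have h' : d * c = 1 := by rw [mul_comm, h]
  refine Finset.card_nbij' (T g c d) (T g d c) ?_ ?_ ?_ ?_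
  · intro v hv
    rw [Finset.mem_coe, hB1.2.2.2.2] at hv ⊢
    exact (XJ1.T_sol F hB1 h m v).1 hv
  · intro y hy
    rw [Finset.mem_coe, hB1.2.2.2.2] at hy ⊢
    rw [XJ1.T_sol F hB1 (g := g) h, T_T g h']
    exact hy
  · intro v _
    exact T_T g h v
  · intro y _
    exact T_T g h' y

theorem p_J1 (hB0 : S_B0 F) (hB1 : S_B1 F) : S_J1 F := by
  intro c hc g
  have h : c * c⁻¹ = 1 := mul_inv_cancel₀ hc
  have h' : c⁻¹ * c = 1 := inv_mul_cancel₀ hc
  have hmem : ∀ {a b : F}, a * b = 1 → ∀ m ∈ SQF F (2 * g + 1), T (2 * g + 1) a b m ∈ SQF F (2 * g + 1) := by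
    intro a b hab m hm
    unfold SQF at hm ⊢
    rw [Finset.mem_filter, hB0.2.1] at hm ⊢
    exact ⟨T_mon hab hm.1.1 hm.1.2, T_sqf hab hm.2⟩
  refine Finset.sum_nbij' (T (2 * g + 1) c c⁻¹) (T (2 * g + 1) c⁻¹ c) (hmem h) (hmem h') ?_ ?_ ?_
  · intro m _
    exact T_T _ h m
  · intro m _
    exact T_T _ h' m
  · intro m _
    rw [XJ1.card_sol F hB1 (g := g) h m]

end D5
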