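import Pool.Agent.H506.D5.Stm

/-!
# MU: the Moebius function for polynomials over a finite field
-/

open Polynomial
open scoped Classical

noncomputable section

namespace D5

/-- The Moebius function (used for monic `W` only). -/
def moeb {F : Type} [Field F] (W : F[X]) : ℝ :=
  if Squarefree W then (-1) ^ (Multiset.card (UniqueFactorizationMonoid.normalizedFactors W)) else 0

section
variable (F : Type) [Field F] [Fintype F] [CharP F 5]

/-- **MU** (uses B0) Moebius function.  (1) `|moeb W| ≤ 1`, `moeb 1 = 1`; (2) `moeb (a w) = moeb a * moeb w` for coprime `a, w` (nonzero);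
(3) `∑_{W monic, W² ∣ f} moeb W = [f squarefree]` for `f` monic of degree `n` (all `W` have degree `≤ n`);
(4) `∑_{a monic, a ∣ b} moeb a = [b = 1]` for `b` monic of degree `≤ m`;
(5) `∑_{W monic of degree w} moeb W = 1, - q, 0` for `w = 0, 1, ≥ 2` (sum (4) over all monic `b` of degree `k`).
Proof of (3), (4): the `W` with `moeb W ≠ 0` are the products of subsets of the finite set of primes `P` with `P² ∣ f`
(resp. `P ∣ b`), and `∑_{T ⊆ S} (-1)^{#T} = [S = ∅]`. -/
def S_MU : Prop :=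
  (∀ W : F[X], |moeb W| ≤ 1) ∧ (moeb (1 : F[X]) = 1) ∧
  (∀ a w : F[X], a ≠ 0 → w ≠ 0 → IsCoprime a w → moeb (a * w) = moeb a * moeb w) ∧
  (∀ (n m : ℕ) (f : F[X]), f.Monic → f.natDegree = n → n ≤ 2 * m + 1 →
    ∑ w ∈ Finset.range (m + 1), ∑ W ∈ (MON F w).filter (fun W => W ^ 2 ∣ f), moeb W = if Squarefree f then 1 else 0) ∧
  (∀ (m : ℕ) (b : F[X]), b.Monic → b.natDegree ≤ m →
    ∑ w ∈ Finset.range (m + 1), ∑ a ∈ (MON F w).filter (fun a => a ∣ b), moeb a = if b = 1 then 1 else 0) ∧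
  (∀ w, ∑ W ∈ MON F w, moeb W = if w = 0 then 1 else if w = 1 then - qq F else 0)


end



namespace XMU

variable {F : Type} [Field F] [Fintype F]

theorem mu_abs (W : F[X]) : |moeb W| ≤ 1 := by
  unfold moeb
  split_ifs with h
  · rw [abs_pow, abs_neg, abs_one, one_pow]
  · rw [abs_zero]; exact zero_le_one

theorem mu_one : moeb (1 : F[X]) = 1 := by
  unfold moeb
  rw [if_pos squarefree_one, UniqueFactorizationMonoid.normalizedFactors_one, Multiset.card_zero,
    pow_zero]

theorem mu_zero_of {W : F[X]} (h : ¬ Squarefree W) : moeb W = 0 := by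
  unfold moeb
  rw [if_neg h]

theorem mu_mul (a w : F[X]) (ha : a ≠ 0) (hw : w ≠ 0) (h : IsCoprime a w) :
    moeb (a * w) = moeb a * moeb w := by
  by_cases h1 : Squarefree a
  · by_cases h2 : Squarefree w
    · have h3 : Squarefree (a * w) := squarefree_mul_iff.2 ⟨h.isRelPrime, h1, h2⟩
      unfold moeb
      rw [if_pos h1, if_pos h2, if_pos h3,
        UniqueFactorizationMonoid.normalizedFactors_mul ha hw, Multiset.card_add, pow_add]
    · have h3 : ¬ Squarefree (a * w) := fun h4 => h2 (squarefree_mul_iff.1 h4).2.2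
      rw [mu_zero_of h3, mu_zero_of h2, mul_zero]
  · have h3 : ¬ Squarefree (a * w) := fun h4 => h1 (squarefree_mul_iff.1 h4).2.1
    rw [mu_zero_of h3, mu_zero_of h1, zero_mul]

theorem mu_irr {p : F[X]} (hp : Irreducible p) : moeb p = -1 := by
  unfold moeb
  rw [if_pos hp.squarefree, UniqueFactorizationMonoid.normalizedFactors_irreducible hp,
    Multiset.card_singleton, pow_one]

variable [CharP F 5]

theorem collapse (hB0 : S_B0 F) (m : ℕ) (P : F[X] → Prop) (h : F[X] → ℝ) :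
    ∑ w ∈ Finset.range (m + 1), ∑ W ∈ (MON F w).filter P, h W =
      ∑ W ∈ (POL F (m + 1)).filter (fun W => W.Monic ∧ P W), h W := by
  obtain ⟨hPOL, hMON, -⟩ := hB0
  rw [← Finset.sum_fiberwise_of_maps_to (s := (POL F (m + 1)).filter (fun W => W.Monic ∧ P W))
    (t := Finset.range (m + 1)) (g := fun W => W.natDegree)]
  · refine Finset.sum_congr rfl fun w hw => ?_
    refine Finset.sum_congr ?_ fun _ _ => rfl
    ext W
    rw [Finset.mem_filter, Finset.mem_filter, Finset.mem_filter, hMON, hPOL]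
    constructor
    · rintro ⟨⟨h1, h2⟩, h3⟩
      refine ⟨⟨?_, h1, h3⟩, h2⟩
      rw [Polynomial.degree_eq_natDegree h1.ne_zero, h2]
      exact_mod_cast Finset.mem_range.1 hw
    · rintro ⟨⟨_, h1, h3⟩, h2⟩
      exact ⟨⟨h1, h2⟩, h3⟩
  · intro W hW
    rw [Finset.mem_filter, hPOL] at hW
    obtain ⟨h1, h2, _⟩ := hW
    rw [Polynomial.degree_eq_natDegree h2.ne_zero] at h1
    exact Finset.mem_range.2 (by exact_mod_cast h1)

theorem sum_one (hB0 : S_B0 F) (m : ℕ) (P : F[X] → Prop) (h1 : P 1)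
    (h2 : ∀ W : F[X], W.Monic → P W → W = 1) :
    ∑ w ∈ Finset.range (m + 1), ∑ W ∈ (MON F w).filter P, moeb W = 1 := by
  rw [collapse hB0]
  have h3 : (POL F (m + 1)).filter (fun W => W.Monic ∧ P W) = {1} := by
    ext W
    rw [Finset.mem_filter, Finset.mem_singleton, hB0.1]
    constructor
    · rintro ⟨_, h3, h4⟩
      exact h2 W h3 h4
    · rintro rfl
      refine ⟨?_, monic_one, h1⟩
      rw [Polynomial.degree_one]
      exact_mod_cast Nat.succ_pos m
  rw [h3, Finset.sum_singleton, mu_one]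

theorem sum_zero (hB0 : S_B0 F) (m : ℕ) (P : F[X] → Prop) {p : F[X]} (hp : Irreducible p)
    (hm : p.Monic) (hdeg : ∀ W : F[X], W.Monic → P W → W.natDegree ≤ m)
    (h1 : ∀ a : F[X], IsCoprime a p → P a → P (a * p))
    (h2 : ∀ a : F[X], P (a * p) → P a) :
    ∑ w ∈ Finset.range (m + 1), ∑ W ∈ (MON F w).filter P, moeb W = 0 := by
  rw [collapse hB0]
  have hp0 : p ≠ 0 := hp.ne_zero
  -- restrict to squarefree
  have hs : ∑ W ∈ (POL F (m + 1)).filter (fun W => W.Monic ∧ P W), moeb W =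
      ∑ W ∈ ((POL F (m + 1)).filter (fun W => W.Monic ∧ P W)).filter (fun W => Squarefree W),
        moeb W := by
    symm
    apply Finset.sum_filter_of_ne
    intro W _ hW
    by_contra h3
    exact hW (mu_zero_of h3)
  rw [hs]
  have hmem : ∀ W : F[X], W ∈ ((POL F (m + 1)).filter (fun W => W.Monic ∧ P W)).filter
      (fun W => Squarefree W) ↔ W.Monic ∧ P W ∧ Squarefree W := by
    intro W
    rw [Finset.mem_filter, Finset.mem_filter, hB0.1]
    constructor
    · rintro ⟨⟨_, h3, h4⟩, h5⟩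
      exact ⟨h3, h4, h5⟩
    · rintro ⟨h3, h4, h5⟩
      refine ⟨⟨?_, h3, h4⟩, h5⟩
      rw [Polynomial.degree_eq_natDegree h3.ne_zero]
      exact_mod_cast Nat.lt_succ_of_le (hdeg W h3 h4)
  have hcop : ∀ c : F[X], ¬ p ∣ c → IsCoprime c p := fun c hc =>
    ((Irreducible.coprime_iff_not_dvd hp).2 hc).symm
  have hsq : ∀ c : F[X], Squarefree (c * p) → ¬ p ∣ c := by
    rintro c h3 ⟨e, rfl⟩
    exact hp.not_isUnit (h3 p ⟨e, by ring⟩)
  refine Finset.sum_involution (fun W _ => if p ∣ W then W / p else W * p) ?_ ?_ ?_ ?_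
  · intro W hW
    obtain ⟨h3, h4, h5⟩ := (hmem W).1 hW
    by_cases h6 : p ∣ W
    · obtain ⟨c, rfl⟩ := h6
      rw [if_pos (dvd_mul_right p c), mul_div_cancel_left₀ c hp0]
      have h7 : ¬ p ∣ c := hsq c (by rw [mul_comm]; exact h5)
      have hc0 : c ≠ 0 := by
        rintro rfl
        exact h7 (dvd_zero p)
      rw [mu_mul p c hp0 hc0 (hcop c h7).symm, mu_irr hp]
      ring
    · rw [if_neg h6, mu_mul W p h3.ne_zero hp0 (hcop W h6), mu_irr hp]
      ring
  · intro W hW _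
    obtain ⟨h3, h4, h5⟩ := (hmem W).1 hW
    have hd : 0 < p.natDegree := hp.natDegree_pos
    by_cases h6 : p ∣ W
    · obtain ⟨c, rfl⟩ := h6
      rw [if_pos (dvd_mul_right p c), mul_div_cancel_left₀ c hp0]
      intro h7
      have hc0 : c ≠ 0 := by
        rintro rfl
        exact h3.ne_zero (mul_zero p)
      have h8 := Polynomial.natDegree_mul hp0 hc0
      rw [← h7] at h8
      omega
    · rw [if_neg h6]
      intro h7
      have h8 := Polynomial.natDegree_mul h3.ne_zero hp0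
      rw [h7] at h8
      omega
  · intro W hW
    obtain ⟨h3, h4, h5⟩ := (hmem W).1 hW
    rw [hmem]
    by_cases h6 : p ∣ W
    · obtain ⟨c, rfl⟩ := h6
      rw [if_pos (dvd_mul_right p c), mul_div_cancel_left₀ c hp0]
      refine ⟨hm.of_mul_monic_left h3, h2 c (by rw [mul_comm]; exact h4),
        h5.of_mul_right⟩
    · rw [if_neg h6]
      refine ⟨h3.mul hm, h1 W (hcop W h6) h4, ?_⟩
      exact squarefree_mul_iff.2 ⟨(hcop W h6).isRelPrime, h5, hp.squarefree⟩
  · intro W hW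
    obtain ⟨h3, h4, h5⟩ := (hmem W).1 hW
    by_cases h6 : p ∣ W
    · obtain ⟨c, rfl⟩ := h6
      have h7 : ¬ p ∣ c := hsq c (by rw [mul_comm]; exact h5)
      simp only [dvd_mul_right, if_true, mul_div_cancel_left₀ c hp0, h7, if_false]
      ring
    · simp only [h6, if_false, dvd_mul_left, if_true, mul_div_cancel_right₀ W hp0]

theorem exists_monic_irr {g : F[X]} (hg : ¬ IsUnit g) (h0 : g ≠ 0) :
    ∃ p : F[X], Irreducible p ∧ p.Monic ∧ p ∣ g := by
  obtain ⟨p, hp, hpg⟩ := WfDvdMonoid.exists_irreducible_factor hg h0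
  refine ⟨normalize p, ?_, Polynomial.monic_normalize hp.ne_zero, ?_⟩
  · exact (normalize_associated p).symm.irreducible hp
  · exact (normalize_dvd_iff).2 hpg

theorem part3 (hB0 : S_B0 F) (n m : ℕ) (f : F[X]) (hf : f.Monic) (hn : f.natDegree = n)
    (hnm : n ≤ 2 * m + 1) :
    ∑ w ∈ Finset.range (m + 1), ∑ W ∈ (MON F w).filter (fun W => W ^ 2 ∣ f), moeb W =
      if Squarefree f then 1 else 0 := by
  by_cases h : Squarefree f
  · rw [if_pos h]
    refine sum_one hB0 m _ (by rw [one_pow]; exact one_dvd f) ?_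
    intro W hW h1
    have h2 : IsUnit W := h W (by rw [← pow_two]; exact h1)
    exact hW.eq_one_of_isUnit h2
  · rw [if_neg h]
    have h3 : ∃ g : F[X], g * g ∣ f ∧ ¬ IsUnit g := by
      by_contra h4
      push Not at h4
      exact h fun g hg => h4 g hg
    obtain ⟨g, h4, h5⟩ := h3
    have hg0 : g ≠ 0 := by
      rintro rfl
      rw [mul_zero, zero_dvd_iff] at h4
      exact hf.ne_zero h4
    obtain ⟨p, hp, hpm, hpg⟩ := exists_monic_irr h5 hg0
    have h6 : p ^ 2 ∣ f := by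
      rw [pow_two]
      exact (mul_dvd_mul hpg hpg).trans h4
    refine sum_zero hB0 m _ hp hpm ?_ ?_ ?_
    · intro W hW h7
      have h8 := Polynomial.natDegree_le_of_dvd h7 hf.ne_zero
      rw [Polynomial.natDegree_pow] at h8
      omega
    · intro a ha h7
      rw [mul_pow]
      exact (ha.pow).mul_dvd h7 h6
    · intro a h7
      rw [mul_pow] at h7
      exact (dvd_mul_right _ _).trans h7

theorem part4 (hB0 : S_B0 F) (m : ℕ) (b : F[X]) (hb : b.Monic) (hn : b.natDegree ≤ m) :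
    ∑ w ∈ Finset.range (m + 1), ∑ a ∈ (MON F w).filter (fun a => a ∣ b), moeb a =
      if b = 1 then 1 else 0 := by
  by_cases h : b = 1
  · rw [if_pos h]
    refine sum_one hB0 m _ (one_dvd b) ?_
    intro W hW h1
    rw [h] at h1
    exact hW.eq_one_of_isUnit (isUnit_of_dvd_one h1)
  · rw [if_neg h]
    have h5 : ¬ IsUnit b := fun h6 => h (hb.eq_one_of_isUnit h6)
    obtain ⟨p, hp, hpm, hpg⟩ := exists_monic_irr h5 hb.ne_zero
    refine sum_zero hB0 m _ hp hpm ?_ ?_ ?_
    · intro W hW h7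
      exact (Polynomial.natDegree_le_of_dvd h7 hb.ne_zero).trans hn
    · intro a ha h7
      exact ha.mul_dvd h7 hpg
    · intro a h7
      exact (dvd_mul_right _ _).trans h7

theorem card_mult (hB0 : S_B0 F) {w k : ℕ} (hwk : w ≤ k) {a : F[X]} (ha : a ∈ MON F w) :
    ((MON F k).filter (fun b => a ∣ b)).card = Fintype.card F ^ (k - w) := by
  have hMON := hB0.2.1
  rw [← hB0.2.2.2.2.1 (k - w)]
  obtain ⟨h1, h2⟩ := (hMON w a).1 ha
  symm
  refine Finset.card_bij (fun c _ => a * c) ?_ ?_ ?_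
  · intro c hc
    obtain ⟨h3, h4⟩ := (hMON _ c).1 hc
    rw [Finset.mem_filter, hMON]
    refine ⟨⟨h1.mul h3, ?_⟩, dvd_mul_right a c⟩
    rw [h1.natDegree_mul h3, h2, h4]
    omega
  · intro c _ d _ h3
    exact mul_left_cancel₀ h1.ne_zero h3
  · intro b hb
    rw [Finset.mem_filter, hMON] at hb
    obtain ⟨⟨h3, h4⟩, c, rfl⟩ := hb
    have h5 : c.Monic := h1.of_mul_monic_left h3
    refine ⟨c, ?_, rfl⟩
    rw [hMON]
    refine ⟨h5, ?_⟩
    rw [h1.natDegree_mul h5, h2] at h4
    omega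

theorem conv (hB0 : S_B0 F) (k : ℕ) :
    ∑ w ∈ Finset.range (k + 1), (∑ W ∈ MON F w, moeb W) * qq F ^ (k - w) = if k = 0 then 1 else 0 := by
  have hMON := hB0.2.1
  have h1 : ∑ b ∈ MON F k, ∑ w ∈ Finset.range (k + 1), ∑ a ∈ (MON F w).filter (fun a => a ∣ b), moeb a
      = ∑ b ∈ MON F k, if b = 1 then (1 : ℝ) else 0 := by
    refine Finset.sum_congr rfl fun b hb => ?_
    obtain ⟨h2, h3⟩ := (hMON k b).1 hb
    exact part4 hB0 k b h2 h3.le
  have h2 : ∑ b ∈ MON F k, (if b = 1 then (1 : ℝ) else 0) = if k = 0 then 1 else 0 := by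
    rw [Finset.sum_ite_eq' (MON F k) (1 : F[X]) (fun _ => (1 : ℝ))]
    by_cases hk : k = 0
    · rw [if_pos hk, if_pos]
      rw [hMON, hk]
      exact ⟨monic_one, natDegree_one⟩
    · rw [if_neg hk, if_neg]
      rw [hMON, natDegree_one]
      rintro ⟨_, h3⟩
      exact hk h3.symm
  rw [← h2, ← h1, Finset.sum_comm]
  refine Finset.sum_congr rfl fun w hw => ?_
  have hwk : w ≤ k := Nat.lt_succ_iff.1 (Finset.mem_range.1 hw)
  have h3 : ∀ b : F[X], ∑ a ∈ (MON F w).filter (fun a => a ∣ b), moeb a =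
      ∑ a ∈ MON F w, if a ∣ b then moeb a else 0 := fun b => Finset.sum_filter _ _
  simp only [h3]
  rw [Finset.sum_comm, Finset.sum_mul]
  refine Finset.sum_congr rfl fun a ha => ?_
  rw [← Finset.sum_filter, Finset.sum_const, card_mult hB0 hwk ha, nsmul_eq_mul, mul_comm]
  unfold qq
  push_cast
  rfl

theorem part5 (hB0 : S_B0 F) (w : ℕ) :
    ∑ W ∈ MON F w, moeb W = if w = 0 then 1 else if w = 1 then - qq F else 0 := by
  have hrec : ∀ k : ℕ, ∑ W ∈ MON F (k + 1), moeb W = - qq F * (if k = 0 then 1 else 0) := by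
    intro k
    have h1 := conv hB0 (k + 1)
    have h2 := conv hB0 k
    rw [if_neg (Nat.succ_ne_zero k), Finset.sum_range_succ, Nat.sub_self, pow_zero, mul_one] at h1
    have h3 : ∑ w ∈ Finset.range (k + 1), (∑ W ∈ MON F w, moeb W) * qq F ^ (k + 1 - w) =
        qq F * ∑ w ∈ Finset.range (k + 1), (∑ W ∈ MON F w, moeb W) * qq F ^ (k - w) := by
      rw [Finset.mul_sum]
      refine Finset.sum_congr rfl fun w hw => ?_
      have hwk : w ≤ k := Nat.lt_succ_iff.1 (Finset.mem_range.1 hw)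
      rw [Nat.succ_sub hwk, pow_succ]
      ring
    rw [h3, h2] at h1
    linarith
  rcases w with _ | k
  · rw [if_pos rfl]
    have h1 := conv hB0 0
    rw [if_pos rfl, Finset.sum_range_one, Nat.sub_self, pow_zero, mul_one] at h1
    exact h1
  · rw [hrec k, if_neg (Nat.succ_ne_zero k)]
    by_cases hk : k = 0
    · rw [if_pos hk, if_pos (by omega), mul_one]
    · rw [if_neg hk, if_neg (by omega), mul_zero]

end XMU

theorem p_MU (F : Type) [Field F] [Fintype F] [CharP F 5] (hB0 : S_B0 F) : S_MU F :=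
  ⟨XMU.mu_abs, XMU.mu_one, XMU.mu_mul, XMU.part3 hB0, XMU.part4 hB0, XMU.part5 hB0⟩

end D5
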