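import Pool.Agent.H506.D5.Defs

/-!
# Class groups of quadratic function fields in characteristic 5: the statements (as `Prop`s) with paper proofs

Every board task is: prove `theorem D5.p_XX : S_XX F` (with the listed `S_..` as hypotheses where the docstring says so).
`F` is a finite field of characteristic 5.  `q = #F`.
-/

open Polynomial
open scoped Classical

noncomputable section

namespace D5

variable (F : Type) [Field F] [Fintype F] [CharP F 5]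

/-! ## Part 0 : basic facts -/

/-- **B0** (finite sets of polynomials; adaptation of DH.p_B0). -/
def S_B0 : Prop :=
  (∀ n (g : F[X]), g ∈ POL F n ↔ g.degree < n) ∧
  (∀ n (f : F[X]), f ∈ MON F n ↔ f.Monic ∧ f.natDegree = n) ∧
  (∀ d (v : F[X]), v ∈ DEG F d ↔ v ≠ 0 ∧ v.natDegree = d) ∧
  (∀ n, (POL F n).card = Fintype.card F ^ n) ∧
  (∀ n, (MON F n).card = Fintype.card F ^ n) ∧
  (∀ d, (DEG F d).card = (Fintype.card F - 1) * Fintype.card F ^ d)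

/-- **B1** fifth powers and solutions.
(1) `G' = 0` iff `G` is a fifth power (coefficients of `X ^ m`, `5 ∤ m`, vanish; `F` is perfect).
(2) the fifth derivative of every polynomial is `0`.
(3) `(G'''')_m = (m+4)(m+3)(m+2)(m+1) G_{m+4}`, and the product is `0` in `F` unless `5 ∣ m`, when it is `24 = -1`; so
`(f ^ 2 v)'''' = - v ^ 5` iff for all `j` the coefficient of `X ^ (5 j + 4)` in `f ^ 2 v` is `v_j ^ 5`
(`v ^ 5 = ∑ v_j ^ 5 X ^ (5 j)`).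
(4) if `v ≠ 0` is a solution, `2 deg v + 2 ≤ deg f` (degrees: `5 deg v ≤ 2 deg f + deg v - 4`).
(5) `sol f` is the set of all solutions. -/
def S_B1 : Prop :=
  (∀ G : F[X], derivative G = 0 ↔ ∃ A : F[X], G = A ^ 5) ∧
  (∀ G : F[X], derivative (d4 G) = 0) ∧
  (∀ f v : F[X], IsSol f v ↔ ∀ j : ℕ, (f ^ 2 * v).coeff (5 * j + 4) = (v.coeff j) ^ 5) ∧
  (∀ f v : F[X], v ≠ 0 → IsSol f v → 2 * v.natDegree + 2 ≤ f.natDegree) ∧
  (∀ f v : F[X], v ∈ sol f ↔ IsSol f v)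

/-! ## Part 1 : the class group.  `O = OO f`, `δ = dl f`.  (Adaptations of the files A1 - A9, C1, C2 of
`Pool.Agent.H463.DH`, where the characteristic is 3 and the equation is `(f v)'' = - v ^ 3`.) -/

/-- **A1** `δ` is an additive derivation killing fifth powers, with `δ⁵ = - (f²)'''' δ`, and `δ (cc v) = v' s`.
Proof: coordinates and `ring`-like computations with `5 = 0`, `derivative`-rules, and `f''''' = 0` (every fifth derivative
vanishes in characteristic 5).  For the fifth power: `δ(x⁵) = 5 x⁴ δ x = 0` from Leibniz.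
For `δ⁵`: on `x = a + b s` use `δ (a + b s) = (b' f + 3 b f') + a' s` five times (compute `δ²`, then `δ⁴`, then `δ⁵`).
In coordinates `δ² (a + b s) = (a'' f + 3 a' f') + (b' f + 3 b f')' s`. -/
def S_A1 : Prop :=
  ∀ f : F[X],
    (∀ x y : OO f, dl f (x + y) = dl f x + dl f y) ∧
    (∀ x y : OO f, dl f (x * y) = x * dl f y + y * dl f x) ∧
    (∀ x : OO f, dl f (x ^ 5) = 0) ∧
    (∀ x y : OO f, dl f (x ^ 5 * y) = x ^ 5 * dl f y) ∧
    (∀ v : F[X], dl f (cc f v) = ⟨0, derivative v⟩)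

/-- **A1b** (uses A1) `δ⁵ = - (f²)'''' δ`, and the identity `δ⁴ v = (f² v)'''' - (f²)'''' v` for `v ∈ F[X]`.
Proof: second: `δ v = v' s`, `δ² v = v'' f + 3 v' f'`, so with `E v = v'' f + 3 v' f'` one has `δ⁴ v = E (E v)`, and
`E (E v) = f² v'''' + 3 f f' v''' + (2 f f'' + 2 f'²) v'' + (3 f f''' + 4 f' f'') v'`, which is
`(f² v)'''' - (f²)'''' v` in characteristic 5.
First: for `x = a` in `F[X]`, `δ⁵ a = (E (E a))' s` and the claim is `(E (E a))' = - (f²)'''' a'`: from the second identity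
`(E (E a))' = (f² a)''''' - (f²)''''' a - (f²)'''' a' = - (f²)'''' a'`.  For `x = b s`: `δ (b s) = b' f + 3 b f' =: c ∈ F[X]` and
`δ⁵ (b s) = δ⁴ c = (f² c)'''' - (f²)'''' c`, so one needs `(f² c)'''' = 0` for `c = b' f + 3 b f'`: indeed
`f² c = (b f³)'` as `(b f³)' = b' f³ + 3 b f² f'`, so `(f² c)'''' = (b f³)''''' = 0`.  Additivity gives all `x = a + b s`. -/
def S_A1b : Prop :=
  ∀ f : F[X],
    (∀ x : OO f, dl f (dl f (dl f (dl f (dl f x)))) = - cc f (d4 (f ^ 2)) * dl f x) ∧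
    (∀ v : F[X], dl f (dl f (dl f (dl f (cc f v)))) = cc f (d4 (f ^ 2 * v) - d4 (f ^ 2) * v))

/-- **A2** For `f` monic of odd degree `O` is a domain, and its units are the nonzero constants. (Copy of DH.A2.) -/
def S_A2 : Prop :=
  ∀ f : F[X], Good f → IsDomain (OO f) ∧ ∀ u : OO f, IsUnit u → ∃ a : F, a ≠ 0 ∧ u = cc f (C a)

/-- **A3** For `f` monic squarefree of odd degree `O` is a Dedekind domain. (Copy of DH.A3.) -/
def S_A3 : Prop :=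
  ∀ f : F[X], Good f → IsDedekindDomain (OO f)

/-- **A4** (uses A1, A2, B1) for `f` good: `δ x = 0` implies that `x` is a fifth power in `O`; and if `h₁, h₂ ≠ 0` have
`h₁ δ h₂ = h₂ δ h₁` then `h₁ e ^ 5 = h₂ c ^ 5` for some `c, e ≠ 0`.
Proof: `x = a + b s`, `a' = 0` so `a = a₁ ^ 5`; `b' f + 3 b f' = 0` gives `(b f³)' = f² (b' f + 3 b f') = 0`, so
`b f³ = c ^ 5`, `f ∣ c` (squarefree), `c = f c₁`, `b = f² c₁ ^ 5`, `b s = (c₁ s) ^ 5` (`s ^ 5 = f² s`), and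
`a₁ ^ 5 + (c₁ s) ^ 5 = (a₁ + c₁ s) ^ 5`.
Second part: `δ(h₁⁴ h₂) = 4 h₁³ h₂ δ h₁ + h₁⁴ δ h₂ = 5 h₁³ h₂ δ h₁ = 0`, so `h₁⁴ h₂ = c ^ 5`, `c ≠ 0`, and
`h₂ h₁ ^ 5 = h₁ c ^ 5`; so take `e := c` and `c := h₁`. -/
def S_A4 : Prop :=
  ∀ f : F[X], Good f →
    (∀ x : OO f, dl f x = 0 → ∃ y : OO f, x = y ^ 5) ∧
    (∀ h₁ h₂ : OO f, h₁ ≠ 0 → h₂ ≠ 0 → h₁ * dl f h₂ = h₂ * dl f h₁ →
      ∃ c e : OO f, c ≠ 0 ∧ e ≠ 0 ∧ h₁ * e ^ 5 = h₂ * c ^ 5)

/-- **A5** (uses A1, A2, B1) for `f` good every maximal ideal `Q` of `O` contains `π` with `δ π ∉ Q`.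
Proof (as DH.A5): `Q` contains a nonzero polynomial.  Let `P ≠ 0` be a polynomial of minimal degree with `cc P ∈ Q`.
If `P' = 0` then `P = R ^ 5`, `cc R ∈ Q` (prime), `deg R < deg P` unless `P` is constant, i.e. a unit: contradiction.
So `P' ≠ 0` has smaller degree and `cc P' ∉ Q`.  If `s ∉ Q` then `δ (cc P) = P' s ∉ Q`: take `π = P`.
If `s ∈ Q` then `f = s² ∈ Q` and `δ s = 3 f'`; if `f' ∈ Q` too then `1 ∈ Q` because `f` squarefree and `F` perfect give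
`IsCoprime f f'`; so take `π = s` (`3 = - 2` is a unit). -/
def S_A5 : Prop :=
  ∀ f : F[X], Good f → ∀ Q : Ideal (OO f), Q.IsMaximal → ∃ π : OO f, π ∈ Q ∧ dl f π ∉ Q

/-- **A6** (uses A1, A1b, A5) for `f` good and `(f² v)'''' = - v ^ 5` the elements `h` with `δ h = v h` generate the unit ideal.
Proof: put `T x = δ x - v x` and `c = - (f²)''''` (`δ c = 0`, as the fifth derivative vanishes).  In characteristic 5
`T⁵ x = δ⁵ x - (δ⁴ v) x - v⁵ x` (Jacobson; expand `T² x, T³ x, …` with Leibniz and use `5 = 0`), `δ⁵ x = c δ x`, and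
`δ⁴ v = (f² v)'''' + c v = - v⁵ + c v` (A1b), so `T⁵ x = c δ x - c v x = c T x`, and `T (c x) = c T x`.
Hence `T (T⁴ x - c x) = 0`, i.e. `T⁴ x - c x` is in the set, for all `x`.  If the ideal were proper it would lie in a
maximal `Q`; take `π ∈ Q`, `δ π ∉ Q` (A5) and `x = π⁴`: every `T`-expansion gives
`T⁴ (π⁴) - c π⁴ ≡ δ⁴ (π⁴) ≡ 24 (δ π)⁴ = - (δ π)⁴` mod `(π) ⊆ Q`, not in `Q`: contradiction.
(One way: show by Leibniz `T (π ^ (k+1) y) = π ^ k (π (T y) + (k+1) (δ π) y)`, so `T (π⁴) = π³ y₁`, `y₁ ≡ 4 δ π` mod `π`, etc.) -/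
def S_A6 : Prop :=
  ∀ f : F[X], Good f → ∀ v : F[X], IsSol f v →
    Ideal.span {h : OO f | dl f h = cc f v * h} = ⊤

/-- **A7** (uses A1, A2, A3, A4, A6) for `f` good and `(f² v)'''' = - v ^ 5` there are `h ≠ 0` with `δ h = v h` and an ideal
`I` with `I ^ 5 = (h)`.
Proof: by A6 write `1 = ∑ x_i m_i` (finite), `δ m_i = v m_i`; some `m_i ≠ 0`, call it `h₀`.  For every `i` with `m_i ≠ 0` A4
(second part: `h₀ δ m_i = v h₀ m_i = m_i δ h₀`) gives `m_i e_i ^ 5 = h₀ c_i ^ 5`, `e_i ≠ 0` (for `m_i = 0` take `c_i = 0`,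
`e_i = 1`); with `b = ∏ e_i ≠ 0` and `a_i = c_i ∏_{j ≠ i} e_j` we get `b ^ 5 m_i = h₀ a_i ^ 5`.  Let `J = (a_i)`.  Then
`(h₀) J ^ 5 = (b ^ 5)`: first `b ^ 5 = ∑ x_i b ^ 5 m_i = ∑ x_i h₀ a_i ^ 5 ∈ (h₀) J ^ 5`; second for generators
`(h₀ a_{i₁} ⋯ a_{i₅}) ^ 5 = (b ^ 5) ^ 5 m_{i₁} ⋯ m_{i₅}`, so `(b ^ 5) ^ 5 ∣ (h₀ a_{i₁} ⋯ a_{i₅}) ^ 5`, hence
`b ^ 5 ∣ h₀ a_{i₁} ⋯ a_{i₅}` as `O` is integrally closed (`IsIntegrallyClosed.pow_dvd_pow_iff`).
Finally `I := (b) (h₀) J ^ 4`, `h := h₀ b ^ 25`: `I ^ 5 = (b ^ 5 h₀) ((h₀) J ^ 5) ^ 4 = (b ^ 5 h₀ b ^ 20) = (h)` and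
`δ h = b ^ 25 δ h₀ = v h`. -/
def S_A7 : Prop :=
  ∀ f : F[X], Good f → ∀ v : F[X], IsSol f v →
    ∃ h : OO f, h ≠ 0 ∧ dl f h = cc f v * h ∧ ∃ I : Ideal (OO f), I ^ 5 = Ideal.span {h}

/-- **A8** (uses A1, A1b, A2) for `f` good, `h ≠ 0` and `I ^ 5 = (h)` there is `v` with `δ h = v h` and `(f² v)'''' = - v ^ 5`.
Proof: `h ∈ I ^ 5 = I * I ^ 4`, so `h = ∑ x_i y_i` (finite), `x_i ∈ I`, `y_i ∈ I ^ 4`; `x_i ^ 5 = h b_i`
(`x_i ^ 5 ∈ I ^ 5 = (h)`) and `y_i ^ 5 = h⁴ a_i` (`y_i ^ 5 ∈ I ^ 20 = (h⁴)`).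
In characteristic 5 `h ^ 5 = ∑ x_i ^ 5 y_i ^ 5 = h ^ 5 ∑ a_i b_i`, so `∑ a_i b_i = 1`.  Apply `δ` to `y_i ^ 5 = h⁴ a_i`:
`0 = 4 h³ (δ h) a_i + h⁴ δ a_i`, so `h δ a_i = a_i δ h` (as `-4 = 1`, `h ≠ 0`, `O` a domain).
Hence `δ h = ∑ b_i a_i δ h = h w` with `w = ∑ b_i δ a_i`.
Write `w = α + β s`, `N = h * conj h = a² - f b² ∈ F[X]`, `N ≠ 0` (`conj (a + b s) = a - b s`, `δ (conj x) = - conj (δ x)`):
`N' s = δ N = δ h conj h + h δ (conj h) = N (w - conj w) = 2 β s N`, so `N' = 2 β N` and `β = 0` by degrees.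
So `δ h = v h`, `v = α`.  With `T x = δ x - v x`: `T h = 0`, so `0 = T⁵ h = δ⁵ h - (δ⁴ v) h - v⁵ h` (see A6; or directly
`δ² h = (δ v + v²) h` and so on), `δ⁵ h = - (f²)'''' v h`, so `δ⁴ v + v⁵ + (f²)'''' v = 0`, and by A1b this is
`(f² v)'''' + v⁵ = 0`. -/
def S_A8 : Prop :=
  ∀ f : F[X], Good f → ∀ h : OO f, h ≠ 0 → ∀ I : Ideal (OO f), I ^ 5 = Ideal.span {h} →
    ∃ v : F[X], IsSol f v ∧ dl f h = cc f v * h

/-- **A9** (uses A1, A2, A3, A4, A7, A8, B1) for `f` good the number of ideal classes `c` with `c ^ 5 = 1` equals the number of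
solutions `v` of `(f² v)'''' = - v ^ 5`.
Proof (as DH.A9): use `ClassGroup.mk0`.  Relation `R v c`: there are `h ≠ 0`, `I` nonzero ideal, `I ^ 5 = (h)`, `δ h = v h`, class
of `I` is `c`.  Every solution `v` has some `c` (A7); `c` is unique: `h, I` and `h', I'` with the same `v` have
`h δ h' = h' δ h`, so by A4 `h e ^ 5 = h' c ^ 5`, `(I (e)) ^ 5 = (I' (c)) ^ 5`, so `I (e) = I' (c)` and the classes agree;
`c ^ 5 = 1` clear.  Every `c` with `c ^ 5 = 1` has some solution `v`: `c = mk0 I`, `I ^ 5` principal, nonzero, A8.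
`v` is unique: if `(x) I = (y) I'` with `x, y ≠ 0` then `(x ^ 5 h) = (y ^ 5 h')`, `x ^ 5 h = u y ^ 5 h'` with `u` a unit, a constant
by A2, so `δ u = 0`, and applying `δ`: `x ^ 5 v h = u y ^ 5 v' h' = v' x ^ 5 h`, so `v = v'`.  So `R` is a bijection. -/
def S_A9 : Prop :=
  ∀ f : F[X], Good f → cl5 f = (sol f).card

/-- **C2** (uses A2, A3; adaptation of DH.C1, DH.C2) the class number is positive, `#Cl[5]` is a power of 5, and it is `> 1` iff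
`5` divides the class number. -/
def S_C2 : Prop :=
  ∀ f : F[X], Good f → 0 < cln f ∧ (1 < cl5 f ↔ 5 ∣ cln f) ∧ ∃ r : ℕ, cl5 f = 5 ^ r

/-! ## Part 2 : the exponential sums -/

/-- **E1** (uses B0; Weyl differencing) for an additive character `ψ ≠ 1` of `F` with values in `ℂ`, `l` and `v`:
`‖∑_{f monic of degree 2g+1} ψ (Lam l (f² v))‖² ≤ q ^ (2g+1) KK g l v`.
Proof: put `n = 2g+1`; `f = X ^ n + u`, `u ∈ POL n`.  `‖∑_u ψ(Φ(X^n + u))‖² = ∑_{u, u₁} ψ(Φ(X^n + u₁) - Φ(X^n + u))`,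
`Φ(f) = Lam l (f² v)`; substitute `u₁ = u + z`: `Φ(f + z) - Φ(f) = 2 Lam l (v z f) + Φ(z)`; so the sum is
`∑_z ψ(Φ(z) + 2 Lam l (v z X^n)) ∑_u ψ(2 Lam l (v z u))` and the inner sum is `q ^ n` if `Lam l (v z u) = 0` for all
`u ∈ POL n`, and `0` otherwise (`u ↦ ψ (2 Lam l (v z u))` is then a nontrivial character of the additive group of the
polynomials of degree `< n`: choose `u₀` with `Lam l (v z u₀) ≠ 0` and a scalar multiple of it with `ψ ≠ 1`). -/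
def S_E1 : Prop :=
  ∀ (ψ : AddChar F ℂ), ψ ≠ 1 → ∀ (g : ℕ) (l : Fin g → F) (v : F[X]),
    ‖∑ f ∈ MON F (2 * g + 1), ψ (Lam g l (f ^ 2 * v))‖ ^ 2 ≤ qq F ^ (2 * g + 1) * (KK g l v : ℝ)

/-- **E2** (uses B0, B1, E1) for `v` of degree `< g` the number of monic `f` of degree `2g+1` with `(f² v)'''' = - v⁵` is at most
`q ^ (g+1) + q ^ (-g) ∑_{l ≠ 0} (q ^ (2g+1) KK g l v)^(1/2)`.
Proof: by B1 (3) the condition is `(f² v)_{5j+4} = v_j ^ 5` for all `j`, in particular for `j < g` (an upper bound needs only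
these).  Take a nontrivial additive character `ψ : F → ℂ`; for `a ∈ F`, `∑_{t ∈ F} ψ(t a) = q` if `a = 0` and `0` otherwise, so
`q ^ g · #{f : … for j < g} = ∑_{l ∈ F^g} ∑_f ψ(∑_j l_j ((f² v)_{5j+4} - v_j⁵)) ≤ ∑_l ‖∑_f ψ(Lam l (f² v))‖`; `l = 0` gives
`q ^ (2g+1)`, the others by E1. -/
def S_E2 : Prop :=
  ∀ (g : ℕ) (v : F[X]), v ∈ POL F g →
    qq F ^ g * (((MON F (2 * g + 1)).filter (fun f => IsSol f v)).card : ℝ) ≤
      qq F ^ (2 * g + 1) + ∑ l ∈ (Finset.univ : Finset (Fin g → F)).filter (fun l => l ≠ 0),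
        Real.sqrt (qq F ^ (2 * g + 1) * (KK g l v : ℝ))

/-- **E3** (uses B0) if `fac g w ≤ D` for all `w ≠ 0` of degree `< 3g` then `∑_{v ≠ 0, deg v < g} KK g l v ≤ q ^ g + D #(WW g l)`.
Proof: the sum counts pairs `(v, z)`, `v ≠ 0`, `z ∈ POL (2g+1)`, `Lam l (v z y) = 0` for all `y ∈ POL (2g+1)`.  Those with
`z = 0` are at most `q ^ g`; for `z ≠ 0` the product `w = v z` is not `0`, has degree `< 3 g` (`≤ (g-1) + 2g`) and is in
`WW g l`, and at most `fac g w ≤ D` pairs have the product `w`. -/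
def S_E3 : Prop :=
  ∀ (g : ℕ) (l : Fin g → F) (D : ℝ), 0 ≤ D → (∀ w ∈ POL F (3 * g), w ≠ 0 → (fac g w : ℝ) ≤ D) →
    ∑ v ∈ (POL F g).filter (fun v => v ≠ 0), (KK g l v : ℝ) ≤ qq F ^ g + D * ((WW g l).card : ℝ)

/-- **E4** (uses B0) the number of `l` of rank `r` is at most `q ^ (2r+1)`; and the rank of every `l` satisfies `2 rr ≤ g + 1`, and
`rr = 0` only for `l = 0`.
Proof: the set `{r : Ann g l r}` is nonempty (`r = g`, `B = 1`), so `Ann g l (rr g l)` holds (`Nat.sInf_mem`).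
Given `B ≠ 0` of degree `b ≤ r`, the conditions `mu l (X ^ i B) = ∑_j l_j B_{j-i} = 0`, `i < g - r`, determine
`l_{b+i}` from the `l_j`, `j < b + i`; so at most `q ^ (g - (g - r)) = q ^ r` functions `l` satisfy them (`r ≤ g`); the number of
`B` is `≤ q ^ (r+1)`.  Bound for the rank: for `r = (g+1)/2` the `B` with `deg B ≤ r` form a space of dimension
`r + 1 > g - r`, so some `B ≠ 0` satisfies the `g - r` linear conditions.  If `rr = 0` then `B` is a nonzero constant and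
`mu l (X ^ i) = l_i = 0` for all `i < g`. -/
def S_E4 : Prop :=
  (∀ g r : ℕ, ((Finset.univ : Finset (Fin g → F)).filter (fun l => rr g l = r)).card ≤ Fintype.card F ^ (2 * r + 1)) ∧
  (∀ (g : ℕ) (l : Fin g → F), Ann g l (rr g l)) ∧
  (∀ (g : ℕ) (l : Fin g → F), 2 * rr g l ≤ g + 1) ∧
  (∀ (g : ℕ) (l : Fin g → F), rr g l = 0 → l = 0)

/-- **H1** (uses B0) trivial kernels and transposition.  Let `r = rr g l`.
(1) for `J ≤ r` (and `J ≤ g + 1`) the kernel `HK g l J (g + 1 - J)` is `{0}`: a nonzero `P` in it has degree `≤ J - 1` and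
`mu (X ^ i P) = 0` for `i < g + 1 - J = g - (J - 1)`, so `Ann g l (J - 1)` holds, against the minimality of `r`
(`J = 0`: `POL 0 = {0}`).
(2) for `J + K = g + 1`, `K ≤ r`: `#HK g l J K = q ^ (J - K)` (in particular `K ≤ J`): the matrix `(l_{i+j})_{i < K, j < J}` of the conditions has the
transpose `(l_{i+j})_{i < J, j < K}`, which has trivial kernel by (1) for `K`, so its rank is `K` (`Matrix.rank_transpose`) and the
kernel has dimension `J - K`. -/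
def S_H1 : Prop :=
  (∀ (g : ℕ) (l : Fin g → F) (J : ℕ), J ≤ rr g l → J ≤ g + 1 → HK g l J (g + 1 - J) = {0}) ∧
  (∀ (g : ℕ) (l : Fin g → F) (J K : ℕ), J + K = g + 1 → K ≤ rr g l → K ≤ J ∧
    (HK g l J K).card = Fintype.card F ^ (J - K))

/-- **H2** (uses B0) the growth of the kernels: if `HK g l J (K + 1)` has a nonzero element then
`q · #HK g l J (K+1) ≤ #HK g l (J+1) K`.
Proof: `A = HK g l J (K+1)` is an `F`-subspace of `F[X]`, and `A + X A ⊆ HK g l (J+1) K` (for `P ∈ A`, `mu (X ^ i X P) = 0` for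
`i < K`).  Let `P ∈ A` have maximal degree (`A ≠ 0`, finite): `X P ∉ A`, so `#(A + F X P) = q #A`. -/
def S_H2 : Prop :=
  ∀ (g : ℕ) (l : Fin g → F) (J K : ℕ), (∃ P ∈ HK g l J (K + 1), P ≠ 0) →
    Fintype.card F * (HK g l J (K + 1)).card ≤ (HK g l (J + 1) K).card

/-- **H3** (uses B0, E4, H1, H2) for `J + K = g + 1`: `#HK g l J K ≤ q ^ (max (J - r) (2 J - (g+1)))` (natural subtraction,
`r = rr g l`); and for `J + K = g`: `#HK g l J K ≤ q ^ (max (J - r) (2 J - (g+1)) + 1)`.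
Proof: first `J + K = g + 1`.  `J ≤ r`: H1 (1).  `K ≤ r`, i.e. `J ≥ g + 1 - r`: H1 (2), `J - K = 2 J - (g+1)`.
`r ≤ J ≤ J₀ = g + 1 - r` (`r ≤ J₀` by E4): downward induction from `J₀`, where `#HK = q ^ (J₀ - r)` by H1 (2): if
`HK g l J (g+1-J)` is `{0}` nothing to show; otherwise by H2 `q #HK g l J (g+1-J) ≤ #HK g l (J+1) (g-J) ≤ q ^ (J + 1 - r)`.
For `J + K = g`: `HK g l J (K+1)` is the kernel of one linear form on `HK g l J K`, so `#HK g l J K ≤ q #HK g l J (K+1)`. -/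
def S_H3 : Prop :=
  (∀ (g : ℕ) (l : Fin g → F) (J K : ℕ), J + K = g + 1 →
    (HK g l J K).card ≤ Fintype.card F ^ (max (J - rr g l) (2 * J - (g + 1)))) ∧
  (∀ (g : ℕ) (l : Fin g → F) (J K : ℕ), J + K = g →
    (HK g l J K).card ≤ Fintype.card F ^ (max (J - rr g l) (2 * J - (g + 1)) + 1))

/-- **E5** (uses B0, E4, H3) `#(WW g l) ≤ q ^ (g + 8) + q ^ (3 g + 9 - 5 r)`, `r = rr g l`, for `g ≥ 2`.
Proof: for `s = 0, …, 4` let `w_s = ∑_k w_{5k+s} X ^ k` (of degree `< J_s = (3g + 4 - s) / 5`) and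
`K_s = (2g + s + 1) / 5` (natural division), so `J_s + K_s` is `g` or `g + 1`.  For `i < K_s` take `y = X ^ (5 i + 4 - s)`, of degree
`≤ 2 g`: `0 = Lam l (w y) = ∑_j l_j w_{5j+4-(5i+4-s)} = ∑_{j ≥ i} l_j (w_s)_{j-i} = mu l (X ^ i w_s)`.
So `w ↦ (w_s)_s` is an injection of `WW g l` into the product of the five `HK g l J_s K_s`, and by H3 the number is at most
`q ^ ∑_s (max (J_s - r) (2 J_s - (g+1)) + 1)`; `J_s ≤ (3g+4)/5`, so the exponent is `≤ max (3g + 9 - 5r) (g + 8)`. -/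
def S_E5 : Prop :=
  ∀ (g : ℕ) (l : Fin g → F), 2 ≤ g →
    ((WW g l).card : ℝ) ≤ qq F ^ (g + 8) + qq F ^ (3 * g + 9 - 5 * rr g l)

/-- **E6** (uses B0) divisor bound: for `ε > 0` there is `C` with `fac g w ≤ C q ^ (ε g)` for all `g` and all `w ≠ 0` (of degree `< 3g`).
Proof: `v` divides `w`; up to a scalar (`q - 1` choices) the divisor `v = ∏ P ^ (a_P)`, `0 ≤ a_P ≤ e_P`, where `w = c ∏ P ^ (e_P)`, and `z = w / v`.
So `fac g w ≤ (q - 1) ∏ (e_P + 1)`, `∑ e_P deg P ≤ 3 g`.  Let `η = ε / 3` and `M` with `2 ≤ q ^ (η M)`.  The primes with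
`deg P ≥ M` give `∏ (e_P + 1) ≤ ∏ 2 ^ (e_P) ≤ q ^ (η ∑ e_P deg P)`; for the at most `q ^ M` (monic) primes with `deg P < M`
use `e + 1 ≤ C₁ q ^ (η e)` (some `C₁ ≥ 1`), so their product is at most `C₁ ^ (q ^ M) q ^ (η ∑ e_P deg P)`.
(A simpler way is fine too, e.g. induction over the factorization.) -/
def S_E6 : Prop :=
  ∀ ε : ℝ, 0 < ε → ∃ C : ℝ, 0 < C ∧ ∀ (g : ℕ) (w : F[X]), w ≠ 0 → w ∈ POL F (3 * g) →
    (fac g w : ℝ) ≤ C * qq F ^ (ε * (g : ℝ))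

/-- **E7** (uses B0, E3, E4, E5) with a bound `D ≥ 1` for `fac g`: `∑_{v ≠ 0} ∑_{l ≠ 0} (KK g l v)^(1/2) ≤ 3 D^(1/2) q ^ (2 g + 6)`, `g ≥ 2`.
Proof: for fixed `l ≠ 0`, by Cauchy-Schwarz over the `≤ q ^ g` polynomials `v`, E3 and E5 (`√(a+b+c) ≤ √a + √b + √c`):
`∑_v √KK ≤ q ^ (g/2) √(q ^ g + D q ^ (g+8) + D q ^ (3g+9-5r)) ≤ q ^ g + √D q ^ (g+4) + √D q ^ (2 g + (9 - 5 r)/2)`.
(`5 r ≤ 3 g + 9` because `2 r ≤ g + 1`, E4.)  Sum over `l`: the first two terms give `≤ (1 + √D q ^ 4) q ^ (2g) ≤ 2 √D q ^ (2g+4)`; the third,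
grouping by `r = rr g l ≥ 1` (E4), `√D ∑_{r ≥ 1} q ^ (2r+1) q ^ (2g + (9-5r)/2) = √D q ^ (2g + 11/2) ∑_{r≥1} q ^ (-r/2)
≤ √D q ^ (2 g + 11/2)` as `q ≥ 5` (`∑_{r ≥ 1} 5 ^ (-r/2) = 1/(√5 - 1) < 1`). -/
def S_E7 : Prop :=
  ∀ (g : ℕ) (D : ℝ), 2 ≤ g → 1 ≤ D → (∀ w ∈ POL F (3 * g), w ≠ 0 → (fac g w : ℝ) ≤ D) →
    ∑ v ∈ (POL F g).filter (fun v => v ≠ 0), ∑ l ∈ (Finset.univ : Finset (Fin g → F)).filter (fun l => l ≠ 0),
      Real.sqrt (KK g l v : ℝ) ≤ 3 * Real.sqrt D * qq F ^ (2 * g + 6)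

/-- **E8** (uses B0, B1, E2, E6, E7) for `ε > 0` there is `C` with `∑_{f monic of degree 2g+1} #sol f ≤ C q ^ (2g+1) q ^ (ε g)` for all `g`.
Proof: for `g ≥ 2`: the solution `v = 0` contributes `q ^ (2g+1)`; a solution `v ≠ 0` has `deg v < g` (B1 (4)), and by E2 the
number of pairs `(f, v)`, `v ≠ 0`, is at most `∑_v (q ^ (g+1) + q ^ (-g) ∑_{l ≠ 0} (q ^ (2g+1) KK)^(1/2))
≤ q ^ (2g+1) + q ^ (1/2) ∑_v ∑_l √KK ≤ q ^ (2g+1) + q · 3 √D q ^ (2g+6)` by E7 with `D = max 1 (C₁ q ^ (2 ε g))` from E6 (with `2 ε`).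
For `g ≤ 1` there are at most `q ^ 3` polynomials `f`, each with at most `q ^ 3` solutions (`sol f ⊆ POL (deg f)`). -/
def S_E8 : Prop :=
  ∀ ε : ℝ, 0 < ε → ∃ C : ℝ, 0 < C ∧ ∀ g : ℕ,
    ∑ f ∈ MON F (2 * g + 1), ((sol f).card : ℝ) ≤ C * qq F ^ (2 * g + 1) * qq F ^ (ε * (g : ℝ))

/-- **F5** (uses B0; adaptation of the last part of DH.F5) `#{f ∈ MON (2g+1) squarefree} = q^{2g+1} - q^{2g}` for `g ≥ 1`. -/
def S_F5 : Prop :=
  ∀ g : ℕ, 1 ≤ g → ((SQF F (2 * g + 1)).card : ℝ) = qq F ^ (2 * g + 1) - qq F ^ (2 * g)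

end D5
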