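import Pool.Agent.H506.D5.Stm2

/-!
# Project D5, third part: the average of the 5-torsion is at most `2 + O(q^(-1/2))`, uniformly in the genus `g ≥ 40`

`F` is a finite field of characteristic 5.  All constants are absolute.  Notation: `d = rr g l`, `δ₀ = g + 1 - 2 d`.
New with respect to part 2: the linear term of the exponential sum is used (`Ex`), and the exact powers of `q`.
-/

open Polynomial
open scoped Classical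

noncomputable section

namespace D5

/-- The linear form `z ↦ Lam (v z X^(2g+1))` vanishes on the radical. -/
def Ex {F : Type} [Field F] [Fintype F] (g : ℕ) (l : Fin g → F) (v : F[X]) : Prop :=
  ∀ z ∈ POL F (2 * g + 1), (∀ y ∈ POL F (2 * g + 1), Lam g l (v * z * y) = 0) →
    Lam g l (v * z * X ^ (2 * g + 1)) = 0

/-- The radical has `q ^ k` elements, `k ≥ 1`, and contains `z X ^ i`, `i < k`, in the strong sense (one more condition than `GP`). -/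
def GPs {F : Type} [Field F] [Fintype F] (g : ℕ) (l : Fin g → F) (v : F[X]) (k : ℕ) (z : F[X]) : Prop :=
  KK g l v = Fintype.card F ^ k ∧ 1 ≤ k ∧ k ≤ 2 * g + 1 ∧ z ≠ 0 ∧ z ∈ POL F (2 * g + 2 - k) ∧
    ∀ i, i < 2 * g + k + 1 → Lam g l (v * z * X ^ i) = 0

/-- The radical is large and its generator involves `b₂`. -/
def NLs {F : Type} [Field F] [Fintype F] (g : ℕ) (l : Fin g → F) (v : F[X]) (k : ℕ) : Prop :=
  ∃ z α β : F[X], GPs g l v k z ∧ v * z = (bb g l).1 ^ 5 * α + (bb g l).2 ^ 5 * β ∧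
    α ∈ POL F (3 * g + 4 - k - 5 * rr g l) ∧ β ∈ POL F (3 * g + 4 - k - 5 * (g + 1 - rr g l)) ∧ β ≠ 0

/-- The radical is large and comes from `b₁`. -/
def LOs {F : Type} [Field F] [Fintype F] (g : ℕ) (l : Fin g → F) (v : F[X]) (k : ℕ) : Prop :=
  ∃ z α : F[X], GPs g l v k z ∧ v * z = (bb g l).1 ^ 5 * α ∧ α ∈ POL F (3 * g + 4 - k - 5 * rr g l)

/-- The pairs of `PR` for which `b₁⁵ α + b₂⁵ β` has degree `≤ 3 g - k`. -/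
def PRs {F : Type} [Field F] [Fintype F] (g k d₁ d₂ : ℕ) (b α β : F[X]) : Finset (F[X] × F[X]) :=
  (PR d₁ d₂ b α β).filter (fun p => p.1 ^ 5 * α + p.2 ^ 5 * β ∈ POL F (3 * g + 1 - k))

variable (F : Type) [Field F] [Fintype F] [CharP F 5]

/-- **X1** (uses B0; edit of the file E1) as E1, and the sum vanishes if `Ex` fails.
Proof: in the proof of E1, `‖S‖² = ∑_z ψ(Φ(z) + 2 Lam (v z X^n)) ∑_u ψ(2 Lam (v z u)) = q ^ n ∑_{z ∈ Z} ψ(2 Lam (v z X ^ n))` (`Φ(z) = Lam (v z z) = 0` for `z` in the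
radical `Z`), and `z ↦ ψ(2 Lam(v z X^n))` is a character of the `F`-space `Z`, nontrivial if `Ex` fails (scale `z`). -/
def S_X1 : Prop :=
  ∀ (ψ : AddChar F ℂ), ψ ≠ 1 → ∀ (g : ℕ) (l : Fin g → F) (v : F[X]),
    ‖∑ f ∈ MON F (2 * g + 1), ψ (Lam g l (f ^ 2 * v))‖ ^ 2 ≤
      if Ex g l v then qq F ^ (2 * g + 1) * (KK g l v : ℝ) else 0

/-- **X2** (uses B0, B1, X1; edit of the file E2) -/
def S_X2 : Prop :=
  ∀ (g : ℕ) (v : F[X]), v ∈ POL F g →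
    qq F ^ g * (((MON F (2 * g + 1)).filter (fun f => IsSol f v)).card : ℝ) ≤
      qq F ^ (2 * g + 1) + ∑ l ∈ (Finset.univ : Finset (Fin g → F)).filter (fun l => l ≠ 0 ∧ Ex g l v),
        Real.sqrt (qq F ^ (2 * g + 1) * (KK g l v : ℝ))

/-- **X3** (uses B0, E4; edit of the file E4) `#{l : rr g l = d} ≤ 2 q ^ (2 d)`; more precisely for `B ≠ 0` of degree `≤ d` at most `q ^ d` forms `l` satisfy
`mu l (X ^ i B) = 0` for all `i` with `i + d < g` (`d ≤ g`).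
Proof: second: see the proof of E4 (the conditions determine `l_{b+i}` from the lower ones, `b = deg B`).  First: every `l` with `rr g l = d` is killed by some MONIC
`B` of degree `≤ d` (E4 (2), scale), and there are `≤ q ^ d + … + 1 ≤ 2 q ^ d` of these. -/
def S_X3 : Prop :=
  (∀ g d : ℕ, ((Finset.univ : Finset (Fin g → F)).filter (fun l => rr g l = d)).card ≤ 2 * Fintype.card F ^ (2 * d)) ∧
  (∀ (g d : ℕ) (B : F[X]), d ≤ g → B ≠ 0 → B.natDegree ≤ d →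
    ((Finset.univ : Finset (Fin g → F)).filter (fun l => ∀ i, i + d < g → mu g l (X ^ i * B) = 0)).card ≤ Fintype.card F ^ d)

/-- **X4** (uses B0, G) if `Ex g l v` then the radical is trivial or `GPs g l v k z` for some `k, z`.
Proof: `k, z` from G; if `k ≥ 1`, `z X ^ (k-1)` has degree `≤ 2g` and is in the radical (G, `i + k - 1 < 2g + k` for `i ≤ 2g`, and linearity in `y`), so `Ex` gives
`Lam (v z X ^ (k-1) X ^ (2g+1)) = 0`, which is the missing condition `i = 2g + k`. -/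
def S_X4 : Prop :=
  ∀ (g : ℕ) (l : Fin g → F) (v : F[X]), v ∈ POL F g → v ≠ 0 → Ex g l v →
    KK g l v = 1 ∨ ∃ (k : ℕ) (z : F[X]), GPs g l v k z

/-- **X5** (uses B0, FR, P1, X4, P0, E4; edit of the file P2) if `l ≠ 0`, `GPs g l v k z`, `v ≠ 0`, `deg v < g` then `NLs g l v k` or `LOs g l v k`.
Proof: `d = rr g l ≥ 1`, `(b₁, b₂) = bb g l` satisfies `Val g l d (fr b₁) (fr b₂)` (P0, FR surjective, `Exists.choose_spec`).  `w = v z ≠ 0` has degree `≤ 3g - k` and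
`Lam (w X ^ i) = 0` for `i < N := 2g + k + 1`.  As in P2 with `K_s = (N + s)/5`, `J_s = g + 1 - K_s`: the component `w_s` has degree `< (3g-k-s+5)/5 ≤ J_s`
(numerators `3g-k-s+5` and `N+s` add up to `5g+6`, so the quotients add up to at most `g+1`), `w_s ∈ HK g l J_s K_s`, P1 gives `w_s = B₁ α_s + B₂ β_s`,
`w = b₁⁵ α + b₂⁵ β`, and as `5 K_s ≥ N + s - 4`, `deg α ≤ 5 (J_s - d - 1) + s ≤ 5g + 4 - N - 5d = 3g + 3 - k - 5d`, similarly `β`.  `NLs` if `β ≠ 0`, `LOs` otherwise. -/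
def S_X5 : Prop :=
  ∀ (g : ℕ) (l : Fin g → F) (v : F[X]) (k : ℕ) (z : F[X]), l ≠ 0 → v ≠ 0 → v ∈ POL F g → GPs g l v k z →
    NLs g l v k ∨ LOs g l v k

/-- **X6** (uses B0; edit of the file Q) let `A = 3g+4-k-5d₁ ≥ 4`, `A' = 3g+4-k-5d₂ ≥ 4`, `α ∈ POL A`, `β ∈ POL A'`, and suppose that not all of the top coefficients
`α_{A-t}, β_{A'-t}`, `t = 1, 2, 3`, are `0`.  Then Q holds for `PRs` with a factor `q` saved; and if `PRs` is not empty the three vectors `(α_{A-t}, β_{A'-t})` are on one line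
of `F²`: all `2 × 2` determinants vanish.
Proof: for `(b₁, b₂) ∈ PRs` and `t = 1, 2, 3` the coefficient of `b₁⁵ α + b₂⁵ β` at the degree `3g+4-k-t = 5 d₁ + A - t = 5 d₂ + A' - t` is `0`; `b₁⁵` has only exponents divisible
by `5`, the coefficient at `5 d₁` being `(b₁)_{d₁}⁵` and `α` has degree `< A`, so it is `(b₁)_{d₁}⁵ α_{A-t} + (b₂)_{d₂}⁵ β_{A'-t}` (the next terms have `α_{A-t+5} = 0`).
By `Cop` `((b₁)_{d₁}, (b₂)_{d₂}) ≠ (0, 0)`, which gives the line.  In Q's proof, for two elements `(b₁, b₂), (x, y)` of `PRs` the vectors `((b₁)_{d₁}⁵, (b₂)_{d₂}⁵)` and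
`(x_{d₁}⁵, y_{d₂}⁵)` are both orthogonal to a nonzero vector, so they are proportional, and the coefficient of `X ^ (g+1)` in `Δ = b₁ y - b₂ x` is `0`
(its fifth power is the determinant): `deg Δ ≤ g`, which saves a factor `q` in the number of the `Δ` (`deg b ≤ g + 1`). -/
def S_X6 : Prop :=
  ∀ (g k d₁ d₂ : ℕ) (b α β : F[X]), d₁ + d₂ = g + 1 → 1 ≤ d₁ → 1 ≤ d₂ → b ≠ 0 → Squarefree b → b.natDegree ≤ g + 1 →
    k + 5 * d₁ ≤ 3 * g → k + 5 * d₂ ≤ 3 * g → α ∈ POL F (3 * g + 4 - k - 5 * d₁) → β ∈ POL F (3 * g + 4 - k - 5 * d₂) →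
    (∃ t, 1 ≤ t ∧ t ≤ 3 ∧ (α.coeff (3 * g + 4 - k - 5 * d₁ - t) ≠ 0 ∨ β.coeff (3 * g + 4 - k - 5 * d₂ - t) ≠ 0)) →
    (∃ m : F[X], m.Monic ∧ m ∣ b ∧ m ∣ α ∧ m ∣ β ∧
      (PRs g k d₁ d₂ b α β).card * Fintype.card F ^ b.natDegree ≤ Fintype.card F ^ (g + 2 + m.natDegree)) ∧
    ((PRs g k d₁ d₂ b α β).Nonempty → ∀ t u, 1 ≤ t → t ≤ 3 → 1 ≤ u → u ≤ 3 →
      α.coeff (3 * g + 4 - k - 5 * d₁ - t) * β.coeff (3 * g + 4 - k - 5 * d₂ - u) =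
        α.coeff (3 * g + 4 - k - 5 * d₁ - u) * β.coeff (3 * g + 4 - k - 5 * d₂ - t))

/-- **X7a** (uses B0) counting multiples with top coefficients on a line.  Let `m` be monic of degree `i`, `3 ≤ A' - i`, `A' ≤ A`.  The number of the pairs `(α, β)`, `α ∈ POL A`,
`β ∈ POL A'`, both divisible by `m`, whose three top vectors `(α_{A-t}, β_{A'-t})`, `t = 1, 2, 3`, are pairwise dependent, is at most `2 q ^ (A + A' - 2 i - 2)`;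
the number of those with all three top vectors `0` is at most `q ^ (A + A' - 2 i - 6)` (we use `A' - i ≥ 3`).
Proof: `α = m α₀`, `β = m β₀` with `α₀ ∈ POL (A-i)`, `β₀ ∈ POL (A'-i)`.  The top vectors `τ_t` of `(α, β)` are `τ₁ = τ⁰₁`, `τ₂ = τ⁰₂ + m_{i-1} τ⁰₁`, `τ₃ = τ⁰₃ + m_{i-1} τ⁰₂ + m_{i-2} τ⁰₁` in
terms of those of `(α₀, β₀)` (with `m_{-1} = m_{-2} = 0`): so the `τ` are pairwise dependent (all zero) iff the `τ⁰` are (span!).  The remaining `A + A' - 2i - 6` coefficients of `(α₀, β₀)` are free, and the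
number of triples of pairwise dependent vectors of `F²` is at most `(q+1)(q³-1) + 1 ≤ 2 q⁴`. -/
def S_X7a : Prop :=
  ∀ (i A A' : ℕ) (m : F[X]), m.Monic → m.natDegree = i → i + 3 ≤ A' → A' ≤ A →
    ((POL F A ×ˢ POL F A').filter (fun p => m ∣ p.1 ∧ m ∣ p.2 ∧ ∀ t u, 1 ≤ t → t ≤ 3 → 1 ≤ u → u ≤ 3 →
      p.1.coeff (A - t) * p.2.coeff (A' - u) = p.1.coeff (A - u) * p.2.coeff (A' - t))).card * Fintype.card F ^ (2 * i + 2) ≤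
        2 * Fintype.card F ^ (A + A') ∧
    ((POL F A ×ˢ POL F A').filter (fun p => m ∣ p.1 ∧ m ∣ p.2 ∧ ∀ t, 1 ≤ t → t ≤ 3 →
      p.1.coeff (A - t) = 0 ∧ p.2.coeff (A' - t) = 0)).card * Fintype.card F ^ (2 * i + 6) ≤ Fintype.card F ^ (A + A')

/-- **X7** (uses B0, Q, X6, X7a) the sharp version of R1: for `d₁ ≤ d₂`, `A = 3g+4-k-5d₁`, `A' = 3g+4-k-5d₂ ≥ 4`, `j ≤ g + 1`:
`∑_{b squarefree of degree j} ∑_{α ∈ POL A} ∑_{0 ≠ β ∈ POL A'} #PRs ≤ 8 q ^ (g + 1 + A + A')`.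
Proof: (I) pairs `(α, β)` with some top vector nonzero: if `PRs` is nonempty the top vectors are pairwise dependent, and `#PRs ≤ ∑_{m monic, m ∣ b, α, β} q ^ (g+2-j+deg m)` (X6).
(II) pairs with all top vectors `0`: `#PRs ≤ #PR ≤ ∑_m q ^ (g+3-j+deg m)` (Q).  Let `i = deg m < A'` (`m ∣ β ≠ 0`); the number of the `b` of degree `j` divisible by `m` is `≤ q ^ (j+1-i)`,
there are `q ^ i` monic `m`.  For `i ≤ A' - 3`, by X7a: (I) `q ^ i q ^ (j+1-i) q ^ (g+2-j+i) 2 q ^ (A+A'-2i-2) = 2 q ^ (g+1+A+A'-i)`;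
(II) `q ^ i q ^ (j+1-i) q ^ (g+3-j+i) q ^ (A+A'-2i-6) = q ^ (g-2+A+A'-i)`.  For `i = A'-2, A'-1`: no (II) (then `β = 0`), and (I) crudely
(`q ^ (A-i)` multiples in `POL A`, `q ^ (A'-i)` in `POL A'`) `q ^ i q ^ (j+1-i) q ^ (g+2-j+i) q ^ (A+A'-2i) = q ^ (g+3+A+A'-i) ≤ q ^ (g + 5 + A)`, at most `q ^ (g+1+A+A')` as `A' ≥ 4`.
The sum is at most `(2 + 1) (5/4) + 2 < 8` times `q ^ (g+1+A+A')`. -/
def S_X7 : Prop :=
  ∀ (g k d₁ d₂ j : ℕ), d₁ + d₂ = g + 1 → 1 ≤ d₁ → d₁ ≤ d₂ → j ≤ g + 1 → k + 5 * d₂ ≤ 3 * g →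
    ∑ b ∈ (DEG F j).filter (fun b => Squarefree b), ∑ α ∈ POL F (3 * g + 4 - k - 5 * d₁),
      ∑ β ∈ (POL F (3 * g + 4 - k - 5 * d₂)).filter (fun β => β ≠ 0), ((PRs g k d₁ d₂ b α β).card : ℝ) ≤
        8 * qq F ^ (g + 1 + (3 * g + 4 - k - 5 * d₁) + (3 * g + 4 - k - 5 * d₂))

/-- **X8** (uses B0, FR, E4, P0, P0b; edit of the file R2) the number of pairs `(l, b)` is bounded by the sums of X7 / R1: for fixed monic `a` of degree `n`, `1 ≤ k`, `1 ≤ d`, `2 n + j < g`, `2 d ≤ g + 1`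
and `A = 3g+4-k-5d`, `A' = 3g+4-k-5(g+1-d)`:
`#{(l, b) : rr g l = d, b squarefree of degree j, NLs g l (a² b) k} · (q-1)² q ^ (g+2-2d) ≤ ∑_b ∑_{α ∈ POL A} ∑_{0 ≠ β ∈ POL A'} #PRs g k d (g+1-d) b α β`.
Proof: as R2, with more symmetries.  For such `(l, b)` let `z, α, β` be from `NLs`, `(b₁, b₂) = bb g l` (so `Val g l d (fr b₁) (fr b₂)` by P0, FR).  For `s₁, s₂ ∈ Fˣ`, `c ∈ POL (g+2-2d)` and `s₃ ∈ Fˣ` put
`b₁' = s₁ b₁`, `b₂' = s₂ b₂ + b₁ c`: `Val g l d (fr b₁') (fr b₂')` (scaling, P0b (2)), and `s₃ a² b z = b₁'⁵ α' + b₂'⁵ β'` with `β' = s₃ s₂⁻⁵ β`, `α' = s₃ s₁⁻⁵ (α - c⁵ s₂⁻⁵ β)`, `α' ∈ POL A`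
(`deg (c⁵ β) ≤ 5(g+1-2d) + A' - 1 = A - 1`), `0 ≠ β' ∈ POL A'`; it has degree `≤ 3g - k` (`deg v < g`, `deg z ≤ 2g+1-k`) and `b` divides it: `(b₁', b₂') ∈ PRs g k d (g+1-d) b α' β'`.
The tuple `(b, α', β', (b₁', b₂'))` together with `l` determines `b₁' ↦ s₁`, then `s₂, c` (`b₂' = s₂ b₂ + b₁ c`: if two choices agree then `b₁ ∣ (s₂ - s₂*) b₂`... `b₁, b₂` coprime; if `b₁` is not constant this gives
`s₂ = s₂*`; if `b₁` is a constant then `deg b₂ = g+1-d` by `Cop` (as `deg b₁ = 0 < d`) while `deg (b₁ (c - c*)) ≤ g+1-2d < g+1-d`, so again `s₂ = s₂*`), and then `s₃` from `β'`.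
So every `(l, b)` gives `(q-1)³ q ^ (g+2-2d)` tuples, and every tuple belongs to at most `q - 1` forms `l` (P0b (1): at most `q` forms have these generators, one of them is `l = 0`, but `rr g l = d ≥ 1`
means `l ≠ 0`). -/
def S_X8 : Prop :=
  ∀ (g d n j k : ℕ) (a : F[X]), a ∈ MON F n → 2 * n + j < g → 1 ≤ k → 1 ≤ d → 2 * d ≤ g + 1 →
    ((((Finset.univ : Finset (Fin g → F)) ×ˢ DEG F j).filter (fun p => rr g p.1 = d ∧ Squarefree p.2 ∧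
      NLs g p.1 (a ^ 2 * p.2) k)).card : ℝ) * (qq F - 1) ^ 2 * qq F ^ (g + 2 - 2 * d) ≤
    ∑ b ∈ (DEG F j).filter (fun b => Squarefree b), ∑ α ∈ POL F (3 * g + 4 - k - 5 * d),
      ∑ β ∈ (POL F (3 * g + 4 - k - 5 * (g + 1 - d))).filter (fun β => β ≠ 0), ((PRs g k d (g + 1 - d) b α β).card : ℝ)

/-- **X9** (uses B0, E4, R1, X7, X8) the two bounds for the number of pairs `(l, b)` of X8, `N`:
(1) if `2 g + 5 + k ≤ 5 d` (i.e. `A' ≥ 4`): `N q ^ (2k) q ^ (g+1-2d) ≤ 13 q ^ (2g+1)`;  (2) always `N q ^ (2k) q ^ (g+1-2d) ≤ 4 q ^ (2g+4)`;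
(3) `N = 0` unless `2 g + 2 + k ≤ 5 d` (i.e. `A' ≥ 1`) and `2 d ≤ g + 1`.
Proof: `A + A' = g + 3 - 2k` if `A' ≥ 1`.  (1): X8, X7: `N (q-1)² q ^ (g+2-2d) ≤ 8 q ^ (g+1+g+3-2k)` and `(q-1)² ≥ (16/25) q²`.  (2): `PRs ⊆ PR` and R1: `≤ 2 q ^ (g+4+g+3-2k)`. (3): `β ≠ 0`; E4. -/
def S_X9 : Prop :=
  ∀ (g d n j k : ℕ) (a : F[X]), a ∈ MON F n → 2 * n + j < g → 1 ≤ k → 1 ≤ d →
    (2 * g + 5 + k ≤ 5 * d → ((((Finset.univ : Finset (Fin g → F)) ×ˢ DEG F j).filter (fun p => rr g p.1 = d ∧ Squarefree p.2 ∧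
      NLs g p.1 (a ^ 2 * p.2) k)).card : ℝ) * qq F ^ (2 * k) * qq F ^ (g + 1 - 2 * d) ≤ 13 * qq F ^ (2 * g + 1)) ∧
    ((((Finset.univ : Finset (Fin g → F)) ×ˢ DEG F j).filter (fun p => rr g p.1 = d ∧ Squarefree p.2 ∧
      NLs g p.1 (a ^ 2 * p.2) k)).card : ℝ) * qq F ^ (2 * k) * qq F ^ (g + 1 - 2 * d) ≤ 4 * qq F ^ (2 * g + 4) ∧
    (¬ (2 * g + 2 + k ≤ 5 * d ∧ 2 * d ≤ g + 1) → ((((Finset.univ : Finset (Fin g → F)) ×ˢ DEG F j).filter (fun p => rr g p.1 = d ∧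
      Squarefree p.2 ∧ NLs g p.1 (a ^ 2 * p.2) k)).card = 0))

/-- **X10** (uses B0, X3, X9) for `g ≥ 40`, `a` monic of degree `n`, `2 n + j < g`, `1 ≤ d`: with `x = g - 1 - j`, `δ₀ = g + 1 - 2d`, the sum of `√KK` over the pairs `(l, b)` with `NLs g l (a² b) k` for some `k`
is at most `1000 q ^ (2g) q ^ (-x/2) 5 ^ (-x/8) 5 ^ (-δ₀/4)`.
Proof: we may assume `2 d ≤ g + 1`, `δ₀ ≥ 0` (X9 (3)).  `√KK = q ^ (k/2)`.  The number `N_k` of the pairs for a given `k` is at most `q ^ g · q ^ (j+1)` and `2 q ^ (2d) q ^ (j+1)` (X3), so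
`N_k ≤ 2 q ^ (2g - x - (δ₀-1)⁺)` [`y⁺ = max y 0`].
Case A: `2g+5+k ≤ 5d`: by X9 (1) `N_k ≤ 13 q ^ (2g+1-2k-δ₀)`.  So `q ^ (k/2) N_k ≤ 13 q ^ (2g-(δ₀-1)⁺) q ^ (k/2) min(q ^ (-x), q ^ (1-2k))`, and with `M = max x (2k-1) ≥ 1` the last two factors are at most
`q ^ (1/4 - 3M/4)` (`k/2 ≤ (M+1)/4`) `≤ q ^ (-x/2) q ^ (-(M-1)/4) ≤ q ^ (-x/2) 5 ^ (1/4) 5 ^ (-x/8) 5 ^ (-(2k-1)/8)`.  The sum over `k ≥ 1` of `5 ^ (-(2k-1)/8)` is `< 3`.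
Case B: `2g+2+k ≤ 5d < 2g+5+k` (three values of `k`): by X9 (2) `N_k ≤ 4 q ^ (2g+4-2k-δ₀)`, so `q ^ (k/2) N_k ≤ 4 q ^ (2g-(δ₀-1)⁺) q ^ (k/2) min(q ^ (-x), q ^ (4-2k))`, and
`k/2 - max x (2k-4) ≤ - x/2 + 3/2 - k/4 - x/8` (two cases).  As `k > 5d-2g-5 = (g-5-5δ₀)/2`, i.e. `k ≥ (g-3-5δ₀)/2` (`2d = g+1-δ₀`), `3/2 - k/4 - (δ₀-1)⁺ ≤ 3 - g/8 - 3δ₀/8 ≤ - 3δ₀/8` for `g ≥ 40`.
In both cases `q ^ (-(δ₀-1)⁺) ≤ 5 · 5 ^ (-δ₀/4)`, `q ≥ 5`. -/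
def S_X10 : Prop :=
  ∀ (g d n j : ℕ) (a : F[X]), 40 ≤ g → a ∈ MON F n → 2 * n + j < g → 1 ≤ d →
    ∑ p ∈ ((Finset.univ : Finset (Fin g → F)) ×ˢ DEG F j).filter (fun p => rr g p.1 = d ∧ Squarefree p.2 ∧
      ∃ k, NLs g p.1 (a ^ 2 * p.2) k), Real.sqrt (KK g p.1 (a ^ 2 * p.2) : ℝ) ≤
      1000 * qq F ^ (2 * g) * qq F ^ (-(((g : ℝ) - 1 - j) / 2)) * (5 : ℝ) ^ (-(((g : ℝ) - 1 - j) / 8)) *
        (5 : ℝ) ^ (-(((g : ℝ) + 1 - 2 * d) / 4))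

/-- **X11** (uses B0, SQ, E4, X9, X10; edit of the file T1) `∑_{l ≠ 0} ∑_{v ≠ 0, deg v < g, NLs} √KK ≤ 100000 q ^ (2 g)` for `g ≥ 40`.
Proof: `v = a² b` (SQ), `n = deg a`, `j = deg b`, `x = g - 1 - j ≥ 2n`, `q ^ n ≤ q ^ (x/2)` polynomials `a`; so by X10 the sum is at most
`1000 q ^ (2g) ∑_{x ≥ 0} (x/2 + 1) 5 ^ (-x/8) ∑_{δ₀ ≥ 0} 5 ^ (-δ₀/4) ≤ 1000 · 18 · 3.1 q ^ (2g)` (`1 ≤ d`, `2 d ≤ g + 1`, E4). -/
def S_X11 : Prop :=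
  ∀ g : ℕ, 40 ≤ g → ∑ l ∈ (Finset.univ : Finset (Fin g → F)).filter (fun l => l ≠ 0),
    ∑ v ∈ (POL F g).filter (fun v => v ≠ 0 ∧ ∃ k, NLs g l v k), Real.sqrt (KK g l v : ℝ) ≤ 100000 * qq F ^ (2 * g)

/-- **Y1** (uses B0, FR, E4, P0; edit of the file L1) -/
def S_Y1 : Prop :=
  ∀ (g : ℕ) (l : Fin g → F) (v : F[X]) (k : ℕ), l ≠ 0 → v ≠ 0 → v ∈ POL F g → LOs g l v k →
    (bb g l).1 ≠ 0 ∧ (bb g l).1.natDegree ≤ rr g l ∧ (∀ i, i + rr g l < g → mu g l (X ^ i * fr (bb g l).1) = 0) ∧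
    ∃ δ : F[X], δ.Monic ∧ δ ∣ (bb g l).1 ^ 5 ∧ δ ∣ v ∧
      k + 5 * rr g l + v.natDegree ≤ 3 * g + δ.natDegree + (if (bb g l).1.natDegree = rr g l then 0 else 3)

/-- **Y2** (uses B0) `∑_{b monic of degree e} ∑_{δ monic, δ ∣ b⁵} q ^ (-deg δ / 2) ≤ 3 q ^ e`.
Proof: if `δ ∣ b⁵` there are monic `C₀, …, C₅` with `b = ∏ C_s` and `δ = ∏ C_s ^ s`: induction on `deg b`: for a monic prime `P ∣ b` let `s = min 5 (v_P(δ))`; then `P ^ s ∣ δ` and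
`δ / P ^ s ∣ (b / P) ^ 5`, and `P` is multiplied to `C_s`.  So the sum is at most `∑_{e₀ + … + e₅ = e} ∏ q ^ (e_s) q ^ (- s e_s / 2) ≤ q ^ e ∏_{s=1}^5 (1 - q ^ (-s/2))⁻¹ ≤ 3 q ^ e`
(`q ≥ 5`: `1.81 · 1.25 · 1.1 · 1.05 · 1.02 < 3`). -/
def S_Y2 : Prop :=
  ∀ e : ℕ, ∑ b ∈ MON F e, ∑ i ∈ Finset.range (5 * e + 1), (((MON F i).filter (fun δ => δ ∣ b ^ 5)).card : ℝ) *
    qq F ^ (-((i : ℝ) / 2)) ≤ 3 * qq F ^ e

/-- **Y3** (uses B0) the exceptional form: if `l ≠ 0` but `l_i = 0` for all `i` with `i + 1 < g`, `v ≠ 0`, `deg v < g` and `Ex g l v`, then `deg v + 3 ≤ g`.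
Proof: `Lam l w = l_{g-1} w_{5g-1}`, `l_{g-1} ≠ 0` (`g ≥ 1`).  If `deg v = g - 1`, `z = X ^ (2g-1)` is in the radical (`deg (v z y) ≤ 5g - 2` for `y ∈ POL (2g+1)`), and
`Lam (v z X ^ (2g+1)) = l_{g-1} v_{g-1} ≠ 0`.  If `deg v = g - 2`, `z = X ^ (2g)` is in the radical (`deg (v z y) ≤ 5g - 2`), and `Lam (v z X ^ (2g+1)) = l_{g-1} v_{g-2} ≠ 0`. -/
def S_Y3 : Prop :=
  ∀ (g : ℕ) (l : Fin g → F) (v : F[X]), l ≠ 0 → (∀ i : Fin g, (i : ℕ) + 1 < g → l i = 0) → v ≠ 0 → v ∈ POL F g →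
    Ex g l v → v.natDegree + 3 ≤ g

/-- **Y4** (uses B0, FR, E4, X3, Y1, Y2, Y3) `∑_{l ≠ 0} ∑_{v ≠ 0, Ex, LOs} √KK ≤ 100 q ^ (2g)`.
Proof: let `d = rr g l ≥ 1`, `b₁ = (bb g l).1`, `u = d - deg b₁ ≥ 0` (Y1).
(i) `d = 1`, `u = 1`: `b₁` is a nonzero constant, so (Y1) `mu l (X ^ i) = l_i = 0` for `i + 1 < g`; there are at most `q` such `l`; by Y3 `deg v ≤ g - 3`, and
`√KK ≤ q ^ ((2g+1)/2)`: the contribution is `≤ q · q ^ (g-2) · q ^ (g + 1/2) ≤ q ^ (2g)`.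
(ii) all other pairs, for fixed `d, u`: by Y1 `√KK = q ^ (k/2) ≤ ∑_{δ ∣ b₁⁵, δ ∣ v} q ^ ((3g - 5d - e + deg δ + 3 [u ≥ 1]) / 2)`, `e = deg v`; the number of `v` of degree `e` divisible by `δ` is `≤ q ^ (e+1-deg δ)`;
`∑_{e < g} q ^ (e/2) ≤ 2 q ^ ((g-1)/2)`: so `∑_v √KK ≤ 2 q ^ (2g + 1/2 - 5d/2 + (3/2)[u ≥ 1]) ∑_{δ ∣ b₁⁵} q ^ (-deg δ/2)`.  This depends only on the monic polynomial `b` proportional to `b₁`, and at most `q ^ d`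
forms `l` have a given `b` (Y1 and X3 (2), `fr b₁` is proportional to `fr b`); sum over `b ∈ MON (d-u)` by Y2: `≤ 6 q ^ (2g + 1/2 - d/2 - u + (3/2)[u ≥ 1])`.
`(d, u) = (1, 0)`: `6 q ^ (2g)`; for `d ≥ 2` the sum over `u ≥ 0` is at most `6 q ^ (2g) (q ^ ((1-d)/2) + q ^ ((2-d)/2) · 5/4)`; sum over `d ≥ 2` (`q ≥ 5`): less than `6 (0.9 + 1.25 · 1.9) q ^ (2g)`. -/
def S_Y4 : Prop :=
  ∀ g : ℕ, ∑ l ∈ (Finset.univ : Finset (Fin g → F)).filter (fun l => l ≠ 0),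
    ∑ v ∈ (POL F g).filter (fun v => v ≠ 0 ∧ Ex g l v ∧ ∃ k, LOs g l v k), Real.sqrt (KK g l v : ℝ) ≤ 100 * qq F ^ (2 * g)

/-- **Z1** (uses B0, X4, X5, X11, Y4; edit of the file T2) `∑_{v ≠ 0} ∑_{l ≠ 0, Ex} √KK ≤ 200000 q ^ (2g)` for `g ≥ 40`: the pairs with `KK = 1` contribute at most `q ^ (2g)`, the others satisfy `NLs` or `LOs`. -/
def S_Z1 : Prop :=
  ∀ g : ℕ, 40 ≤ g → ∑ v ∈ (POL F g).filter (fun v => v ≠ 0),
    ∑ l ∈ (Finset.univ : Finset (Fin g → F)).filter (fun l => l ≠ 0 ∧ Ex g l v), Real.sqrt (KK g l v : ℝ) ≤ 200000 * qq F ^ (2 * g)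

/-- **Z2** (uses B0, B1, X2, Z1; edit of the file E9) `∑_{f monic of degree 2g+1} #sol f ≤ q ^ (2g+1) (2 + 200000 / √q)` for `g ≥ 40`. -/
def S_Z2 : Prop :=
  ∀ g : ℕ, 40 ≤ g → ∑ f ∈ MON F (2 * g + 1), ((sol f).card : ℝ) ≤ qq F ^ (2 * g + 1) * (2 + 200000 / Real.sqrt (qq F))

end D5
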