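import Pool.Agent.H506.D5.Stm2

/-!
# Project D5 (helper506), part 2, T1 (helper187): summation over `a`, `j`, `d`
-/

open Polynomial
open scoped Classical

noncomputable section

namespace D5

namespace XT1

theorem ub {α ι : Type} (s : Finset α) (I : Finset ι) (P : ι → α → Prop) (f : α → ℝ)
    (hf : ∀ x, 0 ≤ f x) (h : ∀ x ∈ s, ∃ i ∈ I, P i x) :
    ∑ x ∈ s, f x ≤ ∑ i ∈ I, ∑ x ∈ s.filter (fun x => P i x), f x := by
  simp_rw [Finset.sum_filter]
  rw [Finset.sum_comm]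
  refine Finset.sum_le_sum fun x hx => ?_
  obtain ⟨i, hi, hP⟩ := h x hx
  have h1 : (if P i x then f x else 0) ≤ ∑ i ∈ I, (if P i x then f x else 0) :=
    Finset.single_le_sum (f := fun i => if P i x then f x else 0)
      (fun i _ => by
        show 0 ≤ (if P i x then f x else 0)
        split_ifs
        · exact hf x
        · exact le_rfl) hi
  rwa [if_pos hP] at h1

theorem cov {α β : Type} (s : Finset α) (u : Finset β) (φ : β → α) (f : α → ℝ)
    (hf : ∀ x, 0 ≤ f x) (h : ∀ x ∈ s, ∃ y ∈ u, φ y = x) :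
    ∑ x ∈ s, f x ≤ ∑ y ∈ u, f (φ y) := by
  refine (ub s u (fun y x => φ y = x) f hf h).trans (Finset.sum_le_sum fun y _ => ?_)
  have h1 : s.filter (fun x => φ y = x) ⊆ {φ y} := by
    intro x hx
    rw [Finset.mem_filter] at hx
    rw [Finset.mem_singleton]
    exact hx.2.symm
  refine (Finset.sum_le_sum_of_subset_of_nonneg h1 (fun x _ _ => hf x)).trans ?_
  rw [Finset.sum_singleton]

theorem geo {x : ℝ} (hx : 2 ≤ x) (m : ℕ) : ∑ i ∈ Finset.range m, x ^ i ≤ x ^ m := by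
  induction m with
  | zero => simp
  | succ m ih =>
    rw [Finset.sum_range_succ, pow_succ]
    have : 0 ≤ x ^ m := by positivity
    nlinarith

theorem geo' {y : ℝ} (hy0 : 0 ≤ y) (hy : y ≤ 2 / 3) (m : ℕ) : ∑ i ∈ Finset.range m, y ^ i ≤ 3 := by
  have h1 : (∑ i ∈ Finset.range m, y ^ i) * (1 - y) = 1 - y ^ m := geom_sum_mul_neg y m
  have h2 : 0 ≤ ∑ i ∈ Finset.range m, y ^ i := Finset.sum_nonneg fun i _ => by positivity
  have h3 : 0 ≤ y ^ m := by positivity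
  nlinarith

/-- The sum over `d`. -/
theorem sumd {t : ℝ} (ht : 3 / 2 ≤ t) (g : ℕ) :
    ∑ d ∈ Finset.Icc 1 ((g + 1) / 2), t ^ (6 * d) ≤ 2 * t ^ (3 * (g + 1)) := by
  have h0 : 0 ≤ t := by linarith
  have h1 : Finset.Icc 1 ((g + 1) / 2) ⊆ Finset.range ((g + 1) / 2 + 1) := by
    intro d hd
    rw [Finset.mem_Icc] at hd
    rw [Finset.mem_range]
    omega
  have h2 : ∑ d ∈ Finset.Icc 1 ((g + 1) / 2), t ^ (6 * d) ≤
      ∑ d ∈ Finset.range ((g + 1) / 2 + 1), t ^ (6 * d) :=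
    Finset.sum_le_sum_of_subset_of_nonneg h1 fun _ _ _ => by positivity
  have h3 : (2 : ℝ) ≤ t ^ 6 := by
    have : (3 / 2 : ℝ) ^ 6 ≤ t ^ 6 := pow_le_pow_left₀ (by norm_num) ht 6
    norm_num at this
    linarith
  have h4 := geo h3 ((g + 1) / 2)
  have h5 : t ^ (6 * ((g + 1) / 2)) ≤ t ^ (3 * (g + 1)) :=
    pow_le_pow_right₀ (by linarith) (by omega)
  rw [Finset.sum_range_succ] at h2
  simp_rw [pow_mul] at h2 h4 ⊢
  rw [pow_mul, pow_mul] at h5
  linarith

/-- The sum over `n, j`. -/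
theorem sumnj {t : ℝ} (ht : 3 / 2 ≤ t) (g : ℕ) :
    ∑ p ∈ (Finset.range g ×ˢ Finset.range g).filter (fun p => 2 * p.1 + p.2 < g),
      t ^ (3 * p.1 + (2 * p.2 + g + 12)) ≤ 3 * t ^ (3 * g + 12) := by
  have h0 : 0 < t := by linarith
  have h2 : (2 : ℝ) ≤ t ^ 2 := by nlinarith
  rw [Finset.sum_filter, Finset.sum_product]
  have key : ∀ n ∈ Finset.range g, ∑ j ∈ Finset.range g,
      (if 2 * n + j < g then t ^ (3 * n + (2 * j + g + 12)) else 0) ≤ t ^ (3 * g + 12) * (t⁻¹) ^ n := by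
    intro n _
    rw [← Finset.sum_filter]
    have e1 : (Finset.range g).filter (fun j => 2 * n + j < g) = Finset.range (g - 2 * n) := by
      ext j
      rw [Finset.mem_filter, Finset.mem_range, Finset.mem_range]
      omega
    rw [e1]
    by_cases hn : 2 * n < g
    · have e2 : ∀ j, t ^ (3 * n + (2 * j + g + 12)) = t ^ (3 * n + g + 12) * (t ^ 2) ^ j := by
        intro j
        rw [← pow_mul, ← pow_add]
        congr 1
        ring
      simp_rw [e2]
      rw [← Finset.mul_sum]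
      have h3 := mul_le_mul_of_nonneg_left (geo h2 (g - 2 * n))
        (by positivity : (0 : ℝ) ≤ t ^ (3 * n + g + 12))
      refine h3.trans (le_of_eq ?_)
      rw [inv_pow, ← div_eq_mul_inv, eq_div_iff (by positivity), ← pow_mul, ← pow_add, ← pow_add]
      congr 1
      omega
    · have e3 : g - 2 * n = 0 := by omega
      rw [e3, Finset.range_zero, Finset.sum_empty]
      positivity
  refine (Finset.sum_le_sum key).trans ?_
  rw [← Finset.mul_sum, mul_comm]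
  refine mul_le_mul_of_nonneg_right (geo' (by positivity) ?_ g) (by positivity)
  rw [inv_le_comm₀ h0 (by norm_num)]
  norm_num
  linarith

end XT1

open XT1 in
theorem p_T1 (F : Type) [Field F] [Fintype F] [CharP F 5] (hB0 : S_B0 F) (hSQ : S_SQ F)
    (hE4 : S_E4 F) (hT0 : S_T0 F) : S_T1 F := by
  obtain ⟨hP, hM, hD, -, hcM, -⟩ := hB0
  obtain ⟨-, -, hr1, hr2⟩ := hE4
  refine ⟨30, by norm_num, fun g => ?_⟩
  -- the cube root of `q`
  have hq5 : (5 : ℝ) ≤ qq F := by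
    have h1 : 5 ≤ Fintype.card F := by
      have h2 : (5 : ℕ) ∣ Fintype.card F := by
        have h3 := (CharP.cast_eq_zero_iff F 5 (Fintype.card F)).1 (FiniteField.cast_card_eq_zero F)
        exact h3
      exact Nat.le_of_dvd Fintype.card_pos h2
    unfold qq
    exact_mod_cast h1
  have hq0 : (0 : ℝ) < qq F := by linarith
  set t : ℝ := qq F ^ (1 / 3 : ℝ) with ht
  have ht0 : 0 < t := by positivity
  have ht3 : t ^ 3 = qq F := by
    rw [ht, ← Real.rpow_natCast, ← Real.rpow_mul hq0.le]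
    norm_num
  have ht1 : 3 / 2 ≤ t := by
    by_contra hlt
    push Not at hlt
    have h1 : t ^ 3 ≤ (3 / 2 : ℝ) ^ 3 := pow_le_pow_left₀ ht0.le hlt.le 3
    rw [ht3] at h1
    norm_num at h1
    linarith
  have hrp : ∀ d j : ℕ, qq F ^ (2 * (d : ℝ) + (2 * (j : ℝ) + (g : ℝ)) / 3 + 4) =
      t ^ (6 * d) * t ^ (2 * j + g + 12) := by
    intro d j
    rw [← pow_add, ht, ← Real.rpow_natCast, ← Real.rpow_mul hq0.le]
    congr 1
    push_cast
    ring
  -- the set of the pairs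
  set A : Finset (Fin g → F) := (Finset.univ : Finset (Fin g → F)).filter (fun l => l ≠ 0) with hA
  set f : (Fin g → F) × F[X] → ℝ := fun p => Real.sqrt (KK g p.1 p.2 : ℝ) with hf
  have hf0 : ∀ p, 0 ≤ f p := fun p => Real.sqrt_nonneg _
  set S : Finset ((Fin g → F) × F[X]) :=
    (A ×ˢ POL F g).filter (fun p => p.2 ≠ 0 ∧ ∃ k, NL g p.1 p.2 k) with hS
  have hsum : ∑ p ∈ S, f p = ∑ l ∈ A, ∑ v ∈ (POL F g).filter (fun v => v ≠ 0 ∧ ∃ k, NL g l v k),
      Real.sqrt (KK g l v : ℝ) := by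
    rw [hS, Finset.sum_filter, Finset.sum_product]
    refine Finset.sum_congr rfl fun l _ => ?_
    rw [Finset.sum_filter]
  rw [← hsum]
  set I : Finset (ℕ × ℕ) := (Finset.range g ×ˢ Finset.range g).filter (fun p => 2 * p.1 + p.2 < g) with hI
  obtain ⟨P2, hP2⟩ : ∃ P2 : ℕ → F[X] → (Fin g → F) × F[X] → Prop, ∀ j a x, P2 j a x ↔
      ∃ b ∈ DEG F j, Squarefree b ∧ x.2 = a ^ 2 * b := ⟨fun j a x => _, fun _ _ _ => Iff.rfl⟩
  obtain ⟨P1, hP1⟩ : ∃ P1 : ℕ × ℕ × ℕ → (Fin g → F) × F[X] → Prop, ∀ i x, P1 i x ↔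
      (rr g x.1 = i.1 ∧ ∃ a ∈ MON F i.2.1, P2 i.2.2 a x) := ⟨fun i x => _, fun _ _ => Iff.rfl⟩
  -- splitting
  have hsplit : ∀ x ∈ S, ∃ i ∈ Finset.Icc 1 ((g + 1) / 2) ×ˢ I, P1 i x := by
    rintro ⟨l, v⟩ hx
    rw [hS, Finset.mem_filter, Finset.mem_product, hA, Finset.mem_filter] at hx
    obtain ⟨⟨⟨-, hl⟩, hv⟩, hv0, -⟩ := hx
    simp only at hl hv hv0
    obtain ⟨a, b, ha, hb0, hb, hab⟩ := hSQ v hv0
    have hdeg : v.natDegree = 2 * a.natDegree + b.natDegree := by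
      rw [hab, natDegree_mul (pow_ne_zero 2 ha.ne_zero) hb0, natDegree_pow]
    have hvg : v.natDegree < g := (natDegree_lt_iff_degree_lt hv0).2 ((hP g v).1 hv)
    refine ⟨(rr g l, (a.natDegree, b.natDegree)), ?_, (hP1 _ _).2 ⟨rfl, a, (hM _ a).2 ⟨ha, rfl⟩,
      (hP2 _ _ _).2 ⟨b, (hD _ b).2 ⟨hb0, rfl⟩, hb, hab⟩⟩⟩
    have h1 := hr1 g l
    have h2 : 1 ≤ rr g l := by
      by_contra h3
      exact hl (hr2 g l (by omega))
    rw [Finset.mem_product, Finset.mem_Icc, hI, Finset.mem_filter, Finset.mem_product,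
      Finset.mem_range, Finset.mem_range]
    simp only
    omega
  have h1 := ub S (Finset.Icc 1 ((g + 1) / 2) ×ˢ I) P1 f hf0 hsplit
  have h2 : ∀ i ∈ Finset.Icc 1 ((g + 1) / 2) ×ˢ I, ∑ x ∈ S.filter (fun x => P1 i x), f x ≤
      5 * (t ^ (6 * i.1) * t ^ (3 * i.2.1 + (2 * i.2.2 + g + 12))) := by
    rintro ⟨d, n, j⟩ hi
    rw [Finset.mem_product, Finset.mem_Icc, hI, Finset.mem_filter] at hi
    simp only at hi ⊢
    obtain ⟨⟨hd1, hd2⟩, -, hnj⟩ := hi
    have h3 := ub (S.filter (fun x => P1 (d, n, j) x)) (MON F n) (P2 j) f hf0 (fun x hx => by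
          rw [Finset.mem_filter] at hx
          obtain ⟨-, a, ha, hb⟩ := (hP1 _ _).1 hx.2
          exact ⟨a, ha, hb⟩)
    refine h3.trans ?_
    have h4 : ∀ a ∈ MON F n, ∑ x ∈ (S.filter (fun x => P1 (d, n, j) x)).filter (fun x => P2 j a x), f x ≤
        5 * (t ^ (6 * d) * t ^ (2 * j + g + 12)) := by
      intro a ha
      have h5 := hT0 g d n j a ha hnj hd1
      rw [hrp] at h5
      refine le_trans ?_ h5
      refine cov _ _ (fun p : (Fin g → F) × F[X] => (p.1, a ^ 2 * p.2)) f hf0 ?_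
      rintro ⟨l, v⟩ hx
      rw [Finset.mem_filter, Finset.mem_filter, hS, Finset.mem_filter] at hx
      obtain ⟨⟨⟨-, -, k, hk⟩, hp1⟩, hp2⟩ := hx
      obtain ⟨hrk, -⟩ := (hP1 _ _).1 hp1
      obtain ⟨b, hb, hbs, hv⟩ := (hP2 _ _ _).1 hp2
      simp only at hk hrk hv
      refine ⟨(l, b), ?_, ?_⟩
      · rw [Finset.mem_filter, Finset.mem_product]
        refine ⟨⟨Finset.mem_univ _, hb⟩, hrk, hbs, k, ?_⟩
        simp only
        rw [← hv]
        exact hk
      · simp only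
        rw [← hv]
    refine (Finset.sum_le_sum h4).trans (le_of_eq ?_)
    rw [Finset.sum_const, hcM, nsmul_eq_mul, pow_add t (3 * n), pow_mul t 3 n, ht3]
    unfold qq
    push_cast
    ring
  refine h1.trans ((Finset.sum_le_sum h2).trans ?_)
  rw [Finset.sum_product]
  simp only
  simp_rw [← Finset.mul_sum]
  rw [← Finset.sum_mul]
  have h6 := sumd ht1 g
  have h7 := sumnj ht1 g
  rw [← hI] at h7
  have h8 : 0 ≤ ∑ p ∈ I, t ^ (3 * p.1 + (2 * p.2 + g + 12)) :=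
    Finset.sum_nonneg fun _ _ => by positivity
  have h9 : 0 ≤ 2 * t ^ (3 * (g + 1)) := by positivity
  have h10 := mul_le_mul h6 h7 h8 h9
  have h11 : 5 * (2 * t ^ (3 * (g + 1)) * (3 * t ^ (3 * g + 12))) = 30 * qq F ^ (2 * g + 5) := by
    rw [← ht3, ← pow_mul, show 3 * (2 * g + 5) = 3 * (g + 1) + (3 * g + 12) by ring, pow_add]
    ring
  rw [← h11]
  exact mul_le_mul_of_nonneg_left h10 (by norm_num)

end D5
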