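import Pool.Agent.H506.D5.Stm3

/-!
# D5: the statement Y2 (helper404)

`T_k(e) = ∑_{b monic of degree e} ∑_{δ monic, δ ∣ b ^ k} a ^ deg δ`, `a = q ^ (-1/2)`.  If `δ ∣ b ^ (k+1)` and `g` is the
greatest common divisor of `b` and `δ`, then `δ / g ∣ g ^ k`; so `T_(k+1)(e) ≤ ∑_{i ≤ e} q ^ (e-i) a ^ i T_k(i)`, and
`T_k(0) ≤ 1`, `T_k(1) ≤ q / (1 - a)`, `T_k(e) ≤ 3 q ^ e` by induction over `k`.
-/

open Polynomial
open scoped Classical

noncomputable section

namespace D5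

namespace XY2

theorem five_le (F : Type) [Field F] [Fintype F] [CharP F 5] : (5 : ℝ) ≤ qq F := by
  have h1 : (5 : ℕ) ∣ Fintype.card F :=
    (CharP.cast_eq_zero_iff F 5 (Fintype.card F)).1 (Nat.cast_card_eq_zero F)
  have h2 : 5 ≤ Fintype.card F := Nat.le_of_dvd Fintype.card_pos h1
  unfold qq
  exact_mod_cast h2

section

variable {F : Type} [Field F]

/-- splitting a divisor of a power -/
theorem split {b δ : F[X]} (hb : b.Monic) (hδ : δ.Monic) (k : ℕ) (h : δ ∣ b ^ (k + 1)) :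
    ∃ g δ' : F[X], g.Monic ∧ g ∣ b ∧ δ'.Monic ∧ δ' ∣ g ^ k ∧ δ = g * δ' := by
  obtain ⟨d, hd⟩ : ∃ d : F[X], d = EuclideanDomain.gcd b δ := ⟨_, rfl⟩
  have h1 : d ∣ b := by
    rw [hd]
    exact EuclideanDomain.gcd_dvd_left b δ
  have h2 : d ∣ δ := by
    rw [hd]
    exact EuclideanDomain.gcd_dvd_right b δ
  obtain ⟨A, B, h3⟩ : ∃ A B : F[X], d = b * A + δ * B :=
    ⟨_, _, by rw [hd]; exact EuclideanDomain.gcd_eq_gcd_ab b δ⟩
  obtain ⟨b₁, hb₁⟩ := h1
  obtain ⟨δ₁, hδ₁⟩ := h2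
  have h0 : d ≠ 0 := by
    intro h0
    apply hb.ne_zero
    rw [hb₁, h0, zero_mul]
  have hAB : b₁ * A + δ₁ * B = 1 := by
    apply mul_left_cancel₀ h0
    rw [mul_one, mul_add, ← mul_assoc, ← mul_assoc, ← hb₁, ← hδ₁]
    exact h3.symm
  have hl : d.leadingCoeff ≠ 0 := leadingCoeff_ne_zero.mpr h0
  obtain ⟨u, hu⟩ : ∃ u : F[X], u = C d.leadingCoeff⁻¹ := ⟨_, rfl⟩
  obtain ⟨w, hw⟩ : ∃ w : F[X], w = C d.leadingCoeff := ⟨_, rfl⟩
  have huw : u * w = 1 := by
    rw [hu, hw, ← C_mul, inv_mul_cancel₀ hl, C_1]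
  obtain ⟨g, hg⟩ : ∃ g : F[X], g = d * u := ⟨_, rfl⟩
  have hgm : g.Monic := by
    rw [hg, hu]
    exact monic_mul_leadingCoeff_inv h0
  have hgw : d = g * w := by
    rw [hg, mul_assoc, huw, mul_one]
  have hb' : b = g * (w * b₁) := by
    rw [hb₁, hgw, mul_assoc]
  have hδ' : δ = g * (w * δ₁) := by
    rw [hδ₁, hgw, mul_assoc]
  have hm : (w * δ₁).Monic := hgm.of_mul_monic_left (by rw [← hδ']; exact hδ)
  have hco : IsCoprime (w * δ₁) ((w * b₁) ^ (k + 1)) := by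
    apply IsCoprime.pow_right
    exact ⟨u * B, u * A, by linear_combination (b₁ * A + δ₁ * B) * huw + hAB⟩
  refine ⟨g, w * δ₁, hgm, ⟨w * b₁, hb'⟩, hm, ?_, hδ'⟩
  have h5 : g * (w * δ₁) ∣ g * (g ^ k * (w * b₁) ^ (k + 1)) := by
    rw [← hδ', ← mul_assoc, ← pow_succ', ← mul_pow, ← hb']
    exact h
  exact hco.dvd_of_dvd_mul_right ((mul_dvd_mul_iff_left hgm.ne_zero).1 h5)

variable [Fintype F]

/-- the monic divisors -/
def MD (P : F[X]) : Finset F[X] :=
  (Finset.range (P.natDegree + 1)).biUnion (fun i => (MON F i).filter (fun δ => δ ∣ P))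

theorem mem_MD (b2 : ∀ n (f : F[X]), f ∈ MON F n ↔ f.Monic ∧ f.natDegree = n) {P : F[X]}
    (hP : P ≠ 0) (δ : F[X]) : δ ∈ MD P ↔ δ.Monic ∧ δ ∣ P := by
  unfold MD
  rw [Finset.mem_biUnion]
  constructor
  · rintro ⟨i, -, h⟩
    rw [Finset.mem_filter, b2] at h
    exact ⟨h.1.1, h.2⟩
  · rintro ⟨h1, h2⟩
    refine ⟨δ.natDegree, ?_, ?_⟩
    · rw [Finset.mem_range]
      have := natDegree_le_of_dvd h2 hP
      omega
    · rw [Finset.mem_filter, b2]
      exact ⟨⟨h1, rfl⟩, h2⟩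

theorem sum_MD (b2 : ∀ n (f : F[X]), f ∈ MON F n ↔ f.Monic ∧ f.natDegree = n) (P : F[X])
    (x : F[X] → ℝ) : ∑ δ ∈ MD P, x δ =
      ∑ i ∈ Finset.range (P.natDegree + 1), ∑ δ ∈ (MON F i).filter (fun δ => δ ∣ P), x δ := by
  unfold MD
  rw [Finset.sum_biUnion]
  intro i _ j _ hij
  rw [Function.onFun, Finset.disjoint_left]
  intro δ h1 h2
  rw [Finset.mem_filter, b2] at h1 h2
  exact hij (h1.1.2.symm.trans h2.1.2)

/-- the sum over the divisors of a power, for one polynomial -/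
theorem step1 (b2 : ∀ n (f : F[X]), f ∈ MON F n ↔ f.Monic ∧ f.natDegree = n) {a : ℝ}
    (ha : 0 ≤ a) {b : F[X]} (hb : b.Monic) (k : ℕ) :
    ∑ δ ∈ MD (b ^ (k + 1)), a ^ δ.natDegree ≤
      ∑ g ∈ MD b, a ^ g.natDegree * ∑ δ' ∈ MD (g ^ k), a ^ δ'.natDegree := by
  have hs : ∀ δ ∈ MD (b ^ (k + 1)), ∃ p : F[X] × F[X], p.1.Monic ∧ p.1 ∣ b ∧ p.2.Monic ∧
      p.2 ∣ p.1 ^ k ∧ δ = p.1 * p.2 := by
    intro δ hδ
    rw [mem_MD b2 (pow_ne_zero _ hb.ne_zero)] at hδ
    obtain ⟨g, δ', h1, h2, h3, h4, h5⟩ := split hb hδ.1 k hδ.2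
    exact ⟨(g, δ'), h1, h2, h3, h4, h5⟩
  choose! φ hφ using hs
  have e1 : ∑ g ∈ MD b, a ^ g.natDegree * ∑ δ' ∈ MD (g ^ k), a ^ δ'.natDegree =
      ∑ p ∈ (MD b).sigma (fun g => MD (g ^ k)), a ^ p.1.natDegree * a ^ p.2.natDegree := by
    rw [Finset.sum_sigma]
    refine Finset.sum_congr rfl fun g _ => ?_
    rw [Finset.mul_sum]
  rw [e1]
  have hinj : ∀ δ ∈ MD (b ^ (k + 1)), ∀ δ' ∈ MD (b ^ (k + 1)),
      (⟨(φ δ).1, (φ δ).2⟩ : Σ _ : F[X], F[X]) = ⟨(φ δ').1, (φ δ').2⟩ → δ = δ' := by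
    intro δ hδ δ' hδ' he
    have h1 : (φ δ).1 = (φ δ').1 := congrArg (fun p : Σ _ : F[X], F[X] => p.1) he
    have h2 : (φ δ).2 = (φ δ').2 := congrArg (fun p : Σ _ : F[X], F[X] => p.2) he
    rw [(hφ δ hδ).2.2.2.2, (hφ δ' hδ').2.2.2.2, h1, h2]
  calc ∑ δ ∈ MD (b ^ (k + 1)), a ^ δ.natDegree
      = ∑ δ ∈ MD (b ^ (k + 1)), a ^ (φ δ).1.natDegree * a ^ (φ δ).2.natDegree := by
        refine Finset.sum_congr rfl fun δ hδ => ?_
        obtain ⟨h1, -, h3, -, h5⟩ := hφ δ hδ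
        have h6 : δ.natDegree = (φ δ).1.natDegree + (φ δ).2.natDegree := by
          have h7 := congrArg natDegree h5
          rw [natDegree_mul h1.ne_zero h3.ne_zero] at h7
          exact h7
        rw [← pow_add, h6]
    _ = ∑ p ∈ (MD (b ^ (k + 1))).image (fun δ => (⟨(φ δ).1, (φ δ).2⟩ : Σ _ : F[X], F[X])),
          a ^ p.1.natDegree * a ^ p.2.natDegree := by
        rw [Finset.sum_image]
        exact fun δ hδ δ' hδ' he => hinj δ hδ δ' hδ' he
    _ ≤ _ := by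
        refine Finset.sum_le_sum_of_subset_of_nonneg ?_ fun p _ _ => by positivity
        intro p hp
        rw [Finset.mem_image] at hp
        obtain ⟨δ, hδ, rfl⟩ := hp
        obtain ⟨h1, h2, h3, h4, -⟩ := hφ δ hδ
        rw [Finset.mem_sigma, mem_MD b2 hb.ne_zero, mem_MD b2 (pow_ne_zero _ h1.ne_zero)]
        exact ⟨⟨h1, h2⟩, h3, h4⟩

/-- the number of the multiples -/
theorem card_mult (b2 : ∀ n (f : F[X]), f ∈ MON F n ↔ f.Monic ∧ f.natDegree = n)
    (b5 : ∀ n, (MON F n).card = Fintype.card F ^ n) {g : F[X]} {i e : ℕ} (hg : g ∈ MON F i) :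
    ((MON F e).filter (fun b => g ∣ b)).card ≤ Fintype.card F ^ (e - i) := by
  rw [← b5 (e - i)]
  rw [b2] at hg
  refine le_trans (Finset.card_le_card (t := (MON F (e - i)).image (fun c => g * c)) ?_)
    Finset.card_image_le
  intro b hb
  rw [Finset.mem_filter, b2] at hb
  obtain ⟨⟨h1, h2⟩, c, rfl⟩ := hb
  have hc : c.Monic := hg.1.of_mul_monic_left h1
  rw [Finset.mem_image]
  refine ⟨c, (b2 _ _).2 ⟨hc, ?_⟩, rfl⟩
  rw [hg.1.natDegree_mul hc] at h2
  omega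

/-- the sums -/
def TT (F : Type) [Field F] [Fintype F] (a : ℝ) (k e : ℕ) : ℝ :=
  ∑ b ∈ MON F e, ∑ δ ∈ MD (b ^ k), a ^ δ.natDegree

theorem TT_nonneg {a : ℝ} (ha : 0 ≤ a) (k e : ℕ) : 0 ≤ TT F a k e :=
  Finset.sum_nonneg fun _ _ => Finset.sum_nonneg fun _ _ => pow_nonneg ha _

/-- the recursion -/
theorem recu (b2 : ∀ n (f : F[X]), f ∈ MON F n ↔ f.Monic ∧ f.natDegree = n)
    (b5 : ∀ n, (MON F n).card = Fintype.card F ^ n) {a : ℝ} (ha : 0 ≤ a) (k e : ℕ) :
    TT F a (k + 1) e ≤ ∑ i ∈ Finset.range (e + 1), qq F ^ (e - i) * a ^ i * TT F a k i := by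
  obtain ⟨w, hw⟩ : ∃ w : F[X] → ℝ, ∀ g, w g = ∑ δ' ∈ MD (g ^ k), a ^ δ'.natDegree :=
    ⟨_, fun _ => rfl⟩
  have hw0 : ∀ g, 0 ≤ w g := fun g => by
    rw [hw]
    exact Finset.sum_nonneg fun _ _ => pow_nonneg ha _
  calc TT F a (k + 1) e ≤ ∑ b ∈ MON F e, ∑ g ∈ MD b, a ^ g.natDegree * w g := by
        refine Finset.sum_le_sum fun b hb => ?_
        refine (step1 b2 ha ((b2 _ _).1 hb).1 k).trans (le_of_eq ?_)
        exact Finset.sum_congr rfl fun g _ => by rw [hw]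
    _ = ∑ b ∈ MON F e, ∑ i ∈ Finset.range (e + 1),
          ∑ g ∈ (MON F i).filter (fun g => g ∣ b), a ^ i * w g := by
        refine Finset.sum_congr rfl fun b hb => ?_
        rw [sum_MD b2, ((b2 _ _).1 hb).2]
        refine Finset.sum_congr rfl fun i _ => Finset.sum_congr rfl fun g hg => ?_
        rw [Finset.mem_filter, b2] at hg
        rw [hg.1.2]
    _ = ∑ i ∈ Finset.range (e + 1), ∑ b ∈ MON F e,
          ∑ g ∈ (MON F i).filter (fun g => g ∣ b), a ^ i * w g := Finset.sum_comm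
    _ = ∑ i ∈ Finset.range (e + 1), ∑ g ∈ MON F i,
          ∑ _b ∈ (MON F e).filter (fun b => g ∣ b), a ^ i * w g := by
        refine Finset.sum_congr rfl fun i _ => ?_
        simp only [Finset.sum_filter]
        exact Finset.sum_comm
    _ ≤ ∑ i ∈ Finset.range (e + 1), qq F ^ (e - i) * a ^ i * TT F a k i := by
        refine Finset.sum_le_sum fun i _ => ?_
        unfold TT
        rw [Finset.mul_sum]
        refine Finset.sum_le_sum fun g hg => ?_
        rw [Finset.sum_const, nsmul_eq_mul, ← hw]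
        have h1 : (((MON F e).filter (fun b => g ∣ b)).card : ℝ) ≤ qq F ^ (e - i) := by
          unfold qq
          exact_mod_cast card_mult b2 b5 hg
        have h2 : 0 ≤ a ^ i * w g := mul_nonneg (pow_nonneg ha i) (hw0 g)
        calc (((MON F e).filter (fun b => g ∣ b)).card : ℝ) * (a ^ i * w g)
            ≤ qq F ^ (e - i) * (a ^ i * w g) := mul_le_mul_of_nonneg_right h1 h2
          _ = qq F ^ (e - i) * a ^ i * w g := by ring

theorem TT_zero (b2 : ∀ n (f : F[X]), f ∈ MON F n ↔ f.Monic ∧ f.natDegree = n)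
    (b5 : ∀ n, (MON F n).card = Fintype.card F ^ n) (a : ℝ) (e : ℕ) :
    TT F a 0 e = qq F ^ e := by
  have h1 : (MD (1 : F[X])) = {1} := by
    ext δ
    rw [mem_MD b2 one_ne_zero, Finset.mem_singleton]
    constructor
    · rintro ⟨h1, h2⟩
      exact h1.isUnit_iff.1 (isUnit_of_dvd_one h2)
    · rintro rfl
      exact ⟨monic_one, dvd_rfl⟩
  unfold TT
  have h2 : ∀ b ∈ MON F e, ∑ δ ∈ MD (b ^ 0), a ^ δ.natDegree = 1 := by
    intro b _
    rw [pow_zero, h1, Finset.sum_singleton, natDegree_one, pow_zero]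
  rw [Finset.sum_congr rfl h2, Finset.sum_const, nsmul_eq_mul, mul_one, b5]
  unfold qq
  push_cast
  ring

/-- the geometric sums -/
theorem geo {a : ℝ} (ha0 : 0 < a) (ha1 : a ≤ 9 / 20) (e : ℕ) :
    ∑ i ∈ Finset.range (e + 1), (if i = 0 then 1 else if i = 1 then a / (1 - a) else 3 * a ^ i) ≤
      (3 : ℝ) := by
  have h0 : 0 < 1 - a := by linarith
  have h1 : a / (1 - a) ≤ 9 / 11 := by
    rw [div_le_div_iff₀ h0 (by norm_num)]
    linarith
  rcases e with _ | _ | e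
  · simp
  · rw [Finset.sum_range_succ, Finset.sum_range_succ, Finset.sum_range_zero, if_pos rfl,
      if_neg (by norm_num), if_pos rfl]
    linarith
  · rw [Finset.sum_range_succ', Finset.sum_range_succ']
    have h2 : ∀ i ∈ Finset.range (e + 1), (if i + 1 + 1 = 0 then (1 : ℝ) else
        if i + 1 + 1 = 1 then a / (1 - a) else 3 * a ^ (i + 1 + 1)) = 3 * a ^ 2 * a ^ i := by
      intro i _
      rw [if_neg (by omega), if_neg (by omega)]
      ring
    rw [Finset.sum_congr rfl h2, ← Finset.mul_sum, if_neg (by norm_num), if_pos rfl, if_pos rfl]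
    have h3 := geom_sum_mul_neg a (e + 1)
    have h4 : 0 < a ^ (e + 1) := by positivity
    have h5 : ∑ i ∈ Finset.range (e + 1), a ^ i ≤ 1 / (1 - a) := by
      rw [le_div_iff₀ h0, h3]
      linarith
    have h6 : 3 * a ^ 2 * ∑ i ∈ Finset.range (e + 1), a ^ i ≤ 3 * a ^ 2 * (1 / (1 - a)) :=
      mul_le_mul_of_nonneg_left h5 (by positivity)
    have h7 : 3 * a ^ 2 * (1 / (1 - a)) + a / (1 - a) + 1 ≤ 3 := by
      have e1 : 3 * a ^ 2 * (1 / (1 - a)) + a / (1 - a) + 1 = (3 * a ^ 2 + 1) / (1 - a) := by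
        field_simp
        ring
      rw [e1, div_le_iff₀ h0]
      nlinarith
    linarith

theorem bounds (b2 : ∀ n (f : F[X]), f ∈ MON F n ↔ f.Monic ∧ f.natDegree = n)
    (b5 : ∀ n, (MON F n).card = Fintype.card F ^ n) (hq : 0 < qq F) {a : ℝ} (ha0 : 0 < a)
    (ha1 : a ≤ 9 / 20) (k : ℕ) :
    TT F a k 0 ≤ 1 ∧ TT F a k 1 ≤ qq F / (1 - a) ∧ ∀ e, TT F a k e ≤ 3 * qq F ^ e := by
  have h0 : 0 < 1 - a := by linarith
  induction k with
  | zero =>
    refine ⟨?_, ?_, fun e => ?_⟩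
    · rw [TT_zero b2 b5, pow_zero]
    · rw [TT_zero b2 b5, pow_one, le_div_iff₀ h0]
      nlinarith
    · rw [TT_zero b2 b5]
      have : 0 < qq F ^ e := by positivity
      linarith
  | succ k ih =>
    obtain ⟨i1, i2, i3⟩ := ih
    refine ⟨?_, ?_, fun e => ?_⟩
    · refine (recu b2 b5 ha0.le k 0).trans ?_
      rw [Finset.sum_range_one]
      simpa using i1
    · refine (recu b2 b5 ha0.le k 1).trans ?_
      rw [Finset.sum_range_succ, Finset.sum_range_one]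
      have h1 : qq F ^ (1 - 0) * a ^ 0 * TT F a k 0 ≤ qq F := by
        rw [Nat.sub_zero, pow_one, pow_zero, mul_one]
        exact mul_le_of_le_one_right hq.le i1
      have h2 : qq F ^ (1 - 1) * a ^ 1 * TT F a k 1 ≤ a * (qq F / (1 - a)) := by
        rw [Nat.sub_self, pow_zero, pow_one, one_mul]
        exact mul_le_mul_of_nonneg_left i2 ha0.le
      have h3 : qq F / (1 - a) = qq F + a * (qq F / (1 - a)) := by
        field_simp
        ring
      exact (add_le_add h1 h2).trans (le_of_eq h3.symm)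
    · refine (recu b2 b5 ha0.le k e).trans ?_
      have hterm : ∀ i ∈ Finset.range (e + 1), qq F ^ (e - i) * a ^ i * TT F a k i ≤
          qq F ^ e * (if i = 0 then 1 else if i = 1 then a / (1 - a) else 3 * a ^ i) := by
        intro i hi
        rw [Finset.mem_range] at hi
        split_ifs with c1 c2
        · subst c1
          rw [Nat.sub_zero, pow_zero, mul_one]
          exact mul_le_of_le_one_right (by positivity) i1
        · subst c2
          have e1 : qq F ^ e = qq F ^ (e - 1) * qq F := by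
            rw [← pow_succ]
            congr 1
            omega
          rw [e1, pow_one]
          calc qq F ^ (e - 1) * a * TT F a k 1 ≤ qq F ^ (e - 1) * a * (qq F / (1 - a)) :=
                mul_le_mul_of_nonneg_left i2 (by positivity)
            _ = qq F ^ (e - 1) * qq F * (a / (1 - a)) := by ring
        · have e1 : qq F ^ e = qq F ^ (e - i) * qq F ^ i := by
            rw [← pow_add]
            congr 1
            omega
          rw [e1]
          calc qq F ^ (e - i) * a ^ i * TT F a k i ≤ qq F ^ (e - i) * a ^ i * (3 * qq F ^ i) :=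
                mul_le_mul_of_nonneg_left (i3 i) (by positivity)
            _ = qq F ^ (e - i) * qq F ^ i * (3 * a ^ i) := by ring
      refine (Finset.sum_le_sum hterm).trans ?_
      rw [← Finset.mul_sum]
      calc qq F ^ e * _ ≤ qq F ^ e * 3 :=
            mul_le_mul_of_nonneg_left (geo ha0 ha1 e) (by positivity)
        _ = 3 * qq F ^ e := by ring

end

end XY2

open XY2

theorem p_Y2 (F : Type) [Field F] [Fintype F] [CharP F 5] (hB0 : S_B0 F) : S_Y2 F := by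
  obtain ⟨-, b2, -, -, b5, -⟩ := hB0
  have hq5 := five_le F
  have hq : 0 < qq F := by linarith
  obtain ⟨a, ha⟩ : ∃ a : ℝ, a = qq F ^ (-(1 / 2) : ℝ) := ⟨_, rfl⟩
  have ha0 : 0 < a := by
    rw [ha]
    exact Real.rpow_pos_of_pos hq _
  have ha2 : a ^ 2 * qq F = 1 := by
    rw [ha, ← Real.rpow_natCast, ← Real.rpow_mul hq.le]
    nth_rewrite 2 [← Real.rpow_one (qq F)]
    rw [← Real.rpow_add hq]
    norm_num
  have ha1 : a ≤ 9 / 20 := by
    by_contra hcon
    rw [not_le] at hcon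
    have h1 : (9 / 20 : ℝ) ^ 2 < a ^ 2 := by
      exact pow_lt_pow_left₀ hcon (by norm_num) (by norm_num)
    nlinarith
  intro e
  refine le_trans (le_of_eq ?_) ((bounds b2 b5 hq ha0 ha1 5).2.2 e)
  unfold TT
  refine Finset.sum_congr rfl fun b hb => ?_
  obtain ⟨hbm, hbd⟩ := (b2 _ _).1 hb
  rw [sum_MD b2, hbm.natDegree_pow, hbd]
  refine Finset.sum_congr rfl fun i _ => ?_
  have h1 : ∀ δ ∈ (MON F i).filter (fun δ => δ ∣ b ^ 5), a ^ δ.natDegree = a ^ i := by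
    intro δ hδ
    rw [Finset.mem_filter, b2] at hδ
    rw [hδ.1.2]
  rw [Finset.sum_congr rfl h1, Finset.sum_const, nsmul_eq_mul]
  congr 1
  rw [ha, ← Real.rpow_natCast, ← Real.rpow_mul hq.le]
  congr 1
  ring

end D5

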